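import Mathlib

set_option autoImplicit false

namespace Pool.Agent.H76.AdjGen

/-! The abstract generation lemma. -/

section abs

variable {U : Type} [Ring U] [Algebra (ZMod 2) U] {ι : Type} (x : ι → U)

def X (w : List ι) : U := (w.map x).prod

lemma X_append (v w : List ι) : X x (v ++ w) = X x v * X x w := by simp [X]

def W (n : ℕ) : Submodule (ZMod 2) U := Submodule.span (ZMod 2) {z | ∃ w, n ≤ w.length ∧ z = X x w}

lemma W_anti {m n : ℕ} (h : m ≤ n) : W x n ≤ W x m :=
  Submodule.span_mono fun _ ⟨w, hw, e⟩ => ⟨w, h.trans hw, e⟩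

lemma W_mul {m n : ℕ} {a b : U} (ha : a ∈ W x m) (hb : b ∈ W x n) : a * b ∈ W x (m + n) := by
  induction ha using Submodule.span_induction with
  | mem a ha =>
    induction hb using Submodule.span_induction with
    | mem b hb =>
      obtain ⟨v, hv, rfl⟩ := ha
      obtain ⟨w, hw, rfl⟩ := hb
      exact Submodule.subset_span ⟨v ++ w, by simp; omega, (X_append x v w).symm⟩
    | zero => simp
    | add u v _ _ hu hv => rw [mul_add]; exact Submodule.add_mem _ hu hv
    | smul c u _ hu => rw [mul_smul_comm]; exact Submodule.smul_mem _ _ hu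
  | zero => simp
  | add u v _ _ hu hv => rw [add_mul]; exact Submodule.add_mem _ hu hv
  | smul c u _ hu => rw [smul_mul_assoc]; exact Submodule.smul_mem _ _ hu

lemma X_mem (w : List ι) : X x w ∈ W x w.length := Submodule.subset_span ⟨w, le_rfl, rfl⟩

lemma W_prod (l : List U) (hl : ∀ a ∈ l, a ∈ W x 1) : l.prod ∈ W x l.length := by
  induction l with
  | nil => exact X_mem x []
  | cons a l ih =>
    rw [List.prod_cons, List.length_cons, add_comm]
    exact W_mul x (hl a (by simp)) (ih fun b hb => hl b (by simp [hb]))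

lemma W_bot {N : ℕ} (hN : ∀ w : List ι, N < w.length → X x w = 0) : W x (N + 1) = ⊥ := by
  rw [W, Submodule.span_eq_bot]
  rintro _ ⟨w, hw, rfl⟩
  exact hN w hw

lemma comm_step (hU : ∀ z : U, z ∈ W x 0) (h1 h2 : Uˣ) (A B : U) {t m : ℕ} (ht : 1 ≤ t)
    (hm : 1 ≤ m) (m1 : A ∈ W x t) (m2 : B ∈ W x m) (e1 : (h1 : U) - 1 - A ∈ W x (t + 1))
    (e2 : (h2 : U) - 1 - B ∈ W x (m + 1)) (hs : B * A = 0) :
    ((h1 * h2 * h1⁻¹ * h2⁻¹ : Uˣ) : U) - 1 - A * B ∈ W x (t + m + 1) := by
  have hR : ∀ {n a} (z : U), a ∈ W x n → a * z ∈ W x n := fun {n a} z ha => by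
    simpa using W_mul x ha (hU z)
  obtain ⟨a, hA⟩ : ∃ a, (h1 : U) = 1 + A + a := ⟨(h1 : U) - 1 - A, by abel⟩
  obtain ⟨b, hB⟩ : ∃ b, (h2 : U) = 1 + B + b := ⟨(h2 : U) - 1 - B, by abel⟩
  replace e1 : a ∈ W x (t + 1) := by
    convert e1 using 1
    rw [hA]; abel
  replace e2 : b ∈ W x (m + 1) := by
    convert e2 using 1
    rw [hB]; abel
  have k1 : (h1 : U) * h2 - h2 * h1 =
      A * B + (A * b + a * B + a * b - B * a - b * A - b * a) := by
    have : (h1 : U) * h2 - h2 * h1 = (A + a) * (B + b) - (B + b) * (A + a) := by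
      rw [hA, hB]; noncomm_ring
    rw [this, ← sub_zero (A * B), ← hs]
    noncomm_ring
  have k2 : A * b + a * B + a * b - B * a - b * A - b * a ∈ W x (t + m + 1) := by
    have q1 : A * b ∈ W x (t + m + 1) := W_anti x (by omega) (W_mul x m1 e2)
    have q2 : a * B ∈ W x (t + m + 1) := W_anti x (by omega) (W_mul x e1 m2)
    have q3 : a * b ∈ W x (t + m + 1) := W_anti x (by omega) (W_mul x e1 e2)
    have q4 : B * a ∈ W x (t + m + 1) := W_anti x (by omega) (W_mul x m2 e1)
    have q5 : b * A ∈ W x (t + m + 1) := W_anti x (by omega) (W_mul x e2 m1)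
    have q6 : b * a ∈ W x (t + m + 1) := W_anti x (by omega) (W_mul x e2 e1)
    exact Submodule.sub_mem _ (Submodule.sub_mem _ (Submodule.sub_mem _ (Submodule.add_mem _
      (Submodule.add_mem _ q1 q2) q3) q4) q5) q6
  have k3 : (((h2 * h1)⁻¹ : Uˣ) : U) - 1 ∈ W x 1 := by
    have e : (((h2 * h1)⁻¹ : Uˣ) : U) - 1 =
        -((((h2 * h1 : Uˣ) : U) - 1) * ((h2 * h1)⁻¹ : Uˣ)) := by
      rw [sub_mul, Units.mul_inv, one_mul, neg_sub]
    rw [e]
    refine Submodule.neg_mem _ (hR _ ?_)
    have : ((h2 * h1 : Uˣ) : U) - 1 = (B + b) * h1 + (A + a) := by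
      rw [Units.val_mul]
      conv_lhs => rw [hB]
      have : A + a = h1 - 1 := by rw [hA]; abel
      rw [this]; noncomm_ring
    rw [this]
    exact add_mem (hR _ (add_mem (W_anti x (by omega) m2) (W_anti x (by omega) e2)))
      (add_mem (W_anti x (by omega) m1) (W_anti x (by omega) e1))
  have k4 : ((h1 * h2 * h1⁻¹ * h2⁻¹ : Uˣ) : U) - 1 =
      ((h1 : U) * h2 - h2 * h1) * ((h2 * h1)⁻¹ : Uˣ) := by
    rw [sub_mul, ← Units.val_mul, ← Units.val_mul, ← Units.val_mul, ← Units.val_mul,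
      mul_inv_cancel, Units.val_one, mul_inv_rev, mul_assoc (h1 * h2)]
  rw [k4, k1, add_mul]
  have k5 : A * B * ((h2 * h1)⁻¹ : Uˣ) - A * B ∈ W x (t + m + 1) := by
    have := W_mul x (W_mul x m1 m2) k3
    rwa [mul_sub, mul_one] at this
  convert add_mem k5 (hR ((h2 * h1)⁻¹ : Uˣ) k2) using 1
  abel

theorem gen {N : ℕ} (hN : ∀ w : List ι, N < w.length → X x w = 0)
    (hrot : ∀ w : List ι, 2 ≤ w.length → ∃ s, X x (w.rotate s) = 0)
    (hU : ∀ z : U, z ∈ W x 0) (g : ι → Uˣ) (hg : ∀ a, (g a : U) = 1 + x a) :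
    ∀ r ∈ W x 1, ∃ h ∈ Subgroup.closure (Set.range g), (h : U) = 1 + r := by
  set H := Subgroup.closure (Set.range g) with hH
  have hR : ∀ {n a} (z : U), a ∈ W x n → a * z ∈ W x n := fun {n a} z ha => by
    simpa using W_mul x ha (hU z)
  have hL : ∀ {n a} (z : U), a ∈ W x n → z * a ∈ W x n := fun {n a} z ha => by
    simpa using W_mul x (hU z) ha
  have hinv : ∀ {n} (h : Uˣ), (h : U) - 1 ∈ W x n → ((h⁻¹ : Uˣ) : U) - 1 ∈ W x n := by
    intro n h hh
    have : ((h⁻¹ : Uˣ) : U) - 1 = -(((h : U) - 1) * (h⁻¹ : Uˣ)) := by simp [sub_mul]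
    rw [this]
    exact Submodule.neg_mem _ (hR _ hh)
  -- approximate words
  have hword : ∀ n, 1 ≤ n → ∀ w : List ι, w.length = n →
      ∃ h ∈ H, (h : U) - 1 - X x w ∈ W x (n + 1) := by
    intro n
    induction n using Nat.strong_induction_on with
    | _ n ih =>
      intro hn w hw
      by_cases h1 : n = 1
      · subst h1
        obtain ⟨a, rfl⟩ := List.length_eq_one_iff.1 hw
        exact ⟨g a, Subgroup.subset_closure ⟨a, rfl⟩, by simp [hg, X]⟩
      obtain ⟨s, hs⟩ := hrot w (by omega)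
      rw [← List.rotate_mod, List.rotate_eq_drop_append_take (Nat.mod_lt _ (by omega)).le] at hs
      set t := s % w.length with ht
      have htl : t < w.length := Nat.mod_lt _ (by omega)
      by_cases ht0 : t = 0
      · refine ⟨1, H.one_mem, ?_⟩
        simp only [ht0, List.drop_zero, List.take_zero, List.append_nil] at hs
        simp [hs]
      have l1 : (w.take t).length = t := by simp; omega
      have l2 : (w.drop t).length = n - t := by simp [hw]
      obtain ⟨h1, hh1, e1⟩ := ih t (by omega) (by omega) _ l1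
      obtain ⟨h2, hh2, e2⟩ := ih (n - t) (by omega) (by omega) _ l2
      have m1 := X_mem x (w.take t)
      have m2 := X_mem x (w.drop t)
      rw [l1] at m1
      rw [l2] at m2
      rw [X_append] at hs
      have hw' : X x w = X x (w.take t) * X x (w.drop t) := by
        rw [← X_append, List.take_append_drop]
      refine ⟨h1 * h2 * h1⁻¹ * h2⁻¹, H.mul_mem (H.mul_mem (H.mul_mem hh1 hh2) (H.inv_mem hh1))
        (H.inv_mem hh2), ?_⟩
      rw [hw']
      exact W_anti x (by omega) (comm_step x hU h1 h2 _ _ (by omega) (by omega) m1 m2 e1 e2 hs)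
  have hS : ∀ n, 1 ≤ n → ∀ r ∈ W x n, ∃ h ∈ H, (h : U) - 1 - r ∈ W x (n + 1) := by
    intro n hn r hr
    induction hr using Submodule.span_induction with
    | mem r hr =>
      obtain ⟨w, hw, rfl⟩ := hr
      rcases hw.eq_or_lt with h | h
      · exact hword n hn w h.symm
      · exact ⟨1, H.one_mem, by simpa using W_anti x h (X_mem x w)⟩
    | zero => exact ⟨1, H.one_mem, by simp⟩
    | add a b ha hb iha ihb =>
      obtain ⟨h1, hh1, e1⟩ := iha
      obtain ⟨h2, hh2, e2⟩ := ihb
      refine ⟨h1 * h2, H.mul_mem hh1 hh2, ?_⟩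
      have f1 : (h1 : U) - 1 ∈ W x n := by
        simpa using add_mem (W_anti x (Nat.le_succ n) e1) ha
      have f2 : (h2 : U) - 1 ∈ W x n := by
        simpa using add_mem (W_anti x (Nat.le_succ n) e2) hb
      have := add_mem (add_mem e1 e2) (W_anti x (show n + 1 ≤ n + n by omega) (W_mul x f1 f2))
      convert this using 1
      rw [Units.val_mul]; noncomm_ring
    | smul c a _ iha =>
      have hz : ∀ z : ZMod 2, z = 0 ∨ z = 1 := by decide
      rcases hz c with rfl | rfl
      · exact ⟨1, H.one_mem, by simp⟩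
      · simpa using iha
  have hfin : ∀ k, ∀ r ∈ W x (N + 1 - k), k ≤ N → ∃ h ∈ H, (h : U) = 1 + r := by
    intro k
    induction k with
    | zero =>
      intro r hr _
      rw [Nat.sub_zero, W_bot x hN, Submodule.mem_bot] at hr
      exact ⟨1, H.one_mem, by simp [hr]⟩
    | succ k ih =>
      intro r hr hk
      obtain ⟨h, hh, e⟩ := hS _ (by omega) r hr
      rw [show N + 1 - (k + 1) + 1 = N + 1 - k by omega] at e
      obtain ⟨h', hh', e'⟩ := ih _ (Submodule.neg_mem _ (hL ((h⁻¹ : Uˣ) : U) e)) (by omega)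
      refine ⟨h * h', H.mul_mem hh hh', ?_⟩
      rw [Units.val_mul, e', mul_add, mul_neg, ← mul_assoc, Units.mul_inv, one_mul, mul_one]
      abel
  intro r hr
  exact hfin N r (by simpa using hr) le_rfl

end abs

end Pool.Agent.H76.AdjGen
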