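import Mathlib

set_option autoImplicit false

namespace Pool.Agent.H76.AdjGen

/-! A word on eight letters avoiding conjugacy classes. -/

def al : Fin 8 → Fin 8 := ![0, 0, 2, 2, 1, 3, 3, 1]
def be : Fin 8 → Fin 8 := ![6, 4, 4, 6, 7, 5, 7, 5]

def u (n : ℕ) : Fin 8 :=
  if h : n = 0 then 0 else if n % 2 = 0 then al (u (n / 2)) else be (u (n / 2))
decreasing_by all_goals omega

lemma u_even (n : ℕ) : u (2 * n) = al (u n) := by
  rw [u]
  by_cases h : n = 0
  · subst h; rw [u]; rfl
  · rw [dif_neg (by omega), if_pos (by omega), Nat.mul_div_cancel_left _ (by norm_num)]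

lemma u_odd (n : ℕ) : u (2 * n + 1) = be (u n) := by
  rw [u, dif_neg (by omega), if_neg (by omega), show (2 * n + 1) / 2 = n by omega]

def P (a b : Fin 8) : Prop := (a, b) ∈ [((0 : Fin 8), (4 : Fin 8)), (0, 6), (1, 5), (1, 7), (2, 4),
  (2, 6), (3, 5), (3, 7), (4, 1), (4, 3), (5, 0), (5, 2), (6, 1), (6, 3), (7, 0), (7, 2)]

instance (a b : Fin 8) : Decidable (P a b) := by unfold P; infer_instance

lemma P_u (i : ℕ) : P (u i) (u (i + 1)) := by
  induction i using Nat.strong_induction_on with
  | _ i ih =>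
    rcases Nat.even_or_odd' i with ⟨k, rfl | rfl⟩
    · rw [u_even, u_odd]
      generalize u k = a
      revert a; decide
    · rw [show 2 * k + 1 + 1 = 2 * (k + 1) by ring, u_even, u_odd]
      have := ih k (by omega)
      revert this
      generalize u k = a
      generalize u (k + 1) = b
      revert a b; decide

lemma par_u (i : ℕ) : (u i).val / 4 = i % 2 := by
  rcases Nat.even_or_odd' i with ⟨k, rfl | rfl⟩
  · rw [u_even, show 2 * k % 2 = 0 by omega]
    generalize u k = a
    revert a; decide
  · rw [u_odd, show (2 * k + 1) % 2 = 1 by omega]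
    generalize u k = a
    revert a; decide

def de (a b : Fin 8) : Fin 8 :=
  (List.find? (fun c => al c = a ∧ be c = b) (List.finRange 8)).getD 0

lemma de_spec : ∀ c, de (al c) (be c) = c := by decide

theorem no_cyc (n : ℕ) : 2 ≤ n → ∀ c : ℕ → Fin 8, (∀ s, c (s + n) = c s) →
    (∀ s, ∃ i, ∀ j < n, c (s + j) = u (i + j)) → False := by
  induction n using Nat.strong_induction_on with
  | _ n ih =>
    intro hn c hper hwin
    have hpar : ∀ s, (c s).val / 4 = ((c 0).val / 4 + s) % 2 := by
      intro s
      induction s with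
      | zero => have := (c 0).isLt; omega
      | succ s ihs =>
        obtain ⟨i, hi⟩ := hwin s
        have h0 := hi 0 (by omega)
        have h1 := hi 1 (by omega)
        have := par_u (i + 0)
        have := par_u (i + 1)
        rw [add_zero] at h0
        rw [h1]; rw [h0] at ihs
        omega
    have hev : n % 2 = 0 := by
      have h1 := hpar n
      have h2 := hper 0
      rw [zero_add] at h2
      rw [h2] at h1
      have := (c 0).isLt
      omega
    obtain ⟨m, rfl⟩ : ∃ m, n = 2 * m := ⟨n / 2, by omega⟩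
    set s0 := (c 0).val / 4 with hs0
    have hw2 : ∀ t, ∃ i, ∀ j < m, c (s0 + 2 * (t + j)) = al (u (i + j)) ∧
        c (s0 + 2 * (t + j) + 1) = be (u (i + j)) := by
      intro t
      obtain ⟨i, hi⟩ := hwin (s0 + 2 * t)
      have h0 := hi 0 (by omega)
      have h1 := par_u (i + 0)
      have h2 := hpar (s0 + 2 * t + 0)
      rw [h0, h1] at h2
      obtain ⟨i', rfl⟩ : ∃ i', i = 2 * i' := ⟨i / 2, by omega⟩
      refine ⟨i', fun j hj => ⟨?_, ?_⟩⟩
      · rw [← u_even, mul_add, mul_add, ← add_assoc]; exact hi _ (by omega)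
      · rw [← u_odd, mul_add, mul_add, ← add_assoc, add_assoc (s0 + 2 * t), add_assoc (2 * i')]
        exact hi _ (by omega)
    by_cases hm : m = 1
    · subst hm
      obtain ⟨i, hi⟩ := hw2 0
      obtain ⟨h1, h2⟩ := hi 0 (by omega)
      obtain ⟨k, hk⟩ := hwin (s0 + 1)
      have h3 := hk 0 (by omega)
      have h4 := hk 1 (by omega)
      have h5 := hper s0
      simp only [add_zero, mul_zero, mul_one] at h1 h2 h3 h4 h5
      rw [show s0 + 1 + 1 = s0 + 2 by ring, h5] at h4
      have h6 := par_u k
      have h7 := hpar (s0 + 1)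
      rw [h3, h6] at h7
      obtain ⟨k', rfl⟩ : ∃ k', k = 2 * k' + 1 := ⟨k / 2, by omega⟩
      rw [show 2 * k' + 1 + 1 = 2 * (k' + 1) by ring, u_even] at h4
      rw [u_odd] at h3
      have h8 := P_u k'
      rw [h1] at h4
      rw [h2] at h3
      revert h3 h4 h8
      generalize u k' = a
      generalize u (k' + 1) = b
      generalize u i = d
      revert a b d
      decide
    · refine ih m (by omega) (by omega) (fun t => de (c (s0 + 2 * t)) (c (s0 + 2 * t + 1))) ?_ ?_
      · intro s
        rw [show s0 + 2 * (s + m) = s0 + 2 * s + 2 * m by ring,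
          show s0 + 2 * s + 2 * m + 1 = s0 + 2 * s + 1 + 2 * m by ring, hper, hper]
      · intro t
        obtain ⟨i, hi⟩ := hw2 t
        exact ⟨i, fun j hj => by rw [(hi j hj).1, (hi j hj).2, de_spec]⟩

theorem exists_rot (w : List (Fin 8)) (hw : 2 ≤ w.length) :
    ∃ s, ∀ i, ¬ ∀ j (h : j < (w.rotate s).length), (w.rotate s)[j] = u (i + j) := by
  by_contra hcon
  push Not at hcon
  refine no_cyc w.length hw (fun s => w[s % w.length]'(Nat.mod_lt _ (by omega))) ?_ ?_
  · intro s; simp
  · intro s
    obtain ⟨i, hi⟩ := hcon s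
    refine ⟨i, fun j hj => ?_⟩
    rw [← hi j (by simpa using hj), List.getElem_rotate]
    simp [add_comm]

end Pool.Agent.H76.AdjGen
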