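import Mathlib
import Pool.Agent.H76.AdjWord
import Pool.Agent.H76.AdjAbs

set_option autoImplicit false

namespace Pool.Agent.H76.AdjGen

/-! The concrete algebras. -/

/-- partial shifts -/
def T (N : ℕ) (a : Fin 8) : Module.End (ZMod 2) (ℕ → ZMod 2) where
  toFun f i := if i < N ∧ u i = a then f (i + 1) else 0
  map_add' f g := by funext i; simp only [Pi.add_apply]; split_ifs <;> simp
  map_smul' c f := by funext i; simp only [Pi.smul_apply, RingHom.id_apply]; split_ifs <;> simp

open Classical in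
lemma T_word (N : ℕ) (w : List (Fin 8)) (f : ℕ → ZMod 2) (i : ℕ) (hi : i ≤ N) :
    (w.map (T N)).prod f i =
      if i + w.length ≤ N ∧ ∀ j (h : j < w.length), w[j] = u (i + j) then f (i + w.length)
      else 0 := by
  induction w generalizing i with
  | nil => simp [hi]
  | cons a w ih =>
    rw [List.map_cons, List.prod_cons, Module.End.mul_apply]
    change (if i < N ∧ u i = a then (w.map (T N)).prod f (i + 1) else 0) = _
    by_cases h : i < N ∧ u i = a
    · rw [if_pos h, ih _ (by omega)]
      have e : i + (a :: w).length = i + 1 + w.length := by simp; ring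
      rw [e]
      refine if_congr (and_congr_right fun _ => ⟨fun h' j hj => ?_, fun h' j hj => ?_⟩) rfl rfl
      · cases j with
        | zero => simpa using h.2.symm
        | succ j => simpa [add_assoc, add_comm 1] using h' j (by simpa using hj)
      · rw [show i + 1 + j = i + (j + 1) by ring]
        exact h' (j + 1) (by simpa using hj)
    · rw [if_neg h, if_neg]
      rintro ⟨h1, h2⟩
      exact h ⟨by simp at h1; omega, (h2 0 (by simp)).symm⟩

lemma T_word_zero (N : ℕ) (w : List (Fin 8)) (hw : w ≠ [])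
    (h : N < w.length ∨ ∀ i, ¬ ∀ j (h : j < w.length), w[j] = u (i + j)) :
    (w.map (T N)).prod = 0 := by
  refine LinearMap.ext fun f => funext fun i => ?_
  by_cases hi : i ≤ N
  · rw [T_word _ _ _ _ hi, if_neg]
    · rfl
    · rintro ⟨h1, h2⟩
      rcases h with h | h
      · omega
      · exact h i h2
  · obtain ⟨a, w, rfl⟩ := List.exists_cons_of_ne_nil hw
    rw [List.map_cons, List.prod_cons, Module.End.mul_apply]
    change (if i < N ∧ u i = a then (w.map (T N)).prod f (i + 1) else 0) = _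
    rw [if_neg (fun h => hi h.1.le)]
    rfl

/-- the nilpotent algebra -/
abbrev R (N : ℕ) : Type :=
  NonUnitalAlgebra.adjoin (ZMod 2) (Set.range (T N))

def gx (N : ℕ) (a : Fin 8) : Unitization (ZMod 2) (R N) :=
  Unitization.inr ⟨T N a, NonUnitalAlgebra.subset_adjoin (ZMod 2) ⟨a, rfl⟩⟩

lemma X_eq (N : ℕ) (w : List (Fin 8)) (hw : w ≠ []) :
    ∃ r : R N, X (gx N) w = Unitization.inr r ∧ r.1 = (w.map (T N)).prod := by
  induction w with
  | nil => exact absurd rfl hw
  | cons a w ih =>
    by_cases h : w = []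
    · subst h
      exact ⟨⟨T N a, NonUnitalAlgebra.subset_adjoin (ZMod 2) ⟨a, rfl⟩⟩, by simp [X, gx], by simp⟩
    · obtain ⟨r, h1, h2⟩ := ih h
      refine ⟨⟨T N a, NonUnitalAlgebra.subset_adjoin (ZMod 2) ⟨a, rfl⟩⟩ * r, ?_, ?_⟩
      · rw [Unitization.inr_mul, ← h1]; simp [X, gx]
      · simp [h2]

lemma X_zero (N : ℕ) (w : List (Fin 8)) (hw : w ≠ [])
    (h : N < w.length ∨ ∀ i, ¬ ∀ j (h : j < w.length), w[j] = u (i + j)) :
    X (gx N) w = 0 := by
  obtain ⟨r, h1, h2⟩ := X_eq N w hw
  rw [T_word_zero N w hw h] at h2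
  rw [h1, show r = 0 from Subtype.ext h2, Unitization.inr_zero]

lemma X_long (N : ℕ) (w : List (Fin 8)) (h : N < w.length) : X (gx N) w = 0 :=
  X_zero N w (by rintro rfl; simp at h) (Or.inl h)

lemma inr_mem (N : ℕ) (r : R N) : (Unitization.inr r : Unitization (ZMod 2) (R N)) ∈
    W (gx N) 1 := by
  obtain ⟨r, hr⟩ := r
  induction hr using NonUnitalAlgebra.adjoin_induction with
  | mem z hz =>
    obtain ⟨a, rfl⟩ := hz
    simpa [X, gx] using X_mem (gx N) [a]
  | add a b ha hb iha ihb =>
    have := add_mem iha ihb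
    rwa [← Unitization.inr_add] at this
  | zero => exact zero_mem _
  | mul a b ha hb iha ihb =>
    have := W_anti _ (by norm_num : 1 ≤ 1 + 1) (W_mul _ iha ihb)
    rwa [← Unitization.inr_mul] at this
  | smul c a ha iha =>
    have := Submodule.smul_mem _ c iha
    rwa [← Unitization.inr_smul] at this

lemma all_mem (N : ℕ) (z : Unitization (ZMod 2) (R N)) : z ∈ W (gx N) 0 := by
  rw [← z.inl_fst_add_inr_snd_eq]
  refine add_mem ?_ (W_anti _ (by norm_num) (inr_mem N _))
  have := Submodule.smul_mem _ z.fst (X_mem (gx N) [])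
  simpa [X, ← Unitization.algebraMap_eq_inl, Algebra.algebraMap_eq_smul_one] using this

lemma nilp (N : ℕ) (y : Fin (N + 1) → R N) :
    (List.ofFn (fun i => (Unitization.inr (y i) : Unitization (ZMod 2) (R N)))).prod = 0 := by
  have := W_prod (gx N) (List.ofFn (fun i => (Unitization.inr (y i) : Unitization (ZMod 2) (R N))))
    (by simp [List.mem_ofFn, inr_mem])
  rwa [List.length_ofFn, W_bot _ (X_long N), Submodule.mem_bot] at this

lemma rank_ge (N : ℕ) : (N : Cardinal) ≤ Module.rank (ZMod 2) (R N) := by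
  classical
  have h : ∀ n : Fin N, ∃ r : R N, r.1 = ((List.ofFn fun j : Fin (n + 1) => u j).map (T N)).prod :=
    fun n => (X_eq N _ (by simp)).imp fun _ h => h.2
  choose r hr using h
  let φ : R N →ₗ[ZMod 2] (Fin N → ZMod 2) :=
    { toFun := fun z m => z.1 (Pi.single ((m : ℕ) + 1) 1) 0
      map_add' := fun _ _ => rfl
      map_smul' := fun _ _ => rfl }
  have hli : LinearIndependent (ZMod 2) r := by
    apply LinearIndependent.of_comp φ
    convert (Pi.basisFun (ZMod 2) (Fin N)).linearIndependent using 1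
    funext n m
    simp only [Function.comp, φ, LinearMap.coe_mk, AddHom.coe_mk, hr]
    rw [T_word _ _ _ _ (Nat.zero_le _), if_pos ⟨by simp, fun j hj => by
      rw [List.getElem_ofFn, zero_add]⟩]
    simp [Pi.single_apply, Fin.ext_iff, eq_comm]
  simpa using hli.cardinal_le_rank

theorem main (N : ℕ) : ∃ g : Fin 8 → (Unitization (ZMod 2) (R N))ˣ,
    (∀ i, ∃ r : R N, (g i : Unitization (ZMod 2) (R N)) = 1 + Unitization.inr r) ∧
    ∀ r : R N, ∃ v ∈ Subgroup.closure (Set.range g),
      (v : Unitization (ZMod 2) (R N)) = 1 + Unitization.inr r := by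
  have hu : ∀ a, IsUnit (1 + gx N a) := fun a => by
    refine IsNilpotent.isUnit_one_add (r := gx N a) ⟨N + 1, ?_⟩
    have := X_long N (List.replicate (N + 1) a) (by simp)
    simpa [X] using this
  refine ⟨fun a => (hu a).unit, fun a => ⟨_, rfl⟩, fun r => ?_⟩
  refine gen (gx N) (X_long N) (fun w hw => ?_) (all_mem N) _ (fun a => rfl) _ (inr_mem N r)
  obtain ⟨s, hs⟩ := exists_rot w hw
  exact ⟨s, X_zero N _ (by rw [Ne, List.rotate_eq_nil_iff]; rintro rfl; simp at hw) (Or.inr hs)⟩

end Pool.Agent.H76.AdjGen
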