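import Mathlib

namespace Pool.Agent.H76.AglA

open Finset

variable {F : Type} [Field F] [Fintype F] [DecidableEq F]

set_option linter.unusedSectionVars false

theorem sum_inv (C : Finset F) (a b : F) (ha : a ≠ 0) (h : ∀ x ∈ C, a * x + b ∈ C) :
    C.image (fun x => a * x + b) = C := by
  apply eq_of_subset_of_card_le
  · intro y hy
    obtain ⟨x, hx, rfl⟩ := mem_image.1 hy
    exact h x hx
  · rw [card_image_of_injective]
    intro x y hxy
    exact mul_left_cancel₀ ha (add_right_cancel hxy)

theorem sum_map (C : Finset F) (a b : F) (ha : a ≠ 0) (h : ∀ x ∈ C, a * x + b ∈ C) (f : F → F) :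
    ∑ x ∈ C, f (a * x + b) = ∑ x ∈ C, f x := by
  conv_rhs => rw [← sum_inv C a b ha h]
  rw [sum_image]
  intro x _ y _ hxy
  exact mul_left_cancel₀ ha (add_right_cancel hxy)

theorem card_dvd (h2 : (2 : F) = 0) (T : Finset F) (h0 : (0 : F) ∈ T)
    (hT : ∀ s ∈ T, ∀ t ∈ T, s + t ∈ T) (C : Finset F) :
    (∀ x ∈ C, ∀ t ∈ T, x + t ∈ C) → T.card ∣ C.card := by
  induction C using Finset.strongInduction with
  | H C ih =>
    intro hC
    rcases C.eq_empty_or_nonempty with rfl | ⟨x, hx⟩
    · simp
    have hK : T.image (fun t => x + t) ⊆ C := by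
      intro y hy
      obtain ⟨t, ht, rfl⟩ := mem_image.1 hy
      exact hC x hx t ht
    have hc : (T.image (fun t => x + t)).card = T.card :=
      card_image_of_injective _ (add_right_injective x)
    have := ih (C \ T.image (fun t => x + t))
      (sdiff_ssubset hK ⟨x, mem_image.2 ⟨0, h0, add_zero x⟩⟩) (by
        intro y hy t ht
        rw [mem_sdiff] at hy ⊢
        refine ⟨hC y hy.1 t ht, fun h => hy.2 ?_⟩
        obtain ⟨s, hs, e⟩ := mem_image.1 h
        exact mem_image.2 ⟨s + t, hT s hs t ht, by linear_combination e + t * h2⟩)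
    rw [← card_sdiff_add_card_eq_card hK, hc]
    exact dvd_add this dvd_rfl

def st (C : Finset F) : Finset F := univ.filter fun t => ∀ x ∈ C, x + t ∈ C

theorem mem_st {C : Finset F} {t : F} : t ∈ st C ↔ ∀ x ∈ C, x + t ∈ C := by simp [st]

theorem st0 (C : Finset F) : (0 : F) ∈ st C := mem_st.2 fun x hx => by simpa using hx

theorem st_add (C : Finset F) : ∀ s ∈ st C, ∀ t ∈ st C, s + t ∈ st C := fun s hs t ht =>
  mem_st.2 fun x hx => by rw [← add_assoc]; exact mem_st.1 ht _ (mem_st.1 hs x hx)

theorem st_dvd (h2 : (2 : F) = 0) (C : Finset F) : (st C).card ∣ C.card :=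
  card_dvd h2 _ (st0 C) (st_add C) C fun x hx _ ht => mem_st.1 ht x hx

theorem pow_two (h2 : (2 : F) = 0) {α : ℕ} (hq : Fintype.card F = 2 ^ α) (T : Finset F)
    (h0 : (0 : F) ∈ T) (hT : ∀ s ∈ T, ∀ t ∈ T, s + t ∈ T) : ∃ t ≤ α, T.card = 2 ^ t := by
  have := card_dvd h2 T h0 hT univ (fun _ _ _ _ => mem_univ _)
  rw [card_univ, hq] at this
  exact (Nat.dvd_prime_pow Nat.prime_two).1 this

theorem sum_two (h2 : (2 : F) = 0) (t : F) (ht : t ≠ 0) (C : Finset F) :
    (∀ x ∈ C, x + t ∈ C) → ∑ x ∈ C, x = 0 ∨ ∑ x ∈ C, x = t := by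
  induction C using Finset.strongInduction with
  | H C ih =>
    intro hC
    rcases C.eq_empty_or_nonempty with rfl | ⟨x, hx⟩
    · simp
    have hne : x ≠ x + t := by simpa using ht
    have hK : ({x, x + t} : Finset F) ⊆ C := by
      intro y hy
      rcases mem_insert.1 hy with rfl | hy
      · exact hx
      · rw [mem_singleton.1 hy]; exact hC x hx
    have := ih (C \ {x, x + t}) (sdiff_ssubset hK ⟨x, by simp⟩) (by
      intro y hy
      simp only [mem_sdiff, mem_insert, mem_singleton, not_or] at hy ⊢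
      exact ⟨hC y hy.1, fun h => hy.2.2 (by linear_combination h - t * h2),
        fun h => hy.2.1 (add_right_cancel h)⟩)
    rw [← sum_sdiff hK, sum_pair hne]
    rcases this with h | h
    · right; rw [h]; linear_combination x * h2
    · left; rw [h]; linear_combination (x + t) * h2

/-- conclusion wanted -/
def Good (d : ℕ) (C : Finset F) : Prop :=
  ∀ a b : F, a ≠ 0 → (∀ x ∈ C, a * x + b ∈ C) → a ^ d = 1 ∧ b = 0

theorem even_case (h2 : (2 : F) = 0) (W : Finset F)
    (j : ℕ) (h3 : 3 ≤ j) (hj : 2 * j ≤ W.card) (he : Even j) :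
    ∃ C ⊆ W, C.card = j ∧ Good 1 C := by
  have key : ∃ C ⊆ W, C.card = j ∧ ∑ x ∈ C, x ≠ 0 ∧ ∀ t ∈ st C, t = 0 := by
    have swap : ∀ C ⊆ W, C.card = j → ∀ y ∈ C, ∀ z ∈ W, z ∉ C →
        insert z (C.erase y) ⊆ W ∧ (insert z (C.erase y)).card = j ∧
          ∑ x ∈ insert z (C.erase y), x = ∑ x ∈ C, x + y + z := by
      intro C hW hc y hy z hz hzC
      have hz' : z ∉ C.erase y := fun h => hzC (mem_of_mem_erase h)
      refine ⟨insert_subset hz ((erase_subset _ _).trans hW), ?_, ?_⟩
      · rw [card_insert_of_notMem hz', card_erase_of_mem hy]; omega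
      · rw [sum_insert hz', ← add_sum_erase C (fun x => x) hy]
        linear_combination (-y) * h2
    have k1 : ∃ C ⊆ W, C.card = j ∧ ∑ x ∈ C, x ≠ 0 := by
      obtain ⟨C, hW, hc⟩ := exists_subset_card_eq (s := W) (n := j) (by omega)
      by_cases hp : ∑ x ∈ C, x = 0
      · obtain ⟨y, hy⟩ : C.Nonempty := card_pos.1 (by omega)
        obtain ⟨z, hz, hzC⟩ := exists_mem_notMem_of_card_lt_card (s := C) (t := W) (by omega)
        obtain ⟨a1, a2, a3⟩ := swap C hW hc y hy z hz hzC
        refine ⟨_, a1, a2, fun h => hzC ?_⟩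
        have : z = y := by linear_combination h - a3 - hp - y * h2
        rwa [this]
      · exact ⟨C, hW, hc, hp⟩
    obtain ⟨C, hW, hc, hp⟩ := k1
    by_contra hcon
    push Not at hcon
    obtain ⟨t, ht, ht0⟩ := hcon C hW hc hp
    have hpt : ∑ x ∈ C, x = t := (sum_two h2 t ht0 C (mem_st.1 ht)).resolve_left hp
    obtain ⟨y, hy⟩ : C.Nonempty := card_pos.1 (by omega)
    have hyt : y + t ∈ C := mem_st.1 ht y hy
    have hne : y ≠ y + t := by simpa using ht0
    have hK : ({y, y + t} : Finset F) ⊆ C := by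
      intro u hu
      rcases mem_insert.1 hu with rfl | hu
      · exact hy
      · rw [mem_singleton.1 hu]; exact hyt
    have hsub : (W \ C).image (fun z => t + y + z) ⊆ st (C \ {y, y + t}) := by
      intro u hu
      obtain ⟨z, hz, rfl⟩ := mem_image.1 hu
      rw [mem_sdiff] at hz
      obtain ⟨a1, a2, a3⟩ := swap C hW hc y hy z hz.1 hz.2
      rw [hpt] at a3
      have a4 : t + y + z ≠ 0 := fun h => hz.2 (by
        have : z = y + t := by linear_combination h - (y + t) * h2
        rwa [this])
      obtain ⟨s, hs, hs0⟩ := hcon _ a1 a2 (by rwa [a3])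
      have hs' : s = t + y + z := by
        have := (sum_two h2 s hs0 _ (mem_st.1 hs)).resolve_left (by rwa [a3])
        rw [← this, a3]
      rw [mem_st]
      intro x hx
      simp only [mem_sdiff, mem_insert, mem_singleton, not_or] at hx ⊢
      have := mem_st.1 hs x (mem_insert_of_mem (mem_erase.2 ⟨hx.2.1, hx.1⟩))
      rw [hs'] at this
      rcases mem_insert.1 this with h | h
      · exact absurd (by linear_combination h - (y + t) * h2) hx.2.2
      · refine ⟨mem_of_mem_erase h, ne_of_mem_erase h, fun h' => hz.2 ?_⟩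
        have : z = x := by linear_combination h' - x * h2
        rw [this]; exact hx.1
    have c1 := card_le_card hsub
    rw [card_image_of_injective _ (add_right_injective _), card_sdiff_of_subset hW] at c1
    have c2 := st_dvd h2 (C \ {y, y + t})
    rw [card_sdiff_of_subset hK, card_pair hne] at c2
    have := Nat.le_of_dvd (by omega) c2
    omega
  obtain ⟨C, hW, hc, hp, hs⟩ := key
  refine ⟨C, hW, hc, fun a b ha h => ?_⟩
  have e := sum_map C a b ha h (fun x => x)
  rw [sum_add_distrib, ← mul_sum, sum_const, hc, nsmul_eq_mul] at e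
  obtain ⟨r, hr⟩ := he
  have hj0 : (j : F) = 0 := by rw [hr]; push_cast; linear_combination (r : F) * h2
  have ha1 : a = 1 := by
    apply mul_right_cancel₀ hp
    linear_combination e - b * hj0
  subst ha1
  exact ⟨one_pow _, hs b (mem_st.2 fun x hx => by simpa using h x hx)⟩

theorem odd_case (h2 : (2 : F) = 0) (W : Finset F) (hT : ∀ s ∈ W, ∀ t ∈ W, s + t ∈ W)
    (j : ℕ) (h3 : 3 ≤ j) (hj : 2 * j + 2 ≤ W.card) (ho : Odd j) :
    ∃ C ⊆ W, C.card = j ∧ Good 1 C := by
  obtain ⟨r, hr⟩ := ho
  have hj1 : (j : F) = 1 := by rw [hr]; push_cast; linear_combination (r : F) * h2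
  have key : ∃ C ⊆ W, C.card = j ∧ ∑ x ∈ C, x = 0 ∧ ∑ x ∈ C, x⁻¹ ≠ 0 := by
    have k1 : ∃ C ⊆ W, C.card = j ∧ ∑ x ∈ C, x = 0 := by
      obtain ⟨C, hW, hc⟩ := exists_subset_card_eq (s := W) (n := j) (by omega)
      have hp : ∑ x ∈ C, x ∈ W := by
        apply sum_induction_nonempty (fun x => x) (fun x => x ∈ W) (fun a b ha hb => hT a ha b hb)
          (card_pos.1 (by omega)) (fun x hx => hW hx)
      refine ⟨C.image (fun x => x + ∑ x ∈ C, x), ?_, ?_, ?_⟩
      · intro y hy
        obtain ⟨x, hx, rfl⟩ := mem_image.1 hy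
        exact hT _ (hW hx) _ hp
      · rw [card_image_of_injective _ (add_left_injective _), hc]
      · rw [sum_image (fun x _ y _ h => add_right_cancel h), sum_add_distrib, sum_const, hc,
          nsmul_eq_mul, hj1]
        linear_combination (∑ x ∈ C, x) * h2
    obtain ⟨C, hW, hc, hp⟩ := k1
    by_contra hcon
    push Not at hcon
    obtain ⟨y, hy, y', hy', hne⟩ := one_lt_card.1 (show 1 < C.card by omega)
    obtain ⟨s, hs⟩ : ∃ s, s = y + y' := ⟨_, rfl⟩
    have hy2 : y' = y + s := by rw [hs]; linear_combination (-y) * h2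
    subst hy2
    have hs0 : s ≠ 0 := by simpa using hne
    have hsW : s ∈ W := by rw [hs]; exact hT _ (hW hy) _ (hW hy')
    have hK : ({y, y + s} : Finset F) ⊆ C := by
      intro u hu
      rcases mem_insert.1 hu with rfl | hu
      · exact hy
      · rw [mem_singleton.1 hu]; exact hy'
    have hf : ∀ z ∈ W, z ∉ C → z + s ∉ C → z⁻¹ + (z + s)⁻¹ = y⁻¹ + (y + s)⁻¹ := by
      intro z hz h1 h1'
      have hne' : z ≠ z + s := by simpa using hs0
      have hd : Disjoint (C \ {y, y + s}) {z, z + s} := by
        rw [disjoint_right]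
        intro u hu h
        rcases mem_insert.1 hu with rfl | hu
        · exact h1 (mem_sdiff.1 h).1
        · rw [mem_singleton.1 hu] at h; exact h1' (mem_sdiff.1 h).1
      have e1 := hcon C hW hc hp
      have e2 := hcon ((C \ {y, y + s}) ∪ {z, z + s}) (union_subset (sdiff_subset.trans hW) (by
        intro u hu
        rcases mem_insert.1 hu with rfl | hu
        · exact hz
        · rw [mem_singleton.1 hu]; exact hT _ hz _ hsW))
        (by rw [card_union_of_disjoint hd, card_sdiff_of_subset hK, card_pair hne, card_pair hne']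
            omega)
        (by rw [← sum_sdiff hK, sum_pair hne] at hp
            rw [sum_union hd, sum_pair hne']
            linear_combination hp + (z - y) * h2)
      rw [← sum_sdiff hK, sum_pair hne] at e1
      rw [sum_union hd, sum_pair hne'] at e2
      linear_combination e2 - e1
    have hcard : (C ∪ C.image (fun x => x + s)).card + 2 ≤ 2 * j := by
      have a1 := card_union_add_card_inter C (C.image (fun x => x + s))
      rw [card_image_of_injective _ (add_left_injective _), hc] at a1
      have a2 : ({y, y + s} : Finset F) ⊆ C ∩ C.image (fun x => x + s) := by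
        apply subset_inter hK
        intro u hu
        rcases mem_insert.1 hu with rfl | hu
        · exact mem_image.2 ⟨u + s, hy', by linear_combination s * h2⟩
        · rw [mem_singleton.1 hu]; exact mem_image.2 ⟨y, hy, rfl⟩
      have a3 := card_le_card a2
      rw [card_pair hne] at a3
      omega
    have good : ∀ z, z ∉ C ∪ C.image (fun x => x + s) → z ∉ C ∧ z + s ∉ C := fun z hz =>
      ⟨fun h => hz (mem_union_left _ h), fun h => hz (mem_union_right _
        (mem_image.2 ⟨z + s, h, by linear_combination s * h2⟩))⟩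
    obtain ⟨z, hz, hzC⟩ := exists_mem_notMem_of_card_lt_card
      (s := C ∪ C.image (fun x => x + s)) (t := W) (by omega)
    obtain ⟨w, hw, hwC⟩ := exists_mem_notMem_of_card_lt_card
      (s := (C ∪ C.image (fun x => x + s)) ∪ {z, z + s}) (t := W) (by
        have := card_union_le (C ∪ C.image (fun x => x + s)) {z, z + s}
        have := card_le_two (a := z) (b := z + s)
        omega)
    have gz := good z hzC
    have gw := good w (fun h => hwC (mem_union_left _ h))
    have hwz : w ≠ z ∧ w ≠ z + s := by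
      have : w ∉ ({z, z + s} : Finset F) := fun h => hwC (mem_union_right _ h)
      simpa using this
    have inj : ∀ u v : F, u ≠ 0 → u + s ≠ 0 → v ≠ 0 → v + s ≠ 0 →
        u⁻¹ + (u + s)⁻¹ = v⁻¹ + (v + s)⁻¹ → u = v ∨ u = v + s := by
      intro u v a1 a2 a3 a4 h
      have e : ∀ u : F, u ≠ 0 → u + s ≠ 0 → (u⁻¹ + (u + s)⁻¹) * (u * (u + s)) = s := by
        intro u b1 b2
        field_simp
        linear_combination u * h2
      have e1 := e u a1 a2
      have e2 := e v a3 a4
      rw [h] at e1
      have e3 : u * (u + s) = v * (v + s) :=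
        mul_left_cancel₀ (fun h0 => hs0 (by rw [← e2, h0, zero_mul])) (e1.trans e2.symm)
      have : (u - v) * (u - (v + s)) = 0 := by
        linear_combination e3 + (-u * v - u * s + v * v + v * s) * h2
      rcases mul_eq_zero.1 this with h | h
      · left; linear_combination h
      · right; linear_combination h
    have fz := hf z hz gz.1 gz.2
    have fw := hf w hw gw.1 gw.2
    have nzy : ¬ (z = y ∨ z = y + s) := fun h => gz.1 (by rcases h with h | h <;> rwa [h])
    have nwy : ¬ (w = y ∨ w = y + s) := fun h => gw.1 (by rcases h with h | h <;> rwa [h])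
    have nwz : ¬ (w = z ∨ w = z + s) := fun h => h.elim hwz.1 hwz.2
    have zero : ∀ u v : F, (u = 0 ∨ u + s = 0) → (v = 0 ∨ v + s = 0) → u = v ∨ u = v + s := by
      intro u v a1 a2
      rcases a1 with a1 | a1 <;> rcases a2 with a2 | a2
      · left; rw [a1, a2]
      · right; rw [a1, a2]
      · right; linear_combination a1 - a2 - s * h2
      · left; linear_combination a1 - a2
    by_cases cy : y = 0 ∨ y + s = 0
    · have n1 : ¬ (z = 0 ∨ z + s = 0) := fun h => nzy (zero _ _ h cy)
      have n2 : ¬ (w = 0 ∨ w + s = 0) := fun h => nwy (zero _ _ h cy)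
      push Not at n1 n2
      exact nwz (inj _ _ n2.1 n2.2 n1.1 n1.2 (fw.trans fz.symm))
    · by_cases cz : z = 0 ∨ z + s = 0
      · have n2 : ¬ (w = 0 ∨ w + s = 0) := fun h => nwz (zero _ _ h cz)
        push Not at cy n2
        exact nwy (inj _ _ n2.1 n2.2 cy.1 cy.2 fw)
      · push Not at cy cz
        exact nzy (inj _ _ cz.1 cz.2 cy.1 cy.2 fz)
  obtain ⟨C, hW, hc, hp, hs⟩ := key
  refine ⟨C, hW, hc, fun a b ha h => ?_⟩
  have e := sum_map C a b ha h (fun x => x)
  rw [sum_add_distrib, ← mul_sum, sum_const, hc, nsmul_eq_mul, hp, hj1] at e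
  have hb : b = 0 := by linear_combination e
  subst hb
  have e := sum_map C a 0 ha h (fun x => x⁻¹)
  simp only [add_zero, mul_inv, ← mul_sum] at e
  have : a⁻¹ = 1 := by
    apply mul_right_cancel₀ hs
    rw [e, one_mul]
  exact ⟨by rw [pow_one]; exact inv_eq_one.1 this, rfl⟩

end Pool.Agent.H76.AglA
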