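import Mathlib
import Pool.Agent.H76.AglA

namespace Pool.Agent.H76.AglB

open Finset Pool.Agent.H76.AglA

variable {F : Type} [Field F] [Fintype F] [DecidableEq F]

set_option linter.unusedSectionVars false

def mu (F : Type) [Field F] [Fintype F] [DecidableEq F] (d : ℕ) : Finset F :=
  univ.filter fun z => z ^ d = 1

def orb (d : ℕ) (y : F) : Finset F := (mu F d).image fun z => z * y

def Inv (d : ℕ) (C : Finset F) : Prop := ∀ z : F, z ^ d = 1 → ∀ x ∈ C, z * x ∈ C

theorem mem_orb {d : ℕ} {x y : F} : x ∈ orb d y ↔ ∃ z : F, z ^ d = 1 ∧ z * y = x := by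
  simp [orb, mu]

theorem orb_card {d : ℕ} (hm : (mu F d).card = d) {y : F} (hy : y ≠ 0) : (orb d y).card = d := by
  rw [orb, card_image_of_injective _ (mul_left_injective₀ hy), hm]

theorem orb_sub {d : ℕ} {C : Finset F} (h : Inv d C) {y : F} (hy : y ∈ C) : orb d y ⊆ C := by
  intro x hx
  obtain ⟨z, hz, rfl⟩ := mem_orb.1 hx
  exact h z hz y hy

theorem self_orb (d : ℕ) (y : F) : y ∈ orb d y := mem_orb.2 ⟨1, one_pow _, one_mul _⟩

theorem back {d : ℕ} (hd : 0 < d) {C : Finset F} (h : Inv d C) {z x : F} (hz : z ^ d = 1)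
    (hx : z * x ∈ C) : x ∈ C := by
  have h0 : z ≠ 0 := by rintro rfl; rw [zero_pow hd.ne'] at hz; exact zero_ne_one hz
  have := h z⁻¹ (by rw [inv_pow, hz, inv_one]) _ hx
  rwa [inv_mul_cancel_left₀ h0] at this

theorem inv_orb (d : ℕ) (y : F) : Inv d (orb d y) := by
  intro z hz x hx
  obtain ⟨w, hw, rfl⟩ := mem_orb.1 hx
  exact mem_orb.2 ⟨z * w, by rw [mul_pow, hz, hw, one_mul], mul_assoc _ _ _⟩

theorem orb_disj {d : ℕ} (hd : 0 < d) {C : Finset F} (h : Inv d C) {y : F} (hy : y ∉ C) :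
    Disjoint C (orb d y) := by
  rw [disjoint_right]
  intro x hx hC
  obtain ⟨z, hz, rfl⟩ := mem_orb.1 hx
  exact hy (back hd h hz hC)

theorem inv_union {d : ℕ} {C D : Finset F} (h : Inv d C) (h' : Inv d D) : Inv d (C ∪ D) :=
  fun z hz x hx => (mem_union.1 hx).elim (fun a => mem_union_left _ (h z hz x a))
    (fun a => mem_union_right _ (h' z hz x a))

theorem inv_sdiff {d : ℕ} (hd : 0 < d) {C D : Finset F} (h : Inv d C) (h' : Inv d D) :
    Inv d (C \ D) := fun z hz x hx =>
  mem_sdiff.2 ⟨h z hz x (mem_sdiff.1 hx).1, fun a => (mem_sdiff.1 hx).2 (back hd h' hz a)⟩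

theorem inv_st {d : ℕ} (hd : 0 < d) {C : Finset F} (h : Inv d C) : Inv d (st C) := by
  intro z hz t ht
  have h0 : z ≠ 0 := by rintro rfl; rw [zero_pow hd.ne'] at hz; exact zero_ne_one hz
  rw [mem_st] at ht ⊢
  intro x hx
  have := h z hz _ (ht _ (h z⁻¹ (by rw [inv_pow, hz, inv_one]) x hx))
  rwa [mul_add, mul_inv_cancel_left₀ h0] at this

theorem orb_sum {d : ℕ} (hm : (mu F d).card = d) (h1 : (d : F) = 1) {y : F} (hy : y ≠ 0) :
    ∑ x ∈ orb d y, x ^ d = y ^ d := by
  rw [sum_congr rfl (g := fun _ => y ^ d), sum_const, orb_card hm hy, nsmul_eq_mul, h1, one_mul]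
  intro x hx
  obtain ⟨z, hz, rfl⟩ := mem_orb.1 hx
  rw [mul_pow, hz, one_mul]

theorem ex_inv {d : ℕ} (hd : 0 < d) (hm : (mu F d).card = d) (W : Finset F) (hW : Inv d W) :
    ∀ m, m * d + 1 ≤ W.card → ∃ C ⊆ W, (0 : F) ∉ C ∧ Inv d C ∧ C.card = m * d
  | 0, _ => ⟨∅, empty_subset _, notMem_empty _, fun _ _ _ h => absurd h (notMem_empty _), by simp⟩
  | m + 1, h => by
    rw [add_mul, one_mul] at h
    obtain ⟨C, a1, a2, a3, a4⟩ := ex_inv hd hm W hW m (by omega)
    obtain ⟨y, hy, hyC⟩ := exists_mem_notMem_of_card_lt_card (s := insert 0 C) (t := W) (by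
      rw [card_insert_of_notMem a2]; omega)
    rw [mem_insert, not_or] at hyC
    refine ⟨C ∪ orb d y, union_subset a1 (orb_sub hW hy), fun h0 => ?_,
      inv_union a3 (inv_orb d y), ?_⟩
    · rcases mem_union.1 h0 with h0 | h0
      · exact a2 h0
      · obtain ⟨z, hz, e⟩ := mem_orb.1 h0
        rcases mul_eq_zero.1 e with rfl | e
        · rw [zero_pow hd.ne'] at hz; exact zero_ne_one hz
        · exact hyC.1 e
    · rw [card_union_of_disjoint (orb_disj hd a3 hyC.2), orb_card hm hyC.1, a4, add_mul, one_mul]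

theorem in_st (h2 : (2 : F) = 0) {d : ℕ} (hd : 0 < d) {C : Finset F} (h : Inv d C) {y t : F}
    (ht : t ∈ st C) (ht0 : t ≠ 0) (hy : y + t ∈ orb d y) : y ∈ st C := by
  obtain ⟨z, hz, e⟩ := mem_orb.1 hy
  have e' : (z + 1) * y = t := by linear_combination e + y * h2
  have h0 : z + 1 ≠ 0 := fun h0 => ht0 (by rw [← e', h0, zero_mul])
  have := sum_inv (st C) (z + 1) 0 h0 (fun x hx => by
    rw [add_zero, add_mul, one_mul]
    exact st_add C _ (inv_st hd h z hz x hx) _ hx)
  rw [← this] at ht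
  obtain ⟨u, hu, e2⟩ := mem_image.1 ht
  have : u = y := mul_left_cancel₀ h0 (by rw [e', ← e2, add_zero])
  rwa [← this]

theorem big_case (h2 : (2 : F) = 0) {α : ℕ} (hq : Fintype.card F = 2 ^ α) {d : ℕ} (ho : Odd d)
    (hd2 : 2 ≤ d) (hm : (mu F d).card = d) (W : Finset F) (hW : Inv d W) (h0W : (0 : F) ∈ W)
    (j : ℕ) (h3 : 3 ≤ j) (hj : 2 * j ≤ W.card) (hp2 : ∀ t, j ≠ 2 ^ t)
    (hdj : d ∣ j ∨ d ∣ j - 1) : ∃ C ⊆ W, C.card = j ∧ Inv d C ∧ Good d C := by
  have hd : 0 < d := by omega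
  have h1 : (d : F) = 1 := by
    obtain ⟨r, hr⟩ := ho
    rw [hr]; push_cast; linear_combination (r : F) * h2
  have swap : ∀ C ⊆ W, C.card = j → Inv d C → ∀ y ∈ C, y ≠ 0 → ∀ z ∈ W, z ∉ C → z ≠ 0 →
      (C \ orb d y) ∪ orb d z ⊆ W ∧ ((C \ orb d y) ∪ orb d z).card = j ∧
        Inv d ((C \ orb d y) ∪ orb d z) ∧
        ∑ x ∈ (C \ orb d y) ∪ orb d z, x ^ d = ∑ x ∈ C, x ^ d + y ^ d + z ^ d := by
    intro C hC hc hi y hy hy0 z hz hzC hz0
    have hdis : Disjoint (C \ orb d y) (orb d z) :=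
      (orb_disj hd hi hzC).mono_left sdiff_subset
    refine ⟨union_subset (sdiff_subset.trans hC) (orb_sub hW hz), ?_,
      inv_union (inv_sdiff hd hi (inv_orb d y)) (inv_orb d z), ?_⟩
    · rw [card_union_of_disjoint hdis, orb_card hm hz0, ← hc,
        ← card_sdiff_add_card_eq_card (orb_sub hi hy), orb_card hm hy0]
    · rw [sum_union hdis, ← sum_sdiff (orb_sub hi hy), orb_sum hm h1 hy0, orb_sum hm h1 hz0]
      linear_combination (-y ^ d) * h2
  have k0 : ∃ C ⊆ W, C.card = j ∧ Inv d C := by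
    rcases hdj with ⟨m, hm'⟩ | ⟨m, hm'⟩
    · rw [mul_comm] at hm'
      obtain ⟨C, a1, -, a3, a4⟩ := ex_inv hd hm W hW m (by omega)
      exact ⟨C, a1, by omega, a3⟩
    · rw [mul_comm] at hm'
      obtain ⟨C, a1, a2, a3, a4⟩ := ex_inv hd hm W hW m (by omega)
      refine ⟨insert 0 C, insert_subset h0W a1, by rw [card_insert_of_notMem a2]; omega, ?_⟩
      intro z hz x hx
      rcases mem_insert.1 hx with rfl | hx
      · simp
      · exact mem_insert_of_mem (a3 z hz x hx)
  have k1 : ∃ C ⊆ W, C.card = j ∧ Inv d C ∧ ∑ x ∈ C, x ^ d ≠ 0 := by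
    obtain ⟨C, hC, hc, hi⟩ := k0
    by_cases hp : ∑ x ∈ C, x ^ d = 0
    · obtain ⟨y, hy, hy0⟩ := exists_mem_notMem_of_card_lt_card (s := {0}) (t := C) (by
        rw [card_singleton]; omega)
      rw [mem_singleton] at hy0
      obtain ⟨z, hz, hzC⟩ := exists_mem_notMem_of_card_lt_card (s := insert 0 C) (t := W) (by
        have := card_insert_le 0 C
        omega)
      rw [mem_insert, not_or] at hzC
      obtain ⟨a1, a2, a3, a4⟩ := swap C hC hc hi y hy hy0 z hz hzC.2 hzC.1
      refine ⟨_, a1, a2, a3, fun h => hzC.2 ?_⟩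
      have e : z ^ d = y ^ d := by linear_combination h - a4 - hp - y ^ d * h2
      have := hi (z / y) (by rw [div_pow, e, div_self (pow_ne_zero _ hy0)]) y hy
      rwa [div_mul_cancel₀ _ hy0] at this
    · exact ⟨C, hC, hc, hi, hp⟩
  have k2 : ∃ C ⊆ W, C.card = j ∧ Inv d C ∧ ∑ x ∈ C, x ^ d ≠ 0 ∧ ∀ t ∈ st C, t = 0 := by
    obtain ⟨C, hC, hc, hi, hp⟩ := k1
    by_contra hcon
    push Not at hcon
    obtain ⟨t, ht, ht0⟩ := hcon C hC hc hi hp
    have hiT := inv_st hd hi
    have n0 : ∀ y : F, y ≠ 0 → (0 : F) ∉ orb d y := by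
      intro y hy h0
      obtain ⟨z, hz, e⟩ := mem_orb.1 h0
      rcases mul_eq_zero.1 e with rfl | e
      · rw [zero_pow hd.ne'] at hz; exact zero_ne_one hz
      · exact hy e
    have c1 : d + 1 ≤ (st C).card := by
      have := card_le_card (insert_subset (st0 C) (orb_sub hiT ht))
      rwa [card_insert_of_notMem (n0 t ht0), orb_card hm ht0] at this
    have c2 : 2 * (st C).card ≤ j := by
      obtain ⟨r, hr⟩ := st_dvd h2 C
      obtain ⟨e, -, he⟩ := pow_two h2 hq (st C) (st0 C) (st_add C)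
      rw [hc] at hr
      rcases r with _ | _ | r
      · omega
      · exact absurd (by rw [hr, he]; simp) (hp2 e)
      · rw [hr]; nlinarith
    obtain ⟨y, hy, hyT⟩ := exists_mem_notMem_of_card_lt_card (s := st C) (t := C) (by omega)
    have hy0 : y ≠ 0 := by rintro rfl; exact hyT (st0 C)
    obtain ⟨z, hz, hzC⟩ := exists_mem_notMem_of_card_lt_card
      (s := C ∪ st C ∪ (Polynomial.nthRoots d (∑ x ∈ C, x ^ d + y ^ d)).toFinset) (t := W) (by
        have a1 := card_union_le (C ∪ st C)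
          (Polynomial.nthRoots d (∑ x ∈ C, x ^ d + y ^ d)).toFinset
        have a2 := card_union_le C (st C)
        have a3 := Multiset.toFinset_card_le (Polynomial.nthRoots d (∑ x ∈ C, x ^ d + y ^ d))
        have a4 := Polynomial.card_nthRoots d (∑ x ∈ C, x ^ d + y ^ d)
        omega)
    simp only [mem_union, not_or, Multiset.mem_toFinset, Polynomial.mem_nthRoots hd] at hzC
    obtain ⟨⟨hzC, hzT⟩, hzp⟩ := hzC
    have hz0 : z ≠ 0 := by rintro rfl; exact hzT (st0 C)
    obtain ⟨a1, a2, a3, a4⟩ := swap C hC hc hi y hy hy0 z hz hzC hz0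
    obtain ⟨C', hC'⟩ : ∃ C', C' = (C \ orb d y) ∪ orb d z := ⟨_, rfl⟩
    rw [← hC'] at a1 a2 a3 a4
    obtain ⟨s, hs, hs0⟩ := hcon C' a1 a2 a3 (fun h => hzp (by
      linear_combination a4 - h + z ^ d * h2))
    have hiS := inv_st hd a3
    have nC' : ∀ x ∈ orb d y, x ∉ C' := by
      intro x hx h
      rw [hC'] at h
      rcases mem_union.1 h with h | h
      · exact (mem_sdiff.1 h).2 hx
      · exact disjoint_left.1 (orb_disj hd hi hzC) (orb_sub hi hy hx) h
    have inC' : ∀ x ∈ C, x ∉ orb d y → x ∈ C' := fun x h h' => by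
      rw [hC']; exact mem_union_left _ (mem_sdiff.2 ⟨h, h'⟩)
    have b1 : ∀ u ∈ st C, u ∈ st C' → u = 0 := by
      intro u hu hu'
      by_contra hu0
      have := card_dvd h2 {0, u} (by simp) (by
        intro a ha b hb
        simp only [mem_insert, mem_singleton] at ha hb ⊢
        rcases ha with rfl | rfl <;> rcases hb with rfl | rfl
        · simp
        · simp
        · simp
        · left; linear_combination b * h2) (orb d y) (by
        intro x hx b hb
        simp only [mem_insert, mem_singleton] at hb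
        rcases hb with rfl | rfl
        · simpa using hx
        · by_contra hn
          have := mem_st.1 hu' _ (inC' _ (mem_st.1 hu x (orb_sub hi hy hx)) hn)
          rw [show x + b + b = x by linear_combination b * h2] at this
          exact nC' x hx this)
      rw [card_pair (Ne.symm hu0), orb_card hm hy0] at this
      exact (Nat.not_even_iff_odd.2 ho) (even_iff_two_dvd.2 this)
    have b3 : ∀ u ∈ st C, u ≠ 0 → ∀ v ∈ st C', y + v ∉ orb d y → y + u + v ∈ orb d z := by
      intro u hu hu0 v hv hyv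
      have e1 : y + u ∈ C' := inC' _ (mem_st.1 hu y hy) fun h => hyT (in_st h2 hd hi hu hu0 h)
      have e2 := mem_st.1 hv _ e1
      rw [hC'] at e2
      rcases mem_union.1 e2 with h | h
      · exfalso
        have e3 := mem_st.1 hu _ (mem_sdiff.1 h).1
        rw [show y + u + v + u = y + v by linear_combination u * h2] at e3
        have e4 := mem_st.1 hv _ (inC' _ e3 hyv)
        rw [show y + v + v = y by linear_combination v * h2] at e4
        exact nC' y (self_orb d y) e4
      · exact h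
    by_cases hyS : y ∈ st C'
    · have := b3 t ht ht0 y hyS (by
        rw [show y + y = 0 by linear_combination y * h2]; exact n0 y hy0)
      rw [show y + t + y = t by linear_combination y * h2] at this
      obtain ⟨w, hw, e⟩ := mem_orb.1 this
      exact hzT (back hd hiT hw (by rwa [e]))
    · have b4 : ∀ v ∈ orb d s, ∀ u ∈ orb d t, y + u + v ∈ orb d z := by
        intro v hv u hu
        have hv0 : v ≠ 0 := by rintro rfl; exact n0 s hs0 hv
        have hu0 : u ≠ 0 := by rintro rfl; exact n0 t ht0 hu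
        exact b3 u (orb_sub hiT ht hu) hu0 v (orb_sub hiS hs hv)
          fun h => hyS (in_st h2 hd a3 (orb_sub hiS hs hv) hv0 h)
      obtain ⟨v, hv, v', hv', hne⟩ := one_lt_card.1 (show 1 < (orb d s).card by
        rw [orb_card hm hs0]; omega)
      have b5 : (orb d t).image (fun u => y + u + v) = orb d z := by
        apply eq_of_subset_of_card_le
        · intro x hx
          obtain ⟨u, hu, rfl⟩ := mem_image.1 hx
          exact b4 v hv u hu
        · rw [card_image_of_injective _ (fun a b h => by linear_combination h),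
            orb_card hm hz0, orb_card hm ht0]
      have b6 := b4 v' hv' t (self_orb d t)
      rw [← b5] at b6
      obtain ⟨u, hu, e⟩ := mem_image.1 b6
      have e' : u + t = v + v' := by linear_combination e + (t - v) * h2
      have := b1 (u + t) (st_add C _ (orb_sub hiT ht hu) _ ht)
        (by rw [e']; exact st_add C' _ (orb_sub hiS hs hv) _ (orb_sub hiS hs hv'))
      exact hne (by linear_combination this - e' - v' * h2)
  obtain ⟨C, hC, hc, hi, hp, hs⟩ := k2
  refine ⟨C, hC, hc, hi, fun a b ha h => ?_⟩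
  obtain ⟨z, hz, hz1⟩ := exists_mem_notMem_of_card_lt_card (s := {1}) (t := mu F d) (by
    rw [card_singleton]; omega)
  rw [mem_singleton] at hz1
  have hz' : z ^ d = 1 := by simpa [mu] using hz
  have hz0 : z ≠ 0 := by rintro rfl; rw [zero_pow hd.ne'] at hz'; exact zero_ne_one hz'
  have hb : b = 0 := by
    have := hs ((z - 1) * b) (mem_st.2 fun x hx => by
      rw [← sum_inv C a b ha h] at hx
      obtain ⟨u, hu, rfl⟩ := mem_image.1 hx
      have := hi z hz' _ (h _ (hi z⁻¹ (by rw [inv_pow, hz', inv_one]) u hu))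
      rwa [show z * (a * (z⁻¹ * u) + b) = a * u + b + (z - 1) * b by field_simp; ring] at this)
    exact (mul_eq_zero.1 this).resolve_left (sub_ne_zero.2 hz1)
  subst hb
  have e := sum_map C a 0 ha h (fun x => x ^ d)
  simp only [add_zero, mul_pow, ← mul_sum] at e
  exact ⟨mul_right_cancel₀ hp (by rw [e, one_mul]), rfl⟩

theorem core (h2 : (2 : F) = 0) {α : ℕ} (hq : Fintype.card F = 2 ^ α) {d : ℕ} (ho : Odd d)
    (hm : (mu F d).card = d) (W : Finset F) (hW : Inv d W) (h0W : (0 : F) ∈ W)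
    (hT : ∀ s ∈ W, ∀ t ∈ W, s + t ∈ W)
    (j : ℕ) (h3 : 3 ≤ j) (hj : 2 * j ≤ W.card) (hp2 : ∀ t, j ≠ 2 ^ t)
    (hdj : d ∣ j ∨ d ∣ j - 1) : ∃ C ⊆ W, C.card = j ∧ Inv d C ∧ Good d C := by
  by_cases hd : 2 ≤ d
  · exact big_case h2 hq ho hd hm W hW h0W j h3 hj hp2 hdj
  have : d = 1 := by obtain ⟨r, hr⟩ := ho; omega
  subst this
  have hi : ∀ C : Finset F, Inv 1 C := fun C z hz x hx => by
    rw [pow_one] at hz; rwa [hz, one_mul]
  rcases Nat.even_or_odd j with he | hj'
  · obtain ⟨C, a1, a2, a3⟩ := even_case h2 W j h3 hj he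
    exact ⟨C, a1, a2, hi C, a3⟩
  · obtain ⟨e, -, he⟩ := pow_two h2 hq W h0W hT
    obtain ⟨C, a1, a2, a3⟩ := odd_case h2 W hT j h3 (by
      obtain ⟨r, hr⟩ := hj'
      rcases e with _ | _ | e
      · omega
      · omega
      · rw [pow_succ, pow_succ] at he; omega) hj'
    exact ⟨C, a1, a2, hi C, a3⟩

end Pool.Agent.H76.AglB
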