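import Pool.Agent.H76.BanPair

/-! Rank one operators and spectra of commutators on Banach spaces. -/

namespace Pool.Agent.H76.BanBasic

open Pool.Agent.H76.LiePoly Pool.Agent.H76.BanPair

variable {X Y : Type*} [NormedAddCommGroup X] [NormedSpace ℂ X]
  [NormedAddCommGroup Y] [NormedSpace ℂ Y]

/-- The commutator. -/
def br (T S : X →L[ℂ] X) : X →L[ℂ] X := T * S - S * T

/-- Rank one operator. -/
noncomputable def ro (x : X) (f : StrongDual ℂ X) : X →L[ℂ] X := f.smulRight x

@[simp] lemma ro_apply (x : X) (f : StrongDual ℂ X) (y : X) : ro x f y = f y • x := rfl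

lemma br_apply (T S : X →L[ℂ] X) (y : X) : br T S y = T (S y) - S (T y) := rfl

variable (X) in
/-- The canonical pairing. -/
noncomputable def pr : X →ₗ[ℂ] StrongDual ℂ X →ₗ[ℂ] ℂ :=
  LinearMap.mk₂ ℂ (fun x f => f x) (by simp) (by simp) (by simp) (by simp)

@[simp] lemma pr_apply (x : X) (f : StrongDual ℂ X) : pr X x f = f x := rfl

lemma sep_pr : Sep (pr X) := fun _ h => SeparatingDual.eq_zero_of_forall_dual_eq_zero h

lemma sep_flip : Sep (pr X).flip := fun _ h => ContinuousLinearMap.ext h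

lemma ex_one {x : X} (hx : x ≠ 0) : ∃ f : StrongDual ℂ X, f x = 1 := sep_pr.one hx

lemma ex_one' {f : StrongDual ℂ X} (hf : f ≠ 0) : ∃ x : X, f x = 1 := sep_flip.one hf

lemma sep_closed (p : Submodule ℂ X) (hp : IsClosed (p : Set X)) {x : X} (hx : x ∉ p) :
    ∃ f : StrongDual ℂ X, f x = 1 ∧ ∀ y ∈ p, f y = 0 := by
  have : IsClosed (p : Set X) := hp
  obtain ⟨f, hf⟩ := ex_one (X := X ⧸ p) (x := p.mkQ x) (by simpa using hx)
  refine ⟨f.comp ⟨p.mkQ, continuous_quot_mk⟩, hf, fun y hy => ?_⟩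
  change f (p.mkQ y) = 0
  rw [Submodule.mkQ_apply, (Submodule.Quotient.mk_eq_zero p).2 hy, map_zero]

lemma sep_fin (s : Set X) (hs : s.Finite) {x : X} (hx : x ∉ Submodule.span ℂ s) :
    ∃ f : StrongDual ℂ X, f x = 1 ∧ ∀ y ∈ s, f y = 0 := by
  have := FiniteDimensional.span_of_finite ℂ hs
  obtain ⟨f, h1, h2⟩ := sep_closed _ (Submodule.closed_of_finiteDimensional _) hx
  exact ⟨f, h1, fun y hy => h2 y (Submodule.subset_span hy)⟩

lemma ex_pair {x y : X} (h : ¬ ∃ c : ℂ, y = c • x) :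
    ∃ f : StrongDual ℂ X, f x = 0 ∧ f y = 1 := by
  obtain ⟨f, h1, h2⟩ := sep_fin {x} (Set.finite_singleton x) (x := y) fun hy => by
    obtain ⟨c, hc⟩ := Submodule.mem_span_singleton.1 hy
    exact h ⟨c, hc.symm⟩
  exact ⟨f, h2 x rfl, h1⟩

lemma ex_pair' {f g : StrongDual ℂ X} (hf : f ≠ 0) (h : ¬ ∃ c : ℂ, g = c • f) :
    ∃ x : X, f x = 0 ∧ g x = 1 := by
  by_contra hc
  refine h (sep_flip.mem_span hf fun x hx => ?_)
  by_contra h0
  refine hc ⟨(g x)⁻¹ • x, ?_, ?_⟩
  · rw [map_smul, show f x = 0 from hx, smul_zero]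
  · rw [map_smul, smul_eq_mul]
    exact inv_mul_cancel₀ h0

lemma ex_out (hX : ¬ FiniteDimensional ℂ X) (s : Set X) (hs : s.Finite) :
    ∃ x, x ∉ Submodule.span ℂ s := by
  by_contra hc
  push Not at hc
  have := FiniteDimensional.span_of_finite ℂ hs
  have h : Submodule.span ℂ s = ⊤ := eq_top_iff.2 fun x _ => hc x
  rw [h] at this
  exact hX (Module.Finite.equiv Submodule.topEquiv)

lemma scalar_zero (hX : ¬ FiniteDimensional ℂ X) (s : Set X) (hs : s.Finite) {c : ℂ}
    (h : ∀ x : X, c • x ∈ Submodule.span ℂ s) : c = 0 := by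
  by_contra hc
  obtain ⟨x, hx⟩ := ex_out hX s hs
  exact hx ((Submodule.smul_mem_iff _ hc).1 (h x))

lemma br_add_smul_one_left (T S : X →L[ℂ] X) (c : ℂ) : br (T + c • 1) S = br T S := by
  simp [br, add_mul, mul_add]

lemma br_add_smul_one_right (T S : X →L[ℂ] X) (c : ℂ) : br T (S + c • 1) = br T S := by
  simp [br, add_mul, mul_add]

lemma br_smul_smul (T S : X →L[ℂ] X) (a b : ℂ) : br (a • T) (b • S) = (a * b) • br T S := by
  simp [br, smul_sub, smul_smul, mul_comm]

lemma br_form (e e' c c' : ℂ) (T S : X →L[ℂ] X) :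
    br (e • T + c • 1) (e' • S + c' • 1) = (e * e') • br T S := by
  rw [br_add_smul_one_left, br_add_smul_one_right, br_smul_smul]

lemma br_swap (T S : X →L[ℂ] X) : br T S = - br S T := by simp [br]

lemma mem_spec_neg (Z : X →L[ℂ] X) (c : ℂ) : c ∈ spectrum ℂ (-Z) ↔ -c ∈ spectrum ℂ Z := by
  rw [← spectrum.neg_eq, Set.mem_neg]

lemma mem_spec_of_eig {Z : X →L[ℂ] X} {v : X} {c : ℂ} (hv : v ≠ 0) (h : Z v = c • v) :
    c ∈ spectrum ℂ Z := by
  rw [spectrum.mem_iff]
  rintro ⟨u, hu⟩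
  have h1 : (u : X →L[ℂ] X) v = 0 := by
    rw [hu]; simp [Algebra.algebraMap_eq_smul_one, h]
  have h2 : ((↑u⁻¹ : X →L[ℂ] X) * u) v = v := by simp
  rw [mul_apply_eq_comp, h1, map_zero] at h2
  exact hv h2.symm

/-- The square of the nonzero eigenvalues of the commutator with a rank one operator. -/
noncomputable def q (T : X →L[ℂ] X) (x : X) (f : StrongDual ℂ X) : ℂ := f (T x) ^ 2 - f x * f (T (T x))

lemma spec_ro {T : X →L[ℂ] X} {x : X} {f : StrongDual ℂ X} {c : ℂ}
    (hc : c ∈ spectrum ℂ (br T (ro x f))) : c = 0 ∨ c ^ 2 = q T x f := by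
  have h0 : br T (ro x f) ^ 3 = q T x f • br T (ro x f) := by
    ext y
    simp only [pow_three, mul_apply_eq_comp, br_apply, ro_apply, map_smul, map_sub, smul_apply, q]
    module
  have h1 : Polynomial.aeval (br T (ro x f))
      (Polynomial.X ^ 3 - Polynomial.C (q T x f) * Polynomial.X) = 0 := by
    simp [h0, Algebra.algebraMap_eq_smul_one]
  have h2 := spectrum.subset_polynomial_aeval (br T (ro x f))
    (Polynomial.X ^ 3 - Polynomial.C (q T x f) * Polynomial.X) ⟨c, hc, rfl⟩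
  rw [h1] at h2
  have h3 : c * (c ^ 2 - q T x f) = 0 := by
    by_contra h0
    rw [spectrum.mem_iff] at h2
    apply h2
    rw [sub_zero]
    refine IsUnit.map _ (Ne.isUnit ?_)
    simp only [Polynomial.eval_sub, Polynomial.eval_pow, Polynomial.eval_X, Polynomial.eval_mul,
      Polynomial.eval_C]
    intro h4
    exact h0 (by linear_combination h4)
  exact (mul_eq_zero.1 h3).imp id sub_eq_zero.1

lemma ex_spec_ro {T : X →L[ℂ] X} {x : X} {f : StrongDual ℂ X} (h : q T x f ≠ 0) :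
    ∃ c ∈ spectrum ℂ (br T (ro x f)), c ^ 2 = q T x f := by
  have hx : x ≠ 0 := by rintro rfl; simp [q] at h
  obtain ⟨c, hc⟩ := IsAlgClosed.exists_eq_mul_self (q T x f)
  have h1 : br T (ro x f) (br T (ro x f) x) = (c * c) • x := by
    rw [← hc]
    simp only [br_apply, ro_apply, map_smul, map_sub, q]
    module
  by_cases h2 : br T (ro x f) x + c • x = 0
  · exact ⟨-c, mem_spec_of_eig hx (by linear_combination (norm := module) h2),
      by rw [hc]; ring⟩
  · refine ⟨c, mem_spec_of_eig h2 ?_, by rw [hc]; ring⟩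
    rw [map_add, map_smul, h1]
    module

lemma q_eq {T : X →L[ℂ] X} {x : X} {f : StrongDual ℂ X} {T' : Y →L[ℂ] Y} {y : Y}
    {g : StrongDual ℂ Y} (h : spectrum ℂ (br T' (ro y g)) = spectrum ℂ (br T (ro x f))) :
    q T' y g = q T x f := by
  by_cases h1 : q T x f = 0
  · by_contra h2
    rw [h1] at h2
    obtain ⟨c, hc, h3⟩ := ex_spec_ro h2
    rw [h] at hc
    rcases spec_ro hc with h4 | h4
    · rw [h4] at h3; exact h2 (by simpa using h3.symm)
    · rw [h3, h1] at h4; exact h2 h4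
  · obtain ⟨c, hc, h3⟩ := ex_spec_ro h1
    rw [← h] at hc
    rcases spec_ro hc with h4 | h4
    · rw [h4] at h3; exact absurd (by simpa using h3.symm) h1
    · rw [← h3, h4]

lemma q_form (e c : ℂ) (he : e * e = 1) (T : X →L[ℂ] X) (x : X) (f : StrongDual ℂ X) :
    q (e • T + c • 1) x f = q T x f := by
  simp only [q, add_apply, smul_apply,
    one_apply_eq_self, map_add, map_smul, smul_eq_mul]
  linear_combination (f (T x) ^ 2 - f x * f (T (T x))) * he

lemma q_smul (e : ℂ) (he : e * e = 1) (T : X →L[ℂ] X) (x : X) (f : StrongDual ℂ X) :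
    q T (e • x) f = q T x f := by
  simp only [q, map_smul, smul_eq_mul]
  linear_combination (f (T x) ^ 2 - f x * f (T (T x))) * he

/-- All commutators with `T` have at most two nonzero spectral values, opposite to each other. -/
def PP (T : X →L[ℂ] X) : Prop := ∀ S, ∃ m : ℂ, ∀ c ∈ spectrum ℂ (br T S), c = 0 ∨ c ^ 2 = m

/-- Rank at most one plus a scalar. -/
def RR (T : X →L[ℂ] X) : Prop := ∃ x f, ∃ c : ℂ, T = ro x f + c • 1

lemma RR.pp {T : X →L[ℂ] X} (h : RR T) : PP T := by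
  obtain ⟨x, f, c, rfl⟩ := h
  intro S
  refine ⟨q S x f, fun d hd => ?_⟩
  rw [br_add_smul_one_left, br_swap, mem_spec_neg] at hd
  simpa using spec_ro hd

lemma local_rank (hX : ¬ FiniteDimensional ℂ X) {T : X →L[ℂ] X} {x : X}
    (h : ∀ y, y ∉ Submodule.span ℂ {x, T x} → T y ∈ Submodule.span ℂ {x, T x, y}) :
    ∃ c : ℂ, ∀ y, T y - c • y ∈ Submodule.span ℂ {x, T x} := by
  set P := Submodule.span ℂ {x, T x} with hP
  obtain ⟨y1, h1⟩ := ex_out hX {x, T x} (by simp)
  obtain ⟨y2, h2⟩ := ex_out hX {x, T x, y1} (by simp)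
  have hle : ∀ y, P ≤ Submodule.span ℂ {x, T x, y} := fun y =>
    Submodule.span_mono (by intro z hz; simp at hz ⊢; tauto)
  obtain ⟨c, hc⟩ := prop_of_loc (a := P.mkQ.comp (T : X →ₗ[ℂ] X)) (b := P.mkQ) (y1 := y1)
    (y2 := y2) (fun y hy => by
      have h3 := h y (by simpa using hy)
      rw [show ({x, T x, y} : Set X) = {x, T x} ∪ {y} by ext; simp; tauto, Submodule.span_union,
        Submodule.mem_sup] at h3
      obtain ⟨u, hu, v, hv, huv⟩ := h3
      obtain ⟨c, rfl⟩ := Submodule.mem_span_singleton.1 hv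
      refine ⟨c, ?_⟩
      simp only [LinearMap.comp_apply, ContinuousLinearMap.coe_coe, ← huv, map_add, map_smul]
      rw [Submodule.mkQ_apply, (Submodule.Quotient.mk_eq_zero P).2 hu, zero_add])
    (by simpa using h1) (by
      rintro ⟨c, hc⟩
      apply h2
      rw [← map_smul, Submodule.mkQ_apply, Submodule.mkQ_apply, Submodule.Quotient.eq] at hc
      have := Submodule.add_mem _ (hle y1 hc) (Submodule.smul_mem _ c
        (Submodule.subset_span (by simp : y1 ∈ ({x, T x, y1} : Set X))))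
      simpa using this)
  refine ⟨c, fun y => ?_⟩
  have := hc y
  rw [← map_smul, LinearMap.comp_apply, Submodule.mkQ_apply, Submodule.mkQ_apply,
    Submodule.Quotient.eq] at this
  exact this

lemma PP.rr (hX : ¬ FiniteDimensional ℂ X) {T : X →L[ℂ] X} (h : PP T) : RR T := by
  have key : ∀ x, (¬ ∃ c : ℂ, T x = c • x) →
      ∃ c : ℂ, ∀ y, T y - c • y ∈ Submodule.span ℂ {x, T x} := by
    intro x hx
    refine local_rank hX fun y hy => ?_
    by_contra hTy
    obtain ⟨g, g0, g1⟩ := ex_pair hx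
    obtain ⟨k, k1, hk⟩ := sep_fin {x, T x} (by simp) hy
    obtain ⟨f2, f21, hf⟩ := sep_fin {x, T x, y} (by simp) hTy
    have k2 := hk x (by simp)
    have k3 := hk (T x) (by simp)
    have f22 := hf x (by simp)
    have f23 := hf (T x) (by simp)
    have f24 := hf y (by simp)
    set f1 := g - g y • k - (g (T y) - g y * k (T y)) • f2 with hf1
    have a1 : f1 x = 0 := by simp [hf1, g0, k2, f22]
    have a2 : f1 (T x) = 1 := by simp [hf1, g1, k3, f23]
    have a3 : f1 y = 0 := by simp [hf1, k1, f24]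
    have a4 : f1 (T y) = 0 := by simp [hf1, f21]
    obtain ⟨m, hm⟩ := h (ro x f1 + (2 : ℂ) • ro y f2)
    have hx0 : x ≠ 0 := by rintro rfl; simp at g1
    have hy0 : y ≠ 0 := by rintro rfl; simp at k1
    have b1 := hm (-1) (mem_spec_of_eig hx0 (by simp [br_apply, a1, a2, f22, f23]))
    have b2 := hm (-2) (mem_spec_of_eig hy0 (by simp [br_apply, a3, a4, f24, f21]))
    norm_num at b1 b2
    rw [← b1] at b2
    norm_num at b2
  by_cases hs : ∀ x, ∃ c : ℂ, T x = c • x
  · obtain ⟨c, hc⟩ := scalar_of_eig (V := (T : X →ₗ[ℂ] X)) hs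
    exact ⟨0, 0, c, by ext y; simpa using hc y⟩
  rw [not_forall] at hs
  obtain ⟨x, hx⟩ := hs
  obtain ⟨c, hc⟩ := key x hx
  obtain ⟨y, hy, hN⟩ : ∃ y, y ∉ Submodule.span ℂ {x, T x} ∧ T y - c • y ≠ 0 := by
    obtain ⟨z, hz⟩ := ex_out hX {x, T x} (by simp)
    by_cases h1 : T z - c • z = 0
    · refine ⟨z + x, fun h2 => hz ?_, fun h2 => hx ⟨c, ?_⟩⟩
      · simpa using Submodule.sub_mem _ h2 (Submodule.subset_span (by simp : x ∈ ({x, T x} : Set X)))
      · rw [map_add] at h2
        linear_combination (norm := module) h2 - h1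
    · exact ⟨z, hz, h1⟩
  have hy' : ¬ ∃ d : ℂ, T y = d • y := by
    rintro ⟨d, hd⟩
    have h1 := hc y
    rw [hd, ← sub_smul] at h1 hN
    exact hy ((Submodule.smul_mem_iff _ (left_ne_zero_of_smul hN)).1 h1)
  obtain ⟨c', hc'⟩ := key y hy'
  have hcc : c' - c = 0 := scalar_zero hX {x, T x, y, T y} (by simp) fun z => by
    have h1 : Submodule.span ℂ {x, T x} ≤ Submodule.span ℂ ({x, T x, y, T y} : Set X) :=
      Submodule.span_mono (by intro z hz; simp at hz ⊢; tauto)
    have h2 : Submodule.span ℂ {y, T y} ≤ Submodule.span ℂ ({x, T x, y, T y} : Set X) :=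
      Submodule.span_mono (by intro z hz; simp at hz ⊢; tauto)
    have := Submodule.sub_mem _ (h1 (hc z)) (h2 (hc' z))
    convert this using 1
    module
  obtain rfl := sub_eq_zero.1 hcc
  obtain ⟨g, hg⟩ := ex_one hN
  refine ⟨T y - c' • y, g.comp (T - c' • 1), c', ?_⟩
  ext z
  obtain ⟨a, b, hab⟩ := Submodule.mem_span_pair.1 (hc' z)
  have h1 : a + b * c' = 0 := by
    by_contra h2
    apply hy
    rw [← Submodule.smul_mem_iff _ h2]
    have := Submodule.sub_mem _ (hc z) (Submodule.smul_mem _ b (hc y))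
    convert this using 1
    rw [← hab]
    module
  have h2 : T z - c' • z = b • (T y - c' • y) := by
    rw [← hab, show a = -(b * c') by linear_combination h1]
    module
  have h3 : g (T z - c' • z) = b := by rw [h2, map_smul, hg]; simp
  simp only [add_apply, ro_apply, ContinuousLinearMap.comp_apply,
    sub_apply, smul_apply, one_apply_eq_self,
    h3]
  linear_combination (norm := module) h2

lemma ro_sum {y y' y'' : X} {g g' g'' : StrongDual ℂ X} (hy : y ≠ 0) (hg : g ≠ 0)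
    (h : ro y g + ro y' g' = ro y'' g'') : (∃ c : ℂ, y' = c • y) ∨ ∃ c : ℂ, g' = c • g := by
  by_cases h1 : ∃ c : ℂ, y' = c • y
  · exact Or.inl h1
  right
  obtain ⟨k, k0, k1⟩ := ex_pair h1
  obtain ⟨k', hk'⟩ := ex_one hy
  have a1 : ∀ z, g' z = k y'' * g'' z := by
    intro z
    have := congrArg (fun U : X →L[ℂ] X => k (U z)) h
    simp [k0, k1] at this
    rw [this, mul_comm]
  have a2 : ∀ z, g z = (k' y'' - k' y' * k y'') * g'' z := by
    intro z
    have := congrArg (fun U : X →L[ℂ] X => k' (U z)) h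
    simp [hk', a1] at this
    linear_combination this
  have a3 : k' y'' - k' y' * k y'' ≠ 0 := by
    intro h0
    exact hg (by ext z; simp [a2, h0])
  refine ⟨k y'' / (k' y'' - k' y' * k y''), ?_⟩
  ext z
  simp only [smul_apply, smul_eq_mul, a1, a2]
  rw [← mul_assoc, div_mul_cancel₀ _ a3]

lemma ro_eq_zero {y : X} {g : StrongDual ℂ X} (h : ro y g = 0) : y = 0 ∨ g = 0 := by
  by_cases hy : y = 0
  · exact Or.inl hy
  · right
    ext z
    have := congrArg (fun U : X →L[ℂ] X => U z) h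
    simpa [hy] using this

end Pool.Agent.H76.BanBasic
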