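import Pool.Agent.H76.BanSign
import Pool.Agent.Results.MP_fda97a_al.Classification

/-! Dimension counts and the finite dimensional case. -/

namespace Pool.Agent.H76.BanFin

open Pool.Agent.H76.LiePoly Pool.Agent.H76.BanPair Pool.Agent.H76.BanBasic
  Pool.Agent.H76.BanMain Pool.Agent.H76.BanSign Matrix

variable {X Y : Type*} [NormedAddCommGroup X] [NormedSpace ℂ X]
  [NormedAddCommGroup Y] [NormedSpace ℂ Y]

lemma many_eigs {k : ℕ} {v : Fin (k + 1) → X} (hv : LinearIndependent ℂ v) :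
    ∃ (T S : X →L[ℂ] X) (d : Fin (k + 1) → ℂ), Function.Injective d ∧
      ∀ i, d i ∈ spectrum ℂ (br T S) := by
  choose w hw1 hw0 using fun i => sep_fin (v '' {j | j ≠ i}) (Set.toFinite _)
    (hv.notMem_span_image (s := {j | j ≠ i}) (x := i) (by simp))
  have hG : BanSign.gram v w = 1 := by
    ext a b
    by_cases hab : a = b
    · subst hab; simp [BanSign.gram, hw1]
    · simp [BanSign.gram, hab, hw0 a (v b) ⟨b, Ne.symm hab, rfl⟩]
  let d0 : Fin (k + 1) → ℂ := fun i => ((i : ℕ) : ℂ)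
  let d : Fin (k + 1) → ℂ := fun i => d0 i - ((k : ℂ) + 1)⁻¹ * ∑ i, d0 i
  have hn : (k : ℂ) + 1 ≠ 0 := Nat.cast_add_one_ne_zero k
  have hd : Function.Injective d := fun i j hij => by
    have h1 : d0 i = d0 j := by simpa [d] using hij
    exact Fin.ext (by simpa [d0] using h1)
  obtain ⟨t, s, hts⟩ := LieAlg.diag_comm d (by
    simp only [d, Finset.sum_sub_distrib, Finset.sum_const, Finset.card_univ, Fintype.card_fin,
      nsmul_eq_mul]
    push_cast
    field_simp
    ring)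
  refine ⟨Phi v w t, Phi v w s, d, hd, fun i => mem_spec_of_eig (hv.ne_zero i) ?_⟩
  have : br (Phi v w t) (Phi v w s) = Phi v w (diagonal d) := by
    rw [br, Phi_mul, Phi_mul, hG, Matrix.mul_one, Matrix.mul_one, ← map_sub, ← hts]
    rfl
  have h1 : (fun l => w l (v i)) = Pi.single i 1 := by
    ext l
    have := congrFun (congrFun hG l) i
    simpa [BanSign.gram, one_apply, Pi.single_apply] using this
  rw [this, Phi_apply, h1, Finset.sum_eq_single i]
  · simp
  · intro b _ hb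
    simp [hb]
  · simp

lemma card_le [FiniteDimensional ℂ X] {k : ℕ} {Z : X →L[ℂ] X} {d : Fin k → ℂ}
    (hd : Function.Injective d) (h : ∀ i, d i ∈ spectrum ℂ Z) : k ≤ Module.finrank ℂ X := by
  have := FiniteDimensional.complete ℂ X
  rw [ContinuousLinearMap.spectrum_eq] at h
  choose v hv using fun i => (Module.End.hasEigenvalue_iff_mem_spectrum.2 (h i)).exists_hasEigenvector
  simpa using (Module.End.eigenvectors_linearIndependent' _ d hd v hv).fintype_card_le_finrank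

lemma ex_li (hX : ¬ FiniteDimensional ℂ X) (k : ℕ) : ∃ v : Fin k → X, LinearIndependent ℂ v := by
  refine exists_linearIndependent_of_le_rank ?_
  have : ¬ Module.rank ℂ X < Cardinal.aleph0 := fun h => hX (Module.rank_lt_aleph0_iff.1 h)
  exact (Cardinal.natCast_lt_aleph0).le.trans (not_lt.1 this)

lemma le_of_sub [FiniteDimensional ℂ Y]
    (h : ∀ T S : X →L[ℂ] X, ∃ Z : Y →L[ℂ] Y, spectrum ℂ Z = spectrum ℂ (br T S)) :
    FiniteDimensional ℂ X ∧ Module.finrank ℂ X ≤ Module.finrank ℂ Y := by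
  have key : ∀ (k : ℕ) (v : Fin k → X), LinearIndependent ℂ v → k ≤ Module.finrank ℂ Y := by
    intro k v hv
    cases k with
    | zero => exact Nat.zero_le _
    | succ k =>
      obtain ⟨T, S, d, hd, h1⟩ := many_eigs hv
      obtain ⟨Z, hZ⟩ := h T S
      exact card_le hd fun i => hZ ▸ h1 i
  have hX : FiniteDimensional ℂ X := by
    by_contra hX
    obtain ⟨v, hv⟩ := ex_li hX (Module.finrank ℂ Y + 1)
    exact absurd (key _ v hv) (by omega)
  obtain ⟨v, hv⟩ := exists_linearIndependent_of_le_finrank (R := ℂ) (M := X) le_rfl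
  exact ⟨hX, key _ v hv⟩

/-- Operators as matrices. -/
noncomputable def mx {n : ℕ} (e : X ≃L[ℂ] (Fin n → ℂ)) :
    Matrix (Fin n) (Fin n) ℂ ≃ₐ[ℂ] (X →L[ℂ] X) :=
  (Matrix.toLinAlgEquiv'.trans (Module.End.toContinuousLinearMap (Fin n → ℂ))).trans
    e.symm.conjContinuousAlgEquiv.toAlgEquiv

lemma mx_apply {n : ℕ} (e : X ≃L[ℂ] (Fin n → ℂ)) (M : Matrix (Fin n) (Fin n) ℂ) (x : X) :
    mx e M x = e.symm (M *ᵥ e x) := rfl

theorem spatial_fin [FiniteDimensional ℂ X] [FiniteDimensional ℂ Y]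
    (hXY : Module.finrank ℂ X = Module.finrank ℂ Y) {φ : (X →L[ℂ] X) → (Y →L[ℂ] Y)}
    (h : ∀ T S, spectrum ℂ (br (φ T) (φ S)) = spectrum ℂ (br T S)) :
    (∃ A : X ≃L[ℂ] Y, ∀ T, ∃ e d : ℂ, e * e = 1 ∧
      φ T = e • A.conjContinuousAlgEquiv T + d • 1) ∨
    (∃ C : StrongDual ℂ X ≃L[ℂ] Y, ∀ T, ∃ e d : ℂ, e * e = 1 ∧
      φ T = e • (Complex.I • C.conjContinuousAlgEquiv (adj T)) + d • 1) := by
  set n := Module.finrank ℂ X with hn
  let e : X ≃L[ℂ] (Fin n → ℂ) := ContinuousLinearEquiv.ofFinrankEq (by simp [hn])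
  let e' : Y ≃L[ℂ] (Fin n → ℂ) := ContinuousLinearEquiv.ofFinrankEq (by simp [hXY])
  obtain ⟨A, η, ξ, hA, h1, -, h2⟩ := (Results.MP_fda97a_al.Classification.result n
    (fun t => (mx e').symm (φ (mx e t)))).1 fun t s => by
      rw [← map_mul, ← map_mul, ← map_sub, AlgEquiv.spectrum_eq, ← AlgEquiv.spectrum_eq (mx e),
        map_sub, map_mul, map_mul]
      exact h _ _
  have hd := (Matrix.isUnit_iff_isUnit_det A).1 hA
  have hBA : A⁻¹ * A = 1 := Matrix.nonsing_inv_mul A hd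
  have hAB : A * A⁻¹ = 1 := Matrix.mul_nonsing_inv A hd
  let A0 : (Fin n → ℂ) ≃L[ℂ] (Fin n → ℂ) :=
    (Matrix.toLin'OfInv hAB hBA).symm.toContinuousLinearEquiv
  have hA0 : ∀ v, A0 v = A *ᵥ v := fun _ => rfl
  have hA1 : ∀ v, A0.symm v = A⁻¹ *ᵥ v := fun _ => rfl
  rcases h2 with h2 | h2
  · refine Or.inl ⟨(e.trans A0).trans e'.symm, fun T => ?_⟩
    obtain ⟨t, rfl⟩ := (mx e).surjective T
    refine ⟨ξ t, η t, mul_self_eq_one_iff.2 (h1 t), ?_⟩
    rw [(AlgEquiv.symm_apply_eq _).1 (h2 t), map_add, map_smul, map_smul, map_one]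
    congr 2
    ext y
    simp [mx_apply, hA0, hA1]
  · let D0 : StrongDual ℂ X →ₗ[ℂ] (Fin n → ℂ) :=
      { toFun := fun f i => f (e.symm (Pi.single i 1))
        map_add' := fun _ _ => rfl
        map_smul' := fun _ _ => rfl }
    have hD : ∀ (f : StrongDual ℂ X) (v : Fin n → ℂ), f (e.symm v) = D0 f ⬝ᵥ v := by
      intro f v
      conv_lhs => rw [pi_eq_sum_univ' v]
      simp [D0, dotProduct, mul_comm]
    have hDb : Function.Bijective D0 := by
      constructor
      · rw [injective_iff_map_eq_zero]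
        intro f hf
        ext x
        rw [← e.symm_apply_apply x, hD, hf]; simp
      · intro a
        refine ⟨∑ i, a i • (ContinuousLinearMap.proj i).comp (e : X →L[ℂ] (Fin n → ℂ)), ?_⟩
        ext j
        simp [D0, Pi.single_apply]
    have : FiniteDimensional ℂ (StrongDual ℂ X) := FiniteDimensional.of_injective D0 hDb.1
    let D : StrongDual ℂ X ≃L[ℂ] (Fin n → ℂ) :=
      (LinearEquiv.ofBijective D0 hDb).toContinuousLinearEquiv
    have hD' : ∀ t f, D (adj (mx e t) f) = tᵀ *ᵥ D f := by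
      intro t f
      ext i
      change f (mx e t (e.symm (Pi.single i 1))) = (tᵀ *ᵥ D0 f) i
      rw [mx_apply, hD, e.apply_symm_apply, mulVec_transpose, dotProduct_mulVec]
      simp
    refine Or.inr ⟨(D.trans A0).trans e'.symm, fun T => ?_⟩
    obtain ⟨t, rfl⟩ := (mx e).surjective T
    refine ⟨ξ t, η t, mul_self_eq_one_iff.2 (h1 t), ?_⟩
    rw [(AlgEquiv.symm_apply_eq _).1 (h2 t), map_add, map_smul, map_smul, map_one, smul_smul]
    congr 2
    ext y
    simp [mx_apply, hA0, hA1, hD']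

end Pool.Agent.H76.BanFin
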