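import Pool.Agent.H76.BanBasic

/-! Linearisation and structure of surjective commutator-spectrum preservers. -/

namespace Pool.Agent.H76.BanLin

open Pool.Agent.H76.LiePoly Pool.Agent.H76.BanPair Pool.Agent.H76.BanBasic

variable {X Y : Type*} [NormedAddCommGroup X] [NormedSpace ℂ X]
  [NormedAddCommGroup Y] [NormedSpace ℂ Y]

lemma Gen.shift {V : Type*} [AddCommGroup V] [Module ℂ V] {P : V → Prop} (h : Gen P) (s : V) :
    Gen (fun v => P (s + v)) := by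
  obtain ⟨D, hD, ⟨a, ha⟩, hv⟩ := h
  exact ⟨fun v => D (s + v), PF_comp hD fun a b => ⟨s + a, b, fun t => by rw [add_assoc]⟩,
    ⟨a - s, by simpa using ha⟩, fun v h => hv _ h⟩

lemma pp_iff {φ : (X →L[ℂ] X) → (Y →L[ℂ] Y)} (hs : Function.Surjective φ)
    (h : ∀ T S, spectrum ℂ (br (φ T) (φ S)) = spectrum ℂ (br T S)) (T : X →L[ℂ] X) :
    PP (φ T) ↔ PP T := by
  constructor
  · intro h1 S
    rw [← h]
    exact h1 _
  · intro h1 S
    obtain ⟨S, rfl⟩ := hs S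
    rw [h]
    exact h1 _

lemma exists_rho (hX : ¬ FiniteDimensional ℂ X) {φ : (X →L[ℂ] X) → (Y →L[ℂ] Y)}
    (hs : Function.Surjective φ)
    (h : ∀ T S, spectrum ℂ (br (φ T) (φ S)) = spectrum ℂ (br T S)) (y : Y) (g : StrongDual ℂ Y) :
    ∃ x f, (∃ c : ℂ, φ (ro x f + c • 1) = ro y g) ∧ ∀ T, q (φ T) y g = q T x f := by
  obtain ⟨R, hR⟩ := hs (ro y g)
  have h1 : RR (φ R) := ⟨y, g, 0, by simp [hR]⟩
  obtain ⟨x, f, c, rfl⟩ := ((pp_iff hs h R).1 h1.pp).rr hX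
  refine ⟨x, f, ⟨c, hR⟩, fun T => q_eq ?_⟩
  rw [← hR, h, br_add_smul_one_right]

/-- Polarisation of `q`. -/
noncomputable def bq (T S : X →L[ℂ] X) (x : X) (f : StrongDual ℂ X) : ℂ :=
  f (T x) * f (S x) - f x * (f (T (S x)) + f (S (T x))) / 2

lemma q_line (T S : X →L[ℂ] X) (t : ℂ) (x : X) (f : StrongDual ℂ X) :
    q (T + t • S) x f = q T x f + 2 * t * bq T S x f + t ^ 2 * q S x f := by
  simp only [q, bq, add_apply, smul_apply, map_add, map_smul, smul_eq_mul]; ring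

lemma PF_q (x : X) (f : StrongDual ℂ X) : (fun T => q T x f) ∈ PF (X →L[ℂ] X) := by
  intro T S
  refine ⟨Polynomial.C (q T x f) + Polynomial.C 2 * Polynomial.X * Polynomial.C (bq T S x f)
    + Polynomial.X ^ 2 * Polynomial.C (q S x f), fun t => ?_⟩
  simp only [q_line, Polynomial.eval_add, Polynomial.eval_mul, Polynomial.eval_C,
    Polynomial.eval_X, Polynomial.eval_pow]

lemma q_perp (T : X →L[ℂ] X) {x : X} {f : StrongDual ℂ X} (h : f x = 0) :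
    q T x f = f (T x) ^ 2 := by simp [q, h]

lemma ex_three (hY : ¬ FiniteDimensional ℂ Y) : ∃ (y0 y1 y2 : Y) (k g h : StrongDual ℂ Y),
    k y0 = 1 ∧ g y0 = 0 ∧ h y0 = 0 ∧ g y1 = 1 ∧ h y1 = 0 ∧ h y2 = 1 := by
  obtain ⟨y0, h0⟩ := ex_out hY ∅ (by simp)
  obtain ⟨y1, h1⟩ := ex_out hY {y0} (by simp)
  obtain ⟨y2, h2⟩ := ex_out hY {y0, y1} (by simp)
  obtain ⟨k, hk⟩ := ex_one (x := y0) (by simpa using h0)
  obtain ⟨g, g1, g0⟩ := sep_fin _ (by simp) h1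
  obtain ⟨h, a2, a0⟩ := sep_fin _ (by simp) h2
  exact ⟨y0, y1, y2, k, g, h, hk, g0 _ (by simp), a0 _ (by simp), g1, a0 _ (by simp), a2⟩

theorem exists_lin (hX : ¬ FiniteDimensional ℂ X) (hY : ¬ FiniteDimensional ℂ Y)
    {φ : (X →L[ℂ] X) → (Y →L[ℂ] Y)} (hs : Function.Surjective φ)
    (h : ∀ T S, spectrum ℂ (br (φ T) (φ S)) = spectrum ℂ (br T S)) :
    ∃ L : (X →L[ℂ] X) →ₗ[ℂ] (Y →L[ℂ] Y),
      ∀ S, ∃ e c : ℂ, e * e = 1 ∧ φ S = e • L S + c • (1 : Y →L[ℂ] Y) := by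
  choose ρ1 ρ2 _ hρ using exists_rho hX hs h
  obtain ⟨y0, y1, y2, k0, g0, h0, a1, a2, a3, a4, a5, a6⟩ := ex_three hY
  obtain ⟨T0, hT0⟩ := hs (ro y1 k0)
  obtain ⟨S1, hS1⟩ := hs (ro y2 k0)
  set U := φ T0 with hU
  have hUy : U y0 = y1 := by rw [hT0]; simp [a1]
  have canc : ∀ W : Y →L[ℂ] Y, (∀ y (g : StrongDual ℂ Y), g y = 0 → g (U y) * g (W y) = 0) →
      ∃ c : ℂ, W = c • 1 := by
    intro W hW
    rcases sep_pr.dom (V := (U : Y →ₗ[ℂ] Y)) (V' := (W : Y →ₗ[ℂ] Y)) hW with ⟨c, hc⟩ | ⟨c, hc⟩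
    · have := congrArg g0 (hc y0)
      simp [hUy, a2, a4] at this
    · exact ⟨c, by ext y; simpa using hc y⟩
  let Rel : (X →L[ℂ] X) → (Y →L[ℂ] Y) → Prop := fun S V => ∀ y (g : StrongDual ℂ Y), y ≠ 0 →
    g y = 0 → bq T0 S (ρ1 y g) (ρ2 y g) = g (U y) * g (V y)
  have radd : ∀ S V S' V', Rel S V → Rel S' V' → Rel (S + S') (V + V') := by
    intro S V S' V' h1 h2 y g hy hg
    have b1 := h1 y g hy hg
    have b2 := h2 y g hy hg
    simp only [bq, add_apply, map_add] at b1 b2 ⊢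
    linear_combination b1 + b2
  have rsmul : ∀ S V (c : ℂ), Rel S V → Rel (c • S) (c • V) := by
    intro S V c h1 y g hy hg
    have b1 := h1 y g hy hg
    simp only [bq, smul_apply, map_smul, smul_eq_mul] at b1 ⊢
    linear_combination c * b1
  have rone : ∀ S V (c : ℂ), Rel S V → Rel S (V + c • 1) := by
    intro S V c h1 y g hy hg
    rw [h1 y g hy hg]
    simp [hg]
  have runiq : ∀ S V V', Rel S V → Rel S V' → ∃ c : ℂ, V - V' = c • 1 := by
    intro S V V' h1 h2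
    refine canc _ fun y g hg => ?_
    by_cases hy : y = 0
    · simp [hy]
    have b1 := h1 y g hy hg
    have b2 := h2 y g hy hg
    simp only [sub_apply, map_sub]
    linear_combination b2 - b1
  have hgen : Gen (fun S => ∃ e : ℂ, e * e = 1 ∧ Rel S (e • φ S)) := by
    have hP : (fun S => (g0 y1 * h0 (φ S y0) - h0 y1 * g0 (φ S y0)) ^ 2) ∈ PF (X →L[ℂ] X) := by
      have : (fun S => (g0 y1 * h0 (φ S y0) - h0 y1 * g0 (φ S y0)) ^ 2)
          = fun S => q S (ρ1 y0 h0) (ρ2 y0 h0) := by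
        ext S
        rw [← hρ, q_perp _ a3, a4, a5]; ring
      rw [this]
      exact PF_q _ _
    refine (gen_ne hP ⟨S1, by simp [hS1, a1, a4, a5, a6]⟩).mono fun S hS => ?_
    obtain ⟨e, he, h1⟩ := sep_pr.middle (U := (U : Y →ₗ[ℂ] Y)) (V := (φ S : Y →ₗ[ℂ] Y))
      (W := fun t => (φ (T0 + t • S) : Y →ₗ[ℂ] Y)) (X := fun y g => bq T0 S (ρ1 y g) (ρ2 y g))
      (fun t y g hg => by
        simp only [pr_apply, ContinuousLinearMap.coe_coe] at hg ⊢
        rw [← q_perp _ hg, ← q_perp _ hg, ← q_perp _ hg, hρ, hρ, hρ, q_line])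
      (y0 := y0) (g0 := g0) (h0 := h0) a2 a3 (by
        simpa only [pr_apply, ContinuousLinearMap.coe_coe, hUy] using
          (pow_ne_zero_iff two_ne_zero).1 hS)
    refine ⟨e, he, fun y g hy hg => ?_⟩
    rw [h1 y g hy hg]
    simp only [pr_apply, ContinuousLinearMap.coe_coe, smul_apply, map_smul, smul_eq_mul]
    ring
  have rex : ∀ S, ∃ V, Rel S V ∧ k0 (V y0) = 0 := by
    intro S
    obtain ⟨S', ⟨e, -, h1⟩, e', -, h2⟩ := (hgen.and (Gen.shift hgen S)).exists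
    have h3 := radd _ _ _ _ h2 (rsmul _ _ (-1) h1)
    rw [show S + S' + (-1 : ℂ) • S' = S by module] at h3
    refine ⟨_, rone _ _ (-k0 ((e' • φ (S + S') + (-1 : ℂ) • e • φ S') y0)) h3, ?_⟩
    rw [add_apply, map_add, smul_apply _ _ y0, one_apply_eq_self, map_smul, a1]
    simp
  choose L0 hL0 hn using rex
  have uniq : ∀ S V, Rel S V → k0 (V y0) = 0 → L0 S = V := by
    intro S V h1 h2
    obtain ⟨c, hc⟩ := runiq _ _ _ (hL0 S) h1
    have := congrArg (fun W : Y →L[ℂ] Y => k0 (W y0)) hc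
    simp [hn, h2, a1] at this
    rw [← this, zero_smul] at hc
    exact sub_eq_zero.1 hc
  let L : (X →L[ℂ] X) →ₗ[ℂ] (Y →L[ℂ] Y) :=
    { toFun := L0
      map_add' := fun S S' => uniq _ _ (radd _ _ _ _ (hL0 S) (hL0 S')) (by simp [hn])
      map_smul' := fun c S => uniq _ _ (rsmul _ _ c (hL0 S)) (by simp [hn]) }
  refine ⟨L, fun S => ?_⟩
  have key : ∀ y (g : StrongDual ℂ Y), g y = 0 → g (φ S y) ^ 2 = g (L S y) ^ 2 := by
    intro y g hg
    have hl : (fun S => g (L S y)) ∈ PF (X →L[ℂ] X) :=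
      PF_lin ((g : Y →ₗ[ℂ] ℂ).comp ((ContinuousLinearMap.apply ℂ Y y : _ →ₗ[ℂ] _).comp L))
    have := Gen.eq_zero (PF_sub (PF_q (ρ1 y g) (ρ2 y g)) (PF_mul hl hl)) (hgen.mono (by
      rintro S ⟨e, he, h1⟩
      obtain ⟨c, hc⟩ := runiq _ _ _ (hL0 S) h1
      have h2 : g (L S y) = e * g (φ S y) := by
        have := congrArg (fun W : Y →L[ℂ] Y => g (W y)) hc
        simp [hg] at this
        exact sub_eq_zero.1 this
      rw [← hρ, q_perp _ hg, h2]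
      linear_combination (-(g (φ S y)) ^ 2) * he)) S
    rw [← hρ, q_perp _ hg] at this
    linear_combination this
  obtain ⟨e, c, he, h1⟩ := sep_pr.sq_canc (V := (φ S : Y →ₗ[ℂ] Y)) (V' := (L S : Y →ₗ[ℂ] Y)) key
  exact ⟨e, c, he, by ext y; simpa using h1 y⟩

lemma rank_abs {P Q : Type*} [AddCommGroup P] [Module ℂ P] [AddCommGroup Q] [Module ℂ Q]
    (β : P →ₗ[ℂ] Q →ₗ[ℂ] (Y →L[ℂ] Y)) (hr : ∀ p q, ∃ y g, β p q = ro y g)
    (hnd : ∀ p q, β p q = 0 → p = 0 ∨ q = 0) {p0 : P} {q0 : Q} {y0 : Y} {g0 : StrongDual ℂ Y}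
    (hp0 : p0 ≠ 0) (hq0 : q0 ≠ 0) (h0 : β p0 q0 = ro y0 g0)
    (h1 : ∀ q, ∃ g, β p0 q = ro y0 g) (h2 : ∀ p, ∃ y, β p q0 = ro y g0) :
    ∃ (A : P →ₗ[ℂ] Y) (C : Q →ₗ[ℂ] StrongDual ℂ Y), ∀ p q, β p q = ro (A p) (C q) := by
  have hne : ro y0 g0 ≠ 0 := fun h => by
    rcases hnd _ _ (h0.trans h) with h | h
    exacts [hp0 h, hq0 h]
  have hy0 : y0 ≠ 0 := by rintro rfl; exact hne (by ext; simp)
  have hg0 : g0 ≠ 0 := by rintro rfl; exact hne (by ext; simp)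
  obtain ⟨k0, hk0⟩ := ex_one hy0
  obtain ⟨a0, ha0⟩ := ex_one' hg0
  let A : P →ₗ[ℂ] Y :=
    { toFun := fun p => β p q0 a0
      map_add' := by simp
      map_smul' := by simp }
  let C : Q →ₗ[ℂ] StrongDual ℂ Y :=
    { toFun := fun q => k0.comp (β p0 q)
      map_add' := by simp
      map_smul' := by simp }
  have hA : ∀ p, β p q0 = ro (A p) g0 := by
    intro p
    obtain ⟨y, hy⟩ := h2 p
    have : A p = y := by simp [A, hy, ha0]
    rw [this, hy]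
  have hC : ∀ q, β p0 q = ro y0 (C q) := by
    intro q
    obtain ⟨g, hg⟩ := h1 q
    have : C q = g := by ext z; simp [C, hg, hk0]
    rw [this, hg]
  refine ⟨A, C, fun p q => ?_⟩
  by_cases c1 : ∃ s : ℂ, A p = s • y0
  · obtain ⟨s, hs⟩ := c1
    have : β (p - s • p0) q0 = 0 := by
      rw [map_sub, map_smul, LinearMap.sub_apply, LinearMap.smul_apply, hA p, h0, hs]
      ext z; simp [smul_smul, mul_comm]
    rw [hs, sub_eq_zero.1 ((hnd _ _ this).resolve_right hq0), map_smul, LinearMap.smul_apply, hC]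
    ext z; simp [smul_smul, mul_comm]
  by_cases c2 : ∃ s : ℂ, C q = s • g0
  · obtain ⟨s, hs⟩ := c2
    have : β p0 (q - s • q0) = 0 := by
      rw [map_sub, map_smul, hC q, h0, hs]
      ext z; simp [smul_smul]
    rw [hs, sub_eq_zero.1 ((hnd _ _ this).resolve_left hp0), map_smul, hA]
    ext z; simp [smul_smul]
  obtain ⟨k2, k20, k21⟩ := ex_pair c1
  obtain ⟨a2, a20, a21⟩ := ex_pair' hg0 c2
  set k1 := k0 - k0 (A p) • k2 with hk1
  set a1 := a0 - C q a0 • a2 with ha1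
  have k10 : k1 y0 = 1 := by simp [hk1, hk0, k20]
  have k11 : k1 (A p) = 0 := by simp [hk1, k21]
  have a10 : g0 a1 = 1 := by simp [ha1, ha0, a20]
  have a11 : C q a1 = 0 := by simp [ha1, a21]
  obtain ⟨y', g', hsum⟩ := hr (p0 + p) (q0 + q)
  simp only [map_add, LinearMap.add_apply, h0, hA p, hC q] at hsum
  have minor : k1 (ro y' g' a1) * k2 (ro y' g' a2) = k1 (ro y' g' a2) * k2 (ro y' g' a1) := by
    simp only [ro_apply, map_smul, smul_eq_mul]; ring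
  rw [← hsum] at minor
  obtain ⟨y, g, hM⟩ := hr p q
  have hAp : A p ≠ 0 := fun h => c1 ⟨0, by simp [h]⟩
  have hCq : C q ≠ 0 := fun h => c2 ⟨0, by rw [h]; exact (zero_smul ℂ g0).symm⟩
  have hM0 : ro y g ≠ 0 := fun h => by
    rcases hnd _ _ (hM.trans h) with h | h
    · exact hAp (by simp [h])
    · exact hCq (by simp [h])
  have s1 : (∃ c : ℂ, y = c • A p) ∨ ∃ c : ℂ, g = c • g0 := by
    obtain ⟨y3, g3, h3⟩ := hr p (q0 + q)
    rw [map_add, hA, hM] at h3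
    exact ro_sum hAp hg0 h3
  have s2 : (∃ c : ℂ, y = c • y0) ∨ ∃ c : ℂ, g = c • C q := by
    obtain ⟨y3, g3, h3⟩ := hr (p0 + p) q
    rw [map_add, LinearMap.add_apply, hC, hM] at h3
    exact ro_sum hy0 hCq h3
  rw [hM] at minor ⊢
  simp only [add_apply, ro_apply, map_add, map_smul, smul_eq_mul, k10, k11, k20, k21, a10, a11,
    a20, a21] at minor
  rcases s1 with ⟨c, hc⟩ | ⟨c, hc⟩ <;> rcases s2 with ⟨d, hd⟩ | ⟨d, hd⟩
  · exfalso
    have := congrArg k2 (hc.symm.trans hd)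
    simp [k20, k21] at this
    exact hM0 (by ext z; simp [hc, this])
  · simp only [hc, hd, map_smul, smul_apply, smul_eq_mul, k11, k21, a11, a21] at minor
    have : d * c = 1 := by linear_combination minor
    ext z
    simp only [hc, hd, ro_apply, smul_apply, smul_eq_mul, smul_smul]
    rw [show d * C q z * c = C q z by linear_combination C q z * this]
  · exfalso
    simp [hc, hd, k10, k20, a10, a20] at minor
  · exfalso
    have := congrArg (fun u : StrongDual ℂ Y => u a2) (hc.symm.trans hd)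
    simp [a20, a21] at this
    exact hM0 (by ext z; simp [hd, ← this])

lemma union_lemma {Q : Type*} [AddCommGroup Q] [Module ℂ Q] (γ : Q →ₗ[ℂ] (Y →L[ℂ] Y))
    (hr : ∀ q, ∃ y g, γ q = ro y g) {q0 : Q} {y0 : Y} {g0 : StrongDual ℂ Y} (hy0 : y0 ≠ 0)
    (hg0 : g0 ≠ 0) (h0 : γ q0 = ro y0 g0) :
    (∀ q, ∃ g, γ q = ro y0 g) ∨ ∀ q, ∃ y, γ q = ro y g0 := by
  have h1 : ∀ q, (∃ g, γ q = ro y0 g) ∨ ∃ y, γ q = ro y g0 := by
    intro q
    obtain ⟨y, g, h⟩ := hr q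
    obtain ⟨y', g', h'⟩ := hr (q0 + q)
    rw [map_add, h0, h] at h'
    rcases ro_sum hy0 hg0 h' with ⟨c, rfl⟩ | ⟨c, rfl⟩
    · exact Or.inl ⟨c • g, by rw [h]; ext z; simp [smul_smul, mul_comm]⟩
    · exact Or.inr ⟨c • y, by rw [h]; ext z; simp [smul_smul, mul_comm]⟩
  by_contra hc
  rw [not_or, not_forall, not_forall] at hc
  obtain ⟨⟨q1, n1⟩, q2, n2⟩ := hc
  obtain ⟨y1, e1⟩ := (h1 q1).resolve_left n1
  obtain ⟨g2, e2⟩ := (h1 q2).resolve_right n2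
  rcases h1 (q1 + q2) with ⟨g, e⟩ | ⟨y, e⟩
  · refine n1 ⟨g - g2, ?_⟩
    rw [map_add, e2] at e
    rw [eq_sub_of_add_eq e]
    ext z; simp [sub_smul]
  · refine n2 ⟨y - y1, ?_⟩
    rw [map_add, e1] at e
    rw [eq_sub_of_add_eq' e]
    ext z; simp [smul_sub]

end Pool.Agent.H76.BanLin
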