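import Pool.Agent.H76.BanLin

/-! Spatial form of surjective commutator-spectrum preservers in infinite dimension. -/

namespace Pool.Agent.H76.BanMain

open Pool.Agent.H76.LiePoly Pool.Agent.H76.BanPair Pool.Agent.H76.BanBasic
  Pool.Agent.H76.BanLin Filter Topology

variable {X Y : Type*} [NormedAddCommGroup X] [NormedSpace ℂ X]
  [NormedAddCommGroup Y] [NormedSpace ℂ Y]

/-- The Banach space adjoint. -/
noncomputable def adj (T : X →L[ℂ] X) : StrongDual ℂ X →L[ℂ] StrongDual ℂ X :=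
  (ContinuousLinearMap.compL ℂ X X ℂ).flip T

@[simp] lemma adj_apply (T : X →L[ℂ] X) (f : StrongDual ℂ X) (x : X) : adj T f x = f (T x) := rfl

lemma three_zero (hY : ¬ FiniteDimensional ℂ Y) {y1 y2 y3 : Y} {g1 g2 g3 : StrongDual ℂ Y} {c : ℂ}
    (h : ro y1 g1 + ro y2 g2 - ro y3 g3 = c • 1) : c = 0 := by
  refine scalar_zero hY {y1, y2, y3} (by simp) fun z => ?_
  have := congrArg (fun U : Y →L[ℂ] Y => U z) h
  simp only [sub_apply, add_apply, ro_apply, smul_apply, one_apply_eq_self] at this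
  rw [← this]
  refine Submodule.sub_mem _ (Submodule.add_mem _ ?_ ?_) ?_ <;>
    exact Submodule.smul_mem _ _ (Submodule.subset_span (by simp))

@[simp] lemma ro_zero_left (f : StrongDual ℂ X) : ro 0 f = 0 := by ext; simp

@[simp] lemma ro_zero_right (x : X) : ro x 0 = 0 := by ext; simp

lemma ro_add_left (x x' : X) (f : StrongDual ℂ X) : ro (x + x') f = ro x f + ro x' f := by
  ext; simp

lemma ro_add_right (x : X) (f f' : StrongDual ℂ X) : ro x (f + f') = ro x f + ro x f' := by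
  ext; simp [add_smul]

lemma ro_smul_left (c : ℂ) (x : X) (f : StrongDual ℂ X) : ro (c • x) f = c • ro x f := by
  ext; simp [smul_smul, mul_comm]

lemma ro_smul_right (c : ℂ) (x : X) (f : StrongDual ℂ X) : ro x (c • f) = c • ro x f := by
  ext; simp [smul_smul]

theorem exists_beta (hX : ¬ FiniteDimensional ℂ X) (hY : ¬ FiniteDimensional ℂ Y)
    {φ : (X →L[ℂ] X) → (Y →L[ℂ] Y)} (hs : Function.Surjective φ)
    (h : ∀ T S, spectrum ℂ (br (φ T) (φ S)) = spectrum ℂ (br T S)) :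
    ∃ β : X →ₗ[ℂ] StrongDual ℂ X →ₗ[ℂ] (Y →L[ℂ] Y),
      (∀ x f, ∃ y g, β x f = ro y g) ∧
      (∀ x f, ∃ e c : ℂ, e * e = 1 ∧ φ (ro x f) = e • β x f + c • 1) ∧
      (∀ x f x' f' x'' f'', β x f + β x' f' = β x'' f'' → ro x f + ro x' f' = ro x'' f'') ∧
      (∀ y g, ∃ x f, β x f = ro y g) := by
  obtain ⟨L, hL⟩ := exists_lin hX hY hs h
  have h1 : ∀ x f, ∃ y g, ∃ c : ℂ, L (ro x f) = ro y g + c • 1 := by
    intro x f
    obtain ⟨y, g, c, h2⟩ := ((pp_iff hs h (ro x f)).2 (RR.pp ⟨x, f, 0, by simp⟩)).rr hY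
    obtain ⟨e, d, he, h3⟩ := hL (ro x f)
    refine ⟨e • y, g, e * (c - d), ?_⟩
    rw [ro_smul_left, ← one_smul ℂ (L (ro x f)), ← he, mul_smul,
      eq_sub_of_add_eq (h3.symm.trans h2)]
    module
  choose by1 bg bc hb using h1
  have uniq : ∀ x f x' f' x'' f'', ro x f + ro x' f' = ro x'' f'' →
      ro (by1 x'' f'') (bg x'' f'') = ro (by1 x f) (bg x f) + ro (by1 x' f') (bg x' f') := by
    intro x f x' f' x'' f'' h2
    have h3 := congrArg L h2
    rw [map_add, hb, hb, hb] at h3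
    have h4 : ro (by1 x f) (bg x f) + ro (by1 x' f') (bg x' f') - ro (by1 x'' f'') (bg x'' f'')
        = (bc x'' f'' - bc x f - bc x' f') • (1 : Y →L[ℂ] Y) := by
      linear_combination (norm := module) h3
    rw [three_zero hY h4, zero_smul] at h4
    exact (sub_eq_zero.1 h4).symm
  have uniq2 : ∀ x f x' f' (c : ℂ), ro x' f' = c • ro x f →
      ro (by1 x' f') (bg x' f') = c • ro (by1 x f) (bg x f) := by
    intro x f x' f' c h2
    have h3 := congrArg L h2
    rw [map_smul, hb, hb] at h3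
    have h4 : ro (c • by1 x f) (bg x f) + ro 0 0 - ro (by1 x' f') (bg x' f')
        = (bc x' f' - c * bc x f) • (1 : Y →L[ℂ] Y) := by
      rw [ro_smul_left, ro_zero_left]
      linear_combination (norm := module) -h3
    rw [three_zero hY h4, zero_smul, ro_smul_left, ro_zero_left, add_zero] at h4
    exact (sub_eq_zero.1 h4).symm
  have ker : ∀ S (c : ℂ), L S = c • 1 → ∃ d : ℂ, S = d • 1 := by
    intro S c hS
    obtain ⟨e, d, he, h3⟩ := hL S
    obtain ⟨k, hk⟩ := sep_pr.scalar (V := (S : X →ₗ[ℂ] X)) fun x f _ hf => by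
      have h4 := h S (ro x f)
      rw [h3, hS] at h4
      have h5 : br (e • c • (1 : Y →L[ℂ] Y) + d • 1) (φ (ro x f)) = br 0 (ro 0 0) := by
        simp [br, add_mul, mul_add]
      rw [h5] at h4
      have h6 := q_eq h4
      rw [q_perp S hf] at h6
      simpa [q] using h6.symm
    exact ⟨k, by ext x; simpa using hk x⟩
  refine ⟨LinearMap.mk₂ ℂ (fun x f => ro (by1 x f) (bg x f))
    (fun x x' f => uniq _ _ _ _ _ _ (ro_add_left _ _ _).symm)
    (fun c x f => uniq2 _ _ _ _ _ (ro_smul_left _ _ _))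
    (fun x f f' => uniq _ _ _ _ _ _ (ro_add_right _ _ _).symm)
    (fun c x f => uniq2 _ _ _ _ _ (ro_smul_right _ _ _)), fun x f => ⟨_, _, rfl⟩, ?_, ?_, ?_⟩
  · intro x f
    obtain ⟨e, d, he, h3⟩ := hL (ro x f)
    refine ⟨e, d + e * bc x f, he, ?_⟩
    rw [h3, hb, LinearMap.mk₂_apply]
    module
  · intro x f x' f' x'' f'' h2
    simp only [LinearMap.mk₂_apply] at h2
    obtain ⟨d, hd⟩ := ker (ro x f + ro x' f' - ro x'' f'') (bc x f + bc x' f' - bc x'' f'') (by
      rw [map_sub, map_add, hb, hb, hb, ← h2]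
      module)
    rw [three_zero hX hd, zero_smul] at hd
    exact sub_eq_zero.1 hd
  · intro y g
    obtain ⟨x, f, ⟨c, hc⟩, -⟩ := exists_rho hX hs h y g
    obtain ⟨e, d, he, h3⟩ := hL (ro x f + c • 1)
    obtain ⟨e', d', he', h4⟩ := hL 1
    obtain ⟨k, hk⟩ : ∃ k : ℂ, L 1 = k • 1 := by
      obtain ⟨k, hk⟩ := sep_pr.scalar (V := (φ 1 : Y →ₗ[ℂ] Y)) fun y g _ hg => by
        obtain ⟨x, f, -, h5⟩ := exists_rho hX hs h y g
        have h6 := h5 1
        rw [q_perp _ hg] at h6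
        simpa [q, pow_two] using h6
      refine ⟨e' * (k - d'), ?_⟩
      have h5 : φ 1 = k • 1 := by ext y; simpa using hk y
      rw [← one_smul ℂ (L 1), ← he', mul_smul, eq_sub_of_add_eq (h4.symm.trans h5)]
      module
    refine ⟨e • x, f, ?_⟩
    rw [map_smul, LinearMap.smul_apply, LinearMap.mk₂_apply]
    rw [hc, map_add, map_smul, hb, hk] at h3
    have h5 : ro y g + ro 0 0 - ro (e • by1 x f) (bg x f) = (e * bc x f + e * c * k + d) • 1 := by
      rw [ro_smul_left, ro_zero_left, h3]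
      module
    rw [three_zero hY h5, zero_smul, ro_smul_left, ro_zero_left, add_zero] at h5
    exact (sub_eq_zero.1 h5).symm

lemma bij_of_ro {P Q : Type*} [AddCommGroup P] [Module ℂ P] [AddCommGroup Q] [Module ℂ Q]
    {A : P →ₗ[ℂ] Y} {C : Q →ₗ[ℂ] StrongDual ℂ Y}
    (hnd : ∀ p q, ro (A p) (C q) = 0 → p = 0 ∨ q = 0) (hsur : ∀ y g, ∃ p q, ro (A p) (C q) = ro y g)
    {p0 : P} {q0 : Q} (hp0 : p0 ≠ 0) (hq0 : q0 ≠ 0) {y0 : Y} (hy0 : y0 ≠ 0) :
    Function.Bijective A ∧ Function.Bijective C := by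
  obtain ⟨k0, hk0⟩ := ex_one hy0
  refine ⟨⟨?_, fun y => ?_⟩, ?_, fun g => ?_⟩
  · rw [injective_iff_map_eq_zero]
    exact fun p hp => (hnd p q0 (by simp [hp])).resolve_right hq0
  · obtain ⟨p, q, hpq⟩ := hsur y k0
    have := congrArg (fun U : Y →L[ℂ] Y => U y0) hpq
    exact ⟨C q y0 • p, by simpa [hk0] using this⟩
  · rw [injective_iff_map_eq_zero]
    exact fun q hq => (hnd p0 q (by simp [hq])).resolve_left hp0
  · obtain ⟨p, q, hpq⟩ := hsur y0 g
    refine ⟨k0 (A p) • q, ?_⟩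
    ext z
    have := congrArg (fun U : Y →L[ℂ] Y => k0 (U z)) hpq
    simp [hk0] at this
    simp [← this, mul_comm]

lemma ker_ne (hX : ¬ FiniteDimensional ℂ X) (l : X →ₗ[ℂ] ℂ) : ∃ x, x ≠ 0 ∧ l x = 0 := by
  by_contra hc
  push Not at hc
  refine hX (FiniteDimensional.of_injective l ?_)
  rw [injective_iff_map_eq_zero]
  intro x hx
  by_contra h0
  exact hc x h0 hx

theorem spatial [CompleteSpace X] [CompleteSpace Y] (hX : ¬ FiniteDimensional ℂ X)
    (hY : ¬ FiniteDimensional ℂ Y) {φ : (X →L[ℂ] X) → (Y →L[ℂ] Y)} (hs : Function.Surjective φ)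
    (h : ∀ T S, spectrum ℂ (br (φ T) (φ S)) = spectrum ℂ (br T S)) :
    ∃ c : ℂ, c * c * (c * c) = 1 ∧
      ((∃ A : X ≃L[ℂ] Y, ∀ T, ∃ e d : ℂ, e * e = 1 ∧
        φ T = e • (c • A.conjContinuousAlgEquiv T) + d • 1) ∨
      (∃ C : StrongDual ℂ X ≃L[ℂ] Y, ∀ T, ∃ e d : ℂ, e * e = 1 ∧
        φ T = e • (c • C.conjContinuousAlgEquiv (adj T)) + d • 1)) := by
  obtain ⟨β, hr, hφ, hinj, hsur⟩ := exists_beta hX hY hs h
  have hnd : ∀ x f, β x f = 0 → x = 0 ∨ f = 0 := by
    intro x f h0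
    have := hinj x f 0 0 0 0 (by simp [h0])
    exact ro_eq_zero (by simpa using this)
  have hq : ∀ T x f y g, β x f = ro y g → q (φ T) y g = q T x f := by
    intro T x f y g h1
    obtain ⟨e, c, he, h2⟩ := hφ x f
    rw [← q_smul e he]
    refine q_eq ?_
    rw [← h T, h2, br_add_smul_one_right, h1, ro_smul_left]
  have hq2 : ∀ x f y g x' f' y' g', β x f = ro y g → β x' f' = ro y' g' →
      q (ro y' g') y g = q (ro x' f') x f := by
    intro x f y g x' f' y' g' h1 h2
    obtain ⟨e, c, he, h3⟩ := hφ x' f'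
    rw [← hq _ _ _ _ _ h1, h3, q_form _ _ he, h2]
  obtain ⟨x0, x1, -, f0, f1, -, a1, a2, -, a4, -⟩ := ex_three hX
  have hx0 : x0 ≠ 0 := by rintro rfl; simp at a1
  have hf0 : f0 ≠ 0 := by rintro rfl; simp at a1
  have hf1 : f1 ≠ 0 := by rintro rfl; simp at a4
  obtain ⟨y0, g0, h0⟩ := hr x0 f0
  have hne : ro y0 g0 ≠ 0 := fun h => by
    rcases hnd _ _ (h0.trans h) with h | h
    exacts [hx0 h, hf0 h]
  have hy0 : y0 ≠ 0 := by rintro rfl; exact hne (by simp)
  have hg0 : g0 ≠ 0 := by rintro rfl; exact hne (by simp)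
  have notboth : ∀ y g, β x0 f1 + β x1 f0 ≠ ro y g := by
    intro y g h1
    obtain ⟨x, f, h2⟩ := hsur y g
    rcases ro_sum hx0 hf1 (hinj _ _ _ _ _ _ (h1.trans h2.symm)) with ⟨c, hc⟩ | ⟨c, hc⟩
    · simp [hc, a2] at a4
    · simp [hc, a2] at a1
  rcases union_lemma (β x0) (hr x0) hy0 hg0 h0 with h1 | h1 <;>
    rcases union_lemma (β.flip f0) (fun x => hr x f0) hy0 hg0 h0 with h2 | h2
  · obtain ⟨g, hg⟩ := h1 f1
    obtain ⟨g', hg'⟩ := h2 x1
    exact absurd (by rw [hg, ro_add_right, ← hg']; rfl) (notboth y0 (g + g'))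
  · obtain ⟨A, C, hAC⟩ := rank_abs β hr hnd hx0 hf0 h0 h1 h2
    obtain ⟨bA, bC⟩ := bij_of_ro (A := A) (C := C) (fun p q => hAC p q ▸ hnd p q)
      (fun y g => by simpa only [hAC] using hsur y g) hx0 hf0 hy0
    obtain ⟨c, hc, hB⟩ := form_eq (p := pr X) ((pr Y).compl₁₂ A C) (fun x hx => bA.1 (by
        rw [map_zero]
        refine sep_pr _ fun g => ?_
        obtain ⟨f, rfl⟩ := bC.2 g
        exact hx f)) (ker_ne hX) (y0 := x0) (f0 := f0) a1 sep_pr (fun x y f g => by
        have := hq2 _ _ _ _ _ _ _ _ (hAC x f) (hAC y g)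
        simp only [q, ro_apply, map_smul, smul_eq_mul] at this
        simp only [LinearMap.compl₁₂_apply, pr_apply]
        linear_combination this)
    simp only [LinearMap.compl₁₂_apply, pr_apply] at hB
    have hc0 : c ≠ 0 := by rintro rfl; simp at hc
    have cont : Continuous A := A.continuous_of_seq_closed_graph fun u x y hu hy => by
      refine SeparatingDual.eq_iff_forall_dual_eq (R := ℂ) |>.2 fun g => ?_
      obtain ⟨f, rfl⟩ := bC.2 g
      have t1 : Tendsto (fun n => C f (A (u n))) atTop (𝓝 (C f y)) :=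
        ((C f).continuous.tendsto y).comp hy
      simp only [hB] at t1 ⊢
      exact tendsto_nhds_unique t1 (((f.continuous.tendsto x).comp hu).const_mul c)
    let A' : X ≃L[ℂ] Y := (LinearEquiv.ofBijective A bA).toContinuousLinearEquivOfContinuous cont
    have hA' : ∀ x, A' x = A x := fun _ => rfl
    refine ⟨c⁻¹, by rw [← mul_inv, ← mul_inv, hc, inv_one], Or.inl ⟨A', fun T => ?_⟩⟩
    obtain ⟨e, d, he, h3⟩ := sep_pr.sq_canc
      (V := (c • A'.symm.conjContinuousAlgEquiv (φ T) : X →L[ℂ] X)) (V' := (T : X →ₗ[ℂ] X))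
      fun x f hf => by
        have h4 := hq T _ _ _ _ (hAC x f)
        simp only [pr_apply] at hf
        rw [q_perp _ hf, q_perp _ (by rw [hB, hf, mul_zero])] at h4
        simp only [pr_apply, ContinuousLinearMap.coe_coe, smul_apply, map_smul, smul_eq_mul,
          ContinuousLinearEquiv.conjContinuousAlgEquiv_apply_apply, LinearMap.smul_apply,
          ContinuousLinearEquiv.symm_symm]
        rw [← h4, ← hB, ← hA', ContinuousLinearEquiv.apply_symm_apply, hA']
    refine ⟨e, c⁻¹ * d, he, ?_⟩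
    ext y
    have h4 := congrArg A' (h3 (A'.symm y))
    simp only [ContinuousLinearMap.coe_coe, smul_apply, map_smul, map_add,
      ContinuousLinearEquiv.conjContinuousAlgEquiv_apply_apply, ContinuousLinearEquiv.symm_symm,
      ContinuousLinearEquiv.apply_symm_apply] at h4
    simp only [add_apply, smul_apply, one_apply_eq_self,
      ContinuousLinearEquiv.conjContinuousAlgEquiv_apply_apply]
    rw [← one_smul ℂ (φ T y), ← inv_mul_cancel₀ hc0, mul_smul, h4]
    module
  · obtain ⟨C, A, hAC⟩ := rank_abs β.flip (fun f x => hr x f) (fun f x h => (hnd x f h).symm)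
      hf0 hx0 h0 h2 h1
    simp only [LinearMap.flip_apply] at hAC
    obtain ⟨bC, bA⟩ := bij_of_ro (A := C) (C := A) (fun p q => hAC p q ▸ fun h => (hnd q p h).symm)
      (fun y g => by
        obtain ⟨x, f, h⟩ := hsur y g
        exact ⟨f, x, hAC f x ▸ h⟩) hf0 hx0 hy0
    obtain ⟨c, hc, hB⟩ := form_eq (p := pr X) ((pr Y).flip.compl₁₂ A C) (fun x hx => bA.1 (by
        rw [map_zero]
        refine sep_flip _ fun g => ?_
        obtain ⟨f, rfl⟩ := bC.2 g
        exact hx f)) (ker_ne hX) (y0 := x0) (f0 := f0) a1 sep_pr (fun x y f g => by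
        have := hq2 _ _ _ _ _ _ _ _ (hAC f x) (hAC g y)
        simp only [q, ro_apply, map_smul, smul_eq_mul] at this
        simp only [LinearMap.compl₁₂_apply, LinearMap.flip_apply, pr_apply]
        linear_combination this)
    simp only [LinearMap.compl₁₂_apply, LinearMap.flip_apply, pr_apply] at hB
    have hc0 : c ≠ 0 := by rintro rfl; simp at hc
    have cont : Continuous C := C.continuous_of_seq_closed_graph fun u f y hu hy => by
      refine SeparatingDual.eq_iff_forall_dual_eq (R := ℂ) |>.2 fun g => ?_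
      obtain ⟨x, rfl⟩ := bA.2 g
      have t1 : Tendsto (fun n => A x (C (u n))) atTop (𝓝 (A x y)) :=
        ((A x).continuous.tendsto y).comp hy
      simp only [hB] at t1 ⊢
      exact tendsto_nhds_unique t1
        ((((ContinuousLinearMap.apply ℂ ℂ x).continuous.tendsto f).comp hu).const_mul c)
    let C' : StrongDual ℂ X ≃L[ℂ] Y :=
      (LinearEquiv.ofBijective C bC).toContinuousLinearEquivOfContinuous cont
    have hC' : ∀ x, C' x = C x := fun _ => rfl
    refine ⟨c⁻¹, by rw [← mul_inv, ← mul_inv, hc, inv_one], Or.inr ⟨C', fun T => ?_⟩⟩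
    obtain ⟨e, d, he, h3⟩ := sep_flip.sq_canc
      (V := (c • C'.symm.conjContinuousAlgEquiv (φ T) : StrongDual ℂ X →L[ℂ] StrongDual ℂ X))
      (V' := (adj T : StrongDual ℂ X →ₗ[ℂ] StrongDual ℂ X))
      fun f x hf => by
        have h4 := hq T _ _ _ _ (hAC f x)
        simp only [LinearMap.flip_apply, pr_apply] at hf
        rw [q_perp _ hf, q_perp _ (by rw [hB, hf, mul_zero])] at h4
        simp only [LinearMap.flip_apply, pr_apply, ContinuousLinearMap.coe_coe, smul_apply,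
          smul_eq_mul, ContinuousLinearEquiv.conjContinuousAlgEquiv_apply_apply,
          ContinuousLinearEquiv.symm_symm, adj_apply]
        rw [← h4, ← hB, ← hC', ContinuousLinearEquiv.apply_symm_apply, hC']
    refine ⟨e, c⁻¹ * d, he, ?_⟩
    ext y
    have h4 := congrArg C' (h3 (C'.symm y))
    simp only [ContinuousLinearMap.coe_coe, smul_apply, map_smul, map_add,
      ContinuousLinearEquiv.conjContinuousAlgEquiv_apply_apply, ContinuousLinearEquiv.symm_symm,
      ContinuousLinearEquiv.apply_symm_apply] at h4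
    simp only [add_apply, smul_apply, one_apply_eq_self,
      ContinuousLinearEquiv.conjContinuousAlgEquiv_apply_apply]
    rw [← one_smul ℂ (φ T y), ← inv_mul_cancel₀ hc0, mul_smul, h4]
    module
  · obtain ⟨y, hy⟩ := h1 f1
    obtain ⟨y', hy'⟩ := h2 x1
    exact absurd (by rw [hy, ro_add_left, ← hy']; rfl) (notboth (y + y') g0)

lemma spec_adj [CompleteSpace X] (Z : X →L[ℂ] X) : spectrum ℂ (adj Z) = spectrum ℂ Z := by
  have key : ∀ U : X →L[ℂ] X, IsUnit (adj U) ↔ IsUnit U := by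
    intro U
    constructor
    · rintro ⟨u, hu⟩
      let K : StrongDual ℂ X →L[ℂ] StrongDual ℂ X := ↑u⁻¹
      have h1 : ∀ f, adj U (K f) = f := fun f => by
        rw [← hu, ← mul_apply_eq_comp]; simp [K]
      have h2 : ∀ f, K (adj U f) = f := fun f => by
        rw [← hu, ← mul_apply_eq_comp]; simp [K]
      have hb : ∀ x, ‖x‖ ≤ ‖K‖₊ * ‖U x‖ := by
        intro x
        obtain ⟨f, hf1, hf2⟩ := exists_dual_vector'' ℂ x
        calc ‖x‖ = ‖f x‖ := by rw [hf2]; simp
          _ = ‖K f (U x)‖ := by rw [← adj_apply, h1]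
          _ ≤ ‖K f‖ * ‖U x‖ := (K f).le_opNorm _
          _ ≤ ‖K‖ * ‖f‖ * ‖U x‖ := by gcongr; exact K.le_opNorm _
          _ ≤ ‖K‖ * 1 * ‖U x‖ := by gcongr
          _ = _ := by simp
      have ha := U.antilipschitz_of_bound hb
      rw [ContinuousLinearMap.isUnit_iff_bijective]
      refine ⟨ha.injective, fun y => ?_⟩
      by_contra hy
      obtain ⟨f, hf1, hf0⟩ := sep_closed (LinearMap.range (U : X →ₗ[ℂ] X))
        (ha.isClosed_range U.uniformContinuous) (x := y) hy
      have : adj U f = 0 := by ext x; exact hf0 _ ⟨x, rfl⟩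
      rw [← h2 f, this] at hf1
      simp at hf1
    · rintro ⟨u, rfl⟩
      refine ⟨⟨adj u, adj ↑u⁻¹, ?_, ?_⟩, rfl⟩
      · ext f x
        change f (((↑u⁻¹ : X →L[ℂ] X) * ↑u) x) = f x
        rw [u.inv_mul]; rfl
      · ext f x
        change f (((↑u : X →L[ℂ] X) * ↑u⁻¹) x) = f x
        rw [u.mul_inv]; rfl
  ext c
  rw [spectrum.mem_iff, spectrum.mem_iff, ← key]
  congr! 2
  ext f x
  simp [Algebra.algebraMap_eq_smul_one]

lemma br_adj (T S : X →L[ℂ] X) : br (adj T) (adj S) = - adj (br T S) := by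
  ext f x
  simp [br_apply]

end Pool.Agent.H76.BanMain
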