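import Pool.Agent.H76.LiePoly

/-! Algebraic lemmas on separating dual pairs. -/

namespace Pool.Agent.H76.BanPair

open Pool.Agent.H76.LiePoly

variable {E F : Type*} [AddCommGroup E] [Module ℂ E] [AddCommGroup F] [Module ℂ F]

lemma scalar_of_eig {V : E →ₗ[ℂ] E} (h : ∀ y, ∃ c : ℂ, V y = c • y) :
    ∃ c : ℂ, ∀ y, V y = c • y := by
  obtain ⟨c, hc⟩ := V.exists_eq_smul_id_of_forall_notLinearIndependent fun v hv => by
    obtain ⟨c, hc⟩ := h v
    have := (LinearIndependent.pair_iff.1 hv) c (-1) (by rw [hc]; simp)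
    simp at this
  exact ⟨c, fun y => by rw [hc]; simp⟩

variable (p : E →ₗ[ℂ] F →ₗ[ℂ] ℂ)

/-- The pairing separates vectors. -/
def Sep : Prop := ∀ y, (∀ g, p y g = 0) → y = 0

variable {p}

lemma Sep.one (hp : Sep p) {y : E} (hy : y ≠ 0) : ∃ k, p y k = 1 := by
  by_contra hc
  refine hy (hp y fun g => ?_)
  by_contra h0
  exact hc ⟨(p y g)⁻¹ • g, by rw [map_smul, smul_eq_mul, inv_mul_cancel₀ h0]⟩

lemma Sep.mem_span (hp : Sep p) {y w : E} (hy : y ≠ 0) (h : ∀ g, p y g = 0 → p w g = 0) :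
    ∃ c : ℂ, w = c • y := by
  obtain ⟨k, hk⟩ := hp.one hy
  refine ⟨p w k, sub_eq_zero.1 (hp _ fun g => ?_)⟩
  have := h (g - p y g • k) (by simp [hk])
  simp only [map_sub, map_smul, smul_eq_mul, LinearMap.sub_apply, LinearMap.smul_apply] at this ⊢
  linear_combination this

lemma Sep.scalar (hp : Sep p) {V : E →ₗ[ℂ] E} (h : ∀ y g, y ≠ 0 → p y g = 0 → p (V y) g = 0) :
    ∃ c : ℂ, ∀ y, V y = c • y := by
  refine scalar_of_eig fun y => ?_
  by_cases hy : y = 0
  · exact ⟨0, by simp [hy]⟩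
  · exact hp.mem_span hy fun g hg => h y g hy hg

lemma PF_pair {P : Type*} [AddCommGroup P] [Module ℂ P] (a : P →ₗ[ℂ] E) (b : P →ₗ[ℂ] F) :
    (fun v => p (a v) (b v)) ∈ PF P := by
  intro u v
  refine ⟨Polynomial.C (p (a u) (b u)) + Polynomial.X * Polynomial.C (p (a u) (b v) + p (a v) (b u))
    + Polynomial.X ^ 2 * Polynomial.C (p (a v) (b v)), fun t => ?_⟩
  simp only [map_add, map_smul, LinearMap.add_apply, LinearMap.smul_apply, smul_eq_mul,
    Polynomial.eval_add, Polynomial.eval_mul, Polynomial.eval_C, Polynomial.eval_X,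
    Polynomial.eval_pow]
  ring

variable (p) in
/-- Parametrisation of functionals annihilating a vector. -/
def G1 (v : E × F × F × F) : F := p v.1 v.2.1 • v.2.2.1 - p v.1 v.2.2.1 • v.2.1

variable (p) in
/-- Parametrisation of functionals annihilating a vector. -/
def G2 (v : E × F × F × F) : F := p v.1 v.2.1 • v.2.2.2 - p v.1 v.2.2.2 • v.2.1

lemma G1_perp (v : E × F × F × F) : p v.1 (G1 p v) = 0 := by simp [G1, mul_comm]

lemma G2_perp (v : E × F × F × F) : p v.1 (G2 p v) = 0 := by simp [G2, mul_comm]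

lemma PF_G1 (V : E →ₗ[ℂ] E) : (fun v : E × F × F × F => p (V v.1) (G1 p v)) ∈ PF (E × F × F × F) := by
  let a : (E × F × F × F) →ₗ[ℂ] E := LinearMap.fst ℂ _ _
  let k : (E × F × F × F) →ₗ[ℂ] F := (LinearMap.fst ℂ _ _).comp (LinearMap.snd ℂ _ _)
  let g : (E × F × F × F) →ₗ[ℂ] F :=
    (LinearMap.fst ℂ _ _).comp ((LinearMap.snd ℂ _ _).comp (LinearMap.snd ℂ _ _))
  simp only [G1, map_sub, map_smul, smul_eq_mul]
  exact PF_sub (PF_mul (PF_pair a k) (PF_pair (V.comp a) g))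
    (PF_mul (PF_pair a g) (PF_pair (V.comp a) k))

lemma PF_G2 (V : E →ₗ[ℂ] E) : (fun v : E × F × F × F => p (V v.1) (G2 p v)) ∈ PF (E × F × F × F) := by
  let a : (E × F × F × F) →ₗ[ℂ] E := LinearMap.fst ℂ _ _
  let k : (E × F × F × F) →ₗ[ℂ] F := (LinearMap.fst ℂ _ _).comp (LinearMap.snd ℂ _ _)
  let g : (E × F × F × F) →ₗ[ℂ] F :=
    (LinearMap.snd ℂ _ _).comp ((LinearMap.snd ℂ _ _).comp (LinearMap.snd ℂ _ _))
  simp only [G2, map_sub, map_smul, smul_eq_mul]
  exact PF_sub (PF_mul (PF_pair a k) (PF_pair (V.comp a) g))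
    (PF_mul (PF_pair a g) (PF_pair (V.comp a) k))

lemma Sep.param (hp : Sep p) {y : E} (hy : y ≠ 0) {g h : F} (hg : p y g = 0) (hh : p y h = 0) :
    ∃ v : E × F × F × F, v.1 = y ∧ G1 p v = g ∧ G2 p v = h := by
  obtain ⟨k, hk⟩ := hp.one hy
  exact ⟨(y, k, g, h), rfl, by simp [G1, hk, hg], by simp [G2, hk, hh]⟩

lemma Sep.scalar' (hp : Sep p) {V : E →ₗ[ℂ] E}
    (h : ∀ v : E × F × F × F, p (V v.1) (G1 p v) = 0) : ∃ c : ℂ, ∀ y, V y = c • y := by
  refine hp.scalar fun y g hy hg => ?_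
  obtain ⟨v, rfl, rfl, -⟩ := hp.param hy hg hg
  exact h v

lemma Sep.dom (hp : Sep p) {V V' : E →ₗ[ℂ] E}
    (h : ∀ y g, p y g = 0 → p (V y) g * p (V' y) g = 0) :
    (∃ c : ℂ, ∀ y, V y = c • y) ∨ ∃ c : ℂ, ∀ y, V' y = c • y :=
  (PF_mul_eq_zero (PF_G1 V) (PF_G1 V') fun v => h _ _ (G1_perp v)).imp hp.scalar' hp.scalar'

lemma Sep.sq_canc (hp : Sep p) {V V' : E →ₗ[ℂ] E}
    (h : ∀ y g, p y g = 0 → p (V y) g ^ 2 = p (V' y) g ^ 2) :
    ∃ e c : ℂ, e * e = 1 ∧ ∀ y, V y = e • V' y + c • y := by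
  rcases hp.dom (V := V - V') (V' := V + V') (fun y g hg => by
    simp only [LinearMap.sub_apply, LinearMap.add_apply, map_sub, map_add]
    linear_combination h y g hg) with ⟨c, hc⟩ | ⟨c, hc⟩
  · exact ⟨1, c, by simp, fun y => by rw [← hc]; simp⟩
  · exact ⟨-1, c, by simp, fun y => by rw [← hc]; simp⟩

lemma num_lemma {u1 u2 v1 v2 X11 X12 X22 : ℂ}
    (h : ∀ t : ℂ, (u1 ^ 2 + 2 * t * X11 + t ^ 2 * v1 ^ 2) * (u2 ^ 2 + 2 * t * X22 + t ^ 2 * v2 ^ 2)
      = (u1 * u2 + 2 * t * X12 + t ^ 2 * (v1 * v2)) ^ 2) :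
    (u1 * v2 - u2 * v1) * (X11 ^ 2 - u1 ^ 2 * v1 ^ 2) = 0 := by
  by_cases hD : u1 * v2 - u2 * v1 = 0
  · rw [hD, zero_mul]
  have c1 : u1 ^ 2 * X22 + u2 ^ 2 * X11 - 2 * u1 * u2 * X12 = 0 := by
    linear_combination (1/24 : ℂ) * (8 * (h 1 - h (-1)) - (h 2 - h (-2)))
  have c2 : u1 ^ 2 * v2 ^ 2 + u2 ^ 2 * v1 ^ 2 + 4 * X11 * X22 - 2 * u1 * u2 * v1 * v2
      - 4 * X12 ^ 2 = 0 := by
    linear_combination (1/24 : ℂ) * (16 * (h 1 + h (-1)) - (h 2 + h (-2)))
  have c3 : v1 ^ 2 * X22 + v2 ^ 2 * X11 - 2 * v1 * v2 * X12 = 0 := by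
    linear_combination (1/24 : ℂ) * ((h 2 - h (-2)) - 2 * (h 1 - h (-1)))
  have e1 : X11 * (u1 * v2 + u2 * v1) = 2 * X12 * u1 * v1 := by
    apply mul_left_cancel₀ hD
    linear_combination u1 ^ 2 * c3 - v1 ^ 2 * c1
  have e2 : X22 * u1 * v1 = X11 * u2 * v2 := by
    apply mul_left_cancel₀ hD
    linear_combination v1 * v2 * c1 - u1 * u2 * c3
  apply mul_left_cancel₀ hD
  linear_combination (-(u1 ^ 2 * v1 ^ 2)) * c2 + 4 * X11 * u1 * v1 * e2
    + (X11 * (u1 * v2 + u2 * v1) + 2 * X12 * u1 * v1) * e1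

/-- If the squares of a family of operators vary quadratically, the middle term is the product. -/
lemma Sep.middle (hp : Sep p) {U V : E →ₗ[ℂ] E} {W : ℂ → E →ₗ[ℂ] E} {X : E → F → ℂ}
    (h : ∀ t y g, p y g = 0 →
      p (W t y) g ^ 2 = p (U y) g ^ 2 + 2 * t * X y g + t ^ 2 * p (V y) g ^ 2)
    {y0 : E} {g0 h0 : F} (hg : p y0 g0 = 0) (hh : p y0 h0 = 0)
    (hD : p (U y0) g0 * p (V y0) h0 - p (U y0) h0 * p (V y0) g0 ≠ 0) :
    ∃ e : ℂ, e * e = 1 ∧ ∀ y g, y ≠ 0 → p y g = 0 → X y g = e * (p (U y) g * p (V y) g) := by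
  have hy0 : y0 ≠ 0 := by rintro rfl; simp at hD
  have hX : ∀ y g, p y g = 0 → X y g = (1 / 4 : ℂ) * (p (W 1 y) g * p (W 1 y) g
      - p (W (-1) y) g * p (W (-1) y) g) := by
    intro y g hg
    linear_combination (-1 / 4 : ℂ) * (h 1 y g hg - h (-1) y g hg)
  have pX : (fun v : E × F × F × F => X v.1 (G1 p v)) ∈ PF (E × F × F × F) := by
    simp only [fun v => hX _ _ (G1_perp v)]
    exact PF_mul (PF_const _) (PF_sub (PF_mul (PF_G1 _) (PF_G1 _)) (PF_mul (PF_G1 _) (PF_G1 _)))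
  have pUV := PF_mul (PF_G1 (p := p) U) (PF_G1 (p := p) V)
  have key : ∀ y g k, p y g = 0 → p y k = 0 →
      (p (U y) g * p (V y) k - p (U y) k * p (V y) g) *
      ((X y g - p (U y) g * p (V y) g) * (X y g + p (U y) g * p (V y) g)) = 0 := by
    intro y g k hg hk
    have := num_lemma (u1 := p (U y) g) (u2 := p (U y) k) (v1 := p (V y) g) (v2 := p (V y) k)
      (X11 := X y g) (X22 := X y k) (X12 := (X y (g + k) - X y g - X y k) / 2) fun t => by
        have a1 := h t y g hg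
        have a2 := h t y k hk
        have a3 := h t y (g + k) (by simp [hg, hk])
        simp only [map_add] at a3
        rw [← a1, ← a2, show p (U y) g * p (U y) k + 2 * t * ((X y (g + k) - X y g - X y k) / 2)
          + t ^ 2 * (p (V y) g * p (V y) k) = p (W t y) g * p (W t y) k by
            linear_combination (a1 + a2 - a3) / 2]
        ring
    linear_combination this
  rcases PF_mul_eq_zero (PF_sub (PF_mul (PF_G1 U) (PF_G2 V)) (PF_mul (PF_G2 U) (PF_G1 V)))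
    (PF_mul (PF_sub pX pUV) (PF_add pX pUV))
    (fun v => key _ _ _ (G1_perp v) (G2_perp v)) with h1 | h1
  · obtain ⟨v, rfl, rfl, rfl⟩ := hp.param hy0 hg hh
    exact absurd (h1 v) hD
  · rcases PF_mul_eq_zero (PF_sub pX pUV) (PF_add pX pUV) h1 with h2 | h2
    · refine ⟨1, by simp, fun y g hy hg => ?_⟩
      obtain ⟨v, rfl, rfl, -⟩ := hp.param hy hg hg
      linear_combination h2 v
    · refine ⟨-1, by simp, fun y g hy hg => ?_⟩
      obtain ⟨v, rfl, rfl, -⟩ := hp.param hy hg hg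
      linear_combination h2 v

/-- A bilinear form with the same fourth order invariant as the pairing is a multiple of it. -/
lemma form_eq (B : E →ₗ[ℂ] F →ₗ[ℂ] ℂ) (hB : Sep B)
    (hker : ∀ l : E →ₗ[ℂ] ℂ, ∃ x, x ≠ 0 ∧ l x = 0) {y0 : E} {f0 : F} (h0 : p y0 f0 = 1)
    (hp : Sep p)
    (h : ∀ x y f g, B x g * B y f * (B x g * B y f - B x f * B y g)
      = p x g * p y f * (p x g * p y f - p x f * p y g)) :
    ∃ c : ℂ, c * c * (c * c) = 1 ∧ ∀ x f, B x f = c * p x f := by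
  have h1 : ∀ y f, p y f = 0 → B y f = 0 := by
    intro y f hf
    by_contra hne
    obtain ⟨x, hx0, hx⟩ := hker (B.flip f)
    rw [LinearMap.flip_apply] at hx
    refine hx0 (hB x fun g => ?_)
    have := h x y f g
    rw [hf, hx] at this
    have h2 : (B x g * B y f) ^ 2 = 0 := by linear_combination this
    exact (mul_eq_zero.1 (pow_eq_zero_iff two_ne_zero |>.1 h2)).resolve_right hne
  have h2 : ∀ y f, B y f = B y0 f0 * p y f := by
    intro y f
    have a1 := h1 (y - p y f0 • y0) f0 (by simp [h0])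
    have a2 := h1 y0 (f - p y0 f • f0) (by simp [h0])
    have a3 := h1 (y - p y f0 • y0 + y0)
      (f - p y0 f • f0 - (p y f - p y f0 * p y0 f) • f0) (by
        simp only [map_sub, map_add, map_smul, LinearMap.sub_apply, LinearMap.add_apply,
          LinearMap.smul_apply, smul_eq_mul, h0]
        ring)
    simp only [map_sub, map_add, map_smul, LinearMap.sub_apply, LinearMap.add_apply,
      LinearMap.smul_apply, smul_eq_mul] at a1 a2 a3
    linear_combination a3 + (p y0 f + (p y f - p y f0 * p y0 f)) * a1 + (p y f0 - 1) * a2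
  refine ⟨B y0 f0, ?_, h2⟩
  obtain ⟨x, hx0, hx⟩ := hker (p.flip f0)
  rw [LinearMap.flip_apply] at hx
  obtain ⟨g, hg⟩ := hp.one hx0
  have := h x y0 f0 g
  rw [h2 x g, h2 x f0, h2 y0 g, hg, hx, h0] at this
  linear_combination this

/-- A locally quadratic operator is quadratic. -/
lemma exists_cyc {T : E →ₗ[ℂ] E} (hT : ¬ ∃ a b : ℂ, ∀ x, T (T x) = a • T x + b • x) :
    ∃ x, ¬ ∃ a b : ℂ, T (T x) = a • T x + b • x := by
  by_contra hc
  push Not at hc
  apply hT
  by_cases hs : ∀ x, ∃ c : ℂ, T x = c • x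
  · obtain ⟨c, hc⟩ := scalar_of_eig hs
    exact ⟨c, 0, fun x => by rw [hc (T x)]; simp⟩
  push Not at hs
  obtain ⟨x0, hx0⟩ := hs
  have fac : ∀ x, ∃ e f : ℂ, T (T x) = (e + f) • T x - (e * f) • x := by
    intro x
    obtain ⟨a, b, h⟩ := hc x
    obtain ⟨w, hw⟩ := IsAlgClosed.exists_eq_mul_self (a ^ 2 + 4 * b)
    refine ⟨(a + w) / 2, (a - w) / 2, ?_⟩
    rw [h, show (a + w) / 2 + (a - w) / 2 = a by ring,
      show (a + w) / 2 * ((a - w) / 2) = -b by linear_combination hw / 4]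
    module
  obtain ⟨a, b, h0⟩ := fac x0
  refine ⟨a + b, -(a * b), fun y => ?_⟩
  obtain ⟨c, d, h1⟩ := fac y
  let s : Fin 4 → ℂ := ![a, b, c, d]
  let Q : ℂ → ℂ → E →ₗ[ℂ] E := fun e f => T ∘ₗ T - (e + f) • T + (e * f) • LinearMap.id
  have hQ : ∀ e f x, Q e f x = T (T x) - (e + f) • T x + (e * f) • x := fun _ _ _ => rfl
  have hQT : ∀ e f x, Q e f (T x) = T (Q e f x) := by
    intro e f x; simp only [hQ, map_add, map_sub, map_smul]
  have hQQ : ∀ x, Q a b (Q c d x) = Q c d (Q a b x) := by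
    intro x; simp only [hQ, map_add, map_sub, map_smul]; module
  have k0 : Q a b x0 = 0 := by rw [hQ, h0]; module
  have k1 : Q c d y = 0 := by rw [hQ, h1]; module
  have eig : ∀ w (e : ℂ), w ≠ 0 → Q a b (Q c d w) = 0 → T w = e • w → ∃ i, s i = e := by
    intro w e hw h2 h3
    have : ((e - a) * (e - b) * ((e - c) * (e - d))) • w = 0 := by
      rw [← h2]
      simp only [hQ, map_add, map_sub, map_smul, h3]
      module
    have h4 := (smul_eq_zero.1 this).resolve_right hw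
    simp only [mul_eq_zero, sub_eq_zero] at h4
    rcases h4 with (h4 | h4) | h4 | h4
    exacts [⟨0, h4.symm⟩, ⟨1, h4.symm⟩, ⟨2, h4.symm⟩, ⟨3, h4.symm⟩]
  have main : ∀ z, Q a b (Q c d z) = 0 → ∃ ij : Fin 4 × Fin 4, Q (s ij.1) (s ij.2) z = 0 := by
    intro z hz
    by_cases hz0 : z = 0
    · exact ⟨(0, 0), by simp [hz0]⟩
    obtain ⟨e, f, h2⟩ := fac z
    have aux : ∀ e f : ℂ, T (T z) = (e + f) • T z - (e * f) • z →
        (∃ i, s i = e) ∨ ∃ ij : Fin 4 × Fin 4, Q (s ij.1) (s ij.2) z = 0 := by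
      intro e f h2
      by_cases h3 : T z - f • z = 0
      · right
        obtain ⟨i, hi⟩ := eig z f hz0 hz (sub_eq_zero.1 h3)
        refine ⟨(i, i), ?_⟩
        simp only [hQ, hi, sub_eq_zero.1 h3, map_smul]
        module
      · left
        refine eig _ e h3 ?_ ?_
        · simp only [map_sub, map_smul, hQT, hz]; simp
        · simp only [map_sub, map_smul, h2]; module
    rcases aux e f h2 with ⟨i, hi⟩ | h3
    · rcases aux f e (by rw [h2, add_comm, mul_comm]) with ⟨j, hj⟩ | h3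
      · exact ⟨(i, j), by rw [hQ, hi, hj, h2]; module⟩
      · exact h3
    · exact h3
  choose ij hij using fun m : ℕ => main (x0 + (m : ℂ) • y) (by
    simp only [map_add, map_smul, k1, smul_zero, add_zero]
    rw [hQQ, k0, map_zero])
  obtain ⟨m, m', hne, hmm⟩ := Finite.exists_ne_map_eq_of_infinite ij
  have a1 := hij m
  have a2 := hij m'
  rw [← hmm] at a2
  generalize s (ij m).1 = e at a1 a2
  generalize s (ij m).2 = f at a1 a2
  simp only [map_add, map_smul] at a1 a2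
  have a3 : Q e f y = 0 := by
    have : ((m : ℂ) - m') • Q e f y = 0 := by linear_combination (norm := module) a1 - a2
    exact (smul_eq_zero.1 this).resolve_left (sub_ne_zero.2 (by exact_mod_cast hne))
  rw [a3, smul_zero, add_zero, hQ, h0] at a1
  have a4 : a + b = e + f := by
    by_contra h4
    refine hx0 ((a * b - e * f) / (a + b - (e + f))) ?_
    have h5 : a + b - (e + f) ≠ 0 := sub_ne_zero.2 h4
    rw [div_eq_inv_mul, mul_smul, eq_inv_smul_iff₀ h5]
    linear_combination (norm := module) a1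
  have hx1 : x0 ≠ 0 := by rintro rfl; exact hx0 0 (by simp)
  have a5 : a * b = e * f := by
    have : (a * b - e * f) • x0 = 0 := by
      rw [a4] at a1
      linear_combination (norm := module) -a1
    exact sub_eq_zero.1 ((smul_eq_zero.1 this).resolve_right hx1)
  rw [hQ, ← a4, ← a5] at a3
  linear_combination (norm := module) a3

/-- Proportionality of linear maps from local proportionality. -/
lemma prop_of_loc {Q : Type*} [AddCommGroup Q] [Module ℂ Q] {a b : E →ₗ[ℂ] Q}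
    (h : ∀ y, b y ≠ 0 → ∃ c : ℂ, a y = c • b y) {y1 y2 : E} (h1 : b y1 ≠ 0)
    (h2 : ¬ ∃ c : ℂ, b y2 = c • b y1) : ∃ c : ℂ, ∀ y, a y = c • b y := by
  have pair : ∀ u v (c : ℂ), b u ≠ 0 → (¬ ∃ c : ℂ, b v = c • b u) → a u = c • b u →
      a v = c • b v := by
    intro u v c hu hv hc
    have hv0 : b v ≠ 0 := fun h0 => hv ⟨0, by simp [h0]⟩
    have huv : b (u + v) ≠ 0 := fun h0 => hv ⟨-1, by
      rw [map_add] at h0
      linear_combination (norm := module) h0⟩
    obtain ⟨d, hd⟩ := h v hv0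
    obtain ⟨e, he⟩ := h _ huv
    simp only [map_add, hc, hd] at he
    have a1 : d = e := by
      by_contra h3
      refine hv ⟨(d - e)⁻¹ * (e - c), ?_⟩
      rw [mul_smul, eq_inv_smul_iff₀ (sub_ne_zero.2 h3)]
      linear_combination (norm := module) he
    have a2 : (c - e) • b u = 0 := by
      rw [a1] at he
      linear_combination (norm := module) he
    rw [hd, a1, sub_eq_zero.1 ((smul_eq_zero.1 a2).resolve_right hu)]
  obtain ⟨c, hc⟩ := h y1 h1
  have h3 := pair y1 y2 c h1 h2 hc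
  have h4 : b y2 ≠ 0 := fun h0 => h2 ⟨0, by simp [h0]⟩
  have h5 : ∀ y, b y ≠ 0 → a y = c • b y := by
    intro y hy
    by_cases h6 : ∃ c : ℂ, b y = c • b y1
    · refine pair y2 y c h4 ?_ h3
      rintro ⟨d, hd⟩
      obtain ⟨e, he⟩ := h6
      have hd0 : d ≠ 0 := by rintro rfl; exact hy (by simpa using hd)
      exact h2 ⟨d⁻¹ * e, by rw [mul_smul, ← he, hd, smul_smul, inv_mul_cancel₀ hd0, one_smul]⟩
    · exact pair y1 y c h1 h6 hc
  refine ⟨c, fun y => ?_⟩
  by_cases hy : b y = 0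
  · have := h5 (y + y1) (by rwa [map_add, hy, zero_add])
    simp only [map_add, hc, smul_add] at this
    exact add_right_cancel this
  · exact h5 y hy

end Pool.Agent.H76.BanPair
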