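import Pool.Agent.H76.LieAlg

/-! Local spectra of commutators and the pointwise form of the preservers. -/

namespace Pool.Agent.H76.LieSpec

open Matrix Polynomial Pool.Agent.H76.LiePoly Pool.Agent.H76.LieGen Pool.Agent.H76.LieAlg

variable {n : Type*} [Fintype n] [DecidableEq n]

lemma br_form (e e' c c' : ℂ) (X Y : Matrix n n ℂ) :
    br (e • X + c • 1) (e' • Y + c' • 1) = (e * e') • br X Y := by
  rw [br_add_smul_one_left, br_add_smul_one_right, br_smul_smul]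

theorem generic_form [Nontrivial n] (φ : Matrix n n ℂ → Matrix n n ℂ)
    (H : Gen (fun p : Matrix n n ℂ × Matrix n n ℂ =>
      f2 (φ p.1) (φ p.2) = f2 p.1 p.2 ∧ g3 (φ p.1) (φ p.2) = g3 p.1 p.2)) :
    ∃ A B : Matrix n n ℂ, A * B = 1 ∧ B * A = 1 ∧
      (Gen (fun S => ∃ e c : ℂ, e * e = 1 ∧ φ S = e • (A * S * B) + c • (1 : Matrix n n ℂ)) ∨
      Gen (fun S => ∃ e c : ℂ, e * e = 1 ∧
        φ S = e • (Complex.I • (A * Sᵀ * B)) + c • (1 : Matrix n n ℂ))) := by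
  obtain ⟨L, hL⟩ := exists_lin φ (H.mono fun _ h => h.1)
  let M := Matrix n n ℂ
  have p1 : PM (fun p : M × M => p.1) := PM_lin (LinearMap.fst ℂ M M)
  have p2 : PM (fun p : M × M => p.2) := PM_lin (LinearMap.snd ℂ M M)
  have q1 : PM (fun p : M × M => L p.1) :=
    PM_lin ((L : M →ₗ[ℂ] M).comp (LinearMap.fst ℂ M M))
  have q2 : PM (fun p : M × M => L p.2) :=
    PM_lin ((L : M →ₗ[ℂ] M).comp (LinearMap.snd ℂ M M))
  have G := (H.and (hL.comp (LinearMap.fst ℂ M M) Prod.fst_surjective)).and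
    (hL.comp (LinearMap.snd ℂ M M) Prod.snd_surjective)
  have ef : ∀ (e e' c c' : ℂ) (X Y : Matrix n n ℂ), f2 (e • X + c • 1) (e' • Y + c' • 1)
      = (e * e) * (e' * e') * f2 X Y := by
    intro e e' c c' X Y
    simp only [f2, br_form, smul_mul_assoc, mul_smul_comm, trace_smul, smul_eq_mul]; ring
  have eg : ∀ (e e' c c' : ℂ) (X Y : Matrix n n ℂ), g3 (e • X + c • 1) (e' • Y + c' • 1)
      = (e * e) * (e' * e') * (e * e') * g3 X Y := by
    intro e e' c c' X Y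
    simp only [g3, br_form, smul_mul_assoc, mul_smul_comm, trace_smul, smul_eq_mul]; ring
  have h2 : ∀ T S, f2 (L T) (L S) = f2 T S := by
    intro T S
    refine sub_eq_zero.1 (Gen.eq_zero (f := fun p : M × M => f2 (L p.1) (L p.2) - f2 p.1 p.2)
      (PF_sub (PF_f2 q1 q2) (PF_f2 p1 p2)) (G.mono ?_) (T, S))
    rintro ⟨X, Y⟩ ⟨⟨⟨h, -⟩, e, c, he, hX⟩, e', c', he', hY⟩
    simp only [LinearMap.fst_apply, LinearMap.snd_apply] at h hX hY ⊢
    rw [hX, hY, ef, he, he'] at h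
    linear_combination h
  have h3 : ∀ T S, g3 (L T) (L S) = g3 T S := by
    have a1 : ∀ p : M × M, (g3 (L p.1) (L p.2) - g3 p.1 p.2) * (g3 (L p.1) (L p.2) + g3 p.1 p.2)
        = 0 := by
      refine Gen.eq_zero (PF_mul (PF_sub (PF_g3 q1 q2) (PF_g3 p1 p2))
        (PF_add (PF_g3 q1 q2) (PF_g3 p1 p2))) (G.mono ?_)
      rintro ⟨X, Y⟩ ⟨⟨⟨-, h⟩, e, c, he, hX⟩, e', c', he', hY⟩
      simp only [LinearMap.fst_apply, LinearMap.snd_apply] at h hX hY ⊢
      rw [hX, hY, eg, he, he'] at h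
      rw [← h]
      linear_combination (-(g3 (L X) (L Y)) ^ 2 * (e' * e')) * he - (g3 (L X) (L Y)) ^ 2 * he'
    rcases PF_mul_eq_zero (PF_sub (PF_g3 q1 q2) (PF_g3 p1 p2))
      (PF_add (PF_g3 q1 q2) (PF_g3 p1 p2)) a1 with h | h
    · exact fun T S => sub_eq_zero.1 (h (T, S))
    · by_cases h0 : ∀ p : M × M, g3 p.1 p.2 = 0
      · intro T S
        rw [h0 (L T, L S), h0 (T, S)]
      · exfalso
        push Not at h0
        have G' := H.and (gen_ne (PF_g3 p1 p2) h0)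
        let a : (Fin 3 → M) →ₗ[ℂ] M := LinearMap.proj 0
        let b : (Fin 3 → M) →ₗ[ℂ] M := LinearMap.proj 1
        let c : (Fin 3 → M) →ₗ[ℂ] M := LinearMap.proj 2
        obtain ⟨v, ⟨⟨⟨⟨⟨k1, k2⟩, k3⟩, e1, c1, he1, h1⟩, e2, c2, he2, h2⟩, e3, c3, he3, h3⟩⟩ :=
          ((((((G'.comp (a.prod b) fun p => ⟨![p.1, p.2, 0], rfl⟩).and
          (G'.comp (b.prod c) fun p => ⟨![0, p.1, p.2], rfl⟩)).and
          (G'.comp (a.prod c) fun p => ⟨![p.1, 0, p.2], rfl⟩)).and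
          (hL.comp a fun p => ⟨![p, 0, 0], rfl⟩)).and
          (hL.comp b fun p => ⟨![0, p, 0], rfl⟩)).and
          (hL.comp c fun p => ⟨![0, 0, p], rfl⟩)).exists
        simp only [LinearMap.prod_apply] at k1 k2 k3
        have key : ∀ (X Y : M) (e e' c c' : ℂ), e * e = 1 → e' * e' = 1 →
            φ X = e • L X + c • 1 → φ Y = e' • L Y + c' • 1 → g3 (φ X) (φ Y) = g3 X Y →
            g3 X Y ≠ 0 → e * e' = -1 := by
          intro X Y e e' c c' he he' hX hY hg hne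
          rw [hX, hY, eg, he, he'] at hg
          apply mul_right_cancel₀ hne
          linear_combination -hg + (e * e') * h (X, Y)
        have r1 := key _ _ _ _ _ _ he1 he2 h1 h2 k1.1.2 k1.2
        have r2 := key _ _ _ _ _ _ he2 he3 h2 h3 k2.1.2 k2.2
        have r3 := key _ _ _ _ _ _ he1 he3 h1 h3 k3.1.2 k3.2
        have : (2 : ℂ) = 0 := by
          linear_combination (e2 * e3 * (e1 * e3)) * r1 - (e1 * e3) * r2 + r3
            - (e2 * e2 * (e3 * e3)) * he1 - (e3 * e3) * he2 - he3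
        norm_num at this
  obtain ⟨A, B, hAB, hBA, c, h | h⟩ := structure_thm L h2 h3
  · refine ⟨A, B, hAB, hBA, Or.inl (hL.mono ?_)⟩
    rintro S ⟨e, d, he, hS⟩
    obtain ⟨s, hs⟩ := h.2 S
    refine ⟨e * c, d + e * s, by linear_combination (c * c) * he + h.1, ?_⟩
    rw [hS, hs]
    module
  · refine ⟨A, B, hAB, hBA, Or.inr (hL.mono ?_)⟩
    rintro S ⟨e, d, he, hS⟩
    obtain ⟨s, hs⟩ := h.2 S
    have hI : Complex.I * Complex.I = -1 := Complex.I_mul_I
    refine ⟨-(e * c * Complex.I), d + e * s, by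
      linear_combination (c * c * (Complex.I * Complex.I)) * he
        + (Complex.I * Complex.I) * h.1 - hI, ?_⟩
    rw [hS, hs, smul_smul (-(e * c * Complex.I)),
      show -(e * c * Complex.I) * Complex.I = e * c by linear_combination -(e * c) * hI]
    module

/-- `c` is a root of every polynomial that annihilates `x`. -/
def LS (Z : Matrix n n ℂ) (x : n → ℂ) (c : ℂ) : Prop :=
  ∀ p : ℂ[X], aeval Z p *ᵥ x = 0 → p.eval c = 0

lemma LS.mem_spectrum {Z : Matrix n n ℂ} {x : n → ℂ} {c : ℂ} (h : LS Z x c) :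
    c ∈ spectrum ℂ Z := by
  rw [Matrix.mem_spectrum_iff_isRoot_charpoly]
  exact h _ (by rw [Matrix.aeval_self_charpoly, zero_mulVec])

lemma aeval_mulVec_eig {Z : Matrix n n ℂ} {x : n → ℂ} {c : ℂ} (h : Z *ᵥ x = c • x) (p : ℂ[X]) :
    aeval Z p *ᵥ x = p.eval c • x := by
  induction p using Polynomial.induction_on with
  | C a => simp [Algebra.algebraMap_eq_smul_one, smul_mulVec]
  | add p q hp hq => simp [add_mulVec, hp, hq, add_smul]
  | monomial k a ih =>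
    rw [pow_succ, ← mul_assoc, map_mul, aeval_X, ← mulVec_mulVec, h, mulVec_smul, ih, smul_smul,
      eval_mul (q := X), eval_X, mul_comm]

lemma vecMul_aeval_eig {Z : Matrix n n ℂ} {f : n → ℂ} {c : ℂ} (h : f ᵥ* Z = c • f) (p : ℂ[X]) :
    f ᵥ* aeval Z p = p.eval c • f := by
  induction p using Polynomial.induction_on with
  | C a => simp [Algebra.algebraMap_eq_smul_one, vecMul_smul]
  | add p q hp hq => simp [vecMul_add, hp, hq, add_smul]
  | monomial k a ih =>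
    rw [pow_succ, ← mul_assoc, map_mul, aeval_X, ← vecMul_vecMul, ih, smul_vecMul, h, smul_smul,
      eval_mul (q := X), eval_X]

lemma LS_of_left {Z : Matrix n n ℂ} {f x : n → ℂ} {c : ℂ} (h : f ᵥ* Z = c • f)
    (hx : f ⬝ᵥ x ≠ 0) : LS Z x c := by
  intro p hp
  have : f ⬝ᵥ (aeval Z p *ᵥ x) = 0 := by rw [hp, dotProduct_zero]
  rw [dotProduct_mulVec, vecMul_aeval_eig h, smul_dotProduct, smul_eq_mul] at this
  exact (mul_eq_zero.1 this).resolve_right hx

lemma LS_eig {Z : Matrix n n ℂ} {x : n → ℂ} {c : ℂ} (h : Z *ᵥ x = c • x) (hx : x ≠ 0) (d : ℂ) :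
    LS Z x d ↔ d = c := by
  constructor
  · intro hd
    have := hd (X - C c) (by rw [aeval_mulVec_eig h]; simp)
    simpa [sub_eq_zero] using this
  · rintro rfl p hp
    rw [aeval_mulVec_eig h] at hp
    exact (smul_eq_zero.1 hp).resolve_right hx

lemma aeval_conj {A B : Matrix n n ℂ} (hAB : A * B = 1) (hBA : B * A = 1) (Z : Matrix n n ℂ)
    (p : ℂ[X]) : aeval (A * Z * B) p = A * aeval Z p * B := by
  induction p using Polynomial.induction_on with
  | C a => simp [Algebra.algebraMap_eq_smul_one, hAB]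
  | add p q hp hq => simp [hp, hq, mul_add, add_mul]
  | monomial k a ih =>
    rw [pow_succ, ← mul_assoc, map_mul, map_mul (aeval Z), aeval_X, aeval_X, ih]
    calc A * aeval Z (C a * X ^ k) * B * (A * Z * B)
        = A * aeval Z (C a * X ^ k) * (B * A) * Z * B := by simp only [Matrix.mul_assoc]
      _ = _ := by rw [hBA]; simp only [Matrix.mul_assoc, Matrix.mul_one]

lemma LS_conj {A B : Matrix n n ℂ} (hAB : A * B = 1) (hBA : B * A = 1) (Z : Matrix n n ℂ)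
    (x : n → ℂ) (c : ℂ) : LS (A * Z * B) x c ↔ LS Z (B *ᵥ x) c := by
  refine forall_congr' fun p => ?_
  rw [aeval_conj hAB hBA, ← mulVec_mulVec, ← mulVec_mulVec]
  refine imp_congr_left ⟨fun h => ?_, fun h => by rw [h, mulVec_zero]⟩
  have := congrArg (B *ᵥ ·) h
  simpa only [mulVec_mulVec (M := B) (N := A), hBA, one_mulVec, mulVec_zero] using this

lemma LS.neg {Z : Matrix n n ℂ} {x : n → ℂ} {c : ℂ} (h : LS Z x c) : LS (-Z) x (-c) := by
  intro p hp
  have := h (p.comp (-X)) (by rw [aeval_comp]; simpa using hp)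
  simpa [eval_comp] using this

lemma LS_neg (Z : Matrix n n ℂ) (x : n → ℂ) (c : ℂ) : LS (-Z) x c ↔ LS Z x (-c) :=
  ⟨fun h => by simpa using h.neg, fun h => by simpa using h.neg⟩

lemma LS_smul (Z : Matrix n n ℂ) (x : n → ℂ) {k : ℂ} (hk : k ≠ 0) (c : ℂ) :
    LS Z (k • x) c ↔ LS Z x c := by
  refine forall_congr' fun p => ?_
  rw [mulVec_smul, smul_eq_zero_iff_right hk]

lemma LS_pow {Z : Matrix n n ℂ} {x : n → ℂ} {q : ℂ[X]} (h : ∀ c, LS Z x c → q.eval c = 0) :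
    (aeval Z q) ^ Fintype.card n *ᵥ x = 0 := by
  let I : Ideal ℂ[X] :=
    { carrier := {p | aeval Z p *ᵥ x = 0}
      add_mem' := fun {p q} hp hq => by
        simp only [Set.mem_ofPred_eq] at hp hq ⊢
        rw [map_add, add_mulVec, hp, hq, add_zero]
      zero_mem' := by simp
      smul_mem' := fun c p hp => by
        simp only [Set.mem_ofPred_eq] at hp ⊢
        rw [smul_eq_mul, map_mul, ← mulVec_mulVec, hp, mulVec_zero] }
  set g := Submodule.IsPrincipal.generator I with hg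
  have hI : ∀ p, aeval Z p *ᵥ x = 0 ↔ g ∣ p := fun p =>
    Submodule.IsPrincipal.mem_iff_generator_dvd I
  have h1 : g ∣ Z.charpoly := (hI _).1 (by rw [Matrix.aeval_self_charpoly, zero_mulVec])
  have h2 : g.natDegree ≤ Fintype.card n := by
    rw [← Matrix.charpoly_natDegree_eq_dim Z]
    exact natDegree_le_of_dvd h1 Z.charpoly_monic.ne_zero
  have hg0 : g ≠ 0 := ne_zero_of_dvd_ne_zero Z.charpoly_monic.ne_zero h1
  rw [← map_pow, hI]
  refine Dvd.dvd.trans ?_ (pow_dvd_pow q h2)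
  have hs := IsAlgClosed.splits g
  rw [hs.natDegree_eq_card_roots]
  conv_lhs => rw [hs.eq_prod_roots]
  rw [C_mul_dvd (leadingCoeff_ne_zero.2 hg0), ← Multiset.prod_replicate,
    ← Multiset.map_const']
  refine Multiset.prod_dvd_prod_of_dvd _ _ fun r hr => ?_
  rw [dvd_iff_isRoot]
  refine h r fun p hp => ?_
  exact eval_eq_zero_of_dvd_of_eval_eq_zero ((hI p).1 hp) ((mem_roots hg0).1 hr)

section PV

variable {V : Type*} [AddCommGroup V] [Module ℂ V]

omit [DecidableEq n] in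
lemma PF_dot {x y : V → n → ℂ} (hx : ∀ i, (fun v => x v i) ∈ PF V)
    (hy : ∀ i, (fun v => y v i) ∈ PF V) : (fun v => x v ⬝ᵥ y v) ∈ PF V :=
  PF_sum _ fun i _ => PF_mul (hx i) (hy i)

omit [DecidableEq n] in
lemma PF_mulVec {Z : V → Matrix n n ℂ} (hZ : PM Z) {y : V → n → ℂ}
    (hy : ∀ i, (fun v => y v i) ∈ PF V) (i : n) : (fun v => (Z v *ᵥ y v) i) ∈ PF V :=
  PF_dot (hZ i) hy

omit [Fintype n] [DecidableEq n] in
lemma PV_lin (l : V →ₗ[ℂ] (n → ℂ)) (i : n) : (fun v => l v i) ∈ PF V :=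
  PF_lin ((LinearMap.proj i).comp l)

end PV

omit [DecidableEq n] in
lemma br_rank_one (T : Matrix n n ℂ) (x f : n → ℂ) :
    br T (vecMulVec x f) = vecMulVec (T *ᵥ x) f - vecMulVec x (f ᵥ* T) := by
  rw [br, mul_vecMulVec, vecMulVec_mul]

omit [DecidableEq n] in
lemma vmv_mulVec (x f y : n → ℂ) : vecMulVec x f *ᵥ y = (f ⬝ᵥ y) • x := by
  ext i
  simp [mulVec, dotProduct, vecMulVec_apply, Finset.mul_sum, mul_comm,
    mul_left_comm]

omit [DecidableEq n] in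
lemma vecMul_vmv (x f y : n → ℂ) : y ᵥ* vecMulVec x f = (y ⬝ᵥ x) • f := by
  ext i
  simp [vecMul, dotProduct, vecMulVec_apply, Finset.sum_mul, mul_assoc]

lemma eq_of_mulVec {A B : Matrix n n ℂ} (h : ∀ v, A *ᵥ v = B *ᵥ v) : A = B :=
  Matrix.toLin'.injective (LinearMap.ext h)

lemma rank_one_cube (T : Matrix n n ℂ) {x f : n → ℂ} (h : f ⬝ᵥ x = 0) :
    br T (vecMulVec x f) * br T (vecMulVec x f) * br T (vecMulVec x f)
      = (f ⬝ᵥ T *ᵥ x) ^ 2 • br T (vecMulVec x f) := by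
  refine eq_of_mulVec fun v => ?_
  simp only [← mulVec_mulVec, br_rank_one, sub_mulVec, vmv_mulVec, smul_mulVec,
    ← dotProduct_mulVec, mulVec_sub, mulVec_smul, h]
  module

lemma scalar_of_all {U : Matrix n n ℂ}
    (h : ∀ x g k : n → ℂ, ((g ⬝ᵥ x) • k - (k ⬝ᵥ x) • g) ⬝ᵥ U *ᵥ x = 0) [Nonempty n] :
    ∃ c : ℂ, U = c • 1 := by
  have h1 : ∀ i j, i ≠ j → U j i = 0 := by
    intro i j hij
    simpa [hij.symm, Pi.single_apply] using h (Pi.single i 1) (Pi.single i 1) (Pi.single j 1)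
  have h2 : ∀ i j, U i i = U j j := by
    intro i j
    by_cases hij : i = j
    · rw [hij]
    have := h (Pi.single i 1 + Pi.single j 1) (Pi.single i 1) (Pi.single j 1)
    simp [hij, Ne.symm hij, mulVec_add, h1 i j hij, h1 j i (Ne.symm hij)] at this
    linear_combination -this
  obtain ⟨o⟩ := ‹Nonempty n›
  refine ⟨U o o, ?_⟩
  ext i j
  by_cases hij : i = j
  · subst hij; simp [h2 i o]
  · simp [hij, h1 j i (Ne.symm hij)]

lemma pointwise [Nontrivial n] {T T' : Matrix n n ℂ} {x0 : n → ℂ} (hx0 : x0 ≠ 0)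
    (H : Gen (fun S => ∀ c, LS (br T S) x0 c → c ∈ spectrum ℂ (br T' S) ∨
      -c ∈ spectrum ℂ (br T' S))) :
    (∃ c : ℂ, T = c • 1) ∨ ∃ e c : ℂ, e * e = 1 ∧ T' = e • T + c • (1 : Matrix n n ℂ) := by
  have hid : PM (fun S : Matrix n n ℂ => S) := PM_lin LinearMap.id
  have hZ := PM_br (PM_const T) hid
  have hZ' := PM_br (PM_const T') hid
  have a1 : ∀ S, (aeval (br T S * br T S) (br T' S * br T' S).charpoly) ^ Fintype.card n *ᵥ x0
      = 0 := by
    intro S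
    ext i
    refine Gen.eq_zero (PF_mulVec (((hZ'.mul hZ').aeval_charpoly (hZ.mul hZ)).pow _)
      (fun i => PF_const (x0 i)) i) (H.mono fun S hS => ?_) S
    have := LS_pow (Z := br T S) (x := x0) (q := (br T' S * br T' S).charpoly.comp (X * X))
      fun c hc => by
        rw [eval_comp, eval_mul, eval_X, ← IsRoot.def, ← Matrix.mem_spectrum_iff_isRoot_charpoly]
        rcases hS c hc with h | h
        · obtain ⟨v, hv0, hv⟩ := exists_eigvec h
          exact mem_spectrum_of_eigvec hv0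
            (by rw [← mulVec_mulVec, hv, mulVec_smul, hv, smul_smul])
        · obtain ⟨v, hv0, hv⟩ := exists_eigvec h
          exact mem_spectrum_of_eigvec hv0
            (by rw [← mulVec_mulVec, hv, mulVec_smul, hv, smul_smul, neg_mul_neg])
    rw [aeval_comp, map_mul, aeval_X] at this
    exact congrFun this i
  have a2 : ∀ x f : n → ℂ, f ⬝ᵥ x = 0 → (f ⬝ᵥ x0) * ((f ⬝ᵥ T *ᵥ x) * (f ⬝ᵥ T *ᵥ x))
      * ((f ⬝ᵥ (T' - T) *ᵥ x) * (f ⬝ᵥ (T' + T) *ᵥ x)) = 0 := by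
    intro x f hf
    by_cases h0 : f ⬝ᵥ x0 = 0
    · simp [h0]
    have b1 : LS (br T (vecMulVec x f)) x0 (f ⬝ᵥ T *ᵥ x) := LS_of_left (f := f) (by
      rw [br_rank_one, vecMul_sub, vecMul_vmv, vecMul_vmv, hf, zero_smul, sub_zero]) h0
    have b2 := b1 (((br T' (vecMulVec x f) * br T' (vecMulVec x f)).charpoly.comp (X * X))
      ^ Fintype.card n) (by rw [map_pow, aeval_comp, map_mul, aeval_X]; exact a1 _)
    rw [eval_pow, pow_eq_zero_iff Fintype.card_ne_zero, eval_comp, eval_mul, eval_X,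
      ← IsRoot.def, ← Matrix.mem_spectrum_iff_isRoot_charpoly] at b2
    obtain ⟨v, hv0, hv⟩ := exists_eigvec b2
    have b3 := congrArg (fun W => (br T' (vecMulVec x f) * W) *ᵥ v) (rank_one_cube T' hf)
    simp only [mul_smul_comm, smul_mulVec, hv] at b3
    rw [show ∀ W : Matrix n n ℂ, W * (W * W * W) = (W * W) * (W * W) from
      fun W => by noncomm_ring, ← mulVec_mulVec, hv, mulVec_smul, hv, smul_smul, smul_smul,
      ← sub_eq_zero, ← sub_smul] at b3
    have b4 := (smul_eq_zero.1 b3).resolve_right hv0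
    simp only [sub_mulVec, add_mulVec, dotProduct_sub, dotProduct_add]
    linear_combination (-(f ⬝ᵥ x0)) * b4
  let V := (n → ℂ) × (n → ℂ) × (n → ℂ)
  let F : V → n → ℂ := fun v => (v.2.1 ⬝ᵥ v.1) • v.2.2 - (v.2.2 ⬝ᵥ v.1) • v.2.1
  have l1 := PV_lin (LinearMap.fst ℂ (n → ℂ) ((n → ℂ) × (n → ℂ)))
  have l2 := PV_lin ((LinearMap.fst ℂ (n → ℂ) (n → ℂ)).comp
    (LinearMap.snd ℂ (n → ℂ) ((n → ℂ) × (n → ℂ))))
  have l3 := PV_lin ((LinearMap.snd ℂ (n → ℂ) (n → ℂ)).comp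
    (LinearMap.snd ℂ (n → ℂ) ((n → ℂ) × (n → ℂ))))
  have hF : ∀ i, (fun v => F v i) ∈ PF V := fun i =>
    PF_sub (PF_mul (PF_dot l2 l1) (l3 i)) (PF_mul (PF_dot l3 l1) (l2 i))
  have hU : ∀ U : Matrix n n ℂ, (fun v : V => F v ⬝ᵥ U *ᵥ v.1) ∈ PF V := fun U =>
    PF_dot hF (PF_mulVec (PM_const U) l1)
  have h0 : (fun v : V => F v ⬝ᵥ x0) ∈ PF V := PF_dot hF fun i => PF_const _
  have hsc : ∀ U : Matrix n n ℂ, (∀ v : V, F v ⬝ᵥ U *ᵥ v.1 = 0) → ∃ c : ℂ, U = c • 1 :=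
    fun U h => scalar_of_all fun x g k => h (x, g, k)
  rcases PF_mul_eq_zero (PF_mul h0 (PF_mul (hU T) (hU T))) (PF_mul (hU (T' - T)) (hU (T' + T)))
    (fun v => a2 v.1 (F v) (by simp [F, mul_comm])) with h | h
  · rcases PF_mul_eq_zero h0 (PF_mul (hU T) (hU T)) h with h | h
    · exfalso
      obtain ⟨i, hi⟩ := Function.ne_iff.1 hx0
      obtain ⟨j, hj⟩ := exists_ne i
      have := h (Pi.single j 1, Pi.single j 1, Pi.single i 1)
      simp [F, hj.symm] at this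
      exact hi this
    · exact Or.inl (hsc T fun v => mul_self_eq_zero.1 (h v))
  · right
    rcases PF_mul_eq_zero (hU (T' - T)) (hU (T' + T)) h with h | h
    · obtain ⟨c, hc⟩ := hsc _ h
      exact ⟨1, c, by simp, by rw [← hc]; simp⟩
    · obtain ⟨c, hc⟩ := hsc _ h
      exact ⟨-1, c, by simp, by rw [← hc]; simp⟩

omit [Fintype n] in
lemma pointwise2 {T T' : Matrix n n ℂ}
    (h1 : (∃ c : ℂ, T = c • 1) ∨ ∃ e c : ℂ, e * e = 1 ∧ T' = e • T + c • (1 : Matrix n n ℂ))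
    (h2 : (∃ c : ℂ, T' = c • 1) ∨ ∃ e c : ℂ, e * e = 1 ∧ T = e • T' + c • (1 : Matrix n n ℂ)) :
    ∃ e c : ℂ, e * e = 1 ∧ T' = e • T + c • (1 : Matrix n n ℂ) := by
  rcases h1 with ⟨a, ha⟩ | h1
  · rcases h2 with ⟨b, hb⟩ | ⟨e, c, he, h⟩
    · exact ⟨1, b - a, by simp, by rw [ha, hb]; module⟩
    · refine ⟨e, -(e * c), he, ?_⟩
      rw [h, smul_add, smul_smul, he]; module
  · exact h1

omit [DecidableEq n] in
lemma exists_dot (p : Submodule ℂ (n → ℂ)) {x : n → ℂ} (hx : x ∉ p) :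
    ∃ f : n → ℂ, f ⬝ᵥ x = 1 ∧ ∀ y ∈ p, f ⬝ᵥ y = 0 := by
  classical
  obtain ⟨l, hl, hp⟩ := Submodule.exists_dual_map_eq_bot_of_notMem hx inferInstance
  have h1 : ∀ y, (fun i => l (Pi.single i 1)) ⬝ᵥ y = l y := by
    intro y
    rw [LinearMap.pi_apply_eq_sum_univ l y, dotProduct]
    refine Finset.sum_congr rfl fun i _ => ?_
    rw [smul_eq_mul, mul_comm]
    congr 2
    ext j
    simp [Pi.single_apply, eq_comm]
  refine ⟨(l x)⁻¹ • fun i => l (Pi.single i 1), ?_, fun y hy => ?_⟩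
  · rw [smul_dotProduct, h1, smul_eq_mul, inv_mul_cancel₀ hl]
  · have : l y ∈ p.map l := Submodule.mem_map_of_mem hy
    rw [hp, Submodule.mem_bot] at this
    rw [smul_dotProduct, h1, this, smul_zero]

lemma br_conj {A B : Matrix n n ℂ} (hBA : B * A = 1) (T S : Matrix n n ℂ) :
    br (A * T * B) (A * S * B) = A * br T S * B := by
  simp only [br]
  calc A * T * B * (A * S * B) - A * S * B * (A * T * B)
      = A * T * (B * A) * S * B - A * S * (B * A) * T * B := by simp only [Matrix.mul_assoc]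
    _ = _ := by rw [hBA]; noncomm_ring

lemma br_conjT {A B : Matrix n n ℂ} (hBA : B * A = 1) (T S : Matrix n n ℂ) :
    br (Complex.I • (A * Tᵀ * B)) (Complex.I • (A * Sᵀ * B)) = A * (br T S)ᵀ * B := by
  rw [br_smul_smul, br_conj hBA, Complex.I_mul_I]
  simp only [br, transpose_sub, transpose_mul, neg_smul, one_smul]
  noncomm_ring

lemma spec_conj {A B : Matrix n n ℂ} (hBA : B * A = 1) (Z : Matrix n n ℂ) :
    spectrum ℂ (A * Z * B) = spectrum ℂ Z := by
  ext c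
  rw [Matrix.mem_spectrum_iff_isRoot_charpoly, Matrix.mem_spectrum_iff_isRoot_charpoly,
    Matrix.charpoly_mul_comm, ← Matrix.mul_assoc, hBA, Matrix.one_mul]

lemma spec_transpose (Z : Matrix n n ℂ) : spectrum ℂ Zᵀ = spectrum ℂ Z := by
  ext c
  rw [Matrix.mem_spectrum_iff_isRoot_charpoly, Matrix.mem_spectrum_iff_isRoot_charpoly,
    Matrix.charpoly_transpose]

lemma mem_spec_neg (Z : Matrix n n ℂ) (c : ℂ) : c ∈ spectrum ℂ (-Z) ↔ -c ∈ spectrum ℂ Z := by
  rw [← spectrum.neg_eq, Set.mem_neg]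

lemma gen_traces (φ : Matrix n n ℂ → Matrix n n ℂ)
    (H : Gen (fun p : Matrix n n ℂ × Matrix n n ℂ =>
      spectrum ℂ (br p.1 p.2) ⊆ spectrum ℂ (br (φ p.1) (φ p.2)))) [Nonempty n] :
    Gen (fun p : Matrix n n ℂ × Matrix n n ℂ =>
      f2 (φ p.1) (φ p.2) = f2 p.1 p.2 ∧ g3 (φ p.1) (φ p.2) = g3 p.1 p.2) := by
  obtain ⟨Z, hZ0, hZ⟩ := exists_disc_traceless (n := n)
  obtain ⟨T, S, hTS⟩ := comm_of_disc hZ0 hZ
  have p1 : PM (fun p : Matrix n n ℂ × Matrix n n ℂ => p.1) :=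
    PM_lin (LinearMap.fst ℂ (Matrix n n ℂ) (Matrix n n ℂ))
  have p2 : PM (fun p : Matrix n n ℂ × Matrix n n ℂ => p.2) :=
    PM_lin (LinearMap.snd ℂ (Matrix n n ℂ) (Matrix n n ℂ))
  refine (H.and (gen_ne (PM_br p1 p2).disc ⟨(T, S), by rwa [hTS]⟩)).mono fun p hp => ?_
  have h2 := trace_pow_eq hp.2 hp.1 2
  have h3 := trace_pow_eq hp.2 hp.1 3
  rw [pow_two, pow_two] at h2
  rw [pow_three', pow_three'] at h3
  exact ⟨h2, h3⟩

end Pool.Agent.H76.LieSpec
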