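import Pool.Agent.H76.BanMain
import Pool.Agent.H76.LieSpec

/-! Sign analysis for commutator-spectrum preservers on Banach spaces. -/

namespace Pool.Agent.H76.BanSign

open Pool.Agent.H76.LiePoly Pool.Agent.H76.BanPair Pool.Agent.H76.BanBasic
  Pool.Agent.H76.BanMain Matrix Polynomial

variable {X : Type*} [NormedAddCommGroup X] [NormedSpace ℂ X]

section Rect

variable {m : ℕ} (u : Fin m → X) (w : Fin m → StrongDual ℂ X)

/-- Finite rank operator attached to a matrix. -/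
noncomputable def Phi : Matrix (Fin m) (Fin m) ℂ →ₗ[ℂ] (X →L[ℂ] X) where
  toFun M := ∑ k, ∑ l, M k l • ro (u k) (w l)
  map_add' M N := by simp [add_smul, Finset.sum_add_distrib]
  map_smul' c M := by simp [Finset.smul_sum, smul_smul]

/-- Gram matrix. -/
noncomputable def gram : Matrix (Fin m) (Fin m) ℂ := Matrix.of fun k l => w k (u l)

lemma Phi_apply (M : Matrix (Fin m) (Fin m) ℂ) (y : X) :
    Phi u w M y = ∑ k, (M *ᵥ fun l => w l y) k • u k := by
  simp [Phi, mulVec, dotProduct, Finset.sum_smul, smul_smul]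

lemma w_sum (v : Fin m → ℂ) : (fun l => w l (∑ k, v k • u k)) = gram u w *ᵥ v := by
  ext l
  simp [gram, mulVec, dotProduct, mul_comm]

lemma Phi_mul (M N : Matrix (Fin m) (Fin m) ℂ) :
    Phi u w M * Phi u w N = Phi u w (M * gram u w * N) := by
  ext y
  simp only [mul_apply_eq_comp, Phi_apply, w_sum, mulVec_mulVec, Matrix.mul_assoc]

lemma rect1 {c : ℂ} (hc : c ≠ 0) (h : c ∈ spectrum ℂ (gram u w)) :
    ∃ v : X, v ≠ 0 ∧ Phi u w 1 v = c • v := by
  obtain ⟨v, hv0, hv⟩ := exists_eigvec h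
  refine ⟨∑ k, v k • u k, fun h0 => ?_, ?_⟩
  · have := w_sum u w v
    rw [h0, hv] at this
    exact hv0 ((smul_eq_zero.1 (this.symm.trans (by ext; simp))).resolve_left hc)
  · rw [Phi_apply, w_sum, hv, one_mulVec, Finset.smul_sum]
    simp [smul_smul]

lemma rect2 {c : ℂ} (hc : c ≠ 0) (h : c ∈ spectrum ℂ (Phi u w 1)) : c ∈ spectrum ℂ (gram u w) := by
  rw [spectrum.mem_iff] at h ⊢
  rintro ⟨H, hH⟩
  apply h
  rw [Algebra.algebraMap_eq_smul_one] at hH ⊢
  have h1 : (c • 1 - gram u w) * (↑H⁻¹ : Matrix (Fin m) (Fin m) ℂ) = 1 := by rw [← hH]; simp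
  have h2 : (↑H⁻¹ : Matrix (Fin m) (Fin m) ℂ) * (c • 1 - gram u w) = 1 := by rw [← hH]; simp
  generalize (↑H⁻¹ : Matrix (Fin m) (Fin m) ℂ) = K at h1 h2
  have h3 := congrArg (Phi u w) h1
  have h4 := congrArg (Phi u w) h2
  simp only [sub_mul, mul_sub, smul_mul_assoc, mul_smul_comm, Matrix.one_mul, Matrix.mul_one,
    map_sub, map_smul] at h3 h4
  refine ⟨⟨c • 1 - Phi u w 1, c⁻¹ • (1 + Phi u w K), ?_, ?_⟩, rfl⟩
  · rw [mul_smul_comm, inv_smul_eq_iff₀ hc]
    simp only [sub_mul, mul_add, smul_mul_assoc, one_mul, mul_one, Phi_mul]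
    linear_combination (norm := module) h3
  · rw [smul_mul_assoc, inv_smul_eq_iff₀ hc]
    simp only [mul_sub, add_mul, mul_smul_comm, one_mul, mul_one, Phi_mul]
    linear_combination (norm := module) h4

end Rect

/-- The spectrum of the commutator is symmetric. -/
def SymP (T S : X →L[ℂ] X) : Prop := ∀ c ∈ spectrum ℂ (br T S), -c ∈ spectrum ℂ (br T S)

/-- Quadratic operators. -/
def Quad (T : X →L[ℂ] X) : Prop := ∃ r s : ℂ, (T - r • 1) ^ 2 = s • (1 : X →L[ℂ] X)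

lemma SymP.swap {T S : X →L[ℂ] X} (h : SymP T S) : SymP S T := by
  intro c hc
  rw [br_swap, mem_spec_neg] at hc ⊢
  exact h _ hc

lemma br_two (T : X →L[ℂ] X) (x1 x2 : X) (f1 f2 : StrongDual ℂ X) :
    br T (ro x1 f1 + ro x2 f2)
      = Phi ![T x1, T x2, x1, x2] ![f1, f2, -adj T f1, -adj T f2] 1 := by
  ext y
  simp [Phi_apply, br_apply, Fin.sum_univ_four]
  module

lemma gen_asym {T : X →L[ℂ] X} (hT : ¬ Quad T) :
    Gen (fun p : X × X × StrongDual ℂ X × StrongDual ℂ X =>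
      ¬ SymP T (ro p.1 p.2.2.1 + ro p.2.1 p.2.2.2)) := by
  obtain ⟨x, hx⟩ := exists_cyc (T := (T : X →ₗ[ℂ] X)) (by
    rintro ⟨a, b, h⟩
    refine hT ⟨a / 2, b + (a / 2) ^ 2, ?_⟩
    ext y
    have := h y
    simp only [ContinuousLinearMap.coe_coe] at this
    simp only [pow_two, mul_apply_eq_comp, _root_.sub_apply, _root_.smul_apply, one_apply_eq_self,
      map_sub,
      map_smul, this]
    module)
  simp only [ContinuousLinearMap.coe_coe] at hx
  have hx1 : ¬ ∃ c : ℂ, T x = c • x := by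
    rintro ⟨k, hk⟩
    exact hx ⟨k, 0, by rw [zero_smul, add_zero, ← map_smul, ← hk]⟩
  have hx0 : x ≠ 0 := by rintro rfl; exact hx1 ⟨0, by simp⟩
  obtain ⟨f, hf0, hf1⟩ := ex_pair hx1
  obtain ⟨g, hg2, hg⟩ := sep_fin {T x, x} (by simp) (x := T (T x)) fun h => by
    obtain ⟨a, b, h⟩ := Submodule.mem_span_pair.1 h
    exact hx ⟨a, b, h.symm⟩
  have hg0 := hg x (by simp)
  have hg1 := hg (T x) (by simp)
  let P := X × X × StrongDual ℂ X × StrongDual ℂ X
  let a1 : P →ₗ[ℂ] X := LinearMap.fst ℂ _ _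
  let a2 : P →ₗ[ℂ] X := (LinearMap.fst ℂ _ _).comp (LinearMap.snd ℂ _ _)
  let b1 : P →ₗ[ℂ] StrongDual ℂ X :=
    (LinearMap.fst ℂ _ _).comp ((LinearMap.snd ℂ _ _).comp (LinearMap.snd ℂ _ _))
  let b2 : P →ₗ[ℂ] StrongDual ℂ X :=
    (LinearMap.snd ℂ _ _).comp ((LinearMap.snd ℂ _ _).comp (LinearMap.snd ℂ _ _))
  let a : Fin 4 → P →ₗ[ℂ] X := ![(T : X →ₗ[ℂ] X).comp a1, (T : X →ₗ[ℂ] X).comp a2, a1, a2]
  let b : Fin 4 → P →ₗ[ℂ] StrongDual ℂ X :=
    ![b1, b2, -(adj T : _ →ₗ[ℂ] _).comp b1, -(adj T : _ →ₗ[ℂ] _).comp b2]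
  let G : P → Matrix (Fin 4) (Fin 4) ℂ := fun p => gram (fun k => a k p) (fun k => b k p)
  have hZ : ∀ p : P, br T (ro p.1 p.2.2.1 + ro p.2.1 p.2.2.2)
      = Phi (fun k => a k p) (fun k => b k p) 1 := by
    intro p
    rw [br_two]
    congr 1
  have hG : PM G := fun k l => PF_pair (p := pr X) (a l) (b k)
  have hG' : PM (fun p => - G p) := by simpa using (PM_const 0).sub hG
  let p0 : P := (T x, -x, g, f)
  have hZ0 : ∀ v, br T (ro p0.1 p0.2.2.1 + ro p0.2.1 p0.2.2.2) v = f (T v) • x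
      - (f v + g (T v)) • T x + g v • T (T x) := by
    intro v
    simp only [p0, br_apply, _root_.add_apply, ro_apply, map_add, map_smul, map_neg]
    module
  have c1 : (1 : ℂ) ∈ spectrum ℂ (G p0) := by
    refine rect2 _ _ one_ne_zero ?_
    rw [← hZ]
    exact mem_spec_of_eig hx0 (by simp [hZ0, hf0, hf1, hg0, hg1])
  have c2 : (-1 : ℂ) ∉ spectrum ℂ (G p0) := by
    intro h
    obtain ⟨v, hv0, hv⟩ := rect1 _ _ (by simp) h
    rw [← hZ, hZ0] at hv
    have d1 : g v = 0 := by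
      have := congrArg g hv
      simp only [map_add, map_sub, map_smul, hg0, hg1, hg2, smul_eq_mul] at this
      linear_combination this / 2
    rw [d1, zero_smul, add_zero] at hv
    have d2 := congrArg f hv
    have d3 := congrArg (fun y => g (T y)) hv
    have d4 := congrArg (fun y => f (T y)) hv
    simp only [map_sub, map_smul, hf0, hf1, hg1, hg2, smul_eq_mul] at d2 d3 d4
    have e1 : f v + g (T v) = 0 := by linear_combination -(d2 + d3)
    rw [e1] at d4 hv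
    have e2 : f (T v) = 0 := by linear_combination d4 / 2
    rw [e2] at hv
    simp at hv
    exact hv0 hv
  obtain ⟨v, hv0, hv⟩ := exists_eigvec c1
  have hne : (aeval (-G p0) (G p0).charpoly * (-G p0)) ^ Fintype.card (Fin 4) *ᵥ v ≠ 0 := by
    conv_lhs => rw [show aeval (-G p0) (G p0).charpoly * (-G p0)
      = aeval (-G p0) ((G p0).charpoly * Polynomial.X) by simp]
    rw [← map_pow, LieSpec.aeval_mulVec_eig (c := -1) (by rw [neg_mulVec, hv]; simp), eval_pow]
    refine smul_ne_zero (pow_ne_zero _ ?_) hv0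
    rw [Matrix.mem_spectrum_iff_isRoot_charpoly] at c2
    simpa using c2
  obtain ⟨i, hi⟩ := Function.ne_iff.1 hne
  refine (gen_ne (LieSpec.PF_mulVec (((hG.aeval_charpoly hG').mul hG').pow _)
    (fun i => PF_const (v i)) i) ⟨p0, hi⟩).mono fun p hp h => hp ?_
  have := LieSpec.LS_pow (Z := -G p) (x := v) (q := (G p).charpoly * Polynomial.X) fun c hc => by
    by_cases hc0 : c = 0
    · simp [hc0]
    have d1 := (LieSpec.mem_spec_neg _ _).1 hc.mem_spectrum
    obtain ⟨y, hy0, hy⟩ := rect1 _ _ (neg_ne_zero.2 hc0) d1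
    have d2 := h _ (mem_spec_of_eig hy0 (by rw [hZ, hy]))
    rw [neg_neg, hZ] at d2
    have d3 := rect2 _ _ hc0 d2
    rw [Matrix.mem_spectrum_iff_isRoot_charpoly] at d3
    rw [eval_mul, d3.eq_zero, zero_mul]
  rw [map_mul, aeval_X] at this
  exact congrFun this i

lemma sym_of_inv {N : X →L[ℂ] X} {s : ℂ} (hs : s ≠ 0) (h : N * N = s • 1) (S : X →L[ℂ] X) :
    SymP N S := by
  intro c hc
  rw [← mem_spec_neg]
  have h1 : (s⁻¹ • N) * N = 1 := by rw [smul_mul_assoc, h, smul_smul, inv_mul_cancel₀ hs, one_smul]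
  have h2 : N * (s⁻¹ • N) = 1 := by rw [mul_smul_comm, h, smul_smul, inv_mul_cancel₀ hs, one_smul]
  let v : (X →L[ℂ] X)ˣ := ⟨N, s⁻¹ • N, h2, h1⟩
  have h3 : -br N S = (v : X →L[ℂ] X) * br N S * (↑v⁻¹ : X →L[ℂ] X) := by
    have : N * br N S = -(br N S * N) := by
      simp only [br, sub_mul, mul_sub, mul_assoc S, ← mul_assoc N, h]
      simp
    change -br N S = N * br N S * (s⁻¹ • N)
    rw [this, neg_mul, mul_assoc, h2, mul_one]
  rw [h3, spectrum.units_conjugate]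
  exact hc

lemma sym_of_sq_zero {T S : X →L[ℂ] X} (h : br T S * br T S = 0) : SymP T S := by
  intro c hc
  by_cases hc0 : c = 0
  · simpa [hc0] using hc
  exfalso
  rw [spectrum.mem_iff, Algebra.algebraMap_eq_smul_one] at hc
  refine hc ⟨⟨c • 1 - br T S, (c * c)⁻¹ • (c • 1 + br T S), ?_, ?_⟩, rfl⟩
  · rw [mul_smul_comm, inv_smul_eq_iff₀ (mul_ne_zero hc0 hc0)]
    simp only [sub_mul, mul_add, smul_mul_assoc, mul_smul_comm, one_mul, mul_one, h]
    module
  · rw [smul_mul_assoc, inv_smul_eq_iff₀ (mul_ne_zero hc0 hc0)]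
    simp only [mul_sub, add_mul, smul_mul_assoc, mul_smul_comm, one_mul, mul_one, h]
    module

lemma br_shift (T S : X →L[ℂ] X) (r : ℂ) : br T S = br (T - r • 1) S := by
  rw [← br_add_smul_one_left (T - r • 1) S r, sub_add_cancel]

lemma sym_shift {T S : X →L[ℂ] X} (r : ℂ) : SymP T S ↔ SymP (T - r • 1) S := by
  rw [SymP, SymP, br_shift T S r]

lemma nonquad_partner {T S : X →L[ℂ] X} (hT : Quad T) (h : ¬ SymP T S) :
    ∃ S', br T S' = br T S ∧ ¬ Quad S' := by
  obtain ⟨r, s, h0⟩ := hT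
  set N := T - r • (1 : X →L[ℂ] X) with hN
  rw [pow_two] at h0
  have hs : s = 0 := by
    by_contra hs
    exact h ((sym_shift r).2 (sym_of_inv hs h0 S))
  rw [hs, zero_smul] at h0
  by_contra hc
  push Not at hc
  have e0 : ∀ a : ℂ, br T (S + a • N) = br T S := by
    intro a
    simp only [br_shift T _ r, ← hN]
    simp [br, mul_add, add_mul]
  obtain ⟨r0, β, h1⟩ := hc S rfl
  set M := S - r0 • (1 : X →L[ℂ] X) with hM
  rw [pow_two] at h1
  have hZ : br T S = br N M := by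
    rw [br_shift T S r, br_swap, br_shift S _ r0, ← br_swap]
  have h' : ¬ SymP N M := by rwa [SymP, ← hZ]
  have hβ : β = 0 := by
    by_contra hβ
    exact h' (sym_of_inv hβ h1 N).swap
  rw [hβ, zero_smul] at h1
  have hZ0 : br N M ≠ 0 := fun h2 => h' (sym_of_sq_zero (by simp [h2]))
  have key : ∀ a : ℂ, ∃ α γ : ℂ, a • (M * N + N * M) = α • (M + a • N) + γ • 1 := by
    intro a
    obtain ⟨r1, s1, h2⟩ := hc _ (e0 a)
    refine ⟨2 * (r1 - r0), s1 - (r1 - r0) ^ 2, ?_⟩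
    rw [show S + a • N - r1 • (1 : X →L[ℂ] X) = M + a • N - (r1 - r0) • 1 by rw [hM]; module] at h2
    simp only [pow_two, sub_mul, mul_sub, add_mul, mul_add, smul_mul_assoc, mul_smul_comm, one_mul,
      mul_one, h0, h1] at h2
    linear_combination (norm := module) h2
  obtain ⟨α1, γ1, k1⟩ := key 1
  obtain ⟨α2, γ2, k2⟩ := key 2
  have k3 : (2 * α1 - α2) • M + (2 * α1 - 2 * α2) • N + (2 * γ1 - γ2) • (1 : X →L[ℂ] X) = 0 := by
    linear_combination (norm := module) k2 - (2 : ℂ) • k1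
  have k4 : (2 * α1 - α2) • br N M = 0 := by
    have := congrArg (br N) k3
    simpa [br, mul_add, add_mul, smul_sub, h0] using this
  have k5 : (2 * α1 - 2 * α2) • br N M = 0 := by
    have := congrArg (fun W => br W M) k3
    simpa [br, mul_add, add_mul, smul_sub, h1] using this
  have k6 := (smul_eq_zero.1 k4).resolve_right hZ0
  have k7 := (smul_eq_zero.1 k5).resolve_right hZ0
  have k8 : α1 = 0 := by linear_combination k6 - k7 / 2
  rw [k8, one_smul, zero_smul, zero_add] at k1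
  by_cases hγ : γ1 = 0
  · rw [hγ, zero_smul] at k1
    refine h' (sym_of_sq_zero ?_)
    have k9 : M * N = -(N * M) := eq_neg_of_add_eq_zero_left k1
    have k10 : N * M * (N * M) = 0 := by
      rw [mul_assoc, ← mul_assoc M, k9, neg_mul, mul_neg, ← mul_assoc, ← mul_assoc, h0]; simp
    simp [br, k9, add_mul, mul_add, k10]
  · have k9 : (N + M) * (N + M) = γ1 • 1 := by
      simp only [add_mul, mul_add, h0, h1, ← k1]; abel
    have := sym_of_inv hγ k9 M
    rw [SymP, show br (N + M) M = br N M by simp [br, add_mul, mul_add]] at this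
    exact h' this

lemma sign_of_asym {e : ℂ} (he : e * e = 1) {T S : X →L[ℂ] X}
    (h : spectrum ℂ (e • br T S) = spectrum ℂ (br T S)) (hs : ¬ SymP T S) : e = 1 := by
  rcases mul_self_eq_one_iff.1 he with rfl | rfl
  · rfl
  · exfalso
    rw [neg_smul, one_smul] at h
    exact hs fun c hc => (mem_spec_neg _ _).1 (h ▸ hc)

lemma kappa_one (hX : ¬ FiniteDimensional ℂ X) (ξ : (X →L[ℂ] X) → ℂ) (hξ : ∀ T, ξ T * ξ T = 1)
    {κ : ℂ} (hκ : κ * κ = 1)
    (h : ∀ T S, spectrum ℂ ((κ * (ξ T * ξ S)) • br T S) = spectrum ℂ (br T S)) : κ = 1 := by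
  obtain ⟨y0, y1, y2, k, g, l, a1, a2, a3, a4, a5, a6⟩ := BanLin.ex_three hX
  have hT : ¬ Quad (ro y1 k + ro y2 g) := by
    rintro ⟨r, s, h0⟩
    have := congrArg (fun U : X →L[ℂ] X => l (U y0)) h0
    simp [pow_two, a1, a2, a3, a4, a5, a6] at this
  obtain ⟨p, hp⟩ := (gen_asym hT).exists
  generalize ro y1 k + ro y2 g = T at hp
  generalize ro p.1 p.2.2.1 + ro p.2.1 p.2.2.2 = S at hp
  have key : ∀ T' S', br T' S' = br T S → κ * (ξ T' * ξ S') = 1 := by
    intro T' S' hb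
    refine sign_of_asym (T := T) (S := S) ?_ (hb ▸ h T' S') hp
    linear_combination (ξ T' * ξ T' * (ξ S' * ξ S')) * hκ + (ξ S' * ξ S') * hξ T' + hξ S'
  have k1 := key T S rfl
  have k2 := key (T + S) S (by simp [br, add_mul, mul_add])
  have k3 := key T (T + S) (by simp [br, add_mul, mul_add])
  have k4 : ξ S = κ * ξ T := by
    linear_combination (κ * ξ T) * k1 - (ξ T * ξ T * ξ S) * hκ - ξ S * hξ T
  have k5 : ξ (T + S) = κ * ξ T := by
    linear_combination (κ * ξ T) * k3 - (ξ T * ξ T * ξ (T + S)) * hκ - ξ (T + S) * hξ T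
  rw [k4, k5] at k2
  linear_combination k2 - (κ * (ξ T * ξ T)) * hκ - κ * hξ T

lemma const_off (ξ : (X →L[ℂ] X) → ℂ) (hξ : ∀ T, ξ T * ξ T = 1)
    (h : ∀ T S, spectrum ℂ ((ξ T * ξ S) • br T S) = spectrum ℂ (br T S)) {T T' : X →L[ℂ] X}
    (hT : ¬ ∀ S, SymP T S) (hT' : ¬ ∀ S, SymP T' S) : ξ T = ξ T' := by
  have key : ∀ T S, ¬ SymP T S → ξ T = ξ S := by
    intro T S hs
    have := sign_of_asym (by linear_combination (ξ S * ξ S) * hξ T + hξ S) (h T S) hs
    linear_combination (-ξ T) * this + ξ S * hξ T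
  have red : ∀ T, (¬ ∀ S, SymP T S) → ∃ T1, ¬ Quad T1 ∧ ξ T = ξ T1 := by
    intro T hT
    by_cases hq : Quad T
    · rw [not_forall] at hT
      obtain ⟨S, hS⟩ := hT
      obtain ⟨S', h1, h2⟩ := nonquad_partner hq hS
      exact ⟨S', h2, key T S' (by rwa [SymP, h1])⟩
    · exact ⟨T, hq, rfl⟩
  obtain ⟨T1, h1, h2⟩ := red T hT
  obtain ⟨T2, h3, h4⟩ := red T' hT'
  obtain ⟨p, h5, h6⟩ := ((gen_asym h1).and (gen_asym h3)).exists
  rw [h2, h4, key _ _ h5, key _ _ h6]

end Pool.Agent.H76.BanSign
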