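import Mathlib

set_option autoImplicit false

namespace Pool.Agent.H76.CharField

open Module Finset

theorem trace_pow {V : Type} [AddCommGroup V] [Module ℂ V] [FiniteDimensional ℂ V]
    (A : Module.End ℂ V) (e : ℕ) (he : 0 < e) (hA : A ^ e = 1) (ζ : ℂ)
    (hζ : IsPrimitiveRoot ζ e) :
    ∃ N : ℕ → ℕ, ∀ j, LinearMap.trace ℂ V (A ^ j) = ∑ i ∈ range e, (N i : ℂ) * ζ ^ (i * j) := by
  have hζ0 : ζ ≠ 0 := hζ.ne_zero he.ne'
  have he0 : (e : ℂ) ≠ 0 := Nat.cast_ne_zero.2 he.ne'
  let B : ℕ → Module.End ℂ V := fun i => (ζ⁻¹ ^ i) • A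
  let P : ℕ → Module.End ℂ V := fun i => (e : ℂ)⁻¹ • ∑ t ∈ range e, B i ^ t
  have hB : ∀ i, B i ^ e = 1 := by
    intro i
    simp only [B]
    rw [smul_pow, hA, ← pow_mul, mul_comm, pow_mul, hζ.inv.pow_eq_one, one_pow, one_smul]
  have hBP : ∀ i, B i * P i = P i := by
    intro i
    simp only [P]
    rw [mul_smul_comm]
    congr 1
    have := mul_geom_sum (B i) e
    rw [hB, sub_self, sub_mul, one_mul, sub_eq_zero] at this
    exact this
  have hBP' : ∀ i t, B i ^ t * P i = P i := by
    intro i t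
    induction t with
    | zero => simp
    | succ t ih => rw [pow_succ, mul_assoc, hBP, ih]
  have hAP : ∀ i j, A ^ j * P i = ζ ^ (i * j) • P i := by
    intro i j
    have := hBP' i j
    simp only [B] at this
    rw [smul_pow, smul_mul_assoc] at this
    conv_rhs => rw [← this, smul_smul]
    rw [← pow_mul, ← mul_pow, mul_inv_cancel₀ hζ0, one_pow, one_smul]
  have hPP : ∀ i, IsIdempotentElem (P i) := by
    intro i
    have : P i * P i = ((e : ℂ)⁻¹ • ∑ t ∈ range e, B i ^ t) * P i := rfl
    rw [IsIdempotentElem, this, smul_mul_assoc, sum_mul]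
    simp only [hBP', sum_const, card_range]
    rw [← Nat.cast_smul_eq_nsmul ℂ, smul_smul, inv_mul_cancel₀ he0, one_smul]
  have hsum : ∑ i ∈ range e, P i = 1 := by
    simp only [P, B, smul_pow]
    rw [← smul_sum, sum_comm]
    simp only [← sum_smul]
    rw [sum_eq_single 0]
    · simp [smul_smul, he0]
    · intro t ht ht0
      have h1 : ζ⁻¹ ^ t ≠ 1 := hζ.inv.pow_ne_one_of_pos_of_lt ht0 (mem_range.1 ht)
      have h2 : ∑ i ∈ range e, (ζ⁻¹ ^ i) ^ t = 0 := by
        have := mul_geom_sum (ζ⁻¹ ^ t) e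
        rw [← pow_mul, mul_comm t, pow_mul, hζ.inv.pow_eq_one, one_pow, sub_self] at this
        rw [← (mul_eq_zero.1 this).resolve_left (sub_ne_zero.2 h1)]
        exact sum_congr rfl fun i _ => by rw [← pow_mul, ← pow_mul, mul_comm]
      rw [h2, zero_smul]
    · intro h
      exact absurd (mem_range.2 he) h
  refine ⟨fun i => finrank ℂ (LinearMap.range (P i)), fun j => ?_⟩
  rw [← mul_one (A ^ j), ← hsum, mul_sum, map_sum]
  refine sum_congr rfl fun i _ => ?_
  rw [hAP, map_smul, (LinearMap.IsIdempotentElem.isProj_range _ (hPP i)).trace, smul_eq_mul,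
    mul_comm]

theorem sep {G : Type} [Group G] [Finite G] (g h : G)
    (H : ∀ (V : Type) [AddCommGroup V] [Module ℂ V] [FiniteDimensional ℂ V]
      (ρ : Representation ℂ G V), ρ.IsIrreducible → ρ.character g = ρ.character h) :
    IsConj g h := by
  classical
  have : Fintype G := Fintype.ofFinite G
  by_contra hgh
  let P : ℕ → Prop := fun n => ∃ (V : Type) (_ : AddCommGroup V) (_ : Module ℂ V)
    (_ : FiniteDimensional ℂ V) (ρ : Representation ℂ G V), finrank ℂ V = n ∧
      ∃ v, ∑ s : G, (ρ (s * g * s⁻¹) v - ρ (s * h * s⁻¹) v) ≠ 0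
  have hex : ∃ n, P n := by
    let ρ : Representation ℂ G (G → ℂ) :=
      { toFun := fun g => LinearMap.funLeft ℂ ℂ (fun x => x * g)
        map_one' := by ext; simp
        map_mul' := by intro a b; refine LinearMap.ext fun f => ?_; funext x; simp [mul_assoc] }
    refine ⟨_, G → ℂ, inferInstance, inferInstance, inferInstance, ρ, rfl,
      fun x => if IsConj g x then 1 else 0, fun h0 => ?_⟩
    have := congrFun h0 1
    simp only [ρ, Finset.sum_apply, Pi.sub_apply, MonoidHom.coe_mk, OneHom.coe_mk,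
      LinearMap.funLeft_apply, one_mul, Pi.zero_apply] at this
    rw [sum_congr rfl (g := fun _ => (1 : ℂ))] at this
    · simp at this
    · intro s _
      rw [if_pos (isConj_iff.2 ⟨s, rfl⟩), if_neg, sub_zero]
      intro hc
      exact hgh (hc.trans (isConj_iff.2 ⟨s, rfl⟩).symm)
  obtain ⟨V, _, _, _, ρ, hn, v, hv⟩ := Nat.find_spec hex
  have hsub : ∀ W : Subrepresentation ρ, W ≠ ⊤ → ∀ w ∈ W,
      ∑ s : G, (ρ (s * g * s⁻¹) w - ρ (s * h * s⁻¹) w) = 0 := by
    intro W hW w hw
    by_contra hc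
    have h1 : finrank ℂ W.toSubmodule < Nat.find hex :=
      hn ▸ Submodule.finrank_lt (fun h => hW (Subrepresentation.toSubmodule_injective h))
    refine Nat.find_min hex h1 ⟨W.toSubmodule, inferInstance, inferInstance, inferInstance,
      W.toRepresentation, rfl, ⟨w, hw⟩, fun h0 => hc ?_⟩
    have := congrArg Subtype.val h0
    rw [Submodule.coe_sum] at this
    exact this
  have hv0 : v ≠ 0 := by
    rintro rfl
    simp at hv
  have hirr : ρ.IsIrreducible := by
    have hnt : Nontrivial (Subrepresentation ρ) := ⟨⊥, ⊤, fun h => hv0 (by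
      have : v ∈ (⊤ : Subrepresentation ρ) := trivial
      rw [← h] at this
      exact this)⟩
    refine ⟨fun W => ?_⟩
    by_contra hc
    push Not at hc
    obtain ⟨W', hW'⟩ := exists_isCompl W
    have h2 : W' ≠ ⊤ := by
      rintro rfl
      exact hc.1 (by simpa using hW'.disjoint)
    have h3 : v ∈ (W ⊔ W').toSubmodule := by
      rw [hW'.sup_eq_top]; trivial
    rw [Subrepresentation.toSubmodule_sup, Submodule.mem_sup] at h3
    obtain ⟨a, ha, b, hb, rfl⟩ := h3
    apply hv
    have := congrArg₂ (· + ·) (hsub W hc.2 a ha) (hsub W' h2 b hb)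
    simp only [add_zero] at this
    rw [← this, ← sum_add_distrib]
    exact sum_congr rfl fun s _ => by simp only [map_add]; abel
  let Z : Module.End ℂ V := ∑ s : G, (ρ (s * g * s⁻¹) - ρ (s * h * s⁻¹))
  have hZ : ∀ u, Z u = ∑ s : G, (ρ (s * g * s⁻¹) u - ρ (s * h * s⁻¹) u) := by
    intro u; simp [Z]
  have hnt : Nontrivial V := ⟨v, 0, hv0⟩
  obtain ⟨c, hc⟩ := Module.End.exists_eigenvalue Z
  let W : Subrepresentation ρ := ⟨Module.End.eigenspace Z c, by
    intro x u hu
    rw [Module.End.mem_eigenspace_iff] at hu ⊢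
    rw [← map_smul, ← hu, hZ, hZ, map_sum, ← Equiv.sum_comp (Equiv.mulLeft x)]
    refine sum_congr rfl fun s _ => ?_
    simp only [Equiv.coe_mulLeft, map_sub, ← Module.End.mul_apply, ← map_mul]
    congr 3 <;> group⟩
  have hW : W = ⊤ := (eq_bot_or_eq_top W).resolve_left (fun h0 => hc (by
    have := congrArg Subrepresentation.toSubmodule h0
    exact this))
  have hZc : Z = c • (1 : Module.End ℂ V) := by
    ext u
    have : u ∈ W := hW ▸ trivial
    exact Module.End.mem_eigenspace_iff.1 this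
  have htr : LinearMap.trace ℂ V Z = 0 := by
    simp only [Z, map_sum, map_sub]
    refine sum_eq_zero fun s _ => ?_
    have e1 := ρ.char_conj g s
    have e2 := ρ.char_conj h s
    have e3 := H V ρ hirr
    simp only [Representation.character] at e1 e2 e3
    rw [e1, e2, e3, sub_self]
  rw [hZc, map_smul, LinearMap.trace_one, smul_eq_mul, mul_eq_zero] at htr
  have hc0 : c = 0 := htr.resolve_right (Nat.cast_ne_zero.2 finrank_pos.ne')
  apply hv
  rw [← hZ, hZc, hc0]
  simp

/-- the field generated by the values of the irreducible characters -/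
noncomputable def cf (G : Type) [Group G] : IntermediateField ℚ ℂ :=
  IntermediateField.adjoin ℚ {z : ℂ | ∃ (V : Type) (_ : AddCommGroup V) (_ : Module ℂ V)
    (_ : FiniteDimensional ℂ V) (ρ : Representation ℂ G V),
      ρ.IsIrreducible ∧ ∃ x : G, ρ.character x = z}

theorem card_le {G ι : Type} [Group G] [Finite G] [Fintype ι] (e : ℕ) (he : 0 < e)
    (hG : ∀ g : G, g ^ e = 1) (j : ι → ℕ) (hj : ∀ a, (j a).Coprime e)
    (hne : ∀ a b, a ≠ b → ∃ g : G, ¬ IsConj (g ^ j a) (g ^ j b)) :
    Fintype.card ι ≤ finrank ℚ (cf G) := by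
  have hζ := Complex.isPrimitiveRoot_exp e he.ne'
  generalize Complex.exp (2 * Real.pi * Complex.I / e) = ζ at hζ
  have hint : IsIntegral ℚ ζ := (hζ.isIntegral he).tower_top
  let L := IntermediateField.adjoin ℚ {ζ}
  have : FiniteDimensional ℚ L := IntermediateField.adjoin.finiteDimensional hint
  let z : L := ⟨ζ, IntermediateField.mem_adjoin_simple_self ℚ ζ⟩
  have hσ : ∀ a, ∃ σ : L →ₐ[ℚ] ℂ, σ z = ζ ^ j a := by
    intro a
    have hr : ζ ^ j a ∈ (minpoly ℚ ζ).aroots ℂ := by
      rw [← Polynomial.cyclotomic_eq_minpoly_rat hζ he, Polynomial.mem_aroots]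
      refine ⟨Polynomial.cyclotomic_ne_zero _ _, ?_⟩
      have := (hζ.pow_of_coprime _ (hj a)).isRoot_cyclotomic he
      rw [← Polynomial.map_cyclotomic e (algebraMap ℚ ℂ)] at this
      rwa [Polynomial.aeval_def, Polynomial.eval₂_eq_eval_map]
    exact ⟨(IntermediateField.algHomAdjoinIntegralEquiv ℚ hint).symm ⟨_, hr⟩,
      IntermediateField.algHomAdjoinIntegralEquiv_symm_apply_gen ℚ hint _⟩
  choose σ hσ using hσ
  have key : ∀ (V : Type) [AddCommGroup V] [Module ℂ V] [FiniteDimensional ℂ V]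
      (ρ : Representation ℂ G V) (x : G), ∃ w : L, (w : ℂ) = ρ.character x ∧
        ∀ a, σ a w = ρ.character (x ^ j a) := by
    intro V _ _ _ ρ x
    obtain ⟨N, hN⟩ := trace_pow (ρ x) e he (by rw [← map_pow, hG, map_one]) ζ hζ
    refine ⟨∑ i ∈ range e, (N i : L) * z ^ i, ?_, fun a => ?_⟩
    · have := hN 1
      simp only [pow_one, mul_one] at this
      rw [Representation.character, this]
      simp [z]
    · rw [Representation.character, map_pow, hN]
      simp only [map_sum, map_mul, map_natCast, map_pow, hσ]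
      exact sum_congr rfl fun i _ => by rw [← pow_mul, mul_comm i]
  have hle : cf G ≤ L := by
    rw [cf, IntermediateField.adjoin_le_iff]
    rintro _ ⟨V, _, _, _, ρ, -, x, rfl⟩
    obtain ⟨w, hw, -⟩ := key V ρ x
    rw [← hw]
    exact w.2
  have : FiniteDimensional ℚ (cf G) :=
    Module.Finite.of_injective (IntermediateField.inclusion hle).toLinearMap
      (IntermediateField.inclusion hle).injective
  have hinj : Function.Injective fun a => (σ a).comp (IntermediateField.inclusion hle) := by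
    intro a b hab
    by_contra hc
    obtain ⟨g, hg⟩ := hne a b hc
    refine hg (sep _ _ fun V _ _ _ ρ hρ => ?_)
    obtain ⟨w, hw, hw'⟩ := key V ρ g
    have hm : ρ.character g ∈ cf G := IntermediateField.subset_adjoin _ _
      ⟨V, inferInstance, inferInstance, inferInstance, ρ, hρ, g, rfl⟩
    have e1 : IntermediateField.inclusion hle ⟨_, hm⟩ = w := Subtype.ext hw.symm
    have := DFunLike.congr_fun hab ⟨_, hm⟩
    rw [← hw', ← hw', ← e1]
    exact this
  rw [← Nat.card_eq_fintype_card]
  exact (Nat.card_le_card_of_injective _ hinj).trans (card_algHom_le_finrank ℚ _ ℂ)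

end Pool.Agent.H76.CharField
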