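import Mathlib

namespace Pool.Agent.H76.ConjA

open Finset

lemma inv_sub {α : Type*} [DecidableEq α] (σ : α → α) (hσ : ∀ x, σ (σ x) = x) (U : Finset α)
    (hU : ∀ x ∈ U, σ x ∈ U) (hf : ∀ x ∈ U, σ x ≠ x) (j : ℕ) (hj : 2 * j ≤ U.card) :
    ∃ S ⊆ U, (∀ x ∈ S, σ x ∈ S) ∧ S.card = 2 * j := by
  induction j with
  | zero => exact ⟨∅, by simp, by simp, by simp⟩
  | succ j ih =>
    obtain ⟨S, hSU, hS, hc⟩ := ih (by omega)
    have : (U \ S).Nonempty := by
      rw [← card_pos, card_sdiff_of_subset hSU]; omega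
    obtain ⟨x, hx⟩ := this
    rw [mem_sdiff] at hx
    have hx2 : σ x ∉ S := fun h => hx.2 (by simpa [hσ] using hS _ h)
    refine ⟨insert x (insert (σ x) S), ?_, ?_, ?_⟩
    · intro y hy
      simp only [mem_insert] at hy
      rcases hy with rfl | rfl | hy
      exacts [hx.1, hU _ hx.1, hSU hy]
    · intro y hy
      simp only [mem_insert] at hy ⊢
      rcases hy with rfl | rfl | hy
      · simp
      · simp [hσ]
      · exact Or.inr (Or.inr (hS _ hy))
    · rw [card_insert_of_notMem, card_insert_of_notMem hx2]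
      · omega
      · simp only [mem_insert, not_or]
        exact ⟨(hf _ hx.1).symm, hx.2⟩

/-- symmetric connection sets -/
lemma conn (N : ℕ) [NeZero N] (d : ℕ) (hd : d < N) (he : Even (N * d)) :
    ∃ S : Finset (ZMod N), 0 ∉ S ∧ (∀ x ∈ S, -x ∈ S) ∧ S.card = d ∧
      (Odd d → ((N / 2 : ℕ) : ZMod N) ∈ S) := by
  have hN : 0 < N := Nat.pos_of_ne_zero (NeZero.ne N)
  set U : Finset (ZMod N) := univ.filter (fun x => -x ≠ x) with hUdef
  have hU : ∀ x ∈ U, -x ∈ U := by
    intro x hx
    simp only [hUdef, mem_filter, mem_univ, true_and, neg_neg] at hx ⊢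
    exact hx.symm
  have hf : ∀ x ∈ U, -x ≠ x := fun x hx => by simpa [hUdef] using hx
  have hcomp : univ.filter (fun x : ZMod N => ¬ (-x ≠ x)) ⊆ {0, ((N / 2 : ℕ) : ZMod N)} := by
    intro x hx
    simp only [mem_filter, mem_univ, true_and, not_not, ZMod.neg_eq_self_iff] at hx
    rcases hx with rfl | hx
    · simp
    · have : N / 2 = x.val := by omega
      simp [this]
  have hsum := card_filter_add_card_filter_not (s := (univ : Finset (ZMod N))) (fun x => -x ≠ x)
  rw [card_univ, ZMod.card] at hsum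
  have hc2 := (card_le_card hcomp).trans card_le_two
  rcases Nat.even_or_odd d with ⟨j, hj⟩ | ⟨j, hj⟩
  · have hUc : 2 * j ≤ U.card := by
      rcases Nat.even_or_odd N with ⟨m, hm⟩ | ⟨m, hm⟩
      · simp only [hUdef]; omega
      · have : univ.filter (fun x : ZMod N => ¬ (-x ≠ x)) ⊆ {0} := by
          intro x hx
          simp only [mem_filter, mem_univ, true_and, not_not, ZMod.neg_eq_self_iff] at hx
          rcases hx with rfl | hx
          · simp
          · omega
        have h1 := card_le_card this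
        rw [card_singleton] at h1
        simp only [hUdef]; omega
    obtain ⟨S, hSU, hS, hc⟩ := inv_sub (fun x : ZMod N => -x) (by simp) U hU hf j hUc
    refine ⟨S, fun h => by simpa [hUdef] using hSU h, hS, by omega, fun h => ?_⟩
    exfalso; obtain ⟨k, hk⟩ := h; omega
  · have hNe : Even N := by
      rcases Nat.even_or_odd N with h | h
      · exact h
      · exact absurd he (Nat.not_even_iff_odd.2 (h.mul ⟨j, hj⟩))
    obtain ⟨m, hm⟩ := hNe
    have hUc : 2 * j ≤ U.card := by simp only [hUdef]; omega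
    obtain ⟨S, hSU, hS, hc⟩ := inv_sub (fun x : ZMod N => -x) (by simp) U hU hf j hUc
    have hval : ((N / 2 : ℕ) : ZMod N).val = m := by
      rw [ZMod.val_natCast, Nat.mod_eq_of_lt (by omega)]; omega
    have hh : -((N / 2 : ℕ) : ZMod N) = ((N / 2 : ℕ) : ZMod N) := by
      rw [ZMod.neg_eq_self_iff, hval]; right; omega
    have hh0 : ((N / 2 : ℕ) : ZMod N) ≠ 0 := by
      intro h; rw [h, ZMod.val_zero] at hval; omega
    have hnot : ((N / 2 : ℕ) : ZMod N) ∉ S := fun h => hf _ (hSU h) hh
    refine ⟨insert ((N / 2 : ℕ) : ZMod N) S, ?_, ?_, ?_, fun _ => mem_insert_self _ _⟩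
    · simp only [mem_insert, not_or]
      exact ⟨hh0.symm, fun h => by simpa [hUdef] using hSU h⟩
    · intro x hx
      simp only [mem_insert] at hx ⊢
      rcases hx with rfl | hx
      exacts [Or.inl hh, Or.inr (hS _ hx)]
    · rw [card_insert_of_notMem hnot]; omega

lemma ncard_sub {N : ℕ} [NeZero N] (S : Finset (ZMod N)) (x : ZMod N) :
    ({y | y - x ∈ S} : Set (ZMod N)).ncard = S.card := by
  have : ({y | y - x ∈ S} : Set (ZMod N)) = ↑(S.image (fun s => s + x)) := by
    ext y
    simp only [Set.mem_setOf_eq, coe_image, Set.mem_image, mem_coe]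
    constructor
    · intro h; exact ⟨_, h, by ring⟩
    · rintro ⟨s, hs, rfl⟩; simpa using hs
  rw [this, Set.ncard_coe_finset, card_image_of_injective _ (add_left_injective x)]

lemma transfer {V : Type*} [Fintype V] {n : ℕ} (hn : Fintype.card V = n) (G : SimpleGraph V) :
    ∃ (H : SimpleGraph (Fin n)) (e : Fin n ≃ V),
      ∀ v, (H.neighborSet v).ncard = (G.neighborSet (e v)).ncard := by
  let e : Fin n ≃ V := (Fintype.equivFinOfCardEq hn).symm
  refine ⟨G.comap e, e, fun v => ?_⟩
  rw [← Set.ncard_image_of_injective _ e.injective]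
  congr 1
  ext y
  simp only [Set.mem_image, SimpleGraph.mem_neighborSet, SimpleGraph.comap_adj]
  constructor
  · rintro ⟨z, hz, rfl⟩; exact hz
  · intro h; exact ⟨e.symm y, by simpa using h, by simp⟩

lemma regular (n d : ℕ) (hd : d < n) (he : Even (n * d)) :
    ∃ H : SimpleGraph (Fin n), ∀ v, (H.neighborSet v).ncard = d := by
  haveI : NeZero n := ⟨by omega⟩
  obtain ⟨S, h0, hS, hc, -⟩ := conn n d hd he
  let G : SimpleGraph (ZMod n) :=
    { Adj := fun x y => y - x ∈ S
      symm := ⟨fun x y h => by simpa using hS _ h⟩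
      loopless := ⟨fun x h => h0 (by simpa using h)⟩ }
  obtain ⟨H, e, h⟩ := transfer (ZMod.card n) G
  exact ⟨H, fun v => by rw [h, ← hc]; exact ncard_sub S _⟩

lemma special (n d d' : ℕ) (hn : Odd n) (hd : d < n) (hd' : d' < n) (ho : Odd d) (he : Even d') :
    ∃ (H : SimpleGraph (Fin n)) (w : Fin n), (H.neighborSet w).ncard = d' ∧
      ∀ v ≠ w, (H.neighborSet v).ncard = d := by
  obtain ⟨m, hm⟩ := hn
  obtain ⟨j, hj⟩ := ho
  obtain ⟨i, hi⟩ := he
  haveI : NeZero (2 * m) := ⟨by omega⟩
  obtain ⟨S, h0, hS, hc, hh⟩ := conn (2 * m) d (by omega) ⟨m * d, by ring⟩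
  have hh := hh ⟨j, hj⟩
  set h : ZMod (2 * m) := ((2 * m / 2 : ℕ) : ZMod (2 * m)) with hdef
  have h2 : h + h = 0 := by
    rw [hdef, ← Nat.cast_add, show 2 * m / 2 + 2 * m / 2 = 2 * m by omega, ZMod.natCast_self]
  have hne : h ≠ 0 := fun e => h0 (e ▸ hh)
  obtain ⟨M, -, hM, hMc⟩ := inv_sub (fun x : ZMod (2 * m) => x + h)
    (fun x => by simp only [add_assoc, h2, add_zero]) univ (by simp) (by simpa using hne) i
    (by rw [card_univ, ZMod.card]; omega)
  let A : Option (ZMod (2 * m)) → Option (ZMod (2 * m)) → Prop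
    | none, none => False
    | none, some y => y ∈ M
    | some x, none => x ∈ M
    | some x, some y => y - x ∈ S ∧ ¬ (x ∈ M ∧ y = x + h)
  let G : SimpleGraph (Option (ZMod (2 * m))) :=
    { Adj := A
      symm := ⟨by
        rintro (_ | x) (_ | y) hxy
        · exact hxy
        · exact hxy
        · exact hxy
        · refine ⟨by simpa using hS _ hxy.1, fun ⟨a, b⟩ => hxy.2 ⟨?_, ?_⟩⟩
          · rw [b]; exact hM _ a
          · rw [b, add_assoc, h2, add_zero]⟩
      loopless := ⟨by
        rintro (_ | x) hx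
        · exact hx
        · exact h0 (by simpa using hx.1)⟩ }
  obtain ⟨H, e, hH⟩ := transfer (n := n) (by rw [Fintype.card_option, ZMod.card]; omega) G
  refine ⟨H, e.symm none, ?_, ?_⟩
  · rw [hH, Equiv.apply_symm_apply]
    have : G.neighborSet none = some '' ↑M := by
      ext (_ | y) <;> simp [G, A]
    rw [this, Set.ncard_image_of_injective _ (Option.some_injective _), Set.ncard_coe_finset]
    omega
  · intro v hv
    rw [hH]
    obtain ⟨x, hx⟩ : ∃ x, e v = some x := by
      rcases hev : e v with _ | x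
      · exact absurd (by rw [← hev]; simp) hv
      · exact ⟨x, rfl⟩
    rw [hx]
    have hb := ncard_sub S x
    by_cases hxM : x ∈ M
    · have : G.neighborSet (some x) = insert none (some '' ({y | y - x ∈ S} \ {x + h})) := by
        ext (_ | y) <;> simp [G, A, hxM]
      rw [this, Set.ncard_insert_of_notMem (by simp),
        Set.ncard_image_of_injective _ (Option.some_injective _),
        Set.ncard_diff_singleton_of_mem (by simpa using hh), hb]
      omega
    · have : G.neighborSet (some x) = some '' {y | y - x ∈ S} := by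
        ext (_ | y) <;> simp [G, A, hxM]
      rw [this, Set.ncard_image_of_injective _ (Option.some_injective _), hb, hc]

lemma exposed {E : Type*} [AddCommGroup E] [Module ℝ E] (S : Set E) (f : E →ₗ[ℝ] ℝ) (p : E)
    (hp : p ∈ S) (h : ∀ q ∈ S, q = p ∨ f q < f p) :
    p ∈ (convexHull ℝ S).extremePoints ℝ := by
  have hc : Convex ℝ {x | x = p ∨ f x < f p} := by
    intro x hx y hy a b ha hb hab
    simp only [Set.mem_setOf_eq, map_add, map_smul, smul_eq_mul] at hx hy ⊢
    rcases eq_or_lt_of_le ha with rfl | ha'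
    · have : b = 1 := by linarith
      subst this; simpa using hy
    rcases eq_or_lt_of_le hb with rfl | hb'
    · have : a = 1 := by linarith
      subst this; simpa using hx
    have e : f p = a * f p + b * f p := by rw [← add_mul, hab, one_mul]
    rcases hx with rfl | hx <;> rcases hy with rfl | hy
    · left; rw [← add_smul, hab, one_smul]
    · right; nlinarith
    · right; nlinarith
    · right; nlinarith
  have hs : convexHull ℝ S ⊆ {x | x = p ∨ f x < f p} := convexHull_min h hc
  refine ⟨subset_convexHull ℝ S hp, ?_⟩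
  rintro x hx y hy ⟨a, b, ha, hb, hab, e⟩
  have e2 := congrArg f e
  simp only [map_add, map_smul, smul_eq_mul] at e2
  have e3 : f p = a * f p + b * f p := by rw [← add_mul, hab, one_mul]
  rcases hs hx with h1 | h1
  · exact h1
  · exfalso
    rcases hs hy with h2 | h2
    · rw [h2] at e2; nlinarith
    · nlinarith

end Pool.Agent.H76.ConjA
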