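import Pool.Agent.H76.CutSD

set_option autoImplicit false

namespace Pool.Agent.H76.CutK

open CutSD

abbrev Z := ZMod 3

def S (s : Z → Z) : Z := s 0 + s 1 + s 2

lemma cases3 (j : Z) : j = 0 ∨ j = 1 ∨ j = 2 := by revert j; decide

lemma h3 : (3 : Z) = 0 := by decide

lemma S_shift (s : Z → Z) (j : Z) : S (fun i => s (i - j)) = S s := by
  have e1 : (0 : Z) - 1 = 2 := by decide
  have e2 : (2 : Z) - 1 = 1 := by decide
  have e3 : (0 : Z) - 2 = 1 := by decide
  have e4 : (1 : Z) - 2 = 2 := by decide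
  rcases cases3 j with rfl | rfl | rfl <;> simp only [S, sub_zero, sub_self, e1, e2, e3, e4] <;> ring

lemma S_add (s t : Z → Z) : S (fun i => s i + t i) = S s + S t := by simp only [S]; ring

@[ext] structure K where
  r : Z
  t : Z → Z
  s : Z → Z
  e : Z → Z
  j : Z
  he : ∀ i, e i * e i = 1

instance : Mul K := ⟨fun x y => ⟨x.r + y.r,
  fun i => x.t i + y.t (i - x.j) + (x.j + S x.s) * y.r - x.r * y.r * (x.r + y.r),
  fun i => x.s i + y.s (i - x.j), fun i => x.e i * y.e (i - x.j), x.j + y.j,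
  fun i => by linear_combination (y.e (i - x.j) * y.e (i - x.j)) * x.he i + y.he (i - x.j)⟩⟩
instance : One K := ⟨⟨0, fun _ => 0, fun _ => 0, fun _ => 1, 0, fun _ => by simp⟩⟩
instance : Inv K := ⟨fun x => ⟨-x.r, fun i => -x.t (i + x.j) + (x.j + S x.s) * x.r,
  fun i => -x.s (i + x.j), fun i => x.e (i + x.j), -x.j, fun _ => x.he _⟩⟩

@[simp] lemma mul_r (x y : K) : (x * y).r = x.r + y.r := rfl
@[simp] lemma mul_t (x y : K) (i : Z) : (x * y).t i =
  x.t i + y.t (i - x.j) + (x.j + S x.s) * y.r - x.r * y.r * (x.r + y.r) := rfl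
@[simp] lemma mul_s (x y : K) (i : Z) : (x * y).s i = x.s i + y.s (i - x.j) := rfl
@[simp] lemma mul_e (x y : K) (i : Z) : (x * y).e i = x.e i * y.e (i - x.j) := rfl
@[simp] lemma mul_j (x y : K) : (x * y).j = x.j + y.j := rfl
@[simp] lemma mul_S (x y : K) : S (x * y).s = S x.s + S y.s := by
  rw [← S_shift y.s x.j, ← S_add]; rfl
@[simp] lemma one_r : (1 : K).r = 0 := rfl
@[simp] lemma one_t (i : Z) : (1 : K).t i = 0 := rfl
@[simp] lemma one_s (i : Z) : (1 : K).s i = 0 := rfl
@[simp] lemma one_e (i : Z) : (1 : K).e i = 1 := rfl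
@[simp] lemma one_j : (1 : K).j = 0 := rfl
@[simp] lemma one_S : S (1 : K).s = 0 := by simp [S]
lemma inv_r (x : K) : (x⁻¹).r = -x.r := rfl
lemma inv_t (x : K) (i : Z) : (x⁻¹).t i = -x.t (i + x.j) + (x.j + S x.s) * x.r := rfl
lemma inv_s (x : K) (i : Z) : (x⁻¹).s i = -x.s (i + x.j) := rfl
lemma inv_e (x : K) (i : Z) : (x⁻¹).e i = x.e (i + x.j) := rfl
lemma inv_j (x : K) : (x⁻¹).j = -x.j := rfl
lemma inv_S (x : K) : S (x⁻¹).s = -S x.s := by
  rw [← S_shift x.s (-x.j)]; simp only [S, inv_s, sub_neg_eq_add]; ring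

instance : Group K := Group.ofLeftAxioms
  (fun x y z => by
    ext <;> simp only [mul_r, mul_t, mul_s, mul_e, mul_j, mul_S, sub_sub] <;> ring)
  (fun x => by ext <;> simp)
  (fun x => by
    ext <;> simp only [mul_r, mul_t, mul_s, mul_e, mul_j, inv_r, inv_t, inv_s, inv_e, inv_j, inv_S,
      sub_neg_eq_add, one_r, one_t, one_s, one_e, one_j, x.he] <;> ring)

instance : Finite K := Finite.of_injective (fun x : K => (x.r, x.t, x.s, x.e, x.j)) fun x y h => by
  simp only [Prod.mk.injEq] at h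
  exact K.ext h.1 h.2.1 h.2.2.1 h.2.2.2.1 h.2.2.2.2

abbrev B := (Z → Z) × (Z → Z) × (Z → Z)

instance : SMul K B := ⟨fun k b => (fun i => k.e i * b.1 (i - k.j), fun i => k.e i * b.2.1 (i - k.j),
  fun i => k.e i * (b.2.2 (i - k.j) + k.s i * b.1 (i - k.j) +
    (k.t (i + 1) - k.t (i + 2)) * b.2.1 (i - k.j)))⟩

@[simp] lemma sm1 (k : K) (b : B) (i : Z) : (k • b).1 i = k.e i * b.1 (i - k.j) := rfl
@[simp] lemma sm2 (k : K) (b : B) (i : Z) : (k • b).2.1 i = k.e i * b.2.1 (i - k.j) := rfl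
@[simp] lemma sm3 (k : K) (b : B) (i : Z) : (k • b).2.2 i = k.e i * (b.2.2 (i - k.j) +
  k.s i * b.1 (i - k.j) + (k.t (i + 1) - k.t (i + 2)) * b.2.1 (i - k.j)) := rfl

lemma Bext {a b : B} (h1 : ∀ i, a.1 i = b.1 i) (h2 : ∀ i, a.2.1 i = b.2.1 i)
    (h3 : ∀ i, a.2.2 i = b.2.2 i) : a = b :=
  Prod.ext (funext h1) (Prod.ext (funext h2) (funext h3))

instance : DistribMulAction K B where
  one_smul b := Bext (fun i => by simp) (fun i => by simp) (fun i => by simp)
  mul_smul x y b := Bext (fun i => by simp [sub_sub, mul_assoc])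
    (fun i => by simp [sub_sub, mul_assoc]) (fun i => by
      simp only [sm1, sm2, sm3, mul_t, mul_s, mul_e, mul_j, sub_sub,
        show ∀ c, i + c - x.j = i - x.j + c from fun c => by ring]
      ring)
  smul_zero x := Bext (fun i => by simp) (fun i => by simp) (fun i => by simp)
  smul_add x a b := Bext (fun i => by simp [mul_add]) (fun i => by simp [mul_add])
    (fun i => by simp only [sm3, Prod.snd_add, Prod.fst_add, Pi.add_apply]; ring)

lemma B3 (b : B) : 3 • b = 0 := by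
  refine Bext (fun i => ?_) (fun i => ?_) (fun i => ?_) <;> simp [h3]

def Y (m s : Z) : K := ⟨0, fun _ => m, fun _ => s, fun _ => 1, 0, fun _ => by simp⟩

lemma Y_S (m s : Z) : S (Y m s).s = 0 := by
  simp only [S, Y]; linear_combination s * h3

lemma Y_mul (m s m' s' : Z) : Y m s * Y m' s' = Y (m + m') (s + s') := by
  ext <;> simp [Y]

lemma Y_cube (m s : Z) : Y m s ^ 3 = 1 := by
  rw [pow_succ, pow_two, Y_mul, Y_mul]
  ext <;> simp [Y] <;> [linear_combination m * h3; linear_combination s * h3]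

lemma idx1 (s : Z → Z) {j : Z} (hj : j ≠ 0) (i : Z) : s i + s (i - j) + s (i - (j + j)) = S s := by
  have : ∀ i j : Z, j ≠ 0 → (i = 0 ∧ i - j = 1 ∧ i - (j + j) = 2) ∨ (i = 0 ∧ i - j = 2 ∧ i - (j + j) = 1) ∨
    (i = 1 ∧ i - j = 0 ∧ i - (j + j) = 2) ∨ (i = 1 ∧ i - j = 2 ∧ i - (j + j) = 0) ∨
    (i = 2 ∧ i - j = 1 ∧ i - (j + j) = 0) ∨ (i = 2 ∧ i - j = 0 ∧ i - (j + j) = 1) := by decide
  rcases this i j hj with h | h | h | h | h | h <;> rw [h.2.1, h.2.2, h.1, S] <;> ring

lemma idx2 (s : Z → Z) {j : Z} (hj : j ≠ 0) (i : Z) :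
    s i * s (i - j) * s (i - (j + j)) = s 0 * s 1 * s 2 := by
  have : ∀ i j : Z, j ≠ 0 → (i = 0 ∧ i - j = 1 ∧ i - (j + j) = 2) ∨ (i = 0 ∧ i - j = 2 ∧ i - (j + j) = 1) ∨
    (i = 1 ∧ i - j = 0 ∧ i - (j + j) = 2) ∨ (i = 1 ∧ i - j = 2 ∧ i - (j + j) = 0) ∨
    (i = 2 ∧ i - j = 1 ∧ i - (j + j) = 0) ∨ (i = 2 ∧ i - j = 0 ∧ i - (j + j) = 1) := by decide
  rcases this i j hj with h | h | h | h | h | h <;> rw [h.2.1, h.2.2, h.1] <;> ring

lemma fermat (r : Z) : r * r * r = r := by revert r; decide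

def E (e : Z → Z) (he : ∀ i, e i * e i = 1) : K := ⟨0, fun _ => 0, fun _ => 0, e, 0, he⟩

lemma cube0 (k : K) (hj : k.j = 0) : k ^ 3 = Y k.r 0 * E k.e k.he := by
  rw [pow_succ, pow_two]
  ext
  · simp [Y, E]; linear_combination k.r * h3
  · rename_i i
    simp only [mul_r, mul_t, mul_j, mul_S, hj, Y, E, sub_zero, add_zero]
    linear_combination (k.t i + S k.s * k.r - 3 * k.r * k.r * k.r) * h3 + fermat k.r
  · rename_i i
    simp [Y, E, hj]; linear_combination k.s i * h3
  · simp [Y, E, hj, k.he]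
  · simp [Y, E, hj]

lemma cube1 (k : K) (hj : k.j ≠ 0) : k ^ 3 = Y (S k.t + k.r) (S k.s) *
    E (fun _ => k.e 0 * k.e 1 * k.e 2) (fun _ => by
      linear_combination (k.e 1 * k.e 1 * k.e 2 * k.e 2) * k.he 0 + (k.e 2 * k.e 2) * k.he 1 +
        k.he 2) := by
  rw [pow_succ, pow_two]
  ext
  · simp [Y, E]; linear_combination k.r * h3
  · rename_i i
    simp only [mul_r, mul_t, mul_j, mul_S, Y, E, sub_zero, add_zero]
    linear_combination (k.j * k.r + S k.s * k.r - 3 * k.r * k.r * k.r) * h3 + fermat k.r +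
      idx1 k.t hj i
  · rename_i i
    simp only [mul_s, mul_j, Y, E, add_zero]; exact idx1 k.s hj i
  · rename_i i
    simp only [mul_e, mul_j, Y, E, one_mul]; exact idx2 k.e hj i
  · simp [Y, E]; linear_combination k.j * h3

lemma YE_sq (m s : Z) (e : Z → Z) (he : ∀ i, e i * e i = 1) :
    (Y m s * E e he) ^ 2 = Y (-m) (-s) := by
  rw [pow_two]
  ext <;> simp [Y, E, he] <;> [linear_combination m * h3; linear_combination s * h3]

lemma six0 (k : K) (hj : k.j = 0) : k ^ 6 = Y (-k.r) 0 := by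
  rw [show 6 = 3 * 2 by norm_num, pow_mul, cube0 k hj, YE_sq, neg_zero]

lemma six1 (k : K) (hj : k.j ≠ 0) : k ^ 6 = Y (-(S k.t + k.r)) (-S k.s) := by
  rw [show 6 = 3 * 2 by norm_num, pow_mul, cube1 k hj, YE_sq]

lemma pow18 (k : K) : k ^ 18 = 1 := by
  rw [show 18 = 6 * 3 by norm_num, pow_mul]
  by_cases hj : k.j = 0
  · rw [six0 k hj, Y_cube]
  · rw [six1 k hj, Y_cube]

/-- elements without sign and rotation -/
def L (r : Z) (t s : Z → Z) : K := ⟨r, t, s, fun _ => 1, 0, fun _ => by simp⟩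

lemma sqne (a : Z) (h : a ≠ 0) : a * a = 1 := by revert a; decide

lemma main1 (k : K) (hj : k.j ≠ 0) (b : B) :
    ∃ g : K, g * k = k ^ 7 * g ∧ g • b - b ∈ R B k := by
  have h7 : k ^ 7 = Y (-(S k.t + k.r)) (-S k.s) * k := by rw [pow_succ, six1 k hj]
  have hjj := sqne _ hj
  by_cases hS : S k.s = 0
  · refine ⟨L ((S k.t + k.r) * k.j) (fun _ => 0) (fun _ => 0), ?_, ?_⟩
    · rw [h7]
      ext
      · simp [L, Y, add_comm]
      · rename_i i
        simp only [mul_r, mul_t, mul_j, mul_S, Y_S, hS]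
        simp only [L, Y, S, sub_zero, add_zero, zero_add]
        linear_combination (-(k.t 0 + k.t 1 + k.t 2 + k.r)) * hjj
      · simp [L, Y, hS]
      · simp [L, Y]
      · simp [L, Y]
    · have : L ((S k.t + k.r) * k.j) (fun _ => 0) (fun _ => 0) • b - b = 0 := by
        rw [sub_eq_zero]
        exact Bext (fun i => by simp [L]) (fun i => by simp [L]) (fun i => by simp [L])
      rw [this]; exact zero_mem _
  · refine ⟨L 0 (fun i => -(S k.t + k.r) * k.j * i) (fun i => -S k.s * k.j * i), ?_, ?_⟩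
    · rw [h7]
      have hs : S (fun i => -S k.s * k.j * i) = 0 := by
        rw [S]; linear_combination (-S k.s * k.j) * h3
      ext
      · simp [L, Y]
      · rename_i i
        simp only [mul_r, mul_t, mul_j, mul_S, Y_S, L, hs]
        simp only [Y, sub_zero, add_zero, zero_add]
        linear_combination (-(S k.t + k.r)) * hjj
      · rename_i i
        simp only [mul_s, mul_j, L, Y, sub_zero, zero_add]
        linear_combination (-S k.s) * hjj
      · simp [L, Y]
      · simp [L, Y]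
    · refine R_pow_le k 6 ?_
      rw [six1 k hj]
      set g := L 0 (fun i => -(S k.t + k.r) * k.j * i) (fun i => -S k.s * k.j * i)
      refine ⟨(fun i => -S k.s * (g • b - b).2.2 i, 0, 0), ?_⟩
      refine Bext (fun i => by simp [g, L, Y]) (fun i => by simp [g, L, Y]) (fun i => ?_)
      generalize g • b - b = c
      simp only [Prod.snd_sub, Pi.sub_apply, sm3, Y, sub_zero, Pi.zero_apply]
      linear_combination (-c.2.2 i) * sqne _ hS

def dl (i : Z) (c : Z) : Z → Z := fun l => if l = i then c else 0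

lemma S_dl (i c : Z) : S (dl i c) = c := by
  have e1 : (0 : Z) ≠ 1 := by decide
  have e2 : (0 : Z) ≠ 2 := by decide
  have e3 : (1 : Z) ≠ 2 := by decide
  rcases cases3 i with rfl | rfl | rfl <;> simp [S, dl, e1, e2, e3, e1.symm, e2.symm, e3.symm]

lemma comm0 (k : K) (hj : k.j = 0) (t s : Z → Z) (hs : S s = -1) :
    L 0 t s * k = k ^ 7 * L 0 t s := by
  rw [pow_succ, six0 k hj]
  ext
  · simp [L, Y]
  · simp only [mul_r, mul_t, mul_j, mul_S, Y_S, L, hs, hj]
    simp only [Y, sub_zero, add_zero]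
    ring
  · simp [L, Y, hj, add_comm]
  · simp [L, Y]
  · simp [L, Y]

lemma main0 (k : K) (hj : k.j = 0) (b : B) :
    ∃ g : K, g * k = k ^ 7 * g ∧ g • b - b ∈ R B k := by
  by_cases h1 : ∃ i, k.e i ≠ 1 ∨ k.s i ≠ 0 ∨ k.t (i + 1) - k.t (i + 2) ≠ 0 ∨ b.1 i = 0
  · obtain ⟨i, hi⟩ := h1
    refine ⟨L 0 (fun _ => 0) (dl i (-1)), comm0 k hj _ _ (S_dl _ _), ?_⟩
    have hg : L 0 (fun _ => 0) (dl i (-1)) • b - b = (0, 0, dl i (-b.1 i)) := by
      refine Bext (fun l => by simp [L]) (fun l => by simp [L]) (fun l => ?_)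
      by_cases hl : l = i <;> simp [L, dl, hl]
    rw [hg]
    by_cases he : k.e i = 1
    · rcases hi with hi | hi | hi | hi
      · exact absurd he hi
      · refine ⟨(dl i (-b.1 i * k.s i), 0, 0), Bext (fun l => ?_) (fun l => by simp) (fun l => ?_)⟩
        · by_cases hl : l = i <;> simp [dl, hl, hj, he]
        · by_cases hl : l = i <;> simp [dl, hl, hj, he]
          linear_combination (-b.1 i) * sqne _ hi
      · refine ⟨(0, dl i (-b.1 i * (k.t (i + 1) - k.t (i + 2))), 0),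
          Bext (fun l => by simp) (fun l => ?_) (fun l => ?_)⟩
        · by_cases hl : l = i <;> simp [dl, hl, hj, he]
        · by_cases hl : l = i <;> simp [dl, hl, hj, he]
          linear_combination (-b.1 i) * sqne _ hi
      · refine ⟨0, Bext (fun l => by simp) (fun l => by simp) (fun l => by simp [dl, hi])⟩
    · have h2 : ∀ a : Z, a * a = 1 → a ≠ 1 → a = 2 := by decide
      have h4 := h2 _ (k.he i) he
      refine ⟨(0, 0, dl i (-b.1 i)), Bext (fun l => by simp) (fun l => by simp) (fun l => ?_)⟩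
      by_cases hl : l = i <;> simp [dl, hl, hj, h4]
      ring
  · push Not at h1
    have ha : ∀ i, b.1 i * b.1 i = 1 := fun i => sqne _ (h1 i).2.2.2
    by_cases h2 : b.1 0 * b.2.1 0 = b.1 1 * b.2.1 1 ∧ b.1 1 * b.2.1 1 = b.1 2 * b.2.1 2
    · have hy : ∀ i, b.1 i * b.2.1 i = b.1 0 * b.2.1 0 := fun i => by
        rcases cases3 i with rfl | rfl | rfl
        exacts [rfl, h2.1.symm, (h2.1.trans h2.2).symm]
      have ht : ∀ i, k.t (i - 2) = k.t i := fun i => by
        have := (h1 (i - 2)).2.2.1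
        have e1 : i - 2 + 1 = i - 1 := by ring
        have := (h1 (i - 1)).2.2.1
        have e2 : i - 1 + 1 = i := by ring
        have e3 : i - 1 + 2 = i - 2 := by linear_combination h3
        rw [e2, e3] at this
        linear_combination -this
      let s : Z → Z := fun i => b.1 i * b.2.2 i - b.1 (i - 2) * b.2.2 (i - 2)
      have hs : S s = 0 := by
        have := S_shift (fun i => b.1 i * b.2.2 i) 2
        simp only [S, s] at this ⊢
        linear_combination -this
      refine ⟨⟨0, fun _ => 0, s, fun i => b.1 i * b.1 (i - 2), 2, fun i => by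
        linear_combination (b.1 (i - 2) * b.1 (i - 2)) * ha i + ha (i - 2)⟩, ?_, ?_⟩
      · rw [pow_succ, six0 k hj]
        ext
        · simp [Y]
        · simp only [mul_r, mul_t, mul_j, mul_S, Y_S, hs, hj, ht]
          simp only [Y, sub_zero, add_zero]
          linear_combination k.r * h3
        · simp [Y, hj, (h1 _).2.1]
        · simp [Y, hj, (h1 _).1]
        · simp [Y, hj]
      · refine ⟨0, Bext (fun l => ?_) (fun l => ?_) (fun l => ?_)⟩
        · simp only [Prod.fst_sub, Pi.sub_apply, sm1, Prod.fst_zero, Pi.zero_apply]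
          linear_combination b.1 l * ha (l - 2)
        · simp only [Prod.snd_sub, Prod.fst_sub, Pi.sub_apply, sm2, Prod.fst_zero, Prod.snd_zero,
            Pi.zero_apply]
          linear_combination b.1 l * (hy (l - 2) - hy l) + b.2.1 l * ha l
        · simp only [Prod.snd_sub, Pi.sub_apply, sm3, Prod.fst_zero, Prod.snd_zero,
            Pi.zero_apply, s]
          linear_combination (b.1 l * b.1 l * b.2.2 l - b.1 l * b.1 (l - 2) * b.2.2 (l - 2)) *
            ha (l - 2) + b.2.2 l * ha l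
    · have key : ∀ y0 y1 y2 : Z, ¬ (y0 = y1 ∧ y1 = y2) → ∃ t0 t1 t2 : Z,
          y0 * (t1 - t2) + y1 * (t2 - t0) + y2 * (t0 - t1) = 1 := by decide
      obtain ⟨t0, t1, t2, ht⟩ := key _ _ _ h2
      let t : Z → Z := fun i => if i = 0 then t0 else if i = 1 then t1 else t2
      let s : Z → Z := fun i => -(b.1 i * b.2.1 i) * (t (i + 1) - t (i + 2))
      have hs : S s = -1 := by
        have e1 : t (0 + 1) = t1 := rfl
        have e2 : t (0 + 2) = t2 := rfl
        have e3 : t (1 + 1) = t2 := rfl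
        have e4 : t (1 + 2) = t0 := rfl
        have e5 : t (2 + 1) = t0 := rfl
        have e6 : t (2 + 2) = t1 := rfl
        simp only [S, s, e1, e2, e3, e4, e5, e6]
        linear_combination -ht
      refine ⟨L 0 t s, comm0 k hj _ _ hs, 0, Bext (fun l => by simp [L]) (fun l => by simp [L])
        (fun l => ?_)⟩
      simp only [Prod.snd_sub, Pi.sub_apply, sm3, Prod.fst_zero, Prod.snd_zero,
            Pi.zero_apply, s, L, sub_zero]
      linear_combination (-(b.2.1 l) * (t (l + 1) - t (l + 2))) * ha l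

abbrev G := SD K B

lemma cut (x y : G) (h : Subgroup.zpowers y = Subgroup.zpowers x) : IsConj y x ∨ IsConj y x⁻¹ := by
  refine cut_of (fun x => cube_of_k B3 x 18 (pow18 _)) (fun x => ?_) x y h
  obtain ⟨g, h1, h2⟩ : ∃ g : K, g * x.k = x.k ^ 7 * g ∧ g • x.b - x.b ∈ R B x.k := by
    by_cases hj : x.k.j = 0
    · exact main0 _ hj _
    · exact main1 _ hj _
  exact conj7 B3 x (pow18 _) g h1 h2

def P : Subgroup G where
  carrier := {x | ∀ i, x.k.e i = 1}
  one_mem' := fun _ => rfl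
  mul_mem' := by intro x y hx hy i; simp [hx _, hy _]
  inv_mem' := by intro x hx i; simp [inv_e, hx _]

lemma P_p : IsPGroup 3 P := by
  rintro ⟨x, hx⟩
  refine ⟨3, Subtype.ext ?_⟩
  have hx' : ∀ i, x.k.e i = 1 := hx
  have : x.k ^ 9 = 1 := by
    rw [show 9 = 3 * 3 by norm_num, pow_mul]
    by_cases hj : x.k.j = 0
    · have : E x.k.e x.k.he = 1 := by ext <;> simp [E, hx']
      rw [cube0 _ hj, this, mul_one, Y_cube]
    · rw [cube1 _ hj]
      have : ∀ h, E (fun _ => x.k.e 0 * x.k.e 1 * x.k.e 2) h = 1 := fun h => by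
        ext <;> simp [E, hx']
      rw [this, mul_one, Y_cube]
  exact cube_of_k B3 x 9 this

lemma sylow_le (Q : Sylow 3 G) (hQ : P ≤ Q) : (Q : Subgroup G) ≤ P := by
  intro q hq
  let u : G := ⟨0, E q.k.e q.k.he⟩
  have h1 : u * q ∈ P := fun i => by simp [u, E, q.k.he]
  have h2 : u ∈ (Q : Subgroup G) := by
    have := mul_mem (hQ h1) (inv_mem hq)
    simpa using this
  have h3 : u * u = 1 := by
    ext <;> simp [u, E, q.k.he]
  obtain ⟨n, hn⟩ := Q.isPGroup' ⟨u, h2⟩
  have h4 : u ^ 3 ^ n = 1 := congrArg Subtype.val hn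
  obtain ⟨m, hm⟩ : Odd (3 ^ n) := Odd.pow (by decide)
  rw [hm, pow_succ, pow_mul, pow_two, h3, one_pow, one_mul] at h4
  intro i
  exact congrArg (fun z : G => z.k.e i) h4

def x0 : G := ⟨(fun i => if i = 2 then 2 else 1, 0, 0), L 1 (fun _ => 0) (fun _ => 0)⟩

lemma x0_mem : x0 ∈ P := fun _ => rfl

lemma not_conj (g : G) (hg : g ∈ P) : g * x0 ^ 7 ≠ x0 * g ∧ g * x0 ^ 7 ≠ x0⁻¹ * g := by
  have hg' : ∀ i, g.k.e i = 1 := hg
  have hk : (x0 ^ 7).k = Y (-1) 0 * x0.k := by rw [pow_k, pow_succ, six0 _ rfl]; rfl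
  have hb : (x0 ^ 7).b = x0.b := by
    have h1 : x0.k • x0.b = x0.b :=
      Bext (fun i => by simp [x0, L]) (fun i => by simp [x0, L]) (fun i => by simp [x0, L])
    have h2 : ∀ n : ℕ, x0.k ^ n • x0.b = x0.b := fun n => by
      induction n with
      | zero => simp
      | succ n ih => rw [pow_succ, mul_smul, h1, ih]
    rw [pow_b]
    simp only [h2, Finset.sum_const, Finset.card_range]
    have : 7 • x0.b = x0.b + 2 • (3 • x0.b) := by abel
    rw [this, B3]; simp
  constructor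
  · intro h
    have h1 := congrArg (fun z : G => z.b.1 2) h
    have h2 := fun i => congrArg (fun z : G => z.b.2.2 i) h
    have h3' := congrArg (fun z : G => z.k.t 0) h
    simp only [mul_b, mul_k, hb, hk] at h1 h2 h3'
    simp [x0, L, hg'] at h1 h2
    have hj : g.k.j = 0 := by
      have : ∀ j a : Z, a + (if 2 - j = 2 then 2 else 1) = 2 + a → j = 0 := by decide
      exact this _ _ (by simpa using h1)
    have hs : ∀ i, g.k.s i = 0 := fun i => by
      have := h2 i
      rw [hj] at this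
      have h5 : ∀ i a : Z, (if i = 2 then a * 2 else a) = 0 → a = 0 := by decide
      exact h5 i _ (by simpa using this)
    simp [x0, L, Y, hj, hs, S] at h3'
    have h6 : ∀ a r : Z, ¬ (a + -1 - r * (r + 1) = a - r * (1 + r)) := by decide
    exact h6 (g.k.t 0) g.k.r (by linear_combination h3')
  · intro h
    have h1 := congrArg (fun z : G => z.k.r) h
    simp only [mul_k, hk, mul_r, inv_k, inv_r] at h1
    simp [x0, L, Y] at h1
    have h6 : ∀ r : Z, ¬ (r + 1 = -1 + r) := by decide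
    exact h6 _ (by linear_combination h1)

lemma x0_pow : (x0 ^ 7) ^ 31 = x0 := by
  have : x0 ^ 54 = 1 := cube_of_k B3 x0 18 (pow18 _)
  rw [← pow_mul, show 7 * 31 = 54 * 4 + 1 by norm_num, pow_succ, pow_mul, this]; simp

end Pool.Agent.H76.CutK
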