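import Mathlib

set_option autoImplicit false

namespace Pool.Agent.H76.CutSD

/-- split extension of an additive group by a group -/
@[ext] structure SD (K B : Type) where
  b : B
  k : K

variable {K B : Type} [Group K] [AddCommGroup B] [DistribMulAction K B]

instance : Mul (SD K B) := ⟨fun x y => ⟨x.b + x.k • y.b, x.k * y.k⟩⟩
instance : One (SD K B) := ⟨⟨0, 1⟩⟩
instance : Inv (SD K B) := ⟨fun x => ⟨-(x.k⁻¹ • x.b), x.k⁻¹⟩⟩

@[simp] lemma mul_b (x y : SD K B) : (x * y).b = x.b + x.k • y.b := rfl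
@[simp] lemma mul_k (x y : SD K B) : (x * y).k = x.k * y.k := rfl
@[simp] lemma one_b : (1 : SD K B).b = 0 := rfl
@[simp] lemma one_k : (1 : SD K B).k = 1 := rfl
@[simp] lemma inv_b (x : SD K B) : (x⁻¹).b = -(x.k⁻¹ • x.b) := rfl
@[simp] lemma inv_k (x : SD K B) : (x⁻¹).k = x.k⁻¹ := rfl

instance : Group (SD K B) := Group.ofLeftAxioms
  (fun x y z => by ext <;> simp [mul_smul, add_assoc, mul_assoc])
  (fun x => by ext <;> simp) (fun x => by ext <;> simp)

instance [Finite K] [Finite B] : Finite (SD K B) :=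
  Finite.of_injective (fun x : SD K B => (x.b, x.k)) fun x y h => by
    simp only [Prod.mk.injEq] at h; exact SD.ext h.1 h.2

lemma pow_k (x : SD K B) (n : ℕ) : (x ^ n).k = x.k ^ n := by
  induction n with
  | zero => simp
  | succ n ih => rw [pow_succ, pow_succ, mul_k, ih]

lemma pow_b (x : SD K B) (n : ℕ) : (x ^ n).b = ∑ i ∈ Finset.range n, x.k ^ i • x.b := by
  induction n with
  | zero => simp
  | succ n ih => rw [pow_succ, mul_b, ih, pow_k, Finset.sum_range_succ]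

/-- the commutator subspace -/
def R (B : Type) [AddCommGroup B] [DistribMulAction K B] (k : K) : AddSubgroup B where
  carrier := {c | ∃ b, c = k • b - b}
  zero_mem' := ⟨0, by simp⟩
  add_mem' := by rintro _ _ ⟨a, rfl⟩ ⟨b, rfl⟩; exact ⟨a + b, by rw [smul_add]; abel⟩
  neg_mem' := by rintro _ ⟨a, rfl⟩; exact ⟨-a, by rw [smul_neg]; abel⟩

lemma pow_mem_R (k : K) (n : ℕ) (b : B) : k ^ n • b - b ∈ R B k := by
  induction n with
  | zero => simp
  | succ n ih =>
    have : k ^ (n + 1) • b - b = (k • (k ^ n • b) - k ^ n • b) + (k ^ n • b - b) := by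
      rw [pow_succ', mul_smul]; abel
    rw [this]
    exact add_mem ⟨_, rfl⟩ ih

lemma R_pow_le (k : K) (n : ℕ) : R B (k ^ n) ≤ R B k := by
  rintro _ ⟨b, rfl⟩; exact pow_mem_R k n b

lemma cube_of_k (h3 : ∀ b : B, 3 • b = 0) (x : SD K B) (n : ℕ) (h : x.k ^ n = 1) :
    x ^ (n * 3) = 1 := by
  rw [pow_mul]
  have h1 : (x ^ n).k = 1 := by rw [pow_k, h]
  ext
  · rw [pow_b, h1]; simp [h3]
  · rw [pow_k, h1]; simp

lemma conj7 (h3 : ∀ b : B, 3 • b = 0) (x : SD K B) (h18 : x.k ^ 18 = 1) (g : K)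
    (hg : g * x.k = x.k ^ 7 * g) (hb : g • x.b - x.b ∈ R B x.k) : IsConj x (x ^ 7) := by
  have h1 : (x ^ 7).b - x.b ∈ R B x.k := by
    have : (x ^ 7).b - x.b = ∑ i ∈ Finset.range 7, (x.k ^ i • x.b - x.b) := by
      rw [pow_b, Finset.sum_sub_distrib, Finset.sum_const, Finset.card_range]
      have : 7 • x.b = x.b + 2 • (3 • x.b) := by abel
      rw [this, h3]; simp
    rw [this]
    exact sum_mem fun i _ => pow_mem_R _ _ _
  have h2 : R B x.k ≤ R B (x.k ^ 7) := by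
    have : x.k = (x.k ^ 7) ^ 13 := by
      rw [← pow_mul, show 7 * 13 = 18 * 5 + 1 by norm_num, pow_succ, pow_mul, h18]; simp
    conv_lhs => rw [this]
    exact R_pow_le _ _
  obtain ⟨c, hc⟩ := h2 (sub_mem hb h1)
  rw [isConj_iff]
  refine ⟨⟨c, g⟩, ?_⟩
  rw [mul_inv_eq_iff_eq_mul]
  ext
  · simp only [mul_b, pow_k]
    have : g • x.b = (x ^ 7).b + (x.k ^ 7 • c - c) := by rw [← hc]; abel
    rw [this]; abel
  · simp [pow_k, hg]

lemma cut_of {G : Type} [Group G] (h54 : ∀ x : G, x ^ 54 = 1) (h7 : ∀ x : G, IsConj x (x ^ 7))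
    (x y : G) (h : Subgroup.zpowers y = Subgroup.zpowers x) : IsConj y x ∨ IsConj y x⁻¹ := by
  have hf : ∀ z : G, IsOfFinOrder z := fun z =>
    isOfFinOrder_iff_pow_eq_one.2 ⟨54, by norm_num, h54 z⟩
  have hy : y ∈ Subgroup.zpowers x := h ▸ Subgroup.mem_zpowers y
  have hx : x ∈ Subgroup.zpowers y := h ▸ Subgroup.mem_zpowers x
  rw [← (hf x).mem_powers_iff_mem_zpowers] at hy
  rw [← (hf y).mem_powers_iff_mem_zpowers] at hx
  obtain ⟨m, rfl⟩ := hy
  obtain ⟨n, hn⟩ := hx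
  have h1 : m * n ≡ 1 [MOD orderOf x] := by
    rw [← pow_eq_pow_iff_modEq, pow_mul, pow_one]; exact hn
  have hd : orderOf x ∣ 54 := orderOf_dvd_of_pow_eq_one (h54 x)
  have h2 : (m % 54) ≡ m [MOD orderOf x] := (Nat.mod_modEq m 54).of_dvd hd
  have h3 : Nat.Coprime (m % 54) (orderOf x) :=
    Nat.coprime_of_mul_modEq_one n ((h2.mul_right n).trans h1)
  have key : ∀ d < 55, d ∣ 54 → ∀ r < 54, Nat.Coprime r d →
      ∃ i < 9, r ≡ 7 ^ i [MOD d] ∨ r + 7 ^ i ≡ 0 [MOD d] := by decide +kernel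
  obtain ⟨i, -, hi⟩ := key _ (by have := Nat.le_of_dvd (by norm_num) hd; omega) hd _
    (Nat.mod_lt _ (by norm_num)) h3
  have h4 : ∀ i : ℕ, ∀ z : G, IsConj z (z ^ 7 ^ i) := by
    intro i
    induction i with
    | zero => intro z; rw [pow_zero, pow_one]
    | succ i ih => intro z; rw [pow_succ, pow_mul]; exact (ih z).trans (h7 _)
  have h5 : x ^ m = x ^ (m % 54) := pow_eq_pow_iff_modEq.2 h2.symm
  rcases hi with hi | hi
  · left
    change IsConj (x ^ m) x
    rw [h5, pow_eq_pow_iff_modEq.2 hi]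
    exact (h4 i x).symm
  · right
    change IsConj (x ^ m) x⁻¹
    have : x ^ (m % 54) = x⁻¹ ^ 7 ^ i := by
      have := pow_eq_pow_iff_modEq.2 hi
      rw [pow_add, pow_zero] at this
      rw [inv_pow]; exact eq_inv_of_mul_eq_one_left this
    rw [h5, this]
    exact (h4 i _).symm

end Pool.Agent.H76.CutSD
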