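import Mathlib

namespace Pool.Agent.H76.Fab
open PowerSeries Filter Topology Finset
open scoped PowerSeries.WithPiTopology

noncomputable def z (ω : ℂ) (i : ℕ) : ℂ := if Odd i then ω else 0
noncomputable def ff (ω : ℂ) (i j : ℕ) : ℂ := z ω i ^ j
noncomputable def g (ω : ℂ) (i : ℕ) : ℂ⟦X⟧ :=
  1 + ∑' j, ff ω (i + 1) (j + 1) • (X : ℂ⟦X⟧) ^ ((i + 1) * (j + 1))
noncomputable def c (ω : ℂ) (n : ℕ) : ℂ := coeff n (Nat.Partition.genFun (ff ω))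
noncomputable def t (ω : ℂ) (k : ℕ) (q : ℂ) : ℂ :=
  (ω * q) ^ (k + 1) / ((k + 1) * (1 - q ^ (2 * (k + 1))))

noncomputable def uu (ω q : ℂ) (p : ℕ × ℕ) : ℂ :=
  (z ω (p.1 + 1) * q ^ (p.1 + 1)) ^ (p.2 + 1) / (p.2 + 1)

end Pool.Agent.H76.Fab
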