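import Pool.Agent.H76.Fab0

namespace Pool.Agent.H76.Fab
open PowerSeries Filter Topology Finset
open scoped PowerSeries.WithPiTopology

lemma coeff_g_sum (ω : ℂ) (i n : ℕ) :
    HasSum (fun j => if n = (i + 1) * (j + 1) then z ω (i + 1) ^ (j + 1) else 0)
      (coeff n (g ω i) - if n = 0 then 1 else 0) := by
  have h := (Nat.Partition.summable_genFun_term (ff ω) i).hasSum.map (coeff (R := ℂ) n)
    (PowerSeries.WithPiTopology.continuous_coeff ℂ n)
  have e : (coeff n (g ω i) - if n = 0 then 1 else 0) =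
      coeff n (∑' j, ff ω (i + 1) (j + 1) • (X : ℂ⟦X⟧) ^ ((i + 1) * (j + 1))) := by
    simp [g, coeff_one]
  rw [e]
  convert h using 2 with j
  simp [ff, coeff_X_pow]

lemma coeff_g_mul (ω : ℂ) (i j : ℕ) : coeff ((i + 1) * j) (g ω i) = z ω (i + 1) ^ j := by
  have h := coeff_g_sum ω i ((i + 1) * j)
  rcases j with _ | j
  · have h2 : HasSum (fun j => if (i + 1) * 0 = (i + 1) * (j + 1) then z ω (i + 1) ^ (j + 1) else 0) 0 := by
      convert hasSum_zero with j
      rw [if_neg]; positivity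
    have := h.unique h2
    simpa [sub_eq_zero] using this
  · have h2 := hasSum_single (f := fun j' => if (i + 1) * (j + 1) = (i + 1) * (j' + 1) then
      z ω (i + 1) ^ (j' + 1) else 0) j (fun b hb => by
        rw [if_neg]; intro hh; apply hb; have := Nat.eq_of_mul_eq_mul_left (Nat.succ_pos i) hh; omega)
    have := h.unique h2
    simpa using this

lemma coeff_g_zero (ω : ℂ) (i n : ℕ) (hn : n ∉ Set.range (fun j => (i + 1) * j)) :
    coeff n (g ω i) = 0 := by
  have h := coeff_g_sum ω i n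
  have h2 : HasSum (fun j => if n = (i + 1) * (j + 1) then z ω (i + 1) ^ (j + 1) else 0) 0 := by
    convert hasSum_zero with j
    rw [if_neg]; intro hh; exact hn ⟨j + 1, hh.symm⟩
  have := h.unique h2
  rw [if_neg (fun h0 => hn ⟨0, by simp [h0]⟩)] at this
  simpa using this

def Ev (A : ℂ⟦X⟧) (q a : ℂ) (α : ℝ) : Prop :=
  Summable (fun n => ‖coeff n A * q ^ n‖) ∧ (∑' n, coeff n A * q ^ n = a) ∧
    ∑' n, ‖coeff n A * q ^ n‖ ≤ α

lemma Ev.mul {A B : ℂ⟦X⟧} {q a b : ℂ} {α β : ℝ} (hA : Ev A q a α) (hB : Ev B q b β) :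
    Ev (A * B) q (a * b) (α * β) := by
  obtain ⟨a1, a2, a3⟩ := hA
  obtain ⟨b1, b2, b3⟩ := hB
  have e : ∀ n, coeff n (A * B) * q ^ n =
      ∑ p ∈ antidiagonal n, (coeff p.1 A * q ^ p.1) * (coeff p.2 B * q ^ p.2) := by
    intro n
    rw [coeff_mul, Finset.sum_mul]
    refine Finset.sum_congr rfl fun p hp => ?_
    rw [← mem_antidiagonal.mp hp, pow_add]; ring
  have s1 := summable_norm_sum_mul_antidiagonal_of_summable_norm a1 b1
  refine ⟨by simpa only [e] using s1, ?_, ?_⟩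
  · simp only [e]
    rw [← tsum_mul_tsum_eq_tsum_sum_antidiagonal_of_summable_norm a1 b1, a2, b2]
  · have a1' : Summable (fun n => ‖‖coeff n A * q ^ n‖‖) := by simpa only [norm_norm] using a1
    have b1' : Summable (fun n => ‖‖coeff n B * q ^ n‖‖) := by simpa only [norm_norm] using b1
    have s2 := (summable_norm_sum_mul_antidiagonal_of_summable_norm a1' b1').of_norm
    calc ∑' n, ‖coeff n (A * B) * q ^ n‖
        ≤ ∑' n, ∑ p ∈ antidiagonal n, ‖coeff p.1 A * q ^ p.1‖ * ‖coeff p.2 B * q ^ p.2‖ := by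
          simp only [e]
          refine s1.tsum_le_tsum (fun n => ?_) s2
          refine (norm_sum_le _ _).trans (le_of_eq ?_)
          exact Finset.sum_congr rfl fun p _ => norm_mul _ _
      _ = (∑' n, ‖coeff n A * q ^ n‖) * ∑' n, ‖coeff n B * q ^ n‖ :=
          (tsum_mul_tsum_eq_tsum_sum_antidiagonal_of_summable_norm a1' b1').symm
      _ ≤ α * β := mul_le_mul a3 b3 (tsum_nonneg fun _ => norm_nonneg _)
          ((tsum_nonneg fun _ => norm_nonneg _).trans a3)

lemma nz {ω : ℂ} (hω : ‖ω‖ = 1) (q : ℂ) (i : ℕ) : ‖z ω (i + 1) * q ^ (i + 1)‖ ≤ ‖q‖ ^ (i + 1) := by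
  rw [norm_mul, norm_pow]
  refine mul_le_of_le_one_left (by positivity) ?_
  unfold z; split_ifs <;> simp [hω]

lemma ev_g {ω q : ℂ} (hω : ‖ω‖ = 1) (hq : ‖q‖ < 1) (i : ℕ) :
    Ev (g ω i) q (Complex.exp (-Complex.log (1 - z ω (i + 1) * q ^ (i + 1))))
      (Real.exp (‖q‖ ^ i / (1 - ‖q‖))) := by
  set w := z ω (i + 1) * q ^ (i + 1) with hw
  have h0 := norm_nonneg q
  have hw1 : ‖w‖ ≤ ‖q‖ ^ (i + 1) := nz hω q i
  have hw2 : ‖w‖ ≤ ‖q‖ := hw1.trans (pow_le_of_le_one h0 hq.le (by omega))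
  have hw3 : ‖w‖ ≤ ‖q‖ ^ i := hw1.trans (pow_le_pow_of_le_one h0 hq.le (by omega))
  have hw4 : ‖w‖ < 1 := hw2.trans_lt hq
  have inj : Function.Injective (fun j => (i + 1) * j) := fun a b h =>
    Nat.eq_of_mul_eq_mul_left (Nat.succ_pos i) h
  have e : ∀ j, coeff ((i + 1) * j) (g ω i) * q ^ ((i + 1) * j) = w ^ j := by
    intro j; rw [coeff_g_mul, hw, mul_pow, pow_mul]
  have s1 : HasSum (fun n => coeff n (g ω i) * q ^ n) (1 - w)⁻¹ := by
    rw [← inj.hasSum_iff (fun n hn => by rw [coeff_g_zero ω i n hn, zero_mul])]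
    have e' : ((fun n => coeff n (g ω i) * q ^ n) ∘ fun j => (i + 1) * j) = fun j => w ^ j :=
      funext e
    rw [e']; exact hasSum_geometric_of_norm_lt_one hw4
  have s2 : HasSum (fun n => ‖coeff n (g ω i) * q ^ n‖) (1 - ‖w‖)⁻¹ := by
    rw [← inj.hasSum_iff (fun n hn => by rw [coeff_g_zero ω i n hn, zero_mul, norm_zero])]
    convert hasSum_geometric_of_lt_one (norm_nonneg w) hw4 using 1
    funext j; simp only [Function.comp]; rw [e j, norm_pow]
  have hne : 1 - w ≠ 0 := by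
    intro h; have : w = 1 := by linear_combination -h
    rw [this] at hw4; simp at hw4
  refine ⟨s2.summable, ?_, ?_⟩
  · rw [s1.tsum_eq, Complex.exp_neg, Complex.exp_log hne]
  · rw [s2.tsum_eq]
    have h1 : (1 - ‖w‖)⁻¹ = ‖w‖ / (1 - ‖w‖) + 1 := by
      have : 1 - ‖w‖ ≠ 0 := by linarith
      field_simp; ring
    rw [h1]
    refine le_trans ?_ (Real.add_one_le_exp _)
    have : ‖w‖ / (1 - ‖w‖) ≤ ‖q‖ ^ i / (1 - ‖q‖) :=
      div_le_div₀ (by positivity) hw3 (by linarith) (by linarith)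
    linarith

lemma ev_prod {ω q : ℂ} (hω : ‖ω‖ = 1) (hq : ‖q‖ < 1) (M : ℕ) :
    Ev (∏ i ∈ range M, g ω i) q
      (Complex.exp (∑ i ∈ range M, -Complex.log (1 - z ω (i + 1) * q ^ (i + 1))))
      (Real.exp (∑ i ∈ range M, ‖q‖ ^ i / (1 - ‖q‖))) := by
  induction M with
  | zero =>
    have s1 : HasSum (fun n => coeff n (1 : ℂ⟦X⟧) * q ^ n) 1 := by
      convert hasSum_single (f := fun n => coeff n (1 : ℂ⟦X⟧) * q ^ n) 0
        (fun b hb => by simp [coeff_one, hb]) using 1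
      simp
    have s2 : HasSum (fun n => ‖coeff n (1 : ℂ⟦X⟧) * q ^ n‖) 1 := by
      convert hasSum_single (f := fun n => ‖coeff n (1 : ℂ⟦X⟧) * q ^ n‖) 0
        (fun b hb => by simp [coeff_one, hb]) using 1
      simp
    simp only [range_zero, prod_empty, sum_empty, Complex.exp_zero, Real.exp_zero]
    exact ⟨s2.summable, s1.tsum_eq, s2.tsum_eq.le⟩
  | succ M ih =>
    rw [prod_range_succ, sum_range_succ, sum_range_succ, Complex.exp_add, Real.exp_add]
    exact ih.mul (ev_g hω hq M)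

lemma double {ω q : ℂ} (hω : ‖ω‖ = 1) (hq : ‖q‖ < 1) :
    ∃ S, HasSum (fun i => -Complex.log (1 - z ω (i + 1) * q ^ (i + 1))) S ∧
      HasSum (fun k => t ω k q) S := by
  have h0 := norm_nonneg q
  have hg := summable_geometric_of_lt_one h0 hq
  have hs : Summable (uu ω q) := by
    refine Summable.of_norm_bounded (hg.mul_of_nonneg hg (fun _ => by positivity)
      (fun _ => by positivity)) ?_
    rintro ⟨i, k⟩
    simp only [uu, norm_div, norm_pow]
    have h1 : (1 : ℝ) ≤ ‖(k : ℂ) + 1‖ := by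
      have : ((k : ℂ) + 1) = ((k + 1 : ℕ) : ℂ) := by push_cast; ring
      rw [this, Complex.norm_natCast]; exact_mod_cast Nat.succ_pos k
    refine (div_le_self (by positivity) h1).trans ?_
    refine (pow_le_pow_left₀ (norm_nonneg _) (nz hω q i) _).trans ?_
    rw [← pow_mul, ← pow_add]
    exact pow_le_pow_of_le_one h0 hq.le (by nlinarith)
  obtain ⟨S, hS⟩ := hs
  have k1 : ∀ i : ℕ, HasSum (fun k => uu ω q (i, k))
      (-Complex.log (1 - z ω (i + 1) * q ^ (i + 1))) := by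
    intro i
    have hw : ‖z ω (i + 1) * q ^ (i + 1)‖ < 1 :=
      (nz hω q i).trans_lt (pow_lt_one₀ h0 hq (Nat.succ_ne_zero i))
    have := Complex.hasSum_taylorSeries_neg_log' hw
    simp only [uu]
    exact this
  have k2 : ∀ k : ℕ, HasSum (fun i => uu ω q (i, k)) (t ω k q) := by
    intro k
    have hv : ‖q ^ (2 * (k + 1))‖ < 1 := by rw [norm_pow]; exact pow_lt_one₀ h0 hq (by omega)
    have h3 := (hasSum_geometric_of_norm_lt_one hv).mul_left ((ω * q) ^ (k + 1) / (k + 1))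
    have h4 : HasSum (fun i => uu ω q (i, k))
        ((ω * q) ^ (k + 1) / (k + 1) * (1 - q ^ (2 * (k + 1)))⁻¹ + 0) := by
      refine HasSum.even_add_odd ?_ ?_
      · have e : (fun m => uu ω q (2 * m, k)) =
            fun m => (ω * q) ^ (k + 1) / (k + 1) * (q ^ (2 * (k + 1))) ^ m := by
          funext m
          have : Odd (2 * m + 1) := ⟨m, rfl⟩
          simp only [uu, z, if_pos this]; ring
        rw [e]; exact h3
      · have e : (fun m => uu ω q (2 * m + 1, k)) = fun _ => 0 := by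
          funext m
          have : ¬ Odd (2 * m + 1 + 1) := by rw [Nat.not_odd_iff_even]; exact ⟨m + 1, by ring⟩
          simp only [uu, z, if_neg this]; simp
        rw [e]; exact hasSum_zero
    have e : t ω k q = (ω * q) ^ (k + 1) / (k + 1) * (1 - q ^ (2 * (k + 1)))⁻¹ + 0 := by
      simp only [t, add_zero]; rw [div_mul_eq_div_div, div_eq_mul_inv]
    rw [e]; exact h4
  have h2 : HasSum (fun p : ℕ × ℕ => uu ω q (p.2, p.1)) S :=
    (Equiv.prodComm ℕ ℕ).hasSum_iff.mpr hS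
  exact ⟨S, HasSum.prod_fiberwise (f := uu ω q) hS k1,
    HasSum.prod_fiberwise (f := fun p : ℕ × ℕ => uu ω q (p.2, p.1)) h2 k2⟩

theorem gen {ω q : ℂ} (hω : ‖ω‖ = 1) (hq : ‖q‖ < 1) :
    Summable (fun n => ‖c ω n * q ^ n‖) ∧ Summable (fun k => t ω k q) ∧
      ∑' n, c ω n * q ^ n = Complex.exp (∑' k, t ω k q) := by
  have h0 := norm_nonneg q
  obtain ⟨S, s1, s2⟩ := double hω hq
  set y : ℝ := (1 + ‖q‖) / 2 with hy
  have y0 : 0 < y := by positivity
  have y1 : y < 1 := by linarith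
  have yq : ‖q‖ / y < 1 := by rw [div_lt_one y0]; linarith
  have ny : ‖(y : ℂ)‖ = y := by rw [Complex.norm_real, Real.norm_of_nonneg y0.le]
  set K := Real.exp ((1 - y)⁻¹ / (1 - y))
  have hb : ∀ M n, ‖coeff n (∏ i ∈ range M, g ω i) * q ^ n‖ ≤ K * (‖q‖ / y) ^ n := by
    intro M n
    obtain ⟨e1, -, e3⟩ := ev_prod hω (q := y) (by rw [ny]; exact y1) M
    have h1 := (e1.le_tsum n (fun _ _ => norm_nonneg _)).trans e3
    have h2 : Real.exp (∑ i ∈ range M, ‖(y : ℂ)‖ ^ i / (1 - ‖(y : ℂ)‖)) ≤ K := by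
      rw [ny, ← Finset.sum_div]
      refine Real.exp_le_exp.mpr (div_le_div_of_nonneg_right ?_ (by linarith))
      exact sum_le_hasSum _ (fun _ _ => by positivity) (hasSum_geometric_of_lt_one y0.le y1)
    have h3 := h1.trans h2
    rw [norm_mul, norm_pow, ny] at h3
    rw [norm_mul, norm_pow]
    calc _ = ‖coeff n (∏ i ∈ range M, g ω i)‖ * y ^ n * (‖q‖ / y) ^ n := by
          rw [mul_assoc, ← mul_pow, mul_div_cancel₀ _ y0.ne']
      _ ≤ _ := mul_le_mul_of_nonneg_right h3 (by positivity)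
  have hl : ∀ n, Tendsto (fun M => coeff n (∏ i ∈ range M, g ω i) * q ^ n) atTop
      (𝓝 (c ω n * q ^ n)) := fun n =>
    (((PowerSeries.WithPiTopology.continuous_coeff ℂ n).tendsto _).comp
      (Nat.Partition.hasProd_genFun (ff ω)).tendsto_prod_nat).mul_const _
  have hK := (summable_geometric_of_lt_one (by positivity) yq).mul_left K
  refine ⟨Summable.of_nonneg_of_le (fun _ => norm_nonneg _)
    (fun n => le_of_tendsto' (hl n).norm (fun M => hb M n)) hK, s2.summable, ?_⟩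
  have t1 := tendsto_tsum_of_dominated_convergence hK hl (Eventually.of_forall hb)
  have t2 := (Complex.continuous_exp.tendsto _).comp s1.tendsto_sum_nat
  rw [s2.tsum_eq]
  refine tendsto_nhds_unique t1 (t2.congr fun M => ?_)
  exact (ev_prod hω hq M).2.1.symm

end Pool.Agent.H76.Fab
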