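import Pool.Agent.H76.Fab0

namespace Pool.Agent.H76.Fab
open Filter Topology Finset

lemma nt_le {ω q : ℂ} (hω : ‖ω‖ = 1) {s : ℝ} (hs : 0 < s) (hq : ‖q‖ = Real.exp (-s)) (k : ℕ) :
    s * ‖t ω k q‖ ≤ 1 / (2 * ((k : ℝ) + 1) ^ 2) := by
  set y := Real.exp (-(((k : ℝ) + 1) * s)) with hy
  have hks : 0 < ((k : ℝ) + 1) * s := by positivity
  have e1 : ‖q‖ ^ (k + 1) = y := by rw [hq, ← Real.exp_nat_mul, hy]; congr 1; push_cast; ring
  have y0 : 0 < y := Real.exp_pos _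
  have y1 : y < 1 := (Real.exp_lt_exp.mpr (by linarith : -(((k : ℝ) + 1) * s) < 0)).trans_eq Real.exp_zero
  have h1 : 1 - y ^ 2 ≤ ‖1 - q ^ (2 * (k + 1))‖ := by
    have := norm_sub_norm_le (1 : ℂ) (q ^ (2 * (k + 1)))
    rwa [norm_one, norm_pow, pow_mul', e1] at this
  have h2 : 2 * (((k : ℝ) + 1) * s) * y ≤ 1 - y ^ 2 := by
    have h := Real.self_le_sinh_iff.mpr hks.le
    rw [Real.sinh_eq] at h
    have h3 : Real.exp (((k : ℝ) + 1) * s) * y = 1 := by rw [hy, ← Real.exp_add]; simp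
    rw [← hy] at h
    nlinarith [mul_le_mul_of_nonneg_right h y0.le]
  have hk : ‖((k : ℂ) + 1)‖ = (k : ℝ) + 1 := by
    have : ((k : ℂ) + 1) = ((k + 1 : ℕ) : ℂ) := by push_cast; ring
    rw [this, Complex.norm_natCast]; push_cast; ring
  have hp : 0 < 1 - y ^ 2 := by nlinarith
  have hp2 : 0 < ‖1 - q ^ (2 * (k + 1))‖ := hp.trans_le h1
  rw [t, norm_div, norm_pow, norm_mul, norm_mul, hω, one_mul, e1, hk, ← mul_div_assoc,
    div_le_div_iff₀ (by positivity) (by positivity)]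
  have h5 := mul_le_mul_of_nonneg_left (h2.trans h1) (show (0:ℝ) ≤ (k : ℝ) + 1 by positivity)
  nlinarith

lemma tail {ω q : ℂ} (hω : ‖ω‖ = 1) {s : ℝ} (hs : 0 < s) (hq : ‖q‖ = Real.exp (-s))
    (hsum : Summable fun k => t ω k q) (K : ℕ) :
    |s * (∑' k, t ω k q).re - (∑ k ∈ range K, (s : ℂ) * t ω k q).re| ≤
      0.82247 - ∑ k ∈ range K, 1 / (2 * ((k : ℝ) + 1) ^ 2) := by
  have z2 : HasSum (fun k : ℕ => 1 / (2 * ((k : ℝ) + 1) ^ 2)) (Real.pi ^ 2 / 12) := by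
    have h := ((hasSum_nat_add_iff' 1).mpr hasSum_zeta_two).div_const 2
    have e : (fun k : ℕ => 1 / (2 * ((k : ℝ) + 1) ^ 2)) =
        fun k : ℕ => 1 / ((k + 1 : ℕ) : ℝ) ^ 2 / 2 := by
      funext k; push_cast; field_simp
    have e' : Real.pi ^ 2 / 12 = (Real.pi ^ 2 / 6 - ∑ i ∈ range 1, 1 / (i : ℝ) ^ 2) / 2 := by
      simp; ring
    rw [e, e']; exact h
  have z3 := (hasSum_nat_add_iff' K).mpr z2
  have s1 := (hasSum_nat_add_iff' K).mpr (hsum.hasSum.mul_left (s : ℂ))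
  have h1 := s1.norm_le_of_bounded z3 (fun k => by
    rw [norm_mul, Complex.norm_real, Real.norm_of_nonneg hs.le]; exact nt_le hω hs hq (k + K))
  have h2 := (Complex.abs_re_le_norm _).trans h1
  rw [Complex.sub_re, Complex.re_ofReal_mul] at h2
  have hpi : Real.pi ^ 2 / 12 ≤ 0.82247 := by
    have := Real.pi_lt_d6; have := Real.pi_pos; nlinarith
  linarith

lemma lim_t (ω ε τ : ℂ) (hε : ε ^ 2 = 1) (hτ : τ ≠ 0) (k : ℕ) :
    Tendsto (fun s : ℝ => (s : ℂ) * t ω k (ε * Complex.exp (-(s * τ)))) (𝓝[>] 0)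
      (𝓝 ((ω * ε) ^ (k + 1) / (2 * (k + 1) ^ 2 * τ))) := by
  have hk : ((k : ℂ) + 1) ≠ 0 := by exact_mod_cast Nat.succ_ne_zero k
  set a : ℂ := 2 * (k + 1) * τ with ha
  have a0 : a ≠ 0 := by rw [ha]; exact mul_ne_zero (mul_ne_zero two_ne_zero hk) hτ
  have d1 : HasDerivAt (fun w : ℂ => 1 - Complex.exp (-(w * a))) a 0 := by
    have := (((hasDerivAt_id (0 : ℂ)).mul_const a).neg.cexp).const_sub 1
    simpa using this
  have d2 := d1.tendsto_slope_zero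
  have m1 : Tendsto (fun s : ℝ => (s : ℂ)) (𝓝[>] 0) (𝓝[≠] 0) := by
    refine tendsto_nhdsWithin_iff.mpr ⟨?_, ?_⟩
    · have := (Complex.continuous_ofReal.tendsto 0).mono_left (nhdsWithin_le_nhds (s := Set.Ioi 0))
      simpa using this
    · filter_upwards [self_mem_nhdsWithin] with s hs
      simpa using (ne_of_gt hs)
  have d3 := (d2.comp m1).inv₀ a0
  have c1 : Tendsto (fun s : ℝ => (ω * (ε * Complex.exp (-(s * τ)))) ^ (k + 1) / (k + 1)) (𝓝[>] 0)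
      (𝓝 ((ω * ε) ^ (k + 1) / (k + 1))) := by
    have hc : Continuous (fun s : ℝ => (ω * (ε * Complex.exp (-(s * τ)))) ^ (k + 1) / (k + 1)) := by
      fun_prop
    have := (hc.tendsto 0).mono_left (nhdsWithin_le_nhds (s := Set.Ioi 0))
    simpa using this
  have e : (ω * ε) ^ (k + 1) / (2 * (k + 1) ^ 2 * τ) = (ω * ε) ^ (k + 1) / (k + 1) * a⁻¹ := by
    rw [ha]; field_simp
  rw [e]
  refine (c1.mul d3).congr fun s => ?_
  have e2 : (ε * Complex.exp (-(s * τ))) ^ (2 * (k + 1)) = Complex.exp (-(s * a)) := by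
    rw [mul_pow, pow_mul, hε, one_pow, one_mul, ← Complex.exp_nat_mul, ha]; congr 1; push_cast; ring
  simp only [t, e2, Function.comp, zero_add, zero_mul, neg_zero, Complex.exp_zero, sub_self,
    sub_zero, smul_eq_mul, mul_inv, inv_inv, div_eq_mul_inv]
  ring

lemma lim_t0 (ω ε : ℂ) (hε : ε ^ 2 ≠ 1) :
    Tendsto (fun s : ℝ => (s : ℂ) * t ω 0 (ε * Complex.exp (-(s * 1)))) (𝓝[>] 0) (𝓝 0) := by
  have hc : ContinuousAt (fun s : ℝ => (s : ℂ) * t ω 0 (ε * Complex.exp (-(s * 1)))) 0 := by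
    unfold t
    refine ContinuousAt.mul (by fun_prop) (ContinuousAt.div (by fun_prop) (by fun_prop) ?_)
    simpa [sub_eq_zero] using hε.symm
  have := hc.tendsto.mono_left (nhdsWithin_le_nhds (s := Set.Ioi 0))
  simpa using this

noncomputable def om : ℂ := ⟨-1 / 2, √3 / 2⟩
noncomputable def ta : ℂ := ⟨1, -(4 / 9) * √3⟩

lemma s3 : √3 * √3 = 3 := Real.mul_self_sqrt (by norm_num)
lemma om2 : om ^ 2 = ⟨-1 / 2, -√3 / 2⟩ := by
  apply Complex.ext <;> simp [om, pow_two] <;> nlinarith [s3]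
lemma om3 : om ^ 3 = 1 := by
  rw [pow_succ, om2]; apply Complex.ext <;> simp [om] <;> nlinarith [s3]
lemma nom : ‖om‖ = 1 := by
  have : ‖om‖ ^ 3 = 1 := by rw [← norm_pow, om3, norm_one]
  exact (pow_eq_one_iff_of_nonneg (norm_nonneg _) (by norm_num)).mp this

def rr (j : ℕ) : ℚ :=
  if j % 6 = 0 then 27 / 43 else if j % 6 = 1 then 63 / 86 else if j % 6 = 2 then 9 / 86
  else if j % 6 = 3 then -27 / 43 else if j % 6 = 4 then -63 / 86 else -9 / 86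

lemma inv_ta : ta⁻¹ = ⟨27 / 43, 12 / 43 * √3⟩ := by
  symm; apply eq_inv_of_mul_eq_one_left
  apply Complex.ext <;> simp [ta] <;> nlinarith [s3]

lemma re_rr (j : ℕ) : ((om * -1) ^ j * ta⁻¹).re = rr j := by
  have h3 : (om * -1) ^ 3 = -1 := by rw [mul_pow, om3]; norm_num
  have h6 : (om * -1) ^ 6 = 1 := by rw [show 6 = 3 * 2 by rfl, pow_mul, h3]; norm_num
  have h2 : (om * -1) ^ 2 = ⟨-1 / 2, -√3 / 2⟩ := by rw [mul_pow, om2]; norm_num
  have h4 : (om * -1) ^ 4 = om := by rw [pow_succ, h3]; ring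
  have h5 : (om * -1) ^ 5 = -⟨-1 / 2, -√3 / 2⟩ := by rw [show 5 = 3 + 2 by rfl, pow_add, h3, h2]; ring
  rw [← Nat.div_add_mod j 6, pow_add, pow_mul, h6, one_pow, one_mul, inv_ta]
  have hj : j % 6 < 6 := Nat.mod_lt _ (by norm_num)
  have hr : rr (6 * (j / 6) + j % 6) = rr (j % 6) := by simp [rr]
  rw [hr]
  generalize j % 6 = r at hj
  interval_cases r
  · simp [rr]
  · simp [rr, om]; nlinarith [s3]
  · rw [h2]; simp [rr]; nlinarith [s3]
  · rw [h3]; simp [rr]; norm_num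
  · rw [h4]; simp [rr, om]; nlinarith [s3]
  · rw [h5]; simp [rr]; nlinarith [s3]

lemma numer : (1.1485 : ℚ) ≤ ∑ k ∈ range 100, (rr (k + 1) + 1) / (2 * ((k : ℚ) + 1) ^ 2) := by
  decide +kernel

end Pool.Agent.H76.Fab
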