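import Pool.Agent.H76.Fab1
import Pool.Agent.H76.Fab2

namespace Pool.Agent.H76.Fab
open Filter Topology Finset

lemma nq {ε τ : ℂ} (hε : ‖ε‖ = 1) (hτ : τ.re = 1) (s : ℝ) :
    ‖ε * Complex.exp (-(s * τ))‖ = Real.exp (-s) := by
  rw [norm_mul, hε, one_mul, Complex.norm_exp]; simp [hτ]

lemma elt {s : ℝ} (hs : 0 < s) : Real.exp (-s) < 1 :=
  (Real.exp_lt_exp.mpr (by linarith : -s < 0)).trans_eq Real.exp_zero

lemma tail' {ε τ : ℂ} (hε : ‖ε‖ = 1) (hτ : τ.re = 1) {s : ℝ} (hs : 0 < s) (K : ℕ) :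
    |s * (∑' k, t om k (ε * Complex.exp (-(s * τ)))).re -
      (∑ k ∈ range K, (s : ℂ) * t om k (ε * Complex.exp (-(s * τ)))).re| ≤
      0.82247 - ∑ k ∈ range K, 1 / (2 * ((k : ℝ) + 1) ^ 2) :=
  tail nom hs (nq hε hτ s) (gen nom (by rw [nq hε hτ]; exact elt hs)).2.1 K

lemma lim_sum (ε τ : ℂ) (hε : ε ^ 2 = 1) (hτ : τ ≠ 0) (K : ℕ) :
    Tendsto (fun s : ℝ => (∑ k ∈ range K, (s : ℂ) * t om k (ε * Complex.exp (-(s * τ)))).re)
      (𝓝[>] 0) (𝓝 (∑ k ∈ range K, (om * ε) ^ (k + 1) / (2 * ((k : ℂ) + 1) ^ 2 * τ)).re) :=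
  (Complex.continuous_re.tendsto _).comp (tendsto_finset_sum _ fun k _ => lim_t om ε τ hε hτ k)

lemma re_div (w τ : ℂ) (k : ℕ) :
    (w / (2 * ((k : ℂ) + 1) ^ 2 * τ)).re = (w * τ⁻¹).re / (2 * ((k : ℝ) + 1) ^ 2) := by
  have : w / (2 * ((k : ℂ) + 1) ^ 2 * τ) = w * τ⁻¹ / ((2 * ((k : ℝ) + 1) ^ 2 : ℝ) : ℂ) := by
    push_cast; rw [mul_comm _ τ, ← div_div, div_eq_mul_inv w τ]
  rw [this, Complex.div_ofReal_re]

lemma upper {ε : ℂ} (hε : ‖ε‖ = 1) :
    ∀ᶠ s : ℝ in 𝓝[>] 0, s * (∑' k, t om k (ε * Complex.exp (-(s * 1)))).re ≤ 0.324 := by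
  by_cases h : ε ^ 2 = 1
  · rcases sq_eq_one_iff.mp h with rfl | rfl
    · have l := lim_sum 1 1 h one_ne_zero 1
      have e : (∑ k ∈ range 1, (om * 1) ^ (k + 1) / (2 * ((k : ℂ) + 1) ^ 2 * 1)).re < 0 := by
        simp only [Complex.re_sum, re_div]; simp [om]; norm_num
      filter_upwards [l.eventually (gt_mem_nhds e), self_mem_nhdsWithin] with s h1 hs
      have := (abs_le.mp (tail' hε (τ := 1) rfl hs 1)).2
      simp only [sum_range_one (fun k : ℕ => 1 / (2 * ((k : ℝ) + 1) ^ 2))] at this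
      norm_num at this h1 ⊢; linarith
    · have l := lim_sum (-1) 1 h one_ne_zero 3
      have h3 : (om * -1) ^ 3 = -1 := by rw [mul_pow, om3]; norm_num
      have h2 : (om * -1) ^ 2 = ⟨-1 / 2, -√3 / 2⟩ := by rw [mul_pow, om2]; norm_num
      have e : (∑ k ∈ range 3, (om * -1) ^ (k + 1) / (2 * ((k : ℂ) + 1) ^ 2 * 1)).re < 0.14 := by
        simp only [Complex.re_sum, re_div, sum_range_succ, range_zero, sum_empty, Complex.add_re]
        norm_num only
        rw [h2, h3]; simp [om]; norm_num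
      filter_upwards [l.eventually (gt_mem_nhds e), self_mem_nhdsWithin] with s h1 hs
      have := (abs_le.mp (tail' hε (τ := 1) rfl hs 3)).2
      have e2 : ∑ k ∈ range 3, 1 / (2 * ((k : ℝ) + 1) ^ 2) = 49 / 72 := by
        simp only [sum_range_succ, range_zero, sum_empty]; norm_num
      rw [e2] at this
      linarith
  · have l := (Complex.continuous_re.tendsto _).comp (lim_t0 om ε h)
    filter_upwards [l.eventually (gt_mem_nhds (show (0 : ℂ).re < 0.001 by norm_num)),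
      self_mem_nhdsWithin] with s h1 hs
    have := (abs_le.mp (tail' hε (τ := 1) rfl hs 1)).2
    rw [sum_range_one, sum_range_one] at this
    simp only [Function.comp] at h1
    have e2 : 1 / (2 * (((0 : ℕ) : ℝ) + 1) ^ 2) = 1 / 2 := by norm_num
    rw [e2] at this
    linarith

lemma lower :
    ∀ᶠ s : ℝ in 𝓝[>] 0, 0.325 ≤ s * (∑' k, t om k (-1 * Complex.exp (-(s * ta)))).re := by
  have l := lim_sum (-1) ta (by norm_num) (by intro h; have := congrArg Complex.re h; simp [ta] at this) 100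
  have n1 : (1.1485 : ℝ) ≤ ∑ k ∈ range 100, ((rr (k + 1) : ℝ) + 1) / (2 * ((k : ℝ) + 1) ^ 2) := by
    have := (Rat.cast_le (K := ℝ)).mpr numer
    push_cast at this
    convert this using 1
  have e : 1.148 - ∑ k ∈ range 100, 1 / (2 * ((k : ℝ) + 1) ^ 2) <
      (∑ k ∈ range 100, (om * -1) ^ (k + 1) / (2 * ((k : ℂ) + 1) ^ 2 * ta)).re := by
    simp only [Complex.re_sum, re_div, re_rr]
    simp only [add_div, sum_add_distrib] at n1
    linarith
  filter_upwards [l.eventually (lt_mem_nhds e), self_mem_nhdsWithin] with s h1 hs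
  have := (abs_le.mp (tail' (ε := -1) (by simp) (τ := ta) rfl hs 100)).1
  linarith

theorem main (ψ : ℕ → ℂ) (T N : ℕ) (hT : 0 < T) (hp : ∀ n, ψ (n + T) = ψ n)
    (h1 : ∀ n, ‖ψ n‖ = 1) (h2 : ∀ n, N ≤ n → ‖c om n‖ ≤ 2 * (c om n * ψ n).re) : False := by
  classical
  have hζ := Complex.isPrimitiveRoot_exp T hT.ne'
  set ζ := Complex.exp (2 * Real.pi * Complex.I / T)
  have nζ : ‖ζ‖ = 1 := hζ.norm'_eq_one hT.ne'
  set P := Lagrange.interpolate (range T) (fun n => ζ ^ n) ψ with hP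
  have hper : ∀ n m, ψ (n + T * m) = ψ n := fun n m => by
    induction m with
    | zero => simp
    | succ m ih => rw [mul_add, mul_one, ← add_assoc, hp, ih]
  have hψ : ∀ n, ψ n = ∑ j ∈ range (P.natDegree + 1), P.coeff j * (ζ ^ j) ^ n := by
    intro n
    have e1 : P.eval (ζ ^ (n % T)) = ψ (n % T) :=
      Lagrange.eval_interpolate_at_node ψ (hζ.injOn_pow) (mem_range.mpr (Nat.mod_lt _ hT))
    have e2 : ζ ^ (n % T) = ζ ^ n := by
      conv_rhs => rw [← Nat.mod_add_div n T, pow_add, pow_mul, hζ.pow_eq_one, one_pow, mul_one]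
    rw [← hper (n % T) (n / T), Nat.mod_add_div, e2, Polynomial.eval_eq_sum_range] at e1
    rw [← e1]
    exact sum_congr rfl fun j _ => by rw [← pow_mul, ← pow_mul, mul_comm n j]
  set J := range (P.natDegree + 1)
  set C := ∑ n ∈ range N, 3 * ‖c om n‖
  set B := ∑ j ∈ J, ‖P.coeff j‖
  have C0 : 0 ≤ C := sum_nonneg fun _ _ => by positivity
  have hu : ∀ᶠ s : ℝ in 𝓝[>] 0, ∀ j ∈ J,
      s * (∑' k, t om k (ζ ^ j * Complex.exp (-(s * 1)))).re ≤ 0.324 :=
    (eventually_all_finset J).mpr fun j _ => upper (by rw [norm_pow, nζ, one_pow])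
  have hinf : ∀ᶠ s : ℝ in 𝓝[>] 0, C + 2 * B < 0.001 * s⁻¹ :=
    (tendsto_inv_nhdsGT_zero.const_mul_atTop (by norm_num)).eventually (eventually_gt_atTop _)
  obtain ⟨s, ⟨⟨a1, a2⟩, a3⟩, hs⟩ :=
    (((hu.and lower).and hinf).and self_mem_nhdsWithin).exists
  have hs : 0 < s := hs
  set x := Real.exp (-s) with hx
  have x0 : 0 < x := Real.exp_pos _
  have x1 : x < 1 := elt hs
  have ex : Complex.exp (-(s * 1)) = (x : ℂ) := by rw [hx]; push_cast; simp
  have nq1 := nq (ε := -1) (by simp) (τ := ta) rfl s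
  obtain ⟨g1, -, g3⟩ := gen (q := -1 * Complex.exp (-(s * ta))) nom (by rw [nq1]; exact x1)
  have gj : ∀ j, HasSum (fun n => c om n * (ζ ^ j * x) ^ n)
      (Complex.exp (∑' k, t om k (ζ ^ j * x))) := fun j => by
    obtain ⟨b1, -, b3⟩ := gen (q := ζ ^ j * x) nom (by
      rw [norm_mul, norm_pow, nζ, one_pow, one_mul, Complex.norm_real, Real.norm_of_nonneg x0.le]
      exact x1)
    rw [← b3]; exact b1.of_norm.hasSum
  have s1 : HasSum (fun n => c om n * ψ n * x ^ n)
      (∑ j ∈ J, P.coeff j * Complex.exp (∑' k, t om k (ζ ^ j * x))) := by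
    have := hasSum_sum (s := J) fun j _ => (gj j).mul_left (P.coeff j)
    have e : (fun n => c om n * ψ n * (x : ℂ) ^ n) =
        fun n => ∑ j ∈ J, P.coeff j * (c om n * (ζ ^ j * x) ^ n) := by
      funext n; rw [hψ n, mul_sum, sum_mul]; exact sum_congr rfl fun j _ => by ring
    rw [e]; exact this
  have s2 := (Complex.hasSum_re s1).mul_left 2
  have s3' : HasSum (fun n => if n < N then 3 * ‖c om n‖ else 0) C := by
    have := hasSum_sum_of_ne_finset_zero (s := range N)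
      (f := fun n => if n < N then 3 * ‖c om n‖ else 0) (L := SummationFilter.unconditional ℕ)
      (fun b hb => by rw [if_neg (by simpa using hb)])
    rwa [sum_congr rfl (fun n hn => if_pos (mem_range.mp hn))] at this
  have k1 := hasSum_le (fun n => ?_) g1.hasSum (s2.add s3')
  · have k2 := (norm_tsum_le_tsum_norm g1).trans k1
    rw [g3, Complex.norm_exp] at k2
    have k3 : (∑ j ∈ J, P.coeff j * Complex.exp (∑' k, t om k (ζ ^ j * x))).re ≤
        B * Real.exp (0.324 * s⁻¹) := by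
      refine (Complex.re_le_norm _).trans ((norm_sum_le _ _).trans ?_)
      rw [sum_mul]
      refine sum_le_sum fun j hj => ?_
      rw [norm_mul, Complex.norm_exp]
      refine mul_le_mul_of_nonneg_left (Real.exp_le_exp.mpr ?_) (norm_nonneg _)
      have := a1 j hj
      rw [ex] at this
      rw [← div_eq_mul_inv, le_div_iff₀ hs]; linarith
    have k4 : Real.exp (0.325 * s⁻¹) ≤
        Real.exp (∑' k, t om k (-1 * Complex.exp (-(s * ta)))).re := by
      refine Real.exp_le_exp.mpr ?_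
      rw [← div_eq_mul_inv, div_le_iff₀ hs]; linarith
    have k5 : Real.exp (0.325 * s⁻¹) = Real.exp (0.001 * s⁻¹) * Real.exp (0.324 * s⁻¹) := by
      rw [← Real.exp_add]; congr 1; ring
    have k6 : 1 ≤ Real.exp (0.324 * s⁻¹) := Real.one_le_exp (by positivity)
    have k7 := Real.add_one_le_exp (0.001 * s⁻¹)
    nlinarith [mul_le_mul_of_nonneg_left k6 C0, mul_le_mul_of_nonneg_right k7 (zero_le_one.trans k6),
      mul_lt_mul_of_pos_right a3 (zero_lt_one.trans_le k6)]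
  · have e : (c om n * ψ n * (x : ℂ) ^ n).re = (c om n * ψ n).re * x ^ n := by
      rw [← Complex.ofReal_pow, Complex.re_mul_ofReal]
    rw [norm_mul, norm_pow, nq1, e]
    have xn : 0 < x ^ n := pow_pos x0 n
    have xn1 : x ^ n ≤ 1 := pow_le_one₀ x0.le x1.le
    split_ifs with hn
    · have b := (abs_le.mp (Complex.abs_re_le_norm (c om n * ψ n))).1
      rw [norm_mul, h1, mul_one] at b
      have n0 := norm_nonneg (c om n)
      nlinarith [mul_le_mul_of_nonneg_right b xn.le, mul_le_mul_of_nonneg_left xn1 n0]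
    · have := mul_le_mul_of_nonneg_right (h2 n (by omega)) xn.le
      linarith

end Pool.Agent.H76.Fab
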