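import Pool.Agent.H76.RepBasic

set_option autoImplicit false

namespace Pool.Agent.H76.G2Syl

open Module RepBasic
open scoped commutatorElement

theorem eig_in {I V : Type} [AddCommGroup V] [Module ℂ V] [FiniteDimensional ℂ V]
    (T : I → V →ₗ[ℂ] V) (W : Submodule ℂ V) (hW : W ≠ ⊥) (hinv : ∀ i, ∀ v ∈ W, T i v ∈ W)
    (hT : ∀ i j v, T i (T j v) = T j (T i v)) :
    ∃ v ∈ W, v ≠ 0 ∧ ∀ i, ∃ c : ℂ, T i v = c • v := by
  have : Nontrivial W := Submodule.nontrivial_iff_ne_bot.2 hW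
  obtain ⟨v, hv, h⟩ := exists_common_eigenvector (fun i => (T i).restrict (hinv i))
    (fun i j v => Subtype.ext (hT i j v))
  refine ⟨v, v.2, fun h0 => hv (Subtype.ext h0), fun i => ?_⟩
  obtain ⟨c, hc⟩ := h i
  exact ⟨c, congrArg Subtype.val hc⟩

theorem mkChar {A V : Type} [AddMonoid A] [AddCommGroup V] [Module ℂ V]
    (T : A → V →ₗ[ℂ] V) (w : V) (hw : w ≠ 0) (h0 : T 0 w = w)
    (hadd : ∀ x y, T (x + y) w = T x (T y w)) (heig : ∀ x, ∃ c : ℂ, T x w = c • w) :
    ∃ lam : AddChar A ℂ, ∀ x, T x w = lam x • w := by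
  choose f hf using heig
  refine ⟨⟨f, ?_, ?_⟩, hf⟩
  · apply smul_left_injective ℂ hw
    simp only
    rw [← hf, h0, one_smul]
  · intro x y
    apply smul_left_injective ℂ hw
    simp only
    rw [← hf, hadd, hf y, map_smul, hf x, smul_smul, mul_comm]

theorem dimlem {G V ι A : Type} [Group G] [AddCommGroup V] [Module ℂ V] [Fintype ι]
    [AddMonoid A] (ρ : Representation ℂ G V) (hρ : Irr ρ) (w : V) (hw : w ≠ 0) (r : ι → G)
    (hcov : ∀ g, ∃ j, ∃ c : ℂ, ρ g w = c • ρ (r j) w)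
    (T : A → V →ₗ[ℂ] V) (lam : ι → AddChar A ℂ) (hinj : Function.Injective lam)
    (h : ∀ j k, T k (ρ (r j) w) = lam j k • ρ (r j) w) :
    finrank ℂ V = Fintype.card ι := by
  have hne : ∀ j, ρ (r j) w ≠ 0 := by
    intro j h0
    apply hw
    have := congrArg (ρ (r j)⁻¹) h0
    rwa [← Module.End.mul_apply, ← map_mul, inv_mul_cancel, map_one, map_zero] at this
  have hli : LinearIndependent ℂ (fun j => ρ (r j) w) :=
    linearIndependent_of_chars (K := Multiplicative A) (fun k => T k.toAdd) _ hne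
      (fun j => (lam j).toMonoidHom) (fun i j hij => hinj (by
        ext x; exact DFunLike.congr_fun hij (Multiplicative.ofAdd x))) (fun j k => h j _)
  have key : ∀ g : G, ρ g w ∈ Submodule.span ℂ (Set.range fun j => ρ (r j) w) := by
    intro g
    obtain ⟨j, c, hc⟩ := hcov g
    rw [hc]
    exact Submodule.smul_mem _ _ (Submodule.subset_span ⟨_, rfl⟩)
  have htop : Submodule.span ℂ (Set.range fun j => ρ (r j) w) = ⊤ := by
    refine (hρ _ ?_).resolve_left ?_
    · intro g u hu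
      induction hu using Submodule.span_induction with
      | mem u hu =>
        obtain ⟨x, rfl⟩ := hu
        simp only
        rw [← Module.End.mul_apply, ← map_mul]
        exact key _
      | zero => simp
      | add a b _ _ ha hb => rw [map_add]; exact Submodule.add_mem _ ha hb
      | smul c a _ ha => rw [map_smul]; exact Submodule.smul_mem _ _ ha
    · intro h
      have := key 1
      rw [h] at this
      simp at this
      exact hw this
  rw [← finrank_top, ← htop]
  exact finrank_span_eq_card hli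

/-- six coordinates -/
@[ext] structure U (F : Type) where
  t : F
  a : F
  b : F
  c : F
  d : F
  z : F

section grp
variable {F : Type} [CommRing F]

instance : Mul (U F) := ⟨fun g h => ⟨g.t + h.t, g.a + h.a, g.b + (h.b + g.t * h.a),
  g.c + (h.c + 2 * g.t * h.b + g.t ^ 2 * h.a),
  g.d + (h.d + 3 * g.t * h.c + 3 * g.t ^ 2 * h.b + g.t ^ 3 * h.a),
  g.z + h.z + (g.a * (h.d + 3 * g.t * h.c + 3 * g.t ^ 2 * h.b + g.t ^ 3 * h.a)
    - 3 * g.b * (h.c + 2 * g.t * h.b + g.t ^ 2 * h.a) + 3 * g.c * (h.b + g.t * h.a)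
    - g.d * h.a)⟩⟩

instance : One (U F) := ⟨⟨0, 0, 0, 0, 0, 0⟩⟩

instance : Inv (U F) := ⟨fun g => ⟨-g.t, -g.a, -(g.b - g.t * g.a),
  -(g.c - 2 * g.t * g.b + g.t ^ 2 * g.a),
  -(g.d - 3 * g.t * g.c + 3 * g.t ^ 2 * g.b - g.t ^ 3 * g.a), -g.z⟩⟩

theorem mul_def (g h : U F) : g * h = ⟨g.t + h.t, g.a + h.a, g.b + (h.b + g.t * h.a),
  g.c + (h.c + 2 * g.t * h.b + g.t ^ 2 * h.a),
  g.d + (h.d + 3 * g.t * h.c + 3 * g.t ^ 2 * h.b + g.t ^ 3 * h.a),
  g.z + h.z + (g.a * (h.d + 3 * g.t * h.c + 3 * g.t ^ 2 * h.b + g.t ^ 3 * h.a)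
    - 3 * g.b * (h.c + 2 * g.t * h.b + g.t ^ 2 * h.a) + 3 * g.c * (h.b + g.t * h.a)
    - g.d * h.a)⟩ := rfl

theorem one_def : (1 : U F) = ⟨0, 0, 0, 0, 0, 0⟩ := rfl

theorem inv_def (g : U F) : g⁻¹ = ⟨-g.t, -g.a, -(g.b - g.t * g.a),
  -(g.c - 2 * g.t * g.b + g.t ^ 2 * g.a),
  -(g.d - 3 * g.t * g.c + 3 * g.t ^ 2 * g.b - g.t ^ 3 * g.a), -g.z⟩ := rfl

instance : Group (U F) := Group.ofLeftAxioms
  (fun g h k => by ext <;> simp only [mul_def] <;> ring)
  (fun g => by ext <;> simp only [mul_def, one_def] <;> ring)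
  (fun g => by ext <;> simp only [mul_def, one_def, inv_def] <;> ring)

/-- coordinates -/
def eqv : U F ≃ F × F × F × F × F × F where
  toFun g := (g.t, g.a, g.b, g.c, g.d, g.z)
  invFun x := ⟨x.1, x.2.1, x.2.2.1, x.2.2.2.1, x.2.2.2.2.1, x.2.2.2.2.2⟩
  left_inv _ := rfl
  right_inv _ := rfl

instance [Finite F] : Finite (U F) := Finite.of_equiv _ eqv.symm

theorem card_U : Nat.card (U F) = Nat.card F ^ 6 := by
  rw [Nat.card_congr eqv]
  simp only [Nat.card_prod]
  ring

theorem not_metab (h12 : (12 : F) ≠ 0) : derivedSeries (U F) 2 ≠ ⊥ := by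
  intro h
  have m1 : ∀ g k : U F, ⁅g, k⁆ ∈ derivedSeries (U F) 1 := fun g k =>
    Subgroup.commutator_mem_commutator (Subgroup.mem_top g) (Subgroup.mem_top k)
  have m2 : ⁅⁅(⟨1, 0, 0, 0, 0, 0⟩ : U F), (⟨0, 1, 0, 0, 0, 0⟩ : U F)⁆,
      ⁅(⟨1, 0, 0, 0, 0, 0⟩ : U F), (⟨0, 0, 1, 0, 0, 0⟩ : U F)⁆⁆ ∈ derivedSeries (U F) 2 :=
    Subgroup.commutator_mem_commutator (m1 _ _) (m1 _ _)
  rw [h, Subgroup.mem_bot] at m2
  have := congrArg U.z m2
  simp only [commutatorElement_def, mul_def, inv_def, one_def] at this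
  apply h12
  linear_combination -this

end grp

section rep
variable {F : Type} [Field F] [Fintype F] {V : Type} [AddCommGroup V] [Module ℂ V]

theorem rmul (ρ : Representation ℂ (U F) V) (g h : U F) (v : V) :
    ρ g (ρ h v) = ρ (g * h) v := by
  rw [map_mul]; rfl

theorem shift_surj (ψ : AddChar F ℂ) (hψ : ψ ≠ 1) (φ : AddChar F ℂ) :
    ∃ s, ∀ x, φ x = ψ (s * x) := by
  classical
  have hinj := AddChar.to_mulShift_inj_of_isPrimitive (AddChar.IsPrimitive.of_ne_one hψ)
  have hb : Function.Bijective ψ.mulShift :=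
    (Fintype.bijective_iff_injective_and_card _).2 ⟨hinj, AddChar.card_eq.symm⟩
  obtain ⟨s, rfl⟩ := hb.2 φ
  exact ⟨s, fun x => rfl⟩

theorem shift_inj (ψ : AddChar F ℂ) (hψ : ψ ≠ 1) (s u : F) (h : ∀ x, ψ (s * x) = ψ (u * x)) :
    s = u :=
  AddChar.to_mulShift_inj_of_isPrimitive (AddChar.IsPrimitive.of_ne_one hψ) (by
    ext x; exact h x)

theorem thmA [FiniteDimensional ℂ V] (h2 : (2 : F) ≠ 0) (h3 : (3 : F) ≠ 0)
    (ρ : Representation ℂ (U F) V) (hρ : Irr ρ) (z₀ : F)
    (hz : ρ ⟨0, 0, 0, 0, 0, z₀⟩ ≠ 1) : finrank ℂ V = Fintype.card F ^ 2 := by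
  have hnt : Nontrivial V := by
    by_contra hc
    rw [not_nontrivial_iff_subsingleton] at hc
    exact hz (Subsingleton.elim _ _)
  let T : F × F × F → V →ₗ[ℂ] V := fun x => ρ ⟨0, 0, 0, x.1, x.2.1, x.2.2⟩
  have Tadd : ∀ x y v, T (x + y) v = T x (T y v) := by
    intro x y v
    simp only [T, rmul]
    congr 2
    ext <;> simp [mul_def]
  obtain ⟨w, hw, he⟩ := exists_common_eigenvector T (fun i j v => by
    rw [← Tadd, ← Tadd, add_comm])
  obtain ⟨lam, hlam⟩ := mkChar T w hw (by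
    change ρ 1 w = w
    simp) (fun x y => Tadd x y w) he
  let ψ : AddChar F ℂ := lam.compAddMonoidHom ((AddMonoidHom.inr F (F × F)).comp
    (AddMonoidHom.inr F F))
  have hψv : ∀ z, ψ z = lam (0, 0, z) := fun z => rfl
  have hcen : ∀ z v, T (0, 0, z) v = ψ z • v := by
    intro z
    have := hρ (Module.End.eigenspace (T (0, 0, z)) (ψ z)) (by
      intro g v hv
      rw [Module.End.mem_eigenspace_iff] at hv ⊢
      rw [← map_smul, ← hv]
      simp only [T, rmul]
      congr 2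
      ext <;> simp [mul_def, add_comm])
    rcases this with h | h
    · exfalso
      have : w ∈ Module.End.eigenspace (T (0, 0, z)) (ψ z) :=
        Module.End.mem_eigenspace_iff.2 (hlam _)
      rw [h] at this
      exact hw this
    · intro v
      exact Module.End.mem_eigenspace_iff.1 (h ▸ Submodule.mem_top)
  have hψ : ψ ≠ 1 := by
    intro h
    apply hz
    ext v
    have := hcen z₀ v
    rw [h] at this
    simpa using this
  obtain ⟨s₁, hs₁⟩ := shift_surj ψ hψ (lam.compAddMonoidHom (AddMonoidHom.inl F (F × F)))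
  obtain ⟨s₂, hs₂⟩ := shift_surj ψ hψ (lam.compAddMonoidHom ((AddMonoidHom.inr F (F × F)).comp
    (AddMonoidHom.inl F F)))
  have hl : ∀ c d z, lam (c, d, z) = ψ (s₁ * c + s₂ * d + z) := by
    intro c d z
    have : ((c, d, z) : F × F × F) = (c, 0, 0) + (0, d, 0) + (0, 0, z) := by simp
    rw [this, AddChar.map_add_eq_mul, AddChar.map_add_eq_mul, AddChar.map_add_eq_mul,
      AddChar.map_add_eq_mul, ← hs₁, ← hs₂]
    rfl
  have hconj : ∀ a b c d z v, T (c, d, z) (ρ ⟨0, a, b, 0, 0, 0⟩ v)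
      = ρ ⟨0, a, b, 0, 0, 0⟩ (T (c, d, z + 6 * c * b - 2 * d * a) v) := by
    intro a b c d z v
    simp only [T, rmul]
    congr 2
    ext <;> simp [mul_def]
    ring
  let W : Submodule ℂ V := ⨅ x : F × F × F, Module.End.eigenspace (T x) (ψ x.2.2)
  have hWm : ∀ v, v ∈ W ↔ ∀ c d z, T (c, d, z) v = ψ z • v := by
    intro v
    simp only [W, Submodule.mem_iInf, Module.End.mem_eigenspace_iff, Prod.forall]
  have h6 : (6 : F) ≠ 0 := by
    have : (6 : F) = 2 * 3 := by norm_num
    rw [this]; exact mul_ne_zero h2 h3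
  have hW : W ≠ ⊥ := by
    intro h
    have : ρ ⟨0, s₂ / 2, -s₁ / 6, 0, 0, 0⟩ w ∈ W := by
      rw [hWm]
      intro c d z
      rw [hconj, hlam, hl, map_smul]
      congr 2
      field_simp
      ring
    rw [h, Submodule.mem_bot] at this
    apply hw
    have := congrArg (ρ (⟨0, s₂ / 2, -s₁ / 6, 0, 0, 0⟩ : U F)⁻¹) this
    rwa [rmul, inv_mul_cancel, map_one, map_zero] at this
  obtain ⟨u, huW, hu, hue⟩ := eig_in (fun t : F => ρ ⟨t, 0, 0, 0, 0, 0⟩) W hW (by
    intro t v hv
    rw [hWm] at hv ⊢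
    intro c d z
    rw [← map_smul, ← hv c (d - 3 * t * c) z]
    simp only [T, rmul]
    congr 2
    ext <;> simp [mul_def]) (by
    intro i j v
    simp only [rmul]
    congr 2
    ext <;> simp [mul_def, add_comm])
  rw [hWm] at huW
  let mu : F × F → AddChar (F × F × F) ℂ := fun p => ψ.compAddMonoidHom
    { toFun := fun x => x.2.2 + 6 * x.1 * p.2 - 2 * x.2.1 * p.1
      map_zero' := by simp
      map_add' := by intro x y; simp; ring }
  have := dimlem ρ hρ u hu (fun p : F × F => ⟨0, p.1, p.2, 0, 0, 0⟩) (by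
    intro g
    obtain ⟨c, hc⟩ := hue g.t
    refine ⟨(g.a, g.b), c * ψ (g.z - g.a * g.d + 3 * g.b * g.c), ?_⟩
    rw [← map_smul, mul_smul, ← huW g.c g.d, ← map_smul, ← hc]
    simp only [T, rmul]
    congr 2
    ext <;> simp [mul_def]) T mu (by
    rintro ⟨a, b⟩ ⟨a', b'⟩ h
    have e1 : 6 * b = 6 * b' := shift_inj ψ hψ _ _ (fun x => by
      have := DFunLike.congr_fun h (x, 0, 0)
      simp only [mu, AddChar.compAddMonoidHom_apply, AddMonoidHom.coe_mk, ZeroHom.coe_mk] at this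
      convert this using 2 <;> ring)
    have e2 : -2 * a = -2 * a' := shift_inj ψ hψ _ _ (fun x => by
      have := DFunLike.congr_fun h (0, x, 0)
      simp only [mu, AddChar.compAddMonoidHom_apply, AddMonoidHom.coe_mk, ZeroHom.coe_mk] at this
      convert this using 2 <;> ring)
    rw [mul_left_cancel₀ h6 e1, mul_left_cancel₀ (neg_ne_zero.2 h2) e2]) (by
    rintro ⟨a, b⟩ ⟨c, d, z⟩
    rw [hconj, huW, map_smul]
    rfl)
  rw [this, Fintype.card_prod, sq]

theorem thmB [FiniteDimensional ℂ V] [Nontrivial V] (h2 : (2 : F) ≠ 0) (h3 : (3 : F) ≠ 0)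
    (ρ : Representation ℂ (U F) V) (hρ : Irr ρ)
    (hz : ∀ z, ρ ⟨0, 0, 0, 0, 0, z⟩ = 1) :
    finrank ℂ V = Fintype.card F ∨
      (finrank ℂ V = 1 ∧ ∀ b, ρ ⟨0, 0, b, 0, 0, 0⟩ = 1) := by
  let T : F × F × F × F → V →ₗ[ℂ] V := fun x => ρ ⟨0, x.1, x.2.1, x.2.2.1, x.2.2.2, 0⟩
  have hT : ∀ a b c d z v, ρ ⟨0, a, b, c, d, z⟩ v = T (a, b, c, d) v := by
    intro a b c d z v
    have : (⟨0, a, b, c, d, z⟩ : U F) = ⟨0, a, b, c, d, 0⟩ * ⟨0, 0, 0, 0, 0, z⟩ := by
      ext <;> simp [mul_def]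
    rw [this, ← rmul, hz]
    rfl
  have Tadd : ∀ x y v, T (x + y) v = T x (T y v) := by
    intro x y v
    simp only [T, rmul, mul_def]
    simp only [add_zero, zero_mul, mul_zero, ne_eq, OfNat.ofNat_ne_zero, not_false_eq_true,
      zero_pow]
    rw [hT (x.1 + y.1)]
    rfl
  obtain ⟨w, hw, he⟩ := exists_common_eigenvector T (fun i j v => by
    rw [← Tadd, ← Tadd, add_comm])
  obtain ⟨lam, hlam⟩ := mkChar T w hw (by
    change ρ 1 w = w
    simp) (fun x y => Tadd x y w) he
  let E : F → F × F × F × F →+ F × F × F × F := fun t =>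
    { toFun := fun x => (x.1, x.2.1 - t * x.1, x.2.2.1 - 2 * t * x.2.1 + t ^ 2 * x.1,
        x.2.2.2 - 3 * t * x.2.2.1 + 3 * t ^ 2 * x.2.1 - t ^ 3 * x.1)
      map_zero' := by simp
      map_add' := by intro x y; ext <;> simp <;> ring }
  have hconj : ∀ t x v, T x (ρ ⟨t, 0, 0, 0, 0, 0⟩ v) = ρ ⟨t, 0, 0, 0, 0, 0⟩ (T (E t x) v) := by
    intro t x v
    simp only [T, rmul]
    congr 2
    ext <;> simp [mul_def, E] <;> ring
  have hdec : ∀ (g : U F) v, ρ g v =
      ρ ⟨g.t, 0, 0, 0, 0, 0⟩ (T (E g.t (g.a, g.b, g.c, g.d)) v) := by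
    intro g v
    rw [← hconj, ← hT _ _ _ _ g.z, rmul]
    congr 2
    ext <;> simp [mul_def]
  by_cases htr : ∀ b c d, lam (0, b, c, d) = 1
  · right
    have hE : ∀ t x, lam (E t x) = lam x := by
      intro t x
      have : E t x = x + (0, - t * x.1, - 2 * t * x.2.1 + t ^ 2 * x.1,
          - 3 * t * x.2.2.1 + 3 * t ^ 2 * x.2.1 - t ^ 3 * x.1) := by
        ext <;> simp [E] <;> ring
      rw [this, AddChar.map_add_eq_mul, htr, mul_one]
    let W : Submodule ℂ V := ⨅ x, Module.End.eigenspace (T x) (lam x)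
    have hWm : ∀ v, v ∈ W ↔ ∀ x, T x v = lam x • v := by
      intro v
      simp only [W, Submodule.mem_iInf, Module.End.mem_eigenspace_iff]
    have hW : W ≠ ⊥ := by
      intro h
      have : w ∈ W := (hWm w).2 hlam
      rw [h] at this
      exact hw this
    have hWi : ∀ t, ∀ v ∈ W, ρ ⟨t, 0, 0, 0, 0, 0⟩ v ∈ W := by
      intro t v hv
      rw [hWm] at hv ⊢
      intro x
      rw [hconj, hv, hE, map_smul]
    have hWt : W = ⊤ := by
      refine (hρ W ?_).resolve_left hW
      intro g v hv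
      rw [hdec, (hWm v).1 hv, map_smul]
      exact W.smul_mem _ (hWi _ _ hv)
    obtain ⟨u, huW, hu, hue⟩ := eig_in (fun t : F => ρ ⟨t, 0, 0, 0, 0, 0⟩) W hW hWi (by
      intro i j v
      simp only [rmul]
      congr 2
      ext <;> simp [mul_def, add_comm])
    rw [hWm] at huW
    constructor
    · have := dimlem ρ hρ u hu (fun _ : Unit => 1) (by
        intro g
        obtain ⟨c, hc⟩ := hue g.t
        refine ⟨(), lam (E g.t (g.a, g.b, g.c, g.d)) * c, ?_⟩
        rw [hdec, huW, map_smul, hc, smul_smul]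
        simp) T (fun _ => lam) (fun _ _ _ => rfl) (by
        intro _ x
        simp [huW])
      simpa using this
    · intro b
      ext v
      have := (hWm v).1 (hWt ▸ Submodule.mem_top) (0, b, 0, 0)
      rw [htr, one_smul] at this
      exact this
  · left
    refine dimlem ρ hρ w hw (fun t : F => ⟨t, 0, 0, 0, 0, 0⟩) ?_ T
      (fun t => lam.compAddMonoidHom (E t)) ?_ ?_
    · intro g
      exact ⟨g.t, _, by rw [hdec, hlam, map_smul]⟩
    · intro t s h
      by_contra hts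
      apply htr
      intro b c d
      have hu : t - s ≠ 0 := sub_ne_zero.2 hts
      have key : ∀ y, lam (E (t - s) y) = lam y := by
        intro y
        have := DFunLike.congr_fun h (E (-s) y)
        simp only [AddChar.compAddMonoidHom_apply] at this
        convert this using 2
        · ext <;> simp [E] <;> ring
        · ext <;> simp [E] <;> ring
      generalize t - s = u at hu key
      obtain ⟨y₁, hy₁⟩ : ∃ y, y = -b / u := ⟨_, rfl⟩
      obtain ⟨y₂, hy₂⟩ : ∃ y, y = (u ^ 2 * y₁ - c) / (2 * u) := ⟨_, rfl⟩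
      obtain ⟨y₃, hy₃⟩ : ∃ y, y = (3 * u ^ 2 * y₂ - u ^ 3 * y₁ - d) / (3 * u) := ⟨_, rfl⟩
      have e : E u (y₁, y₂, y₃, 0) = (y₁, y₂, y₃, 0) + (0, b, c, d) := by
        have e₁ : u * y₁ = -b := by rw [hy₁]; field_simp
        have e₂ : 2 * u * y₂ = u ^ 2 * y₁ - c := by rw [hy₂]; field_simp
        have e₃ : 3 * u * y₃ = 3 * u ^ 2 * y₂ - u ^ 3 * y₁ - d := by rw [hy₃]; field_simp
        ext <;> simp [E]
        · linear_combination -e₁
        · linear_combination -e₂
        · linear_combination -e₃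
      have := key (y₁, y₂, y₃, 0)
      rw [e, AddChar.map_add_eq_mul] at this
      exact (mul_eq_left₀ (AddChar.val_isUnit lam _).ne_zero).1 this
    · intro t x
      rw [hconj, hlam, map_smul]
      rfl

end rep

theorem main {F : Type} [Field F] [Fintype F] (h2 : (2 : F) ≠ 0) (h3 : (3 : F) ≠ 0) :
    {n : ℕ | ∃ (V : Type) (_ : AddCommGroup V) (_ : Module ℂ V)
      (_ : FiniteDimensional ℂ V) (ρ : Representation ℂ (U F) V), Nontrivial V ∧
      (∀ W : Submodule ℂ V, (∀ g : U F, ∀ v ∈ W, ρ g v ∈ W) → W = ⊥ ∨ W = ⊤) ∧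
      Module.finrank ℂ V = n} = {1, Fintype.card F, Fintype.card F ^ 2} := by
  ext n
  simp only [Set.mem_setOf_eq, Set.mem_insert_iff, Set.mem_singleton_iff]
  constructor
  · rintro ⟨V, _, _, _, ρ, hnt, hirr, rfl⟩
    by_cases hz : ∀ z, ρ ⟨0, 0, 0, 0, 0, z⟩ = 1
    · rcases thmB h2 h3 ρ hirr hz with h | h
      · exact Or.inr (Or.inl h)
      · exact Or.inl h.1
    · push Not at hz
      obtain ⟨z, hz⟩ := hz
      exact Or.inr (Or.inr (thmA h2 h3 ρ hirr z hz))
  · obtain ⟨ψ, hψ⟩ : ∃ ψ : AddChar F ℂ, ψ 1 ≠ 1 := AddChar.exists_apply_ne_zero.2 one_ne_zero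
    rintro (rfl | rfl | rfl)
    · refine ⟨ℂ, inferInstance, inferInstance, inferInstance, Representation.trivial ℂ _ ℂ,
        inferInstance, fun W _ => eq_bot_or_eq_top W, by simp⟩
    · let H : Subgroup (U F) :=
        { carrier := {g | g.t = 0}
          mul_mem' := by
            intro g h hg hh
            simp only [Set.mem_setOf_eq, mul_def] at *
            rw [hg, hh, add_zero]
          one_mem' := rfl
          inv_mem' := by
            intro g hg
            simp only [Set.mem_setOf_eq, inv_def] at *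
            rw [hg, neg_zero] }
      let χ : H →* ℂ :=
        { toFun := fun g => ψ g.1.b
          map_one' := ψ.map_zero_eq_one
          map_mul' := by
            intro g h
            have : g.1.t = 0 := g.2
            rw [← ψ.map_add_eq_mul]
            simp [mul_def, this] }
      obtain ⟨V, _, _, ρ, v, hfin, hirr, hv, hχ⟩ := exists_irr H χ.toHomUnits
      have hnt : Nontrivial V := ⟨v, 0, hv⟩
      refine ⟨V, inferInstance, inferInstance, hfin, ρ, hnt, hirr, ?_⟩
      have hz : ∀ z, ρ ⟨0, 0, 0, 0, 0, z⟩ = 1 := by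
        intro z
        have := hirr (Module.End.eigenspace (ρ ⟨0, 0, 0, 0, 0, z⟩) 1) (by
          intro g u hu
          rw [Module.End.mem_eigenspace_iff, one_smul] at hu ⊢
          conv_rhs => rw [← hu]
          simp only [rmul]
          congr 2
          ext <;> simp [mul_def, add_comm])
        rcases this with h | h
        · exfalso
          have : v ∈ Module.End.eigenspace (ρ ⟨0, 0, 0, 0, 0, z⟩) 1 := by
            rw [Module.End.mem_eigenspace_iff]
            have := hχ ⟨⟨0, 0, 0, 0, 0, z⟩, rfl⟩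
            simpa [χ] using this
          rw [h] at this
          exact hv this
        · ext u
          have := Module.End.mem_eigenspace_iff.1 (h ▸ (Submodule.mem_top : u ∈ ⊤))
          simpa using this
      refine (thmB h2 h3 ρ hirr hz).resolve_right ?_
      rintro ⟨-, h⟩
      have := hχ ⟨⟨0, 0, 1, 0, 0, 0⟩, rfl⟩
      simp only [h] at this
      apply hψ
      apply smul_left_injective ℂ hv
      simpa [χ] using this.symm
    · let H : Subgroup (U F) :=
        { carrier := {g | g.t = 0 ∧ g.a = 0 ∧ g.b = 0}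
          mul_mem' := by
            intro g h hg hh
            simp only [Set.mem_setOf_eq, mul_def] at *
            simp [hg.1, hg.2.1, hg.2.2, hh.1, hh.2.1, hh.2.2]
          one_mem' := ⟨rfl, rfl, rfl⟩
          inv_mem' := by
            intro g hg
            simp only [Set.mem_setOf_eq, inv_def] at *
            simp [hg.1, hg.2.1, hg.2.2] }
      let χ : H →* ℂ :=
        { toFun := fun g => ψ g.1.z
          map_one' := ψ.map_zero_eq_one
          map_mul' := by
            intro g h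
            obtain ⟨g1, g2, g3⟩ : g.1.t = 0 ∧ g.1.a = 0 ∧ g.1.b = 0 := g.2
            obtain ⟨k1, k2, k3⟩ : h.1.t = 0 ∧ h.1.a = 0 ∧ h.1.b = 0 := h.2
            rw [← ψ.map_add_eq_mul]
            simp [mul_def, g1, g2, g3, k1, k2, k3] }
      obtain ⟨V, _, _, ρ, v, hfin, hirr, hv, hχ⟩ := exists_irr H χ.toHomUnits
      have hnt : Nontrivial V := ⟨v, 0, hv⟩
      refine ⟨V, inferInstance, inferInstance, hfin, ρ, hnt, hirr, thmA h2 h3 ρ hirr 1 ?_⟩
      intro h
      have := hχ ⟨⟨0, 0, 0, 0, 0, 1⟩, ⟨rfl, rfl, rfl⟩⟩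
      simp only [h] at this
      apply hψ
      apply smul_left_injective ℂ hv
      simpa [χ] using this.symm

end Pool.Agent.H76.G2Syl
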