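import Mathlib

/-! A connected quandle of order 1890 whose translations have cycle lengths
1, 2, 60, 84, 140, 210.  It is the fibre product of four Galkin quandles over
Z/2, Z/3, Z/5, Z/7, glued along the tetracode inside (Z/3)^4. -/

set_option autoImplicit false

namespace Pool.Agent.H76.Hayashi

/-- Fibre coordinate of the Galkin operation; `d` is the difference of base points. -/
def gal {n : ℕ} (d : Fin 3) (b a : ZMod n) : ZMod n :=
  if d = 0 then -a + b + b else if d = 1 then -a - b + 1 else -a - b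

lemma gal_gal {n : ℕ} (d : Fin 3) (b a : ZMod n) : gal d b (gal d b a) = a := by
  unfold gal; split_ifs <;> ring

lemma gal_distrib {n : ℕ} (x y z : Fin 3) (a b c : ZMod n) :
    gal ((y + y - z) - x) a (gal (z - y) b c) =
      gal ((x + x - z) - (x + x - y)) (gal (y - x) a b) (gal (z - x) a c) := by
  fin_cases x <;> fin_cases y <;> fin_cases z <;> simp +decide only [gal, if_true, if_false] <;> ring

/-- The carrier. -/
@[ext] structure Q where
  u : Fin 3
  v : Fin 3
  a : ZMod 2
  b : ZMod 3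
  c : ZMod 5
  d : ZMod 7
  deriving DecidableEq

instance : Fintype Q :=
  Fintype.ofEquiv (Fin 3 × Fin 3 × ZMod 2 × ZMod 3 × ZMod 5 × ZMod 7)
    { toFun := fun p => ⟨p.1, p.2.1, p.2.2.1, p.2.2.2.1, p.2.2.2.2.1, p.2.2.2.2.2⟩
      invFun := fun q => (q.u, q.v, q.a, q.b, q.c, q.d)
      left_inv := fun _ => rfl
      right_inv := fun _ => rfl }

def op (x y : Q) : Q where
  u := x.u + x.u - y.u
  v := x.v + x.v - y.v
  a := gal (y.u - x.u) x.a y.a
  b := gal (y.v - x.v) x.b y.b
  c := gal ((y.u + y.v) - (x.u + x.v)) x.c y.c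
  d := gal ((y.u - y.v) - (x.u - x.v)) x.d y.d

def inv (x y : Q) : Q where
  u := x.u + x.u - y.u
  v := x.v + x.v - y.v
  a := gal (x.u - y.u) x.a y.a
  b := gal (x.v - y.v) x.b y.b
  c := gal ((x.u + x.v) - (y.u + y.v)) x.c y.c
  d := gal ((x.u - x.v) - (y.u - y.v)) x.d y.d

lemma op_distrib (x y z : Q) : op x (op y z) = op (op x y) (op x z) := by
  obtain ⟨u, v, a, b, c, d⟩ := x
  obtain ⟨u', v', a', b', c', d'⟩ := y
  obtain ⟨u'', v'', a'', b'', c'', d''⟩ := z
  ext
  · simp only [op]; congr 1; abel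
  · simp only [op]; congr 1; abel
  · exact gal_distrib u u' u'' a a' a''
  · exact gal_distrib v v' v'' b b' b''
  · have := gal_distrib (u + v) (u' + v') (u'' + v'') c c' c''
    simp only [op]
    convert this using 2 <;> abel
  · have := gal_distrib (u - v) (u' - v') (u'' - v'') d d' d''
    simp only [op]
    convert this using 2 <;> abel

lemma inv_op (x y : Q) : inv x (op x y) = y := by
  obtain ⟨u, v, a, b, c, d⟩ := x
  obtain ⟨u', v', a', b', c', d'⟩ := y
  ext
  · simp only [op, inv]; congr 1; abel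
  · simp only [op, inv]; congr 1; abel
  · simp only [op, inv]; convert gal_gal (u' - u) a a' using 2; abel
  · simp only [op, inv]; convert gal_gal (v' - v) b b' using 2; abel
  · simp only [op, inv]; convert gal_gal ((u' + v') - (u + v)) c c' using 2; abel
  · simp only [op, inv]; convert gal_gal ((u' - v') - (u - v)) d d' using 2; abel

lemma op_inv (x y : Q) : op x (inv x y) = y := by
  obtain ⟨u, v, a, b, c, d⟩ := x
  obtain ⟨u', v', a', b', c', d'⟩ := y
  ext
  · simp only [op, inv]; congr 1; abel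
  · simp only [op, inv]; congr 1; abel
  · simp only [op, inv]; convert gal_gal (u - u') a a' using 2; abel
  · simp only [op, inv]; convert gal_gal (v - v') b b' using 2; abel
  · simp only [op, inv]; convert gal_gal ((u + v) - (u' + v')) c c' using 2; abel
  · simp only [op, inv]; convert gal_gal ((u - v) - (u' - v')) d d' using 2; abel

lemma op_self (x : Q) : op x x = x := by
  obtain ⟨u, v, a, b, c, d⟩ := x
  ext <;> simp only [op, gal, sub_self, if_true, add_sub_cancel_right, neg_add_cancel, zero_add]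

instance : Quandle Q where
  act := op
  self_distrib := fun {x y z} => op_distrib x y z
  invAct := inv
  left_inv := inv_op
  right_inv := op_inv
  fix := fun {x} => op_self x

lemma act_eq (x y : Q) : Shelf.act x y = op x y := rfl

lemma solve2 : ∀ (d : Fin 3) (a a' : ZMod 2), d ≠ 0 → ∃ b, gal d b a = a' := by decide
lemma solve3 : ∀ (d : Fin 3) (a a' : ZMod 3), ∃ b, gal d b a = a' := by decide
lemma solve5 : ∀ (d : Fin 3) (a a' : ZMod 5), ∃ b, gal d b a = a' := by decide
lemma solve7 : ∀ (d : Fin 3) (a a' : ZMod 7), ∃ b, gal d b a = a' := by decide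

lemma one_step (y z : Q) (h : y.u ≠ z.u) : ∃ x, op x y = z := by
  obtain ⟨u, v, a, b, c, d⟩ := y
  obtain ⟨u', v', a', b', c', d'⟩ := z
  have h1 : ∀ s t : Fin 3, -(s + t) + -(s + t) - s = t := by decide
  have h2 : ∀ s t : Fin 3, s ≠ t → s - -(s + t) ≠ 0 := by decide
  obtain ⟨a0, ha⟩ := solve2 (u - -(u + u')) a a' (h2 _ _ h)
  obtain ⟨b0, hb⟩ := solve3 (v - -(v + v')) b b'
  obtain ⟨c0, hc⟩ := solve5 ((u + v) - (-(u + u') + -(v + v'))) c c'
  obtain ⟨d0, hd⟩ := solve7 ((u - v) - (-(u + u') - -(v + v'))) d d'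
  refine ⟨⟨-(u + u'), -(v + v'), a0, b0, c0, d0⟩, ?_⟩
  simp only [op, h1, ha, hb, hc, hd]

lemma two_steps (y z : Q) : ∃ x x', op x' (op x y) = z := by
  have h : ∀ s t : Fin 3, ∃ r : Fin 3, s ≠ r ∧ r ≠ t := by decide
  obtain ⟨r, h1, h2⟩ := h y.u z.u
  obtain ⟨x, hx⟩ := one_step y ⟨r, 0, 0, 0, 0, 0⟩ h1
  obtain ⟨x', hx'⟩ := one_step ⟨r, 0, 0, 0, 0, 0⟩ z h2
  exact ⟨x, x', by rw [hx, hx']⟩

/-- The base point. -/
def e : Q := ⟨0, 0, 0, 0, 0, 0⟩

/-- Translation amount of the square of the translation by the base point. -/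
def tr {n : ℕ} (d : Fin 3) : ZMod n := if d = 0 then 0 else if d = 1 then -1 else 1

lemma gal_sq {n : ℕ} (d : Fin 3) (a : ZMod n) :
    gal (-d) 0 (gal d 0 a) = a + tr d := by
  fin_cases d <;> simp +decide only [gal, tr, if_true, if_false] <;> ring

lemma sq (y : Q) : op e (op e y) =
    ⟨y.u, y.v, y.a + tr y.u, y.b + tr y.v, y.c + tr (y.u + y.v), y.d + tr (y.u - y.v)⟩ := by
  obtain ⟨u, v, a, b, c, d⟩ := y
  ext
  · simp [op, e]
  · simp [op, e]
  · simpa [op, e] using gal_sq u a
  · simpa [op, e] using gal_sq v b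
  · have := gal_sq (u + v) c
    simp only [op, e]
    convert this using 2 <;> abel
  · have := gal_sq (u - v) d
    simp only [op, e]
    convert this using 2 <;> abel

lemma iter (k : ℕ) (y : Q) : (op e)^[2 * k] y =
    ⟨y.u, y.v, y.a + (k : ZMod 2) * tr y.u, y.b + (k : ZMod 3) * tr y.v,
      y.c + (k : ZMod 5) * tr (y.u + y.v), y.d + (k : ZMod 7) * tr (y.u - y.v)⟩ := by
  induction k with
  | zero => simp
  | succ k ih =>
    rw [show 2 * (k + 1) = 2 * k + 1 + 1 by ring, Function.iterate_succ_apply',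
      Function.iterate_succ_apply', ih, sq]
    ext <;> simp <;> ring

/-- No cycle of the translation by `e` has a length divisible by all cycle lengths. -/
theorem no_regular (z : Q) :
    ¬ ∀ y : Q, Function.minimalPeriod (op e) y ∣ Function.minimalPeriod (op e) z := by
  intro h
  have key : ∀ k : ℕ, (op e)^[2 * k] z = z → ∀ y, (op e)^[2 * k] y = y := by
    intro k hk y
    have h1 : Function.minimalPeriod (op e) z ∣ 2 * k :=
      Function.IsPeriodicPt.minimalPeriod_dvd hk
    exact Function.isPeriodicPt_iff_minimalPeriod_dvd.mpr ((h y).trans h1)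
  obtain ⟨u, v, a, b, c, d⟩ := z
  have hc : ∀ s t : Fin 3, s = 0 ∨ t = 0 ∨ s + t = 0 ∨ s - t = 0 := by decide
  rcases hc u v with h0 | h0 | h0 | h0
  · have := key 105 (by
      rw [iter]; simp only [h0]
      have e3 : ((105 : ℕ) : ZMod 3) = 0 := by decide
      have e5 : ((105 : ℕ) : ZMod 5) = 0 := by decide
      have e7 : ((105 : ℕ) : ZMod 7) = 0 := by decide
      rw [e3, e5, e7]; simp [tr]) ⟨1, 0, 0, 0, 0, 0⟩
    rw [iter] at this
    exact absurd (congrArg Q.a this) (by decide)
  · have := key 70 (by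
      rw [iter]; simp only [h0]
      have e3 : ((70 : ℕ) : ZMod 2) = 0 := by decide
      have e5 : ((70 : ℕ) : ZMod 5) = 0 := by decide
      have e7 : ((70 : ℕ) : ZMod 7) = 0 := by decide
      rw [e3, e5, e7]; simp [tr]) ⟨0, 1, 0, 0, 0, 0⟩
    rw [iter] at this
    exact absurd (congrArg Q.b this) (by decide)
  · have := key 42 (by
      rw [iter]; simp only [h0]
      have e3 : ((42 : ℕ) : ZMod 2) = 0 := by decide
      have e5 : ((42 : ℕ) : ZMod 3) = 0 := by decide
      have e7 : ((42 : ℕ) : ZMod 7) = 0 := by decide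
      rw [e3, e5, e7]; simp [tr]) ⟨1, 0, 0, 0, 0, 0⟩
    rw [iter] at this
    exact absurd (congrArg Q.c this) (by decide)
  · have := key 30 (by
      rw [iter]; simp only [h0]
      have e3 : ((30 : ℕ) : ZMod 2) = 0 := by decide
      have e5 : ((30 : ℕ) : ZMod 3) = 0 := by decide
      have e7 : ((30 : ℕ) : ZMod 5) = 0 := by decide
      rw [e3, e5, e7]; simp [tr]) ⟨1, 0, 0, 0, 0, 0⟩
    rw [iter] at this
    exact absurd (congrArg Q.d this) (by decide)

end Pool.Agent.H76.Hayashi
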