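import Mathlib

/-! Stanley–Reisner ideals and Lefschetz properties. -/

set_option autoImplicit false
open MvPolynomial

namespace Pool.Agent.H76.LefDefs

/-- The Stanley–Reisner ideal: generated by the squarefree monomials of the non-faces. -/
noncomputable def srIdeal (K : Type) [Field K] {V : Type} (Δ : Set (Finset V)) :
    Ideal (MvPolynomial V K) :=
  Ideal.span {f | ∃ s : Finset V, s ∉ Δ ∧ f = ∏ v ∈ s, X v}

/-- The ideal of the colored system `θ_i = ∑_{c v = i} x_v`. -/
noncomputable def colIdeal (K : Type) [Field K] {n d : ℕ} (c : Fin n → Fin d) :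
    Ideal (MvPolynomial (Fin n) K) :=
  Ideal.span (Set.range fun i : Fin d => ∑ v ∈ Finset.univ.filter (fun v => c v = i), X v)

/-- Multiplication by `g`, from the degree-`i` part of `S ⧸ I` to the degree-`j` part, is
injective or surjective. -/
def MaxRank {K : Type} [Field K] {V : Type} (I : Ideal (MvPolynomial V K)) (g : MvPolynomial V K)
    (i j : ℕ) : Prop :=
  (∀ f : MvPolynomial V K, f.IsHomogeneous i → g * f ∈ I → f ∈ I) ∨
  (∀ h : MvPolynomial V K, h.IsHomogeneous j →
    ∃ f : MvPolynomial V K, f.IsHomogeneous i ∧ h - g * f ∈ I)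

/-- Weak Lefschetz property of `S ⧸ I`. -/
def WLP {K : Type} [Field K] {V : Type} (I : Ideal (MvPolynomial V K)) : Prop :=
  ∃ l : MvPolynomial V K, l.IsHomogeneous 1 ∧ ∀ i, MaxRank I l i (i + 1)

/-- Strong Lefschetz property of `S ⧸ I`. -/
def SLP {K : Type} [Field K] {V : Type} (I : Ideal (MvPolynomial V K)) : Prop :=
  ∃ l : MvPolynomial V K, l.IsHomogeneous 1 ∧ ∀ i k, 1 ≤ k → MaxRank I (l ^ k) i (i + k)

theorem SLP.wlp {K : Type} [Field K] {V : Type} {I : Ideal (MvPolynomial V K)} (h : SLP I) :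
    WLP I := by
  obtain ⟨l, hl, h⟩ := h
  exact ⟨l, hl, fun i => by simpa using h i 1 le_rfl⟩

theorem lin_eq {K : Type} [Field K] {V : Type} [Fintype V] (l : MvPolynomial V K)
    (hl : l.IsHomogeneous 1) : ∃ c : V → K, l = ∑ v, c v • X v := by
  have : l ∈ homogeneousSubmodule V K 1 := hl
  rw [homogeneousSubmodule_one_eq_span_X] at this
  obtain ⟨c, hc⟩ := (Submodule.mem_span_range_iff_exists_fun K).1 this
  exact ⟨c, hc.symm⟩

end Pool.Agent.H76.LefDefs
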