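import Mathlib

/-! Boundary complexes of simplicial polytopes, given by a certificate, are spheres. -/

set_option autoImplicit false
open Finset

namespace Pool.Agent.H76.PolySphere

/-- Geometric realization of a simplicial complex on `Fin n`, in barycentric coordinates. -/
def realization {n : ℕ} (Δ : Set (Finset (Fin n))) : Set (Fin n → ℝ) :=
  {x | (∀ v, 0 ≤ x v) ∧ ∑ v, x v = 1 ∧ ∃ s ∈ Δ, ∀ v, v ∉ s → x v = 0}

/-- The complex generated by the facets `F j`. -/
def cx {n m d : ℕ} (F : Fin m → Fin d → Fin n) : Set (Finset (Fin n)) :=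
  {s | ∃ j, ∀ v ∈ s, ∃ i, F j i = v}

section
variable {n m d : ℕ} (F : Fin m → Fin d → Fin n)

noncomputable def ext (j : Fin m) (c : Fin d → ℝ) (v : Fin n) : ℝ :=
  ∑ i, if F j i = v then c i else 0

theorem sum_ext (j : Fin m) (c : Fin d → ℝ) (h : Fin n → ℝ) :
    ∑ v, ext F j c v * h v = ∑ i, c i * h (F j i) := by
  simp only [ext, sum_mul]
  rw [sum_comm]
  refine sum_congr rfl fun i _ => ?_
  simp [ite_mul]

theorem ext_eq (j : Fin m) (hj : Function.Injective (F j)) (x : Fin n → ℝ)
    (hx : ∀ v, (∀ i, F j i ≠ v) → x v = 0) : ext F j (fun i => x (F j i)) = x := by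
  funext v
  unfold ext
  by_cases h : ∃ i, F j i = v
  · obtain ⟨i, rfl⟩ := h
    rw [sum_eq_single i]
    · simp
    · intro b _ hb
      rw [if_neg (fun e => hb (hj e))]
    · simp
  · push Not at h
    rw [hx v h]
    exact sum_eq_zero fun i _ => if_neg (h i)

theorem mem_real (x : Fin n → ℝ) : x ∈ realization (cx F) ↔
    (∀ v, 0 ≤ x v) ∧ ∑ v, x v = 1 ∧ ∃ j, ∀ v, (∀ i, F j i ≠ v) → x v = 0 := by
  unfold realization cx
  simp only [Set.mem_setOf_eq]
  refine and_congr_right fun _ => and_congr_right fun _ => ?_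
  constructor
  · rintro ⟨s, ⟨j, hj⟩, hs⟩
    refine ⟨j, fun v hv => hs v fun hvs => ?_⟩
    obtain ⟨i, hi⟩ := hj v hvs
    exact hv i hi
  · rintro ⟨j, hj⟩
    refine ⟨univ.image (F j), ⟨j, fun v hv => by simpa using hv⟩, fun v hv => hj v ?_⟩
    simpa using hv

theorem compact_real : IsCompact (realization (cx F)) := by
  have h1 : realization (cx F) = stdSimplex ℝ (Fin n) ∩
      ⋃ j, ⋂ v, ⋂ (_ : ∀ i, F j i ≠ v), {x : Fin n → ℝ | x v = 0} := by
    ext x
    rw [mem_real]
    simp only [stdSimplex, Set.mem_inter_iff, Set.mem_setOf_eq, Set.mem_iUnion, Set.mem_iInter]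
    tauto
  rw [h1]
  refine (isCompact_stdSimplex ℝ (Fin n)).inter_right ?_
  refine isClosed_iUnion_of_finite fun j => isClosed_iInter fun v => isClosed_iInter fun _ => ?_
  exact isClosed_eq (continuous_apply v) continuous_const

end

theorem sphere_of_cert {n m d : ℕ} (P : Fin n → Fin d → ℝ) (F : Fin m → Fin d → Fin n)
    (φ : Fin m → Fin d → ℝ) (r : ℝ) (hr : 0 < r) (N : Fin m → Fin d → Fin m) (j0 : Fin m)
    (h1 : ∀ j i, ∑ k, φ j k * P (F j i) k = r)
    (h2 : ∀ j v, (∀ i, F j i ≠ v) → ∑ k, φ j k * P v k < r)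
    (h3 : ∀ j i i', i' ≠ i → F (N j i) i' = F j i')
    (h4 : ∀ j i i', F (N j i) i' ≠ F j i) :
    Nonempty (realization (cx F) ≃ₜ Metric.sphere (0 : EuclideanSpace ℝ (Fin d)) 1) := by
  classical
  set g : Fin m → Fin n → ℝ := fun j v => ∑ k, φ j k * P v k with hg
  let π : (Fin n → ℝ) → (Fin d → ℝ) := fun x k => ∑ v, x v * P v k
  let ev : Fin m → (Fin d → ℝ) → ℝ := fun j u => ∑ k, φ j k * u k
  have hev : ∀ j x, ev j (π x) = ∑ v, x v * g j v := by
    intro j x
    simp only [ev, π, hg, mul_sum]
    rw [sum_comm]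
    exact sum_congr rfl fun v _ => sum_congr rfl fun k _ => by ring
  have hinj : ∀ j, Function.Injective (F j) := by
    intro j i i' e
    by_contra hne
    exact h4 j i' i (by rw [h3 j i' i hne, e])
  have hle : ∀ j v, g j v ≤ r := by
    intro j v
    by_cases h : ∃ i, F j i = v
    · obtain ⟨i, rfl⟩ := h
      exact (h1 j i).le
    · push Not at h
      exact (h2 j v h).le
  have hgap : ∀ j i, 0 < r - g (N j i) (F j i) := fun j i =>
    sub_pos.2 (h2 _ _ fun i' => h4 j i i')
  have hdual : ∀ j i (c : Fin d → ℝ), ev j (π (ext F j c)) - ev (N j i) (π (ext F j c)) =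
      c i * (r - g (N j i) (F j i)) := by
    intro j i c
    rw [hev, hev, sum_ext, sum_ext, ← sum_sub_distrib, sum_eq_single i]
    · have : g j (F j i) = r := h1 j i
      rw [this]; ring
    · intro b _ hb
      have e1 : g j (F j b) = r := h1 j b
      have e2 : g (N j i) (F j b) = r := by rw [← h3 j i b hb]; exact h1 _ _
      rw [e1, e2]; ring
    · simp
  have hTinj : ∀ j (c c' : Fin d → ℝ), π (ext F j c) = π (ext F j c') → c = c' := by
    intro j c c' e
    funext i
    have a1 := hdual j i c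
    rw [e, hdual] at a1
    exact (mul_right_cancel₀ (hgap j i).ne' a1).symm
  have hTsurj : ∀ j (u : Fin d → ℝ), ∃ c, π (ext F j c) = u := by
    intro j
    let T : (Fin d → ℝ) →ₗ[ℝ] (Fin d → ℝ) :=
      { toFun := fun c => π (ext F j c)
        map_add' := by
          intro c c'
          funext k
          simp only [π, sum_ext, Pi.add_apply, add_mul, sum_add_distrib]
        map_smul' := by
          intro t c
          funext k
          simp only [π, sum_ext, Pi.smul_apply, smul_eq_mul, RingHom.id_apply, mul_sum, mul_assoc] }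
    exact LinearMap.injective_iff_surjective.1 (fun c c' e => hTinj j c c' e : Function.Injective T)
  have hle' : ∀ j x, (∀ v, 0 ≤ x v) → ∑ v, x v = 1 → ev j (π x) ≤ r := by
    intro j x hx hs
    rw [hev]
    calc ∑ v, x v * g j v ≤ ∑ v, x v * r :=
          sum_le_sum fun v _ => mul_le_mul_of_nonneg_left (hle j v) (hx v)
      _ = r := by rw [← sum_mul, hs, one_mul]
  have heq : ∀ j x, ∑ v, x v = 1 → (∀ v, (∀ i, F j i ≠ v) → x v = 0) → ev j (π x) = r := by
    intro j x hs hx
    rw [hev]
    calc ∑ v, x v * g j v = ∑ v, x v * r := by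
          refine sum_congr rfl fun v _ => ?_
          by_cases h : ∃ i, F j i = v
          · obtain ⟨i, rfl⟩ := h
            have : g j (F j i) = r := h1 j i
            rw [this]
          · push Not at h
            rw [hx v h]; simp
      _ = r := by rw [← sum_mul, hs, one_mul]
  have hsupp : ∀ j x, (∀ v, 0 ≤ x v) → ∑ v, x v = 1 → ev j (π x) = r →
      ∀ v, (∀ i, F j i ≠ v) → x v = 0 := by
    intro j x hx hs he v hv
    have a1 : ∑ w, x w * (r - g j w) = 0 := by
      simp only [mul_sub, sum_sub_distrib]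
      rw [← sum_mul, hs, ← hev, he]; ring
    have a2 := (sum_eq_zero_iff_of_nonneg
      (fun w _ => mul_nonneg (hx w) (sub_nonneg.2 (hle j w)))).1 a1 v (mem_univ v)
    exact (mul_eq_zero.1 a2).resolve_right (sub_pos.2 (h2 j v hv)).ne'
  have hsm : ∀ j (t : ℝ) u, ev j (t • u) = t * ev j u := by
    intro j t u
    simp only [ev, Pi.smul_apply, smul_eq_mul, mul_sum]
    exact sum_congr rfl fun k _ => by ring
  let E : (Fin d → ℝ) → EuclideanSpace ℝ (Fin d) := fun u => WithLp.toLp 2 u
  have hE : ∀ (t : ℝ) u, E (t • u) = t • E u := fun t u => rfl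
  have hEinj : Function.Injective E := fun u u' e => by simpa [E] using e
  have hne : ∀ x : realization (cx F), E (π x) ≠ 0 := by
    intro x e
    obtain ⟨-, hs, j, hj⟩ := (mem_real F x).1 x.2
    have a1 := heq j x hs hj
    have a2 : π x = 0 := hEinj e
    rw [a2] at a1
    simp [ev] at a1
    exact hr.ne a1
  let f : realization (cx F) → Metric.sphere (0 : EuclideanSpace ℝ (Fin d)) 1 := fun x =>
    ⟨‖E (π x)‖⁻¹ • E (π x), by
      simp [norm_smul, norm_ne_zero_iff.2 (hne x)]⟩
  have hcE : Continuous fun x : realization (cx F) => E (π x) := by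
    refine (PiLp.continuous_toLp 2 _).comp ?_
    refine continuous_pi fun k => continuous_finset_sum _ fun v _ => ?_
    exact ((continuous_apply v).comp continuous_subtype_val).mul continuous_const
  have hc : Continuous f := by
    refine Continuous.subtype_mk ?_ _
    exact (hcE.norm.inv₀ fun x => norm_ne_zero_iff.2 (hne x)).smul hcE
  have finj : Function.Injective f := by
    intro x y e
    have e1 : ‖E (π x)‖⁻¹ • E (π x) = ‖E (π y)‖⁻¹ • E (π y) := congrArg Subtype.val e
    rw [← hE, ← hE] at e1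
    have e2 := hEinj e1
    obtain ⟨hx, hxs, j, hj⟩ := (mem_real F x).1 x.2
    obtain ⟨hy, hys, j', hj'⟩ := (mem_real F y).1 y.2
    have px : 0 < ‖E (π x)‖⁻¹ := inv_pos.2 (norm_pos_iff.2 (hne x))
    have py : 0 < ‖E (π y)‖⁻¹ := inv_pos.2 (norm_pos_iff.2 (hne y))
    set a := ‖E (π x)‖⁻¹
    set b := ‖E (π y)‖⁻¹
    have b1 := congrArg (ev j) e2
    have b2 := congrArg (ev j') e2
    rw [hsm, hsm] at b1 b2
    rw [heq j x hxs hj] at b1
    rw [heq j' y hys hj'] at b2
    have c1 := hle' j y hy hys
    have c2 := hle' j' x hx hxs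
    have ab : a = b := by
      have : a ≤ b := by
        by_contra hh
        push Not at hh
        nlinarith
      have : b ≤ a := by
        by_contra hh
        push Not at hh
        nlinarith
      linarith
    rw [ab] at b1 e2
    have d1 : ev j (π y) = r := (mul_left_cancel₀ py.ne' b1).symm
    have d2 := hsupp j y hy hys d1
    have d3 : π x = π y := smul_right_injective _ py.ne' e2
    rw [← ext_eq F j (hinj j) x hj, ← ext_eq F j (hinj j) y d2] at d3
    have d4 := hTinj j _ _ d3
    apply Subtype.ext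
    rw [← ext_eq F j (hinj j) x hj, ← ext_eq F j (hinj j) y d2, d4]
  have fsurj : Function.Surjective f := by
    rintro ⟨u, hu⟩
    have hu1 : ‖u‖ = 1 := by simpa using hu
    obtain ⟨j, -, hj⟩ := exists_max_image univ (fun j => ev j u.ofLp) ⟨j0, mem_univ _⟩
    obtain ⟨c, hc⟩ := hTsurj j u.ofLp
    have hc0 : ∀ i, 0 ≤ c i := by
      intro i
      have a1 := hdual j i c
      rw [hc] at a1
      have a2 := hj (N j i) (mem_univ _)
      have a3 := hgap j i
      by_contra hh
      push Not at hh
      nlinarith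
    have hS : 0 < ∑ i, c i := by
      refine lt_of_le_of_ne (sum_nonneg fun i _ => hc0 i) fun e => ?_
      have a1 := (sum_eq_zero_iff_of_nonneg (fun i _ => hc0 i)).1 e.symm
      have a2 : u.ofLp = 0 := by
        rw [← hc]
        funext k
        simp only [π, sum_ext]
        exact sum_eq_zero fun i hi => by rw [a1 i hi, zero_mul]
      have a3 : u = 0 := by
        ext k
        exact congrFun a2 k
      rw [a3] at hu1
      simp at hu1
    set S := ∑ i, c i with hSd
    have hmem : ext F j (fun i => S⁻¹ * c i) ∈ realization (cx F) := by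
      rw [mem_real]
      refine ⟨fun v => sum_nonneg fun i _ => ?_, ?_, j, fun v hv => ?_⟩
      · split_ifs
        · exact mul_nonneg (inv_pos.2 hS).le (hc0 i)
        · exact le_rfl
      · have := sum_ext F j (fun i => S⁻¹ * c i) (fun _ => 1)
        simp only [mul_one] at this
        rw [this, ← mul_sum, ← hSd, inv_mul_cancel₀ hS.ne']
      · exact sum_eq_zero fun i _ => if_neg (hv i)
    refine ⟨⟨_, hmem⟩, Subtype.ext ?_⟩
    have a1 : E (π (ext F j (fun i => S⁻¹ * c i))) = S⁻¹ • u := by
      have : π (ext F j (fun i => S⁻¹ * c i)) = S⁻¹ • u.ofLp := by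
        rw [← hc]
        funext k
        simp only [π, sum_ext, Pi.smul_apply, smul_eq_mul, mul_sum, mul_assoc]
      rw [this]
      rfl
    show ‖E (π (ext F j (fun i => S⁻¹ * c i)))‖⁻¹ • E (π (ext F j (fun i => S⁻¹ * c i))) = u
    rw [a1, norm_smul, hu1, mul_one, Real.norm_of_nonneg (inv_pos.2 hS).le, smul_smul, inv_inv,
      mul_inv_cancel₀ hS.ne', one_smul]
  haveI : CompactSpace (realization (cx F)) := isCompact_iff_compactSpace.1 (compact_real F)
  exact ⟨Continuous.homeoOfEquivCompactToT2 (f := Equiv.ofBijective f ⟨finj, fsurj⟩) hc⟩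

end Pool.Agent.H76.PolySphere
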