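import Mathlib
import Pool.Agent.H76.K24Data
import Pool.Agent.H76.PolySphere
import Pool.Agent.H76.LefDefs

set_option autoImplicit false
open MvPolynomial Finset

namespace Pool.Agent.H76.K24
open Pool.Agent.H76.PolySphere Pool.Agent.H76.LefDefs

theorem col_F (j : Fin 384) (i : Fin 5) : col (F j i) = i := Fin.ext (c4 j j.2 i i.2).1
theorem N_N (j : Fin 384) (i : Fin 5) : N (N j i) i = j := Fin.ext (c4 j j.2 i i.2).2.1
theorem F_N (j : Fin 384) (i i' : Fin 5) (h : i' ≠ i) : F (N j i) i' = F j i' :=
  Fin.ext ((c3 j j.2 i i.2 i' i'.2).1.resolve_left fun e => h (Fin.ext e))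
theorem F_N_ne (j : Fin 384) (i i' : Fin 5) : F (N j i) i' ≠ F j i := fun e =>
  (c3 j j.2 i i.2 i' i'.2).2.1 (congrArg Fin.val e)
theorem adj_F (j : Fin 384) (i i' : Fin 5) (h : i' ≠ i) : adj (F j i) (F j i') = true :=
  (c3 j j.2 i i.2 i' i'.2).2.2.resolve_left fun e => h (Fin.ext e)

def keyv (j : ℕ) : ℕ := (((Fn j 0 * 50 + Fn j 1) * 50 + Fn j 2) * 50 + Fn j 3) * 50 + Fn j 4

theorem Fn_lt (j i : ℕ) : Fn j i < 50 := Nat.mod_lt _ (by norm_num)

theorem keyv_lt (j : ℕ) (hj : j < 383) : keyv j < keyv (j + 1) := by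
  have := c5 j hj
  have a0 := Fn_lt j 0; have a1 := Fn_lt j 1; have a2 := Fn_lt j 2
  have a3 := Fn_lt j 3; have a4 := Fn_lt j 4
  unfold keyv
  omega

theorem keyv_mono (a b : ℕ) (hab : a < b) (hb : b < 384) : keyv a < keyv b := by
  induction b with
  | zero => omega
  | succ b ih =>
    have := keyv_lt b (by omega)
    rcases Nat.lt_succ_iff_lt_or_eq.1 hab with h | h
    · exact (ih h (by omega)).trans this
    · rw [h]; exact this

theorem F_inj (j j' : Fin 384) (h : ∀ i, F j i = F j' i) : j = j' := by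
  have e : keyv j = keyv j' := by
    have h0 : Fn j 0 = Fn j' 0 := congrArg Fin.val (h 0)
    have h1 : Fn j 1 = Fn j' 1 := congrArg Fin.val (h 1)
    have h2 : Fn j 2 = Fn j' 2 := congrArg Fin.val (h 2)
    have h3 : Fn j 3 = Fn j' 3 := congrArg Fin.val (h 3)
    have h4 : Fn j 4 = Fn j' 4 := congrArg Fin.val (h 4)
    unfold keyv
    rw [h0, h1, h2, h3, h4]
  apply Fin.ext
  rcases lt_trichotomy (j : ℕ) j' with h | h | h
  · exact absurd e (keyv_mono _ _ h j'.2).ne
  · exact h
  · exact absurd e (keyv_mono _ _ h j.2).ne'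

theorem sphere : Nonempty (realization (cx F) ≃ₜ
    Metric.sphere (0 : EuclideanSpace ℝ (Fin 5)) 1) := by
  have key : ∀ (j : Fin 384) (v : Fin 50),
      ∑ k : Fin 5, ((Hn j k : ℤ) : ℝ) * ((Pn v k : ℤ) : ℝ) = ((dotn j v : ℤ) : ℝ) := by
    intro j v
    rw [Fin.sum_univ_five]
    simp [dotn]
  refine sphere_of_cert (fun v k => ((Pn v k : ℤ) : ℝ)) F (fun j k => ((Hn j k : ℤ) : ℝ)) 30
    (by norm_num) N 0 (fun j i => ?_) (fun j v hv => ?_) F_N F_N_ne
  · rw [key]
    have := c1 j j.2 i i.2
    exact_mod_cast this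
  · rw [key]
    have := c2 j j.2 v v.2
    have h0 : Fn j 0 ≠ v := fun e => hv 0 (Fin.ext e)
    have h1 : Fn j 1 ≠ v := fun e => hv 1 (Fin.ext e)
    have h2 : Fn j 2 ≠ v := fun e => hv 2 (Fin.ext e)
    have h3 : Fn j 3 ≠ v := fun e => hv 3 (Fin.ext e)
    have h4 : Fn j 4 ≠ v := fun e => hv 4 (Fin.ext e)
    simp only [h0, h1, h2, h3, h4, false_or] at this
    exact_mod_cast this

variable (K : Type) [Field K]

noncomputable def I : Ideal (MvPolynomial (Fin 50) K) := srIdeal K (cx F) ⊔ colIdeal K col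

abbrev A := MvPolynomial (Fin 50) K ⧸ I K

noncomputable def q : MvPolynomial (Fin 50) K →ₐ[K] A K := Ideal.Quotient.mkₐ K (I K)

noncomputable def x (v : Fin 50) : A K := q K (X v)

theorem q_zero {f : MvPolynomial (Fin 50) K} : q K f = 0 ↔ f ∈ I K :=
  Ideal.Quotient.eq_zero_iff_mem

theorem x_sum (i : Fin 5) : ∑ v ∈ univ.filter (fun v => col v = i), x K v = 0 := by
  unfold x
  rw [← map_sum, q_zero]
  exact Ideal.mem_sup_right (Ideal.subset_span ⟨i, rfl⟩)

theorem x_non (u v : Fin 50) (h : u ≠ v) (h' : ({u, v} : Finset (Fin 50)) ∉ cx F) :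
    x K u * x K v = 0 := by
  unfold x
  rw [← map_mul, q_zero]
  exact Ideal.mem_sup_left (Ideal.subset_span ⟨{u, v}, h', by rw [prod_pair h]⟩)

theorem x_col (u v : Fin 50) (h : col u = col v) : x K u * x K v = 0 := by
  have a1 : ∀ u v : Fin 50, col u = col v → u ≠ v → x K u * x K v = 0 := by
    intro u v h hne
    refine x_non K u v hne ?_
    rintro ⟨j, hj⟩
    obtain ⟨i, rfl⟩ := hj u (by simp)
    obtain ⟨i', rfl⟩ := hj v (by simp)
    rw [col_F, col_F] at h
    exact hne (by rw [h])
  by_cases hne : u = v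
  · subst hne
    have a2 : x K u * ∑ w ∈ univ.filter (fun w => col w = col u), x K w = 0 := by
      rw [x_sum, mul_zero]
    rw [mul_sum, sum_eq_single u] at a2
    · exact a2
    · intro w hw hwu
      exact a1 u w (mem_filter.1 hw).2.symm hwu.symm
    · simp
  · exact a1 u v h hne

theorem x_adj (u v : Fin 50) (h : adj u v = false) : x K u * x K v = 0 := by
  by_cases hc : col u = col v
  · exact x_col K u v hc
  · refine x_non K u v (fun e => hc (by rw [e])) ?_
    rintro ⟨j, hj⟩
    obtain ⟨i, rfl⟩ := hj u (by simp)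
    obtain ⟨i', rfl⟩ := hj v (by simp)
    rw [col_F, col_F] at hc
    rw [adj_F j i i' (Ne.symm hc)] at h
    cases h

/-! ### the span of 21 monomials -/

def fin (v : ℕ) : Fin 50 := ⟨v % 50, Nat.mod_lt _ (by norm_num)⟩

theorem fin_val (v : Fin 50) : fin v = v := Fin.ext (Nat.mod_eq_of_lt v.2)

noncomputable def W : Submodule K (A K) :=
  Submodule.span K (Set.range fun t : Fin BB.length =>
    x K (fin (BB.get t).1) * x K (fin (BB.get t).2.1) * x K (fin (BB.get t).2.2))

theorem W_rank : Module.finrank K (W K) ≤ 21 := by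
  have := finrank_range_le_card (R := K) (fun t : Fin BB.length =>
    x K (fin (BB.get t).1) * x K (fin (BB.get t).2.1) * x K (fin (BB.get t).2.2))
  rw [Fintype.card_fin] at this
  exact this.trans c11.le

def Inv (k : ℕ) : Prop :=
  ∀ p v w : Fin 50, k.testBit (enc p v w) = true → x K p * x K v * x K w ∈ W K

theorem inv_add {k a b c : ℕ} (hk : Inv K k) (ha : a < 50) (hb : b < 50) (hc : c < 50)
    (h : x K (fin a) * x K (fin b) * x K (fin c) ∈ W K) : Inv K (k ||| 2 ^ enc a b c) := by
  intro p v w ht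
  rw [Nat.testBit_or, Bool.or_eq_true] at ht
  rcases ht with ht | ht
  · exact hk p v w ht
  · rw [Nat.testBit_two_pow] at ht
    have e : enc a b c = enc p v w := by simpa using ht
    have hp := p.2; have hv := v.2; have hw := w.2
    unfold enc at e
    have e1 : a = p := by omega
    have e2 : b = v := by omega
    have e3 : c = w := by omega
    rw [e1, e2, e3, fin_val, fin_val, fin_val] at h
    exact h

theorem inv_list (l : List (ℕ × ℕ × ℕ)) (hl : ∀ b ∈ l, b ∈ BB) :
    Inv K ((l.map fun b => 2 ^ enc b.1 b.2.1 b.2.2).foldr (· ||| ·) 0) := by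
  induction l with
  | nil => intro p v w h; simp at h
  | cons b l ih =>
    simp only [List.map_cons, List.foldr_cons]
    rw [Nat.or_comm]
    obtain ⟨h1, h2, h3⟩ := c10 b (hl b (by simp))
    refine inv_add K (ih fun b hb => hl b (by simp [hb])) h1 h2 h3 ?_
    obtain ⟨t, ht⟩ := List.get_of_mem (hl b (by simp))
    exact Submodule.subset_span ⟨t, by simp only [ht]⟩

theorem elim (u v w : Fin 50)
    (h : ∀ w' : Fin 50, col w' = col w → w' ≠ w → x K u * x K v * x K w' ∈ W K) :
    x K u * x K v * x K w ∈ W K := by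
  have a1 : x K u * x K v * ∑ w' ∈ univ.filter (fun w' => col w' = col w), x K w' = 0 := by
    rw [x_sum, mul_zero]
  rw [mul_sum, ← add_sum_erase _ _ (a := w) (by simp)] at a1
  rw [eq_neg_of_add_eq_zero_left a1]
  refine neg_mem (Submodule.sum_mem _ fun w' hw' => ?_)
  obtain ⟨h1, h2⟩ := mem_erase.1 hw'
  exact h w' (mem_filter.1 h2).2 h1

theorem step {k pos : ℕ} {p v w : Fin 50} (hk : Inv K k) (h : stepOK k pos p v w = true) :
    x K p * x K v * x K w ∈ W K := by
  unfold stepOK at h
  split_ifs at h with h0 h1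
  · rw [show x K p * x K v * x K w = x K v * x K w * x K p by ring]
    refine elim K v w p fun u hu hne => ?_
    have := List.all_eq_true.1 h u (by simp)
    have e1 : coln u = coln p := congrArg Fin.val hu
    have e2 : (u : ℕ) ≠ p := fun e => hne (Fin.ext e)
    simp only [e1, bne_self_eq_false, Bool.false_or, Bool.or_eq_true, beq_iff_eq, e2, false_or,
      Bool.not_eq_true'] at this
    rcases this with (a | a) | a
    · rw [show x K v * x K w * x K u = x K u * x K v * x K w by ring, x_adj K u v a, zero_mul]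
      exact zero_mem _
    · rw [show x K v * x K w * x K u = x K u * x K w * x K v by ring, x_adj K u w a, zero_mul]
      exact zero_mem _
    · rw [show x K v * x K w * x K u = x K u * x K v * x K w by ring]
      exact hk u v w a
  · rw [show x K p * x K v * x K w = x K p * x K w * x K v by ring]
    refine elim K p w v fun u hu hne => ?_
    have := List.all_eq_true.1 h u (by simp)
    have e1 : coln u = coln v := congrArg Fin.val hu
    have e2 : (u : ℕ) ≠ v := fun e => hne (Fin.ext e)
    simp only [e1, bne_self_eq_false, Bool.false_or, Bool.or_eq_true, beq_iff_eq, e2, false_or,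
      Bool.not_eq_true'] at this
    rcases this with (a | a) | a
    · rw [show x K p * x K w * x K u = x K u * x K p * x K w by ring, x_adj K u p a, zero_mul]
      exact zero_mem _
    · rw [show x K p * x K w * x K u = x K u * x K w * x K p by ring, x_adj K u w a, zero_mul]
      exact zero_mem _
    · rw [show x K p * x K w * x K u = x K p * x K u * x K w by ring]
      exact hk p u w a
  · refine elim K p v w fun u hu hne => ?_
    have := List.all_eq_true.1 h u (by simp)
    have e1 : coln u = coln w := congrArg Fin.val hu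
    have e2 : (u : ℕ) ≠ w := fun e => hne (Fin.ext e)
    simp only [e1, bne_self_eq_false, Bool.false_or, Bool.or_eq_true, beq_iff_eq, e2, false_or,
      Bool.not_eq_true'] at this
    rcases this with (a | a) | a
    · rw [show x K p * x K v * x K u = x K u * x K p * x K v by ring, x_adj K u p a, zero_mul]
      exact zero_mem _
    · rw [show x K p * x K v * x K u = x K u * x K v * x K p by ring, x_adj K u v a, zero_mul]
      exact zero_mem _
    · exact hk p v u a

theorem Sn_lt (t i : ℕ) : Sn t i < 50 := Nat.mod_lt _ (by norm_num)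

theorem run_inv (f t k : ℕ) (hk : Inv K k) (h : run f t k = true) :
    ∃ k', Inv K k' ∧ run 0 0 k' = true := by
  induction f generalizing t k with
  | zero => exact ⟨k, hk, h⟩
  | succ f ih =>
    rw [run, Bool.and_eq_true] at h
    refine ih _ _ (inv_add K hk (Sn_lt _ _) (Sn_lt _ _) (Sn_lt _ _) ?_) h.2
    have := step K (p := ⟨Sn t 1, Sn_lt _ _⟩) (v := ⟨Sn t 2, Sn_lt _ _⟩)
      (w := ⟨Sn t 3, Sn_lt _ _⟩) hk h.1
    rwa [← fin_val ⟨Sn t 1, Sn_lt _ _⟩, ← fin_val ⟨Sn t 2, Sn_lt _ _⟩,
      ← fin_val ⟨Sn t 3, Sn_lt _ _⟩] at this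

theorem memW (p v w : Fin 50) (hp : (p : ℕ) < 24) (hv : 24 ≤ (v : ℕ) ∧ (v : ℕ) < 48)
    (hw : 24 ≤ (w : ℕ) ∧ (w : ℕ) < 48) : x K p * x K v * x K w ∈ W K := by
  obtain ⟨k, hk, h⟩ := run_inv K 267 0 (known 0) (inv_list K BB fun _ h => h) c9
  have key : ∀ v w : Fin 50, 24 ≤ (v : ℕ) ∧ (v : ℕ) < 48 → 24 ≤ (w : ℕ) ∧ (w : ℕ) < 48 →
      coln v < coln w → x K p * x K v * x K w ∈ W K := by
    intro v w hv hw hc
    rw [run] at h
    have a1 := List.all_eq_true.1 (List.all_eq_true.1 (List.all_eq_true.1 h p (by simpa using hp))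
      (v - 24) (by simp; omega)) (w - 24) (by simp; omega)
    rw [Nat.sub_add_cancel hv.1, Nat.sub_add_cancel hw.1] at a1
    simp only [ge_iff_le, Bool.or_eq_true, decide_eq_true_eq, Bool.not_eq_true'] at a1
    rcases a1 with ((a | a) | a) | a
    · omega
    · rw [x_adj K p v a, zero_mul]; exact zero_mem _
    · rw [mul_right_comm, x_adj K p w a, zero_mul]; exact zero_mem _
    · exact hk p v w a
  rcases lt_trichotomy (coln v) (coln w) with h | h | h
  · exact key v w hv hw h
  · rw [mul_assoc, x_col K v w (Fin.ext h), mul_zero]; exact zero_mem _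
  · rw [mul_right_comm]; exact key w v hw hv h

/-! ### the top-degree functional -/

noncomputable def mono (j : Fin 384) : Fin 50 →₀ ℕ := ∑ i, Finsupp.single (F j i) 1

noncomputable def eps (j : Fin 384) : K := if EE.testBit j then -1 else 1

theorem eps_N (j : Fin 384) (i : Fin 5) : eps K (N j i) = - eps K j := by
  have : EE.testBit (N j i) = !EE.testBit j := (c4 j j.2 i i.2).2.2
  unfold eps
  rw [this]
  cases EE.testBit j <;> simp

theorem eps_ne (j : Fin 384) : eps K j ≠ 0 := by
  unfold eps
  split_ifs <;> simp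

noncomputable def Int0 : MvPolynomial (Fin 50) K →ₗ[K] K := ∑ j, eps K j • lcoeff K (mono j)

theorem Int0_apply (f : MvPolynomial (Fin 50) K) :
    Int0 K f = ∑ j, eps K j * coeff (mono j) f := by
  simp [Int0, LinearMap.sum_apply]

theorem mono_supp (j : Fin 384) (v : Fin 50) (h : mono j v ≠ 0) : ∃ i, F j i = v := by
  by_contra hc
  push Not at hc
  apply h
  simp [mono, Finsupp.finsetSum_apply, hc]

theorem mono_F (j : Fin 384) (i : Fin 5) : mono j (F j i) ≠ 0 := by
  simp only [mono, Finsupp.finsetSum_apply]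
  intro h
  have := (sum_eq_zero_iff.1 h) i (mem_univ _)
  simp at this

theorem mono_sub (j : Fin 384) (i : Fin 5) :
    mono j - Finsupp.single (F j i) 1 = ∑ i' ∈ univ.erase i, Finsupp.single (F j i') 1 := by
  unfold mono
  rw [← add_sum_erase _ _ (mem_univ i), add_tsub_cancel_left]

def annI {R : Type} [CommRing R] [Algebra K R] (l : R →ₗ[K] K) : Ideal R where
  carrier := {f | ∀ h, l (h * f) = 0}
  add_mem' := fun {a b} ha hb h => by rw [mul_add, map_add, ha h, hb h, add_zero]
  zero_mem' := fun h => by simp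
  smul_mem' := fun c a ha h => by rw [smul_eq_mul, ← mul_assoc]; exact ha _

theorem mem_annI {R : Type} [CommRing R] [Algebra K R] (l : R →ₗ[K] K) (f : R) :
    f ∈ annI K l ↔ ∀ h, l (h * f) = 0 := Iff.rfl

theorem ann_zero {R : Type} [CommRing R] [Algebra K R] (l : R →ₗ[K] K) (J : Ideal R)
    (h : J ≤ annI K l) (f : R) (hf : f ∈ J) : l f = 0 := by
  have := (mem_annI K l f).1 (h hf) 1
  rwa [one_mul] at this

theorem Int0_I (f : MvPolynomial (Fin 50) K) (hf : f ∈ I K) : Int0 K f = 0 := by
  classical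
  have hJ : I K ≤ annI K (Int0 K) := by
    refine sup_le (Ideal.span_le.2 ?_) (Ideal.span_le.2 ?_)
    · rintro _ ⟨s, hs, rfl⟩
      refine (mem_annI K _ _).2 fun h => ?_
      rw [Int0_apply]
      refine sum_eq_zero fun j _ => ?_
      have e : (∏ v ∈ s, X v : MvPolynomial (Fin 50) K) =
          monomial (∑ v ∈ s, Finsupp.single v 1) 1 := by
        rw [monomial_sum_one]; rfl
      rw [e, coeff_mul_monomial', if_neg, mul_zero]
      intro hle
      refine hs ⟨j, fun v hv => mono_supp j v fun e0 => ?_⟩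
      have := hle v
      rw [e0, Finsupp.finsetSum_apply, nonpos_iff_eq_zero, sum_eq_zero_iff] at this
      simpa using this v hv
    · rintro _ ⟨i, rfl⟩
      refine (mem_annI K _ _).2 fun h => ?_
      rw [Int0_apply]
      have e : ∀ j, coeff (mono j) (h * ∑ v ∈ univ.filter (fun v => col v = i), X v) =
          coeff (∑ i' ∈ univ.erase i, Finsupp.single (F j i') 1) h := by
        intro j
        rw [mul_sum, coeff_sum, sum_eq_single (F j i)]
        · rw [coeff_mul_X', if_pos (Finsupp.mem_support_iff.2 (mono_F j i)), mono_sub]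
        · intro v hv hne
          rw [coeff_mul_X', if_neg]
          intro hs
          obtain ⟨i', rfl⟩ := mono_supp j v (Finsupp.mem_support_iff.1 hs)
          have := (mem_filter.1 hv).2
          rw [col_F] at this
          exact hne (by rw [this])
        · simp [col_F]
      simp only [e]
      refine sum_involution (fun j _ => N j i) (fun j _ => ?_) (fun j _ _ e => ?_)
        (fun j _ => mem_univ _) (fun j _ => N_N j i)
      · have e2 : ∑ i' ∈ univ.erase i, Finsupp.single (F (N j i) i') 1 =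
            ∑ i' ∈ univ.erase i, Finsupp.single (F j i') 1 :=
          sum_congr rfl (fun i' hi' => by rw [F_N j i i' (mem_erase.1 hi').1])
        rw [eps_N, e2]
        ring
      · exact F_N_ne j i i (by rw [e])
  exact ann_zero K _ _ hJ f hf

noncomputable def Itg : A K →ₗ[K] K :=
  Submodule.liftQ ((I K).restrictScalars K) (Int0 K) (fun f hf => Int0_I K f hf)

theorem Int_q (f : MvPolynomial (Fin 50) K) : Itg K (q K f) = Int0 K f := rfl

theorem Int_facet (j : Fin 384) :
    Itg K (x K (F j 0) * x K (F j 4) * (x K (F j 1) * x K (F j 2) * x K (F j 3))) = eps K j := by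
  classical
  have e : x K (F j 0) * x K (F j 4) * (x K (F j 1) * x K (F j 2) * x K (F j 3)) =
      q K (monomial (mono j) 1) := by
    unfold mono x
    rw [monomial_sum_one, Fin.prod_univ_five]
    simp only [map_mul]
    show _ = q K (X _) * q K (X _) * q K (X _) * q K (X _) * q K (X _)
    ring
  rw [e, Int_q, Int0_apply, sum_eq_single j]
  · simp
  · intro j' _ hne
    rw [coeff_monomial, if_neg, mul_zero]
    intro e
    refine hne (F_inj _ _ fun i => ?_)
    obtain ⟨i', hi'⟩ := mono_supp j' (F j i) (by rw [← e]; exact mono_F j i)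
    have := congrArg col hi'
    rw [col_F, col_F] at this
    rw [← hi', this]
  · simp

noncomputable def ee (p : Fin 24) : Fin 50 := ⟨p, by omega⟩

noncomputable def av (a : Fin 24 → K) : MvPolynomial (Fin 50) K := ∑ p, a p • X (ee p)

theorem av_hom (a : Fin 24 → K) : (av K a).IsHomogeneous 1 :=
  (homogeneousSubmodule (Fin 50) K 1).sum_mem fun _ _ =>
    Submodule.smul_mem _ _ (isHomogeneous_X K _)

theorem q_av (a : Fin 24 → K) : q K (av K a) = ∑ p, a p • x K (ee p) := by
  simp [av, x]

theorem Itg_av (a : Fin 24 → K) (j : Fin 384) (p p' : Fin 24) (hp : F j 0 = ee p)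
    (hp' : F (N j 0) 0 = ee p') :
    Itg K (q K (av K a) * x K (F j 4) * (x K (F j 1) * x K (F j 2) * x K (F j 3))) =
      eps K j * (a p - a p') := by
  have hne : p ≠ p' := fun e => F_N_ne j 0 0 (by rw [hp, hp', e])
  rw [q_av, sum_mul, sum_mul, map_sum, sum_eq_add p p' hne]
  · simp only [smul_mul_assoc, map_smul, smul_eq_mul]
    rw [← hp, ← hp', Int_facet]
    have := Int_facet K (N j 0)
    rw [F_N j 0 4 (by decide), F_N j 0 1 (by decide), F_N j 0 2 (by decide),
      F_N j 0 3 (by decide)] at this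
    rw [this, eps_N]
    ring
  · intro r _ hr
    have h1 : (r : ℕ) ≠ Fn j 0 := fun e => hr.1 (Fin.ext (by
      have : Fn j 0 = (p : ℕ) := congrArg Fin.val hp
      omega))
    have h2 : (r : ℕ) ≠ Fn (Nn j 0) 0 := fun e => hr.2 (Fin.ext (by
      have : Fn (Nn j 0) 0 = (p' : ℕ) := congrArg Fin.val hp'
      omega))
    have := c7 j j.2 r r.2
    simp only [h1, h2, false_or] at this
    have z : x K (ee r) * x K (F j 4) * (x K (F j 1) * x K (F j 2) * x K (F j 3)) = 0 := by
      rcases this with a | a | a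
      · have := x_adj K (ee r) (F j 1) a
        linear_combination (x K (F j 4) * x K (F j 2) * x K (F j 3)) * this
      · have := x_adj K (ee r) (F j 2) a
        linear_combination (x K (F j 4) * x K (F j 1) * x K (F j 3)) * this
      · have := x_adj K (ee r) (F j 3) a
        linear_combination (x K (F j 4) * x K (F j 1) * x K (F j 2)) * this
    rw [smul_mul_assoc, smul_mul_assoc, z, smul_zero, map_zero]
  · simp
  · simp

theorem nonconst (a : Fin 24 → K) (h : ∃ p, a p ≠ a 0) : ∃ j : Fin 384, F j 4 = 48 ∧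
    Itg K (q K (av K a) * x K (F j 4) * (x K (F j 1) * x K (F j 2) * x K (F j 3))) ≠ 0 := by
  by_contra hc
  push Not at hc
  obtain ⟨p, hp⟩ := h
  apply hp
  have key : ∀ n (hn : n < 24), a ⟨n, hn⟩ = a 0 := by
    intro n
    induction n using Nat.strong_induction_on with
    | _ n ih =>
      intro hn
      rcases c6 n hn with h | ⟨h1, h2, h3⟩
      · subst h; rfl
      · have a1 := hc (T n) (Fin.ext h2)
        rw [Itg_av K a (T n) ⟨n, hn⟩ ⟨Fn (Nn (Tn n) 0) 0, by omega⟩ (Fin.ext h1) rfl] at a1
        have a2 := sub_eq_zero.1 ((mul_eq_zero.1 a1).resolve_left (eps_ne K _))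
        rw [a2]
        exact ih _ h3 _
  exact key p p.2

noncomputable def Lm (c : Fin 50 → K) : MvPolynomial (Fin 50) K :=
  ∑ v ∈ univ.filter (fun v : Fin 50 => 24 ≤ (v : ℕ) ∧ (v : ℕ) < 48), c v • X v

theorem Lm_hom (c : Fin 50 → K) : (Lm K c).IsHomogeneous 1 :=
  (homogeneousSubmodule (Fin 50) K 1).sum_mem fun _ _ =>
    Submodule.smul_mem _ _ (isHomogeneous_X K _)

theorem q_Lm (c : Fin 50 → K) : q K (Lm K c) =
    ∑ v ∈ univ.filter (fun v : Fin 50 => 24 ≤ (v : ℕ) ∧ (v : ℕ) < 48), c v • x K v := by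
  simp [Lm, x]

theorem exists_ker (c : Fin 50 → K) :
    ∃ a : Fin 24 → K, (∃ p, a p ≠ a 0) ∧ q K (av K a) * q K (Lm K c) * q K (Lm K c) = 0 := by
  let Φ : (Fin 24 → K) →ₗ[K] A K :=
    { toFun := fun a => q K (av K a) * q K (Lm K c) * q K (Lm K c)
      map_add' := by
        intro a b
        simp only [q_av, Pi.add_apply, add_smul, sum_add_distrib, add_mul]
      map_smul' := by
        intro t a
        simp only [q_av, Pi.smul_apply, smul_eq_mul, RingHom.id_apply, mul_smul, ← smul_sum,
          smul_mul_assoc] }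
  have hr : LinearMap.range Φ ≤ W K := by
    rintro _ ⟨a, rfl⟩
    show q K (av K a) * q K (Lm K c) * q K (Lm K c) ∈ W K
    rw [q_av, q_Lm, sum_mul, sum_mul]
    refine Submodule.sum_mem _ fun p _ => ?_
    rw [mul_sum]
    refine Submodule.sum_mem _ fun w hw => ?_
    rw [mul_sum, sum_mul]
    refine Submodule.sum_mem _ fun v hv => ?_
    simp only [smul_mul_assoc, mul_smul_comm]
    exact Submodule.smul_mem _ _ (Submodule.smul_mem _ _ (Submodule.smul_mem _ _
      (memW K _ v w p.2 (mem_filter.1 hv).2 (mem_filter.1 hw).2)))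
  haveI : Module.Finite K (W K) := Module.Finite.span_of_finite K (Set.finite_range _)
  have h1 : Module.finrank K (LinearMap.range Φ) ≤ 21 :=
    (Submodule.finrank_mono hr).trans (W_rank K)
  have h2 := LinearMap.finrank_range_add_finrank_ker Φ
  rw [Module.finrank_fin_fun] at h2
  by_contra hc
  push Not at hc
  have h3 : LinearMap.ker Φ ≤ Submodule.span K {fun _ => (1 : K)} := by
    intro a ha
    rw [Submodule.mem_span_singleton]
    refine ⟨a 0, ?_⟩
    funext p
    by_contra hp
    exact hc a ⟨p, fun e => hp (by simp [e])⟩ ha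
  have h4 := (Submodule.finrank_mono h3).trans
    (finrank_span_le_card ({fun _ => (1 : K)} : Set (Fin 24 → K)))
  simp at h4
  omega

theorem not_wlp : ¬ WLP (I K) := by
  rintro ⟨l, hl, h⟩
  obtain ⟨c, rfl⟩ := lin_eq l hl
  obtain ⟨a, ha, hk⟩ := exists_ker K c
  obtain ⟨j, hj, hI⟩ := nonconst K a ha
  rw [hj] at hI
  set l : MvPolynomial (Fin 50) K := ∑ v, c v • X v with hld
  set γ : K := c 48 - c 49
  have hy : x K 48 + x K 49 = 0 := by
    have := x_sum K 4
    rwa [show univ.filter (fun v => col v = 4) = {48, 49} by decide +kernel,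
      sum_pair (by decide)] at this
  have hyy : x K 48 * x K 48 = 0 := x_col K _ _ rfl
  have hal : q K (av K a) * q K l = q K (av K a) * (q K (Lm K c) + γ • x K 48) := by
    have e1 : q K l = ∑ v, c v • x K v := by simp [hld, x]
    rw [e1, ← sum_filter_add_sum_filter_not univ (fun v : Fin 50 => (v : ℕ) < 24),
      ← sum_filter_add_sum_filter_not (univ.filter (fun v : Fin 50 => ¬ (v : ℕ) < 24))
        (fun v : Fin 50 => (v : ℕ) < 48), mul_add]
    have z : q K (av K a) * ∑ v ∈ univ.filter (fun v : Fin 50 => (v : ℕ) < 24), c v • x K v = 0 := by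
      rw [q_av, sum_mul]
      refine sum_eq_zero fun p _ => ?_
      rw [mul_sum]
      refine sum_eq_zero fun v hv => ?_
      rw [smul_mul_assoc, mul_smul_comm, x_col K (ee p) v, smul_zero, smul_zero]
      have h1 := (mem_filter.1 hv).2
      apply Fin.ext
      show coln p = coln v
      unfold coln
      rw [if_pos p.2, if_pos h1]
    rw [z, zero_add, q_Lm]
    rw [show (univ.filter (fun v : Fin 50 => ¬ (v : ℕ) < 24)).filter
        (fun v : Fin 50 => ¬ (v : ℕ) < 48) = {48, 49} by decide +kernel, sum_pair (by decide),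
      show (univ.filter (fun v : Fin 50 => ¬ (v : ℕ) < 24)).filter
        (fun v : Fin 50 => (v : ℕ) < 48) =
        univ.filter (fun v : Fin 50 => 24 ≤ (v : ℕ) ∧ (v : ℕ) < 48) by decide +kernel,
      eq_neg_of_add_eq_zero_right hy, smul_neg, sub_smul, sub_eq_add_neg]
  set Tm : MvPolynomial (Fin 50) K := X (F j 1) * X (F j 2) * X (F j 3) with hT
  have hTq : q K Tm = x K (F j 1) * x K (F j 2) * x K (F j 3) := by simp [hT, x]
  have hTh : Tm.IsHomogeneous (2 + 1) :=
    ((isHomogeneous_X K _).mul (isHomogeneous_X K _)).mul (isHomogeneous_X K _)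
  rw [← hTq] at hI
  have hLT : q K (Lm K c) * q K Tm = 0 := by
    rw [q_Lm, sum_mul]
    refine sum_eq_zero fun v hv => ?_
    rw [smul_mul_assoc, hTq]
    obtain ⟨h1, h2⟩ := (mem_filter.1 hv).2
    have z : x K v * (x K (F j 1) * x K (F j 2) * x K (F j 3)) = 0 := by
      have hc : col v = 1 ∨ col v = 2 ∨ col v = 3 := by
        simp only [Fin.ext_iff, col, coln]
        split_ifs <;> simp <;> omega
      rcases hc with hc | hc | hc
      · have := x_col K v (F j 1) (by rw [hc, col_F])
        linear_combination (x K (F j 2) * x K (F j 3)) * this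
      · have := x_col K v (F j 2) (by rw [hc, col_F])
        linear_combination (x K (F j 1) * x K (F j 3)) * this
      · have := x_col K v (F j 3) (by rw [hc, col_F])
        linear_combination (x K (F j 1) * x K (F j 2)) * this
    rw [z, smul_zero]
  set U : MvPolynomial (Fin 50) K := av K a * (Lm K c - γ • X 48) with hU
  have hUh : U.IsHomogeneous 2 :=
    (av_hom K a).mul ((homogeneousSubmodule (Fin 50) K 1).sub_mem (Lm_hom K c)
      (Submodule.smul_mem _ _ (isHomogeneous_X K _)))
  have hUq : q K U = q K (av K a) * (q K (Lm K c) - γ • x K 48) := by simp [hU, x]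
  set α := q K (av K a)
  set Λ := q K (Lm K c)
  set y := x K 48 with hyd
  set τ := q K Tm
  have hlU : q K l * q K U = 0 := by
    rw [hUq, ← mul_assoc, mul_comm (q K l), hal]
    rw [Algebra.smul_def γ y]
    linear_combination hk - α * (algebraMap K (A K) γ) ^ 2 * hyy
  have hUT : Itg K (q K U * τ) = 0 → γ = 0 := by
    intro e
    have : q K U * τ = algebraMap K (A K) (-γ) * (α * y * τ) := by
      rw [hUq]
      rw [Algebra.smul_def γ y, map_neg]
      linear_combination α * hLT
    have e2 : Itg K (algebraMap K (A K) (-γ) * (α * y * τ)) = -γ * Itg K (α * y * τ) := by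
      rw [← Algebra.smul_def]
      exact map_smul (Itg K) _ _
    rw [this, e2, mul_eq_zero] at e
    exact neg_eq_zero.1 (e.resolve_right hI)
  rcases h 2 with h | h
  · have h1 := h U hUh (by rw [← q_zero, map_mul]; exact hlU)
    rw [← q_zero] at h1
    have h2 : γ = 0 := hUT (by rw [h1, zero_mul, map_zero])
    rw [hUq, h2, zero_smul, sub_zero] at h1
    rw [h2, zero_smul, add_zero, h1] at hal
    have h3 := h (av K a * X 48) ((av_hom K a).mul (isHomogeneous_X K _)) (by
      rw [← q_zero, map_mul, map_mul]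
      show q K l * (α * y) = 0
      linear_combination y * hal)
    rw [← q_zero, map_mul] at h3
    apply hI
    have h4 : α * y = 0 := h3
    rw [h4, zero_mul, map_zero]
  · have h0 : ∀ g : MvPolynomial (Fin 50) K, g.IsHomogeneous (2 + 1) →
        Itg K (q K U * q K g) = 0 := by
      intro g hg
      obtain ⟨f, -, hf⟩ := h g hg
      rw [← q_zero, map_sub, map_mul, sub_eq_zero] at hf
      rw [hf, ← mul_assoc, mul_comm (q K U), hlU, zero_mul, map_zero]
    have h2 : γ = 0 := hUT (h0 Tm hTh)
    obtain ⟨f, hf, hf2⟩ := h Tm hTh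
    rw [← q_zero, map_sub, map_mul, sub_eq_zero] at hf2
    have h3 := h0 (f * X 48) (hf.mul (isHomogeneous_X K _))
    rw [hUq, h2, zero_smul, sub_zero, map_mul (q K)] at h3
    rw [h2, zero_smul, add_zero] at hal
    apply hI
    have h4 : α * y * τ = α * Λ * (q K f * q K (X 48)) := by
      have h5 : τ = q K l * q K f := hf2
      have h6 : q K (X 48) = y := rfl
      rw [h5, h6]
      linear_combination (y * q K f) * hal
    rw [h4, h3]

end Pool.Agent.H76.K24
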