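import Mathlib

namespace Pool.Agent.H76.LensA

open Finset

abbrev G := ZMod 25
abbrev R := AddMonoidAlgebra ℤ G

noncomputable def u (a : G) : R := AddMonoidAlgebra.single a 1

noncomputable def F (a : G) : PowerSeries R := PowerSeries.mk fun m => u (m • a)

noncomputable def T (a : G) : PowerSeries R :=
  ∑ m ∈ range 25, PowerSeries.X ^ m * PowerSeries.C (u (m • a))

lemma u_add (a b : G) : u (a + b) = u a * u b := by simp [u]

lemma u_zero : u 0 = 1 := rfl

lemma u_sum {ι : Type*} (s : Finset ι) (f : ι → G) : ∏ i ∈ s, u (f i) = u (∑ i ∈ s, f i) := by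
  classical
  induction s using Finset.induction_on with
  | empty => simp [u_zero]
  | insert a s ha ih => rw [prod_insert ha, sum_insert ha, ih, u_add]

lemma coeff_u_mul (a w : G) (f : R) : (u a * f).coeff w = f.coeff (w - a) := by
  have := AddMonoidAlgebra.coeff_single_mul_eq_mul_coeff (x := f) (r := (1 : ℤ)) (m := a) (m₁ := w)
    (w - a) (fun m' _ => ⟨fun h => by rw [← h]; ring, fun h => by rw [h]; ring⟩)
  simpa [u] using this

lemma FT (a : G) : (1 - PowerSeries.X ^ 25) * F a = T a := by
  ext1 k
  rw [sub_mul, one_mul, map_sub, PowerSeries.coeff_X_pow_mul', T, map_sum]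
  simp only [PowerSeries.coeff_X_pow_mul', PowerSeries.coeff_C, F, PowerSeries.coeff_mk]
  split_ifs with h
  · have : k • a = (k - 25) • a := by
      obtain ⟨j, rfl⟩ := Nat.exists_eq_add_of_le h
      have h25 : (25 : ℕ) • a = 0 := by
        rw [nsmul_eq_mul]
        have : ((25 : ℕ) : G) = 0 := ZMod.natCast_self 25
        rw [this, zero_mul]
      rw [add_nsmul, h25]; simp
    rw [this, sub_self]
    symm
    refine sum_eq_zero fun m hm => ?_
    have := mem_range.1 hm
    rw [if_pos (by omega), if_neg (by omega)]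
  · rw [sub_zero, sum_eq_single k]
    · simp
    · intro m _ hmk
      split_ifs with h1 h2
      · omega
      · rfl
      · rfl
    · intro hk; exact absurd (mem_range.2 (by omega)) hk

lemma cancel1 (A B : PowerSeries R)
    (h : ∀ k, (PowerSeries.coeff k ((1 - PowerSeries.X ^ 25) * A)).coeff 0 =
      (PowerSeries.coeff k ((1 - PowerSeries.X ^ 25) * B)).coeff 0) :
    ∀ k, (PowerSeries.coeff k A).coeff 0 = (PowerSeries.coeff k B).coeff 0 := by
  intro k
  induction k using Nat.strong_induction_on with
  | _ k ih =>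
  have := h k
  rw [sub_mul, sub_mul, one_mul, one_mul, map_sub, map_sub, PowerSeries.coeff_X_pow_mul',
    PowerSeries.coeff_X_pow_mul'] at this
  split_ifs at this with hk
  · have e := ih (k - 25) (by omega)
    simp only [AddMonoidAlgebra.coeff_sub, Finsupp.sub_apply] at this
    linarith
  · simpa using this

lemma cancelN (N : ℕ) (A B : PowerSeries R)
    (h : ∀ k, (PowerSeries.coeff k ((1 - PowerSeries.X ^ 25) ^ N * A)).coeff 0 =
      (PowerSeries.coeff k ((1 - PowerSeries.X ^ 25) ^ N * B)).coeff 0) :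
    ∀ k, (PowerSeries.coeff k A).coeff 0 = (PowerSeries.coeff k B).coeff 0 := by
  induction N with
  | zero => simpa using h
  | succ N ih =>
    apply ih
    apply cancel1
    simpa only [pow_succ', mul_assoc] using h

noncomputable def g : List G → G → Polynomial ℕ
  | [], w => if w = 0 then 1 else 0
  | a :: L, w => ∑ m ∈ range 25, Polynomial.X ^ m * g L (w - m • a)

lemma coeff_TL (L : List G) : ∀ (w : G) (k : ℕ),
    (PowerSeries.coeff k (L.map T).prod).coeff w = ((g L w).coeff k : ℤ) := by
  induction L with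
  | nil =>
    intro w k
    simp only [List.map_nil, List.prod_nil, g, PowerSeries.coeff_one]
    by_cases hk : k = 0 <;> by_cases hw : w = 0 <;>
      simp [hk, hw, Polynomial.coeff_one, AddMonoidAlgebra.one_def]
  | cons a L ih =>
    intro w k
    rw [List.map_cons, List.prod_cons, T, sum_mul, map_sum, g, Polynomial.finsetSum_coeff,
      AddMonoidAlgebra.coeff_sum, Finsupp.finsetSum_apply]
    push_cast
    refine sum_congr rfl fun m _ => ?_
    rw [mul_assoc, PowerSeries.coeff_X_pow_mul', Polynomial.coeff_X_pow_mul']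
    split_ifs with h
    · rw [PowerSeries.coeff_C_mul, coeff_u_mul, ih]
    · simp

lemma g_one (L : List G) : ∀ w, (g L w).eval 1 ≤ 25 ^ L.length := by
  induction L with
  | nil => intro w; simp only [g]; split_ifs <;> simp
  | cons a L ih =>
    intro w
    simp only [g, Polynomial.eval_finsetSum, Polynomial.eval_mul, Polynomial.eval_pow,
      Polynomial.eval_X, one_pow, one_mul, List.length_cons]
    calc _ ≤ ∑ _m ∈ range 25, 25 ^ L.length := sum_le_sum fun m _ => ih _
      _ = _ := by simp [pow_succ, mul_comm]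

lemma coeff_le_eval (p : Polynomial ℕ) (i : ℕ) : p.coeff i ≤ p.eval 1 := by
  rw [Polynomial.eval_eq_sum, Polynomial.sum]
  by_cases h : i ∈ p.support
  · simpa using single_le_sum (f := fun n => p.coeff n * 1 ^ n) (fun _ _ => Nat.zero_le _) h
  · rw [Polynomial.notMem_support_iff.1 h]; exact Nat.zero_le _

lemma eq_of_eval (B : ℕ) : ∀ (n : ℕ) (p q : Polynomial ℕ), p.natDegree ≤ n → q.natDegree ≤ n →
    (∀ i, p.coeff i < B) → (∀ i, q.coeff i < B) → p.eval B = q.eval B → p = q := by
  intro n
  induction n with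
  | zero =>
    intro p q hp hq _ _ h
    rw [Polynomial.eq_C_of_natDegree_le_zero hp, Polynomial.eq_C_of_natDegree_le_zero hq] at h ⊢
    simp only [Polynomial.eval_C] at h
    rw [h]
  | succ n ih =>
    intro p q hp hq h1 h2 h
    rw [← Polynomial.X_mul_divX_add p, ← Polynomial.X_mul_divX_add q] at h
    simp only [Polynomial.eval_add, Polynomial.eval_mul, Polynomial.eval_X, Polynomial.eval_C] at h
    have a1 := h1 0
    have a2 := h2 0
    have e0 : p.coeff 0 = q.coeff 0 := by
      have := congrArg (· % B) h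
      simpa [Nat.mul_add_mod, Nat.mod_eq_of_lt a1, Nat.mod_eq_of_lt a2] using this
    have e1 : p.divX.eval B = q.divX.eval B := by
      rw [e0] at h
      exact Nat.eq_of_mul_eq_mul_left (by omega) (Nat.add_right_cancel h)
    have := ih p.divX q.divX
      (by rw [Polynomial.natDegree_divX_eq_natDegree_tsub_one]; omega)
      (by rw [Polynomial.natDegree_divX_eq_natDegree_tsub_one]; omega)
      (fun i => by rw [Polynomial.coeff_divX]; exact h1 _)
      (fun i => by rw [Polynomial.coeff_divX]; exact h2 _) e1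
    rw [← Polynomial.X_mul_divX_add p, ← Polynomial.X_mul_divX_add q, this, e0]

def force : List ℕ → (List ℕ → List ℕ) → List ℕ
  | [], k => k []
  | 0 :: xs, k => force xs fun l => k (0 :: l)
  | (n + 1) :: xs, k => force xs fun l => k ((n + 1) :: l)

lemma force_eq (l : List ℕ) : ∀ k, force l k = k l := by
  induction l with
  | nil => intro k; rfl
  | cons x xs ih => intro k; cases x <;> simp [force, ih]

def step (a : ℕ) (v : List ℕ) : List ℕ :=
  (List.range 25).map fun w =>
    ((List.range 25).map fun m => (v.getD ((w + m * (25 - a)) % 25) 0) <<< (180 * m)).sum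

def run : List ℕ → List ℕ
  | [] => 1 :: List.replicate 24 0
  | a :: L => force (run L) (step a)

lemma run_eq (L : List ℕ) (hL : ∀ a ∈ L, a ≤ 25) : ∀ w < 25,
    (run L).getD w 0 = (g (L.map (Nat.cast : ℕ → G)) (w : G)).eval (2 ^ 180) := by
  induction L with
  | nil =>
    intro w hw
    simp only [List.map_nil, g]
    interval_cases w <;> first | (rw [if_pos (by decide)]; simp [run]) | (rw [if_neg (by decide)]; simp [run])
  | cons a L ih =>
    intro w hw
    have ha := hL a (by simp)
    have ih' := ih (fun b hb => hL b (by simp [hb]))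
    rw [run, force_eq, step, List.getD_eq_getElem _ _ (by simpa using hw)]
    simp only [List.getElem_map, List.getElem_range, List.map_cons, g, Polynomial.eval_finsetSum,
      Polynomial.eval_mul, Polynomial.eval_pow, Polynomial.eval_X]
    rw [← List.sum_toFinset _ List.nodup_range, List.toFinset_range]
    refine sum_congr rfl fun m _ => ?_
    rw [ih' _ (Nat.mod_lt _ (by norm_num)), Nat.shiftLeft_eq, pow_mul, mul_comm]
    congr 3
    rw [ZMod.natCast_mod]
    push_cast [Nat.cast_sub ha]
    have : (25 : G) = 0 := ZMod.natCast_self 25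
    rw [this]; simp; ring

def sA : Fin 19 → ℕ := ![1, 1, 1, 2, 2, 3, 4, 6, 6, 7, 8, 9, 9, 9, 11, 11, 11, 12, 12]
def sB : Fin 19 → ℕ := ![1, 1, 1, 2, 2, 3, 4, 4, 6, 6, 8, 8, 9, 9, 11, 11, 11, 12, 12]

def lst (s : Fin 19 → ℕ) : List ℕ := List.ofFn s ++ List.ofFn fun j => 25 - s j

lemma comp : (run (lst sA)).getD 0 0 = (run (lst sB)).getD 0 0 := by decide +kernel

def wt (s : Fin 19 → ℕ) : Fin 19 ⊕ Fin 19 → G := Sum.elim (fun j => (s j : G)) fun j => -(s j : G)

/-- Number of weight-zero monomials of degree `k`. -/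
noncomputable def cnt (s : Fin 19 → ℕ) (k : ℕ) : ℕ :=
  ((finsuppAntidiag (univ : Finset (Fin 19 ⊕ Fin 19)) k).filter
    fun e => ∑ i, e i • wt s i = 0).card

lemma cnt_eq (s : Fin 19 → ℕ) (k : ℕ) :
    (PowerSeries.coeff k (∏ i, F (wt s i))).coeff 0 = cnt s k := by
  rw [PowerSeries.coeff_prod, AddMonoidAlgebra.coeff_sum, Finsupp.finsetSum_apply, cnt,
    card_filter]
  push_cast
  refine sum_congr rfl fun e _ => ?_
  simp only [F, PowerSeries.coeff_mk]
  rw [u_sum, u, AddMonoidAlgebra.coeff_single, Finsupp.single_apply]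

lemma prodT (s : Fin 19 → ℕ) (hs : ∀ j, s j ≤ 25) :
    (1 - PowerSeries.X ^ 25) ^ 38 * ∏ i, F (wt s i) =
      (((lst s).map (Nat.cast : ℕ → G)).map T).prod := by
  have : (1 - PowerSeries.X ^ 25 : PowerSeries R) ^ 38 =
      ∏ _i : Fin 19 ⊕ Fin 19, (1 - PowerSeries.X ^ 25) := by simp
  rw [this, ← prod_mul_distrib]
  simp only [FT]
  rw [Fintype.prod_sum_type, lst, List.map_append, List.map_append, List.prod_append,
    List.map_ofFn, List.map_ofFn, List.map_ofFn, List.map_ofFn, List.prod_ofFn, List.prod_ofFn]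
  refine congrArg₂ (· * ·) (prod_congr rfl fun j _ => ?_) (prod_congr rfl fun j _ => ?_)
  · simp only [wt, Sum.elim_inl, Function.comp]
  simp only [wt, Sum.elim_inr, Function.comp]
  refine congrArg T ?_
  push_cast [Nat.cast_sub (hs j)]
  have : (25 : G) = 0 := ZMod.natCast_self 25
  rw [this]; simp

theorem cnt_AB (k : ℕ) : cnt sA k = cnt sB k := by
  have hA : ∀ j, sA j ≤ 25 := by decide
  have hB : ∀ j, sB j ≤ 25 := by decide
  have key : g ((lst sA).map (Nat.cast : ℕ → G)) 0 = g ((lst sB).map (Nat.cast : ℕ → G)) 0 := by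
    refine eq_of_eval (2 ^ 180) _ _ _ (le_max_left _ _) (le_max_right _ _) (fun i => ?_)
      (fun i => ?_) ?_
    · refine ((coeff_le_eval _ _).trans (g_one _ _)).trans_lt ?_
      simp [lst]
    · refine ((coeff_le_eval _ _).trans (g_one _ _)).trans_lt ?_
      simp [lst]
    · have a := run_eq (lst sA) (by decide) 0 (by norm_num)
      have b := run_eq (lst sB) (by decide) 0 (by norm_num)
      rw [Nat.cast_zero] at a b
      rw [← a, ← b, comp]
  have := cancelN 38 (∏ i, F (wt sA i)) (∏ i, F (wt sB i)) (fun k => by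
    rw [prodT sA hA, prodT sB hB, coeff_TL, coeff_TL, key]) k
  rw [cnt_eq, cnt_eq] at this
  exact_mod_cast this

end Pool.Agent.H76.LensA
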