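import Pool.Agent.H76.LieGen

/-! Linear bijections preserving the traces of the squares and cubes of commutators. -/

namespace Pool.Agent.H76.LieAlg

open Matrix Pool.Agent.H76.LiePoly Pool.Agent.H76.LieGen

variable {n : Type*} [Fintype n] [DecidableEq n]

omit [DecidableEq n] in
lemma trace_mul_br (U X Y : Matrix n n ℂ) : (U * br X Y).trace = (br U X * Y).trace := by
  simp only [br, mul_sub, sub_mul, trace_sub, Matrix.mul_assoc]
  rw [trace_mul_comm X (U * Y), Matrix.mul_assoc]

lemma casimir (U : Matrix n n ℂ) : ∑ a, ∑ b, br (single a b 1) (br (single b a 1) U)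
    = (2 * (Fintype.card n : ℂ)) • U - (2 * U.trace) • (1 : Matrix n n ℂ) := by
  have e1 : ∀ a b : n, br (single a b (1:ℂ)) (br (single b a 1) U) = single a a 1 * U
      - single a a (U b b) - single b b (U a a) + U * single b b 1 := by
    intro a b
    have h1 : single a b (1:ℂ) * single b a 1 = single a a (1:ℂ) := by simp
    have h2 : single b a (1:ℂ) * single a b 1 = single b b (1:ℂ) := by simp
    have h3 : single a b (1:ℂ) * U * single b a 1 = single a a (U b b) := by simp
    have h4 : single b a (1:ℂ) * U * single a b 1 = single b b (U a a) := by simp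
    rw [← h1, ← h2, ← h3, ← h4]
    simp only [br]
    noncomm_ring
  have e3 : ∀ c : ℂ, ∑ a : n, single a a c = c • (1 : Matrix n n ℂ) := by
    intro c
    rw [Matrix.sum_single_eq_diagonal, Matrix.smul_one_eq_diagonal]
  have e4 : ∑ a : n, ∑ b : n, single a a (U b b) = U.trace • (1 : Matrix n n ℂ) := by
    rw [Finset.sum_comm]
    simp only [e3, ← Finset.sum_smul]
    rfl
  have e5 : ∑ a : n, ∑ b : n, single b b (U a a) = U.trace • (1 : Matrix n n ℂ) := by
    simp only [e3, ← Finset.sum_smul]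
    rfl
  have e6 : ∑ a : n, ∑ _b : n, single a a (1:ℂ) * U = (Fintype.card n : ℂ) • U := by
    rw [Finset.sum_comm]
    simp only [← Finset.sum_mul, e3, one_smul, Matrix.one_mul, Finset.sum_const, Finset.card_univ]
    rw [Nat.cast_smul_eq_nsmul]
  have e7 : ∑ _a : n, ∑ b : n, U * single b b (1:ℂ) = (Fintype.card n : ℂ) • U := by
    simp only [← Finset.mul_sum, e3, one_smul, Matrix.mul_one, Finset.sum_const, Finset.card_univ]
    rw [Nat.cast_smul_eq_nsmul]
  simp only [e1, Finset.sum_add_distrib, Finset.sum_sub_distrib, e4, e5, e6, e7]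
  module

lemma pr_eq_zero_of_central [Nonempty n] {U : Matrix n n ℂ} (h : ∀ Y, br U Y = 0) : pr U = 0 := by
  have h1 : ∀ Y, br Y U = 0 := fun Y => by
    have := h Y
    simp only [br] at this ⊢
    rw [← neg_sub, this, neg_zero]
  have h2 := casimir U
  have h3 : ∀ Y : Matrix n n ℂ, br Y 0 = 0 := fun Y => by simp [br]
  simp only [h1, h3, Finset.sum_const_zero] at h2
  rw [pr_apply]
  have hN := card_ne (n := n)
  have : U - ((Fintype.card n : ℂ)⁻¹ * U.trace) • (1 : Matrix n n ℂ) =
      (2 * (Fintype.card n : ℂ))⁻¹ • ((2 * (Fintype.card n : ℂ)) • U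
        - (2 * U.trace) • (1 : Matrix n n ℂ)) := by
    rw [smul_sub, smul_smul, smul_smul, inv_mul_cancel₀ (mul_ne_zero two_ne_zero hN), one_smul]
    congr 2
    field_simp
  rw [this, ← h2, smul_zero]

lemma eq_zero_of_trace_mul {U : Matrix n n ℂ} (h : ∀ Y, (U * Y).trace = 0) : U = 0 := by
  ext i j
  simpa [trace_mul_single] using h (single j i 1)

lemma orth [Nonempty n] {U : Matrix n n ℂ} (h0 : U.trace = 0)
    (h : ∀ X Y, (U * br X Y).trace = 0) : U = 0 := by
  rw [← pr_of_trace h0]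
  refine pr_eq_zero_of_central fun X => eq_zero_of_trace_mul fun Y => ?_
  rw [← trace_mul_br, h]

omit [DecidableEq n] in
lemma curv (L : Matrix n n ℂ →ₗ[ℂ] Matrix n n ℂ) (h2 : ∀ T S, f2 (L T) (L S) = f2 T S)
    (X Y Z W : Matrix n n ℂ) :
    (br (L X) (L Y) * br (L Z) (L W)).trace = (br X Y * br Z W).trace := by
  let R : Matrix n n ℂ → Matrix n n ℂ → Matrix n n ℂ → Matrix n n ℂ → ℂ :=
    fun X Y Z W => (br X Y * br Z W).trace
  have bl : ∀ X X' Y : Matrix n n ℂ, br (X + X') Y = br X Y + br X' Y := by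
    intro X X' Y; simp only [br]; noncomm_ring
  have brr : ∀ X Y Y' : Matrix n n ℂ, br X (Y + Y') = br X Y + br X Y' := by
    intro X Y Y'; simp only [br]; noncomm_ring
  have r1 : ∀ X Y Z, R (X + Z) Y (X + Z) Y = R X Y X Y + 2 * R X Y Z Y + R Z Y Z Y := by
    intro X Y Z
    simp only [R, bl, add_mul, mul_add, trace_add, trace_mul_comm (br Z Y) (br X Y)]; ring
  have r2 : ∀ X Y Z W, R X (Y + W) Z (Y + W) = R X Y Z Y + R X Y Z W + R X W Z Y + R X W Z W := by
    intro X Y Z W
    simp only [R, brr, add_mul, mul_add, trace_add]; ring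
  have r3 : ∀ X Y Z W, R X Y Z W = - R X Y W Z := by
    intro X Y Z W
    have : br Z W = - br W Z := by simp [br]
    simp only [R, this, mul_neg, trace_neg]
  have r4 : ∀ X Y Z W, R X Y Z W + R X Z W Y + R X W Y Z = 0 := by
    intro X Y Z W
    have : br Y (br Z W) + br Z (br W Y) + br W (br Y Z) = 0 := by
      simp only [br]; noncomm_ring
    simp only [R, ← trace_mul_br, ← trace_add, ← mul_add, this, mul_zero, trace_zero]
  let E : Matrix n n ℂ → Matrix n n ℂ → Matrix n n ℂ → Matrix n n ℂ → ℂ :=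
    fun X Y Z W => R (L X) (L Y) (L Z) (L W) - R X Y Z W
  have h0 : ∀ X Y, E X Y X Y = 0 := fun X Y => sub_eq_zero.2 (h2 X Y)
  have h1 : ∀ X Y Z, E X Y Z Y = 0 := by
    intro X Y Z
    have a1 := h0 (X + Z) Y
    have a2 := h0 X Y
    have a3 := h0 Z Y
    simp only [E, map_add, r1] at a1 a2 a3 ⊢
    linear_combination (a1 - a2 - a3) / 2
  have h3 : ∀ X Y Z W, E X Y Z W = E X W Y Z := by
    intro X Y Z W
    have a1 := h1 X (Y + W) Z
    have a2 := h1 X Y Z
    have a3 := h1 X W Z
    simp only [E, map_add, r2] at a1 a2 a3 ⊢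
    linear_combination a1 - a2 - a3 - r3 (L X) (L W) (L Z) (L Y) + r3 X W Z Y
  have h4 := h3 X Y Z W
  have h5 := h3 X Z W Y
  have a1 := r4 (L X) (L Y) (L Z) (L W)
  have a2 := r4 X Y Z W
  simp only [E] at h4 h5
  change R (L X) (L Y) (L Z) (L W) = R X Y Z W
  linear_combination (a1 - a2 + h4 - h5) / 3

lemma bresar [Nontrivial n] (P : Matrix n n ℂ →ₗ[ℂ] Matrix n n ℂ) (h : ∀ X, br (P X) X = 0) :
    ∃ c : ℂ, ∀ X Y, br (P X) Y = c • br X Y := by
  have h1 : ∀ X Y, br (P X) Y = br X (P Y) := by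
    intro X Y
    have a1 := h (X + Y)
    have a2 := h X
    have a3 := h Y
    simp only [br, map_add] at a1 a2 a3 ⊢
    linear_combination (norm := noncomm_ring) a1 - a2 - a3
  let D : Matrix n n ℂ → Matrix n n ℂ → Matrix n n ℂ := fun X Y => br (P X) Y
  have d1 : ∀ x y v, D x (y * v) = D x y * v + y * D x v := by
    intro x y v; simp only [D, br]; noncomm_ring
  have d2 : ∀ x u y, D (x * u) y = D x y * u + x * D u y := by
    intro x u y; simp only [D, h1]; simp only [br]; noncomm_ring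
  have d3 : ∀ x y u v, D x y * br u v = br x y * D u v := by
    intro x y u v
    have a1 := d1 (x * u) y v
    have a2 := d2 x u (y * v)
    rw [a2, d1 x y v, d1 u y v, d2 x u y, d2 x u v] at a1
    simp only [br]
    linear_combination (norm := noncomm_ring) -a1
  have d4 : ∀ x y z u v, D x y * z * br u v = br x y * z * D u v := by
    intro x y z u v
    have a1 := d3 x y (z * u) v
    have a2 := d3 x y z v
    rw [d2] at a1
    simp only [br] at a1 a2 ⊢
    linear_combination (norm := noncomm_ring) a1 - a2 * u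
  obtain ⟨k, l, hkl⟩ := exists_pair_ne n
  refine ⟨D (single k k 1) (single k l 1) k l, fun X Y => ?_⟩
  ext i j
  have a1 := congrFun (congrFun (d4 X Y (single j k 1) (single k k 1) (single k l 1)) i) l
  have a2 : br (single k k (1:ℂ)) (single k l 1) = single k l 1 := by
    simp [br, single_mul_single_of_ne _ _ _ _ hkl.symm]
  rw [a2, Matrix.mul_assoc, Matrix.mul_assoc] at a1
  have a3 : ∀ A B : Matrix n n ℂ, (A * (single j k (1:ℂ) * B)) i l = A i j * B k l := by
    intro A B
    rw [Matrix.mul_apply, Finset.sum_eq_single j]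
    · simp
    · intro x _ hx
      simp [hx]
    · simp
  rw [a3, a3] at a1
  simp only [single_apply_same, mul_one] at a1
  rw [Matrix.smul_apply, smul_eq_mul, mul_comm]
  exact a1

lemma diag_comm [Nonempty n] (d : n → ℂ) (hd : ∑ i, d i = 0) :
    ∃ T S : Matrix n n ℂ, br T S = diagonal d := by
  obtain ⟨c, s, hs⟩ : ∃ (c : Equiv.Perm n) (s : n → ℂ), ∀ i, s (c i) - s i = d i := by
    obtain ⟨m, hm⟩ : ∃ m, Fintype.card n = m + 1 :=
      ⟨Fintype.card n - 1, by have := Fintype.card_pos (α := n); omega⟩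
    let e : n ≃ Fin (m + 1) := Fintype.equivFinOfCardEq hm
    let d' : ℕ → ℂ := fun j => if h : j < m + 1 then d (e.symm ⟨j, h⟩) else 0
    have hd' : ∑ j ∈ Finset.range (m + 1), d' j = 0 := by
      rw [← Fin.sum_univ_eq_sum_range, ← hd, ← e.symm.sum_comp]
      refine Finset.sum_congr rfl fun j _ => ?_
      simp only [d', j.2, dif_pos, Fin.eta]
    refine ⟨e.trans ((finRotate (m + 1)).trans e.symm),
      fun i => ∑ j ∈ Finset.range (e i), d' j, fun i => ?_⟩
    simp only [Equiv.trans_apply, Equiv.apply_symm_apply, finRotate_apply]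
    have h1 : d' (e i) = d i := by simp only [d', (e i).2, dif_pos, Fin.eta, Equiv.symm_apply_apply]
    by_cases hi : e i = Fin.last m
    · rw [Finset.sum_range_succ] at hd'
      rw [hi] at h1 ⊢
      simp only [Fin.last_add_one, Fin.val_zero, Finset.range_zero, Finset.sum_empty,
        Fin.val_last] at h1 ⊢
      linear_combination h1 - hd'
    · rw [Fin.val_add_one_of_lt (Fin.lt_last_iff_ne_last.2 hi), Finset.sum_range_succ, h1]
      ring
  refine ⟨of fun i j => if j = c i then 1 else 0, of fun i j => if i = c j then s i else 0, ?_⟩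
  ext i k
  rw [br, Matrix.sub_apply, Matrix.mul_apply, Matrix.mul_apply, Finset.sum_eq_single (c i),
    Finset.sum_eq_single (c.symm i)]
  · by_cases h : i = k
    · subst h; simp [hs]
    · simp [h, Ne.symm h]
  · intro x _ hx
    have : i ≠ c x := fun h => hx (by simp [h])
    simp [this]
  · simp
  · intro x _ hx
    simp [hx]
  · simp

lemma comm_of_disc [Nonempty n] {Z : Matrix n n ℂ} (h0 : Z.trace = 0) (h : disc Z ≠ 0) :
    ∃ T S : Matrix n n ℂ, br T S = Z := by
  obtain ⟨d, hd, hdZ⟩ := exists_eigs h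
  obtain ⟨P, Q, h1, h2, h3⟩ := exists_diag hd hdZ
  have := trace_pow_diag h2 h1 (diagonal d) 1
  rw [pow_one, pow_one, ← h3, h0, trace_diagonal] at this
  obtain ⟨T, S, hTS⟩ := diag_comm d this.symm
  refine ⟨P * T * Q, P * S * Q, ?_⟩
  rw [h3, ← hTS]
  simp only [br]
  calc P * T * Q * (P * S * Q) - P * S * Q * (P * T * Q)
      = P * T * (Q * P) * S * Q - P * S * (Q * P) * T * Q := by simp only [Matrix.mul_assoc]
    _ = _ := by rw [h2]; noncomm_ring

lemma exists_disc_traceless [Nonempty n] : ∃ Z : Matrix n n ℂ, Z.trace = 0 ∧ disc Z ≠ 0 := by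
  let e := Fintype.equivFin n
  let d : n → ℂ := fun i => ((e i : ℕ) : ℂ)
  let s : ℂ := (Fintype.card n : ℂ)⁻¹ * ∑ i, d i
  refine ⟨diagonal fun i => d i - s, ?_, disc_diagonal fun i j hij => ?_⟩
  · rw [trace_diagonal, Finset.sum_sub_distrib, Finset.sum_const, Finset.card_univ, nsmul_eq_mul]
    simp only [s]
    field_simp [card_ne (n := n)]
    ring
  · have h1 : d i = d j := by simpa using hij
    exact e.injective (Fin.ext (by simpa [d] using h1))

lemma inner (J : Matrix n n ℂ →ₗ[ℂ] Matrix n n ℂ) (hi : Function.Injective J) (h1 : J 1 = 1)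
    (hm : ∀ X Y, J (X * Y) = J X * J Y) :
    ∃ A B : Matrix n n ℂ, A * B = 1 ∧ B * A = 1 ∧ ∀ T, J T = A * T * B := by
  let f : Matrix n n ℂ ≃ₐ[ℂ] Matrix n n ℂ :=
    AlgEquiv.ofLinearEquiv (LinearEquiv.ofInjectiveEndo J hi) h1 hm
  let g := (Matrix.toLinAlgEquiv'.symm.trans f).trans Matrix.toLinAlgEquiv'
  obtain ⟨T, hT⟩ := g.eq_linearEquivConjAlgEquiv
  refine ⟨LinearMap.toMatrix' (T : (n → ℂ) →ₗ[ℂ] (n → ℂ)),
    LinearMap.toMatrix' (T.symm : (n → ℂ) →ₗ[ℂ] (n → ℂ)), ?_, ?_, fun X => ?_⟩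
  · rw [← LinearMap.toMatrix'_comp]; simp
  · rw [← LinearMap.toMatrix'_comp]; simp
  · have h2 : g (Matrix.toLin' X) = Matrix.toLin' (J X) := by
      have : Matrix.toLinAlgEquiv'.symm (Matrix.toLin' X) = X :=
        Matrix.toLinAlgEquiv'.symm_apply_apply X
      simp only [g, AlgEquiv.trans_apply, this]
      rfl
    rw [hT, LinearEquiv.conjAlgEquiv_apply] at h2
    rw [← LinearMap.toMatrix'_toLin' (J X), ← h2, LinearMap.toMatrix'_comp,
      LinearMap.toMatrix'_comp, LinearMap.toMatrix'_toLin', Matrix.mul_assoc]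

theorem structure_thm [Nontrivial n] (L : Matrix n n ℂ ≃ₗ[ℂ] Matrix n n ℂ)
    (h2 : ∀ T S, f2 (L T) (L S) = f2 T S) (h3 : ∀ T S, g3 (L T) (L S) = g3 T S) :
    ∃ A B : Matrix n n ℂ, A * B = 1 ∧ B * A = 1 ∧ ∃ c : ℂ,
      (c * c = 1 ∧ ∀ T, ∃ s : ℂ, L T = c • (A * T * B) + s • (1 : Matrix n n ℂ)) ∨
      (c * c = -1 ∧ ∀ T, ∃ s : ℂ, L T = c • (A * Tᵀ * B) + s • (1 : Matrix n n ℂ)) := by
  have hN := card_ne (n := n)
  have hc := curv (L : Matrix n n ℂ →ₗ[ℂ] Matrix n n ℂ) h2
  simp only [LinearEquiv.coe_coe] at hc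
  let M : Matrix n n ℂ →ₗ[ℂ] Matrix n n ℂ :=
    { toFun := fun U => (2 * (Fintype.card n : ℂ))⁻¹ •
        ∑ a, ∑ b, br (L (single a b 1)) (L (br (single b a 1) U))
      map_add' := fun U V => by
        simp only [← smul_add, ← Finset.sum_add_distrib]
        congr 1
        refine Finset.sum_congr rfl fun a _ => Finset.sum_congr rfl fun b _ => ?_
        simp only [br, mul_add, add_mul, map_add, map_sub, mul_sub, sub_mul]
        abel
      map_smul' := fun c U => by
        simp only [RingHom.id_apply]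
        rw [smul_comm c, Finset.smul_sum (r := c)]
        congr 1
        refine Finset.sum_congr rfl fun a _ => ?_
        rw [Finset.smul_sum]
        refine Finset.sum_congr rfl fun b _ => ?_
        simp only [br, mul_smul_comm, smul_mul_assoc, map_smul, map_sub, mul_sub, sub_mul,
          smul_sub] }
  have hM : ∀ U, M U = (2 * (Fintype.card n : ℂ))⁻¹ •
        ∑ a, ∑ b, br (L (single a b 1)) (L (br (single b a 1) U)) := fun U => rfl
  have m0 : ∀ U, (M U).trace = 0 := by
    intro U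
    simp only [hM, trace_smul, trace_sum, trace_br, Finset.sum_const_zero, smul_zero]
  have m1 : ∀ U X Y, (M U * br (L X) (L Y)).trace = (U * br X Y).trace := by
    intro U X Y
    simp only [hM, smul_mul_assoc, Finset.sum_mul, trace_smul, trace_sum, hc]
    simp only [← trace_sum, ← Finset.sum_mul, casimir, sub_mul, smul_mul_assoc, trace_sub,
      trace_smul, Matrix.one_mul, trace_br, smul_eq_mul]
    field_simp
    ring
  have orthL : ∀ U : Matrix n n ℂ, U.trace = 0 → (∀ X Y, (U * br (L X) (L Y)).trace = 0) →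
      U = 0 := by
    intro U h0 h
    refine orth h0 fun X Y => ?_
    simpa using h (L.symm X) (L.symm Y)
  have m2 : ∀ Z W, M (br Z W) = br (L Z) (L W) := by
    intro Z W
    refine sub_eq_zero.1 (orthL _ (by rw [trace_sub, m0, trace_br, sub_zero]) fun X Y => ?_)
    rw [sub_mul, trace_sub, m1, hc, sub_self]
  have m3 : ∀ U, br (M U) (L U) = 0 := by
    intro U
    refine eq_zero_of_trace_mul fun Y => ?_
    rw [← trace_mul_br, ← L.apply_symm_apply Y, m1, trace_mul_br]
    simp [br]
  obtain ⟨c, hcc⟩ := bresar (M.comp (L.symm : Matrix n n ℂ →ₗ[ℂ] Matrix n n ℂ)) fun X => by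
    simpa using m3 (L.symm X)
  have m4 : ∀ U, M U = c • pr (L U) := by
    intro U
    have : pr (M U - c • L U) = 0 := pr_eq_zero_of_central fun Y => by
      have := hcc (L U) Y
      simp only [LinearMap.comp_apply, LinearEquiv.coe_coe, LinearEquiv.symm_apply_apply] at this
      simp only [br, sub_mul, mul_sub, smul_mul_assoc, mul_smul_comm, smul_sub] at this ⊢
      linear_combination (norm := abel) this
    rw [map_sub, map_smul, pr_of_trace (m0 U)] at this
    exact sub_eq_zero.1 this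
  have m5 : M 1 = 0 := by simp [hM, br]
  have m6 : ∀ Z : Matrix n n ℂ, Z.trace = 0 → (M Z * M Z * M Z).trace = (Z * Z * Z).trace := by
    intro Z hZ
    have hl : PM (fun X : Matrix n n ℂ => M (pr X)) := PM_lin (M.comp pr)
    have hl' : PM (fun X : Matrix n n ℂ => pr X) := PM_lin pr
    obtain ⟨Z0, hZ0, hZ1⟩ := exists_disc_traceless (n := n)
    have := Gen.eq_zero (f := fun X : Matrix n n ℂ => (M (pr X) * M (pr X) * M (pr X)).trace
      - (pr X * pr X * pr X).trace) (PF_sub ((hl.mul hl).mul hl).trace ((hl'.mul hl').mul hl').trace)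
      ((gen_ne hl'.disc ⟨Z0, by rwa [pr_of_trace hZ0]⟩).mono fun X hX => by
        obtain ⟨T, S, hTS⟩ := comm_of_disc (trace_pr X) hX
        rw [← hTS, m2]
        exact sub_eq_zero.2 (h3 T S)) Z
    rw [pr_of_trace hZ] at this
    exact sub_eq_zero.1 this
  have cub : ∀ Z W : Matrix n n ℂ, ((Z + W) * (Z + W) * (Z + W)).trace
      - ((Z - W) * (Z - W) * (Z - W)).trace - 2 * (W * W * W).trace = 6 * (Z * Z * W).trace := by
    intro Z W
    have a1 : (Z * W * Z).trace = (Z * Z * W).trace := by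
      rw [trace_mul_comm, Matrix.mul_assoc]
    have a2 : (W * Z * Z).trace = (Z * Z * W).trace := by
      rw [Matrix.mul_assoc, trace_mul_comm]
    simp only [add_mul, mul_add, sub_mul, mul_sub, trace_add, trace_sub, a1, a2]
    ring
  have m7 : ∀ Z W : Matrix n n ℂ, Z.trace = 0 → W.trace = 0 →
      (M Z * M Z * M W).trace = (Z * Z * W).trace := by
    intro Z W hZ hW
    have a1 := cub Z W
    have a2 := cub (M Z) (M W)
    rw [← map_add, ← map_sub, m6 _ (by rw [trace_add, hZ, hW, add_zero]),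
      m6 _ (by rw [trace_sub, hZ, hW, sub_zero]), m6 _ hW] at a2
    linear_combination (a1 - a2) / 6
  have m8 : ∀ Z : Matrix n n ℂ, Z.trace = 0 → (M Z * M Z).trace = (Z * Z).trace := by
    intro Z hZ
    conv_lhs => rw [hM Z, mul_smul_comm, Finset.mul_sum]
    simp only [← hM, Finset.mul_sum, trace_smul, trace_sum, m1]
    simp only [← trace_sum, ← Finset.mul_sum, casimir, hZ, mul_zero, zero_smul, sub_zero,
      mul_smul_comm, trace_smul, smul_eq_mul]
    field_simp
  let J : Matrix n n ℂ →ₗ[ℂ] Matrix n n ℂ :=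
    M + LinearMap.smulRight (((Fintype.card n : ℂ)⁻¹) • Matrix.traceLinearMap n ℂ ℂ) 1
  have hJ : ∀ X, J X = M X + ((Fintype.card n : ℂ)⁻¹ * X.trace) • (1 : Matrix n n ℂ) :=
    fun X => rfl
  have j0 : ∀ X, (J X).trace = X.trace := by
    intro X
    rw [hJ, trace_add, m0, trace_smul, trace_one, smul_eq_mul]
    field_simp
    ring
  have j1 : J 1 = 1 := by rw [hJ, m5, trace_one, inv_mul_cancel₀ hN]; simp
  have j2 : ∀ Z : Matrix n n ℂ, Z.trace = 0 → J (Z * Z) = J Z * J Z := by
    intro Z hZ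
    have : J Z = M Z := by rw [hJ, hZ]; simp
    rw [this]
    refine sub_eq_zero.1 (orthL _ (by rw [trace_sub, j0, m8 _ hZ, sub_self]) fun X Y => ?_)
    rw [sub_mul, trace_sub, hJ, add_mul, trace_add, m1, ← m2, m7 _ _ hZ (trace_br _ _)]
    simp [m0]
  have j3 : ∀ X : Matrix n n ℂ, J (X * X) = J X * J X := by
    intro X
    rw [eq_pr_add X]
    simp only [add_mul, mul_add, map_add, map_smul, smul_mul_assoc, mul_smul_comm, Matrix.one_mul,
      Matrix.mul_one, j1, j2 _ (trace_pr X)]
  have j4 : ∀ X Y : Matrix n n ℂ, J (X * Y + Y * X) = J X * J Y + J Y * J X := by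
    intro X Y
    have a1 := j3 (X + Y)
    simp only [add_mul, mul_add, map_add, j3] at a1 ⊢
    linear_combination (norm := abel) a1
  have j5 : ∀ X Y : Matrix n n ℂ, br (J X) (J Y) = (c * c) • J (br X Y) := by
    intro X Y
    rw [hJ, hJ, br_add_smul_one_left, br_add_smul_one_right, m4, m4, br_smul_smul, br_pr_left,
      br_pr_right, hJ, trace_br, m2]
    simp
  have ji : Function.Injective J := by
    rw [injective_iff_map_eq_zero]
    intro X hX
    have a1 : X.trace = 0 := by rw [← j0, hX, trace_zero]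
    have a2 : M X = 0 := by rw [hJ, a1] at hX; simpa using hX
    refine orth a1 fun Y Z => ?_
    rw [← m1, a2]; simp
  have j6 : (c * c) * (c * c) = 1 := by
    obtain ⟨i, j, hij⟩ := exists_pair_ne n
    have a0 : ∀ a b d : Matrix n n ℂ, br (br a b) d = a * (b * d + d * b) + (b * d + d * b) * a
        - (b * (a * d + d * a) + (a * d + d * a) * b) := by
      intro a b d; simp only [br]; noncomm_ring
    have a1 : ∀ a b d : Matrix n n ℂ, J (br (br a b) d) = br (br (J a) (J b)) (J d) := by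
      intro a b d
      rw [a0, a0, map_sub, j4, j4, j4, j4]
    have a2 := a1 (single i i 1) (single i j 1) (single j j 1)
    have a3 : br (single i i (1:ℂ)) (single i j 1) = single i j 1 := by
      simp [br, single_mul_single_of_ne _ _ _ _ hij.symm]
    have a4 : br (single i j (1:ℂ)) (single j j 1) = single i j 1 := by
      simp [br, single_mul_single_of_ne _ _ _ _ hij.symm]
    rw [j5, a3, a4, ← one_smul ℂ (J (single j j 1)), br_smul_smul, j5, a4, smul_smul, mul_one,
      ← map_smul] at a2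
    have := congrFun (congrFun (ji a2) i) j
    simpa using this.symm
  have hc0 : c ≠ 0 := by rintro rfl; simp at j6
  have hL : ∀ T, ∃ s : ℂ, L T = c⁻¹ • J T + s • (1 : Matrix n n ℂ) := by
    intro T
    refine ⟨(Fintype.card n : ℂ)⁻¹ * (L T).trace - c⁻¹ * ((Fintype.card n : ℂ)⁻¹ * T.trace), ?_⟩
    rw [hJ, m4, smul_add, smul_smul, inv_mul_cancel₀ hc0, one_smul]
    conv_lhs => rw [eq_pr_add (L T)]
    module
  have half : ∀ X Y : Matrix n n ℂ, X * Y = (1 / 2 : ℂ) • ((X * Y + Y * X) + br X Y) := by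
    intro X Y
    simp only [br]
    module
  rcases mul_self_eq_one_iff.1 j6 with h | h
  · obtain ⟨A, B, hAB, hBA, hT⟩ := inner J ji j1 fun X Y => by
      rw [half X Y, half (J X) (J Y), map_smul, map_add, j4, j5, h, one_smul]
    refine ⟨A, B, hAB, hBA, c⁻¹, Or.inl ⟨by rw [← mul_inv, h, inv_one], fun T => ?_⟩⟩
    rw [← hT]
    exact hL T
  · obtain ⟨A, B, hAB, hBA, hT⟩ := inner
      (J.comp (Matrix.transposeLinearEquiv n n ℂ ℂ : Matrix n n ℂ →ₗ[ℂ] Matrix n n ℂ))
      (ji.comp (Matrix.transposeLinearEquiv n n ℂ ℂ).injective) (by simpa using j1) fun X Y => by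
        change J (X * Y)ᵀ = J Xᵀ * J Yᵀ
        rw [transpose_mul, half Yᵀ Xᵀ, half (J Xᵀ) (J Yᵀ), map_smul, map_add, j4, j5, h, add_comm (J Yᵀ * J Xᵀ)]
        have : br Yᵀ Xᵀ = - br Xᵀ Yᵀ := by simp [br]
        rw [this, map_neg, neg_smul, one_smul]
    refine ⟨A, B, hAB, hBA, c⁻¹, Or.inr ⟨by rw [← mul_inv, h]; simp, fun T => ?_⟩⟩
    rw [← hT]
    simpa using hL T

end Pool.Agent.H76.LieAlg
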