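import Pool.Agent.H76.LiePoly

/-! Linearisation of maps preserving the trace of the square of commutators generically. -/

namespace Pool.Agent.H76.LieGen

open Matrix Pool.Agent.H76.LiePoly

variable {n : Type*} [Fintype n] [DecidableEq n]

/-- The commutator. -/
def br (T S : Matrix n n ℂ) : Matrix n n ℂ := T * S - S * T

/-- Trace of the square of the commutator. -/
def f2 (T S : Matrix n n ℂ) : ℂ := (br T S * br T S).trace

/-- Trace of the cube of the commutator. -/
def g3 (T S : Matrix n n ℂ) : ℂ := (br T S * br T S * br T S).trace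

/-- Traceless part. -/
noncomputable def pr : Matrix n n ℂ →ₗ[ℂ] Matrix n n ℂ :=
  LinearMap.id - LinearMap.smulRight (((Fintype.card n : ℂ)⁻¹) • Matrix.traceLinearMap n ℂ ℂ) 1

lemma pr_apply (T : Matrix n n ℂ) :
    pr T = T - (((Fintype.card n : ℂ)⁻¹) * T.trace) • (1 : Matrix n n ℂ) := by
  simp [pr]

omit [DecidableEq n] in
lemma card_ne [Nonempty n] : (Fintype.card n : ℂ) ≠ 0 := by
  exact_mod_cast Fintype.card_ne_zero

lemma trace_pr [Nonempty n] (T : Matrix n n ℂ) : (pr T).trace = 0 := by
  rw [pr_apply, trace_sub, trace_smul, trace_one, smul_eq_mul]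
  field_simp [card_ne (n := n)]
  ring

lemma pr_of_trace {T : Matrix n n ℂ} (h : T.trace = 0) : pr T = T := by
  rw [pr_apply, h]; simp

lemma pr_one [Nonempty n] : pr (1 : Matrix n n ℂ) = 0 := by
  rw [pr_apply, trace_one, inv_mul_cancel₀ card_ne]; simp

lemma eq_pr_add (T : Matrix n n ℂ) :
    T = pr T + (((Fintype.card n : ℂ)⁻¹) * T.trace) • (1 : Matrix n n ℂ) := by
  rw [pr_apply]; simp

lemma br_add_smul_one_left (T S : Matrix n n ℂ) (c : ℂ) : br (T + c • 1) S = br T S := by
  simp [br, add_mul, mul_add]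

lemma br_add_smul_one_right (T S : Matrix n n ℂ) (c : ℂ) : br T (S + c • 1) = br T S := by
  simp [br, add_mul, mul_add]

lemma br_pr_left (T S : Matrix n n ℂ) : br (pr T) S = br T S := by
  conv_rhs => rw [eq_pr_add T, br_add_smul_one_left]

lemma br_pr_right (T S : Matrix n n ℂ) : br T (pr S) = br T S := by
  conv_rhs => rw [eq_pr_add S, br_add_smul_one_right]

omit [DecidableEq n] in
lemma br_smul_smul (T S : Matrix n n ℂ) (a b : ℂ) : br (a • T) (b • S) = (a * b) • br T S := by
  simp [br, smul_sub, smul_smul, mul_comm]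

omit [DecidableEq n] in
lemma trace_br (T S : Matrix n n ℂ) : (br T S).trace = 0 := by
  rw [br, trace_sub, trace_mul_comm, sub_self]

omit [DecidableEq n] in
lemma PM_br {V : Type*} [AddCommGroup V] [Module ℂ V] {Z Z' : V → Matrix n n ℂ} (h : PM Z)
    (h' : PM Z') : PM (fun v => br (Z v) (Z' v)) := (h.mul h').sub (h'.mul h)

omit [DecidableEq n] in
lemma PF_f2 {V : Type*} [AddCommGroup V] [Module ℂ V] {Z Z' : V → Matrix n n ℂ} (h : PM Z)
    (h' : PM Z') : (fun v => f2 (Z v) (Z' v)) ∈ PF V := ((PM_br h h').mul (PM_br h h')).trace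

omit [DecidableEq n] in
lemma PF_g3 {V : Type*} [AddCommGroup V] [Module ℂ V] {Z Z' : V → Matrix n n ℂ} (h : PM Z)
    (h' : PM Z') : (fun v => g3 (Z v) (Z' v)) ∈ PF V :=
  (((PM_br h h').mul (PM_br h h')).mul (PM_br h h')).trace

/-- Symmetrised tensor of two matrices. -/
noncomputable def sy (T S : Matrix n n ℂ) : n × n → n × n → ℂ :=
  fun p q => (T p.1 p.2 * S q.1 q.2 + S p.1 p.2 * T q.1 q.2) / 2

/-- The linear extension of `f2`. -/
def Th (S : Matrix n n ℂ) : (n × n → n × n → ℂ) →ₗ[ℂ] ℂ where
  toFun X := 2 * ∑ d, ∑ a, ∑ b, ∑ c, X (d, a) (b, c) * (S a b * S c d)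
    - 2 * ∑ d, ∑ a, ∑ c, X (d, a) (a, c) * (S * S) c d
  map_add' X Y := by
    simp only [Pi.add_apply, add_mul, Finset.sum_add_distrib]; ring
  map_smul' c X := by
    simp only [Pi.smul_apply, smul_eq_mul, RingHom.id_apply, mul_assoc, ← Finset.mul_sum]; ring

omit [DecidableEq n] in
lemma Th_sy (T S : Matrix n n ℂ) : Th S (sy T T) = f2 T S := by
  have h1 : f2 T S = 2 * (T * S * (T * S)).trace - 2 * (T * T * (S * S)).trace := by
    have e1 : (S * T * (S * T)).trace = (T * S * (T * S)).trace := by
      rw [Matrix.mul_assoc S T, trace_mul_comm]; simp only [Matrix.mul_assoc]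
    have e2 : (T * S * (S * T)).trace = (T * T * (S * S)).trace := by
      rw [← Matrix.mul_assoc, trace_mul_comm]; simp only [Matrix.mul_assoc]
    have e3 : (S * T * (T * S)).trace = (T * T * (S * S)).trace := by
      rw [Matrix.mul_assoc S T, trace_mul_comm]; simp only [Matrix.mul_assoc]
    simp only [f2, br, sub_mul, mul_sub, trace_sub, e1, e2, e3]; ring
  rw [h1]
  simp only [Th, sy, LinearMap.coe_mk, AddHom.coe_mk, add_self_div_two]
  congr 2
  · simp only [trace, diag, mul_apply, Finset.sum_mul, Finset.mul_sum]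
    refine Finset.sum_congr rfl fun d _ => ?_
    rw [Finset.sum_comm]
    refine Finset.sum_congr rfl fun b _ => ?_
    rw [Finset.sum_comm]
    refine Finset.sum_congr rfl fun c _ => Finset.sum_congr rfl fun a _ => by ring
  · simp only [trace, diag]
    refine Finset.sum_congr rfl fun d _ => ?_
    rw [mul_apply, Finset.sum_comm]
    refine Finset.sum_congr rfl fun c _ => ?_
    rw [mul_apply (M := T), Finset.sum_mul]

omit [DecidableEq n] in
lemma f2_polar (T S U : Matrix n n ℂ) :
    f2 T (S + U) - f2 T S - f2 T U = 2 * (br T S * br T U).trace := by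
  have : br T (S + U) = br T S + br T U := by simp only [br]; noncomm_ring
  simp only [f2, this, add_mul, mul_add, trace_add, trace_mul_comm (br T U) (br T S)]
  ring

lemma trace_br_single (T : Matrix n n ℂ) (a b c d : n) :
    (br T (single a b 1) * br T (single c d 1)).trace = 2 * (T d a * T b c)
      - (if d = a then (T * T) b c else 0) - (if b = c then (T * T) d a else 0) := by
  have e0 : ∀ A B : Matrix n n ℂ, ∀ a b c d : n,
      (A * single a b (1:ℂ) * (B * single c d 1)).trace = A d a * B b c := by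
    intro A B a b c d
    rw [← Matrix.mul_assoc, trace_mul_single, Matrix.mul_apply, Finset.sum_eq_single b]
    · simp
    · intro x _ hx
      simp [hx]
    · simp
  have e1 : (single a b (1:ℂ) * T * (single c d 1 * T)).trace = T d a * T b c := by
    rw [← Matrix.mul_assoc, trace_mul_comm, ← e0]; simp only [Matrix.mul_assoc]
  have e2 : (T * single a b (1:ℂ) * (single c d 1 * T)).trace
      = if b = c then (T * T) d a else 0 := by
    have := e0 (T * T) 1 a b c d
    rw [← Matrix.mul_assoc, trace_mul_comm]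
    simp only [Matrix.mul_assoc, Matrix.one_mul] at this ⊢
    rw [this, one_apply]; split_ifs <;> simp
  have e3 : (single a b (1:ℂ) * T * (T * single c d 1)).trace
      = if d = a then (T * T) b c else 0 := by
    have := e0 1 (T * T) a b c d
    simp only [Matrix.mul_assoc, Matrix.one_mul] at this ⊢
    rw [this, one_apply]; split_ifs <;> simp
  simp only [br, sub_mul, mul_sub, trace_sub, e0, e1, e2, e3]; ring

variable (n) in
/-- Span of the squares of traceless matrices. -/
noncomputable def WW : Submodule ℂ (n × n → n × n → ℂ) :=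
  Submodule.span ℂ (Set.range fun T : Matrix n n ℂ => sy (pr T) (pr T))

lemma WW_symm {X : n × n → n × n → ℂ} (h : X ∈ WW n) (p q : n × n) : X p q = X q p := by
  induction h using Submodule.span_induction with
  | mem x hx => obtain ⟨T, rfl⟩ := hx; simp only [sy]; ring
  | zero => rfl
  | add x y _ _ hx hy => simp [hx, hy]
  | smul c x _ hx => simp [hx]

lemma WW_tr [Nonempty n] {X : n × n → n × n → ℂ} (h : X ∈ WW n) (q : n × n) :
    ∑ a, X (a, a) q = 0 := by
  induction h using Submodule.span_induction with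
  | mem x hx =>
    obtain ⟨T, rfl⟩ := hx
    have := trace_pr T
    simp only [trace, diag] at this
    simp only [sy, add_self_div_two, ← Finset.sum_mul, this, zero_mul]
  | zero => simp
  | add x y _ _ hx hy => simp [Finset.sum_add_distrib, hx, hy]
  | smul c x _ hx => simp [← Finset.mul_sum, hx]

lemma WW_polar {X : n × n → n × n → ℂ} (h : X ∈ WW n) (a b c d : n) :
    Th (single a b 1 + single c d 1) X - Th (single a b 1) X - Th (single c d 1) X
      = 2 * (2 * X (d, a) (b, c) - (if d = a then ∑ e, X (b, e) (e, c) else 0)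
        - (if b = c then ∑ e, X (d, e) (e, a) else 0)) := by
  induction h using Submodule.span_induction with
  | mem x hx =>
    obtain ⟨T, rfl⟩ := hx
    simp only [Th_sy, f2_polar, trace_br_single, sy, add_self_div_two, mul_apply]
  | zero => simp
  | add x y _ _ hx hy =>
    simp only [map_add, Pi.add_apply, Finset.sum_add_distrib]
    split_ifs at hx hy ⊢ <;> linear_combination hx + hy
  | smul r x _ hx =>
    simp only [map_smul, Pi.smul_apply, smul_eq_mul, ← Finset.mul_sum]
    split_ifs at hx ⊢ <;> linear_combination r * hx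

lemma WW_eq_zero [Nonempty n] {X : n × n → n × n → ℂ} (h : X ∈ WW n) (h0 : ∀ S, Th S X = 0) :
    X = 0 := by
  have hN := card_ne (n := n)
  set m : n → n → ℂ := fun b c => ∑ e, X (b, e) (e, c) with hm
  have h1 : ∀ a b c d, 2 * X (d, a) (b, c) = (if d = a then m b c else 0)
      + (if b = c then m d a else 0) := by
    intro a b c d
    have := WW_polar h a b c d
    simp only [h0] at this
    linear_combination (-1/2 : ℂ) * this
  have h2 : ∀ b c, (Fintype.card n : ℂ) * m b c + (if b = c then ∑ a, m a a else 0) = 0 := by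
    intro b c
    have h3 : ∑ a, 2 * X (a, a) (b, c) = 0 := by rw [← Finset.mul_sum, WW_tr h, mul_zero]
    simp only [h1, if_true, Finset.sum_add_distrib, Finset.sum_const, Finset.card_univ,
      nsmul_eq_mul] at h3
    split_ifs at h3 ⊢ with hbc
    · exact h3
    · simpa using h3
  have h4 : ∑ a, m a a = 0 := by
    have h5 : ∑ b, ((Fintype.card n : ℂ) * m b b + (if b = b then ∑ a, m a a else 0)) = 0 :=
      Finset.sum_eq_zero fun b _ => h2 b b
    simp only [if_true, Finset.sum_add_distrib, Finset.sum_const, Finset.card_univ,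
      nsmul_eq_mul, ← Finset.mul_sum] at h5
    have : (2 * (Fintype.card n : ℂ)) * ∑ a, m a a = 0 := by linear_combination h5
    exact (mul_eq_zero.1 this).resolve_left (mul_ne_zero two_ne_zero hN)
  have h6 : ∀ b c, m b c = 0 := by
    intro b c
    have := h2 b c
    rw [h4, ite_self, add_zero] at this
    exact (mul_eq_zero.1 this).resolve_left hN
  ext ⟨d, a⟩ ⟨b, c⟩
  have := h1 a b c d
  simp only [h6, ite_self, add_zero] at this
  simpa using this

lemma sy_mem (T S : Matrix n n ℂ) : sy (pr T) (pr S) ∈ WW n := by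
  have h : ∀ U, sy (pr U) (pr U) ∈ WW n := fun U => Submodule.subset_span ⟨U, rfl⟩
  have : sy (pr T) (pr S) = (1 / 2 : ℂ) • (sy (pr (T + S)) (pr (T + S)) - sy (pr T) (pr T)
      - sy (pr S) (pr S)) := by
    ext p q
    simp only [sy, map_add, Pi.smul_apply, Pi.sub_apply, Matrix.add_apply, smul_eq_mul]; ring
  rw [this]
  exact Submodule.smul_mem _ _ (Submodule.sub_mem _ (Submodule.sub_mem _ (h _) (h _)) (h _))

/-- The symmetric product as an element of `WW`. -/
noncomputable def syW (T : Matrix n n ℂ) : Matrix n n ℂ →ₗ[ℂ] WW n where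
  toFun S := ⟨sy (pr T) (pr S), sy_mem T S⟩
  map_add' S U := by
    ext p q
    simp only [sy, map_add, Submodule.coe_add, Pi.add_apply, Matrix.add_apply]; ring
  map_smul' c S := by
    ext p q
    simp only [sy, map_smul, Submodule.coe_smul, Pi.smul_apply, Matrix.smul_apply, smul_eq_mul,
      RingHom.id_apply]; ring

lemma syW_line (T S : Matrix n n ℂ) (t : ℂ) :
    syW (T + t • S) (T + t • S) = syW T T + (2 * t) • syW T S + t ^ 2 • syW S S := by
  ext p q
  simp only [syW, sy, map_add, map_smul, LinearMap.coe_mk, AddHom.coe_mk, Submodule.coe_add,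
    Submodule.coe_smul, Pi.add_apply, Pi.smul_apply, Matrix.add_apply, Matrix.smul_apply, smul_eq_mul]
  ring

lemma Th_syW (T S : Matrix n n ℂ) : Th S (syW T T : WW n) = f2 T S := by
  change Th S (sy (pr T) (pr T)) = _
  rw [Th_sy, f2, f2, br_pr_left]

lemma exists_gram [Nonempty n] : ∃ (k : Type) (_ : Fintype k) (_ : DecidableEq k),
    Fintype.card k = Module.finrank ℂ (WW n) ∧
    ∃ T S : k → Matrix n n ℂ, (Matrix.of fun i j => f2 (T i) (S j)).det ≠ 0 := by
  classical
  obtain ⟨κ, a, -, hsp, hli⟩ := exists_linearIndependent' ℂ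
    (fun T : Matrix n n ℂ => sy (pr T) (pr T))
  have : Finite κ := hli.finite
  have := Fintype.ofFinite κ
  have hcard : Fintype.card κ = Module.finrank ℂ (WW n) := by
    rw [WW, ← hsp, finrank_span_eq_card hli]
  let col : Matrix n n ℂ → κ → ℂ := fun S i => f2 (a i) S
  have htop : Submodule.span ℂ (Set.range col) = ⊤ := by
    by_contra hne
    obtain ⟨f, hf0, hf⟩ := Submodule.exists_le_ker_of_lt_top _ (lt_top_iff_ne_top.2 hne)
    apply hf0
    let c : κ → ℂ := fun i => f (Pi.single i 1)
    have hfv : ∀ v : κ → ℂ, f v = ∑ i, v i * c i := by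
      intro v
      rw [LinearMap.pi_apply_eq_sum_univ]
      refine Finset.sum_congr rfl fun i _ => ?_
      simp only [c, smul_eq_mul]
      congr 2
      ext j
      simp [Pi.single_apply, eq_comm]
    have hX : ∑ i, c i • sy (pr (a i)) (pr (a i)) = 0 := by
      apply WW_eq_zero (Submodule.sum_mem _ fun i _ => Submodule.smul_mem _ _ (sy_mem _ _))
      intro S
      have h1 : f (col S) = 0 := hf (Submodule.subset_span ⟨S, rfl⟩)
      rw [hfv] at h1
      rw [map_sum, ← h1]
      refine Finset.sum_congr rfl fun i _ => ?_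
      rw [map_smul, Th_sy, smul_eq_mul, mul_comm]
      simp only [col, f2, br_pr_left]
    have hc := Fintype.linearIndependent_iff.1 hli c hX
    ext1 i
    ext
    simpa [c] using hc i
  obtain ⟨κ', b, -, hsp', hli'⟩ := exists_linearIndependent' ℂ col
  have : Finite κ' := hli'.finite
  have := Fintype.ofFinite κ'
  have hcard' : Fintype.card κ' = Fintype.card κ := by
    rw [← finrank_span_eq_card hli', hsp', htop]; simp
  let e := Fintype.equivFin κ
  let e' : Fin (Fintype.card κ) ≃ κ' := (Fintype.equivFinOfCardEq hcard').symm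
  refine ⟨Fin (Fintype.card κ), inferInstance, inferInstance, by simpa using hcard,
    fun i => a (e.symm i), fun j => b (e' j), ?_⟩
  have hG : IsUnit (Matrix.of fun (i : κ) (j : κ) => f2 (a i) (b (e' (e j)))) := by
    apply Matrix.linearIndependent_cols_iff_isUnit.1
    exact hli'.comp (fun j => e' (e j)) (e'.injective.comp e.injective)
  have hdet := ((Matrix.isUnit_iff_isUnit_det _).1 hG).ne_zero
  rw [← Matrix.det_reindex_self e] at hdet
  convert hdet using 2
  ext i j
  simp

lemma exists_Phi [Nonempty n] (φ : Matrix n n ℂ → Matrix n n ℂ)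
    (H : Gen (fun p : Matrix n n ℂ × Matrix n n ℂ => f2 (φ p.1) (φ p.2) = f2 p.1 p.2)) :
    ∃ Φ : WW n ≃ₗ[ℂ] WW n, Gen (fun T => Φ (syW T T) = syW (φ T) (φ T)) := by
  obtain ⟨k, _, _, hk, T0, S0, h0⟩ := exists_gram (n := n)
  let M := Matrix n n ℂ
  let p1 : k → ((k → M) × (k → M)) →ₗ[ℂ] M := fun i =>
    (LinearMap.proj i).comp (LinearMap.fst ℂ _ _)
  let p2 : k → ((k → M) × (k → M)) →ₗ[ℂ] M := fun i =>
    (LinearMap.proj i).comp (LinearMap.snd ℂ _ _)
  have g1 : Gen (fun v : (k → M) × (k → M) => (Matrix.of fun i j => f2 (v.1 i) (v.2 j)).det ≠ 0) := by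
    refine gen_ne (PM.det fun i j => ?_) ⟨(T0, S0), h0⟩
    exact PF_f2 (PM_lin (p1 i)) (PM_lin (p2 j))
  have g2 : Gen (fun v : (k → M) × (k → M) => ∀ ij : k × k,
      f2 (φ (v.1 ij.1)) (φ (v.2 ij.2)) = f2 (v.1 ij.1) (v.2 ij.2)) := by
    refine gen_all fun ij => ?_
    refine H.comp ((p1 ij.1).prod (p2 ij.2)) ?_
    rintro ⟨x, y⟩
    exact ⟨(fun _ => x, fun _ => y), rfl⟩
  have g3' : Gen (fun v : (k → M) × (k → M) => ∀ j : k,
      Gen (fun T => f2 (φ T) (φ (v.2 j)) = f2 T (v.2 j))) := by
    refine gen_all fun j => ?_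
    refine H.slice.comp (p2 j) ?_
    intro y
    exact ⟨(fun _ => y, fun _ => y), rfl⟩
  obtain ⟨⟨T, S⟩, ⟨h1, h2⟩, h3⟩ := ((g1.and g2).and g3').exists
  simp only at h1 h2 h3
  let E : (k → M) → WW n →ₗ[ℂ] (k → ℂ) := fun S =>
    LinearMap.pi fun j => (Th (S j)).comp (WW n).subtype
  have hE : ∀ S T j, E S (syW T T) j = f2 T (S j) := fun S T j => Th_syW T (S j)
  have hbij : ∀ T S : k → M, (Matrix.of fun i j => f2 (T i) (S j)).det ≠ 0 →
      Function.Bijective (E S) := by
    intro T S h
    have hs : Function.Surjective (E S) := by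
      have hu : IsUnit (Matrix.of fun i j => f2 (T i) (S j)) :=
        (Matrix.isUnit_iff_isUnit_det _).2 h.isUnit
      intro y
      obtain ⟨c, hc⟩ := Matrix.vecMul_surjective_iff_isUnit.2 hu y
      refine ⟨∑ i, c i • syW (T i) (T i), ?_⟩
      ext j
      rw [← hc, map_sum]
      simp [hE, vecMul, dotProduct]
    exact ⟨(LinearMap.injective_iff_surjective_of_finrank_eq_finrank (by simp [hk])).2 hs, hs⟩
  have b1 := hbij T S h1
  have b2 := hbij (fun i => φ (T i)) (fun j => φ (S j)) (by
    convert h1 using 2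
    ext i j
    exact h2 (i, j))
  refine ⟨(LinearEquiv.ofBijective _ b1).trans (LinearEquiv.ofBijective _ b2).symm, ?_⟩
  refine (gen_all h3).mono fun U hU => ?_
  rw [LinearEquiv.trans_apply, LinearEquiv.symm_apply_eq]
  ext j
  simp only [LinearEquiv.ofBijective_apply, hE, hU j]

lemma exists_sq {ι : Type*} {X : ι → ι → ℂ} (hs : ∀ p q, X p q = X q p)
    (h : ∀ p q r s, X p q * X r s = X p s * X r q) : ∃ v : ι → ℂ, ∀ p q, X p q = v p * v q := by
  by_cases h0 : ∀ p, X p p = 0
  · refine ⟨0, fun p q => ?_⟩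
    have := h p q q p
    rw [h0, zero_mul, ← hs p q] at this
    simpa using this
  · push Not at h0
    obtain ⟨p0, hp⟩ := h0
    obtain ⟨a, ha⟩ := IsAlgClosed.exists_eq_mul_self (X p0 p0)
    have ha0 : a ≠ 0 := by rintro rfl; simp at ha; exact hp ha
    refine ⟨fun q => X p0 q / a, fun r s => ?_⟩
    have := h r p0 p0 s
    rw [ha, hs r p0] at this
    field_simp
    linear_combination -this

lemma line_rank_one {ι : Type*} {u v : ι → ℂ} {X : ι → ι → ℂ} (hs : ∀ p q, X p q = X q p)
    {o : ι} (ha : u o ≠ 0)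
    (h : ∀ (t : ℂ) p q r s, (u p * u q + 2 * t * X p q + t ^ 2 * (v p * v q)) *
      (u r * u s + 2 * t * X r s + t ^ 2 * (v r * v s)) =
      (u p * u s + 2 * t * X p s + t ^ 2 * (v p * v s)) *
      (u r * u q + 2 * t * X r q + t ^ 2 * (v r * v q))) :
    (∀ p q, v p * v q = ((2 * X o p - X o o * u p / u o) / u o) *
      ((2 * X o q - X o o * u q / u o) / u o)) ∨ ∃ c, ∀ q, v q = c * u q := by
  obtain ⟨w, hw⟩ : ∃ w : ι → ℂ, ∀ q, w q = (2 * X o q - X o o * u q / u o) / u o :=
    ⟨_, fun _ => rfl⟩
  simp only [← hw]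
  have c1 : ∀ r s, u o * u o * X r s + X o o * (u r * u s)
      = u o * u s * X r o + X o s * (u r * u o) := by
    intro r s
    linear_combination (1/24 : ℂ) * (8 * (h 1 o o r s - h (-1) o o r s)
      - (h 2 o o r s - h (-2) o o r s))
  have c2 : ∀ r s, u o * u o * (v r * v s) + v o * v o * (u r * u s) + 4 * (X o o * X r s)
      = u o * u s * (v r * v o) + v o * v s * (u r * u o) + 4 * (X o s * X r o) := by
    intro r s
    linear_combination (1/24 : ℂ) * (16 * (h 1 o o r s + h (-1) o o r s)
      - (h 2 o o r s + h (-2) o o r s))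
  have c3 : ∀ r, X o o * (v r * v r) + v o * v o * X r r
      = X o r * (v r * v o) + v o * v r * X r o := by
    intro r
    linear_combination (1/24 : ℂ) * ((h 2 o o r r - h (-2) o o r r)
      - 2 * (h 1 o o r r - h (-1) o o r r))
  have hX : ∀ r s, X r s = (u r * w s + w r * u s) / 2 := by
    intro r s
    have := c1 r s
    rw [hs r o] at this
    simp only [hw]
    field_simp
    linear_combination 2 * this
  have d2 : ∀ r s, (u o * v r - v o * u r) * (u o * v s - v o * u s)
      = (u o * w r - w o * u r) * (u o * w s - w o * u s) := by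
    intro r s
    have := c2 r s
    simp only [hX] at this
    linear_combination this
  have d3 : ∀ r, w o * (u o * v r - v o * u r) ^ 2
      = (u o * w r - w o * u r) * v o * (u o * v r - v o * u r) := by
    intro r
    have := c3 r
    simp only [hX] at this
    linear_combination u o * this
  by_cases h0 : ∀ r, u o * w r - w o * u r = 0
  · right
    refine ⟨v o / u o, fun q => ?_⟩
    have := d2 q q
    rw [h0, mul_zero, mul_self_eq_zero] at this
    field_simp
    linear_combination this
  · left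
    push Not at h0
    obtain ⟨r, hr⟩ := h0
    obtain ⟨η, hη, hr'⟩ : ∃ η : ℂ, η * η = 1 ∧
        u o * v r - v o * u r = η * (u o * w r - w o * u r) := by
      rcases mul_self_eq_mul_self_iff.1 (d2 r r) with h1 | h1
      · exact ⟨1, by simp, by simpa using h1⟩
      · exact ⟨-1, by simp, by simpa using h1⟩
    have e1 : ∀ s, u o * v s - v o * u s = η * (u o * w s - w o * u s) := by
      intro s
      have := d2 r s
      rw [hr'] at this
      apply mul_left_cancel₀ hr
      linear_combination η * this - (u o * w r - w o * u r) * (u o * v s - v o * u s) * hη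
    have e2 : v o = η * w o := by
      have := d3 r
      rw [hr'] at this
      apply mul_left_cancel₀ (mul_ne_zero hr hr)
      linear_combination (-η) * this - (u o * w r - w o * u r) ^ 2 * (v o - η * w o) * hη
    have e3 : ∀ s, v s = η * w s := by
      intro s
      apply mul_left_cancel₀ ha
      linear_combination e1 s + u s * e2
    intro p q
    rw [e3, e3]
    linear_combination w p * w q * hη

omit [Fintype n] [DecidableEq n] in
lemma sq_eq {T S : Matrix n n ℂ} (h : ∀ p q : n × n, T p.1 p.2 * T q.1 q.2 = S p.1 p.2 * S q.1 q.2) :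
    ∃ e : ℂ, e * e = 1 ∧ T = e • S := by
  by_cases h0 : S = 0
  · refine ⟨1, by simp, ?_⟩
    ext i j
    have := h (i, j) (i, j)
    simpa [h0] using this
  · obtain ⟨i, j, hij⟩ : ∃ i j, S i j ≠ 0 := by
      by_contra hc
      push Not at hc
      exact h0 (Matrix.ext hc)
    obtain ⟨e, he, h1⟩ : ∃ e : ℂ, e * e = 1 ∧ T i j = e * S i j := by
      rcases mul_self_eq_mul_self_iff.1 (h (i, j) (i, j)) with h1 | h1
      · exact ⟨1, by simp, by simpa using h1⟩
      · exact ⟨-1, by simp, by simpa using h1⟩
    refine ⟨e, he, ?_⟩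
    ext k l
    have := h (i, j) (k, l)
    simp only [h1] at this
    apply mul_left_cancel₀ hij
    simp only [Matrix.smul_apply, smul_eq_mul]
    linear_combination e * this - S i j * T k l * he

theorem exists_lin [Nontrivial n] (φ : Matrix n n ℂ → Matrix n n ℂ)
    (H : Gen (fun p : Matrix n n ℂ × Matrix n n ℂ => f2 (φ p.1) (φ p.2) = f2 p.1 p.2)) :
    ∃ L : Matrix n n ℂ ≃ₗ[ℂ] Matrix n n ℂ,
      Gen (fun S => ∃ e c : ℂ, e * e = 1 ∧ φ S = e • L S + c • (1 : Matrix n n ℂ)) := by
  obtain ⟨Φ, hΦ⟩ := exists_Phi φ H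
  let B : Matrix n n ℂ → Matrix n n ℂ → n × n → n × n → ℂ := fun T S => (Φ (syW T S) : WW n)
  have hBs : ∀ T S p q, B T S p q = B T S q p := fun T S => WW_symm (Φ (syW T S)).2
  have hline : ∀ T S (t : ℂ) p q, B (T + t • S) (T + t • S) p q
      = B T T p q + 2 * t * B T S p q + t ^ 2 * B S S p q := by
    intro T S t p q
    simp only [B]
    rw [syW_line]
    simp only [map_add, map_smul, Submodule.coe_add, Submodule.coe_smul,
      Pi.add_apply, Pi.smul_apply, smul_eq_mul]
  have hPF : ∀ p q, (fun T => B T T p q) ∈ PF (Matrix n n ℂ) := by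
    intro p q T S
    refine ⟨Polynomial.C (B T T p q) + Polynomial.C 2 * Polynomial.X * Polynomial.C (B T S p q)
      + Polynomial.X ^ 2 * Polynomial.C (B S S p q), fun t => ?_⟩
    simp only [hline, Polynomial.eval_add, Polynomial.eval_mul, Polynomial.eval_C,
      Polynomial.eval_X, Polynomial.eval_pow]
  have hmin : ∀ T p q r s, B T T p q * B T T r s = B T T p s * B T T r q := by
    intro T p q r s
    refine sub_eq_zero.1 (Gen.eq_zero
      (f := fun T => B T T p q * B T T r s - B T T p s * B T T r q)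
      (PF_sub (PF_mul (hPF _ _) (hPF _ _)) (PF_mul (hPF _ _) (hPF _ _))) (hΦ.mono ?_) T)
    intro U hU
    simp only [B, hU]
    simp only [syW, sy, LinearMap.coe_mk, AddHom.coe_mk]
    ring
  have hsq : ∀ T, ∃ v : n × n → ℂ, ∀ p q, B T T p q = v p * v q :=
    fun T => exists_sq (hBs T T) (hmin T)
  have hinj : ∀ T S (c : ℂ), (∀ p q, B T T p q = c * c * B S S p q) →
      ∃ e : ℂ, e * e = 1 ∧ pr T = (e * c) • pr S := by
    intro T S c h
    have h1 : Φ (syW T T) = Φ ((c * c) • syW S S) := by
      ext p q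
      rw [map_smul]
      exact h p q
    have h2 := Φ.injective h1
    obtain ⟨e, he, h3⟩ := sq_eq (T := pr T) (S := c • pr S) fun p q => by
      have := congrFun (congrFun (congrArg Subtype.val h2) p) q
      simp only [syW, sy, LinearMap.coe_mk, AddHom.coe_mk, Submodule.coe_smul, Pi.smul_apply,
        smul_eq_mul] at this
      simp only [Matrix.smul_apply, smul_eq_mul]
      linear_combination this
    exact ⟨e, he, by rw [h3, smul_smul]⟩
  obtain ⟨i0, j0, hij⟩ := exists_pair_ne n
  set T0 : Matrix n n ℂ := single i0 j0 1 with hT0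
  obtain ⟨u, hu⟩ := hsq T0
  obtain ⟨o, ho⟩ : ∃ o, u o ≠ 0 := by
    by_contra hc
    push Not at hc
    obtain ⟨e, -, h⟩ := hinj T0 T0 0 fun p q => by simp [hu, hc]
    rw [pr_of_trace (by simp [hT0, trace_single_eq_of_ne, hij])] at h
    have := congrFun (congrFun h i0) j0
    simp [hT0] at this
  let L0 : Matrix n n ℂ →ₗ[ℂ] Matrix n n ℂ :=
    { toFun := fun S => Matrix.of fun i j =>
        (2 * B T0 S o (i, j) - B T0 S o o * u (i, j) / u o) / u o
      map_add' := fun S U => by
        ext i j
        simp only [B, map_add, Submodule.coe_add, Pi.add_apply, of_apply, Matrix.add_apply]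
        ring
      map_smul' := fun c S => by
        ext i j
        simp only [B, map_smul, Submodule.coe_smul, Pi.smul_apply, of_apply, Matrix.smul_apply,
          smul_eq_mul, RingHom.id_apply]
        ring }
  have hL0 : ∀ S p q, B S S p q = L0 S p.1 p.2 * L0 S q.1 q.2 := by
    intro S
    obtain ⟨v, hv⟩ := hsq S
    rcases line_rank_one (u := u) (v := v) (X := B T0 S) (hBs T0 S) ho (fun t p q r s => by
      simp only [← hu, ← hv, ← hline]
      exact hmin _ p q r s) with h | ⟨c, hc⟩
    · intro p q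
      rw [hv, h]
      rfl
    · obtain ⟨e, he, h⟩ := hinj S T0 c fun p q => by rw [hv, hu, hc, hc]; ring
      have h1 : syW T0 S = (e * c) • syW T0 T0 := by
        ext p q
        simp only [syW, sy, LinearMap.coe_mk, AddHom.coe_mk, Submodule.coe_smul, Pi.smul_apply,
          smul_eq_mul, h, Matrix.smul_apply]
        ring
      have h2 : ∀ p q, B T0 S p q = e * c * (u p * u q) := by
        intro p q
        rw [← hu]
        simp only [B, h1, map_smul, Submodule.coe_smul, Pi.smul_apply, smul_eq_mul]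
      intro p q
      simp only [L0, LinearMap.coe_mk, AddHom.coe_mk, of_apply, h2, hv, hc]
      field_simp
      linear_combination (-(c ^ 2 * u p * u q)) * he
  have htr : ∀ S, (L0 S).trace = 0 := by
    intro S
    have h1 : ∀ q : n × n, (L0 S).trace * L0 S q.1 q.2 = 0 := by
      intro q
      have := WW_tr (Φ (syW S S)).2 q
      change ∑ a, B S S (a, a) q = 0 at this
      simp only [hL0] at this
      rw [← this, trace, Finset.sum_mul]
      rfl
    have h2 : (L0 S).trace * (L0 S).trace = 0 := by
      conv_lhs => rw [trace.eq_1 (L0 S), Finset.mul_sum]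
      exact Finset.sum_eq_zero fun a _ => h1 (a, a)
    exact mul_self_eq_zero.1 h2
  let L1 : Matrix n n ℂ →ₗ[ℂ] Matrix n n ℂ :=
    L0 + LinearMap.smulRight (Matrix.traceLinearMap n ℂ ℂ) 1
  have hL1 : ∀ S, L1 S = L0 S + S.trace • (1 : Matrix n n ℂ) := fun S => rfl
  have hi : Function.Injective L1 := by
    rw [injective_iff_map_eq_zero]
    intro S hS
    have h1 : S.trace = 0 := by
      have := congrArg trace hS
      rw [hL1, trace_add, htr, trace_smul, trace_one, trace_zero, zero_add, smul_eq_mul] at this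
      exact (mul_eq_zero.1 this).resolve_right card_ne
    rw [hL1, h1, zero_smul, add_zero] at hS
    obtain ⟨e, -, h⟩ := hinj S S 0 fun p q => by simp [hL0, hS]
    rw [pr_of_trace h1] at h
    simpa using h
  refine ⟨LinearEquiv.ofInjectiveEndo L1 hi, hΦ.mono fun S hS => ?_⟩
  obtain ⟨e, he, h⟩ := sq_eq (T := pr (φ S)) (S := L0 S) fun p q => by
    rw [← hL0]
    simp only [B, hS]
    simp only [syW, sy, LinearMap.coe_mk, AddHom.coe_mk]
    ring
  refine ⟨e, (Fintype.card n : ℂ)⁻¹ * (φ S).trace - e * S.trace, he, ?_⟩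
  rw [LinearEquiv.coe_ofInjectiveEndo, hL1]
  conv_lhs => rw [eq_pr_add (φ S), h]
  module

end Pool.Agent.H76.LieGen
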