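import Mathlib

/-! Polynomial functions on complex vector spaces and generic properties. -/

namespace Pool.Agent.H76.LiePoly

open Polynomial

section PF

variable {V W : Type*} [AddCommGroup V] [Module ℂ V] [AddCommGroup W] [Module ℂ W]

/-- Functions that are polynomial along every complex line. -/
def PF (V : Type*) [AddCommGroup V] [Module ℂ V] : Subalgebra ℂ (V → ℂ) where
  carrier := {f | ∀ a b : V, ∃ p : ℂ[X], ∀ t : ℂ, f (a + t • b) = p.eval t}
  mul_mem' := by
    intro f g hf hg a b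
    obtain ⟨p, hp⟩ := hf a b
    obtain ⟨q, hq⟩ := hg a b
    exact ⟨p * q, fun t => by simp [hp t, hq t]⟩
  add_mem' := by
    intro f g hf hg a b
    obtain ⟨p, hp⟩ := hf a b
    obtain ⟨q, hq⟩ := hg a b
    exact ⟨p + q, fun t => by simp [hp t, hq t]⟩
  algebraMap_mem' := by
    intro c a b
    exact ⟨C c, fun t => by simp⟩

lemma PF_const (c : ℂ) : (fun _ : V => c) ∈ PF V := fun _ _ => ⟨C c, fun t => by simp⟩

lemma PF_lin (l : V →ₗ[ℂ] ℂ) : (fun v => l v) ∈ PF V := fun a b =>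
  ⟨C (l a) + X * C (l b), fun t => by
    simp only [map_add, map_smul, smul_eq_mul, eval_add, eval_mul, eval_C, eval_X]⟩

lemma PF_mul {f g : V → ℂ} (hf : f ∈ PF V) (hg : g ∈ PF V) : (fun v => f v * g v) ∈ PF V :=
  (PF V).mul_mem hf hg

lemma PF_add {f g : V → ℂ} (hf : f ∈ PF V) (hg : g ∈ PF V) : (fun v => f v + g v) ∈ PF V :=
  (PF V).add_mem hf hg

lemma PF_sub {f g : V → ℂ} (hf : f ∈ PF V) (hg : g ∈ PF V) : (fun v => f v - g v) ∈ PF V :=
  (PF V).sub_mem hf hg

lemma PF_sum {ι : Type*} (s : Finset ι) {f : ι → V → ℂ} (hf : ∀ i ∈ s, f i ∈ PF V) :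
    (fun v => ∑ i ∈ s, f i v) ∈ PF V := by
  have := (PF V).sum_mem hf
  convert this using 1
  ext v; simp

/-- A map that sends lines to lines affinely. -/
def Aff (g : V → W) : Prop := ∀ a b : V, ∃ a' b' : W, ∀ t : ℂ, g (a + t • b) = a' + t • b'

lemma PF_comp {f : W → ℂ} (hf : f ∈ PF W) {g : V → W} (hg : Aff g) :
    (fun v => f (g v)) ∈ PF V := by
  intro a b
  obtain ⟨a', b', h⟩ := hg a b
  obtain ⟨p, hp⟩ := hf a' b'
  exact ⟨p, fun t => by simp only [h t, hp t]⟩

lemma aff_lin (l : V →ₗ[ℂ] W) : Aff (fun v => l v) := fun a b =>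
  ⟨l a, l b, fun t => by simp⟩

lemma PF_exists_ne {f g : V → ℂ} (hf : f ∈ PF V) (hg : g ∈ PF V) (ha : ∃ a, f a ≠ 0)
    (hb : ∃ b, g b ≠ 0) : ∃ c, f c ≠ 0 ∧ g c ≠ 0 := by
  obtain ⟨a, ha⟩ := ha
  obtain ⟨b, hb⟩ := hb
  obtain ⟨p, hp⟩ := hf a (b - a)
  obtain ⟨q, hq⟩ := hg a (b - a)
  have hp0 : p ≠ 0 := by
    intro h
    have := hp 0
    simp [h] at this
    exact ha this
  have hq0 : q ≠ 0 := by
    intro h
    have := hq 1
    simp [h] at this
    exact hb this
  have hpq : p * q ≠ 0 := mul_ne_zero hp0 hq0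
  obtain ⟨t, ht⟩ := Infinite.exists_notMem_finset (p * q).roots.toFinset
  rw [Multiset.mem_toFinset, mem_roots hpq, IsRoot, eval_mul] at ht
  refine ⟨a + t • (b - a), ?_, ?_⟩
  · rw [hp]; exact fun h => ht (by rw [h, zero_mul])
  · rw [hq]; exact fun h => ht (by rw [h, mul_zero])

lemma PF_mul_eq_zero {f g : V → ℂ} (hf : f ∈ PF V) (hg : g ∈ PF V) (h : ∀ v, f v * g v = 0) :
    (∀ v, f v = 0) ∨ (∀ v, g v = 0) := by
  by_contra hc
  push Not at hc
  obtain ⟨c, h1, h2⟩ := PF_exists_ne hf hg hc.1 hc.2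
  exact mul_ne_zero h1 h2 (h c)

/-- A property holding off the zero set of a nonzero polynomial function. -/
def Gen (P : V → Prop) : Prop := ∃ D ∈ PF V, (∃ a, D a ≠ 0) ∧ ∀ v, D v ≠ 0 → P v

lemma Gen.mono {P Q : V → Prop} (h : Gen P) (hPQ : ∀ v, P v → Q v) : Gen Q := by
  obtain ⟨D, hD, ha, hv⟩ := h
  exact ⟨D, hD, ha, fun v h => hPQ v (hv v h)⟩

lemma Gen.and {P Q : V → Prop} (h : Gen P) (h' : Gen Q) : Gen (fun v => P v ∧ Q v) := by
  obtain ⟨D, hD, ha, hv⟩ := h
  obtain ⟨D', hD', ha', hv'⟩ := h'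
  obtain ⟨c, h1, h2⟩ := PF_exists_ne hD hD' ha ha'
  exact ⟨fun v => D v * D' v, PF_mul hD hD', ⟨c, mul_ne_zero h1 h2⟩, fun v h =>
    ⟨hv v (left_ne_zero_of_mul h), hv' v (right_ne_zero_of_mul h)⟩⟩

lemma gen_of_forall {P : V → Prop} (h : ∀ v, P v) : Gen P :=
  ⟨fun _ => 1, PF_const 1, ⟨0, one_ne_zero⟩, fun v _ => h v⟩

lemma gen_ne {D : V → ℂ} (hD : D ∈ PF V) (ha : ∃ a, D a ≠ 0) : Gen (fun v => D v ≠ 0) :=
  ⟨D, hD, ha, fun _ h => h⟩

lemma Gen.exists {P : V → Prop} (h : Gen P) : ∃ v, P v := by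
  obtain ⟨D, _, ⟨a, ha⟩, hv⟩ := h
  exact ⟨a, hv a ha⟩

lemma gen_finset {ι : Type*} (s : Finset ι) {P : ι → V → Prop} (h : ∀ i ∈ s, Gen (P i)) :
    Gen (fun v => ∀ i ∈ s, P i v) := by
  classical
  induction s using Finset.induction_on with
  | empty => exact gen_of_forall (by simp)
  | insert a s ha ih =>
    refine ((h a (Finset.mem_insert_self _ _)).and
      (ih fun i hi => h i (Finset.mem_insert_of_mem hi))).mono ?_
    intro v hv i hi
    rcases Finset.mem_insert.1 hi with rfl | hi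
    · exact hv.1
    · exact hv.2 i hi

lemma gen_all {ι : Type*} [Finite ι] {P : ι → V → Prop} (h : ∀ i, Gen (P i)) :
    Gen (fun v => ∀ i, P i v) := by
  have := Fintype.ofFinite ι
  exact (gen_finset Finset.univ fun i _ => h i).mono fun v hv i => hv i (Finset.mem_univ i)

lemma Gen.eq_zero {f : V → ℂ} (hf : f ∈ PF V) (h : Gen (fun v => f v = 0)) (v : V) : f v = 0 := by
  by_contra hv
  obtain ⟨c, h1, h2⟩ := ((gen_ne hf ⟨v, hv⟩).and h).exists
  exact h1 h2

lemma Gen.comp {P : W → Prop} (h : Gen P) (l : V →ₗ[ℂ] W) (hl : Function.Surjective l) :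
    Gen (fun v => P (l v)) := by
  obtain ⟨D, hD, ⟨a, ha⟩, hv⟩ := h
  obtain ⟨b, rfl⟩ := hl a
  exact ⟨fun v => D (l v), PF_comp hD (aff_lin l), ⟨b, ha⟩, fun v h => hv _ h⟩

lemma Gen.slice {P : V × W → Prop} (h : Gen P) : Gen (fun w => Gen (fun v => P (v, w))) := by
  obtain ⟨D, hD, ⟨a, ha⟩, hv⟩ := h
  refine ⟨fun w => D (a.1, w), PF_comp hD ?_, ⟨a.2, ha⟩, fun w hw => ?_⟩
  · intro x y
    exact ⟨(a.1, x), (0, y), fun t => by simp⟩
  · refine ⟨fun v => D (v, w), PF_comp hD ?_, ⟨a.1, hw⟩, fun v h => hv _ h⟩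
    intro x y
    exact ⟨(x, w), (y, 0), fun t => by simp⟩

/-- Evaluation at a point. -/
def ev (v : V) : PF V →+* ℂ where
  toFun f := f.1 v
  map_one' := rfl
  map_mul' _ _ := rfl
  map_zero' := rfl
  map_add' _ _ := rfl

end PF

section PM

variable {V : Type*} [AddCommGroup V] [Module ℂ V] {n : Type*} [Fintype n] [DecidableEq n]

/-- Matrix valued polynomial maps. -/
def PM (Z : V → Matrix n n ℂ) : Prop := ∀ i j, (fun v => Z v i j) ∈ PF V

omit [Fintype n] [DecidableEq n] in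
lemma PM_const (A : Matrix n n ℂ) : PM (fun _ : V => A) := fun _ _ => PF_const _

omit [Fintype n] [DecidableEq n] in
lemma PM_lin (l : V →ₗ[ℂ] Matrix n n ℂ) : PM (fun v => l v) := fun i j =>
  PF_lin ((Matrix.entryLinearMap ℂ ℂ i j).comp l)

omit [Fintype n] [DecidableEq n] in
lemma PM.add {Z Z' : V → Matrix n n ℂ} (h : PM Z) (h' : PM Z') : PM (fun v => Z v + Z' v) :=
  fun i j => PF_add (h i j) (h' i j)

omit [Fintype n] [DecidableEq n] in
lemma PM.sub {Z Z' : V → Matrix n n ℂ} (h : PM Z) (h' : PM Z') : PM (fun v => Z v - Z' v) :=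
  fun i j => PF_sub (h i j) (h' i j)

omit [Fintype n] [DecidableEq n] in
lemma PM.smul {Z : V → Matrix n n ℂ} {c : V → ℂ} (hc : c ∈ PF V) (h : PM Z) :
    PM (fun v => c v • Z v) :=
  fun i j => PF_mul hc (h i j)

omit [DecidableEq n] in
lemma PM.mul {Z Z' : V → Matrix n n ℂ} (h : PM Z) (h' : PM Z') : PM (fun v => Z v * Z' v) := by
  intro i j
  simp only [Matrix.mul_apply]
  exact PF_sum _ fun k _ => PF_mul (h i k) (h' k j)

lemma PM.pow {Z : V → Matrix n n ℂ} (h : PM Z) (k : ℕ) : PM (fun v => Z v ^ k) := by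
  induction k with
  | zero => simpa using PM_const (V := V) (1 : Matrix n n ℂ)
  | succ k ih => simpa [pow_succ] using ih.mul h

omit [DecidableEq n] in
lemma PM.trace {Z : V → Matrix n n ℂ} (h : PM Z) : (fun v => (Z v).trace) ∈ PF V := by
  simp only [Matrix.trace, Matrix.diag]
  exact PF_sum _ fun k _ => h k k

omit [Fintype n] [DecidableEq n] in
lemma PM_sum {ι : Type*} (s : Finset ι) {Z : ι → V → Matrix n n ℂ} (h : ∀ i ∈ s, PM (Z i)) :
    PM (fun v => ∑ i ∈ s, Z i v) := by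
  intro i j
  simp only [Matrix.sum_apply]
  exact PF_sum _ fun k hk => h k hk i j

/-- The matrix over the ring of polynomial functions. -/
def PM.lift {Z : V → Matrix n n ℂ} (h : PM Z) : Matrix n n (PF V) :=
  Matrix.of fun i j => ⟨_, h i j⟩

omit [Fintype n] [DecidableEq n] in
lemma PM.lift_map {Z : V → Matrix n n ℂ} (h : PM Z) (v : V) : h.lift.map (ev v) = Z v := by
  ext i j; rfl

lemma PM.det {Z : V → Matrix n n ℂ} (h : PM Z) : (fun v => (Z v).det) ∈ PF V := by
  have : (fun v => (Z v).det) = (h.lift.det).1 := by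
    ext v
    rw [← h.lift_map v]
    exact (RingHom.map_det (ev v) h.lift).symm
  rw [this]
  exact h.lift.det.2

lemma PM.coeff {Z : V → Matrix n n ℂ} (h : PM Z) (k : ℕ) :
    (fun v => (Z v).charpoly.coeff k) ∈ PF V := by
  have : (fun v => (Z v).charpoly.coeff k) = (h.lift.charpoly.coeff k).1 := by
    ext v
    rw [← h.lift_map v, Matrix.charpoly_map, Polynomial.coeff_map]
    rfl
  rw [this]
  exact (h.lift.charpoly.coeff k).2

lemma PM.aeval_charpoly {Z Z' : V → Matrix n n ℂ} (h : PM Z) (h' : PM Z') :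
    PM (fun v => aeval (Z' v) (Z v).charpoly) := by
  have : (fun v => aeval (Z' v) (Z v).charpoly) = fun v =>
      ∑ k ∈ Finset.range (Fintype.card n + 1), (Z v).charpoly.coeff k • Z' v ^ k := by
    ext1 v
    rw [aeval_eq_sum_range' (n := Fintype.card n + 1)]
    rw [Matrix.charpoly_natDegree_eq_dim]
    exact Nat.lt_succ_self _
  rw [this]
  exact PM_sum _ fun k _ => PM.smul (h.coeff k) (h'.pow k)

/-- A polynomial in the entries, nonzero exactly when the eigenvalues are distinct. -/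
noncomputable def disc (Z : Matrix n n ℂ) : ℂ :=
  resultant Z.charpoly (derivative Z.charpoly) (Fintype.card n) (Fintype.card n - 1)

lemma PM.disc {Z : V → Matrix n n ℂ} (h : PM Z) : (fun v => disc (Z v)) ∈ PF V := by
  have : (fun v => LiePoly.disc (Z v)) = (resultant h.lift.charpoly (derivative h.lift.charpoly)
      (Fintype.card n) (Fintype.card n - 1)).1 := by
    ext v
    rw [← h.lift_map v, LiePoly.disc, Matrix.charpoly_map, derivative_map, resultant_map_map]
    rfl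
  rw [this]
  exact Subtype.property _

lemma disc_ne_zero_iff (Z : Matrix n n ℂ) : disc Z ≠ 0 ↔ Z.charpoly.Separable := by
  have h1 : disc Z = resultant Z.charpoly (derivative Z.charpoly) := by
    rw [disc, natDegree_derivative, Matrix.charpoly_natDegree_eq_dim]
  rw [h1, Separable, ← isUnit_resultant_iff_isCoprime Z.charpoly_monic, isUnit_iff_ne_zero]

lemma disc_diagonal {d : n → ℂ} (hd : Function.Injective d) : disc (Matrix.diagonal d) ≠ 0 := by
  rw [disc_ne_zero_iff, Matrix.charpoly_diagonal, separable_prod_X_sub_C_iff]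
  exact hd

lemma exists_eigs {Z : Matrix n n ℂ} (h : disc Z ≠ 0) :
    ∃ d : n → ℂ, Function.Injective d ∧ ∀ i, d i ∈ spectrum ℂ Z := by
  classical
  rw [disc_ne_zero_iff] at h
  have hc : Fintype.card n = Fintype.card Z.charpoly.roots.toFinset := by
    rw [Fintype.card_coe, Multiset.toFinset_card_of_nodup (nodup_roots h),
      ← (IsAlgClosed.splits Z.charpoly).natDegree_eq_card_roots, Matrix.charpoly_natDegree_eq_dim]
  let e := Fintype.equivOfCardEq hc
  refine ⟨fun i => (e i).1, fun i j hij => e.injective (Subtype.ext hij), fun i => ?_⟩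
  rw [Matrix.mem_spectrum_iff_isRoot_charpoly]
  have := (e i).2
  rw [Multiset.mem_toFinset, mem_roots Z.charpoly_monic.ne_zero] at this
  exact this

lemma exists_eigvec {Z : Matrix n n ℂ} {c : ℂ} (h : c ∈ spectrum ℂ Z) :
    ∃ v : n → ℂ, v ≠ 0 ∧ Z.mulVec v = c • v := by
  rw [← Matrix.spectrum_toLin', ← Module.End.hasEigenvalue_iff_mem_spectrum] at h
  obtain ⟨v, hv⟩ := h.exists_hasEigenvector
  exact ⟨v, hv.2, by simpa using hv.apply_eq_smul⟩

lemma mem_spectrum_of_eigvec {Z : Matrix n n ℂ} {c : ℂ} {v : n → ℂ} (hv : v ≠ 0)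
    (h : Z.mulVec v = c • v) : c ∈ spectrum ℂ Z := by
  rw [← Matrix.spectrum_toLin', ← Module.End.hasEigenvalue_iff_mem_spectrum]
  exact Module.End.hasEigenvalue_of_hasEigenvector
    ⟨Module.End.mem_eigenspace_iff.2 (by simpa using h), hv⟩

lemma exists_diag {Z : Matrix n n ℂ} {d : n → ℂ} (hd : Function.Injective d)
    (h : ∀ i, d i ∈ spectrum ℂ Z) :
    ∃ P Q : Matrix n n ℂ, P * Q = 1 ∧ Q * P = 1 ∧ Z = P * Matrix.diagonal d * Q := by
  choose v hv0 hv using fun i => exists_eigvec (h i)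
  have hli : LinearIndependent ℂ v :=
    Module.End.eigenvectors_linearIndependent' (Matrix.toLin' Z) d hd v fun i =>
      ⟨Module.End.mem_eigenspace_iff.2 (by simpa using hv i), hv0 i⟩
  let P : Matrix n n ℂ := Matrix.of fun i j => v j i
  have hP : IsUnit P := Matrix.linearIndependent_cols_iff_isUnit.1 hli
  have hdet : IsUnit P.det := (Matrix.isUnit_iff_isUnit_det P).1 hP
  refine ⟨P, P⁻¹, Matrix.mul_nonsing_inv P hdet, Matrix.nonsing_inv_mul P hdet, ?_⟩
  have : Z * P = P * Matrix.diagonal d := by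
    ext i j
    have := congrFun (hv j) i
    simp only [Matrix.mulVec, dotProduct, Pi.smul_apply, smul_eq_mul] at this
    rw [Matrix.mul_diagonal, Matrix.mul_apply]
    simp only [P, Matrix.of_apply]
    rw [this, mul_comm]
  rw [← this, Matrix.mul_assoc, Matrix.mul_nonsing_inv P hdet, Matrix.mul_one]

lemma trace_pow_diag {P Q : Matrix n n ℂ} (hQP : Q * P = 1) (hPQ : P * Q = 1) (D : Matrix n n ℂ)
    (k : ℕ) : ((P * D * Q) ^ k).trace = (D ^ k).trace := by
  have : (P * D * Q) ^ k = P * D ^ k * Q := by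
    induction k with
    | zero => simp [hPQ]
    | succ k ih =>
      rw [pow_succ, ih, pow_succ]
      calc P * D ^ k * Q * (P * D * Q) = P * D ^ k * (Q * P) * D * Q := by
            simp only [Matrix.mul_assoc]
        _ = _ := by rw [hQP]; simp only [Matrix.mul_assoc, Matrix.mul_one]
  rw [this, Matrix.trace_mul_comm, ← Matrix.mul_assoc, hQP, Matrix.one_mul]

lemma trace_pow_eq {Z Z' : Matrix n n ℂ} (h : disc Z ≠ 0) (hs : spectrum ℂ Z ⊆ spectrum ℂ Z')
    (k : ℕ) : (Z' ^ k).trace = (Z ^ k).trace := by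
  obtain ⟨d, hd, hdZ⟩ := exists_eigs h
  obtain ⟨P, Q, h1, h2, h3⟩ := exists_diag hd hdZ
  obtain ⟨P', Q', h1', h2', h3'⟩ := exists_diag hd fun i => hs (hdZ i)
  rw [h3, h3', trace_pow_diag h2 h1, trace_pow_diag h2' h1']

end PM

end Pool.Agent.H76.LiePoly
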