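import Mathlib

set_option autoImplicit false

namespace Pool.Agent.H76.LocLat

open Filter Topology

/-- The lattice `M_{2^ω}`: a least element, a greatest element and an antichain indexed by the
binary sequences. -/
inductive MC : Type
  | bot : MC
  | top : MC
  | atom : (ℕ → Bool) → MC

open Classical in
/-- the meet of `M_{2^ω}` -/
noncomputable def MC.meet : MC → MC → MC
  | .bot, _ => .bot
  | .top, y => y
  | .atom _, .bot => .bot
  | .atom a, .top => .atom a
  | .atom a, .atom b => if a = b then .atom a else .bot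

open Classical in
/-- the join of `M_{2^ω}` -/
noncomputable def MC.join : MC → MC → MC
  | .bot, y => y
  | .top, _ => .top
  | .atom a, .bot => .atom a
  | .atom _, .top => .top
  | .atom a, .atom b => if a = b then .atom a else .top

/-- `f` embeds `M_{2^ω}` into the ordered set `K` preserving binary meets and joins. -/
def IsLatticeEmbedding {K : Type} [PartialOrder K] (f : MC → K) : Prop :=
  Function.Injective f ∧
    ∀ x y, IsGLB {f x, f y} (f (x.meet y)) ∧ IsLUB {f x, f y} (f (x.join y))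

/-- the plane over the 2-adic numbers -/
abbrev A : Type := Fin 2 → ℚ_[2]

noncomputable def B (n : ℕ) : AddSubgroup A :=
  (IsUltrametricDist.closedBall_openAddSubgroup A (r := (1 / 2) ^ n) (by positivity) :
    OpenAddSubgroup A)

lemma mem_B {n : ℕ} {a : A} : a ∈ B n ↔ ‖a‖ ≤ (1 / 2) ^ n := by
  change a ∈ Metric.closedBall (0 : A) _ ↔ _
  simp

instance (n : ℕ) : Countable (A ⧸ B n) := by
  have : DiscreteTopology (A ⧸ B n) := QuotientAddGroup.discreteTopology
    (IsUltrametricDist.closedBall_openAddSubgroup A (r := (1 / 2) ^ n) (by positivity)).isOpen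
  exact TopologicalSpace.separableSpace_iff_countable.1 inferInstance

/-- the countable set acted upon -/
abbrev X0 : Type := Σ n : ℕ, A ⧸ B n

noncomputable def T0 : Multiplicative A →* Equiv.Perm X0 :=
  MulAction.toPermHom (Multiplicative A) X0

lemma T0_apply (a b : A) (n : ℕ) :
    T0 (Multiplicative.ofAdd a) ⟨n, QuotientAddGroup.mk b⟩ = ⟨n, QuotientAddGroup.mk (a + b)⟩ := rfl

theorem exists_action (X : Type) [Countable X] [Infinite X] :
    ∃ (T : Multiplicative A →* Equiv.Perm X) (p : ℕ → X),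
      (∀ n a b, T (.ofAdd a) (p n) = T (.ofAdd b) (p n) → ‖a - b‖ ≤ (1 / 2) ^ n) ∧
      ∀ x, ∃ n, ∀ a b, ‖a - b‖ ≤ (1 / 2) ^ n → T (.ofAdd a) x = T (.ofAdd b) x := by
  have : Infinite X0 := Infinite.of_surjective (fun x : X0 => x.1) fun n => ⟨⟨n, 0⟩, rfl⟩
  obtain ⟨e⟩ : Nonempty (X0 ≃ X) := nonempty_equiv_of_countable
  refine ⟨e.permCongrHom.toMonoidHom.comp T0, fun n => e ⟨n, QuotientAddGroup.mk 0⟩, ?_, ?_⟩
  · intro n a b h
    simp only [MulEquiv.toMonoidHom_eq_coe, MonoidHom.coe_comp, MonoidHom.coe_coe,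
      Function.comp_apply, Equiv.permCongrHom_coe, Equiv.permCongr_apply, Equiv.symm_apply_apply,
      EmbeddingLike.apply_eq_iff_eq, T0_apply, Sigma.mk.injEq, heq_eq_eq, true_and,
      add_zero] at h
    have := QuotientAddGroup.eq.1 h.symm
    rwa [mem_B, neg_add_eq_sub] at this
  · intro x
    obtain ⟨⟨n, y⟩, rfl⟩ := e.surjective x
    obtain ⟨y, rfl⟩ := QuotientAddGroup.mk_surjective y
    refine ⟨n, fun a b h => ?_⟩
    simp only [MulEquiv.toMonoidHom_eq_coe, MonoidHom.coe_comp, MonoidHom.coe_coe,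
      Function.comp_apply, Equiv.permCongrHom_coe, Equiv.permCongr_apply, Equiv.symm_apply_apply,
      EmbeddingLike.apply_eq_iff_eq, T0_apply, Sigma.mk.injEq, heq_eq_eq, true_and]
    symm
    rw [QuotientAddGroup.eq, mem_B]
    convert h using 2
    abel

theorem closed_image {X : Type} [TopologicalSpace X] [DiscreteTopology X]
    (T : Multiplicative A →* Equiv.Perm X) (p : ℕ → X)
    (h1 : ∀ n a b, T (.ofAdd a) (p n) = T (.ofAdd b) (p n) → ‖a - b‖ ≤ (1 / 2) ^ n)
    (h2 : ∀ x, ∃ n, ∀ a b, ‖a - b‖ ≤ (1 / 2) ^ n → T (.ofAdd a) x = T (.ofAdd b) x)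
    (S : Set A) (hS : IsClosed S) :
    IsClosed {f : X → X | ∃ a ∈ S, f = T (.ofAdd a)} := by
  rw [← closure_subset_iff_isClosed]
  intro f hf
  have key : ∀ (x y : X) (n : ℕ), ∃ a ∈ S, (∀ k ≤ n, T (.ofAdd a) (p k) = f (p k)) ∧
      T (.ofAdd a) x = f x := by
    intro x y n
    have ho : IsOpen {g : X → X | (∀ k ∈ Finset.range (n + 1), g (p k) = f (p k)) ∧ g x = f x} := by
      refine IsOpen.inter (s := {g : X → X | ∀ k ∈ Finset.range (n + 1), g (p k) = f (p k)})
        (t := {g : X → X | g x = f x}) ?_ ?_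
      · rw [Set.ofPred_forall]
        simp only [Set.ofPred_forall]
        refine isOpen_biInter_finset fun k _ => ?_
        exact (continuous_apply (A := fun _ : X => X) (p k)).isOpen_preimage _ (isOpen_discrete {f (p k)})
      · exact (continuous_apply (A := fun _ : X => X) x).isOpen_preimage _ (isOpen_discrete {f x})
    obtain ⟨g, ⟨hg1, hg2⟩, a, ha, rfl⟩ := mem_closure_iff.1 hf _ ho ⟨fun _ _ => rfl, rfl⟩
    exact ⟨a, ha, fun k hk => hg1 k (by simp; omega), hg2⟩
  choose a ha hap _ using fun n => key (p 0) (p 0) n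
  have hc : ∀ n m, n ≤ m → ‖a m - a n‖ ≤ (1 / 2) ^ n := fun n m h =>
    h1 n _ _ ((hap m n h).trans (hap n n le_rfl).symm)
  have hcau : CauchySeq a := by
    refine cauchySeq_of_le_geometric (1 / 2) 1 (by norm_num) fun n => ?_
    rw [dist_comm, dist_eq_norm, one_mul]
    exact hc n (n + 1) (by omega)
  obtain ⟨l, hl⟩ := cauchySeq_tendsto_of_complete hcau
  have hla : ∀ n, ‖l - a n‖ ≤ (1 / 2) ^ n := fun n =>
    le_of_tendsto ((hl.sub_const (a n)).norm) (eventually_atTop.2 ⟨n, fun m hm => hc n m hm⟩)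
  refine ⟨l, hS.mem_of_tendsto hl (Eventually.of_forall ha), funext fun x => ?_⟩
  obtain ⟨n, hn⟩ := h2 x
  obtain ⟨b, -, hb1, hb2⟩ := key x x n
  rw [← hb2]
  apply hn
  have e1 : ‖b - a n‖ ≤ (1 / 2) ^ n := h1 n _ _ ((hb1 n le_rfl).trans (hap n n le_rfl).symm)
  have e2 : b - l = (b - a n) + -(l - a n) := by abel
  rw [e2]
  refine (IsUltrametricDist.norm_add_le_max _ _).trans (max_le e1 ?_)
  rw [norm_neg]; exact hla n

/-- the family of closed subgroups -/
noncomputable def sub (s : (ℕ → Bool) → ℚ_[2]) : MC → AddSubgroup A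
  | .bot => ⊥
  | .top => ⊤
  | .atom c =>
    { carrier := {a | a 1 = s c * a 0}
      add_mem' := fun {a b} ha hb => by
        simp only [Set.mem_ofPred_eq, Pi.add_apply] at ha hb ⊢
        rw [ha, hb]; ring
      zero_mem' := by simp
      neg_mem' := fun {a} ha => by
        simp only [Set.mem_ofPred_eq, Pi.neg_apply] at ha ⊢
        rw [ha]; ring }

lemma mem_atom (s : (ℕ → Bool) → ℚ_[2]) (c : ℕ → Bool) (a : A) :
    a ∈ sub s (.atom c) ↔ a 1 = s c * a 0 := Iff.rfl

lemma sub_closed (s : (ℕ → Bool) → ℚ_[2]) (x : MC) : IsClosed (sub s x : Set A) := by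
  cases x with
  | bot => simp [sub]
  | top => simp [sub]
  | atom c => exact isClosed_eq (continuous_apply 1) (continuous_const.mul (continuous_apply 0))

lemma sub_meet {s : (ℕ → Bool) → ℚ_[2]} (hs : Function.Injective s) (x y : MC) :
    sub s (x.meet y) = sub s x ⊓ sub s y := by
  cases x <;> cases y <;> simp only [MC.meet] <;> try (simp [sub]; done)
  rename_i c d
  split_ifs with h
  · subst h; simp
  · symm
    rw [show sub s .bot = ⊥ from rfl, eq_bot_iff]
    rintro a ⟨h1, h2⟩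
    have h1 := (mem_atom s c a).1 h1
    have h2 := (mem_atom s d a).1 h2
    have h0 : a 0 = 0 := by
      have : (s c - s d) * a 0 = 0 := by rw [sub_mul, ← h1, ← h2, sub_self]
      exact (mul_eq_zero.1 this).resolve_left (sub_ne_zero.2 fun e => h (hs e))
    rw [AddSubgroup.mem_bot]
    funext i
    fin_cases i
    · exact h0
    · simpa [h0] using h1

lemma sub_join {s : (ℕ → Bool) → ℚ_[2]} (hs : Function.Injective s) (x y : MC) :
    sub s (x.join y) = sub s x ⊔ sub s y := by
  cases x <;> cases y <;> simp only [MC.join] <;> try (simp [sub]; done)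
  rename_i c d
  split_ifs with h
  · subst h; simp
  · symm
    rw [show sub s .top = ⊤ from rfl, eq_top_iff]
    intro a _
    have hne : s c - s d ≠ 0 := sub_ne_zero.2 fun e => h (hs e)
    rw [AddSubgroup.mem_sup]
    refine ⟨![(a 1 - s d * a 0) / (s c - s d), s c * ((a 1 - s d * a 0) / (s c - s d))], rfl,
      ![(s c * a 0 - a 1) / (s c - s d), s d * ((s c * a 0 - a 1) / (s c - s d))], rfl, ?_⟩
    funext i
    fin_cases i <;> simp <;> field_simp <;> ring

lemma sub_inj {s : (ℕ → Bool) → ℚ_[2]} (hs : Function.Injective s) :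
    Function.Injective (sub s) := by
  have h1 : ∀ c, (![1, s c] : A) ∈ sub s (.atom c) := fun c => by simp [mem_atom]
  have h2 : ∀ c, (![0, 1] : A) ∉ sub s (.atom c) := fun c => by simp [mem_atom]
  have h3 : ∀ c, (![1, s c] : A) ∉ sub s .bot := fun c h => by
    have := congrFun (AddSubgroup.mem_bot.1 h) 0
    simp at this
  have h4 : ∀ a, a ∈ sub s .top := fun a => AddSubgroup.mem_top a
  intro x y h
  cases x <;> cases y
  · rfl
  · exact absurd (h ▸ h4 _) (h3 default)
  · exact absurd (h ▸ h1 _) (h3 _)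
  · exact absurd (h ▸ h4 _) (h3 default)
  · rfl
  · exact absurd (h ▸ h4 _) (h2 _)
  · exact absurd (h ▸ h1 _) (h3 _)
  · exact absurd (h ▸ h4 _) (h2 _)
  · rename_i c d
    have := h ▸ h1 c
    rw [mem_atom] at this
    simp at this
    rw [hs this]

theorem main (X : Type) [Countable X] [Infinite X] [TopologicalSpace X] [DiscreteTopology X] :
    ∃ F : MC → Subgroup (Equiv.Perm X), Function.Injective F ∧
      (∀ x, IsClosed {f : X → X | ∃ g ∈ F x, f = g}) ∧
      (∀ x y, F (x.meet y) = F x ⊓ F y) ∧ (∀ x y, F (x.join y) = F x ⊔ F y) ∧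
      ∀ x y, ∀ g ∈ F (x.join y), ∃ a ∈ F x, ∃ b ∈ F y, g = a * b := by
  obtain ⟨T, p, h1, h2⟩ := exists_action X
  obtain ⟨s, -, -, hs⟩ := (PerfectSpace.univ_perfect (α := ℚ_[2])).exists_nat_bool_injection
    Set.univ_nonempty
  have hT : Function.Injective T := by
    intro a b h
    have : ∀ n, ‖a.toAdd - b.toAdd‖ ≤ (1 / 2) ^ n := fun n => h1 n _ _ (by simp [h])
    have h0 : ‖a.toAdd - b.toAdd‖ ≤ 0 :=
      ge_of_tendsto' (tendsto_pow_atTop_nhds_zero_of_lt_one (by norm_num) (by norm_num)) this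
    exact Multiplicative.toAdd.injective (sub_eq_zero.1 (norm_le_zero_iff.1 h0))
  refine ⟨fun x => (AddSubgroup.toSubgroup (sub s x)).map T, ?_, ?_, ?_, ?_, ?_⟩
  · intro x y h
    exact sub_inj hs (AddSubgroup.toSubgroup.injective (Subgroup.map_injective hT h))
  · intro x
    convert closed_image T p h1 h2 _ (sub_closed s x) using 3
    constructor
    · rintro ⟨g, ⟨a, ha, rfl⟩, rfl⟩
      exact ⟨a.toAdd, ha, rfl⟩
    · rintro ⟨a, ha, rfl⟩
      exact ⟨_, ⟨.ofAdd a, ha, rfl⟩, rfl⟩
  · intro x y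
    simp only [sub_meet hs, OrderIso.map_inf, Subgroup.map_inf _ _ _ hT]
  · intro x y
    simp only [sub_join hs, OrderIso.map_sup, Subgroup.map_sup]
  · rintro x y _ ⟨g, hg, rfl⟩
    have hg' : g.toAdd ∈ sub s (x.join y) := hg
    rw [sub_join hs, AddSubgroup.mem_sup] at hg'
    obtain ⟨a, ha, b, hb, e⟩ := hg'
    refine ⟨_, ⟨.ofAdd a, ha, rfl⟩, _, ⟨.ofAdd b, hb, rfl⟩, ?_⟩
    rw [← map_mul, ← ofAdd_add, e]
    rfl

end Pool.Agent.H76.LocLat
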