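import Pool.Agent.H76.MnrA

set_option autoImplicit false

namespace Pool.Agent.H76.MnrB

open MnrA

/-- commuting pairs in a set -/
def CP {Γ : Type} [Group Γ] (S : Set Γ) : Set (Γ × Γ) :=
  {p | p.1 ∈ S ∧ p.2 ∈ S ∧ p.1 * p.2 = p.2 * p.1}

def ev (L : Set A) : Set A := {g | g ∈ L ∧ chi g = 0}

def W (L : Subgroup A) : Prop :=
  32 * (CP (L : Set A)).ncard + 2 * (CP (ev L)).ncard ≤ 359 * Nat.card L

theorem CP_conj {Γ : Type} [Group Γ] [Finite Γ] (S T : Set Γ) (h : Γ)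
    (hs : ∀ g ∈ S, h * g * h⁻¹ ∈ T) : (CP S).ncard ≤ (CP T).ncard := by
  refine Set.ncard_le_ncard_of_injOn (fun p => (h * p.1 * h⁻¹, h * p.2 * h⁻¹)) ?_ ?_
  · rintro p ⟨h1, h2, h3⟩
    refine ⟨hs _ h1, hs _ h2, ?_⟩
    show h * p.1 * h⁻¹ * (h * p.2 * h⁻¹) = h * p.2 * h⁻¹ * (h * p.1 * h⁻¹)
    rw [conj_mul, conj_mul, h3]
  · intro p _ q _ e
    simp only [Prod.mk.injEq, mul_left_inj, mul_right_inj] at e
    exact Prod.ext e.1 e.2

theorem chi_one : chi 1 = 0 := by decide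
theorem chi_conj (h g : A) : chi (h * g * h⁻¹) = chi g := by
  have := chi_mul h h⁻¹
  rw [mul_inv_cancel, chi_one] at this
  rw [chi_mul, chi_mul]
  linear_combination -this

theorem W_conj (L : Subgroup A) (h : A) (hW : W (L.map (MulAut.conj h).toMonoidHom)) : W L := by
  unfold W at *
  have h1 := CP_conj (L : Set A) (L.map (MulAut.conj h).toMonoidHom) h
    (fun g hg => ⟨g, hg, rfl⟩)
  have h2 := CP_conj (ev L) (ev (L.map (MulAut.conj h).toMonoidHom)) h
    (fun g hg => ⟨⟨g, hg.1, rfl⟩, by rw [chi_conj]; exact hg.2⟩)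
  rw [Subgroup.card_map_of_injective (MulAut.conj h).injective] at hW
  omega

theorem W_small (L : Subgroup A) (h : Nat.card L ≤ 10) : W L := by
  unfold W
  have h1 : (CP (L : Set A)).ncard ≤ Nat.card L * Nat.card L := by
    have : (CP (L : Set A)) ⊆ (L : Set A) ×ˢ (L : Set A) := fun p hp => ⟨hp.1, hp.2.1⟩
    have h2 := Set.ncard_le_ncard this
    rwa [Set.ncard_prod] at h2
  have h2 : (CP (ev L)).ncard ≤ (CP (L : Set A)).ncard :=
    Set.ncard_le_ncard fun p hp => ⟨hp.1.1, hp.2.1.1, hp.2.2⟩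
  nlinarith

def cnt2 (N : ℕ) (m : ℕ → Bool) : ℕ :=
  ((Finset.range N ×ˢ Finset.range N).filter
    (fun p => m p.1 = true ∧ m p.2 = true ∧ mulN p.1 p.2 = mulN p.2 p.1)).card
def cnt1 (m : ℕ → Bool) : ℕ := ((Finset.range 64).filter (fun n => m n = true)).card

theorem CP_le (N : ℕ) (S : Set A) (m : ℕ → Bool) (h : ∀ g ∈ S, g.1 < N ∧ m g.1 = true) :
    (CP S).ncard ≤ cnt2 N m := by
  unfold cnt2
  rw [← Set.ncard_coe_finset]
  refine Set.ncard_le_ncard_of_injOn (fun p => (p.1.1, p.2.1)) ?_ ?_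
  · intro p hp
    have h1 : p.1 ∈ S := hp.1
    have h2 : p.2 ∈ S := hp.2.1
    have h3 : p.1 * p.2 = p.2 * p.1 := hp.2.2
    have h4 : mulN p.1.1 p.2.1 = mulN p.2.1 p.1.1 := by
      rw [← mul_val, ← mul_val, h3]
    exact Finset.mem_coe.2 (Finset.mem_filter.2 ⟨Finset.mem_product.2
      ⟨Finset.mem_range.2 (h _ h1).1, Finset.mem_range.2 (h _ h2).1⟩, (h _ h1).2, (h _ h2).2, h4⟩)
  · intro p _ q _ e
    simp only [Prod.mk.injEq] at e
    exact Prod.ext (A.ext e.1) (A.ext e.2)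

theorem card_ge (L : Subgroup A) (m : ℕ → Bool) (h : ∀ g : A, m g.1 = true → g ∈ L) :
    cnt1 m ≤ Nat.card L := by
  unfold cnt1
  rw [← Set.ncard_coe_finset]
  show _ ≤ (L : Set A).ncard
  refine Set.ncard_le_ncard_of_injOn (fun n => ⟨n % 1440, Nat.mod_lt _ (by norm_num)⟩) ?_ ?_
  · intro n hn
    simp only [Finset.coe_filter, Finset.mem_range, Set.mem_ofPred_eq] at hn
    apply h
    show m (n % 1440) = true
    rw [Nat.mod_eq_of_lt (by omega)]
    exact hn.2
  · intro p hp q hq e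
    simp only [Finset.coe_filter, Finset.mem_range, Set.mem_ofPred_eq] at hp hq
    have : p % 1440 = q % 1440 := congrArg A.val e
    omega

def bit (ph n j : ℕ) : Bool := Nat.testBit (tab ph 3 n) j
def mb (lo hi ph : ℕ) (b1 b2 b3 : Bool) (n : ℕ) : Bool :=
  Nat.ble lo n && Nat.blt n hi &&
    (((!bit ph n 0 || b1) == (!bit ph n 1 || b2)) == (!bit ph n 2 || b3))
def sm (i : Fin 64) : A := ⟨i.1, by omega⟩

theorem W_idx (lo hi ph : ℕ) (hhi : hi ≤ 64) (M L : Subgroup A) (hLM : L ≤ M)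
    (hM : ∀ g : A, g ∈ M ↔ lo ≤ g.1 ∧ g.1 < hi)
    (hidx : ∀ a ∈ M, ∀ b ∈ M, (a * b ∈ L ↔ (a ∈ L ↔ b ∈ L)))
    (g1 g2 g3 : A) (h1 : g1 ∈ M) (h2 : g2 ∈ M) (h3 : g3 ∈ M)
    (hdec : ∀ n : Fin 64, lo ≤ n.1 → n.1 < hi → ∃ u : Fin 64, lo ≤ u.1 ∧ u.1 < hi ∧
      sm n = sm u * sm u * (cond (bit ph n 0) g1 1 * cond (bit ph n 1) g2 1 *
        cond (bit ph n 2) g3 1))
    (hW : ∀ b1 b2 b3, 32 * cnt2 64 (mb lo hi ph b1 b2 b3) +
      2 * cnt2 64 (fun n => mb lo hi ph b1 b2 b3 n && Nat.beq (n % 2) 0) ≤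
      359 * cnt1 (mb lo hi ph b1 b2 b3)) : W L := by
  classical
  have key : ∀ g : A, g ∈ L ↔
      mb lo hi ph (decide (g1 ∈ L)) (decide (g2 ∈ L)) (decide (g3 ∈ L)) g.1 = true := by
    intro g
    by_cases hg : g ∈ M
    · obtain ⟨ha, hb⟩ := (hM g).1 hg
      obtain ⟨u, hu1, hu2, hu⟩ := hdec ⟨g.1, by omega⟩ ha hb
      have hgu : g = sm u * sm u * (cond (bit ph g.1 0) g1 1 * cond (bit ph g.1 1) g2 1 *
        cond (bit ph g.1 2) g3 1) := hu
      have huM : sm u ∈ M := (hM _).2 ⟨hu1, hu2⟩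
      have hc : ∀ (b : Bool) (y : A), y ∈ M → cond b y 1 ∈ M := by
        intro b y hy; cases b
        · exact M.one_mem
        · exact hy
      have hd : ∀ (b : Bool) (y : A), cond b y 1 ∈ L ↔ (!b || decide (y ∈ L)) = true := by
        intro b y; cases b
        · simp
        · simp
      have e1 := hidx _ huM _ huM
      have e2 := hidx _ (M.mul_mem huM huM) _ (M.mul_mem (M.mul_mem (hc (bit ph g.1 0) _ h1)
        (hc (bit ph g.1 1) _ h2)) (hc (bit ph g.1 2) _ h3))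
      have e3 := hidx _ (M.mul_mem (hc (bit ph g.1 0) _ h1) (hc (bit ph g.1 1) _ h2)) _
        (hc (bit ph g.1 2) _ h3)
      have e4 := hidx _ (hc (bit ph g.1 0) _ h1) _ (hc (bit ph g.1 1) _ h2)
      rw [← hgu, e1, e3, e4, hd, hd, hd] at e2
      rw [e2]
      unfold mb
      rw [Nat.ble_eq.mpr ha, Nat.blt_eq.mpr hb]
      generalize (!bit ph g.1 0 || decide (g1 ∈ L)) = c1
      generalize (!bit ph g.1 1 || decide (g2 ∈ L)) = c2
      generalize (!bit ph g.1 2 || decide (g3 ∈ L)) = c3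
      cases c1 <;> cases c2 <;> cases c3 <;> simp
    · refine ⟨fun h => absurd (hLM h) hg, fun h => absurd ((hM g).2 ?_) hg⟩
      unfold mb at h
      simp only [Bool.and_eq_true, Nat.ble_eq, Nat.blt_eq] at h
      exact h.1
  have a1 := CP_le 64 (L : Set A) _ (fun g hg => ⟨by have := (hM g).1 (hLM hg); omega, (key g).1 hg⟩)
  have a2 := CP_le 64 (ev L) (fun n => mb lo hi ph (decide (g1 ∈ L)) (decide (g2 ∈ L))
      (decide (g3 ∈ L)) n && Nat.beq (n % 2) 0) (fun g hg =>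
    ⟨by have := (hM g).1 (hLM hg.1); omega, by
      have h0 : ((g.1 : ℕ) : ZMod 2) = 0 := hg.2
      rw [ZMod.natCast_eq_zero_iff] at h0
      simp only [Bool.and_eq_true, Nat.beq_eq]
      exact ⟨(key g).1 hg.1, by omega⟩⟩)
  have a3 := card_ge L _ (fun g hg => (key g).2 hg)
  have a4 := hW (decide (g1 ∈ L)) (decide (g2 ∈ L)) (decide (g3 ∈ L))
  unfold W
  omega

def mkM (lo hi : ℕ) (hhi : hi ≤ 64) (h1 : lo ≤ 24 ∧ 24 < hi)
    (hm : ∀ a b : Fin 64, lo ≤ a.1 → a.1 < hi → lo ≤ b.1 → b.1 < hi →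
      lo ≤ (sm a * sm b).1 ∧ (sm a * sm b).1 < hi)
    (hi' : ∀ a : Fin 64, lo ≤ a.1 → a.1 < hi → lo ≤ (sm a)⁻¹.1 ∧ (sm a)⁻¹.1 < hi) :
    Subgroup A where
  carrier := {g | lo ≤ g.1 ∧ g.1 < hi}
  mul_mem' := fun {a b} ha hb =>
    hm ⟨a.1, by have := ha.2; omega⟩ ⟨b.1, by have := hb.2; omega⟩ ha.1 ha.2 hb.1 hb.2
  one_mem' := h1
  inv_mem' := fun {a} ha => hi' ⟨a.1, by have := ha.2; omega⟩ ha.1 ha.2

def P : Subgroup A := mkM 0 32 (by norm_num) (by norm_num) (by decide +kernel) (by decide +kernel)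
def F : Subgroup A := mkM 24 64 (by norm_num) (by norm_num) (by decide +kernel) (by decide +kernel)

theorem card_M (lo hi : ℕ) (hhi : hi ≤ 64) (M : Subgroup A)
    (hM : ∀ g : A, g ∈ M ↔ lo ≤ g.1 ∧ g.1 < hi) : Nat.card M = hi - lo := by
  rw [← Nat.card_Ico, ← Set.ncard_coe_finset]
  show (M : Set A).ncard = _
  refine Set.ncard_congr (fun g _ => g.1) ?_ ?_ ?_
  · intro g hg
    simpa using (hM g).1 hg
  · intro a b _ _ e
    exact A.ext e
  · intro n hn
    simp only [Finset.coe_Ico, Set.mem_Ico] at hn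
    exact ⟨⟨n, by omega⟩, (hM _).2 hn, rfl⟩

theorem cardP : Nat.card P = 32 := card_M 0 32 (by norm_num) P fun _ => Iff.rfl
theorem cardF : Nat.card F = 40 := card_M 24 64 (by norm_num) F fun _ => Iff.rfl

theorem idx_of (M L : Subgroup A) (hLM : L ≤ M) (hM : Nat.card M = 32 ∨ Nat.card M = 40)
    (hL : 10 < Nat.card L) : ∀ a ∈ M, ∀ b ∈ M, (a * b ∈ L ↔ (a ∈ L ↔ b ∈ L)) := by
  have h1 := (L.subgroupOf M).card_mul_index
  rw [Nat.card_congr (Subgroup.subgroupOfEquivOfLe hLM).toEquiv] at h1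
  have h2 : (L.subgroupOf M).index = 1 ∨ (L.subgroupOf M).index = 2 := by
    generalize (L.subgroupOf M).index = i at h1
    have : i ≤ 3 := by
      by_contra hc
      have : 11 * 4 ≤ Nat.card L * i := Nat.mul_le_mul hL (by omega)
      omega
    interval_cases i <;> omega
  intro a ha b hb
  rcases h2 with h | h
  · rw [Subgroup.index_eq_one, Subgroup.subgroupOf_eq_top] at h
    simp [h ha, h hb, h (M.mul_mem ha hb)]
  · exact Subgroup.mul_mem_iff_of_index_two h (a := ⟨a, ha⟩) (b := ⟨b, hb⟩)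

theorem W_P (L : Subgroup A) (h : L ≤ P) : W L := by
  by_cases hL : Nat.card L ≤ 10
  · exact W_small L hL
  · exact W_idx 0 32 0xd5d630f54e70f34478754651 (by norm_num) P L h (fun _ => Iff.rfl)
      (idx_of P L h (Or.inl cardP) (by omega)) (sm 0) (sm 1) (sm 4) ⟨by decide, by decide⟩
      ⟨by decide, by decide⟩ ⟨by decide, by decide⟩ (by decide +kernel) (by decide +kernel)

theorem W_F (L : Subgroup A) (h : L ≤ F) : W L := by
  by_cases hL : Nat.card L ≤ 10
  · exact W_small L hL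
  · exact W_idx 24 64 0x4d32104d34d34cb2082082082d3408000000000000000000 (by norm_num) F L h
      (fun _ => Iff.rfl) (idx_of F L h (Or.inr cardF) (by omega)) (sm 25) (sm 27) (sm 24)
      ⟨by decide, by decide⟩ ⟨by decide, by decide⟩ ⟨by decide, by decide⟩ (by decide +kernel)
      (by decide +kernel)

theorem W_all (L : Subgroup A) (h3 : ¬ 3 ∣ Nat.card L) : W L := by
  by_cases h5 : 5 ∣ Nat.card L
  · have : Fact (Nat.Prime 5) := ⟨by norm_num⟩
    obtain ⟨y, hy⟩ := exists_prime_orderOf_dvd_card' 5 h5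
    have hy5 : y.1 * y.1 * y.1 * y.1 * y.1 = 1 := by
      have := congrArg Subtype.val (pow_orderOf_eq_one y)
      rw [hy] at this
      simpa [pow_succ] using this
    rcases (five _ hy5).1 with h | h
    · have : y = 1 := Subtype.ext h
      rw [this, orderOf_one] at hy
      omega
    · apply W_conj L (w5 y.1)
      rw [← Subgroup.card_map_of_injective (f := (MulAut.conj (w5 y.1)).toMonoidHom)
        (MulAut.conj (w5 y.1)).injective] at h3
      have hx : x ∈ L.map (MulAut.conj (w5 y.1)).toMonoidHom :=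
        ⟨y.1, y.2, by
          show w5 y.1 * y.1 * (w5 y.1)⁻¹ = x
          rw [h, mul_inv_cancel_right]⟩
      generalize L.map (MulAut.conj (w5 y.1)).toMonoidHom = L' at h3 hx
      apply W_F
      intro g hg
      have hz : g * x * g⁻¹ ∈ L' := L'.mul_mem (L'.mul_mem hg hx) (L'.inv_mem hg)
      have hx5 : x * x * x * x * x = 1 := by decide +kernel
      rcases (five (g * x * g⁻¹) (by
        rw [conj_mul, conj_mul, conj_mul, conj_mul, hx5, mul_one, mul_inv_cancel])).2 with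
        h | ⟨t, _, h1, h2⟩
      · exact normF g h
      · exfalso
        apply h3
        have : Fact (Nat.Prime 3) := ⟨by norm_num⟩
        rw [← orderOf_eq_prime h1 h2]
        exact Subgroup.orderOf_dvd_natCard _ (L'.mul_mem (L'.mul_mem (L'.mul_mem (L'.pow_mem hx _)
          hz) (L'.pow_mem hx _)) (L'.pow_mem hz _))
  · have hd := L.card_subgroup_dvd_card
    rw [cardA] at hd
    have h32 : Nat.card L ∣ 2 ^ 5 := by
      have c3 : (Nat.card L).Coprime 3 := ((Nat.Prime.coprime_iff_not_dvd (by norm_num)).2 h3).symm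
      have c5 : (Nat.card L).Coprime 5 := ((Nat.Prime.coprime_iff_not_dvd (by norm_num)).2 h5).symm
      have c45 : (Nat.card L).Coprime (3 * 3 * 5) := (c3.mul_right c3).mul_right c5
      exact c45.dvd_of_dvd_mul_right hd
    obtain ⟨k, _, hk⟩ := (Nat.dvd_prime_pow Nat.prime_two).1 h32
    obtain ⟨Q, hQ⟩ := (IsPGroup.of_card hk).exists_le_sylow
    have hi : ¬ 2 ∣ P.index := by
      have := P.card_mul_index
      rw [cardP, cardA] at this
      omega
    obtain ⟨g, hg⟩ := MulAction.exists_smul_eq A Q ((IsPGroup.of_card (n := 5) cardP).toSylow hi)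
    apply W_conj L g
    apply W_P
    rintro _ ⟨y, hy, rfl⟩
    have h1 : ((g • Q : Sylow 2 A) : Subgroup A) = P := by rw [hg]; rfl
    rw [← h1, Sylow.coe_subgroup_smul]
    exact Subgroup.smul_mem_pointwise_smul _ _ _ (hQ hy)

end Pool.Agent.H76.MnrB
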