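import Pool.Agent.H76.MnrB

set_option autoImplicit false

namespace Pool.Agent.H76.MnrC

open MnrA MnrB

@[ext] structure Wt where
  a : ZMod 2
  b : ZMod 2
  c : ZMod 2
  d : ZMod 2
  e : ZMod 2
  z : ZMod 2
deriving DecidableEq

instance : Fintype Wt := Fintype.ofEquiv ((ZMod 2 × ZMod 2 × ZMod 2) × (ZMod 2 × ZMod 2 × ZMod 2))
  ⟨fun p => ⟨p.1.1, p.1.2.1, p.1.2.2, p.2.1, p.2.2.1, p.2.2.2⟩,
    fun w => ((w.a, w.b, w.c), (w.d, w.e, w.z)), fun _ => rfl, fun _ => rfl⟩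

def mW (t : ZMod 2) (w u : Wt) : Wt :=
  ⟨w.a + u.a, w.b + u.b, w.c + u.c, w.d + u.d, w.e + u.e,
    w.z + u.z + t * u.a + w.b * u.c + w.d * u.e⟩
def w0 : Wt := ⟨0, 0, 0, 0, 0, 0⟩

/-- the fibre product of PGammaL(2,9) with an extraspecial group of order 128 -/
@[ext] structure G where
  g : A
  w : Wt

instance : Mul G := ⟨fun x y => ⟨x.g * y.g, mW (chi x.g) x.w y.w⟩⟩
instance : One G := ⟨⟨1, w0⟩⟩
instance : Inv G := ⟨fun x => ⟨x.g⁻¹, ⟨-x.w.a, -x.w.b, -x.w.c, -x.w.d, -x.w.e,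
  -x.w.z - chi x.g⁻¹ * x.w.a + x.w.b * x.w.c + x.w.d * x.w.e⟩⟩⟩
theorem mul_g (x y : G) : (x * y).g = x.g * y.g := rfl
theorem mul_w (x y : G) : (x * y).w = mW (chi x.g) x.w y.w := rfl
theorem one_g : (1 : G).g = 1 := rfl
theorem one_w : (1 : G).w = w0 := rfl

instance : Group G := Group.ofLeftAxioms
  (fun x y z => G.ext (mul_assoc _ _ _) (by
    simp only [mul_w, mul_g, chi_mul, mW]
    refine Wt.ext ?_ ?_ ?_ ?_ ?_ ?_ <;> dsimp only <;> ring))
  (fun x => G.ext (one_mul _) (by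
    simp only [mul_w, one_g, one_w, chi_one, mW, w0]
    refine Wt.ext ?_ ?_ ?_ ?_ ?_ ?_ <;> dsimp only <;> ring))
  (fun x => G.ext (inv_mul_cancel _) (by
    show mW (chi x.g⁻¹) ⟨-x.w.a, -x.w.b, -x.w.c, -x.w.d, -x.w.e,
      -x.w.z - chi x.g⁻¹ * x.w.a + x.w.b * x.w.c + x.w.d * x.w.e⟩ x.w = w0
    simp only [mW, w0]
    refine Wt.ext ?_ ?_ ?_ ?_ ?_ ?_ <;> dsimp only <;> ring))

instance : Finite G :=
  Finite.of_injective (fun a : G => (a.g, a.w)) (fun _ _ h => G.ext (congrArg Prod.fst h)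
    (congrArg Prod.snd h))

def pr : G →* A := MonoidHom.mk' G.g mul_g

theorem fiber_le {X Y : Type} [Finite X] [Finite Y] (f : X → Y) (S : Set X) (T : Set Y) (n : ℕ)
    (h1 : ∀ x ∈ S, f x ∈ T) (h2 : ∀ y ∈ T, {x | x ∈ S ∧ f x = y}.ncard ≤ n) :
    S.ncard ≤ n * T.ncard := by
  classical
  rw [Set.ncard_eq_toFinset_card S, Set.ncard_eq_toFinset_card T]
  refine Finset.card_le_mul_card_image_of_maps_to (f := f) (by simpa using h1) n ?_
  intro y hy
  have := h2 y (by simpa using hy)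
  rw [← Set.ncard_coe_finset]
  convert this using 2
  ext x
  simp

def cW (s t : ZMod 2) : Finset (Wt × Wt) :=
  Finset.univ.filter (fun q => mW s q.1 q.2 = mW t q.2 q.1)
theorem cW_card : ∀ s t : ZMod 2, (cW s t).card = if s = 0 ∧ t = 0 then 2176 else 2048 := by
  decide +kernel

theorem mf {X : Type} [Fintype X] (p : X → Prop) [DecidablePred p] (x : X) :
    x ∈ Finset.univ.filter p ↔ p x := by simp
theorem cW_eq (s t : ZMod 2) :
    cW s t = Finset.univ.filter (fun q : Wt × Wt => mW s q.1 q.2 = mW t q.2 q.1) := rfl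
theorem mem_cW (s t : ZMod 2) (q : Wt × Wt) (h : mW s q.1 q.2 = mW t q.2 q.1) : q ∈ cW s t := by
  rw [cW_eq, mf]
  exact h
attribute [irreducible] cW

theorem fib_comm (S : Set (G × G)) (hS : ∀ p ∈ S, p.1 * p.2 = p.2 * p.1) (y : A × A) :
    {p | p ∈ S ∧ (p.1.g, p.2.g) = y}.ncard ≤ (cW (chi y.1) (chi y.2)).card := by
  rw [← Set.ncard_coe_finset]
  refine Set.ncard_le_ncard_of_injOn (fun p => (p.1.w, p.2.w)) ?_ ?_
  · intro p hp
    have h2 : (p.1.g, p.2.g) = y := hp.2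
    rw [Finset.mem_coe, ← h2]
    exact mem_cW _ _ _ (congrArg G.w (hS p hp.1))
  · intro p hp q hq e
    have h1 : (p.1.g, p.2.g) = (q.1.g, q.2.g) := hp.2.trans hq.2.symm
    simp only [Prod.mk.injEq] at e h1
    exact Prod.ext (G.ext h1.1 e.1) (G.ext h1.2 e.2)

theorem card_ker : Nat.card pr.ker = 64 := by
  have : Nat.card pr.ker = Nat.card Wt := Nat.card_congr
    ⟨fun x => x.1.w, fun w => ⟨⟨1, w⟩, rfl⟩, fun x => Subtype.ext (G.ext x.2.symm rfl), fun _ => rfl⟩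
  rw [this, Nat.card_eq_fintype_card]
  decide +kernel

theorem upper (H : Subgroup G) (h3 : ¬ 3 ∣ Nat.card H) : Nat.card (ConjClasses H) ≤ 359 := by
  have hc : Nat.card H = Nat.card (H.map pr) * Nat.card (H ⊓ pr.ker : Subgroup G) := by
    have h1 := (pr.domRestrict H).ker.card_mul_index
    rw [Subgroup.index_ker, MonoidHom.domRestrict_range, MonoidHom.ker_domRestrict,
      ← Subgroup.inf_subgroupOf_left,
      Nat.card_congr (Subgroup.subgroupOfEquivOfLe inf_le_left).toEquiv] at h1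
    rw [← h1, mul_comm]
  have hW := W_all (H.map pr) (fun h => h3 (hc ▸ h.mul_right _))
  unfold W at hW
  have hk : Nat.card (ConjClasses H) * Nat.card H ≤ (CP (H : Set G)).ncard := by
    rw [← card_comm_eq_card_conjClasses_mul_card]
    refine Nat.card_le_card_of_injective
      (fun p => (⟨(p.1.1.1, p.1.2.1), p.1.1.2, p.1.2.2, congrArg Subtype.val p.2.eq⟩ :
        CP (H : Set G))) ?_
    intro p q e
    have := congrArg Subtype.val e
    simp only [Prod.mk.injEq] at this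
    exact Subtype.ext (Prod.ext (Subtype.ext this.1) (Subtype.ext this.2))
  have hpos : 0 < Nat.card H := Nat.card_pos
  suffices h : (CP (H : Set G)).ncard ≤ 359 * Nat.card H from
    Nat.le_of_mul_le_mul_right (hk.trans h) hpos
  have hmap : ∀ p ∈ CP (H : Set G), (p.1.g, p.2.g) ∈ CP (H.map pr : Set A) := fun p hp =>
    ⟨⟨p.1, hp.1, rfl⟩, ⟨p.2, hp.2.1, rfl⟩, congrArg G.g hp.2.2⟩
  generalize hK : Nat.card (H ⊓ pr.ker : Subgroup G) = k at hc
  by_cases h32 : k ≤ 32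
  · have hf : ∀ g ∈ H.map pr, {x | x ∈ H ∧ x.g = g}.ncard ≤ k := by
      rintro _ ⟨x0, hx0, rfl⟩
      rw [← hK]
      show _ ≤ ((H ⊓ pr.ker : Subgroup G) : Set G).ncard
      refine Set.ncard_le_ncard_of_injOn (fun x => x0⁻¹ * x) ?_ ?_
      · rintro x ⟨h1, h2⟩
        refine ⟨H.mul_mem (H.inv_mem hx0) h1, ?_⟩
        have h4 : pr x = pr x0 := h2
        show pr (x0⁻¹ * x) = 1
        rw [map_mul, map_inv, h4, inv_mul_cancel]
      · intro p _ q _ e
        exact mul_left_cancel e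
    have h1 := fiber_le (fun p : G × G => (p.1.g, p.2.g)) _ _ (k * k) hmap (by
      intro y hy
      have hs : {p : G × G | p ∈ CP (H : Set G) ∧ (p.1.g, p.2.g) = y} ⊆
          {x | x ∈ H ∧ x.g = y.1} ×ˢ {x | x ∈ H ∧ x.g = y.2} := by
        rintro p ⟨hp, rfl⟩
        exact ⟨⟨hp.1, rfl⟩, hp.2.1, rfl⟩
      refine (Set.ncard_le_ncard hs).trans ?_
      rw [Set.ncard_prod]
      exact Nat.mul_le_mul (hf _ hy.1) (hf _ hy.2.1))
    rw [hc]
    generalize (CP (H.map pr : Set A)).ncard = c at h1 hW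
    calc _ ≤ k * k * c := h1
      _ ≤ k * (32 * c) := by rw [mul_assoc]; gcongr
      _ ≤ k * (359 * Nat.card (H.map pr)) := Nat.mul_le_mul_left _ (by omega)
      _ = _ := by ring
  · have hd : k ∣ 2 ^ 6 := by
      rw [← hK, show 2 ^ 6 = 64 from rfl, ← card_ker]
      exact Subgroup.card_dvd_of_le inf_le_right
    have h64 : k = 64 := by
      obtain ⟨j, hj, rfl⟩ := (Nat.dvd_prime_pow Nat.prime_two).1 hd
      interval_cases j <;> omega
    have a0 := fiber_le (fun p : G × G => (p.1.g, p.2.g))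
      {p | p ∈ CP (H : Set G) ∧ (chi p.1.g = 0 ∧ chi p.2.g = 0)} (CP (ev (H.map pr))) 2176
      (fun p hp => ⟨⟨(hmap p hp.1).1, hp.2.1⟩, ⟨(hmap p hp.1).2.1, hp.2.2⟩, (hmap p hp.1).2.2⟩)
      (fun y _ => (fib_comm _ (fun p hp => hp.1.2.2) y).trans (by
        rw [cW_card]; split_ifs <;> omega))
    have a1 := fiber_le (fun p : G × G => (p.1.g, p.2.g))
      {p | p ∈ CP (H : Set G) ∧ ¬ (chi p.1.g = 0 ∧ chi p.2.g = 0)}
      (CP (H.map pr : Set A) \ CP (ev (H.map pr))) 2048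
      (fun p hp => ⟨hmap p hp.1, fun h => hp.2 ⟨h.1.2, h.2.1.2⟩⟩)
      (fun y hy => (fib_comm _ (fun p hp => hp.1.2.2) y).trans (by
        rw [cW_card, if_neg (fun h => hy.2 ⟨⟨hy.1.1, h.1⟩, ⟨hy.1.2.1, h.2⟩, hy.1.2.2⟩)]))
    have a2 := Set.ncard_sdiff_add_ncard_of_subset (s := CP (ev (H.map pr)))
      (t := CP (H.map pr : Set A)) (fun p hp => ⟨hp.1.1, hp.2.1.1, hp.2.2⟩)
    have a3 : (CP (H : Set G)).ncard ≤
        {p | p ∈ CP (H : Set G) ∧ (chi p.1.g = 0 ∧ chi p.2.g = 0)}.ncard +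
        {p | p ∈ CP (H : Set G) ∧ ¬ (chi p.1.g = 0 ∧ chi p.2.g = 0)}.ncard := by
      refine le_trans (Set.ncard_le_ncard ?_) (Set.ncard_union_le _ _)
      intro p hp
      by_cases h : chi p.1.g = 0 ∧ chi p.2.g = 0
      · exact Or.inl ⟨hp, h⟩
      · exact Or.inr ⟨hp, h⟩
    rw [hc, h64]
    omega

def cond0 (q : Fin 11 × Wt) : Prop :=
  q.2.z = 0 ∨ (chi (rp q.1) = 0 ∧ q.2.b = 0 ∧ q.2.c = 0 ∧ q.2.d = 0 ∧ q.2.e = 0 ∧
    (q.2.a = 0 ∨ q.1 = 9))
instance : DecidablePred cond0 := fun q => by unfold cond0; infer_instance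
def T : Finset (Fin 11 × Wt) := Finset.univ.filter cond0
theorem T_card : T.card = 360 := by decide +kernel

theorem pow4 (x : G) : (x ^ 4).w = w0 := by
  have h : ∀ (t : ZMod 2) (w : Wt), mW (t + t + t) (mW (t + t) (mW t w w) w) w = w0 := by
    decide +kernel
  have : x ^ 4 = x * x * x * x := by simp [pow_succ]
  rw [this]
  simp only [mul_w, mul_g, chi_mul]
  exact h _ _

theorem pow40 (x : G) (h : x.g ^ 40 = 1) : x ^ 40 = 1 := by
  refine G.ext ?_ ?_
  · have := map_pow pr x 40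
    exact this.trans h
  · rw [show 40 = 10 * 4 from rfl, pow_mul]
    exact pow4 _

theorem zz : ∀ s t : ZMod 2, s ≠ t → s = 0 ∨ t = 0 := by decide

theorem lower : 360 ≤ {c : ConjClasses G | ∃ g, ConjClasses.mk g = c ∧ ¬ 3 ∣ orderOf g}.ncard := by
  rw [← T_card, ← Set.ncard_coe_finset]
  refine Set.ncard_le_ncard_of_injOn (fun q => ConjClasses.mk (⟨rp q.1, q.2⟩ : G)) ?_ ?_
  · intro q _
    refine ⟨_, rfl, fun h => ?_⟩
    have := h.trans (orderOf_dvd_of_pow_eq_one (pow40 ⟨rp q.1, q.2⟩ (reps_pow q.1)))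
    omega
  · rintro ⟨i, w⟩ hq ⟨j, u⟩ hr e
    have hq' : cond0 (i, w) := (Finset.mem_filter.1 (Finset.mem_coe.1 hq)).2
    have hr' : cond0 (j, u) := (Finset.mem_filter.1 (Finset.mem_coe.1 hr)).2
    obtain ⟨h, hh⟩ := isConj_iff.1 (ConjClasses.mk_eq_mk_iff_isConj.1 e)
    have h1 : h.g * rp i * h.g⁻¹ = rp j := congrArg G.g hh
    have h2 := reps h.g i
    rw [h1, rk_rp] at h2
    have hij : i = j := by
      have := j.2
      simp only [List.mem_cons, List.not_mem_nil, or_false] at h2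
      exact Fin.ext (by omega)
    subst hij
    have h9 : i = 9 → chi h.g = 0 := by
      rintro rfl
      exact centx _ h1
    rw [mul_inv_eq_iff_eq_mul] at hh
    have h3 : mW (chi h.g) h.w w = mW (chi (rp i)) u h.w := congrArg G.w hh
    simp only [mW, Wt.mk.injEq] at h3
    obtain ⟨e1, e2, e3, e4, e5, e6⟩ := h3
    have f1 : w.a = u.a := by linear_combination e1
    have f2 : w.b = u.b := by linear_combination e2
    have f3 : w.c = u.c := by linear_combination e3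
    have f4 : w.d = u.d := by linear_combination e4
    have f5 : w.e = u.e := by linear_combination e5
    have key : (chi (rp i) = 0 ∧ w.b = 0 ∧ w.c = 0 ∧ w.d = 0 ∧ w.e = 0 ∧ (w.a = 0 ∨ i = 9)) →
        w.z = u.z := by
      rintro ⟨k1, k2, k3, k4, k5, k6⟩
      rw [k1, ← f2, ← f4, k2, k3, k4, k5] at e6
      rcases k6 with k | k
      · rw [k] at e6
        linear_combination e6
      · rw [h9 k] at e6
        linear_combination e6
    have f6 : w.z = u.z := by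
      rcases hq' with k | k
      · rcases hr' with l | l
        · exact k.trans l.symm
        · apply key
          rw [f1, f2, f3, f4, f5]
          exact l
      · exact key k
    rw [Wt.ext f1 f2 f3 f4 f5 f6]

end Pool.Agent.H76.MnrC
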