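import Mathlib
import Pool.Agent.H76.LefDefs

/-! Balanced shellable complexes are Cohen–Macaulay: the colored system is a regular l.s.o.p. -/

set_option autoImplicit false
open MvPolynomial Finset

namespace Pool.Agent.H76.ShellCM
open Pool.Agent.H76.LefDefs

/-- `θ` is a linear system of parameters of `S ⧸ I`. -/
def IsLSOP {K : Type} [Field K] {V : Type} {d : ℕ} (I : Ideal (MvPolynomial V K))
    (θ : Fin d → MvPolynomial V K) : Prop :=
  (∀ i, (θ i).IsHomogeneous 1) ∧
    Module.Finite K (MvPolynomial V K ⧸ (I ⊔ Ideal.span (Set.range θ)))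

/-- `θ` is a regular sequence on `S ⧸ I`. -/
def IsRegSeq {K : Type} [Field K] {V : Type} {d : ℕ} (I : Ideal (MvPolynomial V K))
    (θ : Fin d → MvPolynomial V K) : Prop :=
  I ⊔ Ideal.span (Set.range θ) ≠ ⊤ ∧
  ∀ (i : Fin d) (f : MvPolynomial V K), θ i * f ∈ I ⊔ Ideal.span (θ '' {j | j < i}) →
    f ∈ I ⊔ Ideal.span (θ '' {j | j < i})

/-- `S ⧸ I`, of Krull dimension `d`, is Cohen–Macaulay: some l.s.o.p. is a regular sequence. -/
def IsCM {K : Type} [Field K] {V : Type} (I : Ideal (MvPolynomial V K)) (d : ℕ) : Prop :=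
  ∃ θ : Fin d → MvPolynomial V K, IsLSOP I θ ∧ IsRegSeq I θ

section
variable {K : Type} [Field K] {V : Type} [Fintype V] [DecidableEq V] {d m : ℕ}
  (Δ : Set (Finset V)) (col : V → Fin d) (F : Fin m → Fin d → V) (R : Fin m → Finset (Fin d))

noncomputable def th (K : Type) [Field K] (col : V → Fin d) (i : Fin d) : MvPolynomial V K :=
  ∑ v ∈ univ.filter (fun v => col v = i), X v

noncomputable def mon (K : Type) [Field K] (F : Fin m → Fin d → V) (k : Fin m)
    (T : Finset (Fin d)) : MvPolynomial V K := ∏ i ∈ T, X (F k i)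

noncomputable def Psi (K : Type) [Field K] (col : V → Fin d) (F : Fin m → Fin d → V)
    (R : Fin m → Finset (Fin d)) (p : Fin m → MvPolynomial (Fin d) K) : MvPolynomial V K :=
  ∑ k, mon K F k (R k) * aeval (th K col) (p k)

omit [DecidableEq V] in
theorem Psi_add (p p' : Fin m → MvPolynomial (Fin d) K) :
    Psi K col F R (p + p') = Psi K col F R p + Psi K col F R p' := by
  simp [Psi, mul_add, sum_add_distrib]

omit [DecidableEq V] in
theorem Psi_sub (p p' : Fin m → MvPolynomial (Fin d) K) :
    Psi K col F R (p - p') = Psi K col F R p - Psi K col F R p' := by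
  simp [Psi, mul_sub, sum_sub_distrib]

omit [DecidableEq V] in
theorem Psi_smul (b : MvPolynomial (Fin d) K) (p : Fin m → MvPolynomial (Fin d) K) :
    Psi K col F R (b • p) = aeval (th K col) b * Psi K col F R p := by
  simp only [Psi, Pi.smul_apply, smul_eq_mul, map_mul, mul_sum]
  exact sum_congr rfl fun k _ => by ring

theorem Psi_inj (hcol : ∀ k i, col (F k i) = i)
    (hF : ∀ k s, (∀ v ∈ s, ∃ i, F k i = v) → s ∈ Δ)
    (S1 : ∀ j k, j < k → ∃ i ∈ R k, F k i ≠ F j i)
    (p : Fin m → MvPolynomial (Fin d) K) (hp : Psi K col F R p ∈ srIdeal K Δ) : p = 0 := by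
  let ρ : Fin m → (MvPolynomial V K →ₐ[K] MvPolynomial (Fin d) K) := fun j =>
    aeval fun v => if F j (col v) = v then X (col v) else 0
  have h1 : ∀ j, ∀ f ∈ srIdeal K Δ, ρ j f = 0 := by
    intro j f hf
    have : srIdeal K Δ ≤ RingHom.ker (ρ j) := by
      refine Ideal.span_le.2 ?_
      rintro _ ⟨s, hs, rfl⟩
      show ρ j _ = 0
      rw [map_prod]
      by_contra hc
      refine hs (hF j s fun v hv => ⟨col v, ?_⟩)
      by_contra hne
      exact hc (prod_eq_zero hv (by simp [ρ, hne]))
    exact this hf
  have h2 : ∀ j i, ρ j (th K col i) = X i := by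
    intro j i
    rw [th, map_sum, sum_eq_single (F j i)]
    · simp [ρ, hcol]
    · intro v hv hne
      have := (mem_filter.1 hv).2
      simp only [ρ, aeval_X, this]
      rw [if_neg (Ne.symm hne)]
    · simp [hcol]
  have h3 : ∀ j b, ρ j (aeval (th K col) b) = b := by
    intro j b
    have : (ρ j).comp (aeval (th K col)) = AlgHom.id K _ := by
      ext i : 1
      simp [h2]
    exact DFunLike.congr_fun this b
  have key : ∀ n (hn : n < m), p ⟨n, hn⟩ = 0 := by
    intro n
    induction n using Nat.strong_induction_on with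
    | _ n ih =>
      intro hn
      have a1 := h1 ⟨n, hn⟩ _ hp
      rw [Psi, map_sum, sum_eq_single ⟨n, hn⟩] at a1
      · rw [map_mul, h3, mul_eq_zero] at a1
        refine a1.resolve_left ?_
        rw [mon, map_prod]
        refine prod_ne_zero_iff.2 fun i _ => ?_
        simp [ρ, hcol]
      · intro k _ hk
        rw [map_mul, h3]
        rcases lt_or_gt_of_ne hk with h | h
        · rw [ih k h k.2, mul_zero]
        · obtain ⟨i, hi, hne⟩ := S1 _ _ h
          rw [mon, map_prod, prod_eq_zero hi, zero_mul]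
          simp only [ρ, aeval_X, hcol]
          rw [if_neg (Ne.symm hne)]
      · simp
  funext k
  exact key k k.2

theorem Psi_surj (hcol : ∀ k i, col (F k i) = i)
    (hprop : ∀ u v, u ≠ v → col u = col v → ({u, v} : Finset V) ∉ Δ)
    (S1 : ∀ j k, j < k → ∃ i ∈ R k, F k i ≠ F j i)
    (S2 : ∀ k (T : Finset (Fin d)), ¬ R k ⊆ T → ∃ j < k, ∀ i ∈ T, F j i = F k i)
    (S3 : ∀ k (T : Finset (Fin d)) v, col v ∉ T → (∃ k', (∀ i ∈ T, F k' i = F k i) ∧ F k' (col v) = v) ∨
      insert v (T.image (F k)) ∉ Δ)
    (k0 : Fin m) (f : MvPolynomial V K) : ∃ p, f - Psi K col F R p ∈ srIdeal K Δ := by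
  let M : MvPolynomial V K → Prop := fun f => ∃ p, f - Psi K col F R p ∈ srIdeal K Δ
  have Madd : ∀ f g, M f → M g → M (f + g) := by
    rintro f g ⟨p, hp⟩ ⟨p', hp'⟩
    refine ⟨p + p', ?_⟩
    rw [Psi_add, add_sub_add_comm]
    exact add_mem hp hp'
  have MI : ∀ f g, M f → f - g ∈ srIdeal K Δ → M g := by
    rintro f g ⟨p, hp⟩ h
    refine ⟨p, ?_⟩
    have := sub_mem hp h
    rwa [sub_sub_sub_cancel_left] at this
  have Mb : ∀ (b : MvPolynomial (Fin d) K) f, M f → M (aeval (th K col) b * f) := by
    rintro b f ⟨p, hp⟩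
    refine ⟨b • p, ?_⟩
    rw [Psi_smul, ← mul_sub]
    exact Ideal.mul_mem_left _ _ hp
  have M0 : M 0 := ⟨0, by simp [Psi]⟩
  have Msum : ∀ {ι : Type} (s : Finset ι) (g : ι → MvPolynomial V K), (∀ i ∈ s, M (g i)) →
      M (∑ i ∈ s, g i) := fun s g h => sum_induction g M Madd M0 h
  have Mneg : ∀ f, M f → M (-f) := fun f h => by simpa using Mb (-1) f h
  have hinj : ∀ k, Function.Injective (F k) := fun k i i' e => by
    rw [← hcol k i, e, hcol]
  have hmin : ∀ k T, ∃ j, (∀ i ∈ T, F j i = F k i) ∧ R j ⊆ T := by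
    intro k T
    have key : ∀ n (hn : n < m), (∀ i ∈ T, F ⟨n, hn⟩ i = F k i) →
        ∃ j, (∀ i ∈ T, F j i = F k i) ∧ R j ⊆ T := by
      intro n
      induction n using Nat.strong_induction_on with
      | _ n ih =>
        intro hn h
        by_cases hR : R ⟨n, hn⟩ ⊆ T
        · exact ⟨_, h, hR⟩
        · obtain ⟨j, hj, hj2⟩ := S2 _ _ hR
          exact ih j hj j.2 fun i hi => (hj2 i hi).trans (h i hi)
    exact key k k.2 fun _ _ => rfl
  have hface : ∀ n (k : Fin m), m - k ≤ n → ∀ T, R k ⊆ T → M (mon K F k T) := by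
    intro n
    induction n with
    | zero => intro k hk; have := k.2; omega
    | succ n ih =>
      intro k hk T hT
      obtain ⟨U, rfl, hU⟩ : ∃ U, T = R k ∪ U ∧ Disjoint (R k) U :=
        ⟨T \ R k, (union_sdiff_of_subset hT).symm, disjoint_sdiff⟩
      clear hT
      induction U using Finset.induction_on with
      | empty =>
        refine ⟨Pi.single k 1, ?_⟩
        rw [union_empty, Psi, sum_eq_single k]
        · simp
        · intro j _ hj
          simp [Pi.single_eq_of_ne hj]
        · simp
      | insert i U hi ihU =>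
        have hiR : i ∉ R k := fun h => disjoint_left.1 hU h (mem_insert_self _ _)
        have a1 := ihU (hU.mono_right (subset_insert _ _))
        have hiT : i ∉ R k ∪ U := by simp [hi, hiR]
        have a2 := Mb (X i) _ a1
        rw [aeval_X, th, sum_mul, ← add_sum_erase _ _ (a := F k i) (by simp [hcol])] at a2
        have a3 : M (∑ v ∈ (univ.filter (fun v => col v = i)).erase (F k i),
            X v * mon K F k (R k ∪ U)) := by
          refine Msum _ _ fun v hv => ?_
          obtain ⟨hne, hv⟩ := mem_erase.1 hv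
          have hc := (mem_filter.1 hv).2
          rcases S3 k (R k ∪ U) v (by rw [hc]; exact hiT) with ⟨k', h1, h2⟩ | h
          · obtain ⟨j, hj1, hj2⟩ := hmin k' (insert i (R k ∪ U))
            have e : X v * mon K F k (R k ∪ U) = mon K F j (insert i (R k ∪ U)) := by
              rw [mon, mon, prod_insert hiT, hj1 i (mem_insert_self _ _), ← hc, h2]
              congr 1
              refine prod_congr rfl fun i' hi' => ?_
              rw [hj1 i' (mem_insert_of_mem hi'), h1 i' hi']
            rw [e]
            refine ih j ?_ _ hj2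
            have : k < j := by
              rcases lt_trichotomy k j with h | h | h
              · exact h
              · exfalso
                apply hne
                rw [h, hj1 i (mem_insert_self _ _), ← hc, h2]
              · obtain ⟨i', hi', hne'⟩ := S1 _ _ h
                have hm : i' ∈ R k ∪ U := mem_union_left _ hi'
                exact absurd ((hj1 i' (mem_insert_of_mem hm)).trans (h1 i' hm)).symm hne'
            have h5 : (k : ℕ) < j := this
            omega
          · refine MI 0 _ M0 ?_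
            rw [zero_sub, neg_mem_iff]
            refine Ideal.subset_span ⟨_, h, ?_⟩
            rw [prod_insert, mon, prod_image fun a _ b _ e => hinj k e]
            intro hm
            obtain ⟨i', hi', e⟩ := mem_image.1 hm
            rw [← e, hcol] at hc
            exact hiT (hc ▸ hi')
        have a4 := Madd _ _ a2 (Mneg _ a3)
        rw [add_neg_cancel_right] at a4
        rw [union_insert, mon, prod_insert hiT]
        exact a4
  have hall : ∀ k T, M (mon K F k T) := by
    intro k T
    obtain ⟨j, hj1, hj2⟩ := hmin k T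
    have e : mon K F k T = mon K F j T := prod_congr rfl fun i hi => by rw [hj1 i hi]
    rw [e]
    exact hface m j (by omega) T hj2
  have hX : ∀ v k T, M (X v * mon K F k T) := by
    intro v k T
    by_cases hv : col v ∈ T
    · have hz : ∀ w, col w = col v → w ≠ F k (col v) → X w * mon K F k T ∈ srIdeal K Δ := by
        intro w hw hne
        rw [mon, ← mul_prod_erase _ _ hv, ← mul_assoc]
        refine Ideal.mul_mem_right _ _ (Ideal.subset_span ⟨{w, F k (col v)}, ?_, ?_⟩)
        · exact hprop _ _ hne (by rw [hw, hcol])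
        · rw [prod_pair hne]
      by_cases hvF : v = F k (col v)
      · refine MI _ _ (Mb (X (col v)) _ (hall k T)) ?_
        rw [aeval_X, th, sum_mul, ← add_sum_erase _ _ (a := v) (by simp), add_sub_cancel_left]
        refine Ideal.sum_mem _ fun w hw => ?_
        obtain ⟨h1, h2⟩ := mem_erase.1 hw
        exact hz w (mem_filter.1 h2).2 (by rw [← hvF]; exact h1)
      · refine MI 0 _ M0 ?_
        rw [zero_sub, neg_mem_iff]
        exact hz v rfl hvF
    · rcases S3 k T v hv with ⟨k', h1, h2⟩ | h
      · have e : X v * mon K F k T = mon K F k' (insert (col v) T) := by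
          rw [mon, mon, prod_insert hv, h2]
          congr 1
          exact prod_congr rfl fun i hi => by rw [h1 i hi]
        rw [e]
        exact hall _ _
      · refine MI 0 _ M0 ?_
        rw [zero_sub, neg_mem_iff]
        refine Ideal.subset_span ⟨_, h, ?_⟩
        rw [prod_insert, mon, prod_image fun a _ b _ e => hinj k e]
        intro hm
        obtain ⟨i', hi', e⟩ := mem_image.1 hm
        rw [← e, hcol] at hv
        exact hv hi'
  show M f
  induction f using MvPolynomial.induction_on with
  | C a =>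
    have := Mb (C a) _ (hall k0 ∅)
    simpa [mon] using this
  | add f g hf hg => exact Madd _ _ hf hg
  | mul_X f v hf =>
    obtain ⟨p, hp⟩ := hf
    have a1 : M (Psi K col F R p * X v) := by
      rw [Psi, sum_mul]
      refine Msum _ _ fun k _ => ?_
      have := Mb (p k) _ (hX v k (R k))
      rwa [show aeval (th K col) (p k) * (X v * mon K F k (R k)) =
        mon K F k (R k) * aeval (th K col) (p k) * X v by ring] at this
    refine MI _ _ a1 ?_
    rw [← sub_mul, ← neg_sub]
    exact Ideal.mul_mem_right _ _ (neg_mem hp)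

theorem isCM (hcol : ∀ k i, col (F k i) = i)
    (hprop : ∀ u v, u ≠ v → col u = col v → ({u, v} : Finset V) ∉ Δ)
    (hF : ∀ k s, (∀ v ∈ s, ∃ i, F k i = v) → s ∈ Δ)
    (S1 : ∀ j k, j < k → ∃ i ∈ R k, F k i ≠ F j i)
    (S2 : ∀ k (T : Finset (Fin d)), ¬ R k ⊆ T → ∃ j < k, ∀ i ∈ T, F j i = F k i)
    (S3 : ∀ k (T : Finset (Fin d)) v, col v ∉ T → (∃ k', (∀ i ∈ T, F k' i = F k i) ∧ F k' (col v) = v) ∨
      insert v (T.image (F k)) ∉ Δ)
    (k0 : Fin m) : IsCM (srIdeal K Δ) d := by
  classical
  have hs := Psi_surj (K := K) Δ col F R hcol hprop S1 S2 S3 k0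
  have hi := Psi_inj (K := K) Δ col F R hcol hF S1
  have hth : ∀ i, (th K col i).IsHomogeneous 1 := fun i =>
    (homogeneousSubmodule V K 1).sum_mem fun _ _ => isHomogeneous_X K _
  have hmap : ∀ (s : Set (Fin d)) (b : MvPolynomial (Fin d) K), b ∈ Ideal.span (X '' s) →
      aeval (th K col) b ∈ Ideal.span (th K col '' s) := by
    intro s b hb
    have : Ideal.span (X '' s) ≤ (Ideal.span (th K col '' s)).comap
        (aeval (th K col) : MvPolynomial (Fin d) K →ₐ[K] MvPolynomial V K) := by
      refine Ideal.span_le.2 ?_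
      rintro _ ⟨i, hi, rfl⟩
      show aeval (th K col) (X i : MvPolynomial (Fin d) K) ∈ Ideal.span _
      rw [aeval_X]
      exact Ideal.subset_span ⟨i, hi, rfl⟩
    exact this hb
  have hback : ∀ (s : Set (Fin d)) (g : MvPolynomial V K),
      g ∈ srIdeal K Δ ⊔ Ideal.span (th K col '' s) →
      ∃ p : Fin m → MvPolynomial (Fin d) K, (∀ k, p k ∈ Ideal.span (X '' s)) ∧
        g - Psi K col F R p ∈ srIdeal K Δ := by
    intro s g hg
    obtain ⟨a, ha, b, hb, rfl⟩ := Submodule.mem_sup.1 hg
    have : ∀ h, ∃ p : Fin m → MvPolynomial (Fin d) K, (∀ k, p k ∈ Ideal.span (X '' s)) ∧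
        h * b - Psi K col F R p ∈ srIdeal K Δ := by
      clear hg
      induction hb using Submodule.span_induction with
      | mem x hx =>
        obtain ⟨i, hi, rfl⟩ := hx
        intro h
        obtain ⟨p, hp⟩ := hs h
        refine ⟨(X i : MvPolynomial (Fin d) K) • p, fun k =>
          Ideal.mul_mem_right _ _ (Ideal.subset_span ⟨i, hi, rfl⟩), ?_⟩
        rw [Psi_smul, aeval_X, mul_comm h, ← mul_sub]
        exact Ideal.mul_mem_left _ _ hp
      | zero => exact fun h => ⟨0, fun _ => zero_mem _, by simp [Psi]⟩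
      | add x y _ _ hx hy =>
        intro h
        obtain ⟨p, hp, hp2⟩ := hx h
        obtain ⟨p', hp', hp2'⟩ := hy h
        refine ⟨p + p', fun k => add_mem (hp k) (hp' k), ?_⟩
        rw [Psi_add, mul_add, add_sub_add_comm]
        exact add_mem hp2 hp2'
      | smul c x _ hx =>
        intro h
        rw [smul_eq_mul, ← mul_assoc]
        exact hx _
    obtain ⟨p, hp, hp2⟩ := this 1
    refine ⟨p, hp, ?_⟩
    rw [one_mul] at hp2
    rw [add_sub_assoc]
    exact add_mem ha hp2
  refine ⟨th K col, ⟨hth, ?_⟩, ?_, ?_⟩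
  · set J := srIdeal K Δ ⊔ Ideal.span (Set.range (th K col))
    refine ⟨⟨univ.image fun k => Ideal.Quotient.mkₐ K J (mon K F k (R k)), ?_⟩⟩
    rw [eq_top_iff]
    rintro x -
    obtain ⟨f, rfl⟩ := Ideal.Quotient.mkₐ_surjective K J x
    obtain ⟨p, hp⟩ := hs f
    have e : Ideal.Quotient.mkₐ K J f = Ideal.Quotient.mkₐ K J (Psi K col F R p) :=
      Ideal.Quotient.eq.2 (Ideal.mem_sup_left hp)
    rw [e, Psi, map_sum]
    refine Submodule.sum_mem _ fun k _ => ?_
    have e2 : Ideal.Quotient.mkₐ K J (mon K F k (R k) * aeval (th K col) (p k)) =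
        Ideal.Quotient.mkₐ K J (constantCoeff (p k) • mon K F k (R k)) := by
      refine Ideal.Quotient.eq.2 (Ideal.mem_sup_right ?_)
      have a1 : p k - C (constantCoeff (p k)) ∈ Ideal.span (X '' (Set.univ : Set (Fin d))) := by
        rw [mem_ideal_span_X_image]
        intro n hn
        by_contra hc
        push Not at hc
        have : n = 0 := Finsupp.ext fun i => hc i trivial
        rw [this] at hn
        simp [constantCoeff_eq] at hn
      have a2 := hmap _ _ a1
      rw [Set.image_univ, map_sub, aeval_C] at a2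
      rw [Algebra.smul_def, mul_comm (algebraMap _ _ _), ← mul_sub]
      exact Ideal.mul_mem_left _ _ a2
    rw [e2, map_smul]
    exact Submodule.smul_mem _ _ (Submodule.subset_span (by simp))
  · intro htop
    have : srIdeal K Δ ⊔ Ideal.span (Set.range (th K col)) ≤
        RingHom.ker (constantCoeff : MvPolynomial V K →+* K) := by
      refine sup_le (Ideal.span_le.2 ?_) (Ideal.span_le.2 ?_)
      · rintro _ ⟨s, hs, rfl⟩
        show constantCoeff _ = 0
        rcases s.eq_empty_or_nonempty with rfl | ⟨v, hv⟩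
        · exact absurd (hF k0 ∅ (by simp)) hs
        · rw [map_prod]
          exact prod_eq_zero hv (by simp)
      · rintro _ ⟨i, rfl⟩
        show constantCoeff _ = 0
        simp [th]
    rw [htop] at this
    have h1 := this (Submodule.mem_top (x := 1))
    simp at h1
  · intro i f hf
    obtain ⟨p, hp⟩ := hs f
    obtain ⟨p', hp', hp2⟩ := hback _ _ hf
    have a1 : Psi K col F R ((X i : MvPolynomial (Fin d) K) • p - p') ∈ srIdeal K Δ := by
      rw [Psi_sub, Psi_smul, aeval_X]
      have := sub_mem hp2 (Ideal.mul_mem_left _ (th K col i) hp)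
      convert this using 1
      ring
    have a2 := sub_eq_zero.1 (hi _ a1)
    have a3 : ∀ k, p k ∈ Ideal.span (X '' {j | j < i}) := by
      intro k
      have b1 := hp' k
      rw [← a2, mem_ideal_span_X_image] at b1
      rw [mem_ideal_span_X_image]
      intro n hn
      obtain ⟨j, hj, hj2⟩ := b1 (Finsupp.single i 1 + n) (by
        rw [mem_support_iff] at hn ⊢
        simpa [coeff_X_mul] using hn)
      refine ⟨j, hj, ?_⟩
      have : i ≠ j := ne_of_gt hj
      simpa [Finsupp.single_apply, this] using hj2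
    have a4 : Psi K col F R p ∈ Ideal.span (th K col '' {j | j < i}) :=
      Ideal.sum_mem _ fun k _ => Ideal.mul_mem_left _ _ (hmap _ _ (a3 k))
    have := add_mem (Ideal.mem_sup_left (T := Ideal.span (th K col '' {j | j < i})) hp)
      (Ideal.mem_sup_right a4)
    rwa [sub_add_cancel] at this

end

end Pool.Agent.H76.ShellCM
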