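import Mathlib
import Pool.Agent.H76.ShellCM

/-! Criteria for the failure of maximal rank of `×ℓ : A₁ → A₂` for every l.s.o.p. -/

set_option autoImplicit false
open MvPolynomial Finset

namespace Pool.Agent.H76.NoWLP
open Pool.Agent.H76.LefDefs Pool.Agent.H76.ShellCM

variable {K : Type} [Field K] {V : Type} [Fintype V] [DecidableEq V] (Δ : Set (Finset V))

def preI {R M : Type} [CommRing R] [Algebra K R] [AddCommGroup M] [Module K M] (l : R →ₗ[K] M)
    (W : Submodule K M) : Ideal R where
  carrier := {f | ∀ h, l (f * h) ∈ W}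
  add_mem' := fun {a b} ha hb h => by rw [add_mul, map_add]; exact add_mem (ha h) (hb h)
  zero_mem' := fun h => by simp
  smul_mem' := fun c a ha h => by
    rw [smul_eq_mul, mul_comm c, mul_assoc]; exact ha _

noncomputable def Coef {T : Type} (m : T → (V →₀ ℕ)) : MvPolynomial V K →ₗ[K] (T → K) :=
  LinearMap.pi fun t => lcoeff K (m t)

omit [Fintype V] [DecidableEq V] in
theorem coef_mem {T : Type} (m : T → (V →₀ ℕ)) (hdown : ∀ s ∈ Δ, ∀ t, t ⊆ s → t ∈ Δ)
    (hm : ∀ t, (m t).support ∈ Δ) (W : Submodule K (T → K)) {d : ℕ}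
    (θ : Fin d → MvPolynomial V K) (hθ : ∀ i h, Coef m (θ i * h) ∈ W) (f : MvPolynomial V K)
    (hf : f ∈ srIdeal K Δ ⊔ Ideal.span (Set.range θ)) : Coef m f ∈ W := by
  have : srIdeal K Δ ⊔ Ideal.span (Set.range θ) ≤ preI (Coef m) W := by
    refine sup_le (Ideal.span_le.2 ?_) (Ideal.span_le.2 ?_)
    · rintro _ ⟨s, hs, rfl⟩ h
      have : Coef m ((∏ v ∈ s, X v) * h) = 0 := by
        funext t
        show coeff (m t) _ = 0
        have e : (∏ v ∈ s, X v : MvPolynomial V K) =
            monomial (∑ v ∈ s, Finsupp.single v 1) 1 := by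
          rw [monomial_sum_one]; rfl
        rw [e, coeff_monomial_mul', if_neg]
        intro hle
        refine hs (hdown _ (hm t) s fun v hv => Finsupp.mem_support_iff.2 fun e0 => ?_)
        have := hle v
        rw [e0, Finsupp.finsetSum_apply, nonpos_iff_eq_zero, sum_eq_zero_iff] at this
        simpa using this v hv
      rw [this]
      exact zero_mem _
    · rintro _ ⟨i, rfl⟩ h
      exact hθ i h
  simpa using this hf 1

theorem not_surj (hdown : ∀ s ∈ Δ, ∀ t, t ⊆ s → t ∈ Δ) {n : ℕ} (u : Fin n → V) {T : Type}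
    [Fintype T] (a b : T → Fin n) (hab : ∀ t, ({u (a t), u (b t)} : Finset V) ∈ Δ)
    (hinj : ∀ t t', Finsupp.single (u (a t)) 1 + Finsupp.single (u (b t)) 1 =
      Finsupp.single (u (a t')) 1 + Finsupp.single (u (b t')) 1 → t = t')
    (hT : 4 * n < Fintype.card T) (θ : Fin 3 → MvPolynomial V K)
    (hθ : ∀ i, (θ i).IsHomogeneous 1) (l : MvPolynomial V K) (hl : l.IsHomogeneous 1) :
    ¬ ∀ h : MvPolynomial V K, h.IsHomogeneous 2 → ∃ f : MvPolynomial V K, f.IsHomogeneous 1 ∧
      h - l * f ∈ srIdeal K Δ ⊔ Ideal.span (Set.range θ) := by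
  classical
  intro H
  let m : T → (V →₀ ℕ) := fun t => Finsupp.single (u (a t)) 1 + Finsupp.single (u (b t)) 1
  let g : Fin 4 → MvPolynomial V K := Fin.cons l θ
  have hg : ∀ i, (g i).IsHomogeneous 1 := fun i => Fin.cases hl hθ i
  let W : Submodule K (T → K) :=
    Submodule.span K (Set.range fun p : Fin 4 × Fin n => Coef m (g p.1 * X (u p.2)))
  have hW : ∀ i h, Coef m (g i * h) ∈ W := by
    intro i h
    induction h using MvPolynomial.induction_on' with
    | add p q hp hq => rw [mul_add, map_add]; exact add_mem hp hq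
    | monomial e c =>
      by_cases he : ∃ j, e = Finsupp.single (u j) 1
      · obtain ⟨j, rfl⟩ := he
        have : (monomial (Finsupp.single (u j) 1) c : MvPolynomial V K) = c • X (u j) := by
          rw [X, smul_monomial, smul_eq_mul, mul_one]
        rw [this, mul_smul_comm, map_smul]
        exact Submodule.smul_mem _ _ (Submodule.subset_span ⟨(i, j), rfl⟩)
      · have : Coef m (g i * monomial e c) = 0 := by
          funext t
          show coeff (m t) _ = 0
          rw [coeff_mul_monomial']
          split_ifs with hle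
          · rw [(hg i).coeff_eq_zero, zero_mul]
            intro hd
            have hd' : m t - e ∈ {d : V →₀ ℕ | d.degree = 1} := hd
            rw [← Finsupp.range_single_one] at hd'
            obtain ⟨v, hv⟩ := hd'
            replace hv : m t - e = Finsupp.single v 1 := hv.symm
            have e1 : m t = Finsupp.single v 1 + e := by rw [← hv, tsub_add_cancel_of_le hle]
            apply he
            by_cases h1 : v = u (a t)
            · refine ⟨b t, ?_⟩
              rw [h1] at e1
              exact (add_left_cancel e1).symm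
            · refine ⟨a t, ?_⟩
              have h2 : v = u (b t) := by
                by_contra h2
                have := DFunLike.congr_fun e1 v
                simp [m, Ne.symm h1, Ne.symm h2] at this
                omega
              rw [h2, add_comm _ e] at e1
              exact (add_right_cancel e1).symm
          · rfl
        rw [this]
        exact zero_mem _
  have htop : W = ⊤ := by
    rw [eq_top_iff, ← (Pi.basisFun K T).span_eq, Submodule.span_le]
    rintro _ ⟨t, rfl⟩
    obtain ⟨f, -, hf⟩ := H (X (u (a t)) * X (u (b t)))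
      ((isHomogeneous_X K _).mul (isHomogeneous_X K _))
    have a1 := coef_mem Δ m hdown (fun t => hdown _ (hab t) _ (by
      refine Finsupp.support_add.trans ?_
      simp)) W θ (fun i h => hW i.succ h) _ hf
    have a2 := add_mem a1 (hW 0 f)
    rw [← map_add] at a2
    have e : Coef m (X (u (a t)) * X (u (b t)) - l * f + g 0 * f) = Pi.basisFun K T t := by
      rw [show g 0 = l from rfl, sub_add_cancel]
      funext t'
      show coeff (m t') _ = _
      rw [X, X, monomial_mul, coeff_monomial, Pi.basisFun_apply, Pi.single_apply, mul_one]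
      congr 1
      exact propext ⟨fun e => (hinj _ _ e).symm, fun e => by rw [e]⟩
    rwa [e] at a2
  have h1 := finrank_range_le_card (R := K)
    (fun p : Fin 4 × Fin n => Coef m (g p.1 * X (u p.2)))
  have h2 : Module.finrank K W = Fintype.card T := by rw [htop]; simp
  simp only [Fintype.card_prod, Fintype.card_fin] at h1
  have h3 : Module.finrank K W ≤ 4 * n := h1
  omega

theorem lsop_solve (c : Fin 3 → V → K)
    (hfin : Module.Finite K (MvPolynomial V K ⧸
      (srIdeal K Δ ⊔ Ideal.span (Set.range fun i => ∑ v, c i v • X v))))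
    (G : Fin 3 → V) (hG : Function.Injective G) (hF : ∀ s, (∀ v ∈ s, ∃ i, G i = v) → s ∈ Δ)
    (y : Fin 3 → K) : ∃ μ : Fin 3 → K, ∀ j, ∑ i, μ i * c i (G j) = y j := by
  let A : Matrix (Fin 3) (Fin 3) K := fun i j => c i (G j)
  by_cases hd : A.det = 0
  · exfalso
    obtain ⟨z, hz, hA⟩ := Matrix.exists_mulVec_eq_zero_iff.2 hd
    let φ : MvPolynomial V K →ₐ[K] Polynomial K :=
      aeval fun v => (∑ j, if G j = v then z j else 0) • Polynomial.X
    have hk : ∀ f ∈ srIdeal K Δ ⊔ Ideal.span (Set.range fun i => ∑ v, c i v • X v), φ f = 0 := by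
      intro f hf
      have : srIdeal K Δ ⊔ Ideal.span (Set.range fun i => ∑ v, c i v • X v) ≤ RingHom.ker φ := by
        refine sup_le (Ideal.span_le.2 ?_) (Ideal.span_le.2 ?_)
        · rintro _ ⟨s, hs, rfl⟩
          show φ _ = 0
          rw [map_prod]
          by_contra hc
          refine hs (hF s fun v hv => ?_)
          by_contra hne
          push Not at hne
          exact hc (prod_eq_zero hv (by simp [φ, hne]))
        · rintro _ ⟨i, rfl⟩
          show φ _ = 0
          simp only [map_sum, map_smul, φ, aeval_X, smul_smul, ← sum_smul]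
          have := congrFun hA i
          simp only [Matrix.mulVec, dotProduct, A, Pi.zero_apply] at this
          simp only [mul_sum, mul_ite, mul_zero]
          rw [sum_comm]
          simp [this]
      exact this hf
    obtain ⟨j, hj⟩ := Function.ne_iff.1 hz
    have hs : Function.Surjective (Ideal.Quotient.liftₐ _ φ hk) := by
      rw [← AlgHom.range_eq_top, eq_top_iff, ← Polynomial.adjoin_X, Algebra.adjoin_le_iff]
      rintro _ rfl
      refine ⟨Ideal.Quotient.mk _ ((z j)⁻¹ • X (G j)), ?_⟩
      show φ _ = _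
      simp only [map_smul, φ, aeval_X, hG.eq_iff, sum_ite_eq', mem_univ, if_true, smul_smul]
      rw [inv_mul_cancel₀ hj, one_smul]
    exact Polynomial.not_finite
      (Module.Finite.of_surjective (Ideal.Quotient.liftₐ _ φ hk).toLinearMap hs)
  · have hu : IsUnit A := (Matrix.isUnit_iff_isUnit_det A).2 (Ne.isUnit hd)
    obtain ⟨μ, hμ⟩ := Matrix.vecMul_surjective_iff_isUnit.2 hu y
    exact ⟨μ, fun j => congrFun hμ j⟩

theorem not_inj (hdown : ∀ s ∈ Δ, ∀ t, t ⊆ s → t ∈ Δ) (hsing : ∀ v, ({v} : Finset V) ∈ Δ)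
    (z w : Fin 8 → V) (hz : Function.Injective z) (G : Fin 8 → Fin 3 → V)
    (hG : ∀ r, Function.Injective (G r)) (hF : ∀ r s, (∀ v ∈ s, ∃ i, G r i = v) → s ∈ Δ)
    (hstar : ∀ r v, (∃ i, G r i = v) ∨ v = w r ∨ (({z r, v} : Finset V) ∉ Δ ∧ z r ≠ v))
    (E : Fin 4 → MvPolynomial V K) (hE : ∀ r, ∃ e, X (z r) * X (w r) = E e)
    (θ : Fin 3 → MvPolynomial V K) (hθ : IsLSOP (srIdeal K Δ) θ)
    (l : MvPolynomial V K) (hl : l.IsHomogeneous 1) :
    ¬ ∀ f : MvPolynomial V K, f.IsHomogeneous 1 →
      l * f ∈ srIdeal K Δ ⊔ Ideal.span (Set.range θ) →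
      f ∈ srIdeal K Δ ⊔ Ideal.span (Set.range θ) := by
  intro H
  choose c hc using fun i => lin_eq (θ i) (hθ.1 i)
  obtain ⟨y, rfl⟩ := lin_eq l hl
  obtain rfl : θ = fun i => ∑ v, c i v • X v := funext hc
  have hfin := hθ.2
  set J := srIdeal K Δ ⊔ Ideal.span (Set.range fun i => ∑ v, c i v • (X v : MvPolynomial V K))
    with hJ
  let q := Ideal.Quotient.mkₐ K J
  let W : Submodule K (MvPolynomial V K ⧸ J) := Submodule.span K (Set.range fun e => q (E e))
  have h1 : ∀ r, q ((∑ v, y v • X v) * X (z r)) ∈ W := by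
    intro r
    obtain ⟨μ, hμ⟩ := lsop_solve Δ c hfin (G r) (hG r) (hF r) (fun j => y (G r j))
    have e : q ((∑ v, y v • X v) * X (z r)) =
        q ((∑ v, (y v - ∑ i, μ i * c i v) • X v) * X (z r)) := by
      refine Ideal.Quotient.eq.2 ?_
      rw [← sub_mul]
      refine Ideal.mul_mem_right _ _ (Ideal.mem_sup_right ?_)
      have : (∑ v, y v • X v : MvPolynomial V K) - ∑ v, (y v - ∑ i, μ i * c i v) • X v =
          ∑ i, μ i • ∑ v, c i v • X v := by
        simp only [sub_smul, sum_sub_distrib, sub_sub_cancel, sum_smul, smul_sum, smul_smul]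
        exact sum_comm
      rw [this]
      exact Ideal.sum_mem _ fun i _ => by
        rw [Algebra.smul_def]
        exact Ideal.mul_mem_left _ _ (Ideal.subset_span ⟨i, rfl⟩)
    rw [e, sum_mul, map_sum]
    refine Submodule.sum_mem _ fun v _ => ?_
    rw [smul_mul_assoc, map_smul]
    rcases hstar r v with ⟨j, rfl⟩ | rfl | ⟨h, hne⟩
    · rw [hμ, sub_self, zero_smul]; exact zero_mem _
    · obtain ⟨e, he⟩ := hE r
      rw [mul_comm, he]
      exact Submodule.smul_mem _ _ (Submodule.subset_span ⟨e, rfl⟩)
    · have : q (X v * X (z r)) = 0 := Ideal.Quotient.eq_zero_iff_mem.2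
        (Ideal.mem_sup_left (Ideal.subset_span ⟨_, h, by rw [prod_pair hne, mul_comm]⟩))
      rw [this, smul_zero]; exact zero_mem _
  let L : (Fin 8 → K) →ₗ[K] MvPolynomial V K := Fintype.linearCombination K fun r => X (z r)
  let Φ : (Fin 8 → K) →ₗ[K] (MvPolynomial V K ⧸ J) :=
    q.toLinearMap ∘ₗ LinearMap.mulLeft K (∑ v, y v • X v) ∘ₗ L
  have h2 : LinearMap.range Φ ≤ W := by
    rintro _ ⟨a, rfl⟩
    show q ((∑ v, y v • X v) * ∑ r, a r • X (z r)) ∈ W
    rw [mul_sum, map_sum]
    refine Submodule.sum_mem _ fun r _ => ?_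
    rw [mul_smul_comm, map_smul]
    exact Submodule.smul_mem _ _ (h1 r)
  have h3 : Module.finrank K W ≤ 4 := by
    exact (finrank_range_le_card (R := K) fun e => q (E e)).trans (by simp)
  have h4 := (Submodule.finrank_mono h2).trans h3
  have h5 := LinearMap.finrank_range_add_finrank_ker Φ
  rw [Module.finrank_fin_fun] at h5
  let m : Fin 8 → (V →₀ ℕ) := fun r => Finsupp.single (z r) 1
  let W' : Submodule K (Fin 8 → K) :=
    Submodule.span K (Set.range fun i : Fin 3 => Coef m (∑ v, c i v • (X v : MvPolynomial V K)))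
  have h6 : LinearMap.ker Φ ≤ W' := by
    intro a ha
    have a1 : L a ∈ J := H (L a) ((homogeneousSubmodule V K 1).sum_mem fun _ _ =>
      Submodule.smul_mem _ _ (isHomogeneous_X K _)) (Ideal.Quotient.eq_zero_iff_mem.1 ha)
    have a2 := coef_mem Δ m hdown (fun r => by
      simp only [m, Finsupp.support_single _ one_ne_zero]; exact hsing _) W' _ (by
      intro i h
      have : Coef m ((∑ v, c i v • X v) * h) =
          coeff 0 h • Coef m (∑ v, c i v • (X v : MvPolynomial V K)) := by
        funext r
        show coeff (m r) _ = coeff 0 h * coeff (m r) _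
        simp only [sum_mul, smul_mul_assoc, coeff_sum, coeff_smul, smul_eq_mul, mul_sum, m]
        refine sum_congr rfl fun v _ => ?_
        rw [coeff_X_mul', coeff_X]
        by_cases hv : v = z r
        · simp [hv, mul_comm]
        · simp [hv, Finsupp.single_left_inj]
      rw [this]
      exact Submodule.smul_mem _ _ (Submodule.subset_span ⟨i, rfl⟩)) _ a1
    have e : Coef m (L a) = a := by
      funext r
      show coeff (m r) (∑ r', a r' • X (z r')) = a r
      simp [coeff_sum, coeff_X, m, Finsupp.single_left_inj, hz.eq_iff]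
    rwa [e] at a2
  have h7 : Module.finrank K W' ≤ 3 := by
    exact (finrank_range_le_card (R := K)
      fun i : Fin 3 => Coef m (∑ v, c i v • (X v : MvPolynomial V K))).trans (by simp)
  have h8 := (Submodule.finrank_mono h6).trans h7
  omega

end Pool.Agent.H76.NoWLP
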