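import Mathlib

set_option autoImplicit false

namespace Pool.Agent.H76.RepBasic

open Module

variable {G : Type} [Group G]

/-- irreducibility in elementary form -/
def Irr {V : Type} [AddCommGroup V] [Module ℂ V] (ρ : Representation ℂ G V) : Prop :=
  ∀ W : Submodule ℂ V, (∀ g v, v ∈ W → ρ g v ∈ W) → W = ⊥ ∨ W = ⊤

theorem finrank_le_index [Finite G] {V : Type} [AddCommGroup V] [Module ℂ V]
    (ρ : Representation ℂ G V) (hρ : Irr ρ) (S : Subgroup G) (v : V) (hv : v ≠ 0)
    (hS : ∀ s ∈ S, ∃ c : ℂ, ρ s v = c • v) : finrank ℂ V ≤ S.index := by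
  classical
  have : Fintype (G ⧸ S) := Fintype.ofFinite _
  let w : G ⧸ S → V := fun x => ρ x.out v
  have key : ∀ g : G, ρ g v ∈ Submodule.span ℂ (Set.range w) := by
    intro g
    obtain ⟨s, hs⟩ := QuotientGroup.mk_out_eq_mul S g
    obtain ⟨c, hc⟩ := hS _ (S.inv_mem s.2)
    have : ρ g v = c • w (QuotientGroup.mk g) := by
      simp only [w, hs]
      rw [← map_smul, ← hc, ← Module.End.mul_apply, ← map_mul]
      simp
    rw [this]
    exact Submodule.smul_mem _ _ (Submodule.subset_span ⟨_, rfl⟩)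
  have htop : Submodule.span ℂ (Set.range w) = ⊤ := by
    refine (hρ _ ?_).resolve_left ?_
    · intro g u hu
      induction hu using Submodule.span_induction with
      | mem u hu =>
        obtain ⟨x, rfl⟩ := hu
        simp only [w]
        rw [← Module.End.mul_apply, ← map_mul]
        exact key _
      | zero => simp
      | add a b _ _ ha hb => rw [map_add]; exact Submodule.add_mem _ ha hb
      | smul c a _ ha => rw [map_smul]; exact Submodule.smul_mem _ _ ha
    · intro h
      have := key 1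
      rw [h] at this
      simp at this
      exact hv this
  rw [← finrank_top, ← htop, Subgroup.index, Nat.card_eq_fintype_card]
  exact finrank_range_le_card w

theorem exists_irr [Finite G] (H : Subgroup G) (χ : H →* ℂˣ) :
    ∃ (V : Type) (_ : AddCommGroup V) (_ : Module ℂ V) (ρ : Representation ℂ G V) (v : V),
      FiniteDimensional ℂ V ∧ Irr ρ ∧ v ≠ 0 ∧ ∀ h : H, ρ h v = (χ h : ℂ) • v := by
  classical
  let P : ℕ → Prop := fun n => ∃ (V : Type) (_ : AddCommGroup V) (_ : Module ℂ V)
    (ρ : Representation ℂ G V) (v : V),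
      FiniteDimensional ℂ V ∧ finrank ℂ V = n ∧ v ≠ 0 ∧ ∀ h : H, ρ h v = (χ h : ℂ) • v
  have hex : ∃ n, P n := by
    let ρ : Representation ℂ G (G → ℂ) :=
      { toFun := fun g => LinearMap.funLeft ℂ ℂ (fun x => x * g)
        map_one' := by ext; simp
        map_mul' := by intro a b; refine LinearMap.ext fun f => ?_; funext x; simp [mul_assoc] }
    refine ⟨_, G → ℂ, inferInstance, inferInstance, ρ,
      fun x => if h : x ∈ H then (χ ⟨x, h⟩ : ℂ) else 0, inferInstance, rfl, ?_, ?_⟩
    · intro h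
      have := congrFun h 1
      simp only [H.one_mem, dif_pos, Pi.zero_apply] at this
      exact Units.ne_zero _ this
    · intro h
      funext x
      simp only [ρ, MonoidHom.coe_mk, OneHom.coe_mk, LinearMap.funLeft_apply, Pi.smul_apply,
        smul_eq_mul]
      by_cases hx : x ∈ H
      · rw [dif_pos hx, dif_pos (H.mul_mem hx h.2), ← Units.val_mul, mul_comm (χ h), ← map_mul]
        rfl
      · rw [dif_neg hx, dif_neg, mul_zero]
        intro h'
        exact hx ((H.mul_mem_cancel_right h.2).1 h')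
  obtain ⟨V, _, _, ρ, v, hfin, hn, hv, hχ⟩ := Nat.find_spec hex
  refine ⟨V, inferInstance, inferInstance, ρ, v, hfin, ?_, hv, hχ⟩
  intro W hW
  by_contra hcon
  push Not at hcon
  have hW' : ∀ g, W ≤ W.comap (ρ g) := fun g u hu => hW g u hu
  by_cases hvW : v ∈ W
  · have h1 : finrank ℂ W < Nat.find hex := hn ▸ Submodule.finrank_lt hcon.2
    refine Nat.find_min hex h1 ⟨W, inferInstance, inferInstance, ρ.subrepresentation W hW',
      ⟨v, hvW⟩, inferInstance, rfl, fun h => hv (congrArg Subtype.val h), fun h => ?_⟩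
    exact Subtype.ext (hχ h)
  · have h1 : finrank ℂ (V ⧸ W) < Nat.find hex := by
      rw [← hn, ← Submodule.finrank_quotient_add_finrank W]
      have : 0 < finrank ℂ W := by
        rw [Nat.pos_iff_ne_zero, Ne, Submodule.finrank_eq_zero]; exact hcon.1
      omega
    refine Nat.find_min hex h1 ⟨V ⧸ W, inferInstance, inferInstance, ρ.quotient W hW',
      W.mkQ v, inferInstance, rfl, fun h => hvW (by simpa using h), fun h => ?_⟩
    change W.mkQ (ρ h v) = _
    rw [hχ, map_smul]

theorem linearIndependent_of_chars {K J V : Type} [MulOneClass K] [AddCommGroup V] [Module ℂ V]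
    (T : K → V →ₗ[ℂ] V) (w : J → V) (hw : ∀ j, w j ≠ 0) (lam : J → K →* ℂ)
    (hinj : Function.Injective lam) (h : ∀ j k, T k (w j) = lam j k • w j) :
    LinearIndependent ℂ w := by
  classical
  have hli := (linearIndependent_monoidHom K ℂ).comp lam hinj
  rw [linearIndependent_iff'] at hli ⊢
  intro s c hc j hj
  obtain ⟨f, hf⟩ : ∃ f : Module.Dual ℂ V, f (w j) ≠ 0 := by
    by_contra hcon
    push Not at hcon
    exact hw j ((Module.forall_dual_apply_eq_zero_iff ℂ (w j)).1 hcon)
  have := hli s (fun i => c i * f (w i)) (by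
    funext k
    have := congrArg (fun u => f (T k u)) hc
    simp only [map_sum, map_smul, h, smul_eq_mul, map_zero] at this
    simp only [Function.comp, Finset.sum_apply, Pi.smul_apply, smul_eq_mul, Pi.zero_apply]
    rw [← this]
    exact Finset.sum_congr rfl fun i _ => by ring) j hj
  exact (mul_eq_zero.1 this).resolve_right hf

theorem exists_common_eigenvector {I V : Type} [AddCommGroup V] [Module ℂ V]
    [FiniteDimensional ℂ V] [Nontrivial V] (T : I → V →ₗ[ℂ] V)
    (hT : ∀ i j v, T i (T j v) = T j (T i v)) :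
    ∃ v : V, v ≠ 0 ∧ ∀ i, ∃ c : ℂ, T i v = c • v := by
  classical
  let P : ℕ → Prop := fun n => ∃ W : Submodule ℂ V, W ≠ ⊥ ∧ (∀ i, ∀ v ∈ W, T i v ∈ W) ∧
    finrank ℂ W = n
  have hex : ∃ n, P n := ⟨_, ⊤, top_ne_bot, fun _ _ _ => trivial, rfl⟩
  obtain ⟨W, hW, hinv, hn⟩ := Nat.find_spec hex
  obtain ⟨v, hv, hv0⟩ := Submodule.exists_mem_ne_zero_of_ne_bot hW
  refine ⟨v, hv0, fun i => ?_⟩
  have : Nontrivial W := Submodule.nontrivial_iff_ne_bot.2 hW
  obtain ⟨c, hc⟩ := Module.End.exists_eigenvalue ((T i).restrict (hinv i))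
  obtain ⟨u, hu⟩ := hc.exists_hasEigenvector
  let W' : Submodule ℂ V := W ⊓ Module.End.eigenspace (T i) c
  have hW' : W' = W := by
    by_contra hne
    have h1 : finrank ℂ W' < Nat.find hex :=
      hn ▸ Submodule.finrank_lt_finrank_of_lt (lt_of_le_of_ne inf_le_left hne)
    refine Nat.find_min hex h1 ⟨W', ?_, ?_, rfl⟩
    · intro h
      have : (u : V) ∈ W' := ⟨u.2, by
        have := congrArg Subtype.val hu.apply_eq_smul
        simpa [Module.End.mem_eigenspace_iff] using this⟩
      rw [h] at this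
      exact hu.2 (Subtype.ext (by simpa using this))
    · rintro j x ⟨hx, hx'⟩
      refine ⟨hinv j x hx, ?_⟩
      simp only [SetLike.mem_coe, Module.End.mem_eigenspace_iff] at hx' ⊢
      rw [hT, hx', map_smul]
  have : v ∈ W' := hW' ▸ hv
  exact ⟨c, Module.End.mem_eigenspace_iff.1 this.2⟩

end Pool.Agent.H76.RepBasic
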