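import Mathlib
import Pool.Agent.H76.RepBasic
import Pool.Agent.H76.OnnF2

set_option autoImplicit false

namespace Pool.Agent.H76.Onn

open Module Matrix Pool.Agent.H76.RepBasic

/-- a square-zero extension of a field with one-dimensional kernel -/
structure Ext2 (A k : Type) [CommRing A] [Field k] where
  red : A →+* k
  io : k →+ A
  surj : Function.Surjective red
  inj : Function.Injective io
  mul_io : ∀ a c, a * io c = io (red a * c)
  red_io : ∀ c, red (io c) = 0
  ker : ∀ a, red a = 0 → ∃ c, a = io c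

variable {A k : Type} [CommRing A] [Field k] (E : Ext2 A k)

namespace Ext2

lemma io_mul_io (c d : k) : E.io c * E.io d = 0 := by rw [E.mul_io, E.red_io]; simp

include E in
lemma finite [Finite k] : Finite A := by
  refine Finite.of_surjective (fun p : k × k => Function.surjInv E.surj p.1 + E.io p.2) fun a => ?_
  obtain ⟨c, hc⟩ := E.ker (a - Function.surjInv E.surj (E.red a)) (by
    rw [map_sub, Function.surjInv_eq E.surj, sub_self])
  exact ⟨(E.red a, c), by simp [← hc]⟩

lemma isUnit {a : A} (ha : E.red a ≠ 0) : IsUnit a := by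
  obtain ⟨b, hb⟩ := E.surj (E.red a)⁻¹
  obtain ⟨c, hc⟩ := E.ker (a * b - 1) (by rw [map_sub, map_mul, hb, mul_inv_cancel₀ ha]; simp)
  refine IsUnit.of_mul_eq_one (b * (1 - E.io c)) ?_
  have := E.io_mul_io c c
  linear_combination (1 - E.io c) * hc - this

variable {n : Type} [Fintype n] [DecidableEq n]

lemma mul_map (M : Matrix n n A) (x : Matrix n n k) :
    M * x.map E.io = (M.map E.red * x).map E.io := by
  ext i j; simp [Matrix.mul_apply, E.mul_io]

lemma map_mul' (M : Matrix n n A) (x : Matrix n n k) :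
    x.map E.io * M = (x * M.map E.red).map E.io := by
  ext i j
  simp only [Matrix.mul_apply, Matrix.map_apply, map_sum]
  exact Finset.sum_congr rfl fun l _ => by rw [mul_comm, E.mul_io, mul_comm]

lemma map_map (x y : Matrix n n k) : x.map E.io * y.map E.io = 0 := by
  ext i j; simp [Matrix.mul_apply, E.io_mul_io]

/-- the congruence subgroup parametrised by matrices over the residue field -/
def kap (x : Matrix n n k) : GL n A :=
  ⟨1 + x.map E.io, 1 - x.map E.io, by simp [mul_sub, add_mul, E.map_map],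
    by simp [sub_mul, mul_add, E.map_map]⟩

lemma kap_val (x : Matrix n n k) : (E.kap x : Matrix n n A) = 1 + x.map E.io := rfl

lemma kap_add (x y : Matrix n n k) : E.kap (x + y) = E.kap x * E.kap y := by
  apply Units.ext
  simp only [kap_val, Units.val_mul, mul_add, add_mul, E.map_map, one_mul, mul_one,
    Matrix.map_add _ (map_add E.io)]
  abel

lemma kap_zero : E.kap (0 : Matrix n n k) = 1 := by
  apply Units.ext; simp [kap_val]

/-- reduction -/
def rd : GL n A →* GL n k := Matrix.GeneralLinearGroup.map E.red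

lemma rd_val (g : GL n A) : (E.rd g : Matrix n n k) = (g : Matrix n n A).map E.red := rfl

lemma kap_conj (g : GL n A) (x : Matrix n n k) :
    g⁻¹ * E.kap x * g = E.kap (((E.rd g)⁻¹ : GL n k).val * x * (E.rd g : GL n k).val) := by
  apply Units.ext
  rw [← map_inv]
  simp only [Units.val_mul, kap_val, mul_add, add_mul, mul_one, Units.inv_mul, E.mul_map,
    E.map_mul', rd_val]

lemma rd_kap (x : Matrix n n k) : E.rd (E.kap x) = 1 := by
  apply Units.ext
  ext i j
  simp [rd_val, kap_val, E.red_io, Matrix.one_apply, apply_ite E.red]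

lemma exists_kap {g : GL n A} (hg : E.rd g = 1) : ∃ x, g = E.kap x := by
  have h : ∀ i j, ∃ c, ((g : Matrix n n A) - 1) i j = E.io c := by
    intro i j
    apply E.ker
    have := congrArg (fun m : GL n k => m i j) hg
    simp only [rd_val, Matrix.map_apply, Units.val_one] at this
    simp [this, Matrix.one_apply, apply_ite E.red]
  choose x hx using h
  refine ⟨Matrix.of x, Units.ext ?_⟩
  ext i j
  have := hx i j
  simp only [Matrix.sub_apply] at this
  simp [kap_val, ← this]

lemma rd_surj : Function.Surjective (E.rd : GL n A → GL n k) := by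
  intro g
  let M : Matrix n n A := (g : Matrix n n k).map (Function.surjInv E.surj)
  have hM : M.map E.red = g := by
    ext i j; simp [M, Function.surjInv_eq E.surj]
  have hd : IsUnit M.det := by
    apply E.isUnit
    rw [RingHom.map_det, RingHom.mapMatrix_apply, hM]
    exact g.det_ne_zero
  exact ⟨Matrix.nonsingInvUnit M hd, Units.ext hM⟩

end Ext2

/-- the diagonal torus -/
def dg (k : Type) [Field k] : (Fin 3 → kˣ) →* GL (Fin 3) k where
  toFun d := ⟨diagonal fun i => (d i : k), diagonal fun i => ((d i)⁻¹ : kˣ),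
    by simp [diagonal_mul_diagonal], by simp [diagonal_mul_diagonal]⟩
  map_one' := by apply Units.ext; simp
  map_mul' a b := by apply Units.ext; simp [diagonal_mul_diagonal]

lemma dg_inj : Function.Injective (dg k) := by
  intro a b h
  funext i
  have := congrArg (fun m : GL (Fin 3) k => m i i) h
  exact Units.ext (by simpa [dg] using this)

lemma mem_dg {g : GL (Fin 3) k} : g ∈ (dg k).range ↔ ∀ i j, i ≠ j → g i j = 0 := by
  constructor
  · rintro ⟨d, rfl⟩ i j hij
    simp [dg, diagonal_apply_ne _ hij]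
  · intro h
    have hg : (g : Matrix (Fin 3) (Fin 3) k) = diagonal fun i => g i i := by
      ext i j
      by_cases hij : i = j
      · subst hij; simp
      · rw [diagonal_apply_ne _ hij, h i j hij]
    have hd := g.det_ne_zero
    rw [hg, det_diagonal, Finset.prod_ne_zero_iff] at hd
    exact ⟨fun i => Units.mk0 _ (hd i (Finset.mem_univ _)), Units.ext (by simpa [dg] using hg.symm)⟩

theorem exists_rep [Fintype k] (h2 : (2 : k) ≠ 0) :
    ∃ (V : Type) (_ : AddCommGroup V) (_ : Module ℂ V) (ρ : Representation ℂ (GL (Fin 3) A) V),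
      FiniteDimensional ℂ V ∧ Nontrivial V ∧ Irr ρ ∧ (∃ x, ρ (E.kap x) ≠ 1) ∧
      finrank ℂ V * (Fintype.card k - 1) ^ 3 =
        ∏ i : Fin 3, (Fintype.card k ^ 3 - Fintype.card k ^ (i : ℕ)) := by
  classical
  have := E.finite
  let H : Subgroup (GL (Fin 3) A) := (dg k).range.comap E.rd
  have hH : ∀ g : GL (Fin 3) A, g ∈ H ↔ ∀ i j, i ≠ j → E.red (g i j) = 0 := fun g => mem_dg
  have hu : ∀ (h : H) (i : Fin 3), IsUnit (h.1 i i) := by
    intro h i
    apply E.isUnit
    obtain ⟨d, hd⟩ := h.2
    have := congrArg (fun m : GL (Fin 3) k => m i i) hd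
    simp only [dg, MonoidHom.coe_mk, OneHom.coe_mk, diagonal_apply_eq, Ext2.rd_val,
      map_apply] at this
    rw [← this]
    exact (d i).ne_zero
  let δ : Fin 3 → H →* Aˣ := fun i =>
    { toFun := fun h => (hu h i).unit
      map_one' := by apply Units.ext; simp
      map_mul' := by
        intro a b
        apply Units.ext
        simp only [Subgroup.coe_mul, Units.val_mul, IsUnit.unit_spec, Matrix.mul_apply]
        refine Finset.sum_eq_single i (fun j _ hj => ?_) (by simp)
        obtain ⟨c, hc⟩ := E.ker _ ((hH _).1 a.2 i j hj.symm)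
        obtain ⟨d, hd⟩ := E.ker _ ((hH _).1 b.2 j i hj)
        rw [hc, hd, E.io_mul_io] }
  let un : k → Aˣ := fun c => ⟨1 + E.io c, 1 - E.io c,
    by linear_combination - E.io_mul_io c c, by linear_combination - E.io_mul_io c c⟩
  have un_add : ∀ c d, un (c + d) = un c * un d := by
    intro c d
    apply Units.ext
    simp only [un, map_add, Units.val_mul]
    linear_combination - E.io_mul_io c d
  have un_one : un 1 ≠ 1 := by
    intro h
    have := congrArg Units.val h
    simp only [un, Units.val_one, add_eq_left] at this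
    exact one_ne_zero (E.inj (this.trans (map_zero _).symm))
  have : NeZero (Monoid.exponent Aˣ) := ⟨Monoid.exponent_ne_zero_of_finite⟩
  obtain ⟨φ, hφ⟩ := CommGroup.exists_apply_ne_one_of_hasEnoughRootsOfUnity Aˣ ℂ un_one
  let ψ : k → ℂˣ := fun c => φ (un c)
  have ψ_add : ∀ c d, ψ (c + d) = ψ c * ψ d := fun c d => by simp [ψ, un_add]
  have ψ_zero : ψ 0 = 1 := by
    have := ψ_add 0 0
    simpa using this
  let χ : H →* ℂˣ := φ.comp (δ 1) * (φ.comp (δ 2) * φ.comp (δ 2))
  have hk : ∀ x, E.kap x ∈ H := fun x => by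
    simp only [H, Subgroup.mem_comap, E.rd_kap]; exact Subgroup.one_mem _
  have hδ : ∀ x i, δ i ⟨E.kap x, hk x⟩ = un (x i i) := by
    intro x i; apply Units.ext; simp [δ, un, Ext2.kap_val]
  have hχ : ∀ x, χ ⟨E.kap x, hk x⟩ = ψ (x 1 1 + 2 * x 2 2) := by
    intro x
    simp only [χ, MonoidHom.mul_apply, MonoidHom.comp_apply, hδ, two_mul, ψ_add]
    rfl
  obtain ⟨V, _, _, ρ, v, hfin, hirr, hv, hev⟩ := exists_irr H χ
  have hev' : ∀ x, ρ (E.kap x) v = (ψ (x 1 1 + 2 * x 2 2) : ℂ) • v := fun x => by
    rw [← hχ]; exact hev ⟨E.kap x, hk x⟩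
  refine ⟨V, inferInstance, inferInstance, ρ, hfin, ⟨v, 0, hv⟩, hirr, ⟨single 1 1 1, ?_⟩, ?_⟩
  · intro h
    have := hev' (single 1 1 1)
    rw [h] at this
    simp only [Module.End.one_apply, single_apply_same] at this
    rw [single_apply_of_ne _ _ _ _ _ (by decide), mul_zero, add_zero] at this
    have h3 : ((ψ 1 : ℂ) - 1) • v = 0 := by rw [sub_smul, ← this, one_smul, sub_self]
    rcases smul_eq_zero.1 h3 with h4 | h4
    · exact hφ (Units.ext (sub_eq_zero.1 h4))
    · exact hv h4
  have hle : finrank ℂ V ≤ H.index :=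
    finrank_le_index ρ hirr H v hv fun s hs => ⟨_, hev ⟨s, hs⟩⟩
  let fn : GL (Fin 3) k → Matrix (Fin 3) (Fin 3) k → k := fun g x =>
    ((g⁻¹ : GL (Fin 3) k).val * x * g.val) 1 1 + 2 * ((g⁻¹ : GL (Fin 3) k).val * x * g.val) 2 2
  have fn_add : ∀ g x y, fn g (x + y) = fn g x + fn g y := by
    intro g x y; simp only [fn, mul_add, add_mul, Matrix.add_apply]; ring
  have fn_smul : ∀ g (c : k) x, fn g (c • x) = c * fn g x := by
    intro g c x
    simp only [fn, Matrix.mul_smul, Matrix.smul_mul, Matrix.smul_apply, smul_eq_mul]; ring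
  let lam : GL (Fin 3) A → Multiplicative (Matrix (Fin 3) (Fin 3) k) →* ℂ := fun g =>
    { toFun := fun x => ψ (fn (E.rd g) x.toAdd)
      map_one' := by simp [fn, ψ_zero]
      map_mul' := by intro x y; simp [fn_add, ψ_add] }
  have hlam : ∀ g x, ρ (E.kap (Multiplicative.toAdd x)) (ρ g v) = lam g x • ρ g v := by
    intro g x
    have : E.kap x.toAdd * g = g * (g⁻¹ * E.kap x.toAdd * g) := by group
    rw [← Module.End.mul_apply, ← map_mul, this, map_mul, Module.End.mul_apply, E.kap_conj, hev',
      map_smul]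
    rfl
  have hinj : ∀ g g', lam g = lam g' → g⁻¹ * g' ∈ H := by
    intro g g' h
    have h1 : ∀ x, fn (E.rd g) x = fn (E.rd g') x := by
      intro x
      by_contra hne
      have hd : fn (E.rd g) x - fn (E.rd g') x ≠ 0 := sub_ne_zero.2 hne
      have := DFunLike.congr_fun h
        (Multiplicative.ofAdd ((fn (E.rd g) x - fn (E.rd g') x)⁻¹ • x))
      simp only [lam, MonoidHom.coe_mk, OneHom.coe_mk, toAdd_ofAdd, fn_smul, Units.val_inj] at this
      have e : (fn (E.rd g) x - fn (E.rd g') x)⁻¹ * fn (E.rd g) x =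
          1 + (fn (E.rd g) x - fn (E.rd g') x)⁻¹ * fn (E.rd g') x := by
        field_simp; ring
      rw [e, ψ_add, mul_eq_right] at this
      exact hφ this
    set c : GL (Fin 3) k := E.rd (g⁻¹ * g') with hc
    have h3 : ∀ y : Matrix (Fin 3) (Fin 3) k, (c.val * y) 1 1 + 2 * (c.val * y) 2 2 =
        (y * c.val) 1 1 + 2 * (y * c.val) 2 2 := by
      intro y
      have := h1 ((E.rd g').val * y * ((E.rd g)⁻¹ : GL (Fin 3) k).val)
      simp only [fn, Matrix.mul_assoc, Units.inv_mul, Matrix.mul_one,
        Units.inv_mul_cancel_left] at this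
      simpa only [hc, map_mul, map_inv, Units.val_mul, Matrix.mul_assoc] using this
    change c ∈ (dg k).range
    rw [mem_dg]
    intro i j hij
    have := h3 (single j i 1)
    fin_cases i <;> fin_cases j <;>
      simp [Matrix.mul_apply, Fin.sum_univ_three, single_apply, h2] at this hij ⊢ <;>
      first | exact this | linear_combination this | linear_combination -this
  have hge : H.index ≤ finrank ℂ V := by
    have : Fintype (GL (Fin 3) A ⧸ H) := Fintype.ofFinite _
    have hli := linearIndependent_of_chars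
      (fun x : Multiplicative (Matrix (Fin 3) (Fin 3) k) => ρ (E.kap x.toAdd))
      (fun y : GL (Fin 3) A ⧸ H => ρ y.out v)
      (fun y h => hv (by
        have := congrArg (ρ y.out⁻¹) h
        rwa [← Module.End.mul_apply, ← map_mul, inv_mul_cancel, map_one, map_zero] at this))
      (fun y => lam y.out)
      (fun y y' h => by
        rw [← y.out_eq', ← y'.out_eq']
        exact QuotientGroup.eq.2 (hinj _ _ h))
      (fun y x => hlam _ _)
    rw [Subgroup.index, Nat.card_eq_fintype_card]
    exact hli.fintype_card_le_finrank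
  rw [le_antisymm hle hge, Subgroup.index_comap_of_surjective _ E.rd_surj, ← Matrix.card_GL_field,
    ← (dg k).range.index_mul_card]
  congr 1
  rw [← Nat.card_congr (MonoidHom.ofInjective dg_inj).toEquiv, Nat.card_fun, Nat.card_units]
  simp

theorem lt_168 (E : Ext2 A (ZMod 2)) {V : Type} [AddCommGroup V] [Module ℂ V]
    [FiniteDimensional ℂ V] [Nontrivial V] (ρ : Representation ℂ (GL (Fin 3) A) V) (hρ : Irr ρ) :
    finrank ℂ V < 168 := by
  classical
  have := E.finite
  obtain ⟨v, hv, hc⟩ := exists_common_eigenvector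
    (fun x : Matrix (Fin 3) (Fin 3) (ZMod 2) => ρ (E.kap x)) (by
      intro x y u
      rw [← Module.End.mul_apply, ← Module.End.mul_apply, ← map_mul, ← map_mul, ← E.kap_add,
        ← E.kap_add, add_comm])
  choose lam hlam using hc
  have lam_add : ∀ x y, lam (x + y) = lam x * lam y := by
    intro x y
    apply smul_left_injective ℂ hv
    simp only
    rw [← hlam, E.kap_add, map_mul, Module.End.mul_apply, hlam, map_smul, hlam, smul_smul,
      mul_comm]
  have lam_zero : lam 0 = 1 := by
    apply smul_left_injective ℂ hv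
    simp only
    rw [← hlam, E.kap_zero]; simp
  have lam_pm : ∀ x, lam x = 1 ∨ lam x = -1 := by
    intro x
    rw [← mul_self_eq_one_iff, ← lam_add, ← lam_zero]
    congr 1
    ext i j
    simp [CharTwo.add_self_eq_zero]
  let μ : Matrix (Fin 3) (Fin 3) (ZMod 2) →+ ZMod 2 := AddMonoidHom.mk'
    (fun x => if lam x = 1 then 0 else 1) (by
      intro x y
      rw [lam_add]
      rcases lam_pm x with h | h <;> rcases lam_pm y with h' | h' <;> rw [h, h'] <;> norm_num
      decide)
  have hμ : ∀ x y, μ x = μ y → lam x = lam y := by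
    intro x y
    simp only [μ, AddMonoidHom.mk'_apply]
    rcases lam_pm x with h | h <;> rcases lam_pm y with h' | h' <;> rw [h, h'] <;> norm_num
  let β : Matrix (Fin 3) (Fin 3) (ZMod 2) := Matrix.of fun j i => μ (single i j 1)
  have hβ : ∀ x, μ x = (β * x).trace := by
    intro x
    conv_lhs => rw [matrix_eq_sum_single x]
    simp only [map_sum, Matrix.trace, Matrix.diag_apply, Matrix.mul_apply, β, Matrix.of_apply]
    rw [Finset.sum_comm]
    refine Finset.sum_congr rfl fun j _ => Finset.sum_congr rfl fun i _ => ?_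
    have hz : ∀ z : ZMod 2, z = 0 ∨ z = 1 := by decide
    rcases hz (x i j) with h | h <;> rw [h] <;> simp
  obtain ⟨c, hc1, hcβ⟩ := OnnF2.exists_comm β
  obtain ⟨g, rfl⟩ := E.rd_surj c
  have hconj : ∀ x, lam (((E.rd g)⁻¹ : GL (Fin 3) (ZMod 2)).val * x * (E.rd g).val) =
      lam x := by
    intro x
    apply hμ
    rw [hβ, hβ, ← Matrix.mul_assoc, Matrix.trace_mul_comm, ← Matrix.mul_assoc, ← Matrix.mul_assoc,
      hcβ, Matrix.mul_assoc β, Units.mul_inv, Matrix.mul_one]
  let W : Submodule ℂ V :=
    { carrier := {w | ∀ x, ρ (E.kap x) w = lam x • w}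
      add_mem' := fun {a b} ha hb x => by rw [map_add, ha, hb, smul_add]
      zero_mem' := fun x => by simp
      smul_mem' := fun c a ha x => by rw [map_smul, ha, smul_comm] }
  have hW : ∀ w ∈ W, ρ g w ∈ W := by
    intro w hw x
    have : E.kap x * g = g * (g⁻¹ * E.kap x * g) := by group
    rw [← Module.End.mul_apply, ← map_mul, this, map_mul, Module.End.mul_apply, E.kap_conj, hw,
      map_smul, hconj]
  have : Nontrivial W := ⟨⟨v, hlam⟩, 0, fun h => hv (congrArg Subtype.val h)⟩
  obtain ⟨a, ha⟩ := Module.End.exists_eigenvalue ((ρ g).restrict hW)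
  obtain ⟨u, hu⟩ := ha.exists_hasEigenvector
  have hu0 : (u : V) ≠ 0 := fun h => hu.2 (Subtype.ext h)
  have hu1 : ρ g u = a • (u : V) := congrArg Subtype.val hu.apply_eq_smul
  let S : Subgroup (GL (Fin 3) A) :=
    { carrier := {s | ∃ c : ℂ, ρ s u = c • (u : V)}
      one_mem' := ⟨1, by simp⟩
      mul_mem' := by
        rintro s t ⟨c, hc⟩ ⟨d, hd⟩
        exact ⟨d * c, by rw [map_mul, Module.End.mul_apply, hd, map_smul, hc, smul_smul]⟩
      inv_mem' := by
        rintro s ⟨c, hc⟩
        have h1 : (u : V) = c • ρ s⁻¹ u := by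
          rw [← map_smul, ← hc, ← Module.End.mul_apply, ← map_mul]; simp
        have hc0 : c ≠ 0 := by
          rintro rfl
          exact hu0 (by simpa using h1)
        refine ⟨c⁻¹, ?_⟩
        conv_rhs => rw [h1]
        rw [smul_smul, inv_mul_cancel₀ hc0, one_smul] }
  have h1 := finrank_le_index ρ hρ S u hu0 fun s hs => hs
  have hlt : (E.rd (n := Fin 3)).ker < S := by
    refine lt_of_le_of_ne (fun s hs => ?_) fun h => hc1 ?_
    · obtain ⟨x, rfl⟩ := E.exists_kap hs
      exact ⟨_, u.2 x⟩
    · have : g ∈ S := ⟨a, hu1⟩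
      rwa [← h] at this
  have h2 := Subgroup.index_strictAnti hlt
  rw [Subgroup.index_ker, MonoidHom.range_eq_top.2 E.rd_surj, Subgroup.card_top,
    Matrix.card_GL_field] at h2
  simp [Fin.prod_univ_three] at h2
  omega

open IsLocalRing in
theorem exists_ext2 (R : Type) [CommRing R] [IsDomain R] [IsDiscreteValuationRing R]
    (k : Type) [Field k] (e : ResidueField R ≃+* k) :
    ∃ E : Ext2 (R ⧸ maximalIdeal R ^ 2) k,
      ∀ c, ∃ a ∈ maximalIdeal R, E.io c = Ideal.Quotient.mk (maximalIdeal R ^ 2) a := by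
  obtain ⟨ϖ, hϖ⟩ := IsDiscreteValuationRing.exists_irreducible R
  have hm : maximalIdeal R = Ideal.span {ϖ} := hϖ.maximalIdeal_eq
  have hm1 : ∀ a, a ∈ maximalIdeal R ↔ ϖ ∣ a := fun a => by rw [hm, Ideal.mem_span_singleton]
  have hm2 : ∀ a, a ∈ maximalIdeal R ^ 2 ↔ ϖ ^ 2 ∣ a := fun a => by
    rw [hm, Ideal.span_singleton_pow, Ideal.mem_span_singleton]
  let r0 : R →+* k := e.toRingHom.comp (residue R)
  have hr0 : ∀ a, r0 a = 0 ↔ ϖ ∣ a := fun a => by
    simp [r0, ← hm1, residue_eq_zero_iff]
  have hs0 : Function.Surjective r0 := e.surjective.comp residue_surjective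
  let red : R ⧸ maximalIdeal R ^ 2 →+* k := Ideal.Quotient.lift _ r0 fun a ha =>
    (hr0 a).2 ((dvd_pow_self ϖ two_ne_zero).trans ((hm2 a).1 ha))
  let s : k → R := Function.surjInv hs0
  have hs : ∀ c, r0 (s c) = c := Function.surjInv_eq hs0
  have key : ∀ a b : R, r0 a = r0 b → Ideal.Quotient.mk (maximalIdeal R ^ 2) (ϖ * a) =
      Ideal.Quotient.mk (maximalIdeal R ^ 2) (ϖ * b) := by
    intro a b h
    rw [Ideal.Quotient.eq, hm2, ← mul_sub, sq]
    exact mul_dvd_mul_left ϖ ((hr0 _).1 (by rw [map_sub, h, sub_self]))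
  let io : k →+ R ⧸ maximalIdeal R ^ 2 := AddMonoidHom.mk'
    (fun c => Ideal.Quotient.mk _ (ϖ * s c)) (by
      intro c d
      rw [← map_add, ← mul_add]
      exact key _ _ (by simp [hs]))
  refine ⟨⟨red, io, fun c => ⟨Ideal.Quotient.mk _ (s c), hs c⟩, ?_, ?_, ?_, ?_⟩, ?_⟩
  · rw [injective_iff_map_eq_zero]
    intro c hc
    simp only [io, AddMonoidHom.mk'_apply] at hc
    rw [Ideal.Quotient.eq_zero_iff_mem, hm2, sq, mul_dvd_mul_iff_left hϖ.ne_zero, ← hr0, hs] at hc
    exact hc
  · intro a c
    obtain ⟨a, rfl⟩ := Ideal.Quotient.mk_surjective a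
    simp only [io, AddMonoidHom.mk'_apply]
    rw [← map_mul, mul_left_comm]
    exact key _ _ (by simp [hs, red])
  · intro c
    simp only [io, AddMonoidHom.mk'_apply, red, Ideal.Quotient.lift_mk]
    exact (hr0 _).2 (dvd_mul_right _ _)
  · intro a ha
    obtain ⟨a, rfl⟩ := Ideal.Quotient.mk_surjective a
    obtain ⟨b, rfl⟩ := (hr0 a).1 ha
    exact ⟨r0 b, key _ _ (hs _).symm⟩
  · intro c
    exact ⟨ϖ * s c, (hm1 _).2 (dvd_mul_right _ _), rfl⟩

end Pool.Agent.H76.Onn
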