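import Mathlib
import Pool.Agent.H20.Plane

namespace Pool.Agent.H76.PlanA

open Pool.Agent.H20 Pool.Agent.H20.Plane

abbrev Q4 := ℤ × ℤ × ℤ × ℤ

def NoX (q r : Q4) : Prop := ∀ s t : ℝ, 0 < s → s < 1 → 0 < t → t < 1 →
  (q.1 : ℝ) + s * (q.2.2.1 - q.1) = r.1 + t * (r.2.2.1 - r.1) →
  (q.2.1 : ℝ) + s * (q.2.2.2 - q.2.1) = r.2.1 + t * (r.2.2.2 - r.2.1) → False

def nx : Q4 → Q4 → Bool
  | (a, b, c, d), (e, f, g, h) => nosol (c - a) (d - b) (e - g) (f - h) (e - a) (f - b)

theorem nx_sound {q r : Q4} (h : nx q r = true) : NoX q r := by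
  obtain ⟨a, b, c, d⟩ := q
  obtain ⟨e, f, g, k⟩ := r
  intro s t s0 s1 t0 t1 e1 e2
  refine nosol_sound _ _ _ _ _ _ h s t s0 s1 t0 t1 ?_ ?_ <;> push_cast <;> simp only at e1 e2 <;>
    linarith

theorem NoX.symm {q r : Q4} (h : NoX q r) : NoX r q := fun s t s0 s1 t0 t1 e1 e2 =>
  h t s t0 t1 s0 s1 e1.symm e2.symm

theorem NoX.flip {a b c d : ℤ} {r : Q4} (h : NoX (a, b, c, d) r) : NoX (c, d, a, b) r :=
  fun s t s0 s1 t0 t1 e1 e2 => h (1 - s) t (by linarith) (by linarith) t0 t1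
    (by simp only at e1 ⊢; linarith) (by simp only at e2 ⊢; linarith)

theorem planar_list {W : Type} (L : List (W × W)) (X Y : W → ℤ)
    (hinj : ∀ u v, X u = X v → Y u = Y v → u = v)
    (h1 : ∀ e ∈ L, ∀ w, NoX (X e.1, Y e.1, X e.2, Y e.2) (X w, Y w, X w, Y w))
    (h2 : L.Pairwise fun e f => NoX (X e.1, Y e.1, X e.2, Y e.2) (X f.1, Y f.1, X f.2, Y f.2)) :
    IsPlanar (SimpleGraph.fromRel fun a b => (a, b) ∈ L) := by
  have h3 : ∀ e ∈ L, ∀ f ∈ L, e ≠ f →
      NoX (X e.1, Y e.1, X e.2, Y e.2) (X f.1, Y f.1, X f.2, Y f.2) := fun e he f hf =>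
    @List.Pairwise.forall _ _ _ ⟨fun _ _ h => h.symm⟩ h2 _ he _ hf
  refine ⟨fun v => ((X v : ℝ), (Y v : ℝ)),
    fun u v => (seg (X u) (X v - X u)).prodMk (seg (Y u) (Y v - Y u)), ?_, ?_, ?_, ?_⟩
  · intro u v h
    simp only [Prod.mk.injEq] at h
    exact hinj u v (by exact_mod_cast h.1) (by exact_mod_cast h.2)
  · intro u v h
    refine ⟨by simp [seg], by simp [seg], fun s t hst => ?_⟩
    have e1 : (X u : ℝ) + (s : ℝ) * (X v - X u) = X u + (t : ℝ) * (X v - X u) :=
      congrArg Prod.fst hst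
    have e2 : (Y u : ℝ) + (s : ℝ) * (Y v - Y u) = Y u + (t : ℝ) * (Y v - Y u) :=
      congrArg Prod.snd hst
    by_contra hne
    have hne' : (s : ℝ) - t ≠ 0 := fun h0 => hne (Subtype.ext (by linarith))
    have b1 := (mul_eq_zero.mp (show ((s : ℝ) - t) * (X v - X u) = 0 by linarith)).resolve_left hne'
    have b2 := (mul_eq_zero.mp (show ((s : ℝ) - t) * (Y v - Y u) = 0 by linarith)).resolve_left hne'
    exact h.ne (hinj u v (by exact_mod_cast (show (X u : ℝ) = X v by linarith))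
      (by exact_mod_cast (show (Y u : ℝ) = Y v by linarith)))
  · intro u v w t h t0 t1 e
    have k : NoX (X u, Y u, X v, Y v) (X w, Y w, X w, Y w) := by
      rcases ((SimpleGraph.fromRel_adj _ _ _).1 h).2 with h | h
      · exact h1 _ h w
      · exact (h1 _ h w).flip
    have e1 : (X u : ℝ) + (t : ℝ) * (X v - X u) = X w := congrArg Prod.fst e
    have e2 : (Y u : ℝ) + (t : ℝ) * (Y v - Y u) = Y w := congrArg Prod.snd e
    exact k t t t0 t1 t0 t1 (by simp only; linarith) (by simp only; linarith)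
  · intro u v u' v' s t h h' hne s0 s1 t0 t1 e
    have k : NoX (X u, Y u, X v, Y v) (X u', Y u', X v', Y v') := by
      rcases ((SimpleGraph.fromRel_adj _ _ _).1 h).2 with h | h <;>
        rcases ((SimpleGraph.fromRel_adj _ _ _).1 h').2 with h' | h'
      · exact h3 _ h _ h' fun e => hne (by simp only [Prod.mk.injEq] at e; exact Or.inl e)
      · exact (h3 _ h _ h' fun e => hne (by
          simp only [Prod.mk.injEq] at e; exact Or.inr e)).symm.flip.symm
      · exact (h3 _ h _ h' fun e => hne (by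
          simp only [Prod.mk.injEq] at e; exact Or.inr e.symm)).flip
      · exact (h3 _ h _ h' fun e => hne (by
          simp only [Prod.mk.injEq] at e; exact Or.inl e.symm)).flip.symm.flip.symm
    exact k s t s0 s1 t0 t1 (congrArg Prod.fst e) (congrArg Prod.snd e)

end Pool.Agent.H76.PlanA
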