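import Mathlib

set_option autoImplicit false

namespace Pool.Agent.H76.PracA

open Polynomial

section
variable {M : Type} [AddCommGroup M] [Module (ZMod 2) M]

/-- The sum of the terms `s (m + j)` over the bits `j < N` of `w`. -/
def D (N w : ℕ) (s : ℕ → M) (m : ℕ) : M :=
  ∑ j ∈ Finset.range N, if w.testBit j then s (m + j) else 0

theorem two (x : M) : x + x = 0 := by
  rw [← two_smul (ZMod 2) x, show (2 : ZMod 2) = 0 from rfl, zero_smul]

theorem D_xor (N a b : ℕ) (s : ℕ → M) (m : ℕ) : D N (a ^^^ b) s m = D N a s m + D N b s m := by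
  rw [D, D, D, ← Finset.sum_add_distrib]
  refine Finset.sum_congr rfl fun j _ => ?_
  rw [Nat.testBit_xor]
  cases a.testBit j <;> cases b.testBit j <;> simp [two]

omit [Module (ZMod 2) M] in
theorem D_zero (N : ℕ) (s : ℕ → M) (m : ℕ) : D N 0 s m = 0 := by simp [D]

omit [Module (ZMod 2) M] in
theorem D_two (N w : ℕ) (s : ℕ → M) (m : ℕ) : D (N + 1) (2 * w) s m = D N w s (m + 1) := by
  rw [D, Finset.sum_range_succ', D]
  have h0 : (2 * w).testBit 0 = false := by simp [Nat.testBit_zero]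
  rw [h0]
  simp only [Bool.false_eq_true, if_false, add_zero]
  refine Finset.sum_congr rfl fun j _ => ?_
  rw [Nat.testBit_succ, Nat.mul_div_cancel_left _ (by norm_num), add_assoc, add_comm 1 j]

omit [Module (ZMod 2) M] in
theorem D_top (N w : ℕ) (s : ℕ → M) (m : ℕ) (h : w.testBit N = false) :
    D (N + 1) w s m = D N w s m := by
  rw [D, Finset.sum_range_succ, h]
  simp [D]

/-- Multiplication by `x` modulo the polynomial with bit mask `F` and degree `d`. -/
def step (F d w : ℕ) : ℕ := if (2 * w).testBit d then (2 * w) ^^^ F else 2 * w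

/-- The bit mask of `x ^ n * w`. -/
def pwa (F d : ℕ) (n : ℕ) : ℕ → ℕ :=
  Nat.rec (motive := fun _ => ℕ → ℕ) id
    (fun _ ih w => Nat.casesOn (motive := fun _ => ℕ) (step F d w) (ih 0) fun y => ih (y + 1)) n

theorem pwa_succ (F d n w : ℕ) : pwa F d (n + 1) w = pwa F d n (step F d w) := by
  change Nat.casesOn (motive := fun _ => ℕ) (step F d w) (pwa F d n 0)
    (fun y => pwa F d n (y + 1)) = _
  cases step F d w <;> rfl

/-- The bit mask of `x ^ n`. -/
def pw (F d : ℕ) (n : ℕ) : ℕ := pwa F d n 1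

theorem D_step {F d : ℕ} (hF : F.testBit d = true) {s : ℕ → M} (hs : ∀ m, D (d + 1) F s m = 0)
    (w m : ℕ) : D d (step F d w) s m = D d w s (m + 1) := by
  rw [← D_two, step]
  split_ifs with h
  · rw [← D_top _ _ _ _ (by rw [Nat.testBit_xor, h, hF]; rfl), D_xor, hs, add_zero]
  · rw [D_top _ _ _ _ (by simpa using h)]

theorem D_pw {F d : ℕ} (hd : 0 < d) (hF : F.testBit d = true) {s : ℕ → M}
    (hs : ∀ m, D (d + 1) F s m = 0) (n m : ℕ) : s (m + n) = D d (pw F d n) s m := by
  have : ∀ n w m, D d (pwa F d n w) s m = D d w s (m + n) := by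
    intro n
    induction n with
    | zero => intro w m; rfl
    | succ n ih => intro w m; rw [pwa_succ, ih, D_step hF hs, add_assoc]
  rw [pw, this]
  obtain ⟨e, rfl⟩ : ∃ e, d = e + 1 := ⟨d - 1, by omega⟩
  rw [D, Finset.sum_range_succ']
  simp [Nat.testBit_succ]

/-- The mask of a sum of powers of `x`. -/
def xs (F d : ℕ) (l : List ℕ) : ℕ := l.foldr (fun e w => pw F d e ^^^ w) 0

theorem D_xs {F d : ℕ} (hd : 0 < d) (hF : F.testBit d = true) {s : ℕ → M}
    (hs : ∀ m, D (d + 1) F s m = 0) (l : List ℕ) (m : ℕ) :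
    (l.map fun e => s (m + e)).sum = D d (xs F d l) s m := by
  induction l with
  | nil => simp [xs, D_zero]
  | cons e l ih =>
    rw [List.map_cons, List.sum_cons, ih, D_pw hd hF hs, ← D_xor]
    rfl

theorem rel {F d : ℕ} (hd : 0 < d) (hF : F.testBit d = true) {s : ℕ → M}
    (hs : ∀ m, D (d + 1) F s m = 0) {l : List ℕ} {j : ℕ} (h : xs F d l = pw F d j) (m : ℕ) :
    s (m + j) = (l.map fun e => s (m + e)).sum := by
  rw [D_xs hd hF hs, h, D_pw hd hF hs]

end

/-- The polynomial with bit mask `F`. -/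
noncomputable def P (F d : ℕ) : (ZMod 2)[X] :=
  ∑ j ∈ Finset.range (d + 1), if F.testBit j then X ^ j else 0

theorem coeff_P (F d j : ℕ) :
    (P F d).coeff j = if j ∈ Finset.range (d + 1) then (if F.testBit j then 1 else 0) else 0 := by
  rw [P, finsetSum_coeff, ← Finset.sum_ite_eq (Finset.range (d + 1)) j
    (fun _ => if F.testBit j then (1 : ZMod 2) else 0)]
  refine Finset.sum_congr rfl fun b _ => ?_
  by_cases h : j = b
  · subst h
    split_ifs <;> simp_all
  · rw [if_neg h]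
    split_ifs
    · rw [coeff_X_pow, if_neg h]
    · rfl

theorem deg_P {F d : ℕ} (hF : F.testBit d = true) : (P F d).natDegree = d := by
  refine natDegree_eq_of_le_of_coeff_ne_zero (natDegree_le_iff_coeff_eq_zero.2 fun N hN => ?_) ?_
  · rw [coeff_P, if_neg (by simp; omega)]
  · rw [coeff_P, if_pos (by simp), hF]
    simp

theorem gen_iff {F d : ℕ} (hF : F.testBit d = true) (s : ℕ → ZMod 2) (m : ℕ) :
    ∑ j ∈ Finset.range ((P F d).natDegree + 1), (P F d).coeff j * s (m + j) = D (d + 1) F s m := by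
  rw [deg_P hF, D]
  refine Finset.sum_congr rfl fun j hj => ?_
  rw [coeff_P, if_pos hj]
  split_ifs <;> simp

theorem D_pow {K : Type} [CommRing K] [Algebra (ZMod 2) K] {F d : ℕ} {a : K}
    (h : aeval a (P F d) = 0) (m : ℕ) : D (d + 1) F (fun n => a ^ n) m = 0 := by
  have : D (d + 1) F (fun n => a ^ n) m = a ^ m * aeval a (P F d) := by
    rw [D, P, map_sum, Finset.mul_sum]
    refine Finset.sum_congr rfl fun j _ => ?_
    split_ifs <;> simp [pow_add]
  rw [this, h, mul_zero]

/-- Certificate for a polynomial of degree 12. -/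
structure Good (F : ℕ) : Prop where
  top : F.testBit 12 = true
  per : pw F 12 585 = pw F 12 0
  inv : ∀ j < 12, ∃ l : List (Fin 3 × Fin 4),
    xs F 12 (l.map fun p => 351 * p.1.val + 235 * p.2.val) = pw F 12 j
  ap : ∀ k ∈ [195, 117, 45], ∃ l : List ℕ, xs F 12 (l ++ l.map (· + k)) = pw F 12 0

theorem mult : ∀ k < 585, k ≠ 0 → ∃ t < 585, k * t % 585 ∈ [195, 117, 45] := by decide +kernel

section
variable {M : Type} [AddCommGroup M] [Module (ZMod 2) M] {s : ℕ → M}

omit [AddCommGroup M] [Module (ZMod 2) M] in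
theorem per_mul {k : ℕ} (h : ∀ m, s (m + k) = s m) (t m : ℕ) : s (m + k * t) = s m := by
  induction t with
  | zero => rfl
  | succ t ih => rw [Nat.mul_succ, ← add_assoc, h, ih]

theorem per {F d : ℕ} (hd : 0 < d) (hF : F.testBit d = true) (hp : pw F d 585 = pw F d 0)
    (hs : ∀ m, D (d + 1) F s m = 0) (m : ℕ) : s (m + 585) = s m := by
  rw [D_pw hd hF hs, hp, ← D_pw hd hF hs, add_zero]

theorem aper {F : ℕ} (h : Good F) (hs : ∀ m, D 13 F s m = 0) {k : ℕ} (hk : k < 585) (h0 : k ≠ 0)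
    (hp : ∀ m, s (m + k) = s m) (m : ℕ) : s m = 0 := by
  obtain ⟨t, -, ht⟩ := mult k hk h0
  obtain ⟨l, hl⟩ := h.ap _ ht
  have h1 : ∀ m, s (m + k * t % 585) = s m := by
    intro m
    rw [← per_mul (per (by norm_num) h.top h.per hs) (k * t / 585), add_assoc, Nat.mod_add_div,
      per_mul hp]
  have := rel (by norm_num) h.top hs hl m
  rw [add_zero, List.map_append, List.sum_append, List.map_map] at this
  rw [this]
  have e : ((fun e => s (m + e)) ∘ fun x => x + k * t % 585) = fun e => s (m + e) := by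
    funext e
    simp only [Function.comp]
    rw [← add_assoc, h1]
  rw [e, two]

theorem winj {F : ℕ} (h : Good F) (hs : ∀ m, D 13 F s m = 0)
    (hw : ∀ (a : Fin 3) (b : Fin 4), s (351 * a.val + 235 * b.val) = 0) (m : ℕ) : s m = 0 := by
  have h1 : ∀ j < 12, s (0 + j) = 0 := by
    intro j hj
    obtain ⟨l, hl⟩ := h.inv j hj
    rw [rel (by norm_num) h.top hs hl]
    refine List.sum_eq_zero fun x hx => ?_
    simp only [List.map_map, List.mem_map, Function.comp] at hx
    obtain ⟨p, -, rfl⟩ := hx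
    rw [zero_add, hw]
  have := D_pw (by norm_num) h.top hs m 0
  rw [zero_add] at this
  rw [this, D]
  refine Finset.sum_eq_zero fun j hj => ?_
  rw [h1 j (Finset.mem_range.1 hj), ite_self]

end

theorem order {K : Type} [CommRing K] [Nontrivial K] [Algebra (ZMod 2) K] {F : ℕ} (h : Good F)
    {a : K} (ha : aeval a (P F 12) = 0) : orderOf a = 585 := by
  have h1 : a ^ 585 = 1 := by
    simpa using per (by norm_num) h.top h.per (D_pow ha) 0
  have h2 := orderOf_dvd_of_pow_eq_one h1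
  have h3 := Nat.le_of_dvd (by norm_num) h2
  by_contra hne
  have h0 : orderOf a ≠ 0 := by
    intro e
    rw [e] at h2
    simp at h2
  have := aper h (D_pow ha) (k := orderOf a) (by omega) h0
    (fun m => by simp only [pow_add, pow_orderOf_eq_one, mul_one]) 0
  simp at this

theorem irr {F : ℕ} (h : Good F) : Irreducible (P F 12) := by
  have hd := deg_P h.top
  have h0 : P F 12 ≠ 0 := by
    intro e
    rw [e] at hd
    simp at hd
  obtain ⟨g, hg, hgf⟩ := exists_irreducible_of_natDegree_pos (f := P F 12) (by omega)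
  have : Fact (Irreducible g) := ⟨hg⟩
  have hle := natDegree_le_of_dvd hgf h0
  have hpos := hg.natDegree_pos
  let pb := AdjoinRoot.powerBasis hg.ne_zero
  have : Module.Finite (ZMod 2) (AdjoinRoot g) := pb.finite
  have : Finite (AdjoinRoot g) := Module.finite_of_finite (ZMod 2)
  have hc : Nat.card (AdjoinRoot g) = 2 ^ g.natDegree := by
    rw [Module.natCard_eq_pow_finrank (K := ZMod 2), pb.finrank, Nat.card_zmod]
    rfl
  have ho : orderOf (AdjoinRoot.root g) = 585 := order h (by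
    rw [AdjoinRoot.aeval_eq, AdjoinRoot.mk_eq_zero]
    exact hgf)
  have hne : AdjoinRoot.root g ≠ 0 := by
    intro e
    have := pow_orderOf_eq_one (AdjoinRoot.root g)
    rw [ho, e] at this
    simp at this
  have := Fintype.ofFinite (AdjoinRoot g)
  have h5 := orderOf_dvd_of_pow_eq_one (FiniteField.pow_card_sub_one_eq_one _ hne)
  rw [ho, ← Nat.card_eq_fintype_card, hc] at h5
  have h12 : g.natDegree = 12 := by
    rw [hd] at hle
    generalize g.natDegree = e at *
    interval_cases e <;> first | rfl | (exfalso; revert h5; decide)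
  exact (associated_of_dvd_of_natDegree_le hgf h0 (by omega)).irreducible hg

theorem expo {F : ℕ} (h : Good F) : IsLeast {e : ℕ | 1 ≤ e ∧ P F 12 ∣ X ^ e - 1} 585 := by
  have : Fact (Irreducible (P F 12)) := ⟨irr h⟩
  have ho : orderOf (AdjoinRoot.root (P F 12)) = 585 := order h (by
    rw [AdjoinRoot.aeval_eq, AdjoinRoot.mk_self])
  have key : ∀ e, P F 12 ∣ X ^ e - 1 ↔ 585 ∣ e := by
    intro e
    rw [← ho, orderOf_dvd_iff_pow_eq_one, ← AdjoinRoot.mk_eq_zero, map_sub, map_pow,
      AdjoinRoot.mk_X, map_one, sub_eq_zero]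
  exact ⟨⟨by norm_num, (key _).2 dvd_rfl⟩, fun e he => Nat.le_of_dvd he.1 ((key _).1 he.2)⟩

theorem surj {F : ℕ} (h : Good F) (W : Fin 3 → Fin 4 → ZMod 2) : ∃ s : ℕ → ZMod 2,
    (∀ m, D 13 F s m = 0) ∧ ∀ (a : Fin 3) (b : Fin 4), s (351 * a.val + 235 * b.val) = W a b := by
  let E : LinearRecurrence (ZMod 2) := ⟨12, fun i => if F.testBit i then 1 else 0⟩
  have h1 : ∀ x m, D 13 F (E.mkSol x) m = 0 := by
    intro x m
    have := E.is_sol_mkSol x m
    rw [D, Finset.sum_range_succ, h.top, if_pos rfl, Finset.sum_range, this]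
    refine Eq.trans ?_ (two (∑ i, E.coeffs i * E.mkSol x (m + i)))
    congr 1
    refine Finset.sum_congr rfl fun i _ => ?_
    simp only [E]
    split_ifs <;> simp
  let Φ : (Fin 12 → ZMod 2) → Fin 3 → Fin 4 → ZMod 2 :=
    fun x a b => E.mkSol x (351 * a.val + 235 * b.val)
  have hΦ : Function.Injective Φ := by
    intro x y e
    have := winj h (s := fun n => E.mkSol x n - E.mkSol y n) (fun m => by
      have : D 13 F (fun n => E.mkSol x n - E.mkSol y n) m =
          D 13 F (E.mkSol x) m - D 13 F (E.mkSol y) m := by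
        rw [D, D, D, ← Finset.sum_sub_distrib]
        refine Finset.sum_congr rfl fun i _ => ?_
        split_ifs <;> simp
      rw [this, h1, h1, sub_zero]) (fun a b => sub_eq_zero.2 (congrFun (congrFun e a) b))
    funext i
    have := sub_eq_zero.1 (this i)
    rwa [E.mkSol_eq_init x i, E.mkSol_eq_init y i] at this
  obtain ⟨x, hx⟩ := ((Fintype.bijective_iff_injective_and_card Φ).2 ⟨hΦ, by simp⟩).2 W
  exact ⟨_, h1 x, fun a b => congrFun (congrFun hx a) b⟩

theorem good1 : Good 5563 where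
  top := by decide
  per := by decide +kernel
  inv := by
    intro j hj
    interval_cases j
    · exact ⟨[(0, 0)], by decide +kernel⟩
    · exact ⟨[(1, 1)], by decide +kernel⟩
    · exact ⟨[(2, 2)], by decide +kernel⟩
    · exact ⟨[(0, 0), (0, 3), (1, 2), (2, 1), (2, 2), (2, 3)], by decide +kernel⟩
    · exact ⟨[(0, 0), (0, 2), (1, 1), (1, 3), (2, 3)], by decide +kernel⟩
    · exact ⟨[(0, 0), (0, 1), (0, 3), (1, 0), (1, 1), (2, 2), (2, 3)], by decide +kernel⟩
    · exact ⟨[(0, 1), (1, 0), (1, 2), (2, 0), (2, 1)], by decide +kernel⟩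
    · exact ⟨[(0, 3), (1, 0), (1, 2), (2, 1), (2, 2)], by decide +kernel⟩
    · exact ⟨[(0, 0), (0, 3), (1, 0), (1, 2), (1, 3), (2, 0), (2, 2)], by decide +kernel⟩
    · exact ⟨[(0, 1), (0, 2), (1, 1), (2, 1), (2, 2), (2, 3)], by decide +kernel⟩
    · exact ⟨[(0, 1), (1, 1), (1, 2)], by decide +kernel⟩
    · exact ⟨[(1, 2), (2, 2), (2, 3)], by decide +kernel⟩
  ap := by
    intro k hk
    simp only [List.mem_cons, List.not_mem_nil, or_false] at hk
    rcases hk with rfl | rfl | rfl
    · exact ⟨[1, 2, 3, 7, 9, 10, 11], by decide +kernel⟩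
    · exact ⟨[0, 1, 3, 4, 8, 9, 10, 11], by decide +kernel⟩
    · exact ⟨[0, 2, 9], by decide +kernel⟩

theorem good2 : Good 6275 where
  top := by decide
  per := by decide +kernel
  inv := by
    intro j hj
    interval_cases j
    · exact ⟨[(0, 0)], by decide +kernel⟩
    · exact ⟨[(1, 1)], by decide +kernel⟩
    · exact ⟨[(2, 2)], by decide +kernel⟩
    · exact ⟨[(0, 0), (0, 2), (1, 1), (1, 2), (2, 1), (2, 3)], by decide +kernel⟩
    · exact ⟨[(0, 0), (0, 2), (0, 3), (1, 0), (2, 0), (2, 1)], by decide +kernel⟩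
    · exact ⟨[(0, 2), (1, 0), (1, 2), (2, 0), (2, 3)], by decide +kernel⟩
    · exact ⟨[(0, 1), (1, 1), (2, 1), (2, 2), (2, 3)], by decide +kernel⟩
    · exact ⟨[(0, 3), (1, 0), (1, 3), (2, 0)], by decide +kernel⟩
    · exact ⟨[(0, 0), (0, 1), (1, 3), (2, 1)], by decide +kernel⟩
    · exact ⟨[(0, 0), (0, 1), (0, 2), (1, 0), (2, 0), (2, 1), (2, 3)], by decide +kernel⟩
    · exact ⟨[(0, 0), (0, 2), (1, 3), (2, 0), (2, 1)], by decide +kernel⟩
    · exact ⟨[(0, 0), (0, 1), (0, 2), (0, 3), (2, 0), (2, 2)], by decide +kernel⟩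
  ap := by
    intro k hk
    simp only [List.mem_cons, List.not_mem_nil, or_false] at hk
    rcases hk with rfl | rfl | rfl
    · exact ⟨[0, 1, 2, 3, 4, 5, 6, 7, 8], by decide +kernel⟩
    · exact ⟨[3, 4, 5, 6, 8, 9, 10, 11], by decide +kernel⟩
    · exact ⟨[1, 2, 11], by decide +kernel⟩


theorem prod : P 5563 12 * P 6275 12 = P 33327949 24 := by
  have h2 : (2 : (ZMod 2)[X]) = 0 := CharTwo.two_eq_zero
  have e1 : P 5563 12 = 1 + X + X ^ 3 + X ^ 4 + X ^ 5 + X ^ 7 + X ^ 8 + X ^ 10 + X ^ 12 := by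
    simp +decide [P, Finset.sum_range_succ]
  have e2 : P 6275 12 = 1 + X + X ^ 7 + X ^ 11 + X ^ 12 := by
    simp +decide [P, Finset.sum_range_succ]
  have e3 : P 33327949 24 = 1 + X ^ 2 + X ^ 3 + X ^ 6 + X ^ 8 + X ^ 9 + X ^ 11 + X ^ 15 + X ^ 18 +
      X ^ 19 + X ^ 20 + X ^ 21 + X ^ 22 + X ^ 23 + X ^ 24 := by
    simp +decide [P, Finset.sum_range_succ]
  rw [e1, e2, e3]
  linear_combination (X + X ^ 4 + X ^ 5 + X ^ 7 + X ^ 8 + X ^ 10 + X ^ 11 + 2 * X ^ 12 + X ^ 13 +
    X ^ 14 + X ^ 15 + X ^ 16 + X ^ 17 + X ^ 19) * h2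

theorem per12 : pw 33327949 24 585 = pw 33327949 24 0 := by decide +kernel

theorem dep : xs 33327949 24 [235, 940, 1175, 1645, 1526, 1761, 1996, 1172] =
    pw 33327949 24 0 := by decide +kernel

end Pool.Agent.H76.PracA
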