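import Mathlib

/-! A variety of unary algebras that is logically regular but not logically perfect. -/

set_option autoImplicit false
open FirstOrder FirstOrder.Language

namespace Pool.Agent.H76.RegPerf

inductive Sy
  | a (b : Bool)
  | s (b : Bool) (n : ℕ)
  deriving DecidableEq

inductive Fn : ℕ → Type
  | mk (g : Sy) : Fn 1

def L : FirstOrder.Language.{0, 0} := ⟨Fn, fun _ => Empty⟩

def fn (g : Sy) : L.Functions 1 := Fn.mk g

def tapp {α : Type} (g : Sy) (t : L.Term α) : L.Term α := Term.func (fn g) ![t]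

def ap {N : Type} [L.Structure N] (g : Sy) (x : N) : N := Structure.funMap (fn g) ![x]

theorem realize_tapp {N α : Type} [L.Structure N] (g : Sy) (t : L.Term α) (v : α → N) :
    (tapp g t).realize v = ap g (t.realize v) := by
  simp only [tapp, ap, Term.realize_func]
  congr 1
  funext i
  fin_cases i
  rfl

theorem funMap_eq {N : Type} [L.Structure N] (g : Sy) (v : Fin 1 → N) :
    Structure.funMap (fn g) v = ap g (v 0) := by
  unfold ap
  congr 1
  funext i
  fin_cases i
  rfl

def E : Set (Σ n : ℕ, L.Term (Fin n) × L.Term (Fin n)) :=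
  {e | ∃ b n, e = ⟨1, (tapp (.a b) (tapp (.s b n) (Term.var 0)), tapp (.a (!b)) (Term.var 0))⟩}

def Sat (N : Type) [L.Structure N] : Prop :=
  ∀ e ∈ E, ∀ v : Fin e.1 → N, e.2.1.realize v = e.2.2.realize v

theorem sat_iff (N : Type) [L.Structure N] :
    Sat N ↔ ∀ b n (x : N), ap (.a b) (ap (.s b n) x) = ap (.a (!b)) x := by
  constructor
  · intro h b n x
    have := h _ ⟨b, n, rfl⟩ (fun _ => x)
    simpa [realize_tapp] using this
  · rintro h e ⟨b, n, rfl⟩ v
    simp [realize_tapp, h]

@[reducible] def mkStr (N : Type) (act : Sy → N → N) : L.Structure N where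
  funMap := fun {_} f v => match f with
    | Fn.mk g => act g (v 0)
  RelMap := fun r _ => r.elim

theorem ap_mkStr (N : Type) (act : Sy → N → N) (g : Sy) (x : N) :
    @ap N (mkStr N act) g x = act g x := rfl

theorem hom_ap {M N : Type} [L.Structure M] [L.Structure N] (h : L.Hom M N) (g : Sy) (x : M) :
    h (ap g x) = ap g (h x) := by
  unfold ap
  rw [h.map_fun]
  congr 1
  funext i
  fin_cases i
  rfl

def mkHom {M N : Type} [L.Structure M] [L.Structure N] (f : M → N)
    (hf : ∀ g x, f (ap g x) = ap g (f x)) : L.Hom M N where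
  toFun := f
  map_fun' := by
    intro n F v
    cases F with
    | mk g =>
      have h1 := funMap_eq g v
      have h2 := funMap_eq g (f ∘ v)
      unfold fn at h1 h2
      rw [h1, h2, hf]
      rfl
  map_rel' := fun r => r.elim

/-- words applied to a point -/
def wap {N : Type} [L.Structure N] (w : List Sy) (x : N) : N := w.foldr ap x

def wterm {α : Type} (w : List Sy) (t : L.Term α) : L.Term α := w.foldr tapp t

theorem realize_wterm {N α : Type} [L.Structure N] (w : List Sy) (t : L.Term α) (v : α → N) :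
    (wterm w t).realize v = wap w (t.realize v) := by
  induction w with
  | nil => rfl
  | cons g w ih =>
    show (tapp g (wterm w t)).realize v = ap g (wap w _)
    rw [realize_tapp, ih]

theorem hom_wap {M N : Type} [L.Structure M] [L.Structure N] (h : L.Hom M N) (w : List Sy)
    (x : M) : h (wap w x) = wap w (h x) := by
  induction w with
  | nil => rfl
  | cons g w ih =>
    show h (ap g (wap w x)) = ap g (wap w _)
    rw [hom_ap, ih]

def Free (n : ℕ) (F : Type) [L.Structure F] (ι : Fin n → F) : Prop :=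
  ∀ (M : Type) [L.Structure M], Sat M → ∀ f : Fin n → M, ∃! h : L.Hom F M, ⇑h ∘ ι = f

theorem free_gen {n : ℕ} {F : Type} [L.Structure F] {ι : Fin n → F} (hs : Sat F)
    (hf : Free n F ι) (z : F) : ∃ w i, z = wap w (ι i) := by
  let S := {z : F // ∃ w i, z = wap w (ι i)}
  let act : Sy → S → S := fun g x => ⟨ap g x.1, by
    obtain ⟨w, i, h⟩ := x.2
    exact ⟨g :: w, i, by rw [h]; rfl⟩⟩
  letI : L.Structure S := mkStr S act
  have hS : Sat S := by
    rw [sat_iff]
    intro b m x
    apply Subtype.ext
    exact (sat_iff F).1 hs b m x.1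
  obtain ⟨h, hh, -⟩ := hf S hS (fun i => ⟨ι i, [], i, rfl⟩)
  let inc : L.Hom S F := mkHom Subtype.val (fun _ _ => rfl)
  obtain ⟨k, -, hk⟩ := hf F hs ι
  have e1 : inc.comp h = k := hk _ (by
    funext i
    have := congrFun hh i
    simp only [Function.comp] at this
    show inc (h (ι i)) = ι i
    rw [this]; rfl)
  have e2 : Hom.id L F = k := hk _ (by funext i; rfl)
  have e3 : inc (h z) = z := by
    have : inc.comp h z = Hom.id L F z := by rw [e1, e2]
    exact this
  rw [← e3]
  exact (h z).2

theorem free_src {n : ℕ} {F : Type} [L.Structure F] {ι : Fin n → F} (hf : Free n F ι) :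
    (∀ i g x, ap g x ≠ ι i) ∧ Function.Injective ι := by
  letI : L.Structure (Option (Fin n)) := mkStr _ (fun _ _ => none)
  have hS : Sat (Option (Fin n)) := by
    rw [sat_iff]
    intro b m x
    rfl
  obtain ⟨h, hh, -⟩ := hf _ hS some
  have hi : ∀ i, h (ι i) = some i := fun i => congrFun hh i
  refine ⟨fun i g x e => ?_, fun i j e => ?_⟩
  · have := congrArg h e
    rw [hom_ap, hi] at this
    cases this
  · have := congrArg h e
    rw [hi, hi] at this
    exact Option.some.inj this

/-- formula: `x_i` is not in the image of `g` -/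
def nimg {m : ℕ} (g : Sy) (i : Fin m) : L.Formula (Fin m) :=
  BoundedFormula.all (n := 0)
    (BoundedFormula.not (Term.bdEqual (tapp g (Term.var (Sum.inr 0))) (Term.var (Sum.inl i))))

theorem realize_nimg {N : Type} [L.Structure N] {m : ℕ} (g : Sy) (i : Fin m) (v : Fin m → N) :
    (nimg g i).Realize v ↔ ∀ x, ap g x ≠ v i := by
  unfold nimg Formula.Realize
  simp [BoundedFormula.realize_all, realize_tapp, Fin.snoc]

def weq {m : ℕ} (w : List Sy) (i : Fin m) (w' : List Sy) (j : Fin m) : L.Formula (Fin m) :=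
  Term.equal (wterm w (Term.var i)) (wterm w' (Term.var j))

theorem realize_weq {N : Type} [L.Structure N] {m : ℕ} (w : List Sy) (i : Fin m) (w' : List Sy)
    (j : Fin m) (v : Fin m → N) : (weq w i w' j).Realize v ↔ wap w (v i) = wap w' (v j) := by
  simp [weq, realize_wterm]

theorem type_transfer {F H : Type} [L.Structure F] [L.Structure H] {m : ℕ}
    (h : ∀ (T : Set (L.Formula (Fin m))),
      {φ : L.Formula (Fin m) | ∀ a : Fin m → F, (∀ ψ ∈ T, ψ.Realize a) → φ.Realize a} =
      {φ : L.Formula (Fin m) | ∀ a : Fin m → H, (∀ ψ ∈ T, ψ.Realize a) → φ.Realize a})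
    (y : Fin m → H) : ∃ x : Fin m → F, ∀ φ : L.Formula (Fin m), φ.Realize x ↔ φ.Realize y := by
  by_contra hc
  push Not at hc
  have h1 : (⊥ : L.Formula (Fin m)) ∈ {φ : L.Formula (Fin m) | ∀ a : Fin m → F,
      (∀ ψ ∈ {ψ : L.Formula (Fin m) | ψ.Realize y}, ψ.Realize a) → φ.Realize a} := by
    intro x hx
    obtain ⟨φ, hφ⟩ := hc x
    rcases hφ with ⟨h1, h2⟩ | ⟨h1, h2⟩
    · have := hx φ.not (by simpa using h2)
      simp at this
      exact absurd h1 this
    · exact absurd (hx φ h2) h1
  rw [h] at h1
  have := h1 y (fun ψ hψ => hψ)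
  simp at this

theorem separable {n : ℕ} {F : Type} [L.Structure F] {ι : Fin n → F} (hs : Sat F)
    (hf : Free n F ι) (H : Type) [L.Structure H] (hH : Sat H)
    (h : ∀ (m : ℕ) (T : Set (L.Formula (Fin m))),
      {φ : L.Formula (Fin m) | ∀ a : Fin m → F, (∀ ψ ∈ T, ψ.Realize a) → φ.Realize a} =
      {φ : L.Formula (Fin m) | ∀ a : Fin m → H, (∀ ψ ∈ T, ψ.Realize a) → φ.Realize a}) :
    Nonempty (L.Equiv F H) := by
  obtain ⟨y, hy⟩ := type_transfer (fun T => (h n T).symm) ι
  obtain ⟨k, hk, -⟩ := hf H hH y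
  have hki : ∀ i, k (ι i) = y i := fun i => congrFun hk i
  obtain ⟨hsrc, hinj⟩ := free_src hf
  have kinj : Function.Injective k := by
    intro z z' e
    obtain ⟨w, i, rfl⟩ := free_gen hs hf z
    obtain ⟨w', j, rfl⟩ := free_gen hs hf z'
    rw [hom_wap, hom_wap, hki, hki] at e
    rw [← realize_weq, ← hy, realize_weq]
    exact e
  have ksurj : Function.Surjective k := by
    intro c
    obtain ⟨x, hx⟩ := type_transfer (h (n + 1)) (Fin.cons c y : Fin (n + 1) → H)
    have h1 : ∀ i : Fin n, ∃ j, x i.succ = ι j := by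
      intro i
      obtain ⟨w, j, e⟩ := free_gen hs hf (x i.succ)
      cases w with
      | nil => exact ⟨j, e⟩
      | cons g w =>
        exfalso
        have a1 : (nimg g i).Realize y := by
          rw [hy, realize_nimg]; exact fun z => hsrc i g z
        have a2 : (nimg g i.succ).Realize x := by
          rw [hx, realize_nimg]
          rw [realize_nimg] at a1
          simpa using a1
        rw [realize_nimg] at a2
        exact a2 _ e.symm
    choose π hπ using h1
    have πinj : Function.Injective π := by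
      intro i j e
      have a1 : (weq [] i.succ [] j.succ).Realize x := by
        rw [realize_weq, hπ, hπ, e]
      rw [hx, realize_weq] at a1
      have a2 : (weq [] i [] j).Realize y := by
        rw [realize_weq]; simpa using a1
      rw [hy, realize_weq] at a2
      exact hinj a2
    have πsurj : Function.Surjective π := Finite.surjective_of_injective πinj
    obtain ⟨w, j, e⟩ := free_gen hs hf (x 0)
    obtain ⟨i, rfl⟩ := πsurj j
    have a1 : (weq [] 0 w i.succ).Realize x := by
      rw [realize_weq, hπ]; exact e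
    rw [hx, realize_weq] at a1
    refine ⟨wap w (ι i), ?_⟩
    rw [hom_wap, hki]
    simpa [wap] using a1.symm
  exact ⟨{ toEquiv := Equiv.ofBijective k ⟨kinj, ksurj⟩
           map_fun' := fun f x => k.map_fun f x
           map_rel' := fun r => r.elim }⟩

/-! ### the free algebra on one generator -/

inductive Rel : List Sy → List Sy → Prop
  | base (b : Bool) (n : ℕ) (w : List Sy) : Rel (.a b :: .s b n :: w) (.a (!b) :: w)
  | cons (g : Sy) (w w' : List Sy) : Rel w w' → Rel (g :: w) (g :: w')

def M : Type := Quot Rel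

def act (g : Sy) : M → M := Quot.map (List.cons g) (Rel.cons g)

instance : L.Structure M := mkStr M act

def mk (w : List Sy) : M := Quot.mk _ w

theorem ap_mk (g : Sy) (w : List Sy) : ap g (mk w) = mk (g :: w) := rfl

theorem satM : Sat M := by
  rw [sat_iff]
  intro b n x
  obtain ⟨w, rfl⟩ := Quot.exists_rep x
  exact Quot.sound (Rel.base b n w)

theorem freeM : Free 1 M (fun _ => mk []) := by
  intro N _ hN f
  have hr : ∀ w w', Rel w w' → wap w (f 0) = wap w' (f 0) := by
    intro w w' r
    induction r with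
    | base b n w => exact (sat_iff N).1 hN b n _
    | cons g w w' _ ih => exact congrArg (ap g) ih
  let ev : M → N := Quot.lift (fun w => wap w (f 0)) hr
  refine ⟨mkHom ev (fun g x => by obtain ⟨w, rfl⟩ := Quot.exists_rep x; rfl), ?_, ?_⟩
  · funext i
    fin_cases i
    rfl
  · intro k hk
    ext x
    obtain ⟨w, rfl⟩ := Quot.exists_rep x
    show k (mk w) = wap w (f 0)
    induction w with
    | nil => exact congrFun hk 0
    | cons g w ih => rw [← ap_mk, hom_ap, ih]; rfl

def Ph (c : Bool) (n : ℕ) : List Sy → List Sy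
  | [] => [.s c n]
  | .a b :: w => .a b :: Ph c n w
  | .s b m :: w =>
      if w = [] ∧ b = (!c) ∧ n ≤ m then (if m = n then [] else [.s b (m - 1), .s c n])
      else if w = [.s (!c) n] ∧ b = c ∧ n ≤ m then [.s c (m + 1)]
      else .s b m :: Ph c n w

theorem rel_shape {w w' : List Sy} (r : Rel w w') :
    w ≠ [] ∧ w' ≠ [] ∧ (∀ b m, w ≠ [.s b m]) ∧ (∀ b m, w' ≠ [.s b m]) := by
  induction r with
  | base b n w => simp
  | cons g w w' _ ih =>
    obtain ⟨h1, h2, -, -⟩ := ih
    simp [h1, h2]

theorem Ph_rel (c : Bool) (n : ℕ) {w w' : List Sy} (r : Rel w w') :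
    mk (Ph c n w) = mk (Ph c n w') := by
  induction r with
  | base b m w =>
    simp only [Ph]
    split_ifs with h1 h2 h3
    · obtain ⟨rfl, rfl, -⟩ := h1
      simp only [Ph, Bool.not_not]
      exact (Quot.sound (Rel.base c n [])).symm
    · obtain ⟨rfl, rfl, -⟩ := h1
      simp only [Ph]
      exact Quot.sound (Rel.base _ _ _)
    · obtain ⟨rfl, rfl, -⟩ := h3
      simp only [Ph, true_and, le_refl, if_true]
      exact Quot.sound (Rel.base _ _ _)
    · exact Quot.sound (Rel.base _ _ _)
  | cons g w w' r ih =>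
    obtain ⟨h1, h2, h3, h4⟩ := rel_shape r
    cases g with
    | a b =>
      simp only [Ph]
      rw [← ap_mk, ← ap_mk, ih]
    | s b m =>
      simp only [Ph, h1, h2, h3, h4, false_and, if_false]
      rw [← ap_mk, ← ap_mk, ih]

theorem Ph_Ph (c : Bool) (n : ℕ) (w : List Sy) : Ph (!c) n (Ph c n w) = w := by
  induction w with
  | nil => simp [Ph]
  | cons g w ih =>
    cases g with
    | a b => simp only [Ph, ih]
    | s b m =>
      rw [Ph]
      split_ifs with h1 h2 h3
      · obtain ⟨rfl, rfl, -⟩ := h1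
        simp [Ph, h2]
      · obtain ⟨rfl, rfl, h⟩ := h1
        have : n ≤ m - 1 := by omega
        have h5 : m - 1 + 1 = m := by omega
        simp [Ph, this, h5]
      · obtain ⟨rfl, rfl, h⟩ := h3
        have : n ≤ m + 1 := by omega
        have h5 : ¬ m + 1 = n := by omega
        simp [Ph, this, h5]
      · rw [Ph, if_neg, if_neg, ih]
        · rintro ⟨e, rfl, h⟩
          rw [e] at ih
          apply h1
          refine ⟨?_, rfl, h⟩
          rw [← ih]
          simp [Ph]
        · rintro ⟨e, rfl, h⟩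
          rw [e] at ih
          apply h3
          refine ⟨?_, by simp, h⟩
          rw [← ih]
          simp [Ph]

def Phi (c : Bool) (n : ℕ) : M → M :=
  Quot.lift (fun w => mk (Ph c n w)) (fun _ _ r => Ph_rel c n r)

theorem Phi_Phi (c : Bool) (n : ℕ) (x : M) : Phi (!c) n (Phi c n x) = x := by
  obtain ⟨w, rfl⟩ := Quot.exists_rep x
  show mk (Ph (!c) n (Ph c n w)) = mk w
  rw [Ph_Ph]

theorem Phi_bij (n : ℕ) : Function.Bijective (Phi true n) :=
  ⟨Function.LeftInverse.injective (Phi_Phi true n),
    Function.RightInverse.surjective (Phi_Phi false n)⟩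

theorem Phi_ap (g : Sy) : ∃ N, ∀ n, N ≤ n → ∀ x, Phi true n (ap g x) = ap g (Phi true n x) := by
  cases g with
  | a b =>
    refine ⟨0, fun n _ x => ?_⟩
    obtain ⟨w, rfl⟩ := Quot.exists_rep x
    rfl
  | s b m =>
    refine ⟨m + 1, fun n hn x => ?_⟩
    obtain ⟨w, rfl⟩ := Quot.exists_rep x
    show mk (Ph true n (.s b m :: w)) = mk (.s b m :: Ph true n w)
    have : ¬ n ≤ m := by omega
    simp [Ph, this]

theorem Phi_term {α : Type} (t : L.Term α) :
    ∃ N, ∀ n, N ≤ n → ∀ v : α → M, t.realize (Phi true n ∘ v) = Phi true n (t.realize v) := by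
  induction t with
  | var i => exact ⟨0, fun _ _ _ => rfl⟩
  | func f ts ih =>
    cases f with
    | mk g =>
      obtain ⟨N1, h1⟩ := ih 0
      obtain ⟨N2, h2⟩ := Phi_ap g
      refine ⟨max N1 N2, fun n hn v => ?_⟩
      show ap g ((ts 0).realize (Phi true n ∘ v)) = Phi true n (ap g ((ts 0).realize v))
      rw [h1 n (le_trans (le_max_left _ _) hn), h2 n (le_trans (le_max_right _ _) hn)]

theorem Phi_formula {α : Type} {k : ℕ} (φ : L.BoundedFormula α k) :
    ∃ N, ∀ n, N ≤ n → ∀ (v : α → M) (xs : Fin k → M),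
      φ.Realize (Phi true n ∘ v) (Phi true n ∘ xs) ↔ φ.Realize v xs := by
  induction φ with
  | falsum => exact ⟨0, fun _ _ _ _ => Iff.rfl⟩
  | equal t1 t2 =>
    obtain ⟨N1, h1⟩ := Phi_term t1
    obtain ⟨N2, h2⟩ := Phi_term t2
    refine ⟨max N1 N2, fun n hn v xs => ?_⟩
    simp only [BoundedFormula.Realize]
    rw [← Sum.comp_elim, h1 n (le_trans (le_max_left _ _) hn),
      h2 n (le_trans (le_max_right _ _) hn)]
    exact (Phi_bij n).1.eq_iff
  | rel r _ => exact r.elim
  | imp φ ψ ih1 ih2 =>
    obtain ⟨N1, h1⟩ := ih1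
    obtain ⟨N2, h2⟩ := ih2
    refine ⟨max N1 N2, fun n hn v xs => ?_⟩
    simp only [BoundedFormula.Realize]
    rw [h1 n (le_trans (le_max_left _ _) hn), h2 n (le_trans (le_max_right _ _) hn)]
  | all φ ih =>
    obtain ⟨N, h⟩ := ih
    refine ⟨N, fun n hn v xs => ?_⟩
    simp only [BoundedFormula.Realize]
    constructor
    · intro H x
      rw [← h n hn, Fin.comp_snoc]
      exact H _
    · intro H x
      obtain ⟨x, rfl⟩ := (Phi_bij n).2 x
      rw [← Fin.comp_snoc, h n hn]
      exact H _

theorem same_type (φ : L.Formula (Fin 1)) :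
    φ.Realize (fun _ => mk [.a false]) ↔ φ.Realize (fun _ => mk [.a true]) := by
  obtain ⟨N, h⟩ := Phi_formula φ
  have := h N le_rfl (fun _ => mk [.a true]) default
  unfold Formula.Realize
  rw [← this]
  have e1 : (Phi true N ∘ fun _ : Fin 1 => mk [.a true]) = fun _ => mk [.a false] := by
    funext i
    exact Quot.sound (Rel.base true N [])
  have e2 : (Phi true N ∘ (default : Fin 0 → M)) = default := Subsingleton.elim _ _
  rw [e1, e2]

theorem ne_ab : mk [.a true] ≠ mk [.a false] := by
  letI : L.Structure Bool := mkStr Bool (fun g x => match g with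
    | .a b => xor b x
    | .s _ _ => !x)
  have hS : Sat Bool := by
    rw [sat_iff]
    intro b n x
    cases b <;> cases x <;> rfl
  obtain ⟨h, hh, -⟩ := freeM Bool hS (fun _ => false)
  have h0 : h (mk []) = false := congrFun hh 0
  intro e
  have := congrArg h e
  rw [← ap_mk, ← ap_mk, hom_ap, hom_ap, h0] at this
  cases this

theorem not_conj (σ : L.Equiv M M) : σ (mk [.a true]) ≠ mk [.a false] := by
  have h0 : σ (mk []) = mk [] := by
    obtain ⟨w, hw⟩ := Quot.exists_rep (σ (mk []))
    cases w with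
    | nil => exact hw.symm
    | cons g w =>
      exfalso
      have e : ap g (mk w) = σ (mk []) := hw
      have e2 := congrArg σ.symm.toHom e
      rw [hom_ap] at e2
      exact (free_src freeM).1 0 g _ (by simpa using e2)
  have : σ (mk [.a true]) = mk [.a true] := by
    have := hom_ap σ.toHom (.a true) (mk [])
    rw [ap_mk] at this
    simp only [Equiv.coe_toHom] at this
    rw [this, h0]; rfl
  rw [this]
  exact ne_ab

end Pool.Agent.H76.RegPerf
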