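import Mathlib

namespace Pool.Agent.H76.RpA

open Multiset

def nz (M : Multiset ℕ) : Multiset ℕ := M.filter (0 < ·)

def ad (p : ℕ × ℕ) : ℕ := p.1 + p.2

theorem ad_mk (x y : ℕ) : ad (x, y) = x + y := rfl

theorem sum_ad (P : Multiset (ℕ × ℕ)) :
    (P.map ad).sum = (P.map Prod.fst).sum + (P.map Prod.snd).sum := by
  rw [← sum_map_add]; rfl

def Q (c : ℕ) (M : Multiset ℕ) : Prop :=
  c + M.sum = 1 ∨ ((1 ≤ c ∨ card (nz M) = 1) ∧ ∀ a, 1 ≤ a → a < c + M.sum →
    ∃ c1 c2 : ℕ, ∃ P : Multiset (ℕ × ℕ), c1 + c2 = c ∧ P.map ad = M ∧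
      c1 + (P.map Prod.fst).sum = a ∧
      (∀ _h : c1 + (P.map Prod.fst).sum < c + M.sum, Q c1 (P.map Prod.fst)) ∧
      (∀ _h : c2 + (P.map Prod.snd).sum < c + M.sum, Q c2 (P.map Prod.snd)))
termination_by c + M.sum

theorem nz_cons (x : ℕ) (M : Multiset ℕ) : nz (x ::ₘ M) = if 0 < x then x ::ₘ nz M else nz M := by
  unfold nz
  split_ifs with h
  · exact filter_cons_of_pos _ h
  · exact filter_cons_of_neg _ h

theorem nz_sum (M : Multiset ℕ) : (nz M).sum = M.sum := by
  induction M using Multiset.induction_on with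
  | empty => rfl
  | cons x M ih => rw [nz_cons]; split_ifs with h <;> simp [ih]; omega

theorem nz_pos {M : Multiset ℕ} : ∀ x ∈ nz M, 0 < x := fun _ h => (mem_filter.1 h).2

theorem card_le_sum (M : Multiset ℕ) (h : ∀ x ∈ M, 0 < x) : card M ≤ M.sum := by
  simpa using card_nsmul_le_sum (s := M) (a := 1) h

theorem Q_split {c : ℕ} {M : Multiset ℕ} (h : Q c M) {a : ℕ} (h1 : 1 ≤ a) (h2 : a < c + M.sum) :
    ∃ c1 c2 : ℕ, ∃ P : Multiset (ℕ × ℕ), c1 + c2 = c ∧ P.map ad = M ∧
      c1 + (P.map Prod.fst).sum = a ∧ Q c1 (P.map Prod.fst) ∧ Q c2 (P.map Prod.snd) := by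
  rw [Q] at h
  rcases h with h | ⟨-, h⟩
  · omega
  obtain ⟨c1, c2, P, a1, a2, a3, a4, a5⟩ := h a h1 h2
  have := sum_ad P
  rw [a2] at this
  exact ⟨c1, c2, P, a1, a2, a3, a4 (by omega), a5 (by omega)⟩

theorem Q_conn {c : ℕ} {M : Multiset ℕ} (h : Q c M) : 1 ≤ c ∨ card (nz M) = 1 := by
  rw [Q] at h
  rcases h with h | ⟨h, -⟩
  · by_cases hc : 1 ≤ c
    · exact Or.inl hc
    right
    have a1 := card_le_sum _ (nz_pos (M := M))
    have a2 := nz_sum M
    have : card (nz M) ≠ 0 := fun h0 => by rw [card_eq_zero.1 h0] at a2; simp at a2; omega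
    omega
  · exact h

theorem Q_intro {c : ℕ} {M : Multiset ℕ} (h0 : 1 ≤ c ∨ card (nz M) = 1)
    (h : ∀ a, 1 ≤ a → 2 * a ≤ c + M.sum → ∃ c1 c2 : ℕ, ∃ P : Multiset (ℕ × ℕ), c1 + c2 = c ∧
      P.map ad = M ∧ c1 + (P.map Prod.fst).sum = a ∧ Q c1 (P.map Prod.fst) ∧
        Q c2 (P.map Prod.snd)) : Q c M := by
  rw [Q]
  refine Or.inr ⟨h0, fun a h1 h2 => ?_⟩
  by_cases ha : 2 * a ≤ c + M.sum
  · obtain ⟨c1, c2, P, a1, a2, a3, a4, a5⟩ := h a h1 ha
    exact ⟨c1, c2, P, a1, a2, a3, fun _ => a4, fun _ => a5⟩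
  · obtain ⟨c1, c2, P, a1, a2, a3, a4, a5⟩ := h (c + M.sum - a) (by omega) (by omega)
    have := sum_ad P
    rw [a2] at this
    have e1 : (P.map Prod.swap).map Prod.fst = P.map Prod.snd := by rw [map_map]; rfl
    have e2 : (P.map Prod.swap).map Prod.snd = P.map Prod.fst := by rw [map_map]; rfl
    refine ⟨c2, c1, P.map Prod.swap, by omega, ?_, by rw [e1]; omega, fun _ => by rwa [e1],
      fun _ => by rwa [e2]⟩
    rw [map_map, ← a2]
    exact map_congr rfl fun p _ => by simp [ad, add_comm]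

theorem triv_split (M : Multiset ℕ) : ∀ c a, card (nz M) ≤ c + 1 → a ≤ c + M.sum →
    ∃ c1 c2 : ℕ, ∃ P : Multiset (ℕ × ℕ), c1 + c2 = c ∧ P.map ad = M ∧
      c1 + (P.map Prod.fst).sum = a ∧ card (nz (P.map Prod.fst)) ≤ c1 + 1 ∧
        card (nz (P.map Prod.snd)) ≤ c2 + 1 := by
  induction M using Multiset.induction_on with
  | empty => exact fun c a _ h => ⟨a, c - a, 0, by simp at h; omega, rfl, by simp, by simp [nz],
      by simp [nz]⟩
  | cons x M ih =>
    intro c a h1 h2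
    rw [nz_cons] at h1
    rw [sum_cons] at h2
    by_cases hx : 0 < x
    · rw [if_pos hx, card_cons] at h1
      by_cases ha : a ≤ x
      · refine ⟨0, c, (a, x - a) ::ₘ M.map (fun y => (0, y)), by omega, ?_, ?_, ?_, ?_⟩
        · simp [ad]; omega
        · simp
        · simp only [map_cons, map_map, Function.comp_def, nz_cons]
          have : nz (M.map fun _ => 0) = 0 := filter_eq_nil.2 fun a ha => by
            obtain ⟨_, _, rfl⟩ := mem_map.1 ha; simp
          rw [this]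
          split_ifs <;> simp
        · simp only [map_cons, map_map, Function.comp_def, nz_cons, map_id']
          split_ifs
          · rw [card_cons]; omega
          · omega
      · have hc : 1 ≤ c := by
          by_contra hc
          have a2 := nz_sum M
          rw [card_eq_zero.1 (show card (nz M) = 0 by omega)] at a2
          simp at a2; omega
        obtain ⟨c1, c2, P, a1, a2, a3, a4, a5⟩ := ih (c - 1) (a - x - 1) (by omega) (by omega)
        refine ⟨c1 + 1, c2, (x, 0) ::ₘ P, by omega, by simp [ad_mk, a2], by simp; omega, ?_, ?_⟩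
        · simp only [map_cons, nz_cons, if_pos hx, card_cons]; omega
        · simpa [nz_cons] using a5
    · rw [if_neg hx] at h1
      obtain ⟨c1, c2, P, a1, a2, a3, a4, a5⟩ := ih c a h1 (by omega)
      refine ⟨c1, c2, (0, 0) ::ₘ P, a1, by simp [ad_mk, a2]; omega, by simpa using a3,
        by simpa [nz_cons] using a4, by simpa [nz_cons] using a5⟩

theorem triv : ∀ n c (M : Multiset ℕ), c + M.sum = n → 1 ≤ n → card (nz M) ≤ c + 1 → Q c M := by
  intro n
  induction n using Nat.strong_induction_on with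
  | _ n ih =>
    intro c M hn h1 h2
    apply Q_intro
    · by_cases hc : 1 ≤ c
      · exact Or.inl hc
      have a2 := nz_sum M
      have : card (nz M) ≠ 0 := fun h0 => by rw [card_eq_zero.1 h0] at a2; simp at a2; omega
      omega
    · intro a ha hb
      obtain ⟨c1, c2, P, a1, a2, a3, a4, a5⟩ := triv_split M c a h2 (by omega)
      have := sum_ad P
      rw [a2] at this
      exact ⟨c1, c2, P, a1, a2, a3, ih _ (by omega) _ _ rfl (by omega) a4,
        ih _ (by omega) _ _ rfl (by omega) a5⟩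

theorem nz_ad (P : Multiset (ℕ × ℕ)) :
    card (nz (P.map ad)) ≤ card (nz (P.map Prod.fst)) + card (nz (P.map Prod.snd)) ∧
    (card (nz (P.map ad)) = card (nz (P.map Prod.fst)) + card (nz (P.map Prod.snd)) →
      nz (P.map ad) = nz (P.map Prod.fst) + nz (P.map Prod.snd)) := by
  induction P using Multiset.induction_on with
  | empty => simp [nz]
  | cons p P ih =>
    obtain ⟨x, y⟩ := p
    simp only [map_cons, nz_cons, ad_mk]
    rcases Nat.eq_zero_or_pos x with rfl | hx <;> rcases Nat.eq_zero_or_pos y with rfl | hy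
    · simpa using ih
    · simp only [zero_add, hy, if_true, lt_self_iff_false, if_false, card_cons]
      exact ⟨by omega, fun h => by rw [ih.2 (by omega), add_cons]⟩
    · simp only [add_zero, hx, if_true, lt_self_iff_false, if_false, card_cons]
      exact ⟨by omega, fun h => by rw [ih.2 (by omega), cons_add]⟩
    · simp only [hx, hy, show 0 < x + y by omega, if_true, card_cons]
      exact ⟨by omega, fun h => by omega⟩

def Red (M : Multiset ℕ) (a : ℕ) (M' : Multiset ℕ) : Prop :=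
  ∃ x R, M = x ::ₘ R ∧ ((a = x ∧ M' = R) ∨ (a < x ∧ M' = (x - a) ::ₘ R))

theorem red_fst (P : Multiset (ℕ × ℕ)) (h : card (nz (P.map Prod.fst)) = 1) :
    Red (nz (P.map ad)) (P.map Prod.fst).sum (nz (P.map Prod.snd)) := by
  obtain ⟨a, ha⟩ := card_eq_one.1 h
  have h1 : a ∈ nz (P.map Prod.fst) := by rw [ha]; simp
  have h2 := nz_pos a h1
  obtain ⟨⟨a', y⟩, hp, rfl⟩ := mem_map.1 (mem_filter.1 h1).1
  obtain ⟨P', rfl⟩ := exists_cons_of_mem hp
  rw [← nz_sum (map Prod.fst _), ha]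
  simp only [map_cons, nz_cons, if_pos h2] at ha
  have h3 : nz (P'.map Prod.fst) = 0 := by
    rw [← cons_zero] at ha; exact (cons_inj_right _).1 ha
  have h4 : P'.map ad = P'.map Prod.snd := map_congr rfl fun p hp => by
    have := filter_eq_nil.1 h3 p.1 (mem_map_of_mem _ hp)
    simp only [ad]; omega
  simp only at h2
  refine ⟨a' + y, nz (P'.map Prod.snd), ?_, ?_⟩
  · simp only [map_cons, nz_cons, ad_mk, h4, if_pos (show 0 < a' + y by omega)]
  · simp only [map_cons, nz_cons, sum_singleton]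
    split_ifs with hy
    · right; exact ⟨by omega, by simp⟩
    · left; exact ⟨by omega, rfl⟩

def N (c : ℕ) (M : Multiset ℕ) : Prop := ∃ M0, Q c M0 ∧ nz M0 = M

theorem N_pos {c : ℕ} {M : Multiset ℕ} (h : N c M) : ∀ x ∈ M, 0 < x := by
  obtain ⟨M0, -, rfl⟩ := h
  exact nz_pos

theorem N_split {c : ℕ} {M : Multiset ℕ} (h : N c M) {a : ℕ} (h1 : 1 ≤ a) (h2 : a < c + M.sum) :
    (∃ M', Red M a M' ∧ N c M') ∨ (∃ M', Red M (c + M.sum - a) M' ∧ N c M') ∨
    ∃ c1 c2 M1 M2, 1 ≤ c1 ∧ 1 ≤ c2 ∧ c1 + c2 = c ∧ N c1 M1 ∧ N c2 M2 ∧ c1 + M1.sum = a ∧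
      M.sum = M1.sum + M2.sum ∧
      card M ≤ card M1 + card M2 ∧ (card M = card M1 + card M2 → M = M1 + M2) := by
  obtain ⟨M0, hQ, rfl⟩ := h
  rw [nz_sum] at h2 ⊢
  obtain ⟨c1, c2, P, rfl, rfl, a3, a4, a5⟩ := Q_split hQ h1 h2
  have hs := sum_ad P
  rcases Nat.eq_zero_or_pos c1 with rfl | h3
  · left
    have := red_fst P ((Q_conn a4).resolve_left (by omega))
    rw [zero_add] at a3 ⊢
    exact ⟨_, a3 ▸ this, _, a5, rfl⟩
  rcases Nat.eq_zero_or_pos c2 with rfl | h4
  · right; left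
    have e1 : (P.map Prod.swap).map Prod.fst = P.map Prod.snd := by rw [map_map]; rfl
    have e2 : (P.map Prod.swap).map Prod.snd = P.map Prod.fst := by rw [map_map]; rfl
    have e3 : (P.map Prod.swap).map ad = P.map ad := by
      rw [map_map]
      exact map_congr rfl fun p _ => by simp [ad, add_comm]
    have := red_fst (P.map Prod.swap) (by rw [e1]; exact (Q_conn a5).resolve_left (by omega))
    rw [e1, e2, e3] at this
    rw [show c1 + 0 + (map ad P).sum - a = (P.map Prod.snd).sum by omega]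
    exact ⟨_, this, _, a4, rfl⟩
  · right; right
    exact ⟨c1, c2, _, _, h3, h4, rfl, ⟨_, a4, rfl⟩, ⟨_, a5, rfl⟩, by rwa [nz_sum],
      by rwa [nz_sum, nz_sum], (nz_ad P).1, (nz_ad P).2⟩

end Pool.Agent.H76.RpA
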