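import Mathlib
import Pool.Agent.H76.RpA

namespace Pool.Agent.H76.RpB

open Multiset Pool.Agent.H76.RpA

theorem big {c : ℕ} {M : Multiset ℕ} (h : N c M) {x : ℕ} (hx : x ∈ M) :
    x + card M ≤ M.sum + 1 := by
  obtain ⟨R, rfl⟩ := exists_cons_of_mem hx
  have := card_le_sum R fun y hy => N_pos h y (mem_cons_of_mem hy)
  simp; omega

theorem red_cases {M M' : Multiset ℕ} {a : ℕ} (h : Red M a M') :
    (a ∈ M ∧ card M' + 1 = card M) ∨
      (card M' = card M ∧ M'.sum + a = M.sum ∧ ∃ x R, M = x ::ₘ R ∧ a < x ∧ M' = (x - a) ::ₘ R) := by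
  obtain ⟨x, R, rfl, ⟨rfl, rfl⟩ | ⟨h, rfl⟩⟩ := h
  · left; simp
  · right; exact ⟨by simp, by simp; omega, x, R, rfl, h, rfl⟩

theorem red_sum {M M' : Multiset ℕ} {a : ℕ} (h : Red M a M') : M'.sum + a = M.sum := by
  obtain ⟨x, R, rfl, ⟨rfl, rfl⟩ | ⟨h, rfl⟩⟩ := h <;> simp <;> omega

theorem red_mem {c : ℕ} {M : Multiset ℕ} {a k : ℕ}
    (ih : ∀ M', M'.sum < M.sum → N c M' → card M' ≤ k) (hk : k < card M) (ha : 1 ≤ a)
    (h : ∃ M', Red M a M' ∧ N c M') : a ∈ M ∧ card M = k + 1 := by
  obtain ⟨M', h1, h2⟩ := h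
  have := ih M' (by have := red_sum h1; omega) h2
  rcases red_cases h1 with h | h
  · exact ⟨h.1, by omega⟩
  · omega

theorem ext_sub {M : Multiset ℕ} (l : List ℕ) (hl : l.Nodup) (h : ∀ x ∈ l, x ∈ M) :
    ∃ R, M = (l : Multiset ℕ) + R :=
  Multiset.le_iff_exists_add.1 ((le_iff_subset (coe_nodup.2 hl)).2 fun x hx => h x (mem_coe.1 hx))

theorem one_le : ∀ n (M : Multiset ℕ), M.sum = n → N 1 M → card M ≤ 3 := by
  intro n
  induction n using Nat.strong_induction_on with
  | _ n ih =>
    intro M hn h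
    by_contra hc
    have ih' : ∀ M', M'.sum < M.sum → N 1 M' → card M' ≤ 3 := fun M' h1 h2 =>
      ih _ (hn ▸ h1) M' rfl h2
    have key : ∀ a, 1 ≤ a → a < 1 + M.sum → (a ∈ M ∨ 1 + M.sum - a ∈ M) ∧ card M = 4 := by
      intro a h1 h2
      rcases N_split h h1 h2 with h3 | h3 | ⟨c1, c2, _, _, a1, a2, a3, -⟩
      · have := red_mem ih' (by omega) h1 h3
        exact ⟨Or.inl this.1, this.2⟩
      · have := red_mem ih' (by omega) (by omega) h3
        exact ⟨Or.inr this.1, this.2⟩
      · omega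
    have hs := card_le_sum M (N_pos h)
    have k4 := (key 1 le_rfl (by omega)).2
    have k2 : ∀ a, 1 ≤ a → a ≤ 3 → a ∈ M := fun a h1 h2 =>
      (key a h1 (by omega)).1.resolve_right fun h3 => by have := big h h3; omega
    obtain ⟨R, hR⟩ := ext_sub (M := M) [1, 2, 3] (by decide) (by
      simp only [List.mem_cons, List.not_mem_nil, or_false]
      rintro x (rfl | rfl | rfl) <;> exact k2 _ (by omega) (by omega))
    obtain ⟨x, rfl⟩ := card_eq_one.1 (show card R = 1 by rw [hR] at k4; simp at k4; omega)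
    have hx : 0 < x := N_pos h x (by simp [hR])
    have e : M.sum = 6 + x := by simp [hR]
    have m : ∀ y ∈ M, y ≤ 3 ∨ y = x := by
      intro y hy
      simp [hR] at hy
      omega
    have a4 := (key 4 (by omega) (by omega)).1
    have a5 := (key 5 (by omega) (by omega)).1
    rcases a4 with a4 | a4 <;> rcases a5 with a5 | a5 <;> have := m _ a4 <;> have := m _ a5 <;>
      omega

def force (n : ℕ) (k : ℕ → Bool) : Bool := Nat.casesOn n (k 0) (fun n => k (n + 1))

theorem force_eq (n : ℕ) (k : ℕ → Bool) : force n k = k n := by cases n <;> rfl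

def c0 (lo mid hi : ℕ) : Bool :=
  lo == 0 || (lo == 1 && (((mid == 1 || mid == 3) && hi % 2 == 0) || (mid == 2 && hi % 3 != 2) ||
    (mid == 4 && [5, 6, 8, 10, 13, 18].elem hi) || (mid == 5 && hi == 6) ||
    (mid == 6 && [7, 8, 10, 12, 14].elem hi))) || (lo == 2 && mid == 4 && hi == 6)

def c1 (x y z : ℕ) : Bool :=
  force x fun x => force (min x (min y z)) fun lo => lo.ble 2 && force (max x (max y z)) fun hi =>
    force (x + y + z - lo - hi) fun mid => c0 lo mid hi

theorem c1_12 (x y z : ℕ) : c1 x y z = c1 y x z := by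
  simp only [c1, force_eq]; congr 2 <;> omega

theorem c1_23 (x y z : ℕ) : c1 x y z = c1 x z y := by
  simp only [c1, force_eq]; congr 2 <;> omega

def ex (p : ℕ → Bool) : ℕ → ℕ → Bool
  | 0, _ => false
  | f + 1, a => p a || ex p f (a + 1)

theorem ex_spec (p : ℕ → Bool) : ∀ f a, ex p f a = true → ∃ b, a ≤ b ∧ p b = true
  | 0, _, h => by simp [ex] at h
  | f + 1, a, h => by
    simp only [ex, Bool.or_eq_true] at h
    rcases h with h | h
    · exact ⟨a, le_rfl, h⟩
    · obtain ⟨b, h1, h2⟩ := ex_spec p f _ h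
      exact ⟨b, by omega, h2⟩

def cv3 (x y z s : ℕ) : Bool :=
  (decide (s ≤ x) && c1 (x - s) y z) || (decide (s ≤ y) && c1 (y - s) x z) ||
    (decide (s ≤ z) && c1 (z - s) x y)

def ok3 (x y z : ℕ) : Bool := c1 x y z ||
  ex (fun a => force a fun a => decide (2 * a ≤ 1 + x + y + z) && !cv3 x y z a && !cv3 x y z (1 + x + y + z - a)) 90 1

theorem c1_lo {x y z : ℕ} (h : c1 x y z = true) : x ≤ 2 ∨ y ≤ 2 ∨ z ≤ 2 := by
  simp only [c1, force_eq, Bool.and_eq_true, Nat.ble_eq] at h
  omega

theorem chk3 : ((List.range 4).all fun x => (List.range ((170 - 3 * x) / 2 + 1)).all fun j =>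
    force (x + j) fun y => (List.range (170 - 3 * x - 2 * j)).all fun k =>
      force (y + k) fun z => ok3 x y z) = true := by
  decide +kernel

theorem trip {u x y z : ℕ} {R : Multiset ℕ} (h : ({x, y, z} : Multiset ℕ) = u ::ₘ R) :
    (u = x ∧ R = {y, z}) ∨ (u = y ∧ R = {x, z}) ∨ (u = z ∧ R = {x, y}) := by
  have : u ∈ ({x, y, z} : Multiset ℕ) := by rw [h]; simp
  simp only [insert_eq_cons, mem_cons, mem_singleton] at this h ⊢
  rcases this with rfl | rfl | rfl
  · exact Or.inl ⟨rfl, ((cons_inj_right _).1 h).symm⟩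
  · rw [cons_swap] at h
    exact Or.inr (Or.inl ⟨rfl, ((cons_inj_right _).1 h).symm⟩)
  · rw [← cons_zero, cons_swap y, cons_swap x] at h
    exact Or.inr (Or.inr ⟨rfl, ((cons_inj_right _).1 h).symm⟩)

theorem tri : ∀ n x y z : ℕ, x + y + z = n → n ≤ 169 → N 1 {x, y, z} → c1 x y z = true := by
  intro n
  induction n using Nat.strong_induction_on with
  | _ n ih =>
    have main : ∀ x y z : ℕ, x ≤ y → y ≤ z → x + y + z = n → n ≤ 169 → N 1 {x, y, z} →
        c1 x y z = true := by
      intro x y z h1 h2 hn hb h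
      have z0 : ∀ y z, c1 0 y z = true := fun y z => by simp [c1, c0, force_eq]
      have key : ∀ s, 1 ≤ s → (∃ M', Red {x, y, z} s M' ∧ N 1 M') → cv3 x y z s = true := by
        rintro s hs ⟨M', ⟨u, R, e, hr⟩, hN⟩
        simp only [cv3, Bool.or_eq_true, Bool.and_eq_true, decide_eq_true_eq]
        rcases trip e with ⟨rfl, rfl⟩ | ⟨rfl, rfl⟩ | ⟨rfl, rfl⟩ <;>
          rcases hr with ⟨rfl, -⟩ | ⟨hr, rfl⟩
        · simp [z0]
        · exact Or.inl (Or.inl ⟨hr.le, ih _ (by omega) _ _ _ rfl (by omega) hN⟩)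
        · simp [z0]
        · exact Or.inl (Or.inr ⟨hr.le, ih _ (by omega) _ _ _ rfl (by omega) hN⟩)
        · simp [z0]
        · exact Or.inr ⟨hr.le, ih _ (by omega) _ _ _ rfl (by omega) hN⟩
      have e : ({x, y, z} : Multiset ℕ).sum = x + y + z := by simp [add_assoc]
      have hx : x < 4 := by
        by_contra hx
        rcases N_split h le_rfl (by omega) with h3 | h3 | ⟨c1, c2, _, _, a1, a2, a3, -⟩
        · have := key 1 le_rfl h3
          simp only [cv3, Bool.or_eq_true, Bool.and_eq_true] at this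
          rcases this with (⟨-, h4⟩ | ⟨-, h4⟩) | ⟨-, h4⟩ <;> have := c1_lo h4 <;> omega
        · have := key _ (by omega) h3
          simp only [cv3, Bool.or_eq_true, Bool.and_eq_true, decide_eq_true_eq] at this
          omega
        · omega
      have := chk3
      simp only [List.all_eq_true, List.mem_range, force_eq] at this
      have := this x (by omega) (y - x) (by omega) (z - y) (by omega)
      rw [show x + (y - x) = y by omega, show y + (z - y) = z by omega, ok3,
        Bool.or_eq_true] at this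
      refine this.resolve_right fun he => ?_
      obtain ⟨a, ha, he⟩ := ex_spec _ _ _ he
      simp only [force_eq, Bool.and_eq_true, decide_eq_true_eq, Bool.not_eq_true'] at he
      rcases N_split h ha (by omega) with h3 | h3 | ⟨c1, c2, _, _, a1, a2, a3, -⟩
      · rw [key a ha h3] at he; simp at he
      · rw [e, ← add_assoc, ← add_assoc] at h3
        rw [key _ (by omega) h3] at he; simp at he
      · omega
    intro x y z hn hb h
    have s1 : ∀ x y z : ℕ, ({x, y, z} : Multiset ℕ) = {y, x, z} := fun x y z => cons_swap _ _ _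
    have s2 : ∀ x y z : ℕ, ({x, y, z} : Multiset ℕ) = {x, z, y} := fun x y z => by
      rw [pair_comm y z]
    rcases le_total x y with h1 | h1 <;> rcases le_total y z with h2 | h2 <;>
      rcases le_total x z with h3 | h3
    · exact main x y z h1 h2 hn hb h
    · exact main x y z h1 h2 hn hb h
    · rw [c1_23]; exact main x z y h3 h2 (by omega) hb (s2 _ _ _ ▸ h)
    · rw [c1_23, c1_12]; exact main z x y h3 h1 (by omega) hb (s1 _ _ _ ▸ s2 _ _ _ ▸ h)
    · rw [c1_12]; exact main y x z h1 h3 (by omega) hb (s1 _ _ _ ▸ h)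
    · rw [c1_12, c1_23]; exact main y z x h2 h3 (by omega) hb (s2 _ _ _ ▸ s1 _ _ _ ▸ h)
    · rw [c1_12]; exact main y x z h1 h3 (by omega) hb (s1 _ _ _ ▸ h)
    · rw [c1_12, c1_23, c1_12]
      exact main z y x h2 h1 (by omega) hb (s1 _ _ _ ▸ s2 _ _ _ ▸ s1 _ _ _ ▸ h)

theorem small {M : Multiset ℕ} (h : N 1 M) (h3 : card M = 3) (h5 : M.sum ≤ 5) : M = {1, 1, 2} := by
  obtain ⟨x, y, z, rfl⟩ := card_eq_three.1 h3
  have e : ({x, y, z} : Multiset ℕ).sum = x + y + z := by simp [add_assoc]
  have := tri _ x y z rfl (by omega) h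
  have a1 := N_pos h x (by simp)
  have a2 := N_pos h y (by simp)
  have a3 := N_pos h z (by simp)
  rw [e] at h5
  clear h h3 e
  have b1 : x < 4 := by omega
  have b2 : y < 4 := by omega
  have b3 : z < 4 := by omega
  interval_cases x <;> interval_cases y <;> interval_cases z <;>
    first | omega | (revert this; decide)

def cL : List ℕ → Bool
  | [x, y, z] => c1 x y z
  | _ => false

def cov (l : List ℕ) : List ℕ := l ++ ((l.sublistsLen 3).filter cL).map fun t => 1 + t.sum

theorem mem_sub {l : List ℕ} {M : Multiset ℕ} (h : M ≤ l) (h3 : card M = 3) :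
    ∃ t ∈ l.sublistsLen 3, (t : Multiset ℕ) = M := by
  have := mem_powersetCard.2 ⟨h, h3⟩
  rw [powersetCard_coe] at this
  simpa using this

theorem mem_cov {l : List ℕ} {M : Multiset ℕ} (h : M ≤ l) (h3 : card M = 3) (hN : N 1 M)
    (hb : M.sum ≤ 169) : 1 + M.sum ∈ cov l := by
  obtain ⟨t, ht, rfl⟩ := mem_sub h h3
  refine List.mem_append_right _ (List.mem_map.2 ⟨t, List.mem_filter.2 ⟨ht, ?_⟩, by simp⟩)
  obtain ⟨x, y, z, rfl⟩ := List.length_eq_three.1 (show t.length = 3 by simpa using h3)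
  exact tri _ x y z rfl (by simp at hb; omega) hN

theorem five_or {M : Multiset ℕ} {l : List ℕ} {R : Multiset ℕ} (hR : M = (l : Multiset ℕ) + R)
    (h5 : 5 ∉ l) (h1 : l.count 1 = 1) (h : 5 ∈ M ∨ {1, 1, 2} ≤ M) :
    ∃ w R', (w = 1 ∨ w = 5) ∧ R = w ::ₘ R' := by
  rcases h with h | h
  · rw [hR, mem_add, mem_coe] at h
    obtain ⟨R', e⟩ := exists_cons_of_mem (h.resolve_left h5)
    exact ⟨5, R', Or.inr rfl, e⟩
  · have := count_le_of_le 1 h
    rw [hR, count_add, coe_count, h1] at this
    have h2 : count 1 ({1, 1, 2} : Multiset ℕ) = 2 := by decide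
    obtain ⟨R', e⟩ := exists_cons_of_mem (count_pos.1 (show 0 < count 1 R by omega))
    exact ⟨1, R', Or.inl rfl, e⟩

theorem two_le : ∀ n (M : Multiset ℕ), M.sum = n → N 2 M → card M ≤ 5 := by
  intro n
  induction n using Nat.strong_induction_on with
  | _ n ih =>
    intro M hn h
    by_contra hc
    have ih' : ∀ M', M'.sum < M.sum → N 2 M' → card M' ≤ 5 := fun M' h1 h2 =>
      ih _ (hn ▸ h1) M' rfl h2
    have key : ∀ a, 1 ≤ a → a < 2 + M.sum → card M = 6 ∧ (a ∈ M ∨ 2 + M.sum - a ∈ M ∨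
        ∃ M1 M2, M = M1 + M2 ∧ card M1 = 3 ∧ card M2 = 3 ∧ N 1 M1 ∧ N 1 M2 ∧ 1 + M1.sum = a) := by
      intro a h1 h2
      rcases N_split h h1 h2 with h3 | h3 | ⟨c1, c2, M1, M2, a1, a2, a3, a4, a5, a6, -, a8, a9⟩
      · have := red_mem ih' (by omega) h1 h3
        exact ⟨this.2, Or.inl this.1⟩
      · have := red_mem ih' (by omega) (by omega) h3
        exact ⟨this.2, Or.inr (Or.inl this.1)⟩
      · obtain rfl : c1 = 1 := by omega
        obtain rfl : c2 = 1 := by omega
        have b1 := one_le _ _ rfl a4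
        have b2 := one_le _ _ rfl a5
        exact ⟨by omega, Or.inr (Or.inr ⟨M1, M2, a9 (by omega), by omega, by omega, a4, a5, a6⟩)⟩
    have hs := card_le_sum M (N_pos h)
    have k4 := (key 1 le_rfl (by omega)).1
    have k2 : ∀ a, 1 ≤ a → a ≤ 6 → a ∈ M ∨ (a = 5 ∧ {1, 1, 2} ≤ M) := by
      intro a h1 h2
      rcases (key a h1 (by omega)).2 with h3 | h3 | ⟨M1, M2, e, b1, -, b3, -, b5⟩
      · exact Or.inl h3
      · have := big h h3; omega
      · have := small b3 b1 (by omega)
        subst this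
        exact Or.inr ⟨by simpa using b5.symm, e ▸ le_add_right _ _⟩
    obtain ⟨R, hR⟩ := ext_sub (M := M) [1, 2, 3, 4, 6] (by decide) (by
      simp only [List.mem_cons, List.not_mem_nil, or_false]
      rintro x (rfl | rfl | rfl | rfl | rfl) <;>
        exact (k2 _ (by omega) (by omega)).resolve_right (by omega))
    obtain ⟨w, R', hw, rfl⟩ := five_or hR (by decide) (by decide)
      ((k2 5 (by omega) (by omega)).imp id And.right)
    obtain rfl : R' = 0 := card_eq_zero.1 (by rw [hR] at k4; simp at k4; simp [k4])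
    have fin : ∀ l : List ℕ, M = l → ∀ a, 1 ≤ a → a < 2 + l.sum → a ∉ l → 2 + l.sum - a ∉ l →
        (∀ t ∈ l.sublistsLen 3, cL t = true → 1 + t.sum = a →
          ∀ u ∈ l.sublistsLen 3, cL u = true → (l : Multiset ℕ) ≠ t + u) → l.sum ≤ 100 →
        False := by
      rintro l rfl a h1 h2 h3 h4 h5 h6
      rcases (key a h1 (by simpa using h2)).2 with h7 | h7 | ⟨M1, M2, e, b1, b2, b3, b4, b5⟩
      · exact h3 (by simpa using h7)
      · exact h4 (by simpa using h7)
      · have e2 := congrArg Multiset.sum e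
        rw [sum_add, sum_coe] at e2
        obtain ⟨t, ht, rfl⟩ := mem_sub (e ▸ le_add_right M1 M2 : M1 ≤ l) b1
        obtain ⟨u, hu, rfl⟩ := mem_sub (e ▸ le_add_left M2 t : M2 ≤ l) b2
        obtain ⟨x, y, z, rfl⟩ := List.length_eq_three.1 (show t.length = 3 by simpa using b1)
        obtain ⟨x', y', z', rfl⟩ := List.length_eq_three.1 (show u.length = 3 by simpa using b2)
        simp at e2
        exact h5 _ ht (tri _ x y z rfl (by omega) b3) (by simpa using b5) _ hu
          (tri _ x' y' z' rfl (by omega) b4) e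
    rcases hw with rfl | rfl
    · exact fin [1, 2, 3, 4, 6, 1] hR 5 (by decide) (by decide) (by decide) (by decide) (by decide)
        (by decide)
    · exact fin [1, 2, 3, 4, 6, 5] hR 7 (by decide) (by decide) (by decide) (by decide) (by decide)
        (by decide)

end Pool.Agent.H76.RpB
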