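import Mathlib
import Pool.Agent.H76.RpB

namespace Pool.Agent.H76.RpC

open Multiset Pool.Agent.H76.RpA Pool.Agent.H76.RpB

def T : List (List ℕ) := [[1, 1, 1, 1, 2, 3, 4, 6], [1, 1, 1, 2, 2, 3, 4, 6], [1, 1, 1, 2, 3, 3, 4, 6], [1, 1, 2, 2, 2, 3, 4, 6], [1, 1, 2, 2, 3, 3, 4, 6], [1, 1, 1, 2, 3, 4, 4, 6], [1, 1, 2, 2, 3, 4, 4, 6], [1, 1, 2, 3, 3, 3, 4, 6], [1, 1, 1, 2, 3, 4, 5, 6], [1, 1, 1, 2, 3, 4, 6, 6], [1, 1, 2, 2, 3, 4, 5, 6], [1, 1, 2, 3, 3, 4, 4, 6], [1, 1, 1, 2, 3, 4, 6, 8], [1, 1, 2, 2, 3, 4, 6, 7], [1, 1, 2, 3, 3, 4, 6, 8], [1, 1, 1, 2, 3, 4, 6, 10], [1, 1, 2, 2, 3, 4, 6, 10], [1, 1, 2, 3, 3, 4, 6, 10], [1, 1, 2, 2, 3, 4, 6, 12], [1, 1, 2, 3, 4, 5, 6, 10], [1, 1, 1, 2, 3, 4, 6, 16], [1, 1, 2, 2, 3, 4, 6, 16], [1, 1, 2, 3, 3, 4, 6, 18], [1, 1, 1, 2, 3, 4, 6, 20]]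

def T2 : List (ℕ × List ℕ) := [(19, [1, 1, 1, 1, 2, 3, 4, 6]), (20, [1, 1, 1, 2, 2, 3, 4, 6]), (21, [1, 1, 1, 2, 3, 3, 4, 6]), (21, [1, 1, 2, 2, 2, 3, 4, 6]), (22, [1, 1, 2, 2, 3, 3, 4, 6]), (22, [1, 1, 1, 2, 3, 4, 4, 6]), (23, [1, 1, 2, 2, 3, 4, 4, 6]), (23, [1, 1, 2, 3, 3, 3, 4, 6]), (23, [1, 1, 1, 2, 3, 4, 5, 6]), (24, [1, 1, 1, 2, 3, 4, 6, 6]), (24, [1, 1, 2, 2, 3, 4, 5, 6]), (24, [1, 1, 2, 3, 3, 4, 4, 6]), (26, [1, 1, 1, 2, 3, 4, 6, 8]), (26, [1, 1, 2, 2, 3, 4, 6, 7]), (28, [1, 1, 2, 3, 3, 4, 6, 8]), (28, [1, 1, 1, 2, 3, 4, 6, 10]), (29, [1, 1, 2, 2, 3, 4, 6, 10]), (30, [1, 1, 2, 3, 3, 4, 6, 10]), (31, [1, 1, 2, 2, 3, 4, 6, 12]), (32, [1, 1, 2, 3, 4, 5, 6, 10]), (34, [1, 1, 1, 2, 3, 4, 6, 16]), (35, [1, 1, 2, 2, 3, 4, 6, 16]), (38, [1, 1, 2, 3, 3, 4, 6, 18]), (38, [1, 1, 1, 2, 3, 4, 6, 20])]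

def inT (l : List ℕ) : Bool := force l.sum fun s => T2.any fun t => t.1.beq s && t.2.isPerm l

def InT (M : Multiset ℕ) : Prop := ∃ t ∈ T, (t : Multiset ℕ) = M

theorem inT_iff (l : List ℕ) : inT l = true ↔ InT l := by
  have h : T2 = T.map fun t => (t.sum, t) := by decide
  simp only [inT, InT, force_eq, h, List.any_map, List.any_eq_true, Function.comp,
    Bool.and_eq_true, List.isPerm_iff, coe_eq_coe, Nat.beq_eq]
  exact ⟨fun ⟨t, a, _, b⟩ => ⟨t, a, b⟩, fun ⟨t, a, b⟩ => ⟨t, a, b.sum_eq, b⟩⟩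

theorem InT_sum {M : Multiset ℕ} (h : InT M) : 19 ≤ M.sum ∧ M.sum ≤ 38 := by
  obtain ⟨t, ht, rfl⟩ := h
  have : ∀ t ∈ T, 19 ≤ t.sum ∧ t.sum ≤ 38 := by decide
  simpa using this t ht

def mask (L : List ℕ) : ℕ := L.foldr (fun s m => m ||| 2 ^ s) 0

theorem mask_mem : ∀ (L : List ℕ) (s : ℕ), s ∈ L → (mask L).testBit s = true
  | [], _, h => by simp at h
  | x :: L, s, h => by
    rw [mask, List.foldr_cons, Nat.testBit_or, Bool.or_eq_true]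
    rcases List.mem_cons.1 h with rfl | h
    · right; simp
    · left; exact mask_mem L s h

def red (l : List ℕ) (n s : ℕ) : Bool :=
  (n - s).ble 41 && Nat.ble 22 (n - s) && l.any fun x => (s + 1).ble x && inT ((x - s) :: l.erase x)

def d0 (lo mid hi : ℕ) : Bool :=
  cond (lo.beq 1) (cond (mid.ble 3) (cond (mid.beq 2) (!(hi.mod 3).beq 2) ((hi.mod 2).beq 0))
    (mid.ble 6 && hi.ble 18 && c0 lo mid hi)) (lo.beq 0 || (lo.beq 2 && mid.beq 4 && hi.beq 6))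

def d1 (x y z : ℕ) : Bool :=
  cond (x.ble y) (cond (y.ble z) (d0 x y z) (cond (x.ble z) (d0 x z y) (d0 z x y)))
    (cond (x.ble z) (d0 y x z) (cond (y.ble z) (d0 y z x) (d0 z y x)))

theorem d0_of {x y z : ℕ} (h1 : x ≤ y) (h2 : y ≤ z) (h : c1 x y z = true) : d0 x y z = true := by
  simp only [c1, force_eq, min_eq_left h2, min_eq_left h1, max_eq_right h2,
    max_eq_right (h1.trans h2), show x + y + z - x - z = y by omega, Bool.and_eq_true] at h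
  have h' := h.2
  have e : ∀ a b : ℕ, a.mod b = a % b := fun _ _ => rfl
  have f : ∀ a b : ℕ, a.beq b = decide (a = b) := fun a b => by
    rw [Bool.eq_iff_iff]; simp [Nat.beq_eq]
  have g : ∀ a b : ℕ, a.ble b = decide (a ≤ b) := fun a b => by
    rw [Bool.eq_iff_iff]; simp
  simp only [d0, h', e, f, g, Bool.cond_decide]
  simp [c0] at h'
  split_ifs <;> simp <;> omega

theorem d1_of {x y z : ℕ} (h : c1 x y z = true) : d1 x y z = true := by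
  have g : ∀ a b : ℕ, a.ble b = decide (a ≤ b) := fun a b => by
    rw [Bool.eq_iff_iff]; simp
  simp only [d1, g, Bool.cond_decide]
  split_ifs
  · exact d0_of (by omega) (by omega) h
  · exact d0_of (by omega) (by omega) (c1_23 _ _ _ ▸ h)
  · exact d0_of (by omega) (by omega) (c1_12 _ _ _ ▸ c1_23 _ _ _ ▸ h)
  · exact d0_of (by omega) (by omega) (c1_12 _ _ _ ▸ h)
  · exact d0_of (by omega) (by omega) (c1_23 _ _ _ ▸ c1_12 _ _ _ ▸ h)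
  · exact d0_of (by omega) (by omega) (c1_12 _ _ _ ▸ c1_23 _ _ _ ▸ c1_12 _ _ _ ▸ h)

def tr3 (x y : ℕ) : List ℕ → ℕ → ℕ
  | [], m => m
  | z :: l, m => cond (d1 x y z) ((tr3 x y l m).lor (Nat.pow 2 (Nat.add (Nat.add (Nat.add 1 x) y) z)))
      (tr3 x y l m)

def tr2 (x : ℕ) : List ℕ → ℕ → ℕ
  | [], m => m
  | y :: l, m => tr3 x y l (tr2 x l m)

def tr1 : List ℕ → ℕ → ℕ
  | [], m => m
  | x :: l, m => tr2 x l (tr1 l m)

theorem tr3_spec (x y s : ℕ) : ∀ (l : List ℕ) (m : ℕ), (m.testBit s = true ∨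
    ∃ z, [z].Sublist l ∧ d1 x y z = true ∧ s = 1 + x + y + z) → (tr3 x y l m).testBit s = true
  | [], m, h => by simpa [tr3] using h
  | z :: l, m, h => by
    have ih := tr3_spec x y s l m
    have e : ∀ a b : ℕ, a.lor (Nat.pow 2 (Nat.add (Nat.add (Nat.add 1 x) y) b)) =
      a ||| 2 ^ (1 + x + y + b) := fun _ _ => rfl
    simp only [tr3, e]
    by_cases hc : d1 x y z = true ∧ s = 1 + x + y + z
    · simp [hc.1, hc.2]
    · have : (tr3 x y l m).testBit s = true := by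
        apply ih
        rcases h with h | ⟨w, h1, h2, h3⟩
        · exact Or.inl h
        · cases h1 with
          | cons _ h1 => exact Or.inr ⟨w, h1, h2, h3⟩
          | cons_cons _ _ => exact absurd ⟨h2, h3⟩ hc
      cases d1 x y z <;> simp [this]

theorem tr2_spec (x s : ℕ) : ∀ (l : List ℕ) (m : ℕ), (m.testBit s = true ∨
    ∃ y z, [y, z].Sublist l ∧ d1 x y z = true ∧ s = 1 + x + y + z) → (tr2 x l m).testBit s = true
  | [], m, h => by simpa [tr2] using h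
  | y :: l, m, h => by
    apply tr3_spec
    rcases h with h | ⟨v, w, h1, h2, h3⟩
    · exact Or.inl (tr2_spec x s l m (Or.inl h))
    · cases h1 with
      | cons _ h1 => exact Or.inl (tr2_spec x s l m (Or.inr ⟨v, w, h1, h2, h3⟩))
      | cons_cons _ h1 => exact Or.inr ⟨w, h1, h2, h3⟩

theorem tr1_spec (s : ℕ) : ∀ (l : List ℕ) (m : ℕ), (m.testBit s = true ∨
    ∃ x y z, [x, y, z].Sublist l ∧ d1 x y z = true ∧ s = 1 + x + y + z) →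
      (tr1 l m).testBit s = true
  | [], m, h => by simpa [tr1] using h
  | x :: l, m, h => by
    apply tr2_spec
    rcases h with h | ⟨u, v, w, h1, h2, h3⟩
    · exact Or.inl (tr1_spec s l m (Or.inl h))
    · cases h1 with
      | cons _ h1 => exact Or.inl (tr1_spec s l m (Or.inr ⟨u, v, w, h1, h2, h3⟩))
      | cons_cons _ h1 => exact Or.inr ⟨v, w, h1, h2, h3⟩

def msk (l : List ℕ) : ℕ := (tr1 l 0).lor (mask l)

theorem msk_mem (l : List ℕ) (s : ℕ) (h : s ∈ cov l) : (msk l).testBit s = true := by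
  show Nat.testBit (tr1 l 0 ||| mask l) s = true
  rw [Nat.testBit_or, Bool.or_eq_true]
  rcases List.mem_append.1 h with h | h
  · exact Or.inr (mask_mem _ _ h)
  · obtain ⟨t, ht, rfl⟩ := List.mem_map.1 h
    obtain ⟨h1, h2⟩ := List.mem_filter.1 ht
    obtain ⟨h3, h4⟩ := List.mem_sublistsLen.1 h1
    obtain ⟨x, y, z, rfl⟩ := List.length_eq_three.1 h4
    exact Or.inl (tr1_spec _ _ _ (Or.inr ⟨x, y, z, h3, d1_of h2, by simp [add_assoc]⟩))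

def nb (m a : ℕ) : Bool := ((m.shiftRight a).mod 2).beq 0

theorem nb_eq (m a : ℕ) : nb m a = !m.testBit a := by
  have : nb m a = decide (m >>> a % 2 = 0) := by
    rw [Bool.eq_iff_iff]; simp only [nb, Nat.beq_eq, decide_eq_true_eq]; rfl
  rw [this, Nat.testBit_eq_decide_div_mod_eq, Nat.shiftRight_eq_div_pow, Bool.eq_iff_iff]
  simp

def okm (l : List ℕ) (m0 : ℕ) : Bool := force (m0.lor (mask l)) fun m => force (3 + l.sum) fun n =>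
  ex (fun a => force a fun a => nb m a && (Nat.mul 2 a).ble n && nb m (n.sub a) &&
    !red l n a && !red l n (n - a)) 90 1 || inT l

def ok8 (l : List ℕ) : Bool := okm l (tr1 l 0)

def fl : List ℕ → (List ℕ → Bool) → Bool
  | [], k => k []
  | x :: l, k => force x fun x => fl l fun l => k (x :: l)

theorem fl_eq : ∀ (l : List ℕ) (k : List ℕ → Bool), fl l k = k l
  | [], _ => rfl
  | x :: l, k => by rw [fl, force_eq, fl_eq]

theorem chkA : (T.all fun t => t.all fun u => (List.range' 1 6).all fun a =>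
    fl ((u + a) :: t.erase u) ok8) = true := by decide +kernel

theorem chkB : ([1, 5].all fun w => (List.range' 1 76).all fun y => force y fun y =>
    force (tr1 [y, w, 1, 2, 3, 4, 6] 0) fun m =>
    (List.range (151 - 2 * y)).all fun k => force (y + k) fun z =>
      okm [z, y, w, 1, 2, 3, 4, 6] (tr2 z [y, w, 1, 2, 3, 4, 6] m)) = true := by decide +kernel

theorem count {L : List ℕ} {n : ℕ} (h : ∀ a, 1 ≤ a → 2 * a ≤ n → a ∈ L ∨ n - a ∈ L) :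
    n / 2 ≤ L.length := by
  have : Finset.Icc 1 (n / 2) ⊆ L.toFinset.image fun s => min s (n - s) := by
    intro a ha
    rw [Finset.mem_Icc] at ha
    rcases h a ha.1 (by omega) with h | h
    · exact Finset.mem_image.2 ⟨a, List.mem_toFinset.2 h, by omega⟩
    · exact Finset.mem_image.2 ⟨n - a, List.mem_toFinset.2 h, by omega⟩
  have := (Finset.card_le_card this).trans (Finset.card_image_le.trans L.toFinset_card_le)
  simpa using this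

def Pred (M : Multiset ℕ) (a : ℕ) : Prop := ∃ x R, M = x ::ₘ R ∧ a < x ∧ InT ((x - a) ::ₘ R)

theorem three : ∀ n (M : Multiset ℕ), M.sum = n → N 3 M → card M = 8 → InT M := by
  intro n
  induction n using Nat.strong_induction_on with
  | _ n ih =>
    intro M hn h h8
    have r : ∀ s, 1 ≤ s → (∃ M', Red M s M' ∧ N 3 M') → s ∈ M ∨ Pred M s := by
      rintro s hs ⟨M', h1, h2⟩
      rcases red_cases h1 with h3 | ⟨h3, h4, x, R, e, h5, rfl⟩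
      · exact Or.inl h3.1
      · exact Or.inr ⟨x, R, e, h5, ih _ (by omega) _ rfl h2 (by omega)⟩
    have key : ∀ a, 1 ≤ a → a < 3 + M.sum → (a ∈ M ∨ Pred M a) ∨
        (3 + M.sum - a ∈ M ∨ Pred M (3 + M.sum - a)) ∨ ∃ M1 ≤ M, card M1 = 3 ∧ N 1 M1 ∧
          (1 + M1.sum = a ∨ (1 + M1.sum = 3 + M.sum - a ∧ 7 ≤ a)) := by
      intro a h1 h2
      rcases N_split h h1 h2 with h3 | h3 | ⟨c1, c2, M1, M2, a1, a2, a3, a4, a5, a6, a7, a8, a9⟩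
      · exact Or.inl (r a h1 h3)
      · exact Or.inr (Or.inl (r _ (by omega) h3))
      · right; right
        rcases (show (c1 = 1 ∧ c2 = 2) ∨ (c1 = 2 ∧ c2 = 1) by omega) with ⟨rfl, rfl⟩ | ⟨rfl, rfl⟩
        · have b1 := one_le _ _ rfl a4
          have b2 := two_le _ _ rfl a5
          exact ⟨M1, a9 (by omega) ▸ le_add_right _ _, by omega, a4, Or.inl a6⟩
        · have b1 := two_le _ _ rfl a4
          have b2 := one_le _ _ rfl a5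
          have b3 := card_le_sum _ (N_pos a4)
          exact ⟨M2, a9 (by omega) ▸ le_add_left _ _, by omega, a5, Or.inr ⟨by omega, by omega⟩⟩
    have ps : ∀ s, Pred M s → 19 + s ≤ M.sum ∧ M.sum ≤ 38 + s ∧ ∃ x ∈ M, s < x := by
      rintro s ⟨x, R, rfl, h1, h2⟩
      have := InT_sum h2
      simp only [sum_cons] at this ⊢
      exact ⟨by omega, by omega, x, by simp, h1⟩
    have fin : ∀ l : List ℕ, M = l → M.sum ≤ 166 → ok8 l = true → InT M := by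
      rintro l rfl hb ho
      simp only [ok8, okm, force_eq, Bool.or_eq_true] at ho
      refine (inT_iff l).1 (ho.resolve_left fun he => ?_)
      obtain ⟨a, ha, he⟩ := ex_spec _ _ _ he
      simp only [Bool.and_eq_true, Nat.ble_eq, nb_eq, Bool.not_eq_true'] at he
      obtain ⟨⟨⟨⟨e2, e1⟩, e3⟩, e4⟩, e5⟩ := he
      change 2 * a ≤ _ at e1
      change (msk l).testBit _ = false at e2
      change (msk l).testBit (_ - _) = false at e3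
      rw [sum_coe] at key ps hb
      have k1 : ∀ s, s ∈ (l : Multiset ℕ) ∨ Pred l s →
          (msk l).testBit s = true ∨ red l (3 + l.sum) s = true := by
        rintro s (hs | hs)
        · exact Or.inl (msk_mem _ _ (List.mem_append_left _ (mem_coe.1 hs)))
        · have := ps s hs
          obtain ⟨x, R, e, h1, h2⟩ := hs
          right
          simp only [red, Bool.and_eq_true, Nat.ble_eq, List.any_eq_true]
          refine ⟨by omega, x, mem_coe.1 (by rw [e]; simp), h1, (inT_iff _).2 ?_⟩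
          rwa [← cons_coe, ← coe_erase, e, erase_cons_head]
      rcases key a ha (by omega) with h3 | h3 | ⟨M1, b1, b2, b3, b4⟩
      · rcases k1 _ h3 with h4 | h4 <;> simp_all
      · rcases k1 _ h3 with h4 | h4 <;> simp_all
      · have := msk_mem _ _ (mem_cov b1 b2 b3 (by omega))
        rcases b4 with b4 | ⟨b4, -⟩ <;> rw [b4] at this <;> simp_all
    have hs := card_le_sum M (N_pos h)
    by_cases hp : ∃ a, 1 ≤ a ∧ a ≤ 6 ∧ Pred M a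
    · obtain ⟨a, h1, h2, h3⟩ := hp
      have := ps a h3
      obtain ⟨x, R, e, h4, t, ht, e'⟩ := h3
      have c := chkA
      simp only [List.all_eq_true, List.mem_range'_1, fl_eq] at c
      refine fin _ ?_ (by omega) (c t ht (x - a) (mem_coe.1 (by rw [e']; simp)) a (by omega))
      rw [← cons_coe, ← coe_erase, e', erase_cons_head, e, Nat.sub_add_cancel h4.le]
    have k2 : ∀ a, 1 ≤ a → a ≤ 6 → a ∈ M ∨ (a = 5 ∧ {1, 1, 2} ≤ M) := by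
      intro a h1 h2
      rcases key a h1 (by omega) with (h3 | h3) | (h3 | h3) | ⟨M1, b1, b2, b3, b4 | b4⟩
      · exact Or.inl h3
      · exact absurd ⟨a, h1, h2, h3⟩ hp
      · have := big h h3; omega
      · obtain ⟨-, -, x, hx, h4⟩ := ps _ h3
        have := big h hx; omega
      · have := small b3 b2 (by omega)
        subst this
        exact Or.inr ⟨by simpa using b4.symm, b1⟩
      · omega
    obtain ⟨R, hR⟩ := ext_sub (M := M) [1, 2, 3, 4, 6] (by decide) (by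
      simp only [List.mem_cons, List.not_mem_nil, or_false]
      rintro x (rfl | rfl | rfl | rfl | rfl) <;>
        exact (k2 _ (by omega) (by omega)).resolve_right (by omega))
    obtain ⟨w, R', hw, rfl⟩ := five_or hR (by decide) (by decide)
      ((k2 5 (by omega) (by omega)).imp id And.right)
    have main : ∀ y z, y ≤ z → M = ([1, 2, 3, 4, 6, w, y, z] : List ℕ) → InT M := by
      intro y z hyz e
      have hy := N_pos h y (by simp [e])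
      have hb := count (n := 3 + M.sum) (L := [1, 2, 3, 4, 6, w, y, z] ++
        ([1, 2, 3, 4, 6, w, y, z].sublistsLen 3).map (fun t => 1 + t.sum) ++ List.range' 22 20) (by
          intro a h1 h2
          simp only [List.mem_append (s := _ ++ _), List.mem_range'_1]
          rcases key a h1 (by omega) with (h3 | h3) | (h3 | h3) | ⟨M1, b1, b2, b3, b4⟩
          · exact Or.inl (Or.inl (List.mem_append_left _ (mem_coe.1 (e ▸ h3))))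
          · have := ps _ h3; exact Or.inr (Or.inr (by omega))
          · exact Or.inr (Or.inl (List.mem_append_left _ (mem_coe.1 (e ▸ h3))))
          · have := ps _ h3; exact Or.inl (Or.inr (by omega))
          · obtain ⟨t, ht, rfl⟩ := mem_sub (e ▸ b1) b2
            have : 1 + t.sum ∈ [1, 2, 3, 4, 6, w, y, z] ++
                ([1, 2, 3, 4, 6, w, y, z].sublistsLen 3).map (fun t => 1 + t.sum) :=
              List.mem_append_right _ (List.mem_map_of_mem ht)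
            rw [sum_coe] at b4
            rcases b4 with b4 | ⟨b4, -⟩
            · exact Or.inl (Or.inl (b4 ▸ this))
            · exact Or.inr (Or.inl (b4 ▸ this)))
      simp only [List.length_append, List.length_map, List.length_sublistsLen, List.length_cons,
        List.length_nil, List.length_range'] at hb
      have h56 : Nat.choose (0 + 1 + 1 + 1 + 1 + 1 + 1 + 1 + 1) 3 = 56 := by decide
      have e2 : M.sum = 16 + w + y + z := by simp [e]; omega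
      have c := chkB
      simp only [List.all_eq_true, List.mem_range'_1, List.mem_range, force_eq] at c
      have := c w (by simpa using hw) y (by omega) (z - y) (by omega)
      rw [Nat.add_sub_cancel' hyz] at this
      exact fin [z, y, w, 1, 2, 3, 4, 6] (e.trans (coe_eq_coe.2
        ((List.perm_append_comm (l₁ := [1, 2, 3, 4, 6]) (l₂ := [w, y, z])).trans
          ((List.reverse_perm [z, y, w]).append_right _)))) (by omega) this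
    obtain ⟨y, z, rfl⟩ := card_eq_two.1 (show card R' = 2 by rw [hR] at h8; simp at h8; omega)
    rcases le_total y z with h1 | h1
    · exact main y z h1 hR
    · exact main z y h1 (by rw [hR, pair_comm]; rfl)

theorem addz : ∀ n c (M : Multiset ℕ), c + M.sum = n → Q c M → Q c (0 ::ₘ M) := by
  intro n
  induction n using Nat.strong_induction_on with
  | _ n ih =>
    intro c M hn h
    refine Q_intro (by simpa [nz_cons] using Q_conn h) fun a h1 h2 => ?_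
    rw [sum_cons, zero_add] at h2
    obtain ⟨c1, c2, P, a1, a2, a3, a4, a5⟩ := Q_split h h1 (by omega)
    have := sum_ad P
    rw [a2] at this
    exact ⟨c1, c2, (0, 0) ::ₘ P, a1, by simp [ad_mk, a2], by simpa using a3,
      by simpa using ih _ (by omega) _ _ rfl a4, by simpa using ih _ (by omega) _ _ rfl a5⟩

theorem of_nz (c : ℕ) (M : Multiset ℕ) : ∀ R, Q c (nz M + R) → Q c (M + R) := by
  induction M using Multiset.induction_on with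
  | empty => exact fun R h => h
  | cons x M ih =>
    intro R h
    rw [nz_cons] at h
    split_ifs at h with hx
    · rw [cons_add, ← add_cons] at h ⊢
      exact ih _ h
    · rw [show x = 0 by omega, cons_add]
      exact addz _ _ _ rfl (ih _ h)

def tab : List (ℕ × List ℕ × List (ℕ × List ℕ)) := [
  (3, [1, 1, 1, 2, 2, 3, 4, 6], [(0, [0, 0, 1, 0, 0, 0, 0, 0]), (0, [0, 0, 0, 0, 2, 0, 0, 0]), (0, [0, 0, 0, 0, 0, 3, 0, 0]), (0, [0, 0, 0, 0, 0, 0, 4, 0]), (1, [0, 1, 1, 0, 2, 0, 0, 0]), (0, [0, 0, 0, 0, 0, 0, 0, 6]), (1, [0, 0, 1, 0, 2, 3, 0, 0]), (1, [0, 0, 1, 0, 2, 0, 4, 0]), (1, [0, 0, 1, 0, 0, 3, 4, 0]), (1, [0, 0, 1, 0, 2, 0, 0, 6]), (2, [0, 1, 1, 2, 2, 3, 0, 0])]),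
  (3, [1, 1, 2, 2, 3, 4, 6], [(0, [0, 0, 0, 1, 0, 0, 0]), (0, [0, 0, 0, 0, 2, 0, 0]), (0, [0, 0, 0, 0, 0, 3, 0]), (1, [0, 1, 0, 2, 0, 0, 0]), (0, [0, 0, 0, 0, 0, 0, 5]), (1, [0, 0, 0, 2, 3, 0, 0]), (1, [0, 0, 0, 2, 0, 4, 0]), (1, [0, 0, 0, 0, 3, 4, 0]), (1, [0, 0, 0, 2, 0, 0, 6]), (2, [0, 1, 2, 2, 3, 0, 0]), (1, [0, 0, 0, 0, 0, 4, 6])]),
  (3, [1, 1, 1, 2, 3, 4, 6], [(0, [0, 0, 0, 0, 1, 0, 0]), (0, [0, 0, 0, 0, 0, 2, 0]), (1, [0, 1, 1, 0, 0, 0, 0]), (0, [0, 0, 0, 0, 0, 0, 4]), (1, [0, 0, 1, 0, 3, 0, 0]), (1, [0, 0, 1, 0, 0, 4, 0]), (1, [0, 0, 1, 0, 3, 2, 0]), (1, [0, 0, 1, 0, 0, 0, 6]), (2, [0, 1, 1, 2, 3, 0, 0]), (1, [0, 0, 1, 0, 0, 2, 6])]),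
  (3, [1, 1, 1, 2, 2, 4, 6], [(0, [0, 0, 0, 0, 0, 1, 0]), (0, [0, 0, 0, 0, 2, 0, 0]), (0, [0, 0, 0, 0, 0, 0, 3]), (1, [0, 0, 1, 0, 2, 0, 0]), (1, [0, 0, 1, 0, 2, 1, 0]), (1, [0, 0, 1, 0, 0, 4, 0]), (1, [0, 0, 1, 0, 2, 0, 3]), (2, [0, 1, 1, 2, 2, 0, 0]), (1, [0, 0, 1, 0, 0, 4, 3]), (1, [0, 0, 1, 0, 2, 0, 6])]),
  (3, [1, 1, 1, 2, 2, 3, 6], [(0, [0, 0, 1, 0, 0, 0, 0]), (0, [0, 0, 0, 0, 0, 0, 2]), (0, [0, 0, 0, 0, 0, 3, 0]), (1, [0, 0, 1, 0, 2, 0, 0]), (1, [0, 0, 1, 0, 0, 3, 0]), (1, [0, 0, 0, 0, 2, 3, 0]), (1, [0, 0, 1, 0, 2, 3, 0]), (1, [0, 0, 1, 0, 0, 0, 6]), (2, [0, 1, 1, 0, 2, 3, 0])]),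
  (3, [1, 1, 2, 2, 3, 6], [(0, [0, 1, 0, 0, 0, 0]), (0, [0, 0, 0, 0, 2, 0]), (1, [0, 0, 0, 2, 0, 0]), (1, [0, 0, 0, 0, 3, 0]), (1, [0, 0, 0, 1, 3, 0]), (1, [0, 0, 0, 2, 3, 0]), (1, [0, 0, 0, 0, 0, 6]), (1, [0, 1, 0, 0, 0, 6]), (1, [0, 0, 0, 2, 0, 6])]),
  (3, [1, 1, 1, 2, 4, 6], [(0, [0, 0, 1, 0, 0, 0]), (0, [0, 0, 0, 0, 2, 0]), (1, [0, 0, 1, 0, 1, 0]), (1, [0, 0, 1, 0, 2, 0]), (1, [0, 0, 0, 0, 4, 0]), (1, [0, 0, 1, 0, 4, 0]), (1, [0, 0, 1, 0, 2, 3]), (1, [0, 0, 1, 0, 0, 6]), (1, [0, 0, 1, 0, 4, 3])]),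
  (2, [1, 2, 3, 4, 6], [(0, [1, 0, 0, 0, 0]), (0, [0, 0, 2, 0, 0]), (0, [0, 0, 0, 3, 0]), (0, [0, 0, 0, 4, 0]), (0, [0, 0, 0, 0, 5]), (1, [0, 2, 3, 0, 0]), (1, [1, 2, 3, 0, 0]), (1, [0, 0, 3, 4, 0]), (1, [0, 2, 0, 0, 6])]),
  (2, [2, 3, 4, 6], [(0, [0, 0, 0, 1]), (0, [2, 0, 0, 0]), (0, [0, 0, 3, 0]), (0, [0, 0, 4, 0]), (1, [1, 3, 0, 0]), (0, [0, 0, 0, 6]), (1, [0, 2, 4, 0]), (1, [0, 3, 4, 0])]),
  (3, [1, 1, 2, 4, 6], [(0, [0, 1, 0, 0, 0]), (0, [0, 0, 2, 0, 0]), (1, [0, 0, 0, 2, 0]), (0, [0, 0, 0, 4, 0]), (1, [0, 0, 0, 4, 0]), (0, [0, 0, 0, 0, 6]), (1, [0, 0, 0, 0, 6]), (1, [0, 0, 0, 1, 6])]),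
  (3, [1, 2, 2, 3, 6], [(0, [1, 0, 0, 0, 0]), (0, [0, 0, 2, 0, 0]), (0, [0, 0, 0, 3, 0]), (1, [0, 0, 1, 0, 2]), (1, [0, 0, 1, 3, 0]), (0, [0, 0, 0, 0, 6]), (1, [0, 0, 0, 0, 6]), (1, [0, 0, 1, 0, 6])]),
  (3, [1, 1, 1, 2, 2, 3, 4], [(0, [0, 0, 1, 0, 0, 0, 0]), (0, [0, 0, 0, 0, 2, 0, 0]), (0, [0, 0, 0, 0, 0, 3, 0]), (1, [0, 0, 1, 0, 2, 0, 0]), (1, [0, 1, 1, 0, 2, 0, 0]), (1, [0, 0, 1, 0, 0, 0, 4]), (1, [0, 0, 1, 0, 2, 3, 0]), (1, [0, 0, 1, 0, 2, 0, 4])]),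
  (3, [1, 1, 2, 2, 3, 4], [(0, [0, 0, 0, 1, 0, 0]), (0, [0, 0, 0, 0, 2, 0]), (1, [0, 0, 0, 2, 0, 0]), (1, [0, 1, 0, 2, 0, 0]), (1, [0, 0, 0, 0, 0, 4]), (1, [0, 0, 0, 2, 3, 0]), (1, [0, 0, 0, 2, 0, 4]), (1, [0, 0, 0, 0, 3, 4])]),
  (2, [2, 3, 4, 5], [(0, [0, 0, 1, 0]), (0, [2, 0, 0, 0]), (0, [0, 3, 0, 0]), (0, [0, 0, 0, 4]), (0, [0, 0, 0, 5]), (1, [2, 3, 0, 0]), (1, [1, 0, 0, 5]), (1, [0, 2, 0, 5])]),
  (3, [1, 1, 1, 2, 2, 6], [(0, [0, 0, 1, 0, 0, 0]), (0, [0, 0, 0, 0, 0, 2]), (1, [0, 0, 0, 0, 2, 0]), (1, [0, 0, 1, 0, 2, 0]), (1, [0, 0, 1, 0, 0, 3]), (2, [0, 1, 1, 0, 2, 0]), (1, [0, 0, 1, 0, 2, 3]), (1, [0, 0, 1, 0, 0, 6])]),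
  (2, [1, 1, 2, 4, 6], [(0, [0, 0, 0, 1, 0]), (0, [0, 0, 0, 2, 0]), (0, [0, 0, 0, 0, 3]), (0, [0, 0, 0, 4, 0]), (1, [1, 1, 2, 0, 0]), (0, [0, 0, 0, 0, 6]), (1, [0, 1, 2, 0, 3]), (1, [0, 1, 0, 0, 6])]),
  (3, [1, 1, 2, 2, 6], [(0, [0, 1, 0, 0, 0]), (0, [0, 0, 0, 2, 0]), (1, [0, 0, 0, 2, 0]), (1, [0, 0, 0, 0, 3]), (1, [0, 0, 0, 2, 2]), (0, [0, 0, 0, 0, 6]), (1, [0, 0, 0, 0, 6])]),
  (2, [2, 3, 3, 5], [(0, [0, 0, 0, 1]), (0, [2, 0, 0, 0]), (0, [0, 0, 3, 0]), (0, [0, 0, 0, 4]), (0, [0, 0, 0, 5]), (1, [2, 0, 3, 0]), (1, [0, 2, 3, 1])]),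
  (3, [1, 1, 1, 2, 3, 4], [(0, [0, 0, 0, 0, 1, 0]), (1, [0, 0, 1, 0, 0, 0]), (1, [0, 1, 1, 0, 0, 0]), (1, [0, 0, 1, 0, 0, 2]), (1, [0, 0, 1, 0, 3, 0]), (1, [0, 0, 1, 0, 0, 4]), (1, [0, 0, 1, 0, 3, 2])]),
  (2, [1, 1, 2, 3, 6], [(0, [0, 0, 0, 1, 0]), (0, [0, 0, 0, 0, 2]), (0, [0, 0, 0, 3, 0]), (0, [0, 0, 0, 0, 4]), (1, [0, 1, 0, 3, 0]), (0, [0, 0, 0, 0, 6]), (1, [0, 1, 0, 3, 2])]),
  (2, [2, 3, 3, 4], [(0, [0, 0, 1, 0]), (0, [0, 0, 2, 0]), (0, [0, 0, 0, 3]), (0, [0, 0, 0, 4]), (1, [1, 0, 3, 0]), (1, [0, 2, 3, 0]), (1, [0, 0, 2, 4])]),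
  (3, [1, 1, 1, 2, 2, 4], [(0, [0, 0, 1, 0, 0, 0]), (0, [0, 0, 0, 0, 2, 0]), (1, [0, 0, 1, 0, 0, 1]), (1, [0, 0, 1, 0, 2, 0]), (1, [0, 0, 1, 0, 2, 1]), (1, [0, 0, 1, 0, 0, 4]), (1, [0, 0, 0, 0, 2, 4])]),
  (2, [1, 2, 3, 6], [(0, [1, 0, 0, 0]), (0, [0, 0, 0, 2]), (0, [0, 0, 0, 3]), (0, [0, 0, 0, 4]), (0, [0, 0, 0, 5]), (0, [0, 0, 0, 6]), (1, [0, 0, 0, 6])]),
  (2, [1, 1, 2, 2, 6], [(0, [0, 0, 0, 1, 0]), (0, [0, 0, 0, 2, 0]), (0, [0, 0, 0, 0, 3]), (1, [0, 1, 0, 2, 0]), (1, [1, 1, 0, 2, 0]), (0, [0, 0, 0, 0, 6]), (1, [0, 1, 0, 2, 3])]),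
  (3, [1, 1, 2, 2, 4], [(0, [0, 0, 0, 1, 0]), (0, [0, 0, 0, 2, 0]), (1, [0, 0, 0, 2, 0]), (0, [0, 0, 0, 0, 4]), (1, [0, 0, 0, 0, 4]), (1, [0, 0, 0, 1, 4])]),
  (2, [2, 2, 3, 4], [(0, [0, 1, 0, 0]), (0, [0, 2, 0, 0]), (0, [0, 0, 0, 3]), (0, [0, 0, 0, 4]), (1, [0, 1, 3, 0]), (1, [0, 1, 0, 4])]),
  (2, [1, 1, 1, 2, 6], [(0, [0, 0, 1, 0, 0]), (0, [0, 0, 0, 2, 0]), (1, [0, 1, 1, 0, 0]), (1, [0, 0, 1, 2, 0]), (1, [0, 1, 1, 0, 2]), (0, [0, 0, 0, 0, 6])]),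
  (2, [1, 1, 2, 3, 4], [(0, [0, 1, 0, 0, 0]), (0, [0, 0, 0, 0, 2]), (0, [0, 0, 0, 3, 0]), (0, [0, 0, 0, 0, 4]), (1, [0, 1, 0, 3, 0]), (1, [0, 1, 0, 0, 4])]),
  (3, [1, 1, 1, 2, 4], [(0, [0, 0, 1, 0, 0]), (0, [0, 0, 0, 2, 0]), (1, [0, 0, 1, 0, 1]), (0, [0, 0, 0, 0, 4]), (1, [0, 0, 0, 0, 4]), (1, [0, 0, 1, 0, 4])]),
  (2, [1, 2, 3, 4], [(0, [0, 0, 0, 1]), (0, [0, 0, 0, 2]), (0, [0, 0, 0, 3]), (0, [0, 0, 0, 4]), (1, [0, 0, 0, 4]), (1, [0, 2, 3, 0])]),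
  (2, [1, 1, 2, 6], [(0, [0, 0, 1, 0]), (0, [0, 0, 0, 2]), (0, [0, 0, 0, 3]), (0, [0, 0, 0, 4]), (0, [0, 0, 0, 5]), (0, [0, 0, 0, 6])]),
  (1, [1, 4, 6], [(0, [1, 0, 0]), (0, [0, 2, 0]), (0, [0, 0, 3]), (0, [0, 0, 4]), (0, [0, 0, 5]), (0, [0, 0, 6])]),
  (2, [1, 1, 1, 6], [(0, [0, 0, 1, 0]), (1, [0, 0, 1, 0]), (1, [0, 1, 1, 0]), (0, [0, 0, 0, 4]), (1, [0, 1, 1, 2])]),
  (2, [1, 2, 3, 3], [(0, [0, 0, 0, 1]), (0, [0, 0, 0, 2]), (0, [0, 0, 0, 3]), (1, [0, 0, 0, 3]), (1, [1, 0, 0, 3])]),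
  (2, [1, 1, 2, 2, 3], [(0, [0, 1, 0, 0, 0]), (0, [0, 0, 0, 2, 0]), (0, [0, 0, 0, 0, 3]), (1, [0, 1, 0, 2, 0]), (1, [1, 1, 0, 2, 0])]),
  (2, [1, 1, 2, 4], [(0, [0, 0, 0, 1]), (0, [0, 0, 0, 2]), (0, [0, 0, 0, 3]), (0, [0, 0, 0, 4]), (1, [0, 0, 0, 4])]),
  (2, [1, 2, 2, 3], [(0, [0, 0, 1, 0]), (0, [0, 0, 0, 2]), (0, [0, 0, 0, 3]), (1, [1, 0, 2, 0]), (1, [0, 0, 1, 3])]),
  (1, [1, 2, 6], [(0, [0, 1, 0]), (0, [0, 0, 2]), (0, [0, 0, 3]), (1, [1, 2, 0]), (0, [0, 0, 5])]),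
  (1, [1, 1, 6], [(0, [0, 1, 0]), (0, [0, 0, 2]), (1, [1, 1, 0]), (0, [0, 0, 4])]),
  (2, [1, 1, 2, 3], [(0, [0, 0, 0, 1]), (0, [0, 0, 0, 2]), (0, [0, 0, 0, 3]), (1, [0, 0, 0, 3])]),
  (1, [1, 3, 4], [(0, [0, 1, 0]), (0, [0, 0, 2]), (0, [0, 3, 0]), (0, [0, 0, 4])]),
  (2, [1, 1, 2, 2], [(0, [0, 0, 0, 1]), (0, [0, 0, 0, 2]), (1, [0, 0, 0, 2]), (1, [0, 1, 0, 2])]),
  (1, [1, 2, 4], [(0, [0, 0, 1]), (0, [0, 2, 0]), (0, [0, 0, 3]), (0, [0, 0, 4])]),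
  (1, [1, 1, 4], [(0, [0, 1, 0]), (0, [0, 0, 2]), (1, [1, 1, 0])]),
  (2, [1, 1, 1, 2], [(0, [0, 0, 1, 0]), (0, [0, 0, 0, 2]), (1, [0, 1, 1, 0])]),
  (1, [1, 2, 3], [(0, [1, 0, 0]), (0, [0, 0, 2]), (0, [0, 0, 3])]),
  (1, [1, 1, 2], [(0, [0, 1, 0]), (0, [0, 0, 2])])]

def good (c : ℕ) (l : List ℕ) : Bool :=
  (decide (1 ≤ c + l.sum) && decide ((l.filter (0 < ·)).length ≤ c + 1)) ||
    tab.any fun e => e.1 == c && e.2.1.isPerm (l.filter (0 < ·))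

def pr (l v : List ℕ) : List (ℕ × ℕ) := List.zipWith (fun x y => (y, x - y)) l v

theorem chkT : (tab.all fun e => decide (1 ≤ e.1) &&
    (List.range' 1 ((e.1 + e.2.1.sum) / 2)).all fun a => e.2.2.any fun s =>
      s.1 + ((pr e.2.1 s.2).map Prod.fst).sum == a && decide (s.1 ≤ e.1) &&
      (pr e.2.1 s.2).map ad == e.2.1 && good s.1 ((pr e.2.1 s.2).map Prod.fst) &&
      good (e.1 - s.1) ((pr e.2.1 s.2).map Prod.snd)) = true := by decide +kernel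

theorem good_Q : ∀ n c (l : List ℕ), c + l.sum = n → good c l = true → Q c l := by
  intro n
  induction n using Nat.strong_induction_on with
  | _ n ih =>
    intro c l hn h
    have e0 : nz l = (l.filter (0 < ·) : List ℕ) := by simp [nz]
    simp only [good, Bool.or_eq_true, Bool.and_eq_true, decide_eq_true_eq, List.any_eq_true,
      beq_iff_eq, List.isPerm_iff] at h
    rcases h with h | ⟨e, he, rfl, hp⟩
    · exact triv _ _ _ rfl (by simpa using h.1) (by rw [e0]; simpa using h.2)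
    have e1 : nz l = e.2.1 := by rw [e0]; exact (coe_eq_coe.2 hp).symm
    have e2 := nz_sum l
    rw [e1, sum_coe, sum_coe] at e2
    have := of_nz e.1 l 0
    rw [add_zero, add_zero, e1] at this
    apply this
    have c := chkT
    simp only [List.all_eq_true, List.mem_range'_1, Bool.and_eq_true, decide_eq_true_eq,
      List.any_eq_true, beq_iff_eq] at c
    refine Q_intro (Or.inl (c e he).1) fun a h1 h2 => ?_
    rw [sum_coe] at h2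
    obtain ⟨s, -, ⟨⟨⟨b1, b2⟩, b3⟩, b4⟩, b5⟩ := (c e he).2 a (by omega)
    have hs := sum_ad (pr e.2.1 s.2 : List (ℕ × ℕ))
    simp only [map_coe, sum_coe, b3] at hs
    exact ⟨s.1, e.1 - s.1, (pr e.2.1 s.2 : List (ℕ × ℕ)), by omega, by rw [map_coe, b3],
      by rw [map_coe, sum_coe, b1], by rw [map_coe]; exact ih _ (by omega) _ _ rfl b4,
      by rw [map_coe]; exact ih _ (by omega) _ _ rfl b5⟩

theorem top : Q 3 ([1, 1, 1, 2, 2, 3, 4, 6] : List ℕ) := good_Q _ _ _ rfl (by decide +kernel)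

theorem bound {M : Multiset ℕ} (h : Q 3 M) (hp : ∀ x ∈ M, 0 < x) (h8 : card M = 8) :
    M.sum ≤ 38 :=
  (InT_sum (three _ M rfl ⟨M, h, filter_eq_self.2 hp⟩ h8)).2

end Pool.Agent.H76.RpC
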