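import Mathlib
import Pool.Agent.H76.NoWLP

/-! The barycentric subdivision of the 2-skeleton of the 4-simplex with four leaf triangles. -/

set_option autoImplicit false
set_option maxRecDepth 100000
open MvPolynomial Finset

namespace Pool.Agent.H76.SdEx
open Pool.Agent.H76.LefDefs Pool.Agent.H76.ShellCM Pool.Agent.H76.NoWLP

/-- Vertices of the barycentric subdivision: nonempty faces. -/
abbrev SdV {n : ℕ} (Γ : Set (Finset (Fin n))) : Type := {s : Finset (Fin n) // s ∈ Γ ∧ s.Nonempty}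

/-- The barycentric subdivision: chains of nonempty faces. -/
def sd {n : ℕ} (Γ : Set (Finset (Fin n))) : Set (Finset (SdV Γ)) :=
  {c | ∀ a ∈ c, ∀ b ∈ c, a.1 ⊆ b.1 ∨ b.1 ⊆ a.1}

def MM : ℕ := 0x11144914471044110450140904430040100401c0d0581c190a834260b03860280c090280c11048140610040100401
def FF : ℕ := 0x96166575995d028800a2072891ca24128200a081112c44481112004450112c14450677c09df6e78db9e30e71c09c70d028140a0d52835ca0d728154a05524154909530254c0d830248c09230360c0d738360e0d43835070d21c34070e58414860921804870251419450141c040701014040504f1403c50572c158b04f24158905738450e1183843c90962425cb1162c458d09634460d1183424cd0933444c81142045080132009a26a679a9a20a67809860a61803c60931824c600f180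
def RR : ℕ := 0x6534559eeba34559f7795d67795aed2ae96656355d3b2ca2b2c6a98994aca60
def ZZ : ℕ := 0x7206df69e65d
def WW : ℕ := 0x81c7db79a759
def GG : ℕ := 0x9d42144121a9d1

def CC : ℕ := 0x972e5cb972e5cb972e5cb972e84f9d3664b7efdfbf7efdfbf7efdfbf7efe243850603f08102040810204081020408104880e182844a952a54a952a54a952a54a969d2a2a93259b366cd9b366cd9b366cd9b366cd9b3674d83060c183060c183060c183060c183061410e1c3870e1c3870e1c3870e1c3870e1c48754a952a54a952a54a952a54a952a54aa9aa9f3e7cf9f3e7cf9f3e7cf9f3e7cf9f3e84f870e1c3870e1c3870e1c3870e1c3870e2430c183060c183060c183060c183060c18406a3468d1a3468d1a3468d1a3468d1a3469519d3a74e9d3a74e9d3a74e9d3a74e9d3a7ce850a142850a142850a142850a142850a1c210204081020408102040810204081020488a54a952a54a952a54a952a54a952a54a9d22040810204081020408102041a315e608902a54a952a54a952a54a952a55dba6078d152448912244891224489122448e9b2c509926ad5ab56ad5ab56ad5ab56ad5e3970ddb35162c58b162c58b162c58b162d72d486460b020408102040810204081020478e1a281014e9d3a74e9d3a74e9d3a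74e9d9b258a54278b162c58b162c58b162c58b16549911e34542850a142850a142850a14285f3d568d121000000000000000000000000101f385c1803060c183060c183060c18306182f5c68c981c3870e1c3870e1c3870e1c38992224078e62c58b162c58b162c58b162c5b3568cd9312850a142850a142850a1428525463c74a9472e5cb972e5cb972e5cb972e5f3d78edd392c58b162c58b162c58b162c59c37386cb96142850a142850a142850a992e4c81a3058a468d1a3468d1a3468d1a380fd6ac569d22300000000000000000000052a028406080803e7cf9f3e7cf9f3e7cf9f8f15325448501f183060c18326cb9524d193054a12223868c56ad5ab56ae0bf7af1db564c582f5cb562b04081020409bb668cd4972c4c80f0e14182366cd9b366e3457ce9cb8549909f3c74e1ba3426488f120284e95223448058a0c10080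
def cand (v n : ℕ) : ℕ := (CC >>> (7 * (20 * v + n))) % 128 % 84
def maskn (v : ℕ) : ℕ := (MM >>> (9 * v)) % 512
def fs (v : Fin 41) : Finset (Fin 9) := univ.filter fun i : Fin 9 => (maskn v).testBit i
def subn (u v : ℕ) : Bool := maskn u &&& maskn v == maskn u
def compn (u v : ℕ) : Bool := subn u v || subn v u
def sub (u v : Fin 41) : Bool := subn u v
def comp (u v : Fin 41) : Bool := compn u v
def f41 (n : ℕ) : Fin 41 := ⟨n % 41, Nat.mod_lt _ (by norm_num)⟩
def Fnn (k i : ℕ) : ℕ := (FF >>> (6 * (3 * k + i))) % 64 % 41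
def Fn (k : Fin 84) (i : Fin 3) : Fin 41 := ⟨Fnn k i, Nat.mod_lt _ (by norm_num)⟩
def Rb (k i : ℕ) : Bool := RR.testBit (3 * k + i)
def Rn (k : Fin 84) : Finset (Fin 3) := univ.filter fun i : Fin 3 => Rb k i
def Zn (r : Fin 8) : Fin 41 := f41 ((ZZ >>> (6 * r.1)) % 64)
def Wn (r : Fin 8) : Fin 41 := f41 ((WW >>> (6 * r.1)) % 64)
def Gn (r : Fin 8) : Fin 84 := ⟨(GG >>> (7 * r.1)) % 128 % 84, Nat.mod_lt _ (by norm_num)⟩
def c3 (s : Finset (Fin 9)) : Fin 3 := ⟨(s.card - 1) % 3, Nat.mod_lt _ (by norm_num)⟩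
def colnn (v : ℕ) : ℕ :=
  if v < 5 then 0 else if v < 15 then 1 else if v < 25 then 2 else if v < 29 then 0
  else if v < 37 then 1 else 2
def coln (v : Fin 41) : Fin 3 := ⟨colnn v, by unfold colnn; split_ifs <;> norm_num⟩

def Gam : Set (Finset (Fin 9)) := {s | ∃ v : Fin 41, s ⊆ fs v}

theorem d0 : ∀ v : Fin 41, (fs v).Nonempty ∧ c3 (fs v) = coln v ∧
    ∃ u, sub v u = true ∧ (fs u).card = 3 := by
  decide +kernel
theorem d0' : ∀ i : Fin 9, ∃ v, i ∈ fs v := by decide +kernel
theorem d1' : ((List.range 512).all fun n => (List.range 41).all fun v =>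
    n &&& maskn v != n || n == 0 || (List.range 41).any fun u => maskn u == n) = true := by
  decide +kernel
theorem d1 (s : Finset (Fin 9)) (h : s ∈ Gam) (hs : s.Nonempty) : ∃ v, fs v = s := by
  obtain ⟨v, h⟩ := h
  set n := Nat.ofBits fun i : Fin 9 => decide (i ∈ s) with hn
  have h1 : n < 512 := Nat.ofBits_lt_two_pow _
  have h2 : ∀ i : Fin 9, n.testBit i = decide (i ∈ s) := fun i => Nat.testBit_ofBits_lt _ _ i.2
  have h3 : n &&& maskn v = n := by
    refine Nat.eq_of_testBit_eq fun i => ?_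
    rw [Nat.testBit_and]
    by_cases hi : i < 9
    · have := h2 ⟨i, hi⟩
      by_cases hm : (⟨i, hi⟩ : Fin 9) ∈ s
      · have b : (maskn v).testBit i = true := (mem_filter.1 (h hm)).2
        rw [b, Bool.and_true]
      · simp only [hm, decide_false] at this
        rw [this, Bool.false_and]
    · rw [hn, Nat.testBit_ofBits_ge _ _ (not_lt.1 hi), Bool.false_and]
  have := List.all_eq_true.1 (List.all_eq_true.1 d1' n (by simpa using h1)) v (by simp)
  simp only [h3, bne_self_eq_false, Bool.false_or, Bool.or_eq_true, beq_iff_eq, List.any_eq_true,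
    List.mem_range] at this
  rcases this with a | ⟨u, hu, a⟩
  · obtain ⟨i, hi⟩ := hs
    have := h2 i
    rw [a] at this
    simp [hi] at this
  · refine ⟨⟨u, hu⟩, ?_⟩
    ext i
    simp [fs, a, h2]
theorem d2' : ((List.range 41).all fun u => (List.range 41).all fun v =>
    ((List.range 9).all fun i => !(maskn u).testBit i || (maskn v).testBit i) == subn u v) = true := by
  decide +kernel
theorem d2 (u v : Fin 41) : (fs u ⊆ fs v ↔ sub u v = true) := by
  have := List.all_eq_true.1 (List.all_eq_true.1 d2' u (by simp)) v (by simp)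
  rw [beq_iff_eq] at this
  rw [sub, ← this, List.all_eq_true]
  simp only [fs, subset_iff, mem_filter, mem_univ, true_and, List.mem_range, Bool.or_eq_true,
    Bool.not_eq_true']
  constructor
  · intro h i hi
    cases hb : (maskn u).testBit i
    · exact Or.inl rfl
    · exact Or.inr (h (x := ⟨i, hi⟩) hb)
  · intro h i hi
    exact (h i i.2).resolve_left (by simp [hi])
theorem d3' : ∀ u < 41, ∀ v < 41, (subn u v = true → subn v u = true → u = v) ∧
    (colnn u = colnn v → compn u v = true → u = v) := by decide +kernel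
theorem d3 (u v : Fin 41) : (sub u v = true → sub v u = true → u = v) ∧
    (coln u = coln v → comp u v = true → u = v) :=
  ⟨fun a b => Fin.ext ((d3' u u.2 v v.2).1 a b),
    fun a b => Fin.ext ((d3' u u.2 v v.2).2 (congrArg Fin.val a) b)⟩
theorem d4 : ∀ k i, coln (Fn k i) = i ∧ ∀ i', comp (Fn k i) (Fn k i') = true := by decide +kernel
theorem d5' : ((List.range 84).all fun k => (List.range k).all fun j =>
    (List.range 3).any fun i => Rb k i && Fnn k i != Fnn j i) = true := by decide +kernel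
theorem d5 (j k : Fin 84) (h : j < k) : ∃ i ∈ Rn k, Fn k i ≠ Fn j i := by
  have := List.all_eq_true.1 (List.all_eq_true.1 d5' k (by simp)) j (by simpa using h)
  obtain ⟨i, hi, h2⟩ := List.any_eq_true.1 this
  rw [List.mem_range] at hi
  simp only [Bool.and_eq_true, bne_iff_ne] at h2
  exact ⟨⟨i, hi⟩, by simp [Rn, h2.1], fun e => h2.2 (congrArg Fin.val e)⟩
def agr (t j k : ℕ) : Bool := (List.range 3).all fun i => !t.testBit i || Fnn j i == Fnn k i
def tm (T : Finset (Fin 3)) : ℕ :=
  (if 0 ∈ T then 1 else 0) + (if 1 ∈ T then 2 else 0) + (if 2 ∈ T then 4 else 0)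
theorem tm_spec : ∀ T : Finset (Fin 3), tm T < 8 ∧ ∀ i : Fin 3, ((tm T).testBit i = true ↔ i ∈ T) := by
  decide +kernel
theorem agr_spec {T : Finset (Fin 3)} {j k : Fin 84} (h : agr (tm T) j k = true) :
    ∀ i ∈ T, Fn j i = Fn k i := by
  intro i hi
  have := List.all_eq_true.1 h i (by simp)
  rw [((tm_spec T).2 i).2 hi] at this
  exact Fin.ext (by simpa [Fn] using this)
theorem d6' : ((List.range 84).all fun k => (List.range 8).all fun t =>
    ((List.range 3).all fun i => !Rb k i || t.testBit i) ||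
      (List.range k).any fun j => agr t j k) = true := by decide +kernel
theorem d6 (k : Fin 84) (T : Finset (Fin 3)) (h : ¬ Rn k ⊆ T) :
    ∃ j < k, ∀ i ∈ T, Fn j i = Fn k i := by
  have := List.all_eq_true.1 (List.all_eq_true.1 d6' k (by simp)) (tm T) (by simp [(tm_spec T).1])
  rcases Bool.or_eq_true_iff.1 this with a | a
  · refine absurd (fun i hi => ?_) h
    have b := List.all_eq_true.1 a i (by simp)
    have c : Rb k i = true := (mem_filter.1 hi).2
    rw [c] at b
    exact ((tm_spec T).2 i).1 (by simpa using b)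
  · obtain ⟨j, hj, a⟩ := List.any_eq_true.1 a
    rw [List.mem_range] at hj
    exact ⟨⟨j, hj.trans k.2⟩, hj, agr_spec a⟩
theorem d7' : ((List.range 84).all fun k => (List.range 8).all fun t => (List.range 41).all fun v =>
    t.testBit (colnn v) || ((List.range 3).any fun i => t.testBit i && !compn v (Fnn k i)) ||
      (List.range 20).any fun n => Fnn (cand v n) (colnn v) == v && agr t (cand v n) k) = true := by
  decide +kernel
theorem d7 (k : Fin 84) (T : Finset (Fin 3)) (v : Fin 41) :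
    coln v ∈ T ∨ (∃ i ∈ T, comp v (Fn k i) = false) ∨
    ∃ k', Fn k' (coln v) = v ∧ ∀ i ∈ T, Fn k' i = Fn k i := by
  have := List.all_eq_true.1 (List.all_eq_true.1 (List.all_eq_true.1 d7' k (by simp)) (tm T)
    (by simp [(tm_spec T).1])) v (by simp)
  simp only [Bool.or_eq_true, List.any_eq_true, List.mem_range, Bool.and_eq_true,
    Bool.not_eq_true', beq_iff_eq] at this
  rcases this with (a | ⟨i, hi, a, b⟩) | ⟨j, hj, a, b⟩
  · exact Or.inl (((tm_spec T).2 (coln v)).1 a)
  · exact Or.inr (Or.inl ⟨⟨i, hi⟩, ((tm_spec T).2 ⟨i, hi⟩).1 a, b⟩)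
  · exact Or.inr (Or.inr ⟨⟨cand v j, Nat.mod_lt _ (by norm_num)⟩, Fin.ext a,
      agr_spec (j := ⟨cand v j, Nat.mod_lt _ (by norm_num)⟩) b⟩)
theorem d8 : ∀ r v, (∃ i, Fn (Gn r) i = v) ∨ v = Wn r ∨ (comp (Zn r) v = false ∧ Zn r ≠ v) := by
  decide +kernel
theorem d9 : (∀ r r', Zn r = Zn r' → r = r') ∧ ∀ r : Fin 8, ∃ e : Fin 4,
    (Zn r = Zn ⟨2 * e, by omega⟩ ∧ Wn r = Wn ⟨2 * e, by omega⟩) ∨
    (Wn r = Zn ⟨2 * e, by omega⟩ ∧ Zn r = Wn ⟨2 * e, by omega⟩) := by decide +kernel
def u25 (a : Fin 25) : Fin 41 := ⟨a, by omega⟩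
def Pr : Finset (Fin 25 × Fin 25) := univ.filter fun p => p.1 ≤ p.2 ∧ comp (u25 p.1) (u25 p.2) = true
theorem d10 : Pr.card = 105 := by decide +kernel

def e (v : Fin 41) : SdV Gam := ⟨fs v, ⟨v, subset_rfl⟩, (d0 v).1⟩

theorem e_inj : Function.Injective e := fun u v h => by
  have h' : fs u = fs v := congrArg Subtype.val h
  exact (d3 u v).1 ((d2 u v).1 h'.subset) ((d2 v u).1 h'.symm.subset)

theorem e_surj : Function.Surjective e := fun s => by
  obtain ⟨v, hv⟩ := d1 s.1 s.2.1 s.2.2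
  exact ⟨v, Subtype.ext hv⟩

theorem comp_iff (u v : Fin 41) :
    ((e u).1 ⊆ (e v).1 ∨ (e v).1 ⊆ (e u).1) ↔ comp u v = true := by
  show (fs u ⊆ fs v ∨ fs v ⊆ fs u) ↔ _
  rw [d2, d2, comp, compn, Bool.or_eq_true]; rfl

theorem pair_iff (u v : Fin 41) : ({e u, e v} : Finset (SdV Gam)) ∈ sd Gam ↔ comp u v = true := by
  rw [← comp_iff]
  simp only [sd, Set.mem_ofPred_eq, mem_insert, mem_singleton, forall_eq_or_imp, forall_eq,
    subset_refl, or_self, true_and, and_true]
  tauto

def col (s : SdV Gam) : Fin 3 := c3 s.1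
theorem col_e (v : Fin 41) : col (e v) = coln v := (d0 v).2.1
def F (k : Fin 84) (i : Fin 3) : SdV Gam := e (Fn k i)

theorem hF (k : Fin 84) (s : Finset (SdV Gam)) (h : ∀ v ∈ s, ∃ i, F k i = v) : s ∈ sd Gam := by
  intro a ha b hb
  obtain ⟨i, rfl⟩ := h a ha
  obtain ⟨i', rfl⟩ := h b hb
  exact (comp_iff _ _).2 ((d4 k i).2 i')

noncomputable instance : Fintype (SdV Gam) := Fintype.ofFinite _

theorem cm (K : Type) [Field K] : IsCM (srIdeal K (sd Gam)) 3 := by
  refine isCM (sd Gam) col F Rn (fun k i => by rw [F, col_e, (d4 k i).1]) ?_ hF ?_ ?_ ?_ 0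
  · intro u v hne hc hm
    obtain ⟨u, rfl⟩ := e_surj u
    obtain ⟨v, rfl⟩ := e_surj v
    rw [col_e, col_e] at hc
    exact hne (by rw [(d3 u v).2 hc ((pair_iff u v).1 hm)])
  · intro j k h
    obtain ⟨i, hi, hne⟩ := d5 j k h
    exact ⟨i, hi, fun h' => hne (e_inj h')⟩
  · intro k T h
    obtain ⟨j, hj, h'⟩ := d6 k T h
    exact ⟨j, hj, fun i hi => congrArg e (h' i hi)⟩
  · intro k T v hv
    obtain ⟨v, rfl⟩ := e_surj v
    rw [col_e] at hv ⊢
    rcases d7 k T v with h | ⟨i, hi, h⟩ | ⟨k', h1, h2⟩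
    · exact absurd h hv
    · right
      intro hm
      have := (comp_iff v (Fn k i)).1 (hm (e v) (mem_insert_self _ _) (F k i)
        (mem_insert_of_mem (mem_image_of_mem _ hi)))
      rw [h] at this
      cases this
    · exact Or.inl ⟨k', fun i hi => congrArg e (h2 i hi), congrArg e h1⟩

theorem sd_down : ∀ s ∈ sd Gam, ∀ t, t ⊆ s → t ∈ sd Gam :=
  fun _ hs _ ht a ha b hb => hs a (ht ha) b (ht hb)

theorem no_wlp (K : Type) [Field K] (θ : Fin 3 → MvPolynomial (SdV Gam) K)
    (hθ : IsLSOP (srIdeal K (sd Gam)) θ) :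
    ¬ WLP (srIdeal K (sd Gam) ⊔ Ideal.span (Set.range θ)) := by
  rintro ⟨l, hl, h⟩
  rcases h 1 with h | h
  · refine not_inj (sd Gam) sd_down ?_ (fun r => e (Zn r)) (fun r => e (Wn r))
      (fun r r' h => d9.1 r r' (e_inj h)) (fun r => F (Gn r)) ?_ (fun r => hF (Gn r)) ?_
      (fun t => X (e (Zn ⟨2 * t, by omega⟩)) * X (e (Wn ⟨2 * t, by omega⟩))) ?_ θ hθ l hl h
    · intro v a ha b hb
      rw [mem_singleton.1 ha, mem_singleton.1 hb]
      exact Or.inl subset_rfl
    · intro r i i' h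
      have := congrArg coln (e_inj h)
      rwa [(d4 _ i).1, (d4 _ i').1] at this
    · intro r v
      obtain ⟨v, rfl⟩ := e_surj v
      rcases d8 r v with ⟨i, h⟩ | h | ⟨h1, h2⟩
      · exact Or.inl ⟨i, congrArg e h⟩
      · exact Or.inr (Or.inl (congrArg e h))
      · refine Or.inr (Or.inr ⟨fun hm => ?_, fun h => h2 (e_inj h)⟩)
        rw [pair_iff, h1] at hm
        cases hm
    · intro r
      obtain ⟨t, ⟨h1, h2⟩ | ⟨h1, h2⟩⟩ := d9.2 r
      · exact ⟨t, by rw [h1, h2]⟩
      · exact ⟨t, by rw [h1, h2, mul_comm]⟩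
  · refine not_surj (sd Gam) sd_down (fun a => e (u25 a)) (T := Pr) (fun t => t.1.1)
      (fun t => t.1.2) (fun t => (pair_iff _ _).2 (mem_filter.1 t.2).2.2) ?_
      (by rw [Fintype.card_coe, d10]; norm_num) θ hθ.1 l hl h
    intro t t' h
    have hu : Function.Injective fun a => e (u25 a) := fun a b h =>
      Fin.ext (congrArg Fin.val (e_inj h) :)
    have h1 := (mem_filter.1 t.2).2.1
    have h2 := (mem_filter.1 t'.2).2.1
    rcases (Finsupp.single_add_single_eq_single_add_single one_ne_zero one_ne_zero).1 h with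
      ⟨a, b⟩ | ⟨-, a, b⟩ | ⟨a, -⟩
    · exact Subtype.ext (Prod.ext (hu a) (hu b))
    · have a' : t.1.1 = t'.1.2 := hu a
      have b' : t.1.2 = t'.1.1 := hu b
      exact Subtype.ext (Prod.ext (by omega) (by omega))
    · simp at a

end Pool.Agent.H76.SdEx
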