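import Pool.Agent.H76.SplitK4

set_option autoImplicit false

namespace Pool.Agent.H76.SplitG

lemma k8 : allB 37 (fun j => (j == 0) ==
    ((cS (RN j) == 0) && (cU (RN j) == 0) && (cW (RN j) == 0))) = true := by decide +kernel
lemma k9 : allB 6 (fun s => !((s == 0) || (s == 3)) || allB 32 fun u => allB 8 fun w =>
    !((mU s u 21 == mU 0 21 u) && (mW s u w 21 0 == mW 0 21 4 u w))) = true := by decide +kernel

lemma kA (i : ℕ) (hi : i < 37) : chk (MA i) (FA i) (LA i) = true := by
  interval_cases i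
  · exact kA0
  · exact kA1
  · exact kA2
  · exact kA3
  · exact kA4
  · exact kA5
  · exact kA6
  · exact kA7
  · exact kA8
  · exact kA9
  · exact kA10
  · exact kA11
  · exact kA12
  · exact kA13
  · exact kA14
  · exact kA15
  · exact kA16
  · exact kA17
  · exact kA18
  · exact kA19
  · exact kA20
  · exact kA21
  · exact kA22
  · exact kA23
  · exact kA24
  · exact kA25
  · exact kA26
  · exact kA27
  · exact kA28
  · exact kA29
  · exact kA30
  · exact kA31
  · exact kA32
  · exact kA33
  · exact kA34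
  · exact kA35
  · exact kA36

lemma LA_lt (i : ℕ) : LA i < 8 := Nat.mod_lt _ (by norm_num)

lemma R_eq_one (j : Fin 37) : dec (RN j) = 1 ↔ j = 0 := by
  have a := allB_spec k8 j.2
  simp only [beq_iff_eq] at a
  have h1 : (dec (RN j) = 1) ↔ ((cS (RN j) == 0) && (cU (RN j) == 0) && (cW (RN j) == 0)) = true := by
    simp only [Bool.and_eq_true, beq_iff_eq]
    constructor
    · intro h
      exact ⟨⟨congrArg G.s h, congrArg G.u h⟩, congrArg G.w h⟩
    · intro h; exact G.ext h.1.1 h.1.2 h.2
  rw [h1, ← a, beq_iff_eq, Fin.ext_iff]; rfl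

theorem split : Nonempty (MonoidAlgebra ℚ G ≃ₐ[ℚ]
    ((i : Fin 37) → Matrix (Fin (dd i)) (Fin (dd i)) ℚ)) := by
  refine SplitQ.split_of_data (fun i x => al i x.s x.u x.w) (fun i x => be i x.s x.u x.w)
    (fun i => ma i) (fun i => mb i) (fun i => dd i) (fun i => ?_) (fun i => ?_) (fun i x h1 h2 => ?_)
    (fun i => ?_) (fun i h => ?_) (fun i => ?_)
    (fun x => ⟨clN x.s x.u x.w, Nat.mod_lt _ (by norm_num)⟩) (fun j => dec (RN j))
    (fun x => dec (cjN x.s x.u x.w)) (fun x => ?_) (fun j => ?_) (fun j j' h h' => ?_)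
  · refine good_of_chk (LA_lt _) ?_
    exact kA i i.2
  · exact good_of_chk (LA_lt _) (allB_spec k3 i.2)
  · have a := allB_spec k4 i.2
    simp only [Bool.or_eq_true, beq_iff_eq, h2, false_or] at a
    have := allB_spec (allB_spec (allB_spec a x.hs) x.hu) x.hw
    simpa [h1] using this
  · have a := allB_spec k5 i.2
    simp only [Bool.and_eq_true, Bool.or_eq_true, beq_iff_eq] at a
    rw [sum_G (fun s u w => al i s u w * al i s u w), card_G]
    exact a.1.1
  · have a := allB_spec k5 i.2
    simp only [Bool.and_eq_true, Bool.or_eq_true, beq_iff_eq] at a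
    rw [sum_G (fun s u w => be i s u w * be i s u w), card_G]
    exact a.1.2.resolve_left h
  · have a := allB_spec k5 i.2
    simp only [Bool.and_eq_true, Bool.or_eq_true, beq_iff_eq] at a
    exact a.2
  · have a := allB_spec (allB_spec (allB_spec k6 x.hs) x.hu) x.hw
    simp only [Bool.and_eq_true, beq_iff_eq] at a
    exact G.ext a.1.1 a.1.2 a.2
  · have a := allB_spec k7 j.2
    rw [beq_iff_eq, ← sum_G (fun s u w => bif clN s u w == j then
      sumN 37 (fun i => (dd i : ℤ) * (ma i * al i s u w - mb i * be i s u w)) else 0)] at a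
    simp only [R_eq_one, card_G]
    simp only [sumN_eq, Bool.cond_eq_ite, beq_iff_eq] at a
    simp only [Fin.ext_iff]
    exact a
  · rw [(R_eq_one _).1 h, (R_eq_one _).1 h']

lemma c9 : allB 6 (fun s => allB 6 fun t => !(((s == 0) || (s == 3)) && ((t == 0) || (t == 3))) ||
    (((mS s t == 0) || (mS s t == 3)) && ((iS s == 0) || (iS s == 3)))) = true := by decide +kernel

def P : Subgroup G where
  carrier := {x | x.s = 0 ∨ x.s = 3}
  one_mem' := Or.inl rfl
  mul_mem' := by
    intro x y hx hy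
    have a := allB_spec (allB_spec c9 x.hs) y.hs
    simp only [Set.mem_ofPred_eq] at hx hy
    simp only [Bool.or_eq_true, Bool.and_eq_true, beq_iff_eq, Bool.not_eq_true', ← Bool.not_eq_true,
      hx, hy, and_self, not_true, false_or] at a
    exact a.1
  inv_mem' := by
    intro x hx
    have a := allB_spec (allB_spec c9 x.hs) x.hs
    simp only [Set.mem_ofPred_eq] at hx
    simp only [Bool.or_eq_true, Bool.and_eq_true, beq_iff_eq, Bool.not_eq_true', ← Bool.not_eq_true,
      hx, and_self, not_true, false_or] at a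
    exact a.2

def eqvP : P ≃ Fin 2 × Fin 32 × Fin 8 where
  toFun x := (⟨x.1.s / 3, by have := x.1.hs; omega⟩, ⟨x.1.u, x.1.hu⟩, ⟨x.1.w, x.1.hw⟩)
  invFun p := ⟨⟨3 * p.1, p.2.1, p.2.2, by have := p.1.2; omega, p.2.1.2, p.2.2.2⟩, by
    have := p.1.2
    change 3 * (p.1 : ℕ) = 0 ∨ 3 * (p.1 : ℕ) = 3
    omega⟩
  left_inv x := by
    have : x.1.s = 0 ∨ x.1.s = 3 := x.2
    refine Subtype.ext (G.ext ?_ rfl rfl)
    change 3 * (x.1.s / 3) = x.1.s
    omega
  right_inv p := by
    refine Prod.ext (Fin.ext ?_) rfl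
    change 3 * (p.1 : ℕ) / 3 = p.1
    omega

lemma card_P : Nat.card P = 2 ^ 9 := by
  rw [Nat.card_congr eqvP]; simp

noncomputable def SylP : Sylow 2 G :=
  (IsPGroup.of_card card_P).toSylow (by
    have h := P.card_mul_index
    rw [card_P, Nat.card_eq_fintype_card, card_G] at h
    have : P.index = 3 := by omega
    rw [this]; norm_num)

def x0 : P := ⟨⟨0, 21, 0, by norm_num, by norm_num, by norm_num⟩, Or.inl rfl⟩

noncomputable instance : Fintype P := Fintype.ofFinite _

lemma nonreal (y : P) : y * x0 ≠ x0⁻¹ * y := by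
  intro h
  have h1 : (y : G) * x0 = (x0 : G)⁻¹ * y := congrArg Subtype.val h
  have h2 : (x0 : G)⁻¹ = ⟨0, 21, 4, by norm_num, by norm_num, by norm_num⟩ :=
    G.ext (by decide +kernel) (by decide +kernel) (by decide +kernel)
  rw [h2] at h1
  have a := allB_spec k9 y.1.hs
  have hy : y.1.s = 0 ∨ y.1.s = 3 := y.2
  simp only [Bool.or_eq_true, beq_iff_eq, Bool.not_eq_true', ← Bool.not_eq_true,
      hy, not_true, false_or] at a
  have b := allB_spec (allB_spec a y.1.hu) y.1.hw
  simp only [Bool.and_eq_true, beq_iff_eq, Bool.not_eq_true', ← Bool.not_eq_true] at b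
  exact b ⟨congrArg G.u h1, congrArg G.w h1⟩

end Pool.Agent.H76.SplitG
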