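import Pool.Agent.H76.SplitG

set_option autoImplicit false

namespace Pool.Agent.H76.SplitG

lemma kA0_0 : chkS (MA 0) (FA 0) (LA 0) 0 = true := by decide +kernel
lemma kA0_1 : chkS (MA 0) (FA 0) (LA 0) 1 = true := by decide +kernel
lemma kA0_2 : chkS (MA 0) (FA 0) (LA 0) 2 = true := by decide +kernel
lemma kA0_3 : chkS (MA 0) (FA 0) (LA 0) 3 = true := by decide +kernel
lemma kA0_4 : chkS (MA 0) (FA 0) (LA 0) 4 = true := by decide +kernel
lemma kA0_5 : chkS (MA 0) (FA 0) (LA 0) 5 = true := by decide +kernel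
lemma kA0 : chk (MA 0) (FA 0) (LA 0) = true := by
  refine allB_of fun k hk => ?_
  interval_cases k
  exacts [kA0_0, kA0_1, kA0_2, kA0_3, kA0_4, kA0_5]
lemma kA1_0 : chkS (MA 1) (FA 1) (LA 1) 0 = true := by decide +kernel
lemma kA1_1 : chkS (MA 1) (FA 1) (LA 1) 1 = true := by decide +kernel
lemma kA1_2 : chkS (MA 1) (FA 1) (LA 1) 2 = true := by decide +kernel
lemma kA1_3 : chkS (MA 1) (FA 1) (LA 1) 3 = true := by decide +kernel
lemma kA1_4 : chkS (MA 1) (FA 1) (LA 1) 4 = true := by decide +kernel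
lemma kA1_5 : chkS (MA 1) (FA 1) (LA 1) 5 = true := by decide +kernel
lemma kA1 : chk (MA 1) (FA 1) (LA 1) = true := by
  refine allB_of fun k hk => ?_
  interval_cases k
  exacts [kA1_0, kA1_1, kA1_2, kA1_3, kA1_4, kA1_5]
lemma kA2_0 : chkS (MA 2) (FA 2) (LA 2) 0 = true := by decide +kernel
lemma kA2_1 : chkS (MA 2) (FA 2) (LA 2) 1 = true := by decide +kernel
lemma kA2_2 : chkS (MA 2) (FA 2) (LA 2) 2 = true := by decide +kernel
lemma kA2_3 : chkS (MA 2) (FA 2) (LA 2) 3 = true := by decide +kernel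
lemma kA2_4 : chkS (MA 2) (FA 2) (LA 2) 4 = true := by decide +kernel
lemma kA2_5 : chkS (MA 2) (FA 2) (LA 2) 5 = true := by decide +kernel
lemma kA2 : chk (MA 2) (FA 2) (LA 2) = true := by
  refine allB_of fun k hk => ?_
  interval_cases k
  exacts [kA2_0, kA2_1, kA2_2, kA2_3, kA2_4, kA2_5]
lemma kA3_0 : chkS (MA 3) (FA 3) (LA 3) 0 = true := by decide +kernel
lemma kA3_1 : chkS (MA 3) (FA 3) (LA 3) 1 = true := by decide +kernel
lemma kA3_2 : chkS (MA 3) (FA 3) (LA 3) 2 = true := by decide +kernel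
lemma kA3_3 : chkS (MA 3) (FA 3) (LA 3) 3 = true := by decide +kernel
lemma kA3_4 : chkS (MA 3) (FA 3) (LA 3) 4 = true := by decide +kernel
lemma kA3_5 : chkS (MA 3) (FA 3) (LA 3) 5 = true := by decide +kernel
lemma kA3 : chk (MA 3) (FA 3) (LA 3) = true := by
  refine allB_of fun k hk => ?_
  interval_cases k
  exacts [kA3_0, kA3_1, kA3_2, kA3_3, kA3_4, kA3_5]

end Pool.Agent.H76.SplitG
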