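import Pool.Agent.H76.SplitK1

set_option autoImplicit false

namespace Pool.Agent.H76.SplitG

lemma kA4 : chk (MA 4) (FA 4) (LA 4) = true := by decide +kernel
lemma kA5 : chk (MA 5) (FA 5) (LA 5) = true := by decide +kernel
lemma kA6 : chk (MA 6) (FA 6) (LA 6) = true := by decide +kernel
lemma kA7 : chk (MA 7) (FA 7) (LA 7) = true := by decide +kernel
lemma kA8 : chk (MA 8) (FA 8) (LA 8) = true := by decide +kernel
lemma kA9 : chk (MA 9) (FA 9) (LA 9) = true := by decide +kernel
lemma kA10 : chk (MA 10) (FA 10) (LA 10) = true := by decide +kernel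
lemma kA11 : chk (MA 11) (FA 11) (LA 11) = true := by decide +kernel
lemma kA12 : chk (MA 12) (FA 12) (LA 12) = true := by decide +kernel
lemma kA13 : chk (MA 13) (FA 13) (LA 13) = true := by decide +kernel
lemma kA14 : chk (MA 14) (FA 14) (LA 14) = true := by decide +kernel
lemma kA15 : chk (MA 15) (FA 15) (LA 15) = true := by decide +kernel
lemma kA16 : chk (MA 16) (FA 16) (LA 16) = true := by decide +kernel
lemma kA17 : chk (MA 17) (FA 17) (LA 17) = true := by decide +kernel
lemma kA18 : chk (MA 18) (FA 18) (LA 18) = true := by decide +kernel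
lemma kA19 : chk (MA 19) (FA 19) (LA 19) = true := by decide +kernel
lemma kA20 : chk (MA 20) (FA 20) (LA 20) = true := by decide +kernel
lemma kA21 : chk (MA 21) (FA 21) (LA 21) = true := by decide +kernel
lemma kA22 : chk (MA 22) (FA 22) (LA 22) = true := by decide +kernel
lemma kA23 : chk (MA 23) (FA 23) (LA 23) = true := by decide +kernel
lemma kA24 : chk (MA 24) (FA 24) (LA 24) = true := by decide +kernel
lemma kA25 : chk (MA 25) (FA 25) (LA 25) = true := by decide +kernel
lemma kA26 : chk (MA 26) (FA 26) (LA 26) = true := by decide +kernel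
lemma kA27 : chk (MA 27) (FA 27) (LA 27) = true := by decide +kernel
lemma kA28 : chk (MA 28) (FA 28) (LA 28) = true := by decide +kernel
lemma kA29 : chk (MA 29) (FA 29) (LA 29) = true := by decide +kernel
lemma kA30 : chk (MA 30) (FA 30) (LA 30) = true := by decide +kernel
lemma kA31 : chk (MA 31) (FA 31) (LA 31) = true := by decide +kernel
lemma kA32 : chk (MA 32) (FA 32) (LA 32) = true := by decide +kernel
lemma kA33 : chk (MA 33) (FA 33) (LA 33) = true := by decide +kernel
lemma kA34 : chk (MA 34) (FA 34) (LA 34) = true := by decide +kernel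
lemma kA35 : chk (MA 35) (FA 35) (LA 35) = true := by decide +kernel
lemma kA36 : chk (MA 36) (FA 36) (LA 36) = true := by decide +kernel

end Pool.Agent.H76.SplitG
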