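import Pool.Agent.H76.SplitK2

set_option autoImplicit false

namespace Pool.Agent.H76.SplitG

lemma kB0 : allB 35 (fun i => chk (MB i) (FB i) (LA i)) = true := by decide +kernel
lemma kB35_0 : chkS (MB 35) (FB 35) (LA 35) 0 = true := by decide +kernel
lemma kB35_1 : chkS (MB 35) (FB 35) (LA 35) 1 = true := by decide +kernel
lemma kB35_2 : chkS (MB 35) (FB 35) (LA 35) 2 = true := by decide +kernel
lemma kB35_3 : chkS (MB 35) (FB 35) (LA 35) 3 = true := by decide +kernel
lemma kB35_4 : chkS (MB 35) (FB 35) (LA 35) 4 = true := by decide +kernel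
lemma kB35_5 : chkS (MB 35) (FB 35) (LA 35) 5 = true := by decide +kernel
lemma kB35 : chk (MB 35) (FB 35) (LA 35) = true := by
  refine allB_of fun k hk => ?_
  interval_cases k
  exacts [kB35_0, kB35_1, kB35_2, kB35_3, kB35_4, kB35_5]
lemma kB36_0 : chkS (MB 36) (FB 36) (LA 36) 0 = true := by decide +kernel
lemma kB36_1 : chkS (MB 36) (FB 36) (LA 36) 1 = true := by decide +kernel
lemma kB36_2 : chkS (MB 36) (FB 36) (LA 36) 2 = true := by decide +kernel
lemma kB36_3 : chkS (MB 36) (FB 36) (LA 36) 3 = true := by decide +kernel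
lemma kB36_4 : chkS (MB 36) (FB 36) (LA 36) 4 = true := by decide +kernel
lemma kB36_5 : chkS (MB 36) (FB 36) (LA 36) 5 = true := by decide +kernel
lemma kB36 : chk (MB 36) (FB 36) (LA 36) = true := by
  refine allB_of fun k hk => ?_
  interval_cases k
  exacts [kB36_0, kB36_1, kB36_2, kB36_3, kB36_4, kB36_5]
lemma k3 : allB 37 (fun i => chk (MB i) (FB i) (LA i)) = true := by
  refine allB_of fun k hk => ?_
  by_cases h : k < 35
  · exact allB_spec kB0 h
  · have : k = 35 ∨ k = 36 := by omega
    rcases this with rfl | rfl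
    exacts [kB35, kB36]
lemma k4 : allB 37 (fun i => (mb i == 0) || allB 6 fun s => allB 32 fun u => allB 8 fun w =>
    (al i s u w == 0) || (be i s u w == al i s u w)) = true := by decide +kernel

end Pool.Agent.H76.SplitG
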