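import Pool.Agent.H76.SplitK3

set_option autoImplicit false

namespace Pool.Agent.H76.SplitG

lemma k5 : allB 37 (fun i =>
    ((ma i : ℤ) * (sumN 6 fun s => sumN 32 fun u => sumN 8 fun w => al i s u w * al i s u w)
      == 1536) &&
    ((mb i == 0) ||
      (mb i : ℤ) * (sumN 6 fun s => sumN 32 fun u => sumN 8 fun w => be i s u w * be i s u w)
      == 1536) &&
    ((dd i : ℤ) == ma i * al i 0 0 0 - mb i * be i 0 0 0)) = true := by decide +kernel
lemma k6 : allB 6 (fun s => allB 32 fun u => allB 8 fun w =>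
    (mS (cS (cjN s u w)) s == mS (cS (RN (clN s u w))) (cS (cjN s u w))) &&
    (mU (cS (cjN s u w)) (cU (cjN s u w)) u ==
      mU (cS (RN (clN s u w))) (cU (RN (clN s u w))) (cU (cjN s u w))) &&
    (mW (cS (cjN s u w)) (cU (cjN s u w)) (cW (cjN s u w)) u w ==
      mW (cS (RN (clN s u w))) (cU (RN (clN s u w))) (cW (RN (clN s u w)))
        (cU (cjN s u w)) (cW (cjN s u w)))) = true := by decide +kernel
lemma k7 : allB 37 (fun j =>
    (sumN 6 fun s => sumN 32 fun u => sumN 8 fun w => bif clN s u w == j then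
      sumN 37 (fun i => (dd i : ℤ) * (ma i * al i s u w - mb i * be i s u w)) else 0) ==
      bif j == 0 then 1536 else 0) = true := by decide +kernel

end Pool.Agent.H76.SplitG
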