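import Mathlib

set_option autoImplicit false

namespace Pool.Agent.H76.SplitQ

open MonoidAlgebra Module

section general
variable {G : Type} [Group G] [Fintype G]

instance : Module.Finite ℚ (MonoidAlgebra ℚ G) := Module.Finite.of_basis (MonoidAlgebra.basis G ℚ)
instance : Module.Free ℚ (MonoidAlgebra ℚ G) := Module.Free.of_basis (MonoidAlgebra.basis G ℚ)

lemma trace_eq (T : MonoidAlgebra ℚ G →ₗ[ℚ] MonoidAlgebra ℚ G) :
    LinearMap.trace ℚ _ T = ∑ x, (T (single x 1)).coeff x := by
  classical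
  rw [LinearMap.trace_eq_matrix_trace ℚ (MonoidAlgebra.basis G ℚ), Matrix.trace]
  refine Finset.sum_congr rfl fun x _ => ?_
  rw [Matrix.diag_apply, LinearMap.toMatrix_apply, MonoidAlgebra.basis_apply]
  rfl

lemma coeff_mul_sum (a b : MonoidAlgebra ℚ G) (g : G) :
    (a * b).coeff g = ∑ h, a.coeff h * b.coeff (h⁻¹ * g) := by
  rw [coeff_mul_apply_left, Finsupp.sum_fintype]
  intro h; simp

lemma coeff_mul_sum' (a b : MonoidAlgebra ℚ G) (g : G) :
    (a * b).coeff g = ∑ h, a.coeff (g * h⁻¹) * b.coeff h := by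
  rw [coeff_mul_apply_right, Finsupp.sum_fintype]
  intro h; simp

/-- the left ideal generated by `e`, as a rational subspace -/
noncomputable def LI (e : MonoidAlgebra ℚ G) : Submodule ℚ (MonoidAlgebra ℚ G) :=
  LinearMap.range (LinearMap.mulRight ℚ e)

omit [Fintype G] in
lemma mul_mem_LI (e a : MonoidAlgebra ℚ G) {x : MonoidAlgebra ℚ G} (hx : x ∈ LI e) :
    a * x ∈ LI e := by
  obtain ⟨y, rfl⟩ := hx
  exact ⟨a * y, by simp [mul_assoc]⟩

noncomputable def rho (e : MonoidAlgebra ℚ G) : MonoidAlgebra ℚ G →ₐ[ℚ] Module.End ℚ (LI e) where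
  toFun a := (LinearMap.mulLeft ℚ a).restrict (fun _ hx => mul_mem_LI e a hx)
  map_one' := by ext x; simp
  map_mul' a b := by ext x; simp [mul_assoc]
  map_zero' := by ext x; simp
  map_add' a b := by ext x; simp [add_mul]
  commutes' r := by
    refine LinearMap.ext fun x => Subtype.ext ?_
    simp [Algebra.algebraMap_eq_smul_one]

lemma trace_rho {e : MonoidAlgebra ℚ G} (he : e * e = e) (a : MonoidAlgebra ℚ G) :
    LinearMap.trace ℚ _ (rho e a) = ∑ x, (a * single x 1 * e).coeff x := by
  have h1 : ∀ x, (LinearMap.mulLeft ℚ a ∘ₗ LinearMap.mulRight ℚ e) x ∈ LI e := fun x =>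
    mul_mem_LI e a ⟨x, rfl⟩
  have h2 := LinearMap.trace_restrict_eq_of_forall_mem (LI e) _ h1
  have h3 : (LinearMap.mulLeft ℚ a ∘ₗ LinearMap.mulRight ℚ e).restrict (fun x _ => h1 x)
      = rho e a := by
    refine LinearMap.ext fun x => Subtype.ext ?_
    obtain ⟨x, y, rfl⟩ := x
    simp [rho, mul_assoc, he]
  rw [← h3, h2, trace_eq]
  simp [mul_assoc]

lemma finrank_LI {e : MonoidAlgebra ℚ G} (he : e * e = e) :
    (finrank ℚ (LI e) : ℚ) = Fintype.card G * e.coeff 1 := by
  have := trace_rho he 1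
  rw [map_one, LinearMap.trace_one] at this
  rw [this]
  simp

theorem split_of_idem [DecidableEq G] {ι : Type} [Fintype ι] (e : ι → MonoidAlgebra ℚ G)
    (he : ∀ i, e i * e i = e i) (d : ι → ℕ)
    (hd : ∀ i, (d i : ℚ) = Fintype.card G * (e i).coeff 1)
    (hF : ∀ g : G, ∑ i, (d i : ℚ) * ∑ x, (e i).coeff (x⁻¹ * g * x) =
      if g = 1 then (Fintype.card G : ℚ) else 0) :
    Nonempty (MonoidAlgebra ℚ G ≃ₐ[ℚ] ((i : ι) → Matrix (Fin (d i)) (Fin (d i)) ℚ)) := by
  have hfr : ∀ i, finrank ℚ (LI (e i)) = d i := fun i => by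
    have := finrank_LI (he i); rw [← hd] at this; exact_mod_cast this
  let b : ∀ i, Basis (Fin (d i)) ℚ (LI (e i)) := fun i => finBasisOfFinrankEq ℚ _ (hfr i)
  let Φ : MonoidAlgebra ℚ G →ₐ[ℚ] ((i : ι) → Matrix (Fin (d i)) (Fin (d i)) ℚ) :=
    AlgHom.pi fun i => (LinearMap.toMatrixAlgEquiv (b i)).toAlgHom.comp (rho (e i))
  have key : ∀ a : MonoidAlgebra ℚ G,
      ∑ i, (d i : ℚ) * LinearMap.trace ℚ _ (rho (e i) a) = Fintype.card G * a.coeff 1 := by
    intro a
    have h1 : ∀ i, LinearMap.trace ℚ _ (rho (e i) a) =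
        ∑ g, a.coeff g * ∑ x, (e i).coeff (x⁻¹ * g⁻¹ * x) := by
      intro i
      rw [trace_rho (he i)]
      simp only [Finset.mul_sum]
      rw [Finset.sum_comm]
      refine Finset.sum_congr rfl fun x _ => ?_
      rw [mul_assoc, coeff_mul_sum]
      refine Finset.sum_congr rfl fun g _ => ?_
      simp [mul_assoc]
    simp only [h1]
    calc ∑ i, (d i : ℚ) * ∑ g, a.coeff g * ∑ x, (e i).coeff (x⁻¹ * g⁻¹ * x)
        = ∑ g, a.coeff g * ∑ i, (d i : ℚ) * ∑ x, (e i).coeff (x⁻¹ * g⁻¹ * x) := by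
          generalize hT : (fun (i : ι) (g : G) => ∑ x, (e i).coeff (x⁻¹ * g⁻¹ * x)) = T
          have hT' : ∀ i g, ∑ x, (e i).coeff (x⁻¹ * g⁻¹ * x) = T i g := fun i g => by rw [← hT]
          simp only [hT', Finset.mul_sum]
          rw [Finset.sum_comm]
          refine Finset.sum_congr rfl fun g _ => Finset.sum_congr rfl fun i _ => by ring
      _ = _ := by
          simp only [hF, inv_eq_one, mul_ite, mul_zero]
          simp [mul_comm]
  have hc : (Fintype.card G : ℚ) ≠ 0 := by exact_mod_cast Fintype.card_ne_zero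
  have hinj : Function.Injective Φ := by
    rw [injective_iff_map_eq_zero]
    intro a ha
    have h0 : ∀ i, rho (e i) a = 0 := fun i => by
      have := congrFun ha i
      simpa [Φ] using this
    ext g
    have := key (a * single g⁻¹ 1)
    simp only [map_mul, h0, zero_mul, map_zero, mul_zero, Finset.sum_const_zero] at this
    simpa [hc] using this
  have hs : ∑ i, d i * d i = Fintype.card G := by
    have := hF 1
    simp only [mul_one, inv_mul_cancel, Finset.sum_const, Finset.card_univ, nsmul_eq_mul,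
      ← hd, if_true] at this
    exact_mod_cast this
  have hdim : finrank ℚ (MonoidAlgebra ℚ G) =
      finrank ℚ ((i : ι) → Matrix (Fin (d i)) (Fin (d i)) ℚ) := by
    rw [finrank_eq_card_basis (MonoidAlgebra.basis G ℚ), Module.finrank_pi_fintype]
    simp [Module.finrank_matrix, hs]
  have hsurj : Function.Surjective Φ :=
    (LinearMap.injective_iff_surjective_of_finrank_eq_finrank (f := Φ.toLinearMap) hdim).1 hinj
  exact ⟨AlgEquiv.ofBijective Φ ⟨hinj, hsurj⟩⟩

lemma trace_central_sq {ι : Type} [Fintype ι] {n : ι → ℕ}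
    (c : (i : ι) → Matrix (Fin (n i)) (Fin (n i)) ℚ) (hc : ∀ a, a * c = c * a) :
    0 ≤ LinearMap.trace ℚ _ (LinearMap.mulLeft ℚ (c * c)) := by
  classical
  have h1 : ∀ i, ∃ r : ℚ, c i = r • (1 : Matrix (Fin (n i)) (Fin (n i)) ℚ) := by
    intro i
    obtain ⟨r, hr⟩ := (Matrix.mem_range_scalar_iff_commute_single' (M := c i)).2 (fun j k => by
      have := congrFun (hc (Pi.single i (Matrix.single j k 1))) i
      simpa [Commute, SemiconjBy] using this)
    exact ⟨r, by rw [← hr]; simp [Matrix.smul_one_eq_diagonal]⟩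
  choose r hr using h1
  let b := Pi.basis (fun i => Matrix.stdBasis ℚ (Fin (n i)) (Fin (n i)))
  rw [LinearMap.trace_eq_matrix_trace ℚ b, Matrix.trace]
  refine Finset.sum_nonneg fun x _ => ?_
  rw [Matrix.diag_apply, LinearMap.toMatrix_apply]
  have : LinearMap.mulLeft ℚ (c * c) (b x) = (r x.1 * r x.1) • b x := by
    funext j
    simp only [b, Pi.basis_apply, LinearMap.mulLeft_apply, Pi.mul_apply, Pi.smul_apply, hr]
    by_cases h : j = x.1
    · subst h; simp [smul_smul]
    · simp [Pi.single_eq_of_ne h]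
  rw [this]
  simp [mul_self_nonneg]

theorem not_split (x : G) (hx : ∀ y, y * x ≠ x⁻¹ * y) :
    ¬ ∃ (ι : Type) (_ : Fintype ι) (n : ι → ℕ),
      Nonempty (MonoidAlgebra ℚ G ≃ₐ[ℚ] ((i : ι) → Matrix (Fin (n i)) (Fin (n i)) ℚ)) := by
  classical
  rintro ⟨ι, _, n, ⟨Φ⟩⟩
  let N : G → ℚ := fun g => ∑ y, if y * x = g * y then 1 else 0
  have hN : ∀ g h, N (h⁻¹ * g * h) = N g := by
    intro g h
    refine Fintype.sum_equiv (Equiv.mulLeft h) _ _ fun y => ?_
    simp only [Equiv.coe_mulLeft]
    refine if_congr ?_ rfl rfl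
    constructor
    · intro h1; rw [mul_assoc, h1]; group
    · intro h1
      have : y * x = h⁻¹ * (h * y * x) := by group
      rw [this, h1]; group
  let c : G → ℚ := fun g => N g - N g⁻¹
  let z : MonoidAlgebra ℚ G := .ofCoeff (Finsupp.equivFunOnFinite.symm c)
  have hz : ∀ g, z.coeff g = c g := fun g => rfl
  have hcc : ∀ g h, c (h⁻¹ * g * h) = c g := by
    intro g h
    have : (h⁻¹ * g * h)⁻¹ = h⁻¹ * g⁻¹ * h := by group
    simp only [c, this, hN]
  have hcen : ∀ a, a * z = z * a := by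
    intro a
    ext g
    rw [coeff_mul_sum, coeff_mul_sum']
    refine Finset.sum_congr rfl fun h _ => ?_
    rw [hz, hz, mul_comm, ← hcc (g * h⁻¹) h]
    congr 2; group
  have h1 : 0 ≤ LinearMap.trace ℚ _ (LinearMap.mulLeft ℚ (Φ z * Φ z)) :=
    trace_central_sq _ fun a => by
      obtain ⟨a, rfl⟩ := Φ.surjective a
      rw [← map_mul, ← map_mul, hcen]
  have h2 : LinearMap.mulLeft ℚ (Φ z * Φ z) =
      Φ.toLinearEquiv.conj (LinearMap.mulLeft ℚ (z * z)) := by
    refine LinearMap.ext fun a => ?_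
    simp [LinearEquiv.conj_apply]
  rw [h2, LinearMap.trace_conj', trace_eq] at h1
  have h3 : (z * z).coeff 1 = - ∑ g, c g * c g := by
    rw [coeff_mul_sum, ← Finset.sum_neg_distrib]
    refine Finset.sum_congr rfl fun g _ => ?_
    simp only [hz, c, mul_one, inv_inv]; ring
  simp only [LinearMap.mulLeft_apply, coeff_mul_single_apply, mul_inv_cancel, mul_one, h3,
    Finset.sum_const, Finset.card_univ, nsmul_eq_mul] at h1
  have h4 : 0 < c x := by
    have : N x⁻¹ = 0 := Finset.sum_eq_zero fun y _ => if_neg (hx y)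
    simp only [c, this, sub_zero]
    refine Finset.sum_pos' (fun y _ => by split_ifs <;> norm_num) ⟨1, Finset.mem_univ _, by simp⟩
  have h5 : 0 < ∑ g, c g * c g :=
    Finset.sum_pos' (fun g _ => mul_self_nonneg _) ⟨x, Finset.mem_univ _, mul_pos h4 h4⟩
  have h6 : (0 : ℚ) < Fintype.card G := by exact_mod_cast Fintype.card_pos
  nlinarith

/-- signed indicator functions of subgroups -/
def Good (ε : G → ℤ) : Prop :=
  (∀ x, ε x ≠ 0 → ε x * ε x = 1) ∧ ∀ x y, ε x ≠ 0 → ε y ≠ 0 → ε (x * y) = ε x * ε y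

lemma Good.left {ε : G → ℤ} (h : Good ε) {x : G} (hx : ε x ≠ 0) (y : G) :
    ε (x * y) = ε x * ε y := by
  by_cases hy : ε y = 0
  · rw [hy, mul_zero]
    by_contra h1
    have h2 : ∀ k : ℕ, ε (x ^ k * (x * y)) ≠ 0 := by
      intro k
      induction k with
      | zero => simpa using h1
      | succ k ih => rw [pow_succ', mul_assoc, h.2 _ _ hx ih]; exact mul_ne_zero hx ih
    have h3 := h2 (Fintype.card G - 1)
    rw [← mul_assoc, ← pow_succ, Nat.sub_add_cancel Fintype.card_pos, pow_card_eq_one,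
      one_mul] at h3
    exact h3 hy
  · exact h.2 _ _ hx hy

lemma Good.right {ε : G → ℤ} (h : Good ε) {x : G} (hx : ε x ≠ 0) (y : G) :
    ε (y * x) = ε y * ε x := by
  by_cases hy : ε y = 0
  · rw [hy, zero_mul]
    by_contra h1
    have h2 : ∀ k : ℕ, ε ((y * x) * x ^ k) ≠ 0 := by
      intro k
      induction k with
      | zero => simpa using h1
      | succ k ih => rw [pow_succ, ← mul_assoc, h.2 _ _ ih hx]; exact mul_ne_zero ih hx
    have h3 := h2 (Fintype.card G - 1)
    rw [mul_assoc, ← pow_succ', Nat.sub_add_cancel Fintype.card_pos, pow_card_eq_one,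
      mul_one] at h3
    exact h3 hy
  · exact h.2 _ _ hy hx

lemma Good.invl {ε : G → ℤ} (h : Good ε) {x : G} (hx : ε x ≠ 0) (y : G) :
    ε x * ε (x⁻¹ * y) = ε y := by
  rw [← h.left hx]; simp

lemma Good.invr {ε : G → ℤ} (h : Good ε) {x : G} (hx : ε x ≠ 0) (y : G) :
    ε (y * x⁻¹) * ε x = ε y := by
  rw [← h.right hx]; simp

noncomputable def EE (ε : G → ℤ) : MonoidAlgebra ℚ G :=
  .ofCoeff (Finsupp.equivFunOnFinite.symm fun g => (ε g : ℚ))

lemma EE_coeff (ε : G → ℤ) (g : G) : (EE ε).coeff g = ε g := rfl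

lemma EE_mul {α β : G → ℤ} (ha : Good α) (hb : Good β) (hab : ∀ x, α x ≠ 0 → β x = α x) :
    EE α * EE β = ((∑ x, α x * α x : ℤ) : ℚ) • EE β ∧
    EE β * EE α = ((∑ x, α x * α x : ℤ) : ℚ) • EE β := by
  constructor
  · ext g
    rw [coeff_mul_sum, coeff_smul_apply, smul_eq_mul, EE_coeff]
    push_cast
    rw [Finset.sum_mul]
    refine Finset.sum_congr rfl fun x _ => ?_
    simp only [EE_coeff]
    by_cases hx : α x = 0
    · simp [hx]
    · have h1 := hb.invl (x := x) (by rw [hab x hx]; exact hx) g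
      rw [hab x hx] at h1
      have h2 := ha.1 x hx
      have h3 : α x * β (x⁻¹ * g) = α x * α x * β g := by rw [h1, h2, one_mul]
      exact_mod_cast h3
  · ext g
    rw [coeff_mul_sum', coeff_smul_apply, smul_eq_mul, EE_coeff]
    push_cast
    rw [Finset.sum_mul]
    refine Finset.sum_congr rfl fun x _ => ?_
    simp only [EE_coeff]
    by_cases hx : α x = 0
    · simp [hx]
    · have h1 := hb.invr (x := x) (by rw [hab x hx]; exact hx) g
      rw [hab x hx] at h1
      have h2 := ha.1 x hx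
      have h3 : β (g * x⁻¹) * α x = α x * α x * β g := by rw [h1, h2, one_mul]
      exact_mod_cast h3

theorem split_of_data [DecidableEq G] {k : ℕ} (α β : Fin k → G → ℤ) (ma mb d : Fin k → ℕ)
    (ha : ∀ i, Good (α i)) (hb : ∀ i, Good (β i)) (hab : ∀ i x, α i x ≠ 0 → mb i ≠ 0 → β i x = α i x)
    (hma : ∀ i, (ma i : ℤ) * ∑ x, α i x * α i x = Fintype.card G)
    (hmb : ∀ i, mb i ≠ 0 → (mb i : ℤ) * ∑ x, β i x * β i x = Fintype.card G)
    (hd : ∀ i, (d i : ℤ) = ma i * α i 1 - mb i * β i 1)
    (cl : G → Fin k) (R : Fin k → G) (cj : G → G) (hcj : ∀ g, cj g * g = R (cl g) * cj g)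
    (hS : ∀ j, (∑ y, if cl y = j then ∑ i, (d i : ℤ) * (ma i * α i y - mb i * β i y) else 0) =
      if R j = 1 then (Fintype.card G : ℤ) else 0) (h1 : ∀ j j', R j = 1 → R j' = 1 → j = j') :
    Nonempty (MonoidAlgebra ℚ G ≃ₐ[ℚ] ((i : Fin k) → Matrix (Fin (d i)) (Fin (d i)) ℚ)) := by
  have hc : (Fintype.card G : ℚ) ≠ 0 := by exact_mod_cast Fintype.card_ne_zero
  set c : ℚ := (Fintype.card G : ℚ) with hcdef
  let e : Fin k → MonoidAlgebra ℚ G := fun i =>
    ((ma i : ℚ) / c) • EE (α i) - ((mb i : ℚ) / c) • EE (β i)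
  have hec : ∀ i g, (e i).coeff g = ((ma i * α i g - mb i * β i g : ℤ) : ℚ) / c := by
    intro i g
    simp only [e, coeff_sub, Finsupp.sub_apply, coeff_smul_apply, EE_coeff, smul_eq_mul]
    push_cast; ring
  refine split_of_idem e (fun i => ?_) d (fun i => ?_) (fun g => ?_)
  · have a1 := (EE_mul (ha i) (ha i) (fun _ _ => rfl)).1
    have a2 : (ma i : ℚ) * ((∑ x, α i x * α i x : ℤ) : ℚ) = c := by
      rw [hcdef]; exact_mod_cast hma i
    by_cases h0 : mb i = 0
    · simp only [e, h0, Nat.cast_zero, zero_div, zero_smul, sub_zero, smul_mul_smul_comm, a1,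
        smul_smul]
      congr 1; field_simp; rw [← a2]; ring
    · have b1 := (EE_mul (hb i) (hb i) (fun _ _ => rfl)).1
      have b2 : (mb i : ℚ) * ((∑ x, β i x * β i x : ℤ) : ℚ) = c := by
        rw [hcdef]; exact_mod_cast hmb i h0
      obtain ⟨c1, c2⟩ := EE_mul (ha i) (hb i) (fun x hx => hab i x hx h0)
      simp only [e, sub_mul, mul_sub, smul_mul_smul_comm, a1, b1, c1, c2, smul_smul]
      generalize ((∑ x, α i x * α i x : ℤ) : ℚ) = A at a2
      generalize ((∑ x, β i x * β i x : ℤ) : ℚ) = B at b2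
      have e1 : (ma i : ℚ) / c * (ma i / c) * A = ma i / c := by
        field_simp; rw [← a2]; ring
      have e2 : (ma i : ℚ) / c * (mb i / c) * A = mb i / c := by
        field_simp; rw [← a2]
      have e3 : (mb i : ℚ) / c * (ma i / c) * A = mb i / c := by
        field_simp; rw [← a2]
      have e4 : (mb i : ℚ) / c * (mb i / c) * B = mb i / c := by
        field_simp; rw [← b2]
      rw [e1, e2, e3, e4]; abel
  · rw [hec, ← hd, ← hcdef]; field_simp; push_cast; rfl
  · let F : G → ℚ := fun y => ((∑ i, (d i : ℤ) * (ma i * α i y - mb i * β i y) : ℤ) : ℚ)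
    let n : G → ℚ := fun y => ∑ x, if x⁻¹ * g * x = y then 1 else 0
    have hn : ∀ y, n y = n (R (cl y)) := by
      intro y
      refine Fintype.sum_equiv (Equiv.mulRight (cj y)⁻¹) _ _ fun x => ?_
      simp only [Equiv.coe_mulRight]
      have hR : R (cl y) = cj y * y * (cj y)⁻¹ := by rw [hcj]; group
      rw [hR]
      refine if_congr ?_ rfl rfl
      constructor
      · intro h; rw [← h]; group
      · intro h
        have : x⁻¹ * g * x = (cj y)⁻¹ * ((x * (cj y)⁻¹)⁻¹ * g * (x * (cj y)⁻¹)) * cj y := by group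
        rw [this, h]; group
    calc ∑ i, (d i : ℚ) * ∑ x, (e i).coeff (x⁻¹ * g * x)
        = ∑ x, F (x⁻¹ * g * x) / c := by
          simp only [Finset.mul_sum, hec]
          rw [Finset.sum_comm]
          refine Finset.sum_congr rfl fun x _ => ?_
          simp only [F]; push_cast
          rw [Finset.sum_div]
          refine Finset.sum_congr rfl fun i _ => by ring
      _ = ∑ y, n y * (F y / c) := by
          simp only [n, Finset.sum_mul]
          rw [Finset.sum_comm]
          refine Finset.sum_congr rfl fun x _ => ?_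
          simp
      _ = ∑ y, ∑ j, n (R j) * ((if cl y = j then F y else 0) / c) := by
          refine Finset.sum_congr rfl fun y _ => ?_
          rw [hn y, Finset.sum_eq_single (cl y)]
          · simp
          · intro j _ hj; simp [Ne.symm hj]
          · simp
      _ = ∑ j, n (R j) * ((∑ y, if cl y = j then F y else 0) / c) := by
          rw [Finset.sum_comm]
          refine Finset.sum_congr rfl fun j _ => ?_
          rw [Finset.sum_div, Finset.mul_sum]
      _ = ∑ j, n (R j) * (if R j = 1 then 1 else 0) := by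
          refine Finset.sum_congr rfl fun j _ => ?_
          have h2 : (∑ y, if cl y = j then F y else 0) = if R j = 1 then c else 0 := by
            have := congrArg (Int.cast : ℤ → ℚ) (hS j)
            simpa [F, hcdef] using this
          rw [h2]; split_ifs <;> simp [hc]
      _ = n 1 := by
          have hR : R (cl 1) = 1 := by simpa using (hcj 1).symm
          rw [Finset.sum_eq_single (cl 1)]
          · simp [hR]
          · intro j _ hj
            rw [if_neg (fun h => hj (h1 _ _ h hR)), mul_zero]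
          · simp
      _ = _ := by
          simp only [n]
          have : ∀ x : G, (x⁻¹ * g * x = 1) ↔ g = 1 := fun x => by
            constructor
            · intro h
              have : g = x * (x⁻¹ * g * x) * x⁻¹ := by group
              rw [this, h]; group
            · rintro rfl; group
          simp only [this]
          split_ifs <;> simp [hcdef]

end general

end Pool.Agent.H76.SplitQ
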