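import Mathlib

set_option autoImplicit false

namespace Pool.Agent.H76.StdId

open List

section sign
variable {ι : Type} [LinearOrder ι]

def e (a b : ι) : ℤ := if a < b then 1 else -1

def cr (l₁ l₂ : List ι) : ℤ := (l₁.map fun a => (l₂.map (e a)).prod).prod

def sg : List ι → ℤ
  | [] => 1
  | a :: l => (l.map (e a)).prod * sg l

lemma cr_nil (l : List ι) : cr [] l = 1 := by simp [cr]
lemma cr_cons (a : ι) (l₁ l₂ : List ι) : cr (a :: l₁) l₂ = (l₂.map (e a)).prod * cr l₁ l₂ := by
  simp [cr]
lemma cr_append_left (l₁ l₂ l : List ι) : cr (l₁ ++ l₂) l = cr l₁ l * cr l₂ l := by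
  simp [cr]
lemma cr_append_right (l l₁ l₂ : List ι) : cr l (l₁ ++ l₂) = cr l l₁ * cr l l₂ := by
  induction l with
  | nil => simp [cr_nil]
  | cons a l ih => simp only [cr_cons, ih, map_append, prod_append]; ring

lemma sg_append (l₁ l₂ : List ι) : sg (l₁ ++ l₂) = sg l₁ * sg l₂ * cr l₁ l₂ := by
  induction l₁ with
  | nil => simp [sg, cr_nil]
  | cons a l ih => simp only [cons_append, sg, ih, cr_cons, map_append, prod_append]; ring

lemma e_swap {a b : ι} (h : a ≠ b) : e a b = - e b a := by
  unfold e
  rcases lt_or_gt_of_ne h with h | h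
  · simp [h, h.not_gt]
  · simp [h, h.not_gt]

lemma cr_single (a : ι) (l : List ι) (h : a ∉ l) :
    (l.map (e a)).prod = (-1) ^ l.length * cr l [a] := by
  induction l with
  | nil => simp [cr_nil]
  | cons b l ih =>
    have h1 : a ≠ b := fun hh => h (hh ▸ mem_cons_self)
    have h2 : a ∉ l := fun hh => h (mem_cons_of_mem _ hh)
    simp only [map_cons, prod_cons, ih h2, cr_cons, length_cons, map_nil, prod_nil, e_swap h1]
    ring

lemma cr_swap (l₁ l₂ : List ι) (h : l₁.Disjoint l₂) :
    cr l₁ l₂ = (-1) ^ (l₁.length * l₂.length) * cr l₂ l₁ := by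
  induction l₁ with
  | nil => simp [cr]
  | cons a l ih =>
    have h1 : a ∉ l₂ := fun hh => h mem_cons_self hh
    have h2 : l.Disjoint l₂ := fun x hx hy => h (mem_cons_of_mem _ hx) hy
    have h3 : cr l₂ (a :: l) = cr l₂ [a] * cr l₂ l := by
      rw [← cr_append_right]; rfl
    rw [cr_cons, ih h2, cr_single a l₂ h1, h3, length_cons]
    ring

lemma sg_swap (u a b w : List ι) (h : a.Disjoint b) :
    sg (u ++ a ++ b ++ w) = (-1) ^ (a.length * b.length) * sg (u ++ b ++ a ++ w) := by
  simp only [sg_append, cr_append_left, cr_swap a b h]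
  ring

lemma sg_ofFn (n : ℕ) (f : Fin n → ι) :
    sg (List.ofFn f) = ∏ i, ∏ j ∈ Finset.Ioi i, e (f i) (f j) := by
  induction n with
  | zero => simp [sg]
  | succ n ih =>
    rw [List.ofFn_succ, sg, ih, Fin.prod_univ_succ, Fin.prod_Ioi_zero]
    simp only [Fin.prod_Ioi_succ, List.map_ofFn, List.prod_ofFn, Function.comp]

lemma sign_eq (n : ℕ) (σ : Equiv.Perm (Fin n)) :
    ((Equiv.Perm.sign σ : ℤˣ) : ℤ) = sg (List.ofFn σ) := by
  rw [sg_ofFn, Equiv.Perm.sign_eq_prod_prod_Ioi]
  simp only [Units.coe_prod, e]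
  refine Finset.prod_congr rfl fun i _ => Finset.prod_congr rfl fun j _ => ?_
  split_ifs <;> simp

end sign

section paths
variable {ι G : Type} [AddCommGroup G] [DecidableEq G] (d : ι → G)

def deg (l : List ι) : G := (l.map d).sum

/-- partial sums at the proper prefixes -/
def q : G → List ι → Multiset G
  | _, [] => 0
  | a, i :: l => a ::ₘ q (a + d i) l

/-- all partial sums -/
def ps (a : G) (l : List ι) : Multiset G := q d a l + {a + deg d l}

omit [DecidableEq G] in
lemma deg_nil : deg d [] = 0 := by simp [deg]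
omit [DecidableEq G] in
lemma deg_cons (i : ι) (l : List ι) : deg d (i :: l) = d i + deg d l := by simp [deg]
omit [DecidableEq G] in
lemma deg_append (l₁ l₂ : List ι) : deg d (l₁ ++ l₂) = deg d l₁ + deg d l₂ := by simp [deg]

omit [DecidableEq G] in
lemma q_append (a : G) (l₁ l₂ : List ι) :
    q d a (l₁ ++ l₂) = q d a l₁ + q d (a + deg d l₁) l₂ := by
  induction l₁ generalizing a with
  | nil => simp [q, deg_nil]
  | cons i l ih => simp [q, ih, deg_cons, add_assoc]

omit [DecidableEq G] in
lemma ps_append (a : G) (l₁ l₂ : List ι) :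
    ps d a (l₁ ++ l₂) = q d a l₁ + ps d (a + deg d l₁) l₂ := by
  simp [ps, q_append, deg_append, add_assoc]

omit [DecidableEq G] in
lemma ps_cons (a : G) (i : ι) (l : List ι) : ps d a (i :: l) = a ::ₘ ps d (a + d i) l := by
  simp [ps, q, deg_cons, add_assoc]

omit [DecidableEq G] in
lemma ps_nil (a : G) : ps d a [] = {a} := by simp [ps, q, deg_nil]

omit [DecidableEq G] in
lemma card_ps (a : G) (l : List ι) : (ps d a l).card = l.length + 1 := by
  induction l generalizing a with
  | nil => simp [ps_nil]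
  | cons i l ih => simp [ps_cons, ih]

def First (a v : G) (u : List ι) : Prop := a + deg d u = v ∧ v ∉ q d a u

def Loop (v : G) (B : List ι) : Prop := ∃ i t, B = i :: t ∧ First d (v + d i) v t

omit [DecidableEq G] in
lemma first_cons {a v : G} {i : ι} {t : List ι} (h : First d a v (i :: t)) :
    a ≠ v ∧ First d (a + d i) v t := by
  obtain ⟨h1, h2⟩ := h
  simp only [q, Multiset.mem_cons, not_or] at h2
  refine ⟨fun hh => h2.1 hh.symm, ?_, h2.2⟩
  rw [← h1, deg_cons, add_assoc]

omit [DecidableEq G] in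
lemma first_unique {a v : G} {u u' r r' : List ι} (h : First d a v u) (h' : First d a v u')
    (e : u ++ r = u' ++ r') : u = u' := by
  induction u generalizing a u' with
  | nil =>
    cases u' with
    | nil => rfl
    | cons j t => exact absurd (by simpa [deg_nil] using h.1) (first_cons d h').1
  | cons i t ih =>
    cases u' with
    | nil => exact absurd (by simpa [deg_nil] using h'.1) (first_cons d h).1
    | cons j t' =>
      simp only [cons_append, cons.injEq] at e
      obtain ⟨rfl, e⟩ := e
      rw [ih (first_cons d h).2 (first_cons d h').2 e]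

lemma first_exists {a v : G} {l : List ι} (h : v ∈ ps d a l) :
    ∃ u r, l = u ++ r ∧ First d a v u := by
  induction l generalizing a with
  | nil =>
    refine ⟨[], [], rfl, ?_, by simp [q]⟩
    simp only [ps_nil, Multiset.mem_singleton] at h
    simp [deg_nil, h]
  | cons i t ih =>
    by_cases hav : a = v
    · exact ⟨[], i :: t, rfl, by simp [deg_nil, hav], by simp [q]⟩
    · rw [ps_cons, Multiset.mem_cons] at h
      rcases h with h | h
      · exact absurd h.symm hav
      · obtain ⟨u, r, rfl, h1, h2⟩ := ih h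
        refine ⟨i :: u, r, rfl, ?_, ?_⟩
        · rw [deg_cons, ← add_assoc, h1]
        · simp only [q, Multiset.mem_cons, not_or]
          exact ⟨fun hh => hav hh.symm, h2⟩

lemma first_count {a v : G} {u : List ι} (r : List ι) (h : First d a v u) :
    (ps d a (u ++ r)).count v = (ps d v r).count v := by
  rw [ps_append, h.1, Multiset.count_add, Multiset.count_eq_zero_of_notMem h.2, zero_add]

omit [DecidableEq G] in
lemma loop_deg {v : G} {B : List ι} (h : Loop d v B) : deg d B = 0 := by
  obtain ⟨i, t, rfl, h1, -⟩ := h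
  rw [deg_cons]
  rw [add_assoc] at h1
  simpa using h1

omit [DecidableEq G] in
lemma loop_ne {v : G} {B : List ι} (h : Loop d v B) : B ≠ [] := by
  obtain ⟨i, t, rfl, -⟩ := h
  simp

omit [DecidableEq G] in
lemma loops_unique {v : G} {L L' : List (List ι)} {w w' : List ι} (h : ∀ B ∈ L, Loop d v B)
    (h' : ∀ B ∈ L', Loop d v B) (hl : L.length = L'.length)
    (e : L.flatten ++ w = L'.flatten ++ w') : L = L' ∧ w = w' := by
  induction L generalizing L' with
  | nil =>
    cases L' with
    | nil => simpa using e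
    | cons _ _ => simp at hl
  | cons B L ih =>
    cases L' with
    | nil => simp at hl
    | cons B' L' =>
      obtain ⟨i, t, rfl, h1⟩ := h B mem_cons_self
      obtain ⟨j, t', rfl, h2⟩ := h' B' mem_cons_self
      simp only [flatten_cons, cons_append, append_assoc, cons.injEq] at e
      obtain ⟨rfl, e⟩ := e
      have ht := first_unique d h1 h2 e
      subst ht
      have e' := append_cancel_left e
      obtain ⟨h3, h4⟩ := ih (fun B hB => h B (mem_cons_of_mem _ hB))
        (fun B hB => h' B (mem_cons_of_mem _ hB)) (by simpa using hl) e'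
      exact ⟨by rw [h3], h4⟩

lemma loops_exists (v : G) (m : ℕ) (r : List ι) (h : m + 1 ≤ (ps d v r).count v) :
    ∃ L : List (List ι), ∃ w, r = L.flatten ++ w ∧ L.length = m ∧ ∀ B ∈ L, Loop d v B := by
  induction m generalizing r with
  | zero => exact ⟨[], r, by simp, rfl, by simp⟩
  | succ m ih =>
    cases r with
    | nil => simp [ps_nil] at h
    | cons i t =>
      rw [ps_cons, Multiset.count_cons_self] at h
      have hv : v ∈ ps d (v + d i) t := by
        rw [← Multiset.one_le_count_iff_mem]; omega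
      obtain ⟨u, r, rfl, hu⟩ := first_exists d hv
      rw [first_count d r hu] at h
      obtain ⟨L, w, rfl, hL, hB⟩ := ih r (by omega)
      refine ⟨(i :: u) :: L, w, by simp, by simp [hL], ?_⟩
      intro B hB'
      rcases mem_cons.1 hB' with rfl | hB'
      · exact ⟨i, u, rfl, hu⟩
      · exact hB B hB'

omit [DecidableEq G] in
lemma deg_flatten {L : List (List ι)} (h : ∀ B ∈ L, deg d B = 0) : deg d L.flatten = 0 := by
  induction L with
  | nil => simp [deg_nil]
  | cons B L ih =>
    rw [flatten_cons, deg_append, h B mem_cons_self, ih fun B hB => h B (mem_cons_of_mem _ hB),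
      add_zero]

omit [DecidableEq G] in
lemma q_flatten (v : G) {L : List (List ι)} (h : ∀ B ∈ L, deg d B = 0) :
    q d v L.flatten = (L.map (q d v)).sum := by
  induction L with
  | nil => simp [q]
  | cons B L ih =>
    rw [flatten_cons, q_append, h B mem_cons_self, add_zero,
      ih fun B hB => h B (mem_cons_of_mem _ hB)]
    simp

omit [DecidableEq G] in
lemma ps_perm (a : G) (u w : List ι) {L L' : List (List ι)} (h : ∀ B ∈ L, deg d B = 0)
    (hp : L ~ L') : ps d a (u ++ L.flatten ++ w) = ps d a (u ++ L'.flatten ++ w) := by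
  have h' : ∀ B ∈ L', deg d B = 0 := fun B hB => h B (hp.mem_iff.2 hB)
  simp only [append_assoc, ps_append, deg_flatten d h, deg_flatten d h', q_flatten d _ h,
    q_flatten d _ h', (hp.map _).sum_eq]

end paths

lemma sum_classes {α A : Type} [AddCommMonoid A] (X : Finset α) (f : α → A) (R : α → α → Prop)
    [DecidableRel R]
    (hr : ∀ x ∈ X, R x x) (hs : ∀ x y, R x y → R y x) (ht : ∀ x y z, R x y → R y z → R x z)
    (h0 : ∀ x ∈ X, ∑ y ∈ X.filter (R x), f y = 0) : ∑ x ∈ X, f x = 0 := by
  classical
  rw [← Finset.sum_fiberwise_of_maps_to (s := X) (t := X.image (fun x => X.filter (R x)))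
    (g := fun x => X.filter (R x)) (fun x hx => Finset.mem_image_of_mem _ hx)]
  refine Finset.sum_eq_zero fun c hc => ?_
  obtain ⟨x, hx, rfl⟩ := Finset.mem_image.1 hc
  rw [← h0 x hx]
  refine Finset.sum_congr ?_ fun _ _ => rfl
  ext y
  simp only [Finset.mem_filter]
  constructor
  · rintro ⟨hy, h⟩
    have : y ∈ X.filter (R y) := Finset.mem_filter.2 ⟨hy, hr y hy⟩
    rw [h] at this
    exact Finset.mem_filter.1 this
  · rintro ⟨hy, h⟩
    refine ⟨hy, ?_⟩
    ext z
    simp only [Finset.mem_filter]
    exact ⟨fun ⟨hz, h'⟩ => ⟨hz, ht _ _ _ h h'⟩, fun ⟨hz, h'⟩ => ⟨hz, ht _ _ _ (hs _ _ h) h'⟩⟩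

section main
variable {ι G A : Type} [LinearOrder ι] [AddCommGroup G] [DecidableEq G] [Ring A]
  (d : ι → G) (x : ι → A)

def F (l : List ι) : A := sg l • (l.map x).prod

omit [DecidableEq G] in
lemma F_swap (hc : ∀ a b : List ι, deg d a = 0 → deg d b = 0 →
      (a.map x).prod * (b.map x).prod = (b.map x).prod * (a.map x).prod)
    (u a b w : List ι) (h : a.Disjoint b) (ha : deg d a = 0) (hb : deg d b = 0) :
    F x (u ++ a ++ b ++ w) = ((-1 : ℤ) ^ (a.length * b.length)) • F x (u ++ b ++ a ++ w) := by
  unfold F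
  rw [sg_swap u a b w h, smul_smul]
  congr 1
  simp only [map_append, prod_append]
  rw [mul_assoc (u.map x).prod, hc a b ha hb, ← mul_assoc]

omit [DecidableEq G] in
lemma F_perm (hc : ∀ a b : List ι, deg d a = 0 → deg d b = 0 →
      (a.map x).prod * (b.map x).prod = (b.map x).prod * (a.map x).prod)
    (w : List ι) {L L' : List (List ι)} (hp : L ~ L') (u : List ι) (h : ∀ B ∈ L, deg d B = 0)
    (hd : L.Pairwise List.Disjoint) (he : L.Pairwise fun a b => Even (a.length * b.length)) :
    F x (u ++ L.flatten ++ w) = F x (u ++ L'.flatten ++ w) := by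
  induction hp generalizing u with
  | nil => rfl
  | cons B _ ih =>
    simp only [flatten_cons, ← append_assoc]
    exact ih (u ++ B) (fun B hB => h B (mem_cons_of_mem _ hB)) (pairwise_cons.1 hd).2
      (pairwise_cons.1 he).2
  | swap a b L =>
    have h1 := F_swap d x hc u b a (L.flatten ++ w) ((pairwise_cons.1 hd).1 a mem_cons_self)
      (h b mem_cons_self) (h a (mem_cons_of_mem _ mem_cons_self))
    rw [((pairwise_cons.1 he).1 a mem_cons_self).neg_one_pow, one_smul] at h1
    simpa only [flatten_cons, append_assoc] using h1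
  | trans hp1 _ ih1 ih2 =>
    rw [ih1 u h hd he]
    exact ih2 u (fun B hB => h B (hp1.mem_iff.2 hB))
      (hd.perm hp1 fun h => h.symm) (he.perm hp1 fun h => by rwa [mul_comm])

omit [DecidableEq G] in
lemma F_odd (hc : ∀ a b : List ι, deg d a = 0 → deg d b = 0 →
      (a.map x).prod * (b.map x).prod = (b.map x).prod * (a.map x).prod)
    (u a m b w : List ι) (h1 : a.Disjoint m) (h2 : a.Disjoint b) (h3 : m.Disjoint b)
    (ha : deg d a = 0) (hm : deg d m = 0) (hb : deg d b = 0) (oa : Odd a.length)
    (ob : Odd b.length) :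
    F x (u ++ a ++ m ++ b ++ w) + F x (u ++ b ++ m ++ a ++ w) = 0 := by
  have e1 := F_swap d x hc u a (m ++ b) w (disjoint_append_right.2 ⟨h1, h2⟩) ha
    (by rw [deg_append, hm, hb, add_zero])
  have e2 := F_swap d x hc u m b (a ++ w) h3 hm hb
  simp only [append_assoc] at e1 e2 ⊢
  rw [e1, e2, smul_smul, ← pow_add]
  have : Odd (a.length * (m ++ b).length + m.length * b.length) := by
    rw [length_append]
    obtain ⟨s, hs⟩ := oa
    obtain ⟨t, ht⟩ := ob
    rw [hs, ht]
    exact ⟨s * m.length + 2 * s * t + s + t + m.length + m.length * t, by ring⟩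
  rw [this.neg_one_pow]
  simp

omit [DecidableEq G] in
lemma sum_perms (hc : ∀ a b : List ι, deg d a = 0 → deg d b = 0 →
      (a.map x).prod * (b.map x).prod = (b.map x).prod * (a.map x).prod)
    (u w : List ι) (L : List (List ι)) (h : ∀ B ∈ L, deg d B = 0)
    (hd : L.Pairwise List.Disjoint) (hn : L.Nodup) (hp : 0 < L.length)
    (hch : ((L.length : ℕ) : A) = 0) :
    ∑ L' ∈ L.permutations.toFinset, F x (u ++ L'.flatten ++ w) = 0 := by
  classical
  by_cases he : L.Pairwise fun a b => Even (a.length * b.length)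
  · rw [Finset.sum_congr rfl (g := fun _ => F x (u ++ L.flatten ++ w))]
    · rw [Finset.sum_const, List.toFinset_card_of_nodup (nodup_permutations L hn),
        length_permutations]
      obtain ⟨c, hc⟩ := Nat.dvd_factorial hp le_rfl
      rw [hc, nsmul_eq_mul, Nat.cast_mul, hch, zero_mul, zero_mul]
    · intro L' hL'
      rw [List.mem_toFinset, mem_permutations] at hL'
      exact (F_perm d x hc w hL'.symm u h hd he).symm
  · have : ∃ a ∈ L, ∃ b ∈ L, a ≠ b ∧ Odd a.length ∧ Odd b.length := by
      by_contra hcon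
      apply he
      refine hn.pairwise_of_forall_ne fun a ha b hb hab => ?_
      by_contra hodd
      rw [Nat.not_even_iff_odd, Nat.odd_mul] at hodd
      exact hcon ⟨a, ha, b, hb, hab, hodd.1, hodd.2⟩
    obtain ⟨a, ha, b, hb, hab, oa, ob⟩ := this
    have key : ∀ a b : List ι, a ≠ b → Odd a.length → Odd b.length → ∀ s m t : List (List ι),
        s ++ a :: m ++ b :: t ~ L →
        F x (u ++ (s ++ a :: m ++ b :: t).flatten ++ w) +
          F x (u ++ ((s ++ a :: m ++ b :: t).map (Equiv.swap a b)).flatten ++ w) = 0 := by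
      intro a b hab oa ob s m t hperm
      have hn' : (s ++ a :: m ++ b :: t).Nodup := hperm.nodup_iff.2 hn
      have hd' : (s ++ a :: m ++ b :: t).Pairwise List.Disjoint :=
        hd.perm hperm.symm fun h => h.symm
      have h' : ∀ B ∈ s ++ a :: m ++ b :: t, deg d B = 0 := fun B hB => h B (hperm.mem_iff.1 hB)
      have hfix : ∀ l : List (List ι), a ∉ l → b ∉ l → l.map (Equiv.swap a b) = l := by
        intro l h1 h2
        conv_rhs => rw [← List.map_id l]
        refine List.map_congr_left fun c hc => ?_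
        exact Equiv.swap_apply_of_ne_of_ne (fun hh => h1 (hh ▸ hc)) (fun hh => h2 (hh ▸ hc))
      have hmap : (s ++ a :: m ++ b :: t).map (Equiv.swap a b) = s ++ b :: m ++ a :: t := by
        simp only [nodup_append, nodup_cons, mem_append, mem_cons] at hn'
        simp only [map_append, map_cons, Equiv.swap_apply_left, Equiv.swap_apply_right]
        rw [hfix s, hfix m, hfix t] <;> grind
      rw [hmap]
      simp only [pairwise_append, pairwise_cons, mem_append, mem_cons] at hd' h'
      have := F_odd d x hc (u ++ s.flatten) a m.flatten b (t.flatten ++ w) ?_ ?_ ?_ ?_ ?_ ?_ oa ob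
      · simpa only [flatten_append, flatten_cons, append_assoc] using this
      · intro y hy hy'
        obtain ⟨c, hc, hyc⟩ := mem_flatten.1 hy'
        exact hd'.1.2.1.1 c hc hy hyc
      · exact hd'.2.2 a (Or.inr (Or.inl rfl)) b (Or.inl rfl)
      · intro y hy hy'
        obtain ⟨c, hc, hyc⟩ := mem_flatten.1 hy
        exact hd'.2.2 c (Or.inr (Or.inr hc)) b (Or.inl rfl) hyc hy'
      · exact h' a (Or.inl (Or.inr (Or.inl rfl)))
      · exact deg_flatten d fun B hB => h' B (Or.inl (Or.inr (Or.inr hB)))
      · exact h' b (Or.inr (Or.inl rfl))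
    refine Finset.sum_involution (fun L' _ => L'.map (Equiv.swap a b)) ?_ ?_ ?_ ?_
    · intro L' hL'
      rw [List.mem_toFinset, mem_permutations] at hL'
      obtain ⟨s, t, rfl⟩ := append_of_mem (hL'.mem_iff.2 ha)
      have hb' := hL'.mem_iff.2 hb
      rcases mem_append.1 hb' with hb' | hb'
      · obtain ⟨s', m, rfl⟩ := append_of_mem hb'
        rw [Equiv.swap_comm]
        exact key b a hab.symm ob oa s' m t hL'
      · rcases mem_cons.1 hb' with hb' | hb'
        · exact absurd hb'.symm hab
        · obtain ⟨m, t', rfl⟩ := append_of_mem hb'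
          have := key a b hab oa ob s m t' (by simpa using hL')
          simpa using this
    · intro L' hL' _ heq
      rw [List.mem_toFinset, mem_permutations] at hL'
      obtain ⟨i, hi, hia⟩ := List.mem_iff_getElem.1 (hL'.mem_iff.2 ha)
      have := congrArg (fun l => l[i]?) heq
      simp [hi, hia] at this
      exact hab this.symm
    · intro L' hL'
      rw [List.mem_toFinset, mem_permutations] at hL' ⊢
      refine (perm_ext_iff_of_nodup ((hL'.nodup_iff.2 hn).map (Equiv.injective _)) hn).2 fun c => ?_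
      simp only [mem_map, hL'.mem_iff]
      constructor
      · rintro ⟨c', hc', rfl⟩
        rw [Equiv.swap_apply_def]
        split_ifs
        exacts [hb, ha, hc']
      · intro hc
        refine ⟨Equiv.swap a b c, ?_, by simp⟩
        rw [Equiv.swap_apply_def]
        split_ifs
        exacts [hb, ha, hc]
    · intro L' _
      rw [List.map_map]
      conv_rhs => rw [← List.map_id L']
      exact List.map_congr_left fun c _ => by simp

theorem sum_zero [Fintype G] (hc : ∀ a b : List ι, deg d a = 0 → deg d b = 0 →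
      (a.map x).prod * (b.map x).prod = (b.map x).prod * (a.map x).prod)
    (p : ℕ) (hp : 0 < p) (hch : (p : A) = 0) (l₀ : List ι) (hn : l₀.Nodup)
    (hl : l₀.length = Fintype.card G * p) :
    ∑ l ∈ l₀.permutations.toFinset, F x l = 0 := by
  classical
  let vv : Multiset G → G := fun s => Classical.epsilon fun v => p + 1 ≤ s.count v
  let R : List ι → List ι → Prop := fun l l' => ∃ u w : List ι, ∃ L L' : List (List ι),
    First d 0 (vv (ps d 0 l)) u ∧ (∀ B ∈ L, Loop d (vv (ps d 0 l)) B) ∧ L.length = p ∧ L ~ L' ∧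
      l = u ++ L.flatten ++ w ∧ l' = u ++ L'.flatten ++ w
  have hex : ∀ l ∈ l₀.permutations.toFinset, ∃ u w : List ι, ∃ L : List (List ι),
      First d 0 (vv (ps d 0 l)) u ∧ (∀ B ∈ L, Loop d (vv (ps d 0 l)) B) ∧ L.length = p ∧
        l = u ++ L.flatten ++ w := by
    intro l hl'
    rw [List.mem_toFinset, mem_permutations] at hl'
    have h1 : ∃ v, p + 1 ≤ (ps d 0 l).count v := by
      by_contra hcon
      push Not at hcon
      have h2 : (ps d 0 l).card = ∑ v : G, (ps d 0 l).count v :=
        (Multiset.sum_count_eq_card (fun a _ => Finset.mem_univ a)).symm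
      have h3 : ∑ v : G, (ps d 0 l).count v ≤ ∑ _v : G, p :=
        Finset.sum_le_sum fun v _ => Nat.lt_succ_iff.1 (hcon v)
      rw [card_ps, hl'.length_eq, hl] at h2
      simp only [Finset.sum_const, Finset.card_univ, smul_eq_mul] at h3
      omega
    have h2 : p + 1 ≤ (ps d 0 l).count (vv (ps d 0 l)) := Classical.epsilon_spec h1
    generalize vv (ps d 0 l) = v at h2
    have hv : v ∈ ps d 0 l := by rw [← Multiset.one_le_count_iff_mem]; omega
    obtain ⟨u, r, rfl, hu⟩ := first_exists d hv
    rw [first_count d r hu] at h2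
    obtain ⟨L, w, rfl, hL, hB⟩ := loops_exists d v p r h2
    exact ⟨u, w, L, hu, hB, hL, by simp⟩
  have huniq : ∀ (v : G) (u w u' w' : List ι) (L L' : List (List ι)), First d 0 v u →
      First d 0 v u' → (∀ B ∈ L, Loop d v B) → (∀ B ∈ L', Loop d v B) → L.length = L'.length →
      u ++ L.flatten ++ w = u' ++ L'.flatten ++ w' → u = u' ∧ L = L' ∧ w = w' := by
    intro v u w u' w' L L' h1 h2 h3 h4 h5 h6
    simp only [append_assoc] at h6
    have := first_unique d h1 h2 h6
    subst this
    exact ⟨rfl, loops_unique d h3 h4 h5 (append_cancel_left h6)⟩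
  refine sum_classes _ _ R ?_ ?_ ?_ ?_
  · intro l hl'
    obtain ⟨u, w, L, h1, h2, h3, h4⟩ := hex l hl'
    exact ⟨u, w, L, L, h1, h2, h3, Perm.refl _, h4, h4⟩
  · rintro l l' ⟨u, w, L, L', h1, h2, h3, h4, h5, h6⟩
    have hps : ps d 0 l' = ps d 0 l := by
      rw [h5, h6]
      exact (ps_perm d 0 u w (fun B hB => loop_deg d (h2 B hB)) h4).symm
    refine ⟨u, w, L', L, hps ▸ h1, fun B hB => hps ▸ h2 B (h4.mem_iff.2 hB),
      h4.length_eq ▸ h3, h4.symm, h6, h5⟩
  · rintro l l' l'' ⟨u, w, L, L', h1, h2, h3, h4, h5, h6⟩ ⟨u', w', M, M', g1, g2, g3, g4, g5, g6⟩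
    have hps : ps d 0 l' = ps d 0 l := by
      rw [h5, h6]
      exact (ps_perm d 0 u w (fun B hB => loop_deg d (h2 B hB)) h4).symm
    rw [hps] at g1 g2
    obtain ⟨rfl, rfl, rfl⟩ := huniq _ u w u' w' L' M h1 g1 (fun B hB => h2 B (h4.mem_iff.2 hB)) g2
      (by rw [← h4.length_eq, h3, g3]) (h6.symm.trans g5)
    exact ⟨u, w, L, M', h1, h2, h3, h4.trans g4, h5, g6⟩
  · intro l hl'
    obtain ⟨u, w, L, h1, h2, h3, h4⟩ := hex l hl'
    rw [List.mem_toFinset, mem_permutations] at hl'
    have hnl : (u ++ L.flatten ++ w).Nodup := h4 ▸ hl'.nodup_iff.2 hn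
    have hnf : L.flatten.Nodup := (nodup_append.1 (nodup_append.1 hnl).1).2.1
    have hd : L.Pairwise List.Disjoint := (nodup_flatten.1 hnf).2
    have hnL : L.Nodup := by
      refine List.Pairwise.imp_of_mem (fun {a b} ha _ hab heq => ?_) hd
      subst heq
      obtain ⟨y, hy⟩ := exists_mem_of_ne_nil a (loop_ne d (h2 a ha))
      exact hab hy hy
    rw [← sum_perms d x hc u w L (fun B hB => loop_deg d (h2 B hB)) hd hnL (h3 ▸ hp) (h3 ▸ hch)]
    symm
    refine Finset.sum_bij (fun L' _ => u ++ L'.flatten ++ w) ?_ ?_ ?_ ?_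
    · intro L' hL'
      rw [List.mem_toFinset, mem_permutations] at hL'
      rw [Finset.mem_filter, List.mem_toFinset, mem_permutations]
      refine ⟨?_, u, w, L, L', h1, h2, h3, hL'.symm, h4, rfl⟩
      refine Perm.trans ?_ hl'
      rw [h4]
      exact (hL'.flatten.append_left u).append_right w
    · intro L₁ hL₁ L₂ hL₂ heq
      rw [List.mem_toFinset, mem_permutations] at hL₁ hL₂
      exact (huniq _ u w u w L₁ L₂ h1 h1 (fun B hB => h2 B (hL₁.mem_iff.1 hB))
        (fun B hB => h2 B (hL₂.mem_iff.1 hB)) (by rw [hL₁.length_eq, hL₂.length_eq]) heq).2.1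
    · intro l' hl''
      obtain ⟨-, u', w', M, M', g1, g2, g3, g4, g5, g6⟩ := Finset.mem_filter.1 hl''
      obtain ⟨rfl, rfl, rfl⟩ := huniq _ u w u' w' L M h1 g1 h2 g2 (by rw [h3, g3])
        (h4.symm.trans g5)
      exact ⟨M', by rw [List.mem_toFinset, mem_permutations]; exact g4.symm, g6.symm⟩
    · intro _ _; rfl

end main

theorem sum_perm_eq {A : Type} [Ring A] (n : ℕ) (x : Fin n → A) :
    ∑ σ : Equiv.Perm (Fin n), ((Equiv.Perm.sign σ : ℤˣ) : ℤ) • (List.ofFn (fun i => x (σ i))).prod
      = ∑ l ∈ (List.finRange n).permutations.toFinset, F x l := by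
  refine Finset.sum_bij (fun σ _ => List.ofFn σ) ?_ ?_ ?_ ?_
  · intro σ _
    rw [List.mem_toFinset, mem_permutations, ofFn_eq_map]
    exact σ.map_finRange_perm
  · intro σ _ τ _ h
    exact Equiv.ext (congrFun (List.ofFn_injective h))
  · intro l hl
    rw [List.mem_toFinset, mem_permutations] at hl
    have hlen : l.length = n := by rw [hl.length_eq, length_finRange]
    have hnd : l.Nodup := hl.nodup_iff.2 (nodup_finRange n)
    let g : Fin n → Fin n := fun i => l.get (i.cast hlen.symm)
    have hg : Function.Injective g := fun i j h =>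
      Fin.cast_injective _ (List.nodup_iff_injective_get.1 hnd h)
    refine ⟨Equiv.ofBijective g (Finite.injective_iff_bijective.1 hg), Finset.mem_univ _, ?_⟩
    refine List.ext_getElem (by simp [hlen]) fun i h1 h2 => ?_
    simp [g]
  · intro σ _
    rw [sign_eq, F, List.map_ofFn]
    rfl

end Pool.Agent.H76.StdId
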