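import Pool.Agent.H76.G2Syl

set_option autoImplicit false

namespace Pool.Agent.H76.SuzA

open Module RepBasic Finset

theorem decomp {G V N : Type} [Group G] [AddCommGroup V] [Module ℂ V] [FiniteDimensional ℂ V]
    [AddCommGroup N] [Fintype N] (ρ : Representation ℂ G V) (hρ : Irr ρ)
    (τ : ZMod 7 → G) (hτ : ∀ s t, τ (s + t) = τ s * τ t) (F : Subgroup G) [hF : F.Normal]
    (hG : ∀ g, ∃ t, ∃ f ∈ F, g = τ t * f) (W : Submodule ℂ V) (hW0 : W ≠ ⊥)
    (hWF : ∀ f ∈ F, ∀ v ∈ W, ρ f v ∈ W) (T : N → G) (μ : ZMod 7 → AddChar N ℂ)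
    (hμ : ∀ t n, ∀ v ∈ W, ρ ((τ t)⁻¹ * T n * τ t) v = μ t n • v)
    (hinj : Function.Injective μ) :
    ∃ Φ : G → ℂ, (∀ g, ρ.character g = ∑ t, Φ ((τ t)⁻¹ * g * τ t)) ∧
      (∀ y ∈ F, ∀ h, Φ (y⁻¹ * h * y) = Φ h) ∧
      (∀ h z κ, (∀ v ∈ W, ρ z v = κ • v) → Φ (h * z) = κ * Φ h) := by
  classical
  have hτ0 : τ 0 = 1 := by
    have := hτ 0 0
    rw [add_zero] at this
    exact left_eq_mul.1 this
  have hτi : ∀ t, (τ t)⁻¹ = τ (-t) := fun t =>
    inv_eq_of_mul_eq_one_right (by rw [← hτ, add_neg_cancel, hτ0])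
  have rm : ∀ g h v, ρ g (ρ h v) = ρ (g * h) v := fun g h v => by rw [map_mul]; rfl
  have htop : (⨆ t, W.map (ρ (τ t))) = ⊤ := by
    refine (hρ _ ?_).resolve_left ?_
    · intro g v hv
      induction hv using Submodule.iSup_induction' with
      | mem t v hv =>
        obtain ⟨v, hv, rfl⟩ := hv
        obtain ⟨s, f, hf, e⟩ := hG (g * τ t)
        rw [rm, e, ← rm]
        exact Submodule.mem_iSup_of_mem s ⟨_, hWF f hf v hv, rfl⟩
      | zero => simp
      | add x y _ _ hx hy => rw [map_add]; exact Submodule.add_mem _ hx hy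
    · intro h
      apply hW0
      rw [eq_bot_iff, ← h]
      intro v hv
      exact Submodule.mem_iSup_of_mem 0 ⟨v, hv, by simp [hτ0]⟩
  have hind : ∀ S : Submodule ℂ V, (∀ t, ∀ v ∈ W, ρ (τ t) v ∈ S) → ∀ v, v ∈ S := by
    intro S hS v
    have : ⊤ ≤ S := by
      rw [← htop, iSup_le_iff]
      rintro t _ ⟨v, hv, rfl⟩
      exact hS t v hv
    exact this trivial
  let e : Module.End ℂ V := (Fintype.card N : ℂ)⁻¹ • ∑ n, μ 0 (-n) • ρ (T n)
  have he : ∀ t, ∀ v ∈ W, e (ρ (τ t) v) = if t = 0 then v else 0 := by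
    intro t v hv
    have h1 : ∀ n, ρ (T n) (ρ (τ t) v) = μ t n • ρ (τ t) v := by
      intro n
      rw [← map_smul, ← hμ t n v hv, rm, rm]
      congr 2
      group
    simp only [e, LinearMap.smul_apply, LinearMap.sum_apply, h1, smul_smul, ← sum_smul]
    have h2 : ∑ n, μ 0 (-n) * μ t n = ∑ n, (μ t - μ 0) n :=
      sum_congr rfl fun n _ => by rw [AddChar.sub_apply, mul_comm]
    rw [h2, AddChar.sum_eq_ite]
    split_ifs with h3 h4 h4
    · rw [inv_mul_cancel₀ (Nat.cast_ne_zero.2 Fintype.card_ne_zero), h4, hτ0]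
      simp
    · exact absurd (hinj (sub_eq_zero.1 h3)) h4
    · exact absurd (by rw [h4, sub_self]) h3
    · simp
  have hA : ∑ t, ρ (τ t) * e * ρ (τ t)⁻¹ = 1 := by
    refine LinearMap.ext fun v => ?_
    refine hind (LinearMap.eqLocus _ _) (fun s v hv => ?_) v
    simp only [LinearMap.mem_eqLocus, LinearMap.sum_apply, Module.End.mul_apply, rm, hτi, ← hτ,
      he _ v hv, Module.End.one_apply]
    rw [sum_eq_single s]
    · simp
    · intro t _ hts
      rw [if_neg, map_zero]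
      intro h
      exact hts (by linear_combination -h)
    · simp
  have hB : ∀ v, e v ∈ W := by
    refine hind (W.comap e) fun t v hv => ?_
    rw [Submodule.mem_comap, he t v hv]
    split_ifs
    · exact hv
    · exact W.zero_mem
  have hC : ∀ y ∈ F, ρ y * e = e * ρ y := by
    intro y hy
    refine LinearMap.ext fun v => ?_
    refine hind (LinearMap.eqLocus _ _) (fun s v hv => ?_) v
    have h1 : ρ y (ρ (τ s) v) = ρ (τ s) (ρ ((τ s)⁻¹ * y * τ s) v) := by
      rw [rm, rm]; congr 2; group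
    have h2 : (τ s)⁻¹ * y * τ s ∈ F := by simpa using hF.conj_mem y hy (τ s)⁻¹
    simp only [LinearMap.mem_eqLocus, Module.End.mul_apply]
    rw [h1, he s v hv, he s _ (hWF _ h2 v hv)]
    split_ifs with h
    · simp [h, hτ0]
    · simp
  refine ⟨fun h => LinearMap.trace ℂ V (ρ h * e), fun g => ?_, fun y hy h => ?_,
    fun h z κ hz => ?_⟩
  · rw [Representation.character, ← mul_one (ρ g), ← hA, mul_sum, map_sum]
    refine sum_congr rfl fun t _ => ?_
    rw [← mul_assoc, LinearMap.trace_mul_comm]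
    simp only [map_mul, mul_assoc]
  · simp only [map_mul, mul_assoc]
    rw [hC y hy, LinearMap.trace_mul_comm, mul_assoc, mul_assoc, ← map_mul ρ y, mul_inv_cancel,
      map_one, mul_one]
  · have : ρ z * e = κ • e := LinearMap.ext fun v => hz _ (hB v)
    simp only [map_mul, mul_assoc]
    rw [this, mul_smul_comm, map_smul, smul_eq_mul]

theorem sum_ne (c : ZMod 7 → ℂ) (hc : ∀ t, c t ^ 58 = 1) : ∑ t, c t ≠ 0 := by
  have hζ := Complex.isPrimitiveRoot_exp 29 (by norm_num)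
  generalize Complex.exp (2 * Real.pi * Complex.I / (29 : ℕ)) = ζ at hζ
  have h1 : ∀ t, ∃ ε : ℤ, ∃ k : ℕ, (ε = 1 ∨ ε = -1) ∧ c t = ε * ζ ^ k := by
    intro t
    have : (c t ^ 29) ^ 2 = 1 := by rw [← pow_mul]; exact hc t
    rcases sq_eq_one_iff.1 this with h | h
    · obtain ⟨k, -, hk⟩ := hζ.eq_pow_of_pow_eq_one h
      exact ⟨1, k, Or.inl rfl, by simp [hk]⟩
    · obtain ⟨k, -, hk⟩ := hζ.eq_pow_of_pow_eq_one (ξ := -c t) (by
        rw [Odd.neg_pow (by decide), h, neg_neg])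
      exact ⟨-1, k, Or.inr rfl, by simp [hk]⟩
  choose ε k hε hk using h1
  intro h0
  have : Fact (Nat.Prime 29) := ⟨by norm_num⟩
  have hd : minpoly ℤ ζ ∣ ∑ t, Polynomial.C (ε t) * Polynomial.X ^ k t :=
    minpoly.isIntegrallyClosed_dvd (hζ.isIntegral (by norm_num)) (by
      rw [← h0]
      simp [hk])
  rw [← Polynomial.cyclotomic_eq_minpoly hζ (by norm_num)] at hd
  have h2 := Polynomial.eval_dvd (x := 1) hd
  rw [Polynomial.eval_one_cyclotomic_prime] at h2
  simp only [Polynomial.eval_finset_sum, Polynomial.eval_mul, Polynomial.eval_C,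
    Polynomial.eval_pow, Polynomial.eval_X, one_pow, mul_one] at h2
  have h3 : ∑ t, ε t = ε 0 + ε 1 + ε 2 + ε 3 + ε 4 + ε 5 + ε 6 := Fin.sum_univ_seven ε
  rw [h3] at h2
  have := hε 0
  have := hε 1
  have := hε 2
  have := hε 3
  have := hε 4
  have := hε 5
  have := hε 6
  omega

end Pool.Agent.H76.SuzA
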