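import Pool.Agent.H76.SuzA

set_option autoImplicit false

namespace Pool.Agent.H76.SuzB

open Module RepBasic Finset G2Syl SuzA

abbrev K := ZMod 2 × ZMod 2 × ZMod 2

/-- multiplication by the generator of the field with eight elements -/
def mx (a : K) : K := (a.2.2, a.1 + a.2.2, a.2.1)
/-- action of the cyclic group of order seven -/
def ac (t : ZMod 7) (a : K) : K := mx^[t.val] a
/-- field multiplication -/
def ml (a c : K) : K := a.1 • c + a.2.1 • mx c + a.2.2 • mx (mx c)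
/-- the cocycle -/
def be (a c : K) : K := ml (ml a a) c
/-- an element of order seven -/
def u (t : ZMod 7) : ZMod 29 := 7 ^ t.val
/-- dot product -/
def dot (s b : K) : ZMod 2 := s.1 * b.1 + s.2.1 * b.2.1 + s.2.2 * b.2.2

theorem ac_add : ∀ t a b, ac t (a + b) = ac t a + ac t b := by decide +kernel
theorem ac_ac : ∀ s t a, ac s (ac t a) = ac (s + t) a := by decide +kernel
@[simp] theorem ac_zero : ∀ a, ac 0 a = a := by decide +kernel
@[simp] theorem ac_zero' : ∀ t, ac t 0 = 0 := by decide +kernel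
theorem be_add_l : ∀ a b c, be (a + b) c = be a c + be b c := by decide +kernel
theorem be_add_r : ∀ a b c, be a (b + c) = be a b + be a c := by decide +kernel
theorem be_ac : ∀ t a c, ac (3 * t) (be a c) = be (ac t a) (ac t c) := by decide +kernel
@[simp] theorem be_zero : ∀ a, be 0 a = 0 := by decide +kernel
@[simp] theorem be_zero' : ∀ a, be a 0 = 0 := by decide +kernel
theorem u_add : ∀ s t, u (s + t) = u s * u t := by decide +kernel
@[simp] theorem u_zero : u 0 = 1 := by decide +kernel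
theorem u_inj : ∀ s t, u s = u t → s = t := by decide +kernel
@[simp] theorem K_add : ∀ a : K, a + a = 0 := by decide +kernel
@[simp] theorem K_neg : ∀ a : K, -a = a := by decide +kernel

/-- the group -/
@[ext] structure Gp (k : ℕ) where
  t : ZMod 7
  a : K
  b : K
  v : Fin k → ZMod 29

variable {k : ℕ}

instance : Mul (Gp k) := ⟨fun g h => ⟨g.t + h.t, g.a + ac g.t h.a,
  g.b + ac (3 * g.t) h.b + be g.a (ac g.t h.a), g.v + u g.t • h.v⟩⟩
instance : One (Gp k) := ⟨⟨0, 0, 0, 0⟩⟩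
instance : Inv (Gp k) := ⟨fun g => ⟨-g.t, ac (-g.t) g.a,
  ac (3 * -g.t) g.b + be (ac (-g.t) g.a) (ac (-g.t) g.a), -(u (-g.t) • g.v)⟩⟩

theorem mul_def (g h : Gp k) : g * h = ⟨g.t + h.t, g.a + ac g.t h.a,
  g.b + ac (3 * g.t) h.b + be g.a (ac g.t h.a), g.v + u g.t • h.v⟩ := rfl
theorem one_def : (1 : Gp k) = ⟨0, 0, 0, 0⟩ := rfl
theorem inv_def (g : Gp k) : g⁻¹ = ⟨-g.t, ac (-g.t) g.a,
  ac (3 * -g.t) g.b + be (ac (-g.t) g.a) (ac (-g.t) g.a), -(u (-g.t) • g.v)⟩ := rfl

instance : Group (Gp k) := Group.ofLeftAxioms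
  (fun g h l => Gp.ext (add_assoc _ _ _)
    (by simp only [mul_def, ac_add, ac_ac, add_assoc])
    (by
      simp only [mul_def, ac_add, ac_ac, be_add_l, be_add_r, be_ac, mul_add]
      abel)
    (by simp only [mul_def, u_add, smul_add, mul_smul, add_assoc]))
  (fun g => Gp.ext (by simp [mul_def, one_def]) (by simp [mul_def, one_def])
    (by simp [mul_def, one_def]) (by simp [mul_def, one_def]))
  (fun g => Gp.ext (by simp [mul_def, one_def, inv_def]) (by simp [mul_def, one_def, inv_def])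
    (by
      simp only [mul_def, one_def, inv_def]
      generalize ac (3 * -g.t) g.b = x
      generalize be _ _ = y
      revert x y
      decide +kernel)
    (by simp [mul_def, one_def, inv_def]))

instance : Finite (Gp k) := Finite.of_injective (fun g : Gp k => (g.t, g.a, g.b, g.v)) (by
  intro g h e
  simp only [Prod.mk.injEq] at e
  exact Gp.ext e.1 e.2.1 e.2.2.1 e.2.2.2)

theorem card_gt : k < Nat.card (Gp k) := by
  have := Nat.card_le_card_of_injective (fun v : Fin k → ZMod 29 => (⟨0, 0, 0, v⟩ : Gp k))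
    (fun v w h => congrArg Gp.v h)
  rw [Nat.card_fun, Nat.card_zmod, Nat.card_eq_fintype_card, Fintype.card_fin] at this
  exact (Nat.lt_pow_self (by norm_num)).trans_le this

/-- the complement -/
def ta (t : ZMod 7) : Gp k := ⟨t, 0, 0, 0⟩

theorem ta_add (s t : ZMod 7) : (ta (s + t) : Gp k) = ta s * ta t := by
  simp [ta, mul_def]

theorem conj_ta (t : ZMod 7) (a b : K) (v : Fin k → ZMod 29) :
    (ta t)⁻¹ * ⟨0, a, b, v⟩ * ta t = (⟨0, ac (-t) a, ac (3 * -t) b, u (-t) • v⟩ : Gp k) := by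
  simp [ta, mul_def, inv_def]

/-- the kernel -/
def Fk (k : ℕ) : Subgroup (Gp k) where
  carrier := {g | g.t = 0}
  mul_mem' := by
    intro g h hg hh
    simp only [Set.mem_ofPred_eq, mul_def] at *
    rw [hg, hh, add_zero]
  one_mem' := rfl
  inv_mem' := by
    intro g hg
    simp only [Set.mem_ofPred_eq, inv_def] at *
    rw [hg, neg_zero]

instance : (Fk k).Normal := ⟨fun n hn g => by
  have : n.t = 0 := hn
  change g.t + n.t + -g.t = 0
  rw [this]; simp⟩

theorem hG (g : Gp k) : ∃ t, ∃ f ∈ Fk k, g = ta t * f :=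
  ⟨g.t, (ta g.t)⁻¹ * g, by change -g.t + g.t = 0; simp, by group⟩

/-- the Sylow two-subgroup -/
def Pk (k : ℕ) : Subgroup (Gp k) where
  carrier := {g | g.t = 0 ∧ g.v = 0}
  mul_mem' := by
    intro g h hg hh
    simp only [Set.mem_ofPred_eq, mul_def] at *
    simp [hg.1, hg.2, hh.1, hh.2]
  one_mem' := ⟨rfl, rfl⟩
  inv_mem' := by
    intro g hg
    simp only [Set.mem_ofPred_eq, inv_def] at *
    simp [hg.1, hg.2]

theorem Pk_normal : (Pk k).Normal := ⟨fun n hn g => by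
  obtain ⟨h1, h2⟩ : n.t = 0 ∧ n.v = 0 := hn
  constructor
  · simp [mul_def, inv_def, h1]
  · simp [mul_def, inv_def, h1, h2, smul_smul, ← u_add]⟩

theorem Pk_nil : Group.IsNilpotent (Pk k) := by
  have : IsPGroup 2 (Pk k) := by
    rintro ⟨⟨t, a, b, v⟩, h1, h2⟩
    refine ⟨2, Subtype.ext ?_⟩
    simp only at h1 h2
    subst h1 h2
    have : (⟨0, a, b, 0⟩ : Gp k) ^ 2 = ⟨0, 0, be a a, 0⟩ := by
      simp [pow_two, mul_def]
    change (⟨0, a, b, 0⟩ : Gp k) ^ (2 * 2) = 1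
    rw [pow_mul, this]
    simp [pow_two, mul_def, one_def]
  exact this.isNilpotent

theorem conj_out (g : Gp k) (h : g.t ≠ 0) : IsConj (ta g.t) g := by
  obtain ⟨t, a, b, v⟩ := g
  simp only at h
  have h1 : ∀ t a, t ≠ 0 → ∃ a' : K, a' + ac t a' = a := by decide +kernel
  obtain ⟨a', h2⟩ := h1 t a h
  obtain ⟨b', h3'⟩ := h1 (3 * t) (b - ac (3 * t) (be a' a') - be a' (ac t a'))
    ((by decide : ∀ t : ZMod 7, t ≠ 0 → 3 * t ≠ 0) t h)
  have h3 : b' + ac (3 * t) (b' + be a' a') + be a' (ac t a') = b := by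
    rw [ac_add, ← add_assoc, h3']; abel
  have : Fact (Nat.Prime 29) := ⟨by norm_num⟩
  have h4 : 1 - u t ≠ 0 := fun e => h (u_inj _ _ (by rw [u_zero]; linear_combination -e))
  refine isConj_iff.2 ⟨⟨0, a', b', (1 - u t)⁻¹ • v⟩, ?_⟩
  simp only [ta, mul_def, inv_def, neg_zero, ac_zero, mul_zero, u_zero, zero_add, add_zero,
    be_zero', one_smul, smul_zero, h2, h3, Gp.mk.injEq, true_and]
  rw [smul_neg, smul_smul, ← sub_eq_add_neg, ← sub_smul, ← one_sub_mul, mul_inv_cancel₀ h4,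
    one_smul]

/-- sign -/
noncomputable def sg (x : ZMod 2) : ℂ := if x = 0 then 1 else -1

theorem sg_add (x y : ZMod 2) : sg (x + y) = sg x * sg y := by
  have h : ∀ x : ZMod 2, x = 0 ∨ x = 1 := by decide
  have h2 : (1 + 1 : ZMod 2) = 0 := by decide
  rcases h x with rfl | rfl <;> rcases h y with rfl | rfl <;> simp [sg, h2]

theorem sg_inj (x y : ZMod 2) (e : sg x = sg y) : x = y := by
  have h : ∀ x : ZMod 2, x = 0 ∨ x = 1 := by decide
  rcases h x with rfl | rfl <;> rcases h y with rfl | rfl <;> simp [sg] at e ⊢ <;> norm_num at e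

theorem char_K (lam : AddChar K ℂ) : ∃ s, ∀ b, lam b = sg (dot s b) := by
  have h : ∀ x : ZMod 2, x = 0 ∨ x = 1 := by decide
  have h1 : ∀ e : K, ∃ s, ∀ x : ZMod 2, lam (x • e) = sg (s * x) := by
    intro e
    have : lam e ^ 2 = 1 := by rw [sq, ← lam.map_add_eq_mul, K_add, lam.map_zero_eq_one]
    rcases sq_eq_one_iff.1 this with h2 | h2
    · refine ⟨0, fun x => ?_⟩
      rcases h x with rfl | rfl <;> simp [sg, h2]
    · refine ⟨1, fun x => ?_⟩
      rcases h x with rfl | rfl <;> simp [sg, h2]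
  obtain ⟨s₁, h₁⟩ := h1 (1, 0, 0)
  obtain ⟨s₂, h₂⟩ := h1 (0, 1, 0)
  obtain ⟨s₃, h₃⟩ := h1 (0, 0, 1)
  refine ⟨(s₁, s₂, s₃), fun b => ?_⟩
  have : b = b.1 • ((1, 0, 0) : K) + b.2.1 • ((0, 1, 0) : K) + b.2.2 • ((0, 0, 1) : K) := by
    ext <;> simp
  rw [dot, sg_add, sg_add, ← h₁, ← h₂, ← h₃, ← lam.map_add_eq_mul, ← lam.map_add_eq_mul, ← this]

section main
variable {V : Type} [AddCommGroup V] [Module ℂ V] [FiniteDimensional ℂ V] [Nontrivial V]

theorem rm (ρ : Representation ℂ (Gp k) V) (g h : Gp k) (v : V) :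
    ρ g (ρ h v) = ρ (g * h) v := by rw [map_mul]; rfl

theorem phi_one (ρ : Representation ℂ (Gp k) V) (Φ : Gp k → ℂ)
    (h : ∀ g, ρ.character g = ∑ t, Φ ((ta t)⁻¹ * g * ta t)) : Φ 1 ≠ 0 := by
  intro h0
  have := h 1
  simp only [mul_one, inv_mul_cancel, h0, sum_const_zero, Representation.char_one,
    Nat.cast_eq_zero] at this
  exact finrank_pos.ne' this

theorem fixed_all (ρ : Representation ℂ (Gp k) V) (hρ : Irr ρ) {I : Type} (T : I → Gp k)
    (hT : ∀ g i, ∃ j, ∀ v, ρ (g⁻¹ * T i * g) v = ρ (T j) v) (w : V) (hw : w ≠ 0)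
    (h : ∀ i, ρ (T i) w = w) (i : I) (v : V) : ρ (T i) v = v := by
  let W : Submodule ℂ V := ⨅ i, LinearMap.eqLocus (ρ (T i)) LinearMap.id
  have hW : ∀ v, v ∈ W ↔ ∀ i, ρ (T i) v = v := fun v => by simp [W, Submodule.mem_iInf]
  have := (hρ W (fun g v hv => by
    rw [hW] at hv ⊢
    intro i
    obtain ⟨j, hj⟩ := hT g i
    conv_rhs => rw [← hv j, ← hj, rm]
    rw [rm]
    congr 2
    group)).resolve_left (fun h0 => hw (by
      have := (hW w).2 h
      rwa [h0] at this))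
  exact (hW v).1 (this ▸ trivial) i

theorem caseI (ρ : Representation ℂ (Gp k) V) (hρ : Irr ρ)
    (hz : ∀ b v, ρ ⟨0, 0, b, 0⟩ v = v) (g : Gp k) (hg : g.t = 0) : ρ.character g ≠ 0 := by
  let T : K × (Fin k → ZMod 29) → Gp k := fun n => ⟨0, n.1, 0, n.2⟩
  have hT : ∀ a b v x, ρ ⟨0, a, b, v⟩ x = ρ (T (a, v)) x := by
    intro a b v x
    have : (⟨0, a, b, v⟩ : Gp k) = T (a, v) * ⟨0, 0, b, 0⟩ := by simp [T, mul_def]
    rw [this, ← rm, hz]
  have Tadd : ∀ x y v, ρ (T (x + y)) v = ρ (T x) (ρ (T y) v) := by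
    intro x y v
    rw [rm]
    simp only [T, mul_def, add_zero, ac_zero, mul_zero, u_zero, one_smul]
    rw [hT (x.1 + y.1)]
    rfl
  obtain ⟨w, hw, he⟩ := exists_common_eigenvector (fun n => ρ (T n)) (fun i j v => by
    rw [← Tadd, ← Tadd, add_comm])
  obtain ⟨ν, hν⟩ := mkChar (fun n => ρ (T n)) w hw (by
    change ρ 1 w = w
    simp) (fun x y => Tadd x y w) he
  obtain ⟨t, a, b, v⟩ := g
  simp only at hg
  subst hg
  by_cases h1 : ν = 1
  · have := fixed_all ρ hρ T (fun g i => by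
      have : (g⁻¹ * T i * g).t = 0 := by simp [T, mul_def, inv_def]
      generalize g⁻¹ * T i * g = y at this
      obtain ⟨t, a, b, v⟩ := y
      simp only at this
      subst this
      exact ⟨(a, v), hT a b v⟩) w hw (fun i => by simpa [h1] using hν i)
    have e : ρ ⟨0, a, b, v⟩ = 1 := LinearMap.ext fun x => by rw [hT, this]; rfl
    rw [Representation.character, e, LinearMap.trace_one]
    exact Nat.cast_ne_zero.2 finrank_pos.ne'
  let σ : ZMod 7 → K × (Fin k → ZMod 29) →+ K × (Fin k → ZMod 29) := fun t =>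
    { toFun := fun n => (ac (-t) n.1, u (-t) • n.2)
      map_zero' := by simp
      map_add' := by intro x y; simp [ac_add] }
  have hW : ∀ n, ∀ x ∈ Submodule.span ℂ {w}, ρ (T n) x = ν n • x := by
    intro n x hx
    obtain ⟨c, rfl⟩ := Submodule.mem_span_singleton.1 hx
    rw [map_smul, hν, smul_comm]
  obtain ⟨Φ, h2, -, h4⟩ := decomp ρ hρ ta ta_add (Fk k) hG (Submodule.span ℂ {w})
    (by simpa using hw) (by
      rintro ⟨t, a, b, v⟩ hf x hx
      have : t = 0 := hf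
      subst this
      rw [hT, hW _ x hx]
      exact Submodule.smul_mem _ _ hx) T (fun t => ν.compAddMonoidHom (σ t)) (by
      intro t n x hx
      rw [conj_ta, hT, hW _ x hx]
      rfl) (by
      intro s t hst
      by_contra hne
      apply h1
      ext ⟨a, v⟩
      have e1 : ∀ s t : ZMod 7, ∀ a, s ≠ t → ∃ a' : K, ac (-s) a' = ac (-t) a' + a := by
        decide +kernel
      obtain ⟨a', ha'⟩ := e1 s t a hne
      have : Fact (Nat.Prime 29) := ⟨by norm_num⟩
      have e2 : u (-s) - u (-t) ≠ 0 := fun e => hne (neg_injective (u_inj _ _ (sub_eq_zero.1 e)))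
      have e3 := DFunLike.congr_fun hst (a', (u (-s) - u (-t))⁻¹ • v)
      have e4 : σ s (a', (u (-s) - u (-t))⁻¹ • v) = σ t (a', (u (-s) - u (-t))⁻¹ • v) + (a, v) := by
        refine Prod.ext ha' ?_
        change u (-s) • _ = u (-t) • _ + v
        rw [← sub_eq_iff_eq_add', ← sub_smul, smul_smul, mul_inv_cancel₀ e2, one_smul]
      simp only [AddChar.compAddMonoidHom_apply] at e3
      rw [e4, AddChar.map_add_eq_mul] at e3
      exact (mul_eq_left₀ (AddChar.val_isUnit ν _).ne_zero).1 e3)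
  have h5 : ∀ t, Φ ((ta t)⁻¹ * ⟨0, a, b, v⟩ * ta t) = ν (σ t (a, v)) * Φ 1 := by
    intro t
    rw [← h4 1 ((ta t)⁻¹ * ⟨0, a, b, v⟩ * ta t), one_mul]
    intro x hx
    rw [conj_ta, hT, hW _ x hx]
    rfl
  rw [h2]
  simp only [h5, ← sum_mul]
  refine mul_ne_zero (sum_ne _ fun t => ?_) (phi_one ρ Φ h2)
  rw [← AddChar.map_nsmul_eq_pow]
  have : ∀ n : K × (Fin k → ZMod 29), 58 • n = 0 := by
    rintro ⟨a, v⟩
    refine Prod.ext ?_ (funext fun i => ?_)
    · change 58 • a = 0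
      revert a; decide +kernel
    · exact (by decide +kernel : ∀ y : ZMod 29, 58 • y = 0) (v i)
  rw [this, AddChar.map_zero_eq_one]

set_option synthInstance.maxSize 2048 in
theorem caseII (ρ : Representation ℂ (Gp k) V) (hρ : Irr ρ) (s : K) (hs : s ≠ 0) (w₀ : V)
    (hw₀ : w₀ ≠ 0) (lam : AddChar K ℂ) (hl : ∀ b, lam b = sg (dot s b))
    (hz : ∀ b, ρ ⟨0, 0, b, 0⟩ w₀ = lam b • w₀) (g : Gp k) (hg : g.t = 0) :
    ρ.character g ≠ 0 := by
  have e0 : ∀ s : K, s ≠ 0 → ∃ r : K, r ≠ 0 ∧ (∀ c, dot s (be r c + be c r) = 0) ∧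
      ∀ a, a ≠ 0 → a ≠ r → ∃ c, dot s (be a c + be c a) = 1 := by decide +kernel
  obtain ⟨r, hr0, hr1, hr2⟩ := e0 s hs
  let U : Submodule ℂ V := ⨅ b, Module.End.eigenspace (ρ ⟨0, 0, b, 0⟩) (lam b)
  have hU : ∀ x, x ∈ U ↔ ∀ b, ρ ⟨0, 0, b, 0⟩ x = lam b • x := fun x => by
    simp only [U, Submodule.mem_iInf, Module.End.mem_eigenspace_iff]
  have hUF : ∀ f ∈ Fk k, ∀ x ∈ U, ρ f x ∈ U := by
    rintro ⟨t, a, b, v⟩ hf x hx
    have : t = 0 := hf
    subst this
    rw [hU] at hx ⊢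
    intro c
    rw [← map_smul, ← hx, rm, rm]
    congr 2
    simp [mul_def, add_comm]
  let R : Option (Fin k → ZMod 29) → Gp k := fun o => o.elim ⟨0, r, 0, 0⟩ fun v => ⟨0, 0, 0, v⟩
  obtain ⟨w, hwU, hw, he⟩ := eig_in (fun o => ρ (R o)) U (fun h => hw₀ (by
    have := (hU w₀).2 hz
    rwa [h] at this)) (fun o x hx => hUF _ (by cases o <;> rfl) x hx) (by
    intro i j x
    rw [rm, rm]
    congr 2
    cases i <;> cases j <;> simp [R, mul_def, add_comm])
  obtain ⟨κ, hκ⟩ := he none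
  obtain ⟨α, hα⟩ := mkChar (fun v => ρ (R (some v))) w hw (by
    change ρ 1 w = w
    simp) (fun x y => by
    rw [rm]
    congr 2
    simp [R, mul_def]) (fun v => he (some v))
  have hκ0 : κ ≠ 0 := by
    rintro rfl
    apply hw
    have := congrArg (ρ (R none)⁻¹) hκ
    rwa [rm, inv_mul_cancel, map_one, zero_smul, map_zero] at this
  let W : Submodule ℂ V := U ⊓ Module.End.eigenspace (ρ (R none)) κ ⊓
    ⨅ v, Module.End.eigenspace (ρ (R (some v))) (α v)
  have hW : ∀ x, x ∈ W ↔ (x ∈ U ∧ ρ ⟨0, r, 0, 0⟩ x = κ • x) ∧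
      ∀ v, ρ ⟨0, 0, 0, v⟩ x = α v • x := fun x => by
    simp only [W, Submodule.mem_inf, Submodule.mem_iInf, Module.End.mem_eigenspace_iff]
    rfl
  obtain ⟨Φ, h2, h3, h4⟩ := decomp ρ hρ ta ta_add (Fk k) hG W (fun h => hw (by
    have := (hW w).2 ⟨⟨hwU, hκ⟩, hα⟩
    rwa [h] at this)) (by
      intro f hf x hx
      rw [hW] at hx ⊢
      refine ⟨⟨hUF f hf x hx.1.1, ?_⟩, fun v' => ?_⟩
      · obtain ⟨t, a, b, v⟩ := f
        have : t = 0 := hf
        subst this
        have e1 := (hU x).1 hx.1.1 (be r a + be a r)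
        rw [hl, hr1] at e1
        simp only [sg, if_true, one_smul] at e1
        rw [← map_smul, ← hx.1.2]
        have e2 : ρ ⟨0, r, 0, 0⟩ x = ρ ⟨0, r, 0, 0⟩ (ρ ⟨0, 0, be r a + be a r, 0⟩ x) := by rw [e1]
        rw [e2, rm, rm, rm]
        congr 2
        simp only [mul_def, add_zero, ac_zero, mul_zero, zero_add, u_zero, one_smul, smul_zero,
          be_zero', Gp.mk.injEq, true_and, and_true]
        refine ⟨add_comm _ _, ?_⟩
        rw [add_comm (be r a), add_assoc, ← add_assoc (be a r), K_add, zero_add]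
      · obtain ⟨t, a, b, v⟩ := f
        have : t = 0 := hf
        subst this
        rw [← map_smul, ← hx.2, rm, rm]
        congr 2
        simp [mul_def, add_comm]) (fun b => ⟨0, 0, b, 0⟩)
    (fun t => lam.compAddMonoidHom ⟨⟨ac (3 * -t), ac_zero' _⟩, ac_add _⟩) (by
      intro t n x hx
      rw [conj_ta, ac_zero', smul_zero, (hU x).1 ((hW x).1 hx).1.1]
      rfl) (by
      intro t t' h
      by_contra hne
      have e1 : ∀ s : K, s ≠ 0 → ∀ t t' : ZMod 7, t ≠ t' →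
          ∃ b, dot s (ac (3 * -t) b) ≠ dot s (ac (3 * -t') b) := by decide +kernel
      obtain ⟨b, hb⟩ := e1 s hs t t' hne
      have e2 : lam (ac (3 * -t) b) = lam (ac (3 * -t') b) := DFunLike.congr_fun h b
      rw [hl, hl] at e2
      exact hb (sg_inj _ _ e2))
  have h5 : ∀ b v, Φ ⟨0, 0, b, v⟩ = lam b * α v * Φ 1 := by
    intro b v
    rw [← h4 1 ⟨0, 0, b, v⟩, one_mul]
    intro x hx
    rw [hW] at hx
    rw [mul_comm, mul_smul, ← (hU x).1 hx.1.1, ← map_smul, ← hx.2, rm]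
    congr 2
    simp [mul_def]
  have h6 : ∀ b v, Φ ⟨0, r, b, v⟩ = lam b * α v * κ * Φ 1 := by
    intro b v
    rw [← h4 1 ⟨0, r, b, v⟩, one_mul]
    intro x hx
    rw [hW] at hx
    rw [mul_smul, ← hx.1.2, ← map_smul, mul_comm, mul_smul, ← (hU x).1 hx.1.1, ← map_smul,
      ← hx.2, rm, rm]
    congr 2
    simp [mul_def]
  have h7 : ∀ a b v, a ≠ 0 → a ≠ r → Φ ⟨0, a, b, v⟩ = 0 := by
    intro a b v ha hr
    obtain ⟨c, hc⟩ := hr2 a ha hr
    have e1 := h3 ⟨0, c, 0, 0⟩ rfl ⟨0, a, b, v⟩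
    have e2 := h4 ⟨0, a, b, v⟩ ⟨0, 0, be a c + be c a, 0⟩ (-1) (fun x hx => by
      rw [(hU x).1 ((hW x).1 hx).1.1, hl, hc]
      simp [sg])
    have e3 : (⟨0, c, 0, 0⟩ : Gp k)⁻¹ * ⟨0, a, b, v⟩ * ⟨0, c, 0, 0⟩
        = ⟨0, a, b, v⟩ * ⟨0, 0, be a c + be c a, 0⟩ := by
      simp only [mul_def, inv_def, neg_zero, add_zero, ac_zero, mul_zero, zero_add, u_zero,
        one_smul, smul_zero, be_zero', Gp.mk.injEq, true_and, and_true, be_add_l]
      constructor
      · rw [add_comm c, add_assoc, K_add, add_zero]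
      · have := K_add (be c c)
        linear_combination (exp := 1) this
    rw [e3, e2] at e1
    linear_combination (-1 / 2 : ℂ) * e1
  obtain ⟨t, a, b, v⟩ := g
  simp only at hg
  subst hg
  rw [h2]
  simp only [conj_ta]
  by_cases ha : a = 0
  · subst ha
    simp only [ac_zero', h5, ← sum_mul]
    refine mul_ne_zero (sum_ne _ fun t => ?_) (phi_one ρ Φ h2)
    rw [mul_pow, ← AddChar.map_nsmul_eq_pow, ← AddChar.map_nsmul_eq_pow]
    have e1 : ∀ a : K, 58 • a = 0 := by decide +kernel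
    have e2 : ∀ v : Fin k → ZMod 29, 58 • v = 0 := fun v => funext fun i =>
      (by decide +kernel : ∀ y : ZMod 29, 58 • y = 0) (v i)
    rw [e1, e2]
    simp
  · have e1 : ∀ a r : K, a ≠ 0 → r ≠ 0 → ∃ t : ZMod 7, ac (-t) a = r ∧
        ∀ t', t' ≠ t → ac (-t') a ≠ 0 ∧ ac (-t') a ≠ r := by decide +kernel
    obtain ⟨t, ht, ht'⟩ := e1 a r ha hr0
    rw [sum_eq_single t (fun t' _ h => h7 _ _ _ (ht' t' h).1 (ht' t' h).2) (by simp), ht, h6]
    exact mul_ne_zero (mul_ne_zero (mul_ne_zero (AddChar.val_isUnit _ _).ne_zero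
      (AddChar.val_isUnit _ _).ne_zero) hκ0) (phi_one ρ Φ h2)

theorem nonzero (ρ : Representation ℂ (Gp k) V) (hρ : Irr ρ) (g : Gp k) (hg : g.t = 0) :
    ρ.character g ≠ 0 := by
  have Tadd : ∀ x y v, ρ ⟨0, 0, x + y, 0⟩ v = ρ ⟨0, 0, x, 0⟩ (ρ ⟨0, 0, y, 0⟩ v) := by
    intro x y v
    rw [rm]
    simp [mul_def]
  obtain ⟨w, hw, he⟩ := exists_common_eigenvector (fun b : K => ρ ⟨0, 0, b, 0⟩) (fun i j v => by
    rw [← Tadd, ← Tadd, add_comm])
  obtain ⟨lam, hlam⟩ := mkChar (fun b : K => ρ ⟨0, 0, b, 0⟩) w hw (by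
    change ρ 1 w = w
    simp) (fun x y => Tadd x y w) he
  obtain ⟨s, hs⟩ := char_K lam
  by_cases h : s = 0
  · refine caseI ρ hρ (fixed_all ρ hρ (fun b : K => ⟨0, 0, b, 0⟩) (fun g i => ?_) w hw
      (fun b => ?_)) g hg
    · refine ⟨ac (3 * -g.t) i, fun v => ?_⟩
      congr 2
      simp only [mul_def, inv_def, add_zero, ac_zero', be_zero', smul_zero, neg_add_cancel,
        K_add, Gp.mk.injEq, true_and, and_true]
      generalize ac (3 * -g.t) g.b = x
      generalize ac (3 * -g.t) i = z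
      generalize be _ _ = y
      revert x y z
      decide +kernel
    · have := hlam b
      rw [hs, h] at this
      simpa [dot, sg] using this
  · exact caseII ρ hρ s h w hw lam hs hlam g hg

end main

theorem zeros_le {V : Type} [AddCommGroup V] [Module ℂ V] [FiniteDimensional ℂ V]
    (ρ : Representation ℂ (Gp k) V) (hρ : ρ.IsIrreducible) :
    {c : ConjClasses (Gp k) | ∃ g, ConjClasses.mk g = c ∧ ρ.character g = 0}.ncard ≤ 6 := by
  classical
  have hnt : Nontrivial V := by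
    by_contra hc
    rw [not_nontrivial_iff_subsingleton] at hc
    exact (bot_ne_top : (⊥ : Subrepresentation ρ) ≠ ⊤)
      (Subrepresentation.toSubmodule_injective (Subsingleton.elim _ _))
  have hirr : Irr ρ := fun W hW => by
    rcases eq_bot_or_eq_top (⟨W, fun g v hv => hW g v hv⟩ : Subrepresentation ρ) with h | h
    · exact Or.inl (congrArg Subrepresentation.toSubmodule h)
    · exact Or.inr (congrArg Subrepresentation.toSubmodule h)
  have hsub : {c : ConjClasses (Gp k) | ∃ g, ConjClasses.mk g = c ∧ ρ.character g = 0} ⊆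
      ((univ.erase (0 : ZMod 7)).image fun t => ConjClasses.mk (ta t : Gp k) :
        Finset (ConjClasses (Gp k))) := by
    rintro _ ⟨g, rfl, hg⟩
    have h : g.t ≠ 0 := fun h => nonzero ρ hirr g h hg
    simp only [coe_image, Set.mem_image, mem_coe, mem_erase, mem_univ, and_true]
    exact ⟨g.t, h, ConjClasses.mk_eq_mk_iff_isConj.2 (conj_out g h)⟩
  refine (Set.ncard_le_ncard hsub (Finset.finite_toSet _)).trans ?_
  rw [Set.ncard_coe_finset]
  exact card_image_le.trans (by decide)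

end Pool.Agent.H76.SuzB
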