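import Pool.Agent.H76.CharField

set_option autoImplicit false

namespace Pool.Agent.H76.Usr

open Equiv Equiv.Perm

theorem cycleType_pow {α : Type} [Fintype α] [DecidableEq α] (σ : Perm α) (j : ℕ)
    (h : j.Coprime (orderOf σ)) : (σ ^ j).cycleType = σ.cycleType := by
  induction σ using cycle_induction_on with
  | base_one => simp
  | base_cycles σ hσ =>
    rw [(hσ.pow_iff.2 h).cycleType, hσ.cycleType, support_pow_coprime h]
  | induction_disjoint σ τ hd hc h1 h2 =>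
    rw [hd.orderOf] at h
    rw [hd.commute.mul_pow, (hd.pow_disjoint_pow j j).cycleType_mul, hd.cycleType_mul,
      h1 (h.coprime_dvd_right (Nat.dvd_lcm_left _ _)),
      h2 (h.coprime_dvd_right (Nat.dvd_lcm_right _ _))]

theorem perm_rat {α : Type} [Fintype α] [DecidableEq α] (σ τ : Perm α)
    (h1 : τ ∈ Subgroup.zpowers σ) (h2 : σ ∈ Subgroup.zpowers τ) : IsConj σ τ := by
  obtain ⟨j, rfl⟩ := mem_powers_iff_mem_zpowers.2 h1
  rw [isConj_iff_cycleType_eq, cycleType_pow]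
  exact mem_zpowers_pow_iff.1 h2

abbrev D := DihedralGroup 4

theorem D_pow (a : D) : a ^ 4 = 1 := by revert a; decide

theorem D_rat (a b : D) (h1 : b ∈ Subgroup.zpowers a) (h2 : a ∈ Subgroup.zpowers b) :
    ∃ c, c * a * c⁻¹ = b := by
  have aux : ∀ a b : D, b ∈ Subgroup.zpowers a → ∃ i : Fin 4, b = a ^ (i : ℕ) := by
    intro a b h
    obtain ⟨j, rfl⟩ := mem_powers_iff_mem_zpowers.2 h
    exact ⟨⟨j % 4, Nat.mod_lt _ (by norm_num)⟩, pow_eq_pow_mod j (D_pow a)⟩
  have h1' := aux a b h1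
  have h2' := aux b a h2
  clear h1 h2 aux
  revert a b
  decide

/-- sign character with kernel the rotations -/
def chi : D →* ℤˣ where
  toFun
    | .r _ => 1
    | .sr _ => -1
  map_one' := rfl
  map_mul' := by decide

/-- product of the two sign characters -/
def eps (α : Type) [Fintype α] [DecidableEq α] : Perm α × D →* ℤˣ :=
  sign.coprod chi

theorem eps_apply {α : Type} [Fintype α] [DecidableEq α] (x : Perm α) (y : D) :
    eps α (x, y) = sign x * chi y := rfl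

theorem D_split (y : D) : (∃ d, chi d = -1 ∧ d * y * d⁻¹ = y) ∨
    (∃ d, chi d = -1 ∧ d * y * d⁻¹ = y ^ 3) := by
  revert y; decide

theorem usr (α : Type) [Fintype α] [DecidableEq α] (m : ℕ) (hm4 : m % 4 = 3)
    (hm : ∀ x : Perm α, Odd (orderOf x) → x ^ m = x) (x y : (eps α).ker)
    (h : Subgroup.zpowers y = Subgroup.zpowers x) : IsConj y x ∨ IsConj y (x ^ m) := by
  obtain ⟨⟨x₁, x₂⟩, hx⟩ := x
  obtain ⟨⟨y₁, y₂⟩, hy⟩ := y
  have h1 := (h ▸ Subgroup.mem_zpowers _ : (⟨(y₁, y₂), hy⟩ : (eps α).ker) ∈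
    Subgroup.zpowers ⟨(x₁, x₂), hx⟩)
  have h2 := (h.symm ▸ Subgroup.mem_zpowers _ : (⟨(x₁, x₂), hx⟩ : (eps α).ker) ∈
    Subgroup.zpowers ⟨(y₁, y₂), hy⟩)
  obtain ⟨a, ha⟩ := h1
  obtain ⟨b, hb⟩ := h2
  have ha' : (x₁, x₂) ^ a = (y₁, y₂) := congrArg Subtype.val ha
  have hb' : (y₁, y₂) ^ b = (x₁, x₂) := congrArg Subtype.val hb
  obtain ⟨s₁, hs₁⟩ := isConj_iff.1
    (perm_rat y₁ x₁ ⟨b, congrArg Prod.fst hb'⟩ ⟨a, congrArg Prod.fst ha'⟩)
  obtain ⟨s₂, hs₂⟩ := D_rat y₂ x₂ ⟨b, congrArg Prod.snd hb'⟩ ⟨a, congrArg Prod.snd ha'⟩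
  have hs : (s₁, s₂) * (y₁, y₂) * (s₁, s₂)⁻¹ = (x₁, x₂) := Prod.ext hs₁ hs₂
  rcases Int.units_eq_one_or (eps α (s₁, s₂)) with he | he
  · exact Or.inl (isConj_iff.2 ⟨⟨_, he⟩, Subtype.ext hs⟩)
  have key : ∃ t, eps α t = -1 ∧ (t * (x₁, x₂) * t⁻¹ = (x₁, x₂) ∨
      t * (x₁, x₂) * t⁻¹ = (x₁, x₂) ^ m) := by
    rcases D_split x₂ with ⟨d, hd, hd'⟩ | ⟨d, hd, hd'⟩
    · exact ⟨(1, d), by simp [eps_apply, hd], Or.inl (Prod.ext (by simp) hd')⟩
    by_cases hc : Subgroup.centralizer {x₁} ≤ alternatingGroup α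
    · have hodd : Odd (orderOf x₁) := by
        have h3 := (centralizer_le_alternating_iff.1 hc).1
        rw [← lcm_cycleType, ← Nat.not_even_iff_odd, even_iff_two_dvd]
        intro h4
        obtain ⟨c, hc1, hc2⟩ := Nat.prime_two.prime.exists_mem_multiset_dvd
          (h4.trans (Multiset.lcm_dvd.2 fun c hc => Multiset.dvd_prod hc))
        exact (Nat.not_even_iff_odd.2 (h3 c hc1)) (even_iff_two_dvd.2 hc2)
      refine ⟨(1, d), by simp [eps_apply, hd], Or.inr (Prod.ext ?_ ?_)⟩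
      · simp [hm x₁ hodd]
      · rw [Prod.pow_snd, pow_eq_pow_mod m (D_pow x₂), hm4]
        exact hd'
    · rw [SetLike.not_le_iff_exists] at hc
      obtain ⟨c, hc1, hc2⟩ := hc
      rw [Subgroup.mem_centralizer_singleton_iff] at hc1
      refine ⟨(c, 1), ?_, Or.inl (Prod.ext ?_ (by simp))⟩
      · rw [eps_apply, map_one, mul_one]
        exact (Int.units_eq_one_or _).resolve_left hc2
      · simp [hc1]
  obtain ⟨t, ht, ht'⟩ := key
  have hts : t * (s₁, s₂) ∈ (eps α).ker := by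
    rw [MonoidHom.mem_ker, map_mul, ht, he]; simp
  have e : t * (s₁, s₂) * (y₁, y₂) * (t * (s₁, s₂))⁻¹ = t * (x₁, x₂) * t⁻¹ := by
    rw [← hs]; group
  rcases ht' with h3 | h3
  · exact Or.inl (isConj_iff.2 ⟨⟨_, hts⟩, Subtype.ext (e.trans h3)⟩)
  · exact Or.inr (isConj_iff.2 ⟨⟨_, hts⟩, Subtype.ext (e.trans h3)⟩)

theorem sign_gen (p : ℕ) [Fact p.Prime] (hp : Odd p) :
    ∃ g : (ZMod p)ˣ, sign (g.mulLeft : Perm (ZMod p)) = -1 := by
  obtain ⟨g, hg⟩ := IsCyclic.exists_generator (α := (ZMod p)ˣ)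
  have hp2 : 2 < p := lt_of_le_of_ne (Fact.out : p.Prime).two_le (by rintro rfl; exact absurd hp (by decide))
  have : Fact (2 < p) := ⟨hp2⟩
  have hg1 : (g : ZMod p) ≠ 1 := by
    intro h
    have h1 : g = 1 := Units.ext h
    obtain ⟨k, hk⟩ := hg (-1)
    rw [h1] at hk
    simp only [one_zpow] at hk
    exact ZMod.neg_one_ne_one (congrArg Units.val hk).symm
  have hsupp : (g.mulLeft : Perm (ZMod p)).support = Finset.univ.erase 0 := by
    ext y
    simp only [mem_support, Units.mulLeft_apply, Finset.mem_erase, Finset.mem_univ, and_true]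
    constructor
    · rintro h rfl
      simp at h
    · intro h h'
      exact hg1 (mul_right_cancel₀ h (by rw [h', one_mul]))
  have hpow : ∀ (k : ℕ) (y : ZMod p), ((g.mulLeft : Perm (ZMod p)) ^ k) y = g ^ k * y := by
    intro k y
    induction k with
    | zero => simp
    | succ k ih => rw [pow_succ', Perm.mul_apply, ih, pow_succ', mul_assoc]; rfl
  have hc : IsCycle (g.mulLeft : Perm (ZMod p)) := by
    refine ⟨1, by simpa using hg1, fun y hy => ?_⟩
    have hy0 : y ≠ 0 := by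
      rintro rfl
      simp at hy
    obtain ⟨k, hk⟩ := mem_powers_iff_mem_zpowers.2 (hg (Units.mk0 y hy0))
    refine ⟨(k : ℤ), ?_⟩
    rw [zpow_natCast, hpow, mul_one]
    have := congrArg Units.val hk
    simpa using this
  refine ⟨g, ?_⟩
  rw [hc.sign, hsupp, Finset.card_erase_of_mem (Finset.mem_univ _), Finset.card_univ, ZMod.card,
    Even.neg_one_pow (Nat.Odd.sub_odd hp odd_one)]

theorem tr_pow {p q : ℕ} (u : ZMod p) (v : ZMod q) (k : ℕ) :
    (Perm.sumCongr (Equiv.addRight u) (Equiv.addRight v)) ^ k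
      = Perm.sumCongr (Equiv.addRight (k * u)) (Equiv.addRight (k * v)) := by
  induction k with
  | zero => ext (x | x) <;> simp
  | succ k ih =>
    rw [pow_succ, ih]
    ext (x | x) <;> simp <;> ring

theorem exX₀ (p q : ℕ) [Fact p.Prime] [NeZero q] (hp : Odd p) (hq : Odd q) (hq1 : 1 < q)
    (hpq : p.Coprime q) :
    ∃ x s : Perm (ZMod p ⊕ ZMod q), ∃ g : ℕ, g.Coprime p ∧ sign s = -1 ∧
      (∀ t, t * x = x * t → sign t = 1) ∧
      (∀ j, j ≡ g [MOD p] → j ≡ 1 [MOD q] → x ^ j = s * x * s⁻¹) ∧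
      (∀ j, j ≡ 1 [MOD p] → j ≡ 1 [MOD q] → x ^ j = x) := by
  obtain ⟨g, hg⟩ := sign_gen p hp
  refine ⟨Perm.sumCongr (Equiv.addRight 1) (Equiv.addRight 1), Perm.sumCongr g.mulLeft 1, (g : ZMod p).val,
    ZMod.val_coe_unit_coprime g, by simp [hg], ?_, ?_, ?_⟩
  · intro t ht
    have hc : ∀ (k : ℕ) y, t (Perm.sumCongr (Equiv.addRight (k : ZMod p)) (Equiv.addRight (k : ZMod q)) y)
        = Perm.sumCongr (Equiv.addRight (k : ZMod p)) (Equiv.addRight (k : ZMod q)) (t y) := by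
      intro k y
      have := (Commute.pow_right ht k).eq
      rw [tr_pow] at this
      simpa using DFunLike.congr_fun this y
    obtain ⟨u, hu⟩ : ∃ u, t (Sum.inl 0) = Sum.inl u := by
      rcases h : t (Sum.inl 0) with u | v
      · exact ⟨u, rfl⟩
      · have := hc p (Sum.inl 0)
        simp only [Perm.sumCongr_apply, Sum.map_inl, ZMod.natCast_self, coe_addRight, add_zero, h,
          Sum.map_inr, Sum.inr.injEq, left_eq_add, ZMod.natCast_eq_zero_iff] at this
        have := Nat.Coprime.eq_one_of_dvd hpq.symm this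
        omega
    obtain ⟨v, hv⟩ : ∃ v, t (Sum.inr 0) = Sum.inr v := by
      rcases h : t (Sum.inr 0) with u | v
      · have := hc q (Sum.inr 0)
        simp only [Perm.sumCongr_apply, Sum.map_inl, ZMod.natCast_self, coe_addRight, add_zero, h,
          Sum.map_inr, Sum.inl.injEq, left_eq_add, ZMod.natCast_eq_zero_iff] at this
        exact absurd this ((Nat.Prime.coprime_iff_not_dvd Fact.out).1 hpq)
      · exact ⟨v, rfl⟩
    have e : t = Perm.sumCongr (Equiv.addRight u) (Equiv.addRight v) := by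
      ext (a | a)
      · have := hc a.val (Sum.inl 0)
        simpa [hu, add_comm] using this
      · have := hc a.val (Sum.inr 0)
        simpa [hv, add_comm] using this
    have h1 : t ^ (p * q) = 1 := by
      rw [e, tr_pow]
      ext (a | a) <;> simp
    have h2 := congrArg sign h1
    rw [map_pow, map_one] at h2
    rcases Int.units_eq_one_or (sign t) with h | h
    · exact h
    · rw [h, Odd.neg_one_pow (hp.mul hq)] at h2
      exact absurd h2 (by decide)
  · intro j h1 h2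
    rw [tr_pow, eq_mul_inv_iff_mul_eq, (ZMod.natCast_eq_natCast_iff _ _ _).2 h1,
      (ZMod.natCast_eq_natCast_iff _ _ _).2 h2]
    ext (a | a) <;> simp [mul_add]
  · intro j h1 h2
    rw [tr_pow, (ZMod.natCast_eq_natCast_iff _ _ _).2 h1,
      (ZMod.natCast_eq_natCast_iff _ _ _).2 h2]
    simp

theorem exX (α : Type) [Fintype α] [DecidableEq α] (p q : ℕ) (hpp : p.Prime) (hp : Odd p)
    (hq : Odd q) (hq1 : 1 < q) (hpq : p.Coprime q) (hcard : Fintype.card α = p + q) :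
    ∃ x s : Perm α, ∃ g : ℕ, g.Coprime p ∧ sign s = -1 ∧
      (∀ t, t * x = x * t → sign t = 1) ∧
      (∀ j, j ≡ g [MOD p] → j ≡ 1 [MOD q] → x ^ j = s * x * s⁻¹) ∧
      (∀ j, j ≡ 1 [MOD p] → j ≡ 1 [MOD q] → x ^ j = x) := by
  have : Fact p.Prime := ⟨hpp⟩
  have : NeZero q := ⟨by omega⟩
  obtain ⟨x, s, g, h1, h2, h3, h4, h5⟩ := exX₀ p q hp hq hq1 hpq
  let e : ZMod p ⊕ ZMod q ≃ α := Fintype.equivOfCardEq (by simp [hcard])
  let φ := e.permCongrHom
  have hφ : ∀ t, sign (φ t) = sign t := fun t => sign_permCongr e t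
  refine ⟨φ x, φ s, g, h1, by rw [hφ, h2], ?_, ?_, ?_⟩
  · intro t ht
    obtain ⟨t, rfl⟩ := φ.surjective t
    rw [hφ]
    exact h3 t (φ.injective (by rw [map_mul, map_mul, ht]))
  · intro j a b
    rw [← map_pow, h4 j a b, map_mul, map_mul, map_inv]
  · intro j a b
    rw [← map_pow, h5 j a b]

theorem D_cent (d : D) (h : d * .r 1 * d⁻¹ = .r 1) : chi d = 1 := by
  revert d; decide

theorem main (c : ℕ) : ∃ (G : Type) (_ : Group G) (_ : Finite G),
    (∃ m : ℕ, m.Coprime (Nat.card G) ∧ ∀ x y : G, Subgroup.zpowers y = Subgroup.zpowers x →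
      IsConj y x ∨ IsConj y (x ^ m)) ∧ c < Module.finrank ℚ (CharField.cf G) := by
  classical
  have hinf : Set.Infinite ({p : ℕ | p.Prime} \ {2}) :=
    Nat.infinite_setOfPred_prime.sdiff (Set.finite_singleton 2)
  obtain ⟨S, hS, hSc⟩ := hinf.exists_subset_card_eq (c + 1)
  have hSp : ∀ p ∈ S, p.Prime ∧ Odd p := fun p hp =>
    ⟨(hS hp).1, (hS hp).1.odd_of_ne_two (hS hp).2⟩
  obtain ⟨N, hN2, hN⟩ : ∃ N, 2 ≤ N ∧ ∀ p ∈ S, p ≤ N :=
    ⟨S.sup id + 2, by omega, fun p hp => (Finset.le_sup (f := id) hp).trans (by omega)⟩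
  obtain ⟨n, hn⟩ : ∃ n, n = N.factorial + 2 := ⟨_, rfl⟩
  obtain ⟨E, hE⟩ : ∃ E, E = n.factorial * 8 := ⟨_, rfl⟩
  have hE0 : E ≠ 0 := by rw [hE]; positivity
  have hcP : Nat.card (Perm (Fin n)) = n.factorial := by
    rw [Nat.card_eq_fintype_card, Fintype.card_perm, Fintype.card_fin]
  have hcH : Nat.card (Perm (Fin n) × D) = E := by
    rw [Nat.card_prod, hcP, hE, DihedralGroup.nat_card]
  have hcG : Nat.card (eps (Fin n)).ker ∣ E := hcH ▸ Subgroup.card_subgroup_dvd_card _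
  refine ⟨(eps (Fin n)).ker, inferInstance, inferInstance, ?_, ?_⟩
  · obtain ⟨a, Q, hQ, hEQ⟩ := Nat.exists_eq_two_pow_mul_odd hE0
    refine ⟨1 + 2 * Q, Nat.Coprime.coprime_dvd_right hcG ?_, usr _ _ ?_ ?_⟩
    · rw [hEQ]
      refine Nat.Coprime.mul_right (Nat.Coprime.pow_right _ ?_) (by simp)
      rw [Nat.coprime_two_right]
      exact ⟨Q, by ring⟩
    · obtain ⟨k, rfl⟩ := hQ
      omega
    · intro x hx
      have h1 : orderOf x ∣ 2 ^ a * Q := by
        rw [← hEQ, hE, ← hcP]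
        exact (orderOf_dvd_natCard x).mul_right _
      have h2 : orderOf x ∣ Q := Nat.Coprime.dvd_of_dvd_mul_left
        (Nat.Coprime.pow_right _ (Nat.coprime_two_right.2 hx)) h1
      rw [pow_add, pow_one, mul_comm 2, pow_mul, orderOf_dvd_iff_pow_eq_one.1 h2]
      simp
  · have hNf : N ≤ N.factorial := Nat.self_le_factorial N
    have hdv : ∀ p ∈ S, p ∣ N.factorial := fun p hp =>
      Nat.dvd_factorial (hSp p hp).1.pos (hN p hp)
    have hcop : ∀ p ∈ S, ∀ r ∈ S, p ≤ r → r.Coprime (n - p) := by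
      intro p hp r hr hpr
      rw [(hSp r hr).1.coprime_iff_not_dvd]
      intro h
      have hp2 := (hSp p hp).1.two_le
      have hp3 : p ≠ 2 := (hS hp).2
      have hpN := hN p hp
      have e : N.factorial = n - p + (p - 2) := by omega
      have h2 : r ∣ p - 2 := (Nat.dvd_add_right h).1 (e ▸ hdv r hr)
      have := Nat.le_of_dvd (by omega) h2
      omega
    have hX : ∀ p : S, ∃ x s : Perm (Fin n), ∃ g : ℕ, g.Coprime p ∧ sign s = -1 ∧
        (∀ t, t * x = x * t → sign t = 1) ∧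
        (∀ j, j ≡ g [MOD p] → j ≡ 1 [MOD (n - p)] → x ^ j = s * x * s⁻¹) ∧
        (∀ j, j ≡ 1 [MOD p] → j ≡ 1 [MOD (n - p)] → x ^ j = x) := by
      rintro ⟨p, hp⟩
      have hpN := hN p hp
      refine exX _ p (n - p) (hSp p hp).1 (hSp p hp).2 ?_ (by omega) (hcop p hp p hp le_rfl)
        (by rw [Fintype.card_fin]; omega)
      refine Nat.Even.sub_odd (by omega) ?_ (hSp p hp).2
      rw [hn]
      exact (even_iff_two_dvd.2 (Nat.dvd_factorial (by norm_num) hN2)).add even_two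
    choose x s g hg hs hx h1 h2 using hX
    have hJ : ∀ p : S, ∃ j : ℕ, j.Coprime E ∧ j ≡ g p [MOD p] ∧
        ∀ d, d ∣ E → (p : ℕ).Coprime d → j ≡ 1 [MOD d] := by
      intro p
      obtain ⟨a, R, hR, hER⟩ := Nat.exists_eq_pow_mul_and_not_dvd hE0 p (hSp p p.2).1.ne_one
      have hco : (p : ℕ).Coprime R := (hSp p p.2).1.coprime_iff_not_dvd.2 hR
      obtain ⟨j, hj1, hj2⟩ := Nat.chineseRemainder hco (g p) 1
      refine ⟨j, ?_, hj1, fun d hd hd' => hj2.of_dvd ?_⟩
      · rw [hER]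
        refine Nat.Coprime.mul_right (Nat.Coprime.pow_right _ ?_) ?_
        · rw [Nat.Coprime, hj1.gcd_eq]; exact hg p
        · rw [Nat.Coprime, hj2.gcd_eq]; simp
      · rw [hER] at hd
        exact Nat.Coprime.dvd_of_dvd_mul_left (Nat.Coprime.pow_right _ hd'.symm) hd
    choose j hj hj1 hj2 using hJ
    have hmain : ∀ a b : S, (a : ℕ) < b → ∃ γ : (eps (Fin n)).ker,
        ¬ IsConj (γ ^ j b) (γ ^ j a) := by
      intro a b hab
      have haN := hN a a.2
      have ha0 := (hSp a a.2).1.pos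
      have d1 : n - a ∣ E := hE ▸ (Nat.dvd_factorial (by omega) (by omega)).mul_right _
      have d2 : (a : ℕ) ∣ E := hE ▸ (Nat.dvd_factorial ha0 (by omega)).mul_right _
      have d3 : 4 ∣ E := hE ▸ Dvd.dvd.mul_left (by norm_num) _
      have c4 : ∀ p : S, (DihedralGroup.r 1 : D) ^ j p = .r 1 := by
        intro p
        have : j p % 4 = 1 := hj2 p 4 d3 (Nat.Coprime.pow_right 2
          (Nat.coprime_two_right.2 (hSp p p.2).2))
        rw [pow_eq_pow_mod _ (D_pow _), this, pow_one]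
      have hγ : (x a, (DihedralGroup.r 1 : D)) ∈ (eps (Fin n)).ker := by
        rw [MonoidHom.mem_ker, eps_apply, hx a _ rfl]
        rfl
      refine ⟨⟨_, hγ⟩, fun hc => ?_⟩
      obtain ⟨⟨⟨t, d⟩, htd⟩, hc⟩ := isConj_iff.1 hc
      have hc' : (t, d) * (x a, (DihedralGroup.r 1 : D)) ^ j b * (t, d)⁻¹
          = (x a, (DihedralGroup.r 1 : D)) ^ j a := congrArg Subtype.val hc
      have e1 : t * x a ^ j b * t⁻¹ = x a ^ j a := congrArg Prod.fst hc'
      have e2 : d * (DihedralGroup.r 1 : D) ^ j b * d⁻¹ = (DihedralGroup.r 1 : D) ^ j a :=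
        congrArg Prod.snd hc'
      rw [c4, c4] at e2
      rw [h1 a _ (hj1 a) (hj2 a _ d1 (hcop a a.2 a a.2 le_rfl)),
        h2 a _ (hj2 b _ d2 ((Nat.coprime_primes (hSp b b.2).1 (hSp a a.2).1).2 hab.ne'))
          (hj2 b _ d1 (hcop a a.2 b b.2 hab.le))] at e1
      rw [MonoidHom.mem_ker, eps_apply, D_cent d e2, mul_one] at htd
      have := hx a ((s a)⁻¹ * t) (by
        calc (s a)⁻¹ * t * x a = (s a)⁻¹ * (t * x a * t⁻¹) * t := by group
          _ = x a * ((s a)⁻¹ * t) := by rw [e1]; group)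
      rw [map_mul, map_inv, hs, htd] at this
      exact absurd this (by decide)
    have := CharField.card_le (G := (eps (Fin n)).ker) E (Nat.pos_of_ne_zero hE0)
      (fun γ => orderOf_dvd_iff_pow_eq_one.1 ((orderOf_dvd_natCard γ).trans hcG)) j hj (by
        intro a b hab
        rcases lt_or_gt_of_ne (fun h => hab (Subtype.ext h) : (a : ℕ) ≠ b) with h | h
        · obtain ⟨γ, hγ⟩ := hmain a b h
          exact ⟨γ, fun h' => hγ h'.symm⟩
        · exact hmain b a h)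
    rw [Fintype.card_coe, hSc] at this
    exact this

end Pool.Agent.H76.Usr
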